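import Pool.Agent.P.MP_1a0ecf_al.G5

/-! Matrix model of graded bimodules that are free of finite rank on the right. -/

namespace Pool.Agent.P.MP_1a0ecf_al

open Matrix MvPolynomial
open scoped Classical Kronecker

noncomputable section

abbrev Rn (n : ℕ) : Type := MvPolynomial (Fin n) ℝ

variable {n : ℕ}

/-- homogeneous of degree `k`, the variables having degree two -/
def Hg (p : Rn n) (k : ℤ) : Prop := p.IsWeightedHomogeneous (fun _ => (2 : ℤ)) k

/-- a matrix that is homogeneous of degree `k` -/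
def Gr {ι κ : Type} (d : ι → ℤ) (d' : κ → ℤ) (k : ℤ) (F : Matrix κ ι (Rn n)) : Prop :=
  ∀ i j, Hg (F i j) (d j + k - d' i)

theorem Hg.zero (k : ℤ) : Hg (0 : Rn n) k := isWeightedHomogeneous_zero ℝ _ k

theorem Hg.add {p q : Rn n} {k : ℤ} (hp : Hg p k) (hq : Hg q k) : Hg (p + q) k :=
  IsWeightedHomogeneous.add hp hq

theorem Hg.smul {p : Rn n} {k : ℤ} (hp : Hg p k) (a : ℝ) : Hg (a • p) k :=
  (weightedHomogeneousSubmodule ℝ (fun _ => (2 : ℤ)) k).smul_mem a hp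

theorem Hg.mul {p q : Rn n} {k l : ℤ} (hp : Hg p k) (hq : Hg q l) : Hg (p * q) (k + l) :=
  IsWeightedHomogeneous.mul hp hq

theorem Hg.cases {p : Rn n} {k : ℤ} (hp : Hg p k) :
    p = 0 ∨ ∃ m : ℕ, k = 2 * m ∧ p.IsHomogeneous m := by
  by_cases h : p = 0
  · exact Or.inl h
  have key : ∀ d : Fin n →₀ ℕ, Finsupp.weight (fun _ => (2 : ℤ)) d =
      2 * ((Finsupp.weight (fun _ => 1) d : ℕ) : ℤ) := by
    intro d
    simp only [Finsupp.weight_apply, Finsupp.sum, smul_eq_mul, mul_one, nsmul_eq_mul]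
    push_cast
    rw [Finset.mul_sum]
    exact Finset.sum_congr rfl fun _ _ => mul_comm _ _
  obtain ⟨d, hd⟩ := exists_coeff_ne_zero h
  refine Or.inr ⟨Finsupp.weight (fun _ => 1) d, by rw [← key, hp hd], fun e he => ?_⟩
  have h1 := hp he
  have h2 := hp hd
  rw [key] at h1 h2
  have : ((Finsupp.weight (fun _ => 1) e : ℕ) : ℤ) = ((Finsupp.weight (fun _ => 1) d : ℕ) : ℤ) := by
    omega
  exact_mod_cast this

theorem Hg.of_hom {p : Rn n} {m : ℕ} (hp : p.IsHomogeneous m) : Hg p (2 * m) := by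
  intro d hd
  have := hp hd
  rw [← this]
  simp only [Finsupp.weight_apply, Finsupp.sum, smul_eq_mul, nsmul_eq_mul, Pi.one_apply, mul_one]
  push_cast
  rw [Finset.mul_sum]
  exact Finset.sum_congr rfl fun _ _ => mul_comm _ _

structure Bim (n : ℕ) where
  ι : Type
  [fin : Fintype ι]
  [dec : DecidableEq ι]
  d : ι → ℤ
  A : Rn n →ₐ[ℝ] Matrix ι ι (Rn n)
  gr : ∀ p k, Hg p k → Gr d d k (A p)

attribute [instance] Bim.fin Bim.dec

/-- bimodule maps of degree `k` -/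
def Hom (N M : Bim n) (k : ℤ) : Submodule ℝ (Matrix M.ι N.ι (Rn n)) where
  carrier := {F | Gr N.d M.d k F ∧ ∀ p, M.A p * F = F * N.A p}
  add_mem' := fun {F G} hF hG => ⟨fun i j => (hF.1 i j).add (hG.1 i j), fun p => by
    rw [Matrix.mul_add, Matrix.add_mul, hF.2, hG.2]⟩
  zero_mem' := ⟨fun _ _ => Hg.zero _, fun p => by simp⟩
  smul_mem' := fun a F hF => ⟨fun i j => (hF.1 i j).smul a, fun p => by
    rw [Matrix.mul_smul, Matrix.smul_mul, hF.2]⟩

/-- `F ⊗ id_N` -/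
def Th (N : Bim n) {ι κ : Type} (F : Matrix κ ι (Rn n)) : Matrix (κ × N.ι) (ι × N.ι) (Rn n) :=
  fun a b => N.A (F a.1 b.1) a.2 b.2

/-- tensor product -/
abbrev Bim.tens (M N : Bim n) : Bim n where
  ι := M.ι × N.ι
  d := fun a => M.d a.1 + N.d a.2
  A := (compAlgEquiv M.ι N.ι (Rn n) ℝ).toAlgHom.comp (N.A.mapMatrix.comp M.A)
  gr := fun p k hp a b => by
    have := N.gr _ _ (M.gr p k hp a.1 b.1) a.2 b.2
    rwa [show N.d b.2 + (M.d b.1 + k - M.d a.1) - N.d a.2 =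
      M.d b.1 + N.d b.2 + k - (M.d a.1 + N.d a.2) by ring] at this

theorem Bim.tens_A (M N : Bim n) (p : Rn n) : (M.tens N).A p = Th N (M.A p) := rfl

/-- shift: all basis degrees are raised by `k` -/
abbrev Bim.shift (N : Bim n) (k : ℤ) : Bim n where
  ι := N.ι
  d := fun a => N.d a + k
  A := N.A
  gr := fun p l hp a b => by
    have := N.gr p l hp a b
    convert this using 1
    ring

def Iso (N M : Bim n) : Prop := ∃ f ∈ Hom N M 0, ∃ g ∈ Hom M N 0, g * f = 1 ∧ f * g = 1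

/-- `M` is the direct sum of `N` and `N'` -/
def Split (M N N' : Bim n) : Prop :=
  ∃ i ∈ Hom N M 0, ∃ p ∈ Hom M N 0, ∃ i' ∈ Hom N' M 0, ∃ p' ∈ Hom M N' 0,
    p * i = 1 ∧ p' * i' = 1 ∧ i * p + i' * p' = 1

/-- constant terms -/
def cst {ι κ : Type} (F : Matrix κ ι (Rn n)) : Matrix κ ι ℝ := F.map constantCoeff

/-- a nondegenerate invariant symmetric form -/
def IsForm (M : Bim n) (G : Matrix M.ι M.ι (Rn n)) : Prop :=
  Gᵀ = G ∧ (∀ i j, Hg (G i j) (M.d i + M.d j)) ∧ (∀ p, (M.A p)ᵀ * G = G * M.A p) ∧ IsUnit G.det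

theorem Hg.act (X : Cox) (w : X.W) {p : Rn X.n} {k : ℤ} (hp : Hg p k) : Hg (X.act ℝ w p) k := by
  rcases hp.cases with rfl | ⟨m, rfl, h⟩
  · simpa using Hg.zero k
  · exact Hg.of_hom (X.act_hom ℝ w h)

theorem Hg.dd (X : Cox) {t : X.W} (ht : X.cs.IsReflection t) {p : Rn X.n} {k : ℤ} (hp : Hg p k) :
    Hg (X.dd ℝ t p) (k - 2) := by
  rcases hp.cases with rfl | ⟨m, rfl, h⟩
  · simpa using Hg.zero _
  · cases m with
    | zero =>
      rw [← totalDegree_zero_iff_isHomogeneous, totalDegree_eq_zero_iff_eq_C] at h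
      rw [h, Cox.dd_C ℝ ht]
      exact Hg.zero _
    | succ m =>
      have := Hg.of_hom (Cox.dd_hom ℝ ht h)
      convert this using 1
      push_cast
      ring

namespace Cox

variable (X : Cox)

/-- the standard bimodule `R_w` -/
abbrev Rw (w : X.W) : Bim X.n where
  ι := Unit
  d := fun _ => 0
  A := (scalarAlgHom Unit ℝ).comp (X.act ℝ w⁻¹)
  gr := fun p k hp a b => by
    simpa using hp.act X w⁻¹

/-- left multiplication on `B_s` in the basis `c_id`, `c_s` -/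
def theta (i : Fin X.n) : Rn X.n →ₐ[ℝ] Matrix (Fin 2) (Fin 2) (Rn X.n) :=
  AlgHom.ofLinearMap
    { toFun := fun p => !![X.act ℝ (X.s i) p, 0; X.dd ℝ (X.s i) p, p]
      map_add' := fun p q => by
        ext a b : 2
        fin_cases a <;> fin_cases b <;> simp
      map_smul' := fun a p => by
        ext a b : 2
        fin_cases a <;> fin_cases b <;> simp }
    (by
      have := dd_C ℝ (X.cs.isReflection_simple i) 1
      ext a b : 2
      fin_cases a <;> fin_cases b <;> simp_all)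
    (fun p q => by
      have := dd_mul' ℝ (X.cs.isReflection_simple i) p q
      ext a b : 2
      fin_cases a <;> fin_cases b <;> simp [Matrix.mul_apply, Fin.sum_univ_two, this])

theorem theta_apply (i : Fin X.n) (p : Rn X.n) :
    X.theta i p = !![X.act ℝ (X.s i) p, 0; X.dd ℝ (X.s i) p, p] := rfl

/-- the bimodule `B_s` -/
abbrev Bs (i : Fin X.n) : Bim X.n where
  ι := Fin 2
  d := ![-1, 1]
  A := X.theta i
  gr := fun p k hp a b => by
    have h1 := hp.act X (X.s i)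
    have h2 := hp.dd X (X.cs.isReflection_simple i)
    rw [theta_apply]
    fin_cases a <;> fin_cases b
    · simpa using h1
    · simpa using Hg.zero _
    · rw [show k - 2 = -1 + k - 1 by ring] at h2
      simpa using h2
    · simpa using hp

/-- the form induced on `M B_s` -/
def formS (i : Fin X.n) {ι : Type} [Fintype ι] [DecidableEq ι] (G : Matrix ι ι (Rn X.n)) :
    Matrix (ι × Fin 2) (ι × Fin 2) (Rn X.n) :=
  ((1 : Matrix ι ι (Rn X.n)) ⊗ₖ !![0, 1; 1, MvPolynomial.X i]) * Th (X.Bs i) G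

/-- the multiplication map `M B_s → M` -/
def dot (i : Fin X.n) (ι : Type) [DecidableEq ι] : Matrix ι (ι × Fin 2) (Rn X.n) :=
  fun a b => if a = b.1 then ![1, MvPolynomial.X i] b.2 else 0

/-- triangular form with long elements first -/
def IsFlag (N : Bim X.n) (w : N.ι → X.W) : Prop :=
  ∀ v a b, (a = b → N.A (lin ℝ v) a b = X.act ℝ (w a)⁻¹ (lin ℝ v)) ∧
    (a ≠ b → N.A (lin ℝ v) a b ≠ 0 → X.gt (w a) (w b))

/-- `N` has a flag -/
def Fld (N : Bim X.n) : Prop := ∃ N' w, Iso N N' ∧ X.IsFlag N' w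

/-- a substitute for the freeness of `Hom (N, M)` -/
def QP (M : Bim X.n) : Prop :=
  ∀ q, q ∉ X.invI ℝ → ∀ N, X.Fld N → ∀ k, ∀ F ∈ Hom N M k,
    (∀ a b, (M.A q * F) a b ∈ X.invI ℝ) →
      ∃ G : Fin X.n → Matrix M.ι N.ι (Rn X.n), (∀ b, G b ∈ Hom N M (k - 2)) ∧
        F = ∑ b, M.A (MvPolynomial.X b) * G b

/-- adjunction, `Hom (N, M B_s) → Hom (N B_s, M)` -/
def adjP (i : Fin X.n) {ι κ : Type} (F : Matrix (κ × Fin 2) ι (Rn X.n)) :
    Matrix κ (ι × Fin 2) (Rn X.n) := fun a b =>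
  ![X.dd ℝ (X.s i) (F (a, 0) b.1) + F (a, 1) b.1,
    F (a, 0) b.1 + MvPolynomial.X i * F (a, 1) b.1] b.2

/-- adjunction, `Hom (N B_s, M) → Hom (N, M B_s)` -/
def adjM (i : Fin X.n) {ι κ : Type} (G : Matrix κ (ι × Fin 2) (Rn X.n)) :
    Matrix (κ × Fin 2) ι (Rn X.n) := fun a b =>
  ![MvPolynomial.X i * X.act ℝ (X.s i) (G a.1 (b, 0)) + X.act ℝ (X.s i) (G a.1 (b, 1)),
    -X.act ℝ (X.s i) (G a.1 (b, 0)) + X.dd ℝ (X.s i) (G a.1 (b, 1))] a.2

end Cox

end

end Pool.Agent.P.MP_1a0ecf_al
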