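import Pool.Agent.P.MP_1a0ecf_al.D.Fin

/-! The five exceptional types with one class of reflections. -/

namespace Pool.Agent.P.MP_1a0ecf_al

open CoxeterMatrix

theorem gm_E6 : GordonMartino E₆ :=
  gm_of E₆ (by decide) 0 ![0, 3, 1, 2, 4, 5] (by decide) fun _ _ _ _ =>
    goodE6 _ ⟨rfl, (by decide +kernel : ∀ i j : Fin 6, E₆ i j = tE6.m i j)⟩

theorem gm_E7 : GordonMartino E₇ :=
  gm_of E₇ (by decide) 0 ![0, 3, 1, 2, 4, 5, 6] (by decide) fun _ _ _ _ =>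
    goodE7 _ ⟨rfl, (by decide +kernel : ∀ i j : Fin 7, E₇ i j = tE7.m i j)⟩

theorem gm_E8 : GordonMartino E₈ :=
  gm_of E₈ (by decide) 0 ![0, 3, 1, 2, 4, 5, 6, 7] (by decide) fun _ _ _ _ =>
    goodE8 _ ⟨rfl, (by decide +kernel : ∀ i j : Fin 8, E₈ i j = tE8.m i j)⟩

theorem gm_H3 : GordonMartino H₃ :=
  gm_of H₃ (by decide) 0 ![0, 1, 2] (by decide) fun _ _ _ _ =>
    goodH3 _ ⟨rfl, (by decide +kernel : ∀ i j : Fin 3, H₃ i j = tH3.m i j)⟩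

theorem gm_H4 : GordonMartino H₄ :=
  gm_of H₄ (by decide) 0 ![0, 1, 2, 3] (by decide) fun _ _ _ _ =>
    goodH4 _ ⟨rfl, (by decide +kernel : ∀ i j : Fin 4, H₄ i j = tH4.m i j)⟩

end Pool.Agent.P.MP_1a0ecf_al
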