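import Pool.Agent.P.MP_1a0ecf_al.Spec
import Pool.Agent.P.MP_1a0ecf_al.Main

/-! From the working form of the statement to the final one. -/

namespace Pool.Agent.P.MP_1a0ecf_al

open scoped Classical

noncomputable section

variable {n : ℕ} {M : CoxeterMatrix (Fin n)} {W : Type} [Group W] [Fintype W]

theorem crel_eq (cs : CoxeterSystem M W) (ρ : Representation ℂ W (Fin n → ℂ)) (c : W → ℝ) :
    S.CRel cs ρ c = CRel cs ρ c := by
  funext p q
  apply propext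
  constructor
  · rintro (_ | ⟨w, w'⟩ | ⟨w, a⟩ | ⟨w, x⟩ | ⟨a, a'⟩ | ⟨x, x'⟩ | ⟨a, x⟩)
    exacts [CRel.one, CRel.mul w w', CRel.conjV w a, CRel.conjD w x, CRel.commV a a',
      CRel.commD x x', CRel.main a x]
  · rintro (_ | ⟨w, w'⟩ | ⟨w, a⟩ | ⟨w, x⟩ | ⟨a, a'⟩ | ⟨x, x'⟩ | ⟨a, x⟩)
    exacts [S.CRel.one, S.CRel.mul w w', S.CRel.conjV w a, S.CRel.conjD w x, S.CRel.commV a a',
      S.CRel.commD x x', S.CRel.main a x]

theorem sameCM_iff (cs : CoxeterSystem M W) (ρ : Representation ℂ W (Fin n → ℂ)) (c : W → ℝ)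
    {d d' : ℕ} (π : Representation ℂ W (Fin d → ℂ)) (π' : Representation ℂ W (Fin d' → ℂ)) :
    S.SameCM cs ρ c π π' ↔ SameCM cs ρ c π π' := by
  have e : ∀ (r : Free n W → Free n W → Prop) (a : Free n W),
      S.cls r a = RingQuot.mkAlgHom ℂ r a := fun r a => by
    rw [S.cls, ← RingQuot.mkAlgHom_coe ℂ r]; rfl
  unfold S.SameCM
  rw [crel_eq]
  simp only [e]
  rfl

theorem occurs_iff' {Γ : AddSubgroup ℝ} {H : Type} [Ring H] [Algebra (AddMonoidAlgebra ℤ Γ) H]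
    (T C : Module.Basis W (AddMonoidAlgebra ℤ Γ) H) (z : W) {d : ℕ}
    (π : Representation ℂ W (Fin d → ℂ)) : S.Occurs T C z π ↔ Occurs T C z π := by
  constructor
  · rintro ⟨f, hf, ⟨v, y, h0⟩, h1, h2⟩
    refine ⟨hf.mk' f, fun h => h0 ?_, h1, h2⟩
    exact congrFun (LinearMap.congr_fun h v) y
  · rintro ⟨f, h0, h1, h2⟩
    refine ⟨f, f.isLinear, ?_, h1, h2⟩
    by_contra h
    push Not at h
    exact h0 (LinearMap.ext fun v => funext fun y => h v y)

theorem spec_of (h : GordonMartino M) : S.GordonMartino M := by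
  intro W _ _ cs ρ hρ c h0 h1 H i1 i2 T C bar hT hb hC d d' π π' hπ hπ'
  rw [sameCM_iff]
  simp only [occurs_iff']
  exact @h W _ _ cs ρ hρ c h0 h1 H i1 i2 T C bar hT hb hC d d' π π' hπ hπ'

end

end Pool.Agent.P.MP_1a0ecf_al
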