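import Pool.Agent.P.MP_1a0ecf_al.CA

/-! Package C0: the algebra of the statement is a `CA`. -/

namespace Pool.Agent.P.MP_1a0ecf_al

open Matrix MvPolynomial
open scoped Classical TensorProduct

noncomputable section

theorem isGeom_eq (X : Cox) {ρ : Representation ℂ X.W (Fin X.n → ℂ)} (hρ : IsGeom X.cs ρ)
    (w : X.W) (a : X.Vc) : ρ w a = X.σK ℂ w *ᵥ a := by
  induction w using X.cs.simple_induction generalizing a with
  | simple i =>
    have h : ρ (X.cs.simple i) = Matrix.toLin' (X.σK ℂ (X.cs.simple i)) := by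
      refine (Pi.basisFun ℂ (Fin X.n)).ext fun j => ?_
      rw [Pi.basisFun_apply, hρ, Matrix.toLin'_apply, X.σK_refl ℂ (X.cs.isReflection_simple i),
        X.rt_simple, ← Cox.vK_al ℂ X j, Cox.BK_vK ℂ, X.B_al_al, Cox.vK_al ℂ, Cox.vK_al ℂ,
        sub_eq_add_neg, ← neg_smul]
      congr 2
      simp [Cox0.K]
    rw [h, Matrix.toLin'_apply]
  | one => simp
  | mul w w' h h' => rw [map_mul, map_mul, Module.End.mul_apply, h, h', mulVec_mulVec]

namespace C0

variable (X : Cox)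

theorem nondeg : (Matrix.toBilin' (X.K.map (algebraMap ℝ ℂ))).Nondegenerate := by
  refine (Matrix.nondegenerate_of_det_ne_zero ?_).toBilin'
  have := RingHom.map_det (algebraMap ℝ ℂ) X.K
  rw [RingHom.mapMatrix_apply] at this
  rw [← this]
  exact (map_ne_zero _).mpr X.K_det_ne

/-- the identification of `V` with its dual -/
def bd : X.Vc ≃ₗ[ℂ] Module.Dual ℂ X.Vc := LinearMap.BilinForm.toDual _ (nondeg X)

theorem bd_apply (b a : X.Vc) : bd X b a = X.BK ℂ b a := by
  rw [bd, LinearMap.BilinForm.toDual_def, Matrix.toBilin'_apply']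
  rfl

variable {X} {ρ : Representation ℂ X.W (Fin X.n → ℂ)}

theorem dual_bd (hρ : IsGeom X.cs ρ) (w : X.W) (b : X.Vc) :
    ρ.dual w (bd X b) = bd X (X.σK ℂ w *ᵥ b) := by
  refine LinearMap.ext fun a => ?_
  rw [Representation.dual_apply, Module.Dual.transpose_apply, LinearMap.comp_apply, bd_apply,
    bd_apply, isGeom_eq X hρ, ← X.BK_inv ℂ w, mulVec_mulVec a, ← map_mul, mul_inv_cancel, map_one,
    one_mulVec]

theorem sum_eq (hρ : IsGeom X.cs ρ) {c : X.W → ℝ} {c0 : ℝ}
    (hc : ∀ t, X.cs.IsReflection t → c t = c0) {A : Type} [Ring A] [Algebra ℂ A] (g : X.W → A)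
    (a b : X.Vc) :
    ∑ t with X.cs.IsReflection t, ((c t : ℂ) * (bd X b (a - ρ t a) / 2)) • g t =
      ∑ t ∈ X.refls, ((c0 : ℂ) / 2 * X.BK ℂ (X.rc t) a * X.BK ℂ (X.rc t) b) • g t := by
  refine Finset.sum_congr rfl fun t ht => ?_
  have h := X.mem_refls.mp ht
  rw [hc t h, isGeom_eq X hρ, X.σK_refl ℂ h, sub_sub_cancel, map_smul, bd_apply, X.BK_symm ℂ b,
    smul_eq_mul]
  congr 1
  ring

variable (X) in
/-- the generators `y` -/
def lV : X.Vc →ₗ[ℂ] Free X.n X.W := TensorAlgebra.ι ℂ ∘ₗ LinearMap.inl ℂ _ _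

variable (X) in
/-- the generators `x` -/
def lD : Module.Dual ℂ X.Vc →ₗ[ℂ] Free X.n X.W :=
  TensorAlgebra.ι ℂ ∘ₗ LinearMap.inr ℂ _ _ ∘ₗ LinearMap.inl ℂ _ _

variable (X) in
/-- the group algebra -/
def lW : X.GA →ₗ[ℂ] Free X.n X.W :=
  TensorAlgebra.ι ℂ ∘ₗ LinearMap.inr ℂ _ _ ∘ₗ LinearMap.inr ℂ _ _

theorem ι_eq (a : X.Vc) (ξ : Module.Dual ℂ X.Vc) (m : X.GA) :
    (TensorAlgebra.ι ℂ (a, ξ, m) : Free X.n X.W) = lV X a + lD X ξ + lW X m := by
  simp only [lV, lD, lW, LinearMap.comp_apply, ← map_add]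
  simp

/-- the algebra of the statement -/
def mkCA (hρ : IsGeom X.cs ρ) {c : X.W → ℝ} {c0 : ℝ}
    (hc : ∀ t, X.cs.IsReflection t → c t = c0) : CA X ((c0 : ℂ) / 2) where
  H := Cher X.cs ρ c
  x := (RingQuot.mkAlgHom ℂ (CRel X.cs ρ c)).toLinearMap ∘ₗ lD X ∘ₗ (bd X).toLinearMap
  y := (RingQuot.mkAlgHom ℂ (CRel X.cs ρ c)).toLinearMap ∘ₗ lV X
  g :=
    { toFun := fun w => RingQuot.mkAlgHom ℂ (CRel X.cs ρ c) (fW X.n w)
      map_one' := (RingQuot.mkAlgHom_rel ℂ CRel.one).trans (map_one _)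
      map_mul' := fun w w' => (RingQuot.mkAlgHom_rel ℂ (CRel.mul w w')).trans (map_mul _ _ _) }
  rels :=
    { gx := fun w a => by
        have := RingQuot.mkAlgHom_rel ℂ (CRel.conjD (cs := X.cs) (ρ := ρ) (c := c) w (bd X a))
        rw [map_mul, map_mul, dual_bd hρ] at this
        exact this
      gy := fun w a => by
        have := RingQuot.mkAlgHom_rel ℂ (CRel.conjV (cs := X.cs) (ρ := ρ) (c := c) w a)
        rw [map_mul, map_mul, isGeom_eq X hρ] at this
        exact this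
      xx := fun a b => by
        have := RingQuot.mkAlgHom_rel ℂ
          (CRel.commD (cs := X.cs) (ρ := ρ) (c := c) (bd X a) (bd X b))
        rw [map_mul, map_mul] at this
        exact this
      yy := fun a b => by
        have := RingQuot.mkAlgHom_rel ℂ (CRel.commV (cs := X.cs) (ρ := ρ) (c := c) a b)
        rw [map_mul, map_mul] at this
        exact this
      yx := fun a b => by
        have := RingQuot.mkAlgHom_rel ℂ (CRel.main (cs := X.cs) (ρ := ρ) (c := c) a (bd X b))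
        rw [map_sub, map_mul, map_mul, map_sum] at this
        simp only [map_smul] at this
        exact this.trans (sum_eq hρ hc _ a b) }
  gen := fun S hx hy hg h => by
    obtain ⟨f, rfl⟩ := RingQuot.mkAlgHom_surjective ℂ (CRel X.cs ρ c) h
    induction f using TensorAlgebra.induction with
    | algebraMap r => rw [AlgHom.commutes]; exact S.algebraMap_mem r
    | ι v =>
      obtain ⟨a, ξ, m⟩ := v
      obtain ⟨b, rfl⟩ := (bd X).surjective ξ
      rw [ι_eq, map_add, map_add]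
      refine add_mem (add_mem (hy a) (hx b)) ?_
      induction m using MonoidAlgebra.induction_on with
      | of w => exact hg w
      | add m m' h h' => rw [map_add, map_add]; exact add_mem h h'
      | smul r m h => rw [map_smul, map_smul]; exact S.smul_mem h r
    | mul a b h h' => rw [map_mul]; exact mul_mem h h'
    | add a b h h' => rw [map_add]; exact add_mem h h'
  lift := fun A _ _ x' y' g' hr => by
    let φ : Free X.n X.W →ₐ[ℂ] A := TensorAlgebra.lift ℂ (y'.coprod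
      ((x' ∘ₗ (bd X).symm.toLinearMap).coprod (MonoidAlgebra.lift ℂ A X.W g').toLinearMap))
    have hV : ∀ a, φ (fV X.W a) = y' a := fun a => by simp [φ, fV]
    have hD : ∀ b, φ (fD X.W (bd X b)) = x' b := fun b => by simp [φ, fD]
    have hW : ∀ w, φ (fW X.n w) = g' w := fun w => by simp [φ, fW]
    have hφ : ∀ ⦃p q⦄, CRel X.cs ρ c p q → φ p = φ q := by
      intro p q h
      induction h with
      | one => rw [hW, map_one, map_one]
      | mul w w' => rw [map_mul φ, hW, hW, hW, map_mul]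
      | conjV w a => rw [map_mul, map_mul, hW, hV, hV, isGeom_eq X hρ, hr.gy]
      | conjD w ξ =>
        obtain ⟨b, rfl⟩ := (bd X).surjective ξ
        rw [map_mul, map_mul, dual_bd hρ, hW, hD, hD, hr.gx]
      | commV a a' => rw [map_mul, map_mul, hV, hV, hr.yy]
      | commD ξ ξ' =>
        obtain ⟨b, rfl⟩ := (bd X).surjective ξ
        obtain ⟨b', rfl⟩ := (bd X).surjective ξ'
        rw [map_mul, map_mul, hD, hD, hr.xx]
      | main a ξ =>
        obtain ⟨b, rfl⟩ := (bd X).surjective ξ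
        rw [map_sub, map_mul, map_mul, map_sum, hV, hD, hr.yx]
        simp only [map_smul, hW]
        exact (sum_eq hρ hc _ a b).symm
    exact ⟨RingQuot.liftAlgHom ℂ ⟨φ, hφ⟩,
      fun b => (RingQuot.liftAlgHom_mkAlgHom_apply ℂ φ hφ _).trans (hD b),
      fun a => (RingQuot.liftAlgHom_mkAlgHom_apply ℂ φ hφ _).trans (hV a),
      fun w => (RingQuot.liftAlgHom_mkAlgHom_apply ℂ φ hφ _).trans (hW w)⟩

end C0

theorem exists_CA (X : Cox) {ρ : Representation ℂ X.W (Fin X.n → ℂ)} (hρ : IsGeom X.cs ρ)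
    {c : X.W → ℝ} {c0 : ℝ} (hc : ∀ t, X.cs.IsReflection t → c t = c0) :
    ∃ A : CA X ((c0 : ℂ) / 2), ∀ (d d' : ℕ) (π : Representation ℂ X.W (Fin d → ℂ))
      (π' : Representation ℂ X.W (Fin d' → ℂ)), SameCM X.cs ρ c π π' ↔ A.Same π π' := by
  refine ⟨C0.mkCA hρ hc, fun d d' π π' => ?_⟩
  have h : Set.range (C0.mkCA hρ hc).x =
      Set.range fun ξ => RingQuot.mkAlgHom ℂ (CRel X.cs ρ c) (fD X.W ξ) :=
    (C0.bd X).surjective.range_comp fun ξ => RingQuot.mkAlgHom ℂ (CRel X.cs ρ c) (fD X.W ξ)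
  rw [CA.Same, h]
  rfl

end

end Pool.Agent.P.MP_1a0ecf_al
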