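import Pool.Agent.P.MP_1a0ecf_al.G2

/-! Package G3: reflections, their roots, and the longest element. -/

namespace Pool.Agent.P.MP_1a0ecf_al

open Matrix
open scoped Classical

noncomputable section

namespace Cox

variable (X : Cox)

namespace G3

theorem mv_mul (x y : X.W) (v : Fin X.n → ℝ) : X.σ (x * y) *ᵥ v = X.σ x *ᵥ (X.σ y *ᵥ v) := by
  rw [map_mul, mulVec_mulVec]

theorem mv_one (v : Fin X.n → ℝ) : X.σ 1 *ᵥ v = v := by
  rw [map_one, one_mulVec]

theorem B_neg (u v : Fin X.n → ℝ) : X.B (-u) v = -X.B u v := by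
  simp [Cox0.B]

theorem B_smul (c : ℝ) (u : Fin X.n → ℝ) : X.B (c • u) (c • u) = c ^ 2 * X.B u u := by
  simp only [Cox0.B, mulVec_smul, smul_dotProduct, dotProduct_smul, smul_eq_mul]
  ring

theorem B_root (w : X.W) (i : Fin X.n) : X.B (X.σ w *ᵥ X.al i) (X.σ w *ᵥ X.al i) = 2 := by
  rw [X.B_inv, X.B_al_al, X.K_diag]

theorem s_al (i : Fin X.n) : X.σ (X.s i) *ᵥ X.al i = -X.al i := by
  rw [X.σ_simple_mulVec, X.B_al_al, X.K_diag]
  module

theorem root_sign (w : X.W) (i : Fin X.n) : 0 ≤ X.σ w *ᵥ X.al i ∨ X.σ w *ᵥ X.al i ≤ 0 := by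
  rcases X.cs.length_mul_simple w i with h | h
  · exact Or.inl (X.pos_of_asc (by simp only [Cox0.len, Cox0.s]; omega))
  · exact Or.inr (X.neg_of_desc (by simp only [Cox0.len, Cox0.s]; omega))

theorem ne_zero_of_B {β : Fin X.n → ℝ} (h : X.B β β = 2) : β ≠ 0 := by
  rintro rfl
  simp [Cox0.B] at h

theorem eq_or_neg {β β' : Fin X.n → ℝ} (h : X.B β β = 2) (h' : X.B β' β' = 2)
    (e : ∀ v, X.B β v • β = X.B β' v • β') : β = β' ∨ β = -β' := by
  have e1 := e β
  have e2 := e β'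
  rw [h] at e1
  rw [h', X.B_symm] at e2
  generalize X.B β' β = c at e1 e2
  have e3 : ((c - 2) * (c + 2)) • β = 0 := by
    linear_combination (norm := module) c • e2 - (2 : ℝ) • e1
  rcases mul_eq_zero.1 ((smul_eq_zero.1 e3).resolve_right (ne_zero_of_B X h)) with k | k
  · left
    rw [show c = 2 by linarith] at e1
    linear_combination (norm := module) (1 / 2 : ℝ) • e1
  · right
    rw [show c = -2 by linarith] at e1
    linear_combination (norm := module) (1 / 2 : ℝ) • e1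

theorem eq_al {β : Fin X.n → ℝ} (h : X.B β β = 2) (h0 : 0 ≤ β) {i : Fin X.n}
    (h1 : X.σ (X.s i) *ᵥ β ≤ 0) : β = X.al i := by
  have e : β = β i • X.al i := by
    funext k
    by_cases hk : k = i
    · subst hk; simp
    · have := h1 k
      rw [X.σ_simple_mulVec] at this
      simp only [Pi.sub_apply, Pi.smul_apply, Pi.single_eq_of_ne hk, smul_eq_mul, mul_zero,
        sub_zero, Pi.zero_apply] at this ⊢
      exact le_antisymm this (h0 k)
  have e2 : β i ^ 2 = 1 := by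
    rw [e, B_smul, X.B_al_al, X.K_diag] at h
    linarith
  have e3 : β i = 1 := (pow_eq_one_iff_of_nonneg (h0 i) two_ne_zero).1 e2
  rw [e, e3, one_smul]

theorem eq_of_mv {x y : X.W} (h : ∀ v, X.σ x *ᵥ v = X.σ y *ᵥ v) : x = y :=
  X.σ_injective (Matrix.ext_of_mulVec_single fun _ => h _)

theorem neg_of_max {w : X.W} (hw : ∀ x, X.len x ≤ X.len w) {v : Fin X.n → ℝ} (hv : 0 ≤ v) :
    X.σ w *ᵥ v ≤ 0 := by
  intro k
  show ∑ i, X.σ w k i * v i ≤ 0
  refine Finset.sum_nonpos fun i _ => mul_nonpos_of_nonpos_of_nonneg ?_ (hv i)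
  have h1 : X.len (w * X.s i) < X.len w := lt_of_le_of_ne (hw _) (X.cs.length_mul_simple_ne w i)
  simpa using X.neg_of_desc h1 k

theorem len_max_mul {w : X.W} (hw : ∀ x, X.len x ≤ X.len w) (x : X.W) :
    X.len (w * x) + X.len x = X.len w := by
  generalize hn : X.len x = n
  induction n generalizing x with
  | zero =>
    rw [X.cs.length_eq_zero_iff.1 hn, mul_one, add_zero]
  | succ n ih =>
    have hx : x ≠ 1 := by
      rintro rfl
      simp at hn
    obtain ⟨i, hi⟩ := X.cs.exists_rightDescent_of_ne_one hx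
    have h1 : X.len (x * X.s i) + 1 = X.len x := X.cs.isRightDescent_iff.1 hi
    have h2 := ih (x * X.s i) (by omega)
    have e : x * X.s i * X.s i = x := X.cs.simple_mul_simple_cancel_right i
    have h3 : 0 ≤ X.σ (x * X.s i) *ᵥ X.al i := X.pos_of_asc (by rw [e]; omega)
    have h4 : X.σ (w * (x * X.s i)) *ᵥ X.al i ≤ 0 := by
      rw [mv_mul]; exact neg_of_max X hw h3
    have h5 : ¬ X.len (w * (x * X.s i)) < X.len (w * (x * X.s i) * X.s i) := fun h =>
      X.root_ne_zero _ i (le_antisymm h4 (X.pos_of_asc h))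
    have h6 := X.cs.length_mul_simple (w * (x * X.s i)) i
    rw [mul_assoc w, e] at h5 h6
    simp only [Cox0.len] at *
    omega

end G3

theorem exists_root {t : X.W} (h : X.cs.IsReflection t) :
    ∃ β : Fin X.n → ℝ, 0 ≤ β ∧ ∃ w i, t = w * X.s i * w⁻¹ ∧ β = X.σ w *ᵥ X.al i := by
  obtain ⟨w, i, rfl⟩ := h
  rcases G3.root_sign X w i with h | h
  · exact ⟨_, h, w, i, rfl, rfl⟩
  · refine ⟨X.σ (w * X.s i) *ᵥ X.al i, ?_, w * X.s i, i, ?_, rfl⟩
    · rw [G3.mv_mul, G3.s_al, mulVec_neg]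
      exact neg_nonneg.2 h
    · rw [X.cs.simple_mul_simple_cancel_right, _root_.mul_inv_rev, X.cs.inv_simple, mul_assoc]

/-- the positive root of a reflection -/
def rt (t : X.W) : Fin X.n → ℝ := if h : X.cs.IsReflection t then (X.exists_root h).choose else 0

theorem mem_refls {t : X.W} : t ∈ X.refls ↔ X.cs.IsReflection t := by
  simp [Cox.refls]

theorem rt_spec {t : X.W} (h : X.cs.IsReflection t) :
    0 ≤ X.rt t ∧ ∃ w i, t = w * X.s i * w⁻¹ ∧ X.rt t = X.σ w *ᵥ X.al i := by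
  rw [rt, dif_pos h]; exact (X.exists_root h).choose_spec

theorem σ_conj_simple (w : X.W) (i : Fin X.n) (v : Fin X.n → ℝ) :
    X.σ (w * X.s i * w⁻¹) *ᵥ v = v - X.B (X.σ w *ᵥ X.al i) v • (X.σ w *ᵥ X.al i) := by
  rw [G3.mv_mul, G3.mv_mul, X.σ_simple_mulVec, mulVec_sub, mulVec_smul, ← G3.mv_mul,
    mul_inv_cancel, G3.mv_one, ← X.B_inv w, ← G3.mv_mul X w w⁻¹, mul_inv_cancel, G3.mv_one]

theorem σ_refl {t : X.W} (h : X.cs.IsReflection t) (v : Fin X.n → ℝ) :
    X.σ t *ᵥ v = v - X.B (X.rt t) v • X.rt t := by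
  obtain ⟨-, w, i, e1, e2⟩ := X.rt_spec h
  rw [e2, e1]
  exact X.σ_conj_simple w i v

theorem B_rt_rt {t : X.W} (h : X.cs.IsReflection t) : X.B (X.rt t) (X.rt t) = 2 := by
  obtain ⟨-, w, i, -, e2⟩ := X.rt_spec h
  rw [e2]
  exact G3.B_root X w i

theorem rt_eq {w : X.W} {i : Fin X.n} (h : 0 ≤ X.σ w *ᵥ X.al i) :
    X.rt (w * X.s i * w⁻¹) = X.σ w *ᵥ X.al i := by
  have hr : X.cs.IsReflection (w * X.s i * w⁻¹) := ⟨w, i, rfl⟩
  rcases G3.eq_or_neg X (X.B_rt_rt hr) (G3.B_root X w i) (fun v => sub_right_injective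
    ((X.σ_refl hr v).symm.trans (X.σ_conj_simple w i v))) with e | e
  · exact e
  · have h1 := (X.rt_spec hr).1
    rw [e] at h1
    exact absurd (le_antisymm (neg_nonneg.1 h1) h) (X.root_ne_zero w i)

theorem rt_simple (i : Fin X.n) : X.rt (X.s i) = X.al i := by
  have := X.rt_eq (w := 1) (i := i) (by
    rw [G3.mv_one]
    exact Pi.single_nonneg.2 zero_le_one)
  rwa [G3.mv_one, one_mul, inv_one, mul_one] at this

theorem rt_conj {t : X.W} (h : X.cs.IsReflection t) (w : X.W) :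
    X.rt (w * t * w⁻¹) = X.σ w *ᵥ X.rt t ∨ X.rt (w * t * w⁻¹) = -(X.σ w *ᵥ X.rt t) := by
  obtain ⟨-, u, i, e1, e2⟩ := X.rt_spec h
  have hr := h.conj w
  rw [e2, ← G3.mv_mul]
  refine G3.eq_or_neg X (X.B_rt_rt hr) (G3.B_root X _ i) fun v => sub_right_injective
    ((X.σ_refl hr v).symm.trans ?_)
  rw [e1, show w * (u * X.s i * u⁻¹) * w⁻¹ = w * u * X.s i * (w * u)⁻¹ by group]
  exact X.σ_conj_simple _ i v

theorem rt_injOn {t t' : X.W} (h : X.cs.IsReflection t) (h' : X.cs.IsReflection t')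
    (e : X.rt t = X.rt t') : t = t' := by
  exact G3.eq_of_mv X fun v => by rw [X.σ_refl h, X.σ_refl h', e]

theorem exists_w0 : ∃ w : X.W, ∀ x, X.len x ≤ X.len w := by
  exact Finite.exists_max X.len

/-- the longest element -/
def w0 : X.W := X.exists_w0.choose

theorem len_mul_w0 (x : X.W) : X.len (x * X.w0) + X.len x = X.len X.w0 := by
  have h := G3.len_max_mul X (w := X.w0⁻¹)
    (fun y => by rw [Cox0.len, Cox0.len, X.cs.length_inv]; exact X.exists_w0.choose_spec y) x⁻¹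
  rw [← _root_.mul_inv_rev] at h
  simpa only [Cox0.len, X.cs.length_inv] using h

theorem len_w0_mul (x : X.W) : X.len (X.w0 * x) + X.len x = X.len X.w0 := by
  exact G3.len_max_mul X X.exists_w0.choose_spec x

theorem w0_mul_self : X.w0 * X.w0 = 1 := by
  have h := X.len_w0_mul X.w0
  exact X.cs.length_eq_zero_iff.1 (by simp only [Cox0.len] at h; omega)

theorem len_lt_w0 {x : X.W} (h : x ≠ X.w0) : X.len x < X.len X.w0 := by
  have h1 := X.len_w0_mul x
  have h2 : X.len (X.w0 * x) ≠ 0 := fun e =>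
    h (mul_left_cancel ((X.cs.length_eq_zero_iff.1 e).trans X.w0_mul_self.symm))
  omega

theorem mem_leftInvSeq (l : List (Fin X.n)) (w : X.W) (j : Fin X.n) (h0 : 0 ≤ X.σ w *ᵥ X.al j)
    (h1 : X.σ ((X.cs.wordProd l)⁻¹ * w) *ᵥ X.al j ≤ 0) :
    w * X.s j * w⁻¹ ∈ X.cs.leftInvSeq l := by
  induction l generalizing w with
  | nil =>
    rw [X.cs.wordProd_nil, inv_one, one_mul] at h1
    exact absurd (le_antisymm h1 h0) (X.root_ne_zero w j)
  | cons i l ih =>
    rw [CoxeterSystem.leftInvSeq, List.mem_cons]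
    rcases G3.root_sign X (X.s i * w) j with h | h
    · right
      rw [X.cs.wordProd_cons, _root_.mul_inv_rev, X.cs.inv_simple, mul_assoc] at h1
      refine List.mem_map.2 ⟨_, ih _ h h1, ?_⟩
      rw [MulAut.conj_apply]
      calc X.s i * (X.s i * w * X.s j * (X.s i * w)⁻¹) * (X.s i)⁻¹
          = X.s i * X.s i * (w * X.s j * w⁻¹) * (X.s i * X.s i)⁻¹ := by group
        _ = _ := by rw [X.cs.simple_mul_simple_self, one_mul, inv_one, mul_one]
    · left
      rw [G3.mv_mul] at h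
      have e := G3.eq_al X (G3.B_root X w j) h0 h
      exact G3.eq_of_mv X fun v => by rw [X.σ_conj_simple, e, X.σ_simple_mulVec]

theorem leftInvSeq_w0 {l : List (Fin X.n)} (h : X.cs.IsReduced l) (hl : X.cs.wordProd l = X.w0) :
    (X.cs.leftInvSeq l).toFinset = X.refls := by
  have _ := h
  ext t
  rw [List.mem_toFinset, mem_refls]
  refine ⟨X.cs.isReflection_of_mem_leftInvSeq l, fun ht => ?_⟩
  obtain ⟨h0, w, i, e1, e2⟩ := X.rt_spec ht
  rw [e2] at h0
  rw [e1]
  refine X.mem_leftInvSeq l w i h0 ?_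
  rw [hl, G3.mv_mul, inv_eq_of_mul_eq_one_right X.w0_mul_self]
  exact G3.neg_of_max X X.exists_w0.choose_spec h0

theorem sgn_mul (x y : X.W) : X.sgn (x * y) = X.sgn x * X.sgn y := by
  simp only [Cox0.sgn, Cox0.len]
  rw [← pow_add, neg_one_pow_eq_pow_mod_two, X.cs.length_mul_mod_two,
    ← neg_one_pow_eq_pow_mod_two]

theorem sgn_refl {t : X.W} (h : X.cs.IsReflection t) : X.sgn t = -1 := by
  exact h.odd_length.neg_one_pow

theorem sgn_inv (x : X.W) : X.sgn x⁻¹ = X.sgn x := by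
  simp only [Cox0.sgn, Cox0.len, X.cs.length_inv]

end Cox

end

end Pool.Agent.P.MP_1a0ecf_al
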