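import Pool.Agent.P.MP_1a0ecf_al.T0
import Pool.Agent.P.MP_1a0ecf_al.G3

/-! Package T1: the group algebra, central idempotents, the sum of the reflections. -/

namespace Pool.Agent.P.MP_1a0ecf_al

open scoped Classical

noncomputable section

variable {W : Type} [Group W] [Fintype W]

theorem t1_chx_apply (f : W → ℂ) (a : MonoidAlgebra ℂ W) : chx f a = ∑ w, a.coeff w * f w := rfl

theorem t1_eq_sum (a : MonoidAlgebra ℂ W) : a = ∑ w, a.coeff w • MonoidAlgebra.of ℂ W w := by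
  ext u
  simp [MonoidAlgebra.coeff_sum]

theorem t1_asAlg {E : Type} [AddCommGroup E] [Module ℂ E] (π : Representation ℂ W E)
    (a : MonoidAlgebra ℂ W) : π.asAlgebraHom a = ∑ w, a.coeff w • π w := by
  conv_lhs => rw [t1_eq_sum a]
  simp only [map_sum, map_smul, Representation.asAlgebraHom_of]

theorem t1_center {a : MonoidAlgebra ℂ W}
    (h : ∀ g, MonoidAlgebra.of ℂ W g * a = a * MonoidAlgebra.of ℂ W g) :
    a ∈ Subalgebra.center ℂ (MonoidAlgebra ℂ W) := by
  rw [Subalgebra.mem_center_iff]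
  intro b
  rw [t1_eq_sum b, Finset.sum_mul, Finset.mul_sum]
  exact Finset.sum_congr rfl fun g _ => by rw [smul_mul_assoc, mul_smul_comm, h]

omit [Fintype W] in
theorem IsCl.t1_comm {f : W → ℂ} (h : IsCl f) (x y : W) : f (x * y) = f (y * x) := by
  rw [← h (x * y) y, ← mul_assoc, mul_inv_cancel_right]

theorem chx_of (f : W → ℂ) (w : W) : chx f (MonoidAlgebra.of ℂ W w) = f w := by
  simp [t1_chx_apply, Finsupp.single_apply]

theorem chx_character {E : Type} [AddCommGroup E] [Module ℂ E] [FiniteDimensional ℂ E]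
    (π : Representation ℂ W E) (a : MonoidAlgebra ℂ W) :
    chx π.character a = LinearMap.trace ℂ E (π.asAlgebraHom a) := by
  rw [t1_asAlg, map_sum, t1_chx_apply]
  simp only [map_smul, smul_eq_mul]
  rfl

theorem asAlgebraHom_eq_sum {E : Type} [AddCommGroup E] [Module ℂ E] (π : Representation ℂ W E)
    (a : MonoidAlgebra ℂ W) : π.asAlgebraHom a = ∑ w, a.coeff w • π w := by
  exact t1_asAlg π a

theorem schur {E : Type} [AddCommGroup E] [Module ℂ E] [FiniteDimensional ℂ E]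
    (π : Representation ℂ W E) (h : π.IsIrreducible) {a : MonoidAlgebra ℂ W}
    (ha : a ∈ Subalgebra.center ℂ (MonoidAlgebra ℂ W)) :
    π.asAlgebraHom a = (chx π.character a / π.character 1) • 1 := by
  have hc : ∀ g, π.asAlgebraHom a ∘ₗ π g = π g ∘ₗ π.asAlgebraHom a := fun g => by
    have e := congrArg π.asAlgebraHom
      (Subalgebra.mem_center_iff.1 ha (MonoidAlgebra.of ℂ W g))
    rw [map_mul, map_mul, Representation.asAlgebraHom_of] at e
    exact e.symm
  let f : Representation.IntertwiningMap π π := ⟨π.asAlgebraHom a, hc⟩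
  obtain ⟨c, hc'⟩ :=
    (Representation.IsIrreducible.algebraMap_intertwiningMap_bijective_of_isAlgClosed
      (ρ := π)).2 f
  have e : π.asAlgebraHom a = c • 1 := by
    ext v
    have k : f v = c • v := by
      simpa [Algebra.algebraMap_eq_smul_one] using
        (congrArg (fun φ : Representation.IntertwiningMap π π => φ v) hc').symm
    exact k
  have h1 : π.character 1 ≠ 0 := (isIrr_rep π h).one_ne
  rw [chx_character, e, map_smul, LinearMap.trace_one, ← Representation.char_one π, smul_eq_mul,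
    mul_div_cancel_right₀ _ h1]

theorem mem_center_iff {a : MonoidAlgebra ℂ W} :
    a ∈ Subalgebra.center ℂ (MonoidAlgebra ℂ W) ↔ IsCl fun w => a.coeff w := by
  constructor
  · intro h w u
    have e := congrArg (fun x : MonoidAlgebra ℂ W => x.coeff (u * w))
      (Subalgebra.mem_center_iff.1 h (MonoidAlgebra.of ℂ W u))
    simpa using e.symm
  · intro h
    refine t1_center fun g => ?_
    ext w
    have e := h (g⁻¹ * w) g
    simpa using e.symm

theorem IsIrr.chx_mul {χ : W → ℂ} (h : IsIrr χ) {a : MonoidAlgebra ℂ W}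
    (ha : a ∈ Subalgebra.center ℂ (MonoidAlgebra ℂ W)) (b : MonoidAlgebra ℂ W) :
    chx χ (a * b) = chx χ a / χ 1 * chx χ b := by
  obtain ⟨d, π, hπ, rfl⟩ := h
  rw [chx_character π (a * b), map_mul, schur π hπ ha, smul_mul_assoc, one_mul, map_smul,
    chx_character π b, smul_eq_mul]

theorem t1_chx_add (f g : W → ℂ) (a : MonoidAlgebra ℂ W) : chx (f + g) a = chx f a + chx g a := by
  simp [t1_chx_apply, mul_add, Finset.sum_add_distrib]

theorem eq_zero_of_chx {a : MonoidAlgebra ℂ W} (h : ∀ χ, IsIrr χ → ∀ b, chx χ (a * b) = 0) :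
    a = 0 := by
  obtain ⟨l, hl, e⟩ := (isCh_perm (MulAction.toPermHom W W)).exists_list
  have h0 : ∀ b, chx l.sum (a * b) = 0 := by
    intro b
    clear e
    induction l with
    | nil => simp [t1_chx_apply]
    | cons χ l ih =>
      rw [List.sum_cons, t1_chx_add, h χ (hl χ (by simp)), zero_add]
      exact ih fun ψ hψ => hl ψ (by simp [hψ])
  ext w
  have h1 := h0 (MonoidAlgebra.of ℂ W w⁻¹)
  rw [← e, t1_chx_apply, Finset.sum_eq_single 1] at h1
  · simpa using h1
  · intro u _ hu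
    simp [hu]
  · simp

theorem t1_coeff_idem (χ : W → ℂ) (w : W) :
    (idem χ).coeff w = χ 1 / Nat.card W * χ w⁻¹ := by
  simp [idem, MonoidAlgebra.coeff_sum, Finsupp.single_apply]

theorem IsIrr.idem_center {χ : W → ℂ} (h : IsIrr χ) :
    idem χ ∈ Subalgebra.center ℂ (MonoidAlgebra ℂ W) := by
  rw [mem_center_iff]
  intro w u
  simp only [t1_coeff_idem]
  rw [show (u * w * u⁻¹)⁻¹ = u * w⁻¹ * u⁻¹ by group, h.isCh.isCl]

theorem chx_idem (χ f : W → ℂ) : chx f (idem χ) = χ 1 * ip f χ := by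
  rw [t1_chx_apply, ip, Finset.mul_sum, Finset.mul_sum]
  refine Finset.sum_congr rfl fun w _ => ?_
  rw [t1_coeff_idem]
  ring

theorem IsIrr.center_mul_idem {χ : W → ℂ} (h : IsIrr χ) {a : MonoidAlgebra ℂ W}
    (ha : a ∈ Subalgebra.center ℂ (MonoidAlgebra ℂ W)) :
    a * idem χ = (chx χ a / χ 1) • idem χ := by
  rw [← sub_eq_zero]
  refine eq_zero_of_chx fun ψ hψ b => ?_
  rw [sub_mul, smul_mul_assoc, map_sub, map_smul, mul_assoc, hψ.chx_mul ha,
    hψ.chx_mul h.idem_center, chx_idem, hψ.ip_eq h]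
  split_ifs with e
  · subst e
    simp
  · simp

theorem IsIrr.idem_mul_idem {χ : W → ℂ} (h : IsIrr χ) : idem χ * idem χ = idem χ := by
  rw [h.center_mul_idem h.idem_center, chx_idem, h.ip_eq h, if_pos rfl, mul_one,
    div_self h.one_ne, one_smul]

theorem IsIrr.t1_conj {χ : W → ℂ} (h : IsIrr χ) (x : MonoidAlgebra ℂ W) (u : W) :
    chx χ (MonoidAlgebra.of ℂ W u * x * MonoidAlgebra.of ℂ W u⁻¹) = chx χ x := by
  obtain ⟨d, π, -, rfl⟩ := h
  rw [chx_character, chx_character, map_mul, LinearMap.trace_mul_comm, ← map_mul, ← mul_assoc,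
    ← map_mul, inv_mul_cancel, map_one, one_mul]

theorem IsIrr.idem_mem {χ : W → ℂ} (h : IsIrr χ) {a : MonoidAlgebra ℂ W} (ha : idem χ * a ≠ 0) :
    ∃ (b : MonoidAlgebra ℂ W), idem χ = ∑ u, MonoidAlgebra.of ℂ W u * (idem χ * a * b) *
      MonoidAlgebra.of ℂ W u⁻¹ := by
  obtain ⟨b, hb⟩ : ∃ b, chx χ (a * b) ≠ 0 := by
    by_contra hn
    push Not at hn
    refine ha (eq_zero_of_chx fun ψ hψ b => ?_)
    rw [mul_assoc, hψ.chx_mul h.idem_center, chx_idem, hψ.ip_eq h]
    split_ifs with e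
    · subst e
      simp [hn]
    · simp
  obtain ⟨z, hz⟩ : ∃ z, z = ∑ u, MonoidAlgebra.of ℂ W u * (a * b) * MonoidAlgebra.of ℂ W u⁻¹ :=
    ⟨_, rfl⟩
  have hzc : z ∈ Subalgebra.center ℂ (MonoidAlgebra ℂ W) := by
    refine t1_center fun g => ?_
    rw [hz, Finset.mul_sum, Finset.sum_mul]
    refine Fintype.sum_equiv (Equiv.mulLeft g) _ _ fun u => ?_
    rw [Equiv.coe_mulLeft, mul_assoc _ (MonoidAlgebra.of ℂ W (g * u)⁻¹), ← map_mul, map_mul _ g u,
      show (g * u)⁻¹ * g = u⁻¹ by group]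
    simp only [mul_assoc]
  have hzx : chx χ z = Fintype.card W * chx χ (a * b) := by
    rw [hz, map_sum]
    simp only [h.t1_conj]
    simp
  have hc : chx χ z / χ 1 ≠ 0 := by
    rw [hzx]
    exact div_ne_zero (mul_ne_zero (by simp) hb) h.one_ne
  refine ⟨(chx χ z / χ 1)⁻¹ • b, ?_⟩
  have e : ∀ u, MonoidAlgebra.of ℂ W u * (idem χ * a * ((chx χ z / χ 1)⁻¹ • b)) *
      MonoidAlgebra.of ℂ W u⁻¹ = (chx χ z / χ 1)⁻¹ •
        (MonoidAlgebra.of ℂ W u * (a * b) * MonoidAlgebra.of ℂ W u⁻¹ * idem χ) := fun u => by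
    have k := Subalgebra.mem_center_iff.1 h.idem_center
    rw [mul_smul_comm, mul_smul_comm, smul_mul_assoc, mul_assoc (idem χ), ← k (a * b),
      mul_assoc _ (MonoidAlgebra.of ℂ W u⁻¹), k (MonoidAlgebra.of ℂ W u⁻¹)]
    simp only [mul_assoc]
  simp only [e]
  rw [← Finset.smul_sum, ← Finset.sum_mul, ← hz, h.center_mul_idem hzc, smul_smul,
    inv_mul_cancel₀ hc, one_smul]

theorem IsIrr.finrank_idem {χ : W → ℂ} (h : IsIrr χ) {E : Type} [AddCommGroup E] [Module ℂ E]
    [FiniteDimensional ℂ E] (π : Representation ℂ W E) :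
    (Module.finrank ℂ (LinearMap.range (π.asAlgebraHom (idem χ))) : ℂ) =
      χ 1 * ip π.character χ := by
  have e : IsIdempotentElem (π.asAlgebraHom (idem χ)) := by
    rw [IsIdempotentElem, ← map_mul, h.idem_mul_idem]
  rw [← chx_idem, chx_character, (LinearMap.IsIdempotentElem.isProj_range _ e).trace]

namespace Cox

variable (X : Cox)

/-- the sign character as a homomorphism -/
def sgnHom : X.W →* ℂ where
  toFun := X.sgn
  map_one' := by simp [Cox0.sgn]
  map_mul' := X.sgn_mul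

/-- the sum of the reflections -/
def omA : MonoidAlgebra ℂ X.W := ∑ t ∈ X.refls, MonoidAlgebra.of ℂ X.W t

theorem sum_refls_conj {α : Type} [AddCommMonoid α] (f : X.W → α) (w : X.W) :
    ∑ t ∈ X.refls, f (w * t * w⁻¹) = ∑ t ∈ X.refls, f t := by
  refine Finset.sum_nbij' (fun t => w * t * w⁻¹) (fun t => w⁻¹ * t * w⁻¹⁻¹) ?_ ?_ ?_ ?_ ?_
  · intro t ht
    exact X.mem_refls.2 ((X.mem_refls.1 ht).conj w)
  · intro t ht
    exact X.mem_refls.2 ((X.mem_refls.1 ht).conj w⁻¹)
  · intro t _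
    group
  · intro t _
    group
  · intro t _
    rfl

theorem omA_center : X.omA ∈ Subalgebra.center ℂ (MonoidAlgebra ℂ X.W) := by
  refine t1_center fun g => ?_
  rw [omA, Finset.mul_sum, Finset.sum_mul,
    ← X.sum_refls_conj (fun t => MonoidAlgebra.of ℂ X.W t * MonoidAlgebra.of ℂ X.W g) g]
  refine Finset.sum_congr rfl fun t _ => ?_
  rw [← map_mul, ← map_mul, inv_mul_cancel_right]

theorem chx_omA (χ : X.W → ℂ) : chx χ X.omA = ∑ t ∈ X.refls, χ t := by
  rw [omA, map_sum]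
  simp only [chx_of]

variable {X}

theorem om_eigen {χ : X.W → ℂ} (h : IsIrr χ) (w : X.W) :
    ∑ t ∈ X.refls, χ (w * t) = X.om χ * χ w := by
  have e := h.chx_mul X.omA_center (MonoidAlgebra.of ℂ X.W w)
  rw [chx_omA, chx_of, omA, Finset.sum_mul, map_sum] at e
  rw [Cox.om, ← e]
  refine Finset.sum_congr rfl fun t _ => ?_
  rw [← map_mul, chx_of, h.isCh.isCl.t1_comm]

theorem om_eq_of_eigen {f χ : X.W → ℂ} (hf : IsCl f) (h : IsIrr χ) {l : ℂ}
    (he : ∀ w, ∑ t ∈ X.refls, f (w * t) = l * f w) (hi : ip f χ ≠ 0) : X.om χ = l := by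
  have hS : ∑ w, f w * χ w⁻¹ ≠ 0 := fun e => hi (by rw [ip, e, mul_zero])
  refine mul_right_cancel₀ hS ?_
  calc X.om χ * ∑ w, f w * χ w⁻¹ = ∑ w, ∑ t ∈ X.refls, f w * χ (w⁻¹ * t) := by
        rw [Finset.mul_sum]
        refine Finset.sum_congr rfl fun w _ => ?_
        rw [← Finset.mul_sum, om_eigen h]
        ring
    _ = ∑ t ∈ X.refls, ∑ w, f (w * t) * χ w⁻¹ := by
        rw [Finset.sum_comm]
        refine Finset.sum_congr rfl fun t _ => ?_
        refine (Fintype.sum_equiv (Equiv.mulRight t) _ _ fun w => ?_).symm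
        rw [Equiv.coe_mulRight, h.isCh.isCl.t1_comm (w * t)⁻¹, show t * (w * t)⁻¹ = w⁻¹ by group]
    _ = l * ∑ w, f w * χ w⁻¹ := by
        rw [Finset.sum_comm, Finset.mul_sum]
        refine Finset.sum_congr rfl fun w _ => ?_
        rw [← Finset.sum_mul, he, mul_assoc]

theorem VC.proj {f : X.W → ℂ} (h : VC f) : ∃ (s : Finset ℂ) (g : ℂ → X.W → ℂ),
    (∀ l, VC (g l) ∧ ∀ w, ∑ t ∈ X.refls, g l (w * t) = l * g l w) ∧ f = ∑ l ∈ s, g l := by
  obtain ⟨s, c, hs, rfl⟩ := h.exists_sum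
  refine ⟨s.image X.om, fun l => ∑ χ ∈ s.filter fun χ => X.om χ = l, (c χ : ℂ) • χ,
    fun l => ⟨?_, fun w => ?_⟩, ?_⟩
  · refine AddSubgroup.sum_mem _ fun χ hχ => ?_
    rw [Int.cast_smul_eq_zsmul]
    have k : χ ∈ AddSubgroup.closure {χ : X.W → ℂ | IsIrr χ} :=
      AddSubgroup.subset_closure (hs χ (Finset.mem_filter.1 hχ).1)
    exact AddSubgroup.zsmul_mem _ k _
  · simp only [Finset.sum_apply, Pi.smul_apply, smul_eq_mul]
    rw [Finset.sum_comm, Finset.mul_sum]
    refine Finset.sum_congr rfl fun χ hχ => ?_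
    obtain ⟨h1, h2⟩ := Finset.mem_filter.1 hχ
    rw [← Finset.mul_sum, om_eigen (hs χ h1), h2]
    ring
  · exact (Finset.sum_fiberwise_of_maps_to (fun χ hχ => Finset.mem_image_of_mem _ hχ) _).symm

theorem const_of_harmonic {μ : X.W → ℝ}
    (h : ∀ w, ∑ t ∈ X.refls, μ (w * t) = X.refls.card * μ w) (w : X.W) : μ w = μ 1 := by
  obtain ⟨m, hm⟩ := Finite.exists_max μ
  have step : ∀ x, μ x = μ m → ∀ t ∈ X.refls, μ (x * t) = μ m := by
    intro x hx t ht
    have h0 : ∑ t ∈ X.refls, (μ m - μ (x * t)) = 0 := by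
      rw [Finset.sum_sub_distrib, h, hx]
      simp
    have := (Finset.sum_eq_zero_iff_of_nonneg fun t _ => sub_nonneg.2 (hm (x * t))).1 h0 t ht
    linarith
  have all : ∀ u, μ (m * u) = μ m := by
    intro u
    induction u using X.cs.simple_induction_right with
    | one => rw [mul_one]
    | mul_simple_right u i ih =>
      rw [← mul_assoc]
      exact step _ ih _ (X.mem_refls.2 (X.cs.isReflection_simple i))
  rw [← mul_inv_cancel_left m w, all, ← mul_inv_cancel m, all]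

end Cox

end

end Pool.Agent.P.MP_1a0ecf_al
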