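import Pool.Agent.P.MP_1a0ecf_al.C1

/-! Package C2: Dunkl operators and the PBW theorem. -/

namespace Pool.Agent.P.MP_1a0ecf_al

open Matrix MvPolynomial
open scoped Classical TensorProduct

noncomputable section

namespace C2

variable {X : Cox} {κ : ℂ}

theorem BK_add (u v v' : X.Vc) : X.BK ℂ u (v + v') = X.BK ℂ u v + X.BK ℂ u v' := by
  simp [Cox.BK, mulVec_add]

theorem BK_smul (u v : X.Vc) (c : ℂ) : X.BK ℂ u (c • v) = c * X.BK ℂ u v := by
  simp [Cox.BK, mulVec_smul]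

theorem BK_neg (u v : X.Vc) : X.BK ℂ (-u) v = -X.BK ℂ u v := by
  simp [Cox.BK]

theorem dd_conj {t : X.W} (h : X.cs.IsReflection t) (w : X.W) (a : X.Vc) (q : X.Sc) :
    X.BK ℂ (X.rc (w * t * w⁻¹)) (X.σK ℂ w *ᵥ a) • X.dd ℂ (w * t * w⁻¹) (X.act ℂ w q) =
      X.BK ℂ (X.rc t) a • X.act ℂ w (X.dd ℂ t q) := by
  have h' : X.cs.IsReflection (w * t * w⁻¹) := h.conj w
  have e1 : X.rl ℂ (w * t * w⁻¹) * X.dd ℂ (w * t * w⁻¹) (X.act ℂ w q) =
      lin ℂ (X.σK ℂ w *ᵥ X.rc t) * X.act ℂ w (X.dd ℂ t q) := by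
    rw [← Cox.dd_spec ℂ h', ← X.act_mul ℂ, inv_mul_cancel_right, X.act_mul ℂ, ← map_sub,
      Cox.dd_spec ℂ h, map_mul, Cox.rl, X.act_lin ℂ]
  have hne := X.rl_ne_zero ℂ h'
  rcases X.rc_conj h w with e | e
  · have e2 : X.rl ℂ (w * t * w⁻¹) = lin ℂ (X.σK ℂ w *ᵥ X.rc t) := congrArg (lin ℂ) e
    rw [← e2] at e1
    rw [e, X.BK_inv ℂ, mul_left_cancel₀ hne e1]
  · have e2 : lin ℂ (X.σK ℂ w *ᵥ X.rc t) = -X.rl ℂ (w * t * w⁻¹) := by
      rw [Cox.rl, ← map_neg]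
      exact congrArg (lin ℂ) (neg_eq_iff_eq_neg.1 e.symm)
    rw [e2, neg_mul, ← mul_neg] at e1
    rw [e, BK_neg, X.BK_inv ℂ, mul_left_cancel₀ hne e1, neg_smul_neg]

theorem comm_x {R : Type} [Ring R] [Algebra ℂ R] {x y : X.Vc →ₗ[ℂ] R} {g : X.W →* R}
    (gy : ∀ w a, g w * y a = y (X.σK ℂ w *ᵥ a) * g w)
    (yx : ∀ a b, y a * x b - x b * y a =
      ∑ t ∈ X.refls, (κ * X.BK ℂ (X.rc t) a * X.BK ℂ (X.rc t) b) • g t) (a b c : X.Vc) :
    (y a * y b - y b * y a) * x c = x c * (y a * y b - y b * y a) := by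
  have key : ∀ a b, y a * (y b * x c - x c * y b) - (y b * x c - x c * y b) * y a =
      ∑ t ∈ X.refls, (κ * X.BK ℂ (X.rc t) c * (X.BK ℂ (X.rc t) a * X.BK ℂ (X.rc t) b)) •
        (y (X.rc t) * g t) := by
    intro a b
    rw [yx, Finset.mul_sum, Finset.sum_mul, ← Finset.sum_sub_distrib]
    refine Finset.sum_congr rfl fun t ht => ?_
    rw [mul_smul_comm, smul_mul_assoc, gy, X.σK_refl ℂ (X.mem_refls.1 ht), map_sub, map_smul,
      sub_mul, smul_mul_assoc, ← smul_sub, sub_sub_cancel, smul_smul]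
    congr 1
    ring
  have h1 := key a b
  have h2 := key b a
  simp only [mul_comm (X.BK ℂ _ b) (X.BK ℂ _ a)] at h2
  have h3 := h1.trans h2.symm
  have : (y a * y b - y b * y a) * x c - x c * (y a * y b - y b * y a) =
      (y a * (y b * x c - x c * y b) - (y b * x c - x c * y b) * y a) -
      (y b * (y a * x c - x c * y a) - (y a * x c - x c * y a) * y b) := by noncomm_ring
  rw [h3, sub_self] at this
  exact sub_eq_zero.1 this

section Ops

variable {N : Type} [AddCommGroup N] [Module ℂ N]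

/-- multiplication operators -/
def Xo (X : Cox) (N : Type) [AddCommGroup N] [Module ℂ N] :
    X.Vc →ₗ[ℂ] Module.End ℂ (X.Sc ⊗[ℂ] N) where
  toFun a := (LinearMap.mulLeft ℂ (lin ℂ a)).rTensor N
  map_add' a b := TensorProduct.ext' fun q v => by simp [add_mul, TensorProduct.add_tmul]
  map_smul' c a := TensorProduct.ext' fun q v => by simp [TensorProduct.smul_tmul']

theorem Xo_tmul (a : X.Vc) (q : X.Sc) (v : N) : Xo X N a (q ⊗ₜ v) = (lin ℂ a * q) ⊗ₜ v := rfl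

/-- the diagonal action of the group -/
def Go (τ : Representation ℂ X.W N) : X.W →* Module.End ℂ (X.Sc ⊗[ℂ] N) where
  toFun w := TensorProduct.map (X.act ℂ w).toLinearMap (τ w)
  map_one' := TensorProduct.ext' fun q v => by simp [X.act_one ℂ]
  map_mul' w w' := TensorProduct.ext' fun q v => by simp [X.act_mul ℂ]

theorem Go_tmul (τ : Representation ℂ X.W N) (w : X.W) (q : X.Sc) (v : N) :
    Go τ w (q ⊗ₜ v) = X.act ℂ w q ⊗ₜ τ w v := rfl

/-- Dunkl operators -/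
def Yo (κ : ℂ) (τ : Representation ℂ X.W N) (η : X.Vc →ₗ[ℂ] Module.End ℂ N) :
    X.Vc →ₗ[ℂ] Module.End ℂ (X.Sc ⊗[ℂ] N) where
  toFun a := (η a).lTensor X.Sc +
    ∑ t ∈ X.refls, (κ * X.BK ℂ (X.rc t) a) • TensorProduct.map (X.dd ℂ t) (τ t)
  map_add' a b := by
    simp only [map_add, LinearMap.lTensor_add, BK_add, mul_add, add_smul, Finset.sum_add_distrib]
    abel
  map_smul' c a := by
    simp only [map_smul, LinearMap.lTensor_smul, BK_smul, RingHom.id_apply, smul_add,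
      Finset.smul_sum, smul_smul, mul_left_comm κ c]

theorem Yo_tmul (τ : Representation ℂ X.W N) (η : X.Vc →ₗ[ℂ] Module.End ℂ N) (a : X.Vc)
    (q : X.Sc) (v : N) : Yo κ τ η a (q ⊗ₜ v) = q ⊗ₜ η a v +
      ∑ t ∈ X.refls, (κ * X.BK ℂ (X.rc t) a) • (X.dd ℂ t q ⊗ₜ[ℂ] τ t v) := by
  simp [Yo, LinearMap.sum_apply]

theorem Yo_one (τ : Representation ℂ X.W N) (η : X.Vc →ₗ[ℂ] Module.End ℂ N) (a : X.Vc)
    (v : N) : Yo κ τ η a (1 ⊗ₜ v) = 1 ⊗ₜ η a v := by
  rw [Yo_tmul, Finset.sum_eq_zero, add_zero]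
  intro t ht
  rw [← C_1, Cox.dd_C ℂ (X.mem_refls.1 ht), TensorProduct.zero_tmul, smul_zero]

theorem rels (τ : Representation ℂ X.W N) (η : X.Vc →ₗ[ℂ] Module.End ℂ N)
    (h1 : ∀ w a, τ w * η a = η (X.σK ℂ w *ᵥ a) * τ w) (h2 : ∀ a b, η a * η b = η b * η a) :
    CRels X κ (A := Module.End ℂ (X.Sc ⊗[ℂ] N)) (Xo X N) (Yo κ τ η) (Go τ) := by
  have gy : ∀ w a, Go τ w * Yo κ τ η a = Yo κ τ η (X.σK ℂ w *ᵥ a) * Go τ w := by
    intro w a
    refine TensorProduct.ext' fun q v => ?_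
    rw [Module.End.mul_apply, Module.End.mul_apply, Go_tmul, Yo_tmul, Yo_tmul, map_add, map_sum,
      Go_tmul]
    congr 1
    · rw [← Module.End.mul_apply (τ w), h1, Module.End.mul_apply]
    · symm
      rw [← X.sum_refls_conj _ w]
      refine Finset.sum_congr rfl fun t ht => ?_
      rw [map_smul, Go_tmul, mul_smul, mul_smul, TensorProduct.smul_tmul' (X.BK ℂ _ _),
        TensorProduct.smul_tmul' (X.BK ℂ _ _), dd_conj (X.mem_refls.1 ht),
        ← Module.End.mul_apply (τ _) (τ w), ← Module.End.mul_apply (τ w) (τ t), ← map_mul,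
        ← map_mul, inv_mul_cancel_right]
  have yx : ∀ a b, Yo κ τ η a * Xo X N b - Xo X N b * Yo κ τ η a =
      ∑ t ∈ X.refls, (κ * X.BK ℂ (X.rc t) a * X.BK ℂ (X.rc t) b) • Go τ t := by
    intro a b
    refine TensorProduct.ext' fun q v => ?_
    rw [LinearMap.sub_apply, Module.End.mul_apply, Module.End.mul_apply, Xo_tmul, Yo_tmul, Yo_tmul,
      map_add, map_sum, Xo_tmul, add_sub_add_left_eq_sub, ← Finset.sum_sub_distrib,
      LinearMap.sum_apply]
    refine Finset.sum_congr rfl fun t ht => ?_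
    have h := X.mem_refls.1 ht
    rw [map_smul, Xo_tmul, Cox.dd_mul' ℂ h, Cox.dd_lin ℂ h, TensorProduct.add_tmul, smul_add,
      add_sub_cancel_right, LinearMap.smul_apply, Go_tmul, C_mul', ← TensorProduct.smul_tmul',
      smul_smul]
  refine ⟨fun w a => TensorProduct.ext' fun q v => ?_, gy,
    fun a b => TensorProduct.ext' fun q v => ?_, fun a b => ?_, yx⟩
  · rw [Module.End.mul_apply, Module.End.mul_apply, Xo_tmul, Go_tmul, Go_tmul, Xo_tmul, map_mul,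
      X.act_lin ℂ]
  · rw [Module.End.mul_apply, Module.End.mul_apply, Xo_tmul, Xo_tmul, Xo_tmul, Xo_tmul,
      mul_left_comm]
  · rw [← sub_eq_zero]
    have hc := comm_x (R := Module.End ℂ (X.Sc ⊗[ℂ] N)) (x := Xo X N) (y := Yo κ τ η)
      (g := Go τ) gy yx a b
    generalize hZ : Yo κ τ η a * Yo κ τ η b - Yo κ τ η b * Yo κ τ η a = Z at hc
    have h0 : ∀ v, Z (1 ⊗ₜ v) = 0 := by
      intro v
      rw [← hZ, LinearMap.sub_apply, Module.End.mul_apply, Module.End.mul_apply, Yo_one, Yo_one,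
        Yo_one, Yo_one, ← Module.End.mul_apply (η a), h2, Module.End.mul_apply, sub_self]
    refine TensorProduct.ext' fun q v => ?_
    rw [LinearMap.zero_apply]
    induction q using MvPolynomial.induction_on with
    | C c => rw [← mul_one (C c), C_mul', ← TensorProduct.smul_tmul', map_smul, h0, smul_zero]
    | add p q hp hq => rw [TensorProduct.add_tmul, map_add, hp, hq, add_zero]
    | mul_X p i hp =>
      rw [mul_comm, ← lin_single, ← Xo_tmul, ← Module.End.mul_apply, hc, Module.End.mul_apply, hp,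
        map_zero]

end Ops

theorem ext_GA {P : Type} [AddCommGroup P] [Module ℂ P] {f g : X.GA ⊗[ℂ] X.Sc →ₗ[ℂ] P}
    (h : ∀ u p, f (MonoidAlgebra.of ℂ X.W u ⊗ₜ p) = g (MonoidAlgebra.of ℂ X.W u ⊗ₜ p)) :
    f = g := by
  refine TensorProduct.ext' fun m p => ?_
  induction m using MonoidAlgebra.induction_on with
  | of u => exact h u p
  | add a b ha hb => rw [TensorProduct.add_tmul, map_add, map_add, ha, hb]
  | smul c a ha => rw [← TensorProduct.smul_tmul', map_smul, map_smul, ha]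

theorem ext_S {P : Type} [AddCommGroup P] [Module ℂ P]
    {f g : X.Sc ⊗[ℂ] (X.GA ⊗[ℂ] X.Sc) →ₗ[ℂ] P}
    (h : ∀ q u p, f (q ⊗ₜ (MonoidAlgebra.of ℂ X.W u ⊗ₜ p)) =
      g (q ⊗ₜ (MonoidAlgebra.of ℂ X.W u ⊗ₜ p))) : f = g := by
  refine TensorProduct.ext' fun q v => ?_
  exact LinearMap.congr_fun (ext_GA (f := f ∘ₗ TensorProduct.mk ℂ _ _ q)
    (g := g ∘ₗ TensorProduct.mk ℂ _ _ q) (h q)) v

/-- left multiplication on the group algebra factor -/
def tauR (X : Cox) : Representation ℂ X.W (X.GA ⊗[ℂ] X.Sc) where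
  toFun w := (LinearMap.mulLeft ℂ (MonoidAlgebra.of ℂ X.W w)).rTensor X.Sc
  map_one' := TensorProduct.ext' fun m p => by
    rw [map_one, LinearMap.rTensor_tmul, LinearMap.mulLeft_apply, one_mul]
    rfl
  map_mul' w w' := TensorProduct.ext' fun m p => by
    simp only [map_mul, LinearMap.rTensor_tmul, LinearMap.mulLeft_apply, Module.End.mul_apply,
      mul_assoc]

theorem tauR_tmul (w u : X.W) (p : X.Sc) : tauR X w (MonoidAlgebra.of ℂ X.W u ⊗ₜ p) =
    MonoidAlgebra.of ℂ X.W (w * u) ⊗ₜ p := by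
  rw [map_mul]
  rfl

/-- twisted multiplication on the polynomial factor -/
def etaF (a : X.Vc) : Module.End ℂ (X.GA ⊗[ℂ] X.Sc) :=
  TensorProduct.lift ((MonoidAlgebra.basis X.W ℂ).constr ℂ fun u =>
    TensorProduct.mk ℂ X.GA X.Sc (MonoidAlgebra.of ℂ X.W u) ∘ₗ
      LinearMap.mulLeft ℂ (lin ℂ (X.σK ℂ u⁻¹ *ᵥ a)))

theorem etaF_tmul (a : X.Vc) (u : X.W) (p : X.Sc) : etaF a (MonoidAlgebra.of ℂ X.W u ⊗ₜ p) =
    MonoidAlgebra.of ℂ X.W u ⊗ₜ (lin ℂ (X.σK ℂ u⁻¹ *ᵥ a) * p) := by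
  have e : MonoidAlgebra.of ℂ X.W u = MonoidAlgebra.basis X.W ℂ u := by simp
  rw [etaF, TensorProduct.lift.tmul]
  conv_lhs => rw [e]
  rw [Module.Basis.constr_basis]
  rfl

/-- the linear map `a ↦ etaF a` -/
def etaR (X : Cox) : X.Vc →ₗ[ℂ] Module.End ℂ (X.GA ⊗[ℂ] X.Sc) where
  toFun := etaF
  map_add' a b := ext_GA fun u p => by
    rw [LinearMap.add_apply, etaF_tmul, etaF_tmul, etaF_tmul, mulVec_add, map_add, add_mul,
      TensorProduct.tmul_add]
  map_smul' c a := ext_GA fun u p => by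
    rw [LinearMap.smul_apply, etaF_tmul, etaF_tmul, mulVec_smul, map_smul, smul_mul_assoc,
      TensorProduct.tmul_smul, RingHom.id_apply]

theorem etaR_tmul (a : X.Vc) (u : X.W) (p : X.Sc) : etaR X a (MonoidAlgebra.of ℂ X.W u ⊗ₜ p) =
    MonoidAlgebra.of ℂ X.W u ⊗ₜ (lin ℂ (X.σK ℂ u⁻¹ *ᵥ a) * p) := etaF_tmul a u p

section Diag

variable {n : ℕ}

/-- operators that are diagonal on monomials -/
def Dg (f : (Fin n →₀ ℕ) → ℂ) : Module.End ℂ (MvPolynomial (Fin n) ℂ) :=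
  (basisMonomials (Fin n) ℂ).constr ℂ fun d => f d • monomial d 1

theorem Dg_mono (f : (Fin n →₀ ℕ) → ℂ) (d : Fin n →₀ ℕ) :
    Dg f (monomial d 1) = f d • monomial d 1 :=
  (basisMonomials (Fin n) ℂ).constr_basis ℂ _ d

theorem ext_mono {f g : Module.End ℂ (MvPolynomial (Fin n) ℂ)}
    (h : ∀ d, f (monomial d 1) = g (monomial d 1)) : f = g :=
  (basisMonomials (Fin n) ℂ).ext h

theorem Dg_mul (f g : (Fin n →₀ ℕ) → ℂ) : Dg f * Dg g = Dg fun d => f d * g d :=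
  ext_mono fun d => by
    rw [Module.End.mul_apply, Dg_mono, map_smul, Dg_mono, Dg_mono, smul_smul, mul_comm]

theorem Dg_add (f g : (Fin n →₀ ℕ) → ℂ) : Dg f + Dg g = Dg fun d => f d + g d :=
  ext_mono fun d => by rw [LinearMap.add_apply, Dg_mono, Dg_mono, Dg_mono, add_smul]

theorem Dg_const (c : ℂ) : (Dg fun _ : Fin n →₀ ℕ => c) = c • 1 :=
  ext_mono fun d => by rw [Dg_mono]; rfl

theorem euler : ∑ i : Fin n, LinearMap.mulLeft ℂ (MvPolynomial.X i : MvPolynomial (Fin n) ℂ) *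
    (pderiv i).toLinearMap = Dg fun d => (d.degree : ℂ) :=
  ext_mono fun d => by
    rw [Dg_mono, LinearMap.sum_apply, Nat.cast_smul_eq_nsmul,
      ← (isHomogeneous_monomial (1 : ℂ) (rfl : d.degree = d.degree)).sum_X_mul_pderiv]
    rfl

theorem Dg_zero_mul (i : Fin n) : (Dg fun d : Fin n →₀ ℕ => if d.degree = 0 then 1 else 0) *
    LinearMap.mulLeft ℂ (MvPolynomial.X i : MvPolynomial (Fin n) ℂ) = 0 :=
  ext_mono fun d => by
    rw [Module.End.mul_apply, LinearMap.mulLeft_apply, MvPolynomial.X, monomial_mul, mul_one,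
      Dg_mono, if_neg (by simp), zero_smul, LinearMap.zero_apply]

end Diag

end C2

namespace CA

variable {X : Cox} {κ : ℂ} (A : CA X κ)

/-- `ρ` is the module induced from the module `(τ, η)` over `S(V) ⋊ W` -/
structure IsInd {N : Type} [AddCommGroup N] [Module ℂ N] (τ : Representation ℂ X.W N)
    (η : X.Vc →ₗ[ℂ] Module.End ℂ N) (ρ : A.H →ₐ[ℂ] Module.End ℂ (X.Sc ⊗[ℂ] N)) : Prop where
  ex : ∀ p q v, ρ (A.ex p) (q ⊗ₜ v) = (p * q) ⊗ₜ v
  g : ∀ w q v, ρ (A.g w) (q ⊗ₜ v) = X.act ℂ w q ⊗ₜ τ w v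
  y : ∀ a q v, ρ (A.y a) (q ⊗ₜ v) = q ⊗ₜ η a v +
    ∑ t ∈ X.refls, (κ * X.BK ℂ (X.rc t) a) • (X.dd ℂ t q ⊗ₜ[ℂ] τ t v)

theorem exists_act {N : Type} [AddCommGroup N] [Module ℂ N] (τ : Representation ℂ X.W N)
    (η : X.Vc →ₗ[ℂ] Module.End ℂ N) (h1 : ∀ w a, τ w * η a = η (X.σK ℂ w *ᵥ a) * τ w)
    (h2 : ∀ a b, η a * η b = η b * η a) : ∃ ρ, A.IsInd τ η ρ := by
  obtain ⟨ρ, hx, hy, hg⟩ := A.lift _ _ _ _ (C2.rels (κ := κ) τ η h1 h2)
  refine ⟨ρ, fun p => ?_, fun w q v => by rw [hg, C2.Go_tmul],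
    fun a q v => by rw [hy, C2.Yo_tmul]⟩
  induction p using MvPolynomial.induction_on with
  | C c =>
    intro q v
    rw [← algebraMap_eq, AlgHom.commutes, AlgHom.commutes, Module.algebraMap_end_apply,
      algebraMap_eq, C_mul', TensorProduct.smul_tmul']
  | add p p' hp hp' =>
    intro q v
    rw [map_add, map_add, LinearMap.add_apply, hp, hp', add_mul, TensorProduct.add_tmul]
  | mul_X p i hp =>
    intro q v
    rw [map_mul, map_mul, ← lin_single, A.ex_lin, hx, Module.End.mul_apply, C2.Xo_tmul, hp,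
      mul_assoc]

theorem exists_pbw : ∃ Φ : (X.Sc ⊗[ℂ] (X.GA ⊗[ℂ] X.Sc)) ≃ₗ[ℂ] A.H, ∀ p w p',
    Φ (p ⊗ₜ (MonoidAlgebra.of ℂ X.W w ⊗ₜ p')) = A.ex p * A.g w * A.ey p' := by
  obtain ⟨ρ, hρ⟩ := A.exists_act (C2.tauR X) (C2.etaR X)
    (fun w a => C2.ext_GA fun u p => by
      rw [Module.End.mul_apply, Module.End.mul_apply, C2.etaR_tmul, C2.tauR_tmul, C2.tauR_tmul,
        C2.etaR_tmul, mulVec_mulVec, ← map_mul, _root_.mul_inv_rev, inv_mul_cancel_right])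
    (fun a b => C2.ext_GA fun u p => by
      rw [Module.End.mul_apply, Module.End.mul_apply, C2.etaR_tmul, C2.etaR_tmul, C2.etaR_tmul,
        C2.etaR_tmul, mul_left_comm])
  let Φ : X.Sc ⊗[ℂ] (X.GA ⊗[ℂ] X.Sc) →ₗ[ℂ] A.H := LinearMap.mul' ℂ A.H ∘ₗ
    TensorProduct.map A.ex.toLinearMap
      (LinearMap.mul' ℂ A.H ∘ₗ TensorProduct.map A.gl.toLinearMap A.ey.toLinearMap)
  have hΦ : ∀ p w p', Φ (p ⊗ₜ (MonoidAlgebra.of ℂ X.W w ⊗ₜ p')) = A.ex p * A.g w * A.ey p' := by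
    intro p w p'
    rw [← A.gl_of, mul_assoc]
    rfl
  have hy : ∀ p' q : X.Sc, ρ (A.ey p') (1 ⊗ₜ (MonoidAlgebra.of ℂ X.W 1 ⊗ₜ q)) =
      1 ⊗ₜ (MonoidAlgebra.of ℂ X.W 1 ⊗ₜ (p' * q)) := by
    intro p'
    induction p' using MvPolynomial.induction_on with
    | C c =>
      intro q
      rw [← algebraMap_eq, AlgHom.commutes, AlgHom.commutes, Module.algebraMap_end_apply,
        algebraMap_eq, C_mul', TensorProduct.tmul_smul, TensorProduct.tmul_smul]
    | add p p' hp hp' =>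
      intro q
      rw [map_add, map_add, LinearMap.add_apply, hp, hp', add_mul, TensorProduct.tmul_add,
        TensorProduct.tmul_add]
    | mul_X p i hp =>
      intro q
      rw [map_mul, map_mul, ← lin_single, A.ey_lin, Module.End.mul_apply, hρ.y, ← C2.Yo_tmul,
        C2.Yo_one, C2.etaR_tmul, hp, inv_one, map_one (X.σK ℂ), one_mulVec, mul_assoc]
  let Ψ : A.H →ₗ[ℂ] X.Sc ⊗[ℂ] (X.GA ⊗[ℂ] X.Sc) :=
    LinearMap.applyₗ (1 ⊗ₜ (MonoidAlgebra.of ℂ X.W 1 ⊗ₜ 1)) ∘ₗ ρ.toLinearMap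
  have hΨ : Ψ ∘ₗ Φ = LinearMap.id := C2.ext_S fun p w p' => by
    rw [LinearMap.comp_apply, hΦ]
    show ρ (A.ex p * A.g w * A.ey p') (1 ⊗ₜ (MonoidAlgebra.of ℂ X.W 1 ⊗ₜ 1)) = _
    rw [map_mul, map_mul, Module.End.mul_apply, Module.End.mul_apply, hy, hρ.g, hρ.ex,
      C2.tauR_tmul, map_one (X.act ℂ w), mul_one, mul_one, mul_one, LinearMap.id_apply]
  refine ⟨LinearEquiv.ofBijective Φ ⟨LinearMap.injective_of_comp_eq_id Φ Ψ hΨ, fun h => ?_⟩, hΦ⟩
  refine (Submodule.span_le (p := LinearMap.range Φ)).2 ?_ (A.span_top h)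
  rintro _ ⟨p, w, p', rfl⟩
  exact ⟨_, hΦ p w p'⟩

theorem exists_deriv : ∃ D : Fin X.n → A.H →ₗ[ℂ] A.H,
    (∀ i j h, D i (h * A.y (X.eb j)) = D i h * A.y (X.eb j) + if i = j then h else 0) ∧
    (∀ c : ℕ, 0 < c → Function.Bijective fun h => ∑ i, D i h * A.y (X.eb i) + (c : ℂ) • h) ∧
    Set.BijOn (fun h => ∑ i, D i h * A.y (X.eb i)) A.LY A.LY := by
  obtain ⟨Φ, hΦ⟩ := A.exists_pbw
  let T : Module.End ℂ X.Sc →ₐ[ℂ] Module.End ℂ A.H :=
    (Φ.conjAlgEquiv ℂ).toAlgHom.comp ((Module.End.lTensorAlgHom ℂ _ X.Sc).comp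
      (Module.End.lTensorAlgHom ℂ X.Sc X.GA))
  have hT : ∀ f p w p', T f (Φ (p ⊗ₜ (MonoidAlgebra.of ℂ X.W w ⊗ₜ p'))) =
      Φ (p ⊗ₜ (MonoidAlgebra.of ℂ X.W w ⊗ₜ f p')) := by
    intro f p w p'
    show Φ (((f.lTensor X.GA).lTensor X.Sc) (Φ.symm (Φ _))) = _
    rw [Φ.symm_apply_apply]
    rfl
  have hm : ∀ j h, h * A.y (X.eb j) = T (LinearMap.mulLeft ℂ (MvPolynomial.X j)) h := by
    intro j h
    obtain ⟨v, rfl⟩ := Φ.surjective h
    refine LinearMap.congr_fun (C2.ext_S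
      (f := LinearMap.mulRight ℂ (A.y (X.eb j)) ∘ₗ Φ.toLinearMap)
      (g := T (LinearMap.mulLeft ℂ (MvPolynomial.X j)) ∘ₗ Φ.toLinearMap) fun p w p' => ?_) v
    show Φ _ * _ = T _ (Φ _)
    rw [hT, hΦ, hΦ, LinearMap.mulLeft_apply, mul_comm _ p', map_mul, ← lin_single, A.ey_lin]
    simp only [mul_assoc]
  have hE : ∀ h, ∑ i, T (pderiv i).toLinearMap h * A.y (X.eb i) =
      T (C2.Dg fun d => (d.degree : ℂ)) h := by
    intro h
    rw [← C2.euler, map_sum, LinearMap.sum_apply]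
    refine Finset.sum_congr rfl fun i _ => ?_
    rw [hm, map_mul, Module.End.mul_apply]
  have hone : ∀ f : (Fin X.n →₀ ℕ) → ℂ, (∀ d, f d = 1) → ∀ h, T (C2.Dg f) h = h := by
    intro f hf h
    rw [funext hf, C2.Dg_const, one_smul, map_one, Module.End.one_apply]
  have hmul : ∀ f g h, T (C2.Dg f) (T (C2.Dg g) h) = T (C2.Dg fun d => f d * g d) h := by
    intro f g h
    rw [← Module.End.mul_apply, ← map_mul, C2.Dg_mul]
  refine ⟨fun i => T (pderiv i).toLinearMap, fun i j h => ?_, fun c hc => ?_, ?_⟩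
  · have e : (pderiv i).toLinearMap * LinearMap.mulLeft ℂ (MvPolynomial.X j : X.Sc) =
        LinearMap.mulLeft ℂ (MvPolynomial.X j : X.Sc) * (pderiv i).toLinearMap +
          if i = j then 1 else 0 := by
      refine LinearMap.ext fun p => ?_
      by_cases hij : i = j
      · subst hij
        simp [add_comm]
      · simp [hij, pderiv_X_of_ne (Ne.symm hij)]
    rw [hm, hm, ← Module.End.mul_apply, ← map_mul, e, map_add, map_mul, LinearMap.add_apply,
      Module.End.mul_apply]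
    split_ifs <;> simp
  · have e : (fun h => ∑ i, T (pderiv i).toLinearMap h * A.y (X.eb i) + (c : ℂ) • h) =
        T (C2.Dg fun d => (d.degree : ℂ) + c) := by
      funext h
      rw [hE, ← C2.Dg_add, C2.Dg_const, map_add, map_smul, map_one, LinearMap.add_apply,
        LinearMap.smul_apply, Module.End.one_apply]
    have hne : ∀ d : Fin X.n →₀ ℕ, (d.degree : ℂ) + c ≠ 0 := fun d => by
      exact_mod_cast (by omega : d.degree + c ≠ 0)
    rw [e]
    refine Function.bijective_iff_has_inverse.2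
      ⟨T (C2.Dg fun d => ((d.degree : ℂ) + c)⁻¹), fun h => ?_, fun h => ?_⟩
    · rw [hmul]
      exact hone _ (fun d => inv_mul_cancel₀ (hne d)) h
    · rw [hmul]
      exact hone _ (fun d => mul_inv_cancel₀ (hne d)) h
  · have hmem : ∀ h, T (C2.Dg fun d => (d.degree : ℂ)) h ∈ A.LY := fun h => by
      rw [← hE]
      exact Submodule.sum_mem _ fun i _ => A.mul_y_mem _ _
    have hfix : ∀ f : (Fin X.n →₀ ℕ) → ℂ, (∀ d, f d = if d.degree = 0 then 0 else 1) →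
        ∀ h ∈ A.LY, T (C2.Dg f) h = h := by
      intro f hf h hh
      have h0 : T (C2.Dg fun d => if d.degree = 0 then 1 else 0) h = 0 := by
        obtain ⟨b, rfl⟩ := A.mem_LY_iff.1 hh
        rw [map_sum]
        refine Finset.sum_eq_zero fun i _ => ?_
        rw [hm, ← Module.End.mul_apply, ← map_mul, C2.Dg_zero_mul, map_zero, LinearMap.zero_apply]
      rw [← add_zero (T (C2.Dg f) h), ← h0, ← LinearMap.add_apply, ← map_add, C2.Dg_add]
      refine hone _ (fun d => ?_) h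
      rw [hf]
      split_ifs <;> simp
    have hi : ∀ d : Fin X.n →₀ ℕ,
        (d.degree : ℂ)⁻¹ * d.degree = if d.degree = 0 then 0 else 1 := fun d => by
      split_ifs with hd
      · simp [hd]
      · exact inv_mul_cancel₀ (by exact_mod_cast hd)
    simp only [hE]
    refine ⟨fun h _ => hmem h, fun h hh h' hh' e => ?_, fun h hh => ?_⟩
    · have e' := congrArg (T (C2.Dg fun d => (d.degree : ℂ)⁻¹)) e
      rwa [hmul, hmul, hfix _ hi h hh, hfix _ hi h' hh'] at e'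
    · refine ⟨_, hmem (T (C2.Dg fun d => (d.degree : ℂ)⁻¹ * (d.degree : ℂ)⁻¹) h), ?_⟩
      show T _ (T _ (T _ h)) = h
      rw [hmul, hmul]
      refine hfix _ (fun d => ?_) h hh
      have := hi d
      split_ifs at this ⊢ with hd
      · simp [hd]
      · linear_combination (1 + (d.degree : ℂ)⁻¹ * d.degree) * this

end CA

end

end Pool.Agent.P.MP_1a0ecf_al
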