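import Pool.Agent.P.MP_1a0ecf_al.C2

/-! Package C3: the Harish-Chandra projection and central characters. -/

namespace Pool.Agent.P.MP_1a0ecf_al

open Matrix MvPolynomial
open scoped Classical TensorProduct

noncomputable section

theorem c3_scale {n k : ℕ} (t : ℂ) {p : MvPolynomial (Fin n) ℂ} (hp : p.IsHomogeneous k) :
    aeval (fun i => (C t * MvPolynomial.X i : MvPolynomial (Fin n) ℂ)) p = t ^ k • p := by
  conv_lhs => rw [p.as_sum]
  conv_rhs => rw [p.as_sum]
  rw [map_sum, Finset.smul_sum]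
  refine Finset.sum_congr rfl fun d hd => ?_
  rw [aeval_monomial, hp.degree_eq_sum_deg_support hd, monomial_eq, smul_eq_C_mul]
  simp only [Finsupp.prod, mul_pow, Finset.prod_mul_distrib, Finset.prod_pow_eq_pow_sum,
    algebraMap_eq, map_pow]
  ring

theorem c3_cc {n k : ℕ} {p : MvPolynomial (Fin n) ℂ} (hp : p.IsHomogeneous k) (hk : k ≠ 0) :
    constantCoeff p = 0 :=
  hp.coeff_eq_zero (by simpa using hk.symm)

theorem c3_eq_C {n : ℕ} {p : MvPolynomial (Fin n) ℂ} (hp : p.IsHomogeneous 0) :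
    p = C (constantCoeff p) :=
  totalDegree_eq_zero_iff_eq_C.1 ((totalDegree_zero_iff_isHomogeneous _).2 hp)

theorem c3_geom {m k k' : ℕ} {ω : ℂ} (hω : IsPrimitiveRoot ω m) (hk : k < m) (hk' : k' < m)
    (h : k ≠ k') : ∑ j ∈ Finset.range m, (ω ^ j) ^ k * (ω ^ j)⁻¹ ^ k' = 0 := by
  have h0 : ω ≠ 0 := hω.ne_zero (by omega)
  have e : ∀ j : ℕ, (ω ^ j) ^ k * (ω ^ j)⁻¹ ^ k' = (ω ^ k * (ω ^ k')⁻¹) ^ j := by
    intro j
    rw [mul_pow, inv_pow, inv_pow, ← pow_mul, ← pow_mul, ← pow_mul, ← pow_mul, mul_comm j k,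
      mul_comm j k']
  have h1 : ω ^ k * (ω ^ k')⁻¹ ≠ 1 := by
    intro e1
    rw [mul_inv_eq_one₀ (pow_ne_zero _ h0)] at e1
    exact h (hω.pow_inj hk hk' e1)
  have h2 : (ω ^ k * (ω ^ k')⁻¹) ^ m = 1 := by
    rw [mul_pow, inv_pow, ← pow_mul, ← pow_mul, mul_comm k m, mul_comm k' m, pow_mul, pow_mul,
      hω.pow_eq_one, one_pow, one_pow, inv_one, mul_one]
  simp only [e]
  rw [geom_sum_eq h1, h2, sub_self, zero_div]

namespace CA

variable {X : Cox} {κ : ℂ} (A : CA X κ)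

theorem c3_ind {Q : A.H → Prop} (h0 : Q 0) (ha : ∀ a b, Q a → Q b → Q (a + b))
    (hs : ∀ (c : ℂ) a, Q a → Q (c • a)) (hg : ∀ p w p', Q (A.ex p * A.g w * A.ey p'))
    (h : A.H) : Q h := by
  have hh := A.span_top h
  induction hh using Submodule.span_induction with
  | mem x hx => obtain ⟨p, w, p', rfl⟩ := hx; exact hg p w p'
  | zero => exact h0
  | add x y _ _ hx hy => exact ha x y hx hy
  | smul c x _ hx => exact hs c x hx

theorem exists_P : ∃ P : A.H →ₗ[ℂ] X.GA, ∀ p w p', P (A.ex p * A.g w * A.ey p') =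
    (constantCoeff p * constantCoeff p') • MonoidAlgebra.of ℂ X.W w := by
  obtain ⟨Φ, hΦ⟩ := A.exists_pbw
  refine ⟨((TensorProduct.lid ℂ X.GA).toLinearMap ∘ₗ TensorProduct.map (lcoeff ℂ 0)
    ((TensorProduct.rid ℂ X.GA).toLinearMap ∘ₗ LinearMap.lTensor X.GA (lcoeff ℂ 0))) ∘ₗ
      Φ.symm.toLinearMap, fun p w p' => ?_⟩
  rw [← hΦ]
  simp only [LinearMap.comp_apply, LinearEquiv.coe_coe, LinearEquiv.symm_apply_apply,
    TensorProduct.map_tmul, LinearMap.lTensor_tmul, TensorProduct.rid_tmul,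
    TensorProduct.lid_tmul, lcoeff_apply, smul_smul, constantCoeff_eq]

/-- the projection to the group algebra -/
def P : A.H →ₗ[ℂ] X.GA := A.exists_P.choose

theorem P_spec (p : X.Sc) (w : X.W) (p' : X.Sc) : A.P (A.ex p * A.g w * A.ey p') =
    (constantCoeff p * constantCoeff p') • MonoidAlgebra.of ℂ X.W w :=
  A.exists_P.choose_spec p w p'

theorem P_g (w : X.W) : A.P (A.g w) = MonoidAlgebra.of ℂ X.W w := by
  simpa using A.P_spec 1 w 1

theorem P_gl (ζ : X.GA) : A.P (A.gl ζ) = ζ := by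
  conv_lhs => rw [t1_eq_sum ζ]
  conv_rhs => rw [t1_eq_sum ζ]
  simp only [map_sum, map_smul, gl_of, P_g]

theorem P_ex_mul (p : X.Sc) (h : A.H) : A.P (A.ex p * h) = constantCoeff p • A.P h := by
  refine A.c3_ind (Q := fun h => A.P (A.ex p * h) = constantCoeff p • A.P h) (by simp)
    (fun a b ha hb => ?_) (fun c a ha => ?_) (fun q w q' => ?_) h
  · rw [mul_add, map_add, map_add, ha, hb, smul_add]
  · rw [mul_smul_comm, map_smul, map_smul, ha, smul_comm]
  · rw [← mul_assoc, ← mul_assoc, ← map_mul, P_spec, P_spec, smul_smul, map_mul, mul_assoc]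

theorem P_x_mul (a : X.Vc) (h : A.H) : A.P (A.x a * h) = 0 := by
  rw [← ex_lin, P_ex_mul, constantCoeff_lin, zero_smul]

theorem P_mul_ey (h : A.H) (p : X.Sc) : A.P (h * A.ey p) = constantCoeff p • A.P h := by
  refine A.c3_ind (Q := fun h => A.P (h * A.ey p) = constantCoeff p • A.P h) (by simp)
    (fun a b ha hb => ?_) (fun c a ha => ?_) (fun q w q' => ?_) h
  · rw [add_mul, map_add, map_add, ha, hb, smul_add]
  · rw [smul_mul_assoc, map_smul, map_smul, ha, smul_comm]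
  · rw [mul_assoc, ← map_mul, P_spec, P_spec, smul_smul, map_mul]
    congr 1
    ring

theorem P_LY {h : A.H} (hh : h ∈ A.LY) : A.P h = 0 := by
  obtain ⟨c, rfl⟩ := A.mem_LY_iff.1 hh
  rw [map_sum]
  refine Finset.sum_eq_zero fun i _ => ?_
  rw [← ey_lin, P_mul_ey, constantCoeff_lin, zero_smul]

theorem P_g_mul (w : X.W) (h : A.H) : A.P (A.g w * h) = MonoidAlgebra.of ℂ X.W w * A.P h := by
  refine A.c3_ind (Q := fun h => A.P (A.g w * h) = MonoidAlgebra.of ℂ X.W w * A.P h) (by simp)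
    (fun a b ha hb => ?_) (fun c a ha => ?_) (fun q u q' => ?_) h
  · rw [mul_add, map_add, map_add, ha, hb, mul_add]
  · rw [mul_smul_comm, map_smul, map_smul, ha, mul_smul_comm]
  · rw [← mul_assoc, ← mul_assoc, g_ex, mul_assoc _ (A.g w), ← map_mul, P_spec, P_spec,
      X.constantCoeff_act ℂ, mul_smul_comm, map_mul]

theorem P_mul_g (w : X.W) (h : A.H) : A.P (h * A.g w) = A.P h * MonoidAlgebra.of ℂ X.W w := by
  refine A.c3_ind (Q := fun h => A.P (h * A.g w) = A.P h * MonoidAlgebra.of ℂ X.W w) (by simp)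
    (fun a b ha hb => ?_) (fun c a ha => ?_) (fun q u q' => ?_) h
  · rw [add_mul, map_add, map_add, ha, hb, add_mul]
  · rw [smul_mul_assoc, map_smul, map_smul, ha, smul_mul_assoc]
  · have e : A.ey q' * A.g w = A.g w * A.ey (X.act ℂ w⁻¹ q') := by
      rw [g_ey, ← X.act_mul ℂ, mul_inv_cancel, X.act_one ℂ]
    rw [mul_assoc, e, ← mul_assoc, mul_assoc _ (A.g u), ← map_mul, P_spec, P_spec,
      X.constantCoeff_act ℂ, smul_mul_assoc, map_mul]

theorem P_center {z : A.H} (hz : z ∈ Subalgebra.center ℂ A.H) :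
    A.P z ∈ Subalgebra.center ℂ X.GA := by
  refine t1_center fun g => ?_
  rw [← P_g_mul, ← P_mul_g, Subalgebra.mem_center_iff.1 hz]

theorem P_center_mul {z : A.H} (hz : z ∈ Subalgebra.center ℂ A.H) (h : A.H) :
    A.P (z * h) = A.P z * A.P h := by
  refine A.c3_ind (Q := fun h => A.P (z * h) = A.P z * A.P h) (by simp)
    (fun a b ha hb => ?_) (fun c a ha => ?_) (fun q u q' => ?_) h
  · rw [mul_add, map_add, map_add, ha, hb, mul_add]
  · rw [mul_smul_comm, map_smul, map_smul, ha, mul_smul_comm]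
  · rw [← mul_assoc, ← mul_assoc, ← Subalgebra.mem_center_iff.1 hz, P_mul_ey, mul_assoc,
      P_ex_mul, P_mul_g, P_spec, mul_smul_comm, smul_smul, mul_comm (constantCoeff q')]

theorem c3_ey_sub (p : X.Sc) : A.ey p - constantCoeff p • (1 : A.H) ∈ A.LY := by
  have h := A.ey_mem (r := p - C (constantCoeff p)) (by simp)
  rwa [map_sub, algHom_C, Algebra.algebraMap_eq_smul_one] at h

theorem IsInd.c3_LY {E : Type} [AddCommGroup E] [Module ℂ E] {π : Representation ℂ X.W E}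
    {ρ : A.H →ₐ[ℂ] Module.End ℂ (X.Sc ⊗[ℂ] E)} (hρ : A.IsInd π 0 ρ) {h : A.H} (hh : h ∈ A.LY)
    (v : E) : ρ h (1 ⊗ₜ v) = 0 := by
  obtain ⟨c, rfl⟩ := A.mem_LY_iff.1 hh
  rw [map_sum, LinearMap.sum_apply]
  refine Finset.sum_eq_zero fun i _ => ?_
  rw [map_mul, Module.End.mul_apply, hρ.y, Finset.sum_eq_zero]
  · simp
  · intro t ht
    rw [← C_1, Cox.dd_C ℂ (Finset.mem_filter.1 ht).2, TensorProduct.zero_tmul, smul_zero]

theorem IsInd.one_tmul {E : Type} [AddCommGroup E] [Module ℂ E] {π : Representation ℂ X.W E}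
    {ρ : A.H →ₐ[ℂ] Module.End ℂ (X.Sc ⊗[ℂ] E)} (hρ : A.IsInd π 0 ρ) (h : A.H) (v : E) :
    ρ h (1 ⊗ₜ v) - 1 ⊗ₜ π.asAlgebraHom (A.P h) v ∈
      Submodule.span ℂ {m | ∃ (q : X.Sc) (u : E), constantCoeff q = 0 ∧ m = q ⊗ₜ[ℂ] u} := by
  refine A.c3_ind (Q := fun h => ρ h (1 ⊗ₜ v) - 1 ⊗ₜ π.asAlgebraHom (A.P h) v ∈
      Submodule.span ℂ {m | ∃ (q : X.Sc) (u : E), constantCoeff q = 0 ∧ m = q ⊗ₜ[ℂ] u}) (by simp)
    (fun a b ha hb => ?_) (fun c a ha => ?_) (fun q u q' => ?_) h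
  · convert Submodule.add_mem _ ha hb using 1
    simp only [map_add, LinearMap.add_apply, TensorProduct.tmul_add]
    abel
  · convert Submodule.smul_mem _ c ha using 1
    simp only [map_smul, LinearMap.smul_apply, TensorProduct.tmul_smul, smul_sub]
  · have e1 : ρ (A.ey q') (1 ⊗ₜ v) = constantCoeff q' • (1 ⊗ₜ v) := by
      have e := hρ.c3_LY A (A.c3_ey_sub q') v
      rw [map_sub, map_smul, map_one, LinearMap.sub_apply, sub_eq_zero] at e
      exact e
    have e2 : ρ (A.ex q * A.g u * A.ey q') (1 ⊗ₜ v) = constantCoeff q' • (q ⊗ₜ π u v) := by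
      rw [map_mul, map_mul, Module.End.mul_apply, Module.End.mul_apply, e1, map_smul, map_smul,
        hρ.g, hρ.ex, map_one, mul_one]
    have hm : constantCoeff q' • ((q - C (constantCoeff q)) ⊗ₜ[ℂ] π u v) ∈
        Submodule.span ℂ {m | ∃ (q : X.Sc) (u : E), constantCoeff q = 0 ∧ m = q ⊗ₜ[ℂ] u} :=
      Submodule.smul_mem _ _ (Submodule.subset_span ⟨_, _, by simp, rfl⟩)
    convert hm using 1
    rw [e2, P_spec, map_smul, Representation.asAlgebraHom_of, LinearMap.smul_apply,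
      TensorProduct.sub_tmul, smul_sub, C_eq_smul_one, ← TensorProduct.smul_tmul',
      TensorProduct.tmul_smul, smul_smul, mul_comm]

theorem c3_theta (t : ℂ) : ∃ θ : A.H →ₐ[ℂ] A.H, t ≠ 0 →
    (∀ z ∈ Subalgebra.center ℂ A.H, θ z ∈ Subalgebra.center ℂ A.H) ∧
    ∀ p w p' k k', IsHomogeneous p k → IsHomogeneous p' k' →
      θ (A.ex p * A.g w * A.ey p') = (t ^ k * t⁻¹ ^ k') • (A.ex p * A.g w * A.ey p') := by
  by_cases ht : t = 0
  · exact ⟨AlgHom.id ℂ _, fun h => (h ht).elim⟩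
  have hr : CRels X κ (t • A.x) (t⁻¹ • A.y) A.g := by
    refine ⟨fun w a => ?_, fun w a => ?_, fun a b => ?_, fun a b => ?_, fun a b => ?_⟩
    · simp only [LinearMap.smul_apply, mul_smul_comm, smul_mul_assoc, A.rels.gx]
    · simp only [LinearMap.smul_apply, mul_smul_comm, smul_mul_assoc, A.rels.gy]
    · simp only [LinearMap.smul_apply, mul_smul_comm, smul_mul_assoc, A.rels.xx a b]
    · simp only [LinearMap.smul_apply, mul_smul_comm, smul_mul_assoc, A.rels.yy a b]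
    · simp only [LinearMap.smul_apply, mul_smul_comm, smul_mul_assoc, smul_smul,
        mul_inv_cancel₀ ht, inv_mul_cancel₀ ht, one_smul, A.rels.yx]
  obtain ⟨θ, hx, hy, hg⟩ := A.lift A.H _ _ _ hr
  refine ⟨θ, fun _ => ⟨fun z hz => A.map_center (fun a => ⟨t⁻¹ • A.x a, ?_⟩)
    (fun a => ⟨t • A.y a, ?_⟩) (fun w => ⟨A.g w, hg w⟩) hz, fun p w p' k k' hp hp' => ?_⟩⟩
  · change θ _ = _
    rw [map_smul, hx, LinearMap.smul_apply, smul_smul, inv_mul_cancel₀ ht, one_smul]
  · change θ _ = _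
    rw [map_smul, hy, LinearMap.smul_apply, smul_smul, mul_inv_cancel₀ ht, one_smul]
  have e1 : θ.comp A.ex = A.ex.comp (aeval fun i => C t * MvPolynomial.X i) := by
    refine MvPolynomial.algHom_ext fun i => ?_
    rw [AlgHom.comp_apply, AlgHom.comp_apply, aeval_X, ← smul_eq_C_mul, map_smul,
      ← lin_single, ex_lin, hx, LinearMap.smul_apply]
  have e2 : θ.comp A.ey = A.ey.comp (aeval fun i => C t⁻¹ * MvPolynomial.X i) := by
    refine MvPolynomial.algHom_ext fun i => ?_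
    rw [AlgHom.comp_apply, AlgHom.comp_apply, aeval_X, ← smul_eq_C_mul, map_smul,
      ← lin_single, ey_lin, hy, LinearMap.smul_apply]
  have e3 := AlgHom.congr_fun e1 p
  have e4 := AlgHom.congr_fun e2 p'
  rw [AlgHom.comp_apply, AlgHom.comp_apply, c3_scale _ hp, map_smul] at e3
  rw [AlgHom.comp_apply, AlgHom.comp_apply, c3_scale _ hp', map_smul] at e4
  rw [map_mul, map_mul, e3, e4, hg, smul_mul_assoc, smul_mul_assoc, mul_smul_comm, smul_smul]

theorem c3_term {p p' : X.Sc} (w : X.W) {k : ℕ} (hp : IsHomogeneous p k)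
    (hp' : IsHomogeneous p' k) :
    A.ex p * A.g w * A.ey p' - A.gl (A.P (A.ex p * A.g w * A.ey p')) ∈ A.LY := by
  by_cases hk : k = 0
  · subst hk
    rw [P_spec, map_smul, gl_of]
    conv => enter [2, 1]; rw [c3_eq_C hp, c3_eq_C hp', algHom_C, algHom_C,
      Algebra.algebraMap_eq_smul_one, Algebra.algebraMap_eq_smul_one]
    simp only [smul_mul_assoc, mul_smul_comm, one_mul, mul_one, smul_smul]
    rw [mul_comm, sub_self]
    exact zero_mem _
  · rw [P_spec, c3_cc hp' hk, mul_zero, zero_smul, map_zero, sub_zero]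
    exact A.LY.smul_mem _ (A.ey_mem (c3_cc hp' hk))

theorem exists_z0 {z : A.H} (hz : z ∈ Subalgebra.center ℂ A.H) :
    ∃ z0 ∈ Subalgebra.center ℂ A.H, z0 - A.gl (A.P z) ∈ A.LY := by
  choose θ hθ using A.c3_theta
  let ω : ℕ → ℂ := fun m => Complex.exp (2 * Real.pi * Complex.I / m)
  have hω : ∀ j m : ℕ, ω m ^ j ≠ 0 := fun j m => pow_ne_zero _ (Complex.exp_ne_zero _)
  let av : ℕ → A.H → A.H := fun m h => (m : ℂ)⁻¹ • ∑ j ∈ Finset.range m, θ (ω m ^ j) h
  have key : ∀ h : A.H, ∀ᶠ m in Filter.atTop, av m h - A.gl (A.P h) ∈ A.LY := by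
    intro h
    have hh := A.span_top_hom h
    induction hh using Submodule.span_induction with
    | mem x hx =>
      obtain ⟨p, w, p', k, k', hp, hp', rfl⟩ := hx
      filter_upwards [Filter.eventually_gt_atTop k, Filter.eventually_gt_atTop k'] with m h1 h2
      have hm : m ≠ 0 := by omega
      have e : av m (A.ex p * A.g w * A.ey p') =
          ((m : ℂ)⁻¹ * ∑ j ∈ Finset.range m, (ω m ^ j) ^ k * (ω m ^ j)⁻¹ ^ k') •
            (A.ex p * A.g w * A.ey p') := by
        simp only [av]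
        rw [← smul_smul, Finset.sum_smul]
        congr 1
        exact Finset.sum_congr rfl fun j _ => (hθ _ (hω j m)).2 p w p' k k' hp hp'
      rw [e]
      by_cases hk : k = k'
      · subst hk
        have e1 : ∀ j ∈ Finset.range m, (ω m ^ j) ^ k * (ω m ^ j)⁻¹ ^ k = 1 := fun j _ => by
          rw [← mul_pow, mul_inv_cancel₀ (hω j m), one_pow]
        rw [Finset.sum_congr rfl e1, Finset.sum_const, Finset.card_range, nsmul_eq_mul, mul_one,
          inv_mul_cancel₀ (Nat.cast_ne_zero.2 hm), one_smul]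
        exact A.c3_term w hp hp'
      · have e2 : constantCoeff p * constantCoeff p' = 0 := by
          by_cases h0 : k = 0
          · rw [c3_cc hp' (by omega), mul_zero]
          · rw [c3_cc hp h0, zero_mul]
        rw [c3_geom (Complex.isPrimitiveRoot_exp m hm) h1 h2 hk, mul_zero, zero_smul, P_spec, e2,
          zero_smul, map_zero, sub_zero]
        exact zero_mem _
    | zero => exact Filter.Eventually.of_forall fun m => by simp [av]
    | add x y _ _ hx hy =>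
      filter_upwards [hx, hy] with m h1 h2
      convert A.LY.add_mem h1 h2 using 1
      simp only [av, map_add, Finset.sum_add_distrib, smul_add]
      abel
    | smul c x _ hx =>
      filter_upwards [hx] with m h1
      convert A.LY.smul_of_tower_mem c h1 using 1
      simp only [av, map_smul, smul_sub, ← Finset.smul_sum]
      rw [smul_comm]
  obtain ⟨m, hm⟩ := (key z).exists
  exact ⟨av m z, Subalgebra.smul_mem _
    (Subalgebra.sum_mem _ fun j _ => (hθ _ (hω j m)).1 z hz) _, hm⟩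

/-- equality of central characters -/
def rel (χ χ' : X.W → ℂ) : Prop :=
  ∀ z ∈ Subalgebra.center ℂ A.H, chx χ (A.P z) * χ' 1 = chx χ' (A.P z) * χ 1

theorem rel_refl (χ : X.W → ℂ) : A.rel χ χ := fun _ _ => rfl

variable {A}

theorem rel.symm {χ χ' : X.W → ℂ} (h : A.rel χ χ') : A.rel χ' χ := fun z hz => (h z hz).symm

theorem rel.trans {χ χ' χ'' : X.W → ℂ} (h : A.rel χ χ') (h' : A.rel χ' χ'') (h1 : χ' 1 ≠ 0) :
    A.rel χ χ'' := by
  intro z hz
  refine mul_right_cancel₀ h1 ?_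
  linear_combination χ'' 1 * h z hz + χ 1 * h' z hz

theorem rel.om_eq (hκ : κ ≠ 0) {χ χ' : X.W → ℂ} (h : A.rel χ χ') (h1 : χ 1 ≠ 0) (h2 : χ' 1 ≠ 0) :
    X.om χ = X.om χ' := by
  have e : A.P A.eu = κ • X.omA := by
    have e1 := A.P_LY A.eu_sub_mem
    rwa [map_sub, P_gl, sub_eq_zero] at e1
  have e2 := h _ A.eu_center
  rw [e, map_smul, map_smul, X.chx_omA, X.chx_omA, smul_eq_mul, smul_eq_mul, mul_assoc,
    mul_assoc] at e2
  rw [Cox.om, Cox.om, div_eq_div_iff h1 h2]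
  exact mul_left_cancel₀ hκ e2

theorem c3_red (A : CA X κ) (h : A.H) :
    ∃ p : X.W → X.Sc, h - ∑ w, A.ex (p w) * A.g w ∈ A.LY := by
  refine A.c3_ind (Q := fun h => ∃ p : X.W → X.Sc, h - ∑ w, A.ex (p w) * A.g w ∈ A.LY)
    ⟨0, by simp⟩ (fun a b ha hb => ?_) (fun c a ha => ?_) (fun q u q' => ?_) h
  · obtain ⟨p, hp⟩ := ha
    obtain ⟨p', hp'⟩ := hb
    refine ⟨p + p', ?_⟩
    convert A.LY.add_mem hp hp' using 1
    simp only [Pi.add_apply, map_add, add_mul, Finset.sum_add_distrib]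
    abel
  · obtain ⟨p, hp⟩ := ha
    refine ⟨c • p, ?_⟩
    convert A.LY.smul_of_tower_mem c hp using 1
    simp only [Pi.smul_apply, map_smul, smul_mul_assoc, smul_sub, Finset.smul_sum]
  · refine ⟨Pi.single u (constantCoeff q' • q), ?_⟩
    rw [Finset.sum_eq_single u (fun w _ hw => by simp [hw]) (by simp), Pi.single_eq_same]
    convert A.LY.smul_mem (A.ex q * A.g u) (A.c3_ey_sub q') using 1
    rw [smul_eq_mul, mul_sub, map_smul, smul_mul_assoc, mul_smul_comm, mul_one]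

theorem rel_of_zero (A : CA X 0) (χ χ' : X.W → ℂ) : A.rel χ χ' := by
  intro z hz
  let τ : Representation ℂ X.W X.GA :=
    (Algebra.lmul ℂ X.GA).toMonoidHom.comp (MonoidAlgebra.of ℂ X.W)
  have hτ : ∀ w, τ w 1 = MonoidAlgebra.of ℂ X.W w := fun w => mul_one _
  obtain ⟨ρ, hρ⟩ := A.exists_act τ 0 (fun w a => by simp) (fun a b => rfl)
  have hy : ∀ a, ρ (A.y a) = 0 := fun a => TensorProduct.ext' fun q v => by
    rw [hρ.y]
    simp
  have hL : ∀ l ∈ A.LY, ρ l = 0 := fun l hl => by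
    obtain ⟨c, rfl⟩ := A.mem_LY_iff.1 hl
    simp only [map_sum, map_mul, hy, mul_zero, Finset.sum_const_zero]
  obtain ⟨p, hp⟩ := A.c3_red z
  have e1 : ∀ q, ρ z (q ⊗ₜ 1) = ∑ w, (p w * X.act ℂ w q) ⊗ₜ MonoidAlgebra.of ℂ X.W w := by
    intro q
    have e := hL _ hp
    rw [map_sub, sub_eq_zero] at e
    rw [e, map_sum, LinearMap.sum_apply]
    refine Finset.sum_congr rfl fun w _ => ?_
    rw [map_mul, Module.End.mul_apply, hρ.g, hρ.ex, hτ]
  have e2 : ∀ q w, p w * X.act ℂ w q = q * p w := by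
    intro q w
    have e : ρ z (q ⊗ₜ 1) = ρ (A.ex q) (ρ z (1 ⊗ₜ 1)) := by
      rw [← Module.End.mul_apply, ← map_mul, Subalgebra.mem_center_iff.1 hz, map_mul,
        Module.End.mul_apply, hρ.ex, mul_one]
    rw [e1, e1, map_sum] at e
    simp only [hρ.ex, map_one, mul_one] at e
    have e3 := congrArg ((TensorProduct.rid ℂ X.Sc).toLinearMap ∘ₗ
      LinearMap.lTensor X.Sc (chx (Pi.single w (1 : ℂ)))) e
    simp only [map_sum, LinearMap.comp_apply, LinearEquiv.coe_coe, LinearMap.lTensor_tmul,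
      TensorProduct.rid_tmul, chx_of] at e3
    rwa [Finset.sum_eq_single w (fun u _ hu => by simp [hu]) (by simp),
      Finset.sum_eq_single w (fun u _ hu => by simp [hu]) (by simp), Pi.single_eq_same,
      one_smul, one_smul] at e3
  have e3 : ∀ w, w ≠ 1 → p w = 0 := by
    intro w hw
    obtain ⟨q, φ, hq⟩ := X.exists_sep
    by_contra h0
    have e := e2 q w
    rw [mul_comm q] at e
    have e4 := hq w
    rw [mul_left_cancel₀ h0 e, if_neg hw] at e4
    have e5 := hq 1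
    rw [X.act_one ℂ, if_pos rfl, e4] at e5
    exact zero_ne_one e5
  have e4 : A.P z = constantCoeff (p 1) • MonoidAlgebra.of ℂ X.W 1 := by
    have e := A.P_LY hp
    rw [map_sub, sub_eq_zero] at e
    rw [e, Finset.sum_eq_single 1 (fun w _ hw => by simp [e3 w hw]) (by simp), P_ex_mul, P_g]
  rw [e4, map_smul, map_smul, chx_of, chx_of, smul_eq_mul, smul_eq_mul]
  ring

end CA

end

end Pool.Agent.P.MP_1a0ecf_al
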