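import Pool.Agent.P.MP_1a0ecf_al.C3

/-! Package C4a: the filtration of the induced module. -/

namespace Pool.Agent.P.MP_1a0ecf_al

open Matrix MvPolynomial
open scoped Classical TensorProduct

noncomputable section

namespace CA

variable {X : Cox} {κ : ℂ} (A : CA X κ)

theorem LY_tmul_mem {E : Type} [AddCommGroup E] [Module ℂ E] (π : Representation ℂ X.W E)
    {h : A.H} (hh : h ∈ A.LY) (v : E) : h ⊗ₜ[ℂ] v ∈ IndRel A.y A.g π := by
  induction hh using Submodule.span_induction with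
  | mem r hr =>
    obtain ⟨a, rfl⟩ := hr
    exact Submodule.subset_span (Or.inl ⟨a, v, rfl⟩)
  | zero => rw [TensorProduct.zero_tmul]; exact zero_mem _
  | add p q _ _ hp hq => rw [TensorProduct.add_tmul]; exact add_mem hp hq
  | smul a p _ hp =>
    rw [← TensorProduct.smul_tmul']
    exact Submodule.smul_mem _ _ hp

theorem top_tmul_sub_mem {E : Type} [AddCommGroup E] [Module ℂ E] (π : Representation ℂ X.W E)
    (p : X.Sc) (w : X.W) (p' : X.Sc) (v : E) :
    (A.ex p * A.g w * A.ey p') ⊗ₜ[ℂ] v - A.ex p ⊗ₜ[ℂ] (constantCoeff p' • π w v) ∈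
      IndRel A.y A.g π := by
  have h1 : A.ey (p' - C (constantCoeff p')) ∈ A.LY := A.ey_mem (by simp)
  have h2 := (IndRel A.y A.g π).smul_mem (A.ex p * A.g w) (A.LY_tmul_mem π h1 v)
  have h3 : A.g w ⊗ₜ[ℂ] (constantCoeff p' • v) - 1 ⊗ₜ[ℂ] π w (constantCoeff p' • v) ∈
      IndRel A.y A.g π := Submodule.subset_span (Or.inr ⟨w, _, rfl⟩)
  have h4 := add_mem h2 ((IndRel A.y A.g π).smul_mem (A.ex p) h3)
  convert h4 using 1
  rw [map_sub, algHom_C, Algebra.algebraMap_eq_smul_one, smul_sub, TensorProduct.smul_tmul',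
    TensorProduct.smul_tmul', TensorProduct.smul_tmul', smul_eq_mul, smul_eq_mul, smul_eq_mul,
    mul_sub, TensorProduct.sub_tmul, mul_smul_comm, mul_one, mul_one, TensorProduct.smul_tmul,
    map_smul]
  abel

theorem exists_ind_equiv {E : Type} [AddCommGroup E] [Module ℂ E] {π : Representation ℂ X.W E}
    {ρ : A.H →ₐ[ℂ] Module.End ℂ (X.Sc ⊗[ℂ] E)} (hρ : A.IsInd π 0 ρ) :
    ∃ Φ : ((A.H ⊗[ℂ] E) ⧸ IndRel A.y A.g π) ≃+ X.Sc ⊗[ℂ] E,
      ∀ (h : A.H) m, Φ (h • m) = ρ h (Φ m) := by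
  let F : A.H ⊗[ℂ] E →ₗ[ℂ] X.Sc ⊗[ℂ] E :=
    TensorProduct.lift (ρ.toLinearMap.compl₂ (TensorProduct.mk ℂ X.Sc E 1))
  have hF : ∀ h v, F (h ⊗ₜ v) = ρ h (1 ⊗ₜ v) := fun h v => rfl
  have hFs : ∀ (h : A.H) m, F (h • m) = ρ h (F m) := by
    intro h m
    induction m using TensorProduct.induction_on with
    | zero => simp
    | tmul a v => rw [TensorProduct.smul_tmul', hF, hF, smul_eq_mul, map_mul]; rfl
    | add a b ha hb => rw [smul_add, map_add, map_add, map_add, ha, hb]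
  have hker : ∀ m ∈ IndRel A.y A.g π, F m = 0 := by
    intro m hm
    induction hm using Submodule.span_induction with
    | mem r hr =>
      rcases hr with ⟨a, v, rfl⟩ | ⟨w, v, rfl⟩
      · rw [hF, hρ.y, LinearMap.zero_apply, LinearMap.zero_apply, TensorProduct.tmul_zero,
          zero_add]
        refine Finset.sum_eq_zero fun t ht => ?_
        have e := Cox.dd_C ℂ (Finset.mem_filter.1 ht).2 (1 : ℂ)
        rw [C_1] at e
        rw [e, TensorProduct.zero_tmul, smul_zero]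
      · rw [map_sub, hF, hF, hρ.g, map_one, map_one, Module.End.one_apply, sub_self]
    | zero => exact map_zero F
    | add p q _ _ hp hq => rw [map_add, hp, hq, add_zero]
    | smul a p _ hp => rw [hFs, hp, map_zero]
  let Φ : ((A.H ⊗[ℂ] E) ⧸ IndRel A.y A.g π) →+ X.Sc ⊗[ℂ] E :=
    QuotientAddGroup.lift (IndRel A.y A.g π).toAddSubgroup F.toAddMonoidHom hker
  have hΦ : ∀ m, Φ (Submodule.Quotient.mk m) = F m := fun m => rfl
  let G : X.Sc ⊗[ℂ] E →ₗ[ℂ] A.H ⊗[ℂ] E := A.ex.toLinearMap.rTensor E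
  have hG : ∀ q v, G (q ⊗ₜ v) = A.ex q ⊗ₜ v := fun q v => rfl
  have hFG : ∀ m, F (G m) = m := by
    intro m
    induction m using TensorProduct.induction_on with
    | zero => simp
    | tmul q v => rw [hG, hF, hρ.ex, mul_one]
    | add a b ha hb => rw [map_add, map_add, ha, hb]
  have hsur : ∀ m : A.H ⊗[ℂ] E, ∃ m', m - G m' ∈ IndRel A.y A.g π := by
    intro m
    induction m using TensorProduct.induction_on with
    | zero => exact ⟨0, by simp⟩
    | tmul h v =>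
      have hh := A.span_top h
      induction hh using Submodule.span_induction with
      | mem r hr =>
        obtain ⟨p, w, p', rfl⟩ := hr
        exact ⟨p ⊗ₜ (constantCoeff p' • π w v), A.top_tmul_sub_mem π p w p' v⟩
      | zero => exact ⟨0, by simp⟩
      | add p q _ _ hp hq =>
        obtain ⟨a, ha⟩ := hp
        obtain ⟨b, hb⟩ := hq
        refine ⟨a + b, ?_⟩
        rw [TensorProduct.add_tmul, map_add, add_sub_add_comm]
        exact add_mem ha hb
      | smul c p _ hp =>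
        obtain ⟨a, ha⟩ := hp
        refine ⟨c • a, ?_⟩
        have e := Submodule.smul_of_tower_mem _ c ha
        rw [smul_sub, TensorProduct.smul_tmul', ← map_smul] at e
        exact e
    | add a b ha hb =>
      obtain ⟨a', ha⟩ := ha
      obtain ⟨b', hb⟩ := hb
      refine ⟨a' + b', ?_⟩
      rw [map_add, add_sub_add_comm]
      exact add_mem ha hb
  have hbij : Function.Bijective Φ := by
    constructor
    · rw [injective_iff_map_eq_zero]
      intro m hm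
      obtain ⟨m, rfl⟩ := Submodule.Quotient.mk_surjective _ m
      obtain ⟨m', hm'⟩ := hsur m
      have e := hker _ hm'
      rw [hΦ] at hm
      rw [map_sub, hm, hFG, zero_sub, neg_eq_zero] at e
      rw [e, map_zero, sub_zero] at hm'
      exact (Submodule.Quotient.mk_eq_zero _).2 hm'
    · intro m
      exact ⟨Submodule.Quotient.mk (G m), by rw [hΦ, hFG]⟩
  refine ⟨AddEquiv.ofBijective Φ hbij, fun h m => ?_⟩
  obtain ⟨m, rfl⟩ := Submodule.Quotient.mk_surjective _ m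
  exact hFs h m

theorem IsInd.ex_smul {E : Type} [AddCommGroup E] [Module ℂ E] {π : Representation ℂ X.W E}
    {ρ : A.H →ₐ[ℂ] Module.End ℂ (X.Sc ⊗[ℂ] E)} (hρ : A.IsInd π 0 ρ) (p : X.Sc)
    (m : X.Sc ⊗[ℂ] E) : ρ (A.ex p) m = p • m := by
  induction m using TensorProduct.induction_on with
  | zero => simp
  | tmul q v => rw [hρ.ex, TensorProduct.smul_tmul', smul_eq_mul]
  | add a b ha hb => rw [map_add, smul_add, ha, hb]

theorem mem_vars_iff {n : ℕ} (q : MvPolynomial (Fin n) ℂ) :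
    q ∈ idealOfVars (Fin n) ℂ ↔ constantCoeff q = 0 := by
  rw [← pow_one (idealOfVars (Fin n) ℂ), mem_pow_idealOfVars_iff']
  constructor
  · intro h
    exact h 0 (by simp)
  · intro h x hx
    have e : x = 0 := (Finsupp.degree_eq_zero_iff x).1 (by omega)
    rw [e]
    exact h

theorem IsInd.center_mem {E : Type} [AddCommGroup E] [Module ℂ E] [FiniteDimensional ℂ E]
    {π : Representation ℂ X.W E} (hπ : π.IsIrreducible)
    {ρ : A.H →ₐ[ℂ] Module.End ℂ (X.Sc ⊗[ℂ] E)} (hρ : A.IsInd π 0 ρ) {z : A.H}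
    (hz : z ∈ Subalgebra.center ℂ A.H) (h0 : chx π.character (A.P z) = 0) (k : ℕ)
    (m : X.Sc ⊗[ℂ] E) (hm : m ∈ idealOfVars (Fin X.n) ℂ ^ k • (⊤ : Submodule X.Sc (X.Sc ⊗[ℂ] E))) :
    ρ z m ∈ idealOfVars (Fin X.n) ℂ ^ (k + 1) • (⊤ : Submodule X.Sc (X.Sc ⊗[ℂ] E)) := by
  have hlin : ∀ (p : X.Sc) m, ρ z (p • m) = p • ρ z m := by
    intro p m
    rw [← IsInd.ex_smul A hρ, ← IsInd.ex_smul A hρ, ← Module.End.mul_apply, ← Module.End.mul_apply,
      ← map_mul, ← map_mul, (Subalgebra.mem_center_iff.1 hz (A.ex p))]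
  have h1 : ∀ v, ρ z (1 ⊗ₜ v) ∈
      idealOfVars (Fin X.n) ℂ • (⊤ : Submodule X.Sc (X.Sc ⊗[ℂ] E)) := by
    intro v
    have e := IsInd.one_tmul A hρ z v
    rw [schur π hπ (A.P_center hz), h0, zero_div, zero_smul, LinearMap.zero_apply,
      TensorProduct.tmul_zero, sub_zero] at e
    generalize ρ z (1 ⊗ₜ v) = m at e
    induction e using Submodule.span_induction with
    | mem r hr =>
      obtain ⟨q, u, hq, rfl⟩ := hr
      have e : q ⊗ₜ[ℂ] u = q • ((1 : X.Sc) ⊗ₜ[ℂ] u) := by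
        rw [TensorProduct.smul_tmul', smul_eq_mul, mul_one]
      rw [e]
      exact Submodule.smul_mem_smul ((mem_vars_iff q).2 hq) Submodule.mem_top
    | zero => exact zero_mem _
    | add p q _ _ hp hq => exact add_mem hp hq
    | smul c p _ hp => exact Submodule.smul_of_tower_mem _ c hp
  have h2 : ∀ m, ρ z m ∈ idealOfVars (Fin X.n) ℂ • (⊤ : Submodule X.Sc (X.Sc ⊗[ℂ] E)) := by
    intro m
    induction m using TensorProduct.induction_on with
    | zero => rw [map_zero]; exact zero_mem _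
    | tmul q v =>
      have e : q ⊗ₜ[ℂ] v = q • ((1 : X.Sc) ⊗ₜ[ℂ] v) := by
        rw [TensorProduct.smul_tmul', smul_eq_mul, mul_one]
      rw [e, hlin]
      exact Submodule.smul_mem _ _ (h1 v)
    | add a b ha hb => rw [map_add]; exact add_mem ha hb
  rw [pow_succ, Submodule.mul_smul]
  refine Submodule.smul_induction_on hm (fun r hr n _ => ?_) fun a b ha hb => ?_
  · rw [hlin]
    exact Submodule.smul_mem_smul hr (h2 n)
  · rw [map_add]
    exact add_mem ha hb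

theorem exists_pow_le_invI (X : Cox) : ∃ N, idealOfVars (Fin X.n) ℂ ^ N ≤ X.invI ℂ := by
  obtain ⟨N, hN⟩ := X.exists_hom_mem_invI ℂ
  refine ⟨N, fun p hp => ?_⟩
  rw [mem_pow_idealOfVars_iff] at hp
  rw [p.as_sum]
  exact Ideal.sum_mem _ fun d hd => hN _ (hp d hd) _ (isHomogeneous_monomial _ rfl)

theorem exists_filt {d : ℕ} {π : Representation ℂ X.W (Fin d → ℂ)} (hπ : π.IsIrreducible) :
    ∃ Fl : ℕ → AddSubgroup ((A.H ⊗[ℂ] (Fin d → ℂ)) ⧸ IndRel A.y A.g π),
      (∀ m, m ∈ Fl 0) ∧ (∀ m, (∀ k, m ∈ Fl k) → m = 0) ∧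
      (∀ z ∈ Subalgebra.center ℂ A.H, chx π.character (A.P z) = 0 → ∀ k, ∀ m ∈ Fl k,
        z • m ∈ Fl (k + 1)) ∧
      (∃ N, ∀ m ∈ Fl N, m ∈ AddSubgroup.closure {m | ∃ (r : X.Sc) (m' : _),
        constantCoeff r = 0 ∧ (∀ w, X.act ℂ w r = r) ∧ m = A.ex r • m'}) ∧
      ∃ m : (A.H ⊗[ℂ] (Fin d → ℂ)) ⧸ IndRel A.y A.g π,
        ((Fintype.card X.W : ℂ)⁻¹ • ∑ w, A.g w) • m ≠ 0 := by
  obtain ⟨ρ, hρ⟩ := A.exists_act π 0 (fun w a => by simp) (fun a b => by simp)
  obtain ⟨Φ, hΦ⟩ := A.exists_ind_equiv hρ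
  refine ⟨fun k => (idealOfVars (Fin X.n) ℂ ^ k •
    (⊤ : Submodule X.Sc (X.Sc ⊗[ℂ] (Fin d → ℂ)))).toAddSubgroup.comap Φ.toAddMonoidHom,
    fun m => ?_, fun m hm => ?_, fun z hz h0 k m hm => ?_, ?_, ?_⟩
  · show Φ m ∈ idealOfVars (Fin X.n) ℂ ^ 0 • (⊤ : Submodule X.Sc (X.Sc ⊗[ℂ] (Fin d → ℂ)))
    rw [pow_zero, Ideal.one_eq_top, Submodule.top_smul]
    exact Submodule.mem_top
  · have hne : idealOfVars (Fin X.n) ℂ ≠ ⊤ := by
      rw [Ideal.ne_top_iff_one, mem_vars_iff, map_one]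
      exact one_ne_zero
    have e := Ideal.iInf_pow_smul_eq_bot_of_isTorsionFree
      (M := X.Sc ⊗[ℂ] (Fin d → ℂ)) _ hne
    have e1 : Φ m ∈ (⊥ : Submodule X.Sc (X.Sc ⊗[ℂ] (Fin d → ℂ))) := by
      rw [← e, Submodule.mem_iInf]
      exact hm
    exact Φ.map_eq_zero_iff.1 e1
  · show Φ (z • m) ∈ idealOfVars (Fin X.n) ℂ ^ (k + 1) •
      (⊤ : Submodule X.Sc (X.Sc ⊗[ℂ] (Fin d → ℂ)))
    rw [hΦ]
    exact IsInd.center_mem A hπ hρ hz h0 k _ hm
  · obtain ⟨N, hN⟩ := exists_pow_le_invI X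
    refine ⟨N, fun m hm => ?_⟩
    have hm' : Φ m ∈ X.invI ℂ • (⊤ : Submodule X.Sc (X.Sc ⊗[ℂ] (Fin d → ℂ))) :=
      Submodule.smul_mono_left hN hm
    rw [← Φ.symm_apply_apply m]
    generalize Φ m = u at hm'
    refine Submodule.smul_induction_on hm' (fun r hr n _ => ?_) fun a b ha hb => ?_
    · induction hr using Submodule.span_induction generalizing n with
      | mem r hr =>
        refine AddSubgroup.subset_closure ⟨r, Φ.symm n, hr.1, hr.2, ?_⟩
        rw [AddEquiv.symm_apply_eq, hΦ, Φ.apply_symm_apply, IsInd.ex_smul A hρ]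
      | zero => rw [zero_smul, map_zero]; exact zero_mem _
      | add p q _ _ hp hq =>
        rw [add_smul, map_add]
        exact add_mem (hp n Submodule.mem_top) (hq n Submodule.mem_top)
      | smul c p _ hp =>
        rw [smul_eq_mul, mul_comm, mul_smul]
        exact hp _ Submodule.mem_top
    · rw [map_add]
      exact add_mem ha hb
  · obtain ⟨p, φ, hp⟩ := X.exists_sep
    have h1 : π.character 1 ≠ 0 := IsIrr.one_ne ⟨d, π, hπ, rfl⟩
    have h2 : Module.finrank ℂ (Fin d → ℂ) ≠ 0 := by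
      intro e
      rw [π.char_one, e, Nat.cast_zero] at h1
      exact h1 rfl
    have : Nontrivial (Fin d → ℂ) := Module.nontrivial_of_finrank_pos (Nat.pos_of_ne_zero h2)
    obtain ⟨v, hv⟩ := exists_ne (0 : Fin d → ℂ)
    refine ⟨Φ.symm (p ⊗ₜ v), fun e => ?_⟩
    have e1 := congrArg Φ e
    rw [hΦ, Φ.apply_symm_apply, map_zero] at e1
    let T : X.Sc ⊗[ℂ] (Fin d → ℂ) →ₗ[ℂ] (Fin d → ℂ) :=
      TensorProduct.lift ((LinearMap.lsmul ℂ (Fin d → ℂ)).comp φ.toLinearMap)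
    have hT : ∀ q u, T (q ⊗ₜ u) = φ q • u := fun q u => rfl
    have e2 := congrArg T e1
    rw [map_smul, map_sum, LinearMap.smul_apply, LinearMap.sum_apply, map_smul, map_sum,
      map_zero] at e2
    simp only [hρ.g, hT, hp, ite_smul, one_smul, zero_smul, Finset.sum_ite_eq', Finset.mem_univ,
      if_true, map_one, Module.End.one_apply] at e2
    rcases smul_eq_zero.1 e2 with e3 | e3
    · exact inv_ne_zero (Nat.cast_ne_zero.2 Fintype.card_ne_zero) e3
    · exact hv e3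

end CA

end

end Pool.Agent.P.MP_1a0ecf_al
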