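import Pool.Agent.P.MP_1a0ecf_al.CA

/-! Package C5: two anticommuting exact differentials; Newton identity. -/

namespace Pool.Agent.P.MP_1a0ecf_al

open Matrix MvPolynomial
open scoped Classical TensorProduct

noncomputable section

private theorem rank_null {U : Type} [AddCommGroup U] [Module ℂ U] (A B : Submodule ℂ U)
    [FiniteDimensional ℂ A] (f : U →ₗ[ℂ] U) (h : ∀ u, u ∈ B ↔ ∃ u' ∈ A, u = f u') :
    Module.finrank ℂ A =
      Module.finrank ℂ (A ⊓ LinearMap.ker f : Submodule ℂ U) + Module.finrank ℂ B := by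
  have e : B = A.map f := by
    ext u
    simp only [h, Submodule.mem_map, eq_comm]
  rw [← LinearMap.finrank_range_add_finrank_ker (f.domRestrict A), LinearMap.range_domRestrict,
    LinearMap.ker_domRestrict, ← Submodule.finrank_map_subtype_eq A (Submodule.comap _ _),
    Submodule.map_comap_subtype, e, add_comm]

theorem two_diff {U : Type} [AddCommGroup U] [Module ℂ U] (C : ℕ → Submodule ℂ U)
    (hf : ∀ q, FiniteDimensional ℂ (C q)) {k : ℕ} (hk : ∀ q, k < q → C q = ⊥) (d δ : U →ₗ[ℂ] U)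
    (hdd : ∀ u, d (d u) = 0) (hδδ : ∀ u, δ (δ u) = 0)
    (hd : ∀ q, ∀ u ∈ C (q + 1), d u ∈ C q) (hd0 : ∀ u ∈ C 0, d u = 0)
    (hδ : ∀ q, ∀ u ∈ C q, δ u ∈ C (q + 1)) (hc : ∀ q, ∀ u ∈ C q, d (δ u) + δ (d u) = 0)
    (ed : ∀ q, ∀ u ∈ C q, d u = 0 → ∃ u' ∈ C (q + 1), u = d u')
    (eδ0 : ∀ u ∈ C 0, δ u = 0 → u = 0)
    (eδ : ∀ q, ∀ u ∈ C (q + 1), δ u = 0 → ∃ u' ∈ C q, u = δ u') :
    ∑ q ∈ Finset.range (k + 1), (-1 : ℤ) ^ q * q * Module.finrank ℂ (C q) = 0 := by
  let Z : ℕ → Submodule ℂ U := fun q => C q ⊓ LinearMap.ker d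
  let B : ℕ → Submodule ℂ U := fun q => Z q ⊓ LinearMap.ker δ
  have mZ : ∀ q u, u ∈ Z q ↔ u ∈ C q ∧ d u = 0 := fun _ _ => Iff.rfl
  have mB : ∀ q u, u ∈ B q ↔ (u ∈ C q ∧ d u = 0) ∧ δ u = 0 := fun _ _ => Iff.rfl
  have ex : ∀ q, ∀ u ∈ B (q + 1), ∃ u' ∈ Z q, u = δ u' := by
    intro q
    induction q using Nat.strong_induction_on with
    | _ q ih =>
      intro u hu
      obtain ⟨⟨h1, h2⟩, h3⟩ := (mB _ _).1 hu
      obtain ⟨u', h4, rfl⟩ := eδ q u h1 h3
      have h5 : δ (d u') = 0 := by simpa [h2] using hc q u' h4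
      match q with
      | 0 => exact ⟨u', ⟨h4, hd0 _ h4⟩, rfl⟩
      | 1 => exact ⟨u', ⟨h4, eδ0 _ (hd 0 _ h4) h5⟩, rfl⟩
      | r + 2 =>
        obtain ⟨v, ⟨h6, h7⟩, h8⟩ := ih r (by omega) (d u') ⟨⟨hd _ _ h4, hdd _⟩, h5⟩
        obtain ⟨v', h9, rfl⟩ := ed r v h6 h7
        refine ⟨u' + δ v', (mZ _ _).2 ⟨add_mem h4 (hδ _ _ h9), ?_⟩, ?_⟩
        · rw [map_add, h8, add_comm, hc _ _ h9]
        · rw [map_add, hδδ, add_zero]
  have a1 : ∀ q, Module.finrank ℂ (C (q + 1)) =
      Module.finrank ℂ (Z (q + 1)) + Module.finrank ℂ (Z q) := fun q =>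
    rank_null _ _ d fun u => ⟨fun h => ed q u h.1 h.2, by
      rintro ⟨u', h, rfl⟩
      exact ⟨hd _ _ h, hdd _⟩⟩
  have a2 : ∀ q, Module.finrank ℂ (Z q) =
      Module.finrank ℂ (B q) + Module.finrank ℂ (B (q + 1)) := fun q =>
    haveI : FiniteDimensional ℂ (Z q) := Submodule.finiteDimensional_inf_left _ _
    rank_null _ _ δ fun u => ⟨ex q u, by
      rintro ⟨u', ⟨h1, h2⟩, rfl⟩
      refine (mB _ _).2 ⟨⟨hδ _ _ h1, ?_⟩, hδδ _⟩
      simpa [show d u' = 0 from h2] using hc q u' h1⟩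
  have a3 : B 0 = ⊥ := (Submodule.eq_bot_iff _).2 fun u h => eδ0 u h.1.1 h.2
  have key : ∀ m, ∑ q ∈ Finset.range (m + 1), (-1 : ℤ) ^ q * q * Module.finrank ℂ (C q) =
      (-1) ^ m * (m * Module.finrank ℂ (Z m) + Module.finrank ℂ (B m)) := by
    intro m
    induction m with
    | zero =>
      rw [a3, finrank_bot]
      simp
    | succ m ih =>
      rw [Finset.sum_range_succ, ih, a1, a2 m]
      push_cast
      ring
  have a4 := a1 k
  have a5 := a2 k
  rw [hk (k + 1) (by omega), finrank_bot] at a4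
  rw [key, show Module.finrank ℂ (Z k) = 0 by omega, show Module.finrank ℂ (B k) = 0 by omega]
  simp

theorem Cox.exists_diag (X : Cox) (w : X.W) : ∃ (Q : Matrix (Fin X.n) (Fin X.n) ℂ)
    (a : Fin X.n → ℂ), IsUnit Q ∧ X.σK ℂ w * Q = Q * diagonal a := by
  let f : Module.End ℂ (Fin X.n → ℂ) := toLinAlgEquiv' (X.σK ℂ w)
  have h1 : f.IsSemisimple := by
    refine Module.End.isSemisimple_of_squarefree_aeval_eq_zero
      (p := Polynomial.X ^ Fintype.card X.W - 1)
      (Polynomial.X_pow_sub_one_separable_iff.2 (by simp)).squarefree ?_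
    rw [map_sub, map_pow, Polynomial.aeval_X, map_one, ← map_pow, ← map_pow, pow_card_eq_one,
      map_one, map_one, sub_self]
  have h2 : ⊤ ≤ Submodule.span ℂ {v | ∃ c : ℂ, f v = c • v} := by
    rw [← h1.iSup_eigenspace_eq_top]
    exact iSup_le fun c v hv => Submodule.subset_span ⟨c, Module.End.mem_eigenspace_iff.1 hv⟩
  let b := Module.Basis.ofSpan h2
  let b' := b.reindex (b.indexEquiv (Pi.basisFun ℂ (Fin X.n)))
  have h3 : ∀ j, ∃ c : ℂ, X.σK ℂ w *ᵥ b' j = c • b' j := fun j => by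
    rw [Module.Basis.reindex_apply]
    exact Module.Basis.ofSpan_subset h2 ⟨_, rfl⟩
  choose a ha using h3
  refine ⟨(Pi.basisFun ℂ (Fin X.n)).toMatrix b', a,
    @isUnit_of_invertible _ _ _ (Module.Basis.invertibleToMatrix _ _), ?_⟩
  ext i j
  have := congrFun (ha j) i
  simpa [Matrix.mul_apply, Module.Basis.toMatrix_apply, mulVec, dotProduct, diagonal,
    mul_comm] using this

section Tr

variable {n : ℕ}

private theorem actM_hom (A : Matrix (Fin n) (Fin n) ℂ) {p : MvPolynomial (Fin n) ℂ} {k : ℕ}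
    (h : p.IsHomogeneous k) : (actM A p).IsHomogeneous k := by
  have e := h.aeval (fun j => lin ℂ fun i => A i j) fun j => lin_hom ℂ _
  rwa [one_mul] at e

/-- the action of matrices on homogeneous polynomials -/
private def symR (n p : ℕ) :
    Matrix (Fin n) (Fin n) ℂ →* Module.End ℂ (homogeneousSubmodule (Fin n) ℂ p) where
  toFun A := (actM A).toLinearMap.restrict fun _ h => actM_hom A h
  map_one' := by
    have e : actM (1 : Matrix (Fin n) (Fin n) ℂ) = AlgHom.id ℂ _ :=
      MvPolynomial.algHom_ext fun j => by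
        rw [← lin_single, actM_lin, one_mulVec]
        rfl
    exact LinearMap.ext fun q => Subtype.ext (AlgHom.congr_fun e q)
  map_mul' A A' := by
    have e : actM (A * A') = (actM A).comp (actM A') :=
      MvPolynomial.algHom_ext fun j => by
        rw [← lin_single, AlgHom.comp_apply, actM_lin, actM_lin, actM_lin, mulVec_mulVec]
    exact LinearMap.ext fun q => Subtype.ext (AlgHom.congr_fun e q)

private theorem actM_diag (a : Fin n → ℂ) (d : Fin n →₀ ℕ) :
    actM (diagonal a) (monomial d (1 : ℂ)) = (∏ i, a i ^ d i) • monomial d (1 : ℂ) := by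
  have e : ∀ j, (lin ℂ fun i => diagonal a i j) = C (a j) * X j := fun j => by
    rw [← smul_eq_C_mul, ← lin_single, ← map_smul]
    congr 1
    funext i
    by_cases h : i = j <;> simp [h, diagonal]
  rw [actM, aeval_monomial, map_one, one_mul, monomial_eq, C_1, one_mul, smul_eq_C_mul, map_prod,
    Finsupp.prod_fintype _ _ (by simp), Finsupp.prod_fintype _ _ (by simp),
    ← Finset.prod_mul_distrib]
  simp only [e, mul_pow, map_pow]

private theorem trace_diag (a : Fin n → ℂ) (p : ℕ) :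
    LinearMap.trace ℂ _ (symR n p (diagonal a)) =
      ∑ d ∈ Finset.finsuppAntidiag Finset.univ p, ∏ i, a i ^ d i := by
  have hm : ∀ d : Fin n →₀ ℕ, d ∈ Finset.finsuppAntidiag Finset.univ p ↔ d.degree = p := by
    intro d
    simp [Finsupp.degree_eq_sum]
  let v : Finset.finsuppAntidiag (Finset.univ : Finset (Fin n)) p →
      homogeneousSubmodule (Fin n) ℂ p :=
    fun d => ⟨monomial d.1 1, isHomogeneous_monomial _ ((hm _).1 d.2)⟩
  have h1 : LinearIndependent ℂ v :=
    LinearIndependent.of_comp (homogeneousSubmodule (Fin n) ℂ p).subtype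
      ((basisMonomials (Fin n) ℂ).linearIndependent.comp _ Subtype.val_injective)
  have h2 : ⊤ ≤ Submodule.span ℂ (Set.range v) := by
    intro q _
    rw [Submodule.mem_span_range_iff_exists_fun]
    refine ⟨fun d => coeff d.1 q.1, Subtype.ext ?_⟩
    rw [Submodule.coe_sum]
    simp only [v, Submodule.coe_smul, smul_monomial, smul_eq_mul, mul_one]
    rw [Finset.sum_coe_sort _ fun d => monomial d (coeff d q.1)]
    refine (Finset.sum_subset (fun d hd => (hm d).2 ?_) fun d _ hd => ?_).symm.trans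
      (support_sum_monomial_coeff q.1)
    · exact by_contra fun e => mem_support_iff.1 hd (IsHomogeneous.coeff_eq_zero q.2 e)
    · rw [notMem_support_iff.1 hd, map_zero]
  rw [LinearMap.trace_eq_matrix_trace ℂ (Module.Basis.mk h1 h2), ← Finset.sum_coe_sort]
  refine Finset.sum_congr rfl fun d _ => ?_
  have e : symR n p (diagonal a) (Module.Basis.mk h1 h2 d) =
      (∏ i, a i ^ d.1 i) • Module.Basis.mk h1 h2 d := by
    rw [Module.Basis.mk_apply]
    exact Subtype.ext (actM_diag a d.1)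
  rw [diag_apply, LinearMap.toMatrix_apply, e, map_smul, Module.Basis.repr_self,
    Finsupp.smul_apply, Finsupp.single_eq_same, smul_eq_mul, mul_one]

private theorem eq_conj {A Q D : Matrix (Fin n) (Fin n) ℂ} (hQ : IsUnit Q) (h : A * Q = Q * D) :
    A = Q * D * Q⁻¹ := by
  rw [← h, mul_nonsing_inv_cancel_right _ _ ((isUnit_iff_isUnit_det Q).1 hQ)]

private theorem geom (a : ℂ) :
    (1 - PowerSeries.C a * PowerSeries.X) * PowerSeries.mk (fun m => a ^ m) = 1 := by
  ext m
  rw [sub_mul, one_mul, mul_assoc]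
  cases m <;> simp [PowerSeries.coeff_succ_X_mul, PowerSeries.coeff_one, pow_succ']

private theorem log_deriv (a : Fin n → ℂ) (s : Finset (Fin n)) :
    PowerSeries.derivative ℂ (∏ i ∈ s, (1 - PowerSeries.C (a i) * PowerSeries.X)) *
      ∏ i ∈ s, PowerSeries.mk (fun m => a i ^ m) =
      -∑ i ∈ s, PowerSeries.C (a i) * PowerSeries.mk fun m => a i ^ m := by
  induction s using Finset.induction_on with
  | empty => simp
  | insert j s hj ih =>
    have h1 := geom (a j)
    have h2 : (∏ i ∈ s, (1 - PowerSeries.C (a i) * PowerSeries.X)) *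
        ∏ i ∈ s, PowerSeries.mk (fun m => a i ^ m) = 1 := by
      rw [← Finset.prod_mul_distrib]
      exact Finset.prod_eq_one fun i _ => geom (a i)
    have h3 : PowerSeries.derivative ℂ (1 - PowerSeries.C (a j) * PowerSeries.X) =
        -PowerSeries.C (a j) := by simp
    rw [Finset.prod_insert hj, Finset.prod_insert hj, Finset.sum_insert hj, Derivation.leibniz, h3,
      smul_eq_mul, smul_eq_mul]
    linear_combination ih + (PowerSeries.derivative ℂ
      (∏ i ∈ s, (1 - PowerSeries.C (a i) * PowerSeries.X)) *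
        ∏ i ∈ s, PowerSeries.mk (fun m => a i ^ m)) * h1 -
      (PowerSeries.C (a j) * PowerSeries.mk fun m => a j ^ m) * h2

end Tr

theorem Cox.hk_eq (X : Cox) {w : X.W} {Q : Matrix (Fin X.n) (Fin X.n) ℂ} {a : Fin X.n → ℂ}
    (hQ : IsUnit Q) (h : X.σK ℂ w * Q = Q * diagonal a) (p : ℕ) :
    X.hk p w = PowerSeries.coeff p (∏ i, PowerSeries.mk fun m => a i ^ m) := by
  change LinearMap.trace ℂ _ (symR X.n p (X.σK ℂ w)) = _
  rw [eq_conj hQ h, map_mul, LinearMap.trace_mul_comm, ← map_mul, ← mul_assoc,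
    nonsing_inv_mul _ ((isUnit_iff_isUnit_det Q).1 hQ), one_mul, trace_diag,
    PowerSeries.coeff_prod]
  simp only [PowerSeries.coeff_mk]

theorem Fock.newton {X : Cox} (F : Fock X) {k : ℕ} (hk : 0 < k) (w : X.W) :
    ∑ q ∈ Finset.range (k + 1), (-1 : ℂ) ^ q * q * (F.ek q w * X.hk (k - q) w) =
      -(X.σK ℂ (w ^ k)).trace := by
  obtain ⟨Q, a, hQ, h⟩ := X.exists_diag w
  obtain ⟨m, rfl⟩ := Nat.exists_eq_succ_of_ne_zero hk.ne'
  have h1 : ∑ I, Polynomial.monomial (F.deg I) ((-1) ^ F.deg I * F.lam w I I) =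
      ∏ i, (1 - Polynomial.C (a i) * Polynomial.X) := by
    refine Polynomial.funext fun T => ?_
    have e : (1 + (-T) • X.σK ℂ w) * Q = Q * diagonal fun i => 1 - a i * T := by
      rw [add_mul, smul_mul_assoc, h, one_mul, ← mul_smul_comm, ← mul_one_add]
      congr 1
      ext i j
      by_cases hij : i = j <;> simp [hij, diagonal, Matrix.one_apply]
      ring
    have := F.tr w (-T)
    rw [eq_conj hQ e, det_conj hQ, det_diagonal] at this
    simp only [Polynomial.eval_finsetSum, Polynomial.eval_prod, Polynomial.eval_monomial,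
      Polynomial.eval_sub, Polynomial.eval_mul, Polynomial.eval_one, Polynomial.eval_C,
      Polynomial.eval_X, ← this]
    exact Finset.sum_congr rfl fun I _ => by rw [neg_pow T]; ring
  have h2 : ∀ q, PowerSeries.coeff q (∏ i, (1 - PowerSeries.C (a i) * PowerSeries.X)) =
      (-1) ^ q * F.ek q w := fun q => by
    have e := congrArg (Polynomial.coeToPowerSeries.ringHom (R := ℂ)) h1
    rw [map_prod] at e
    simp only [map_sub, map_one, map_mul, Polynomial.coeToPowerSeries.ringHom_apply,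
      Polynomial.coe_C, Polynomial.coe_X] at e
    rw [← e, Polynomial.coeff_coe, Polynomial.finsetSum_coeff, ek, Finset.mul_sum,
      Finset.sum_filter]
    refine Finset.sum_congr rfl fun I _ => ?_
    rw [Polynomial.coeff_monomial]
    split_ifs with hI
    · rw [hI]
    · rfl
  have h3 : X.σK ℂ (w ^ (m + 1)) * Q = Q * diagonal a ^ (m + 1) := by
    rw [map_pow]
    exact SemiconjBy.pow_right (show SemiconjBy Q _ _ from h.symm) _ |>.symm
  have h4 := congrArg (PowerSeries.coeff m) (log_deriv a Finset.univ)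
  rw [PowerSeries.coeff_mul, Finset.Nat.sum_antidiagonal_eq_sum_range_succ_mk] at h4
  rw [eq_conj hQ h3, trace_conj hQ, diagonal_pow, trace_diagonal, Finset.sum_range_succ']
  simp only [PowerSeries.coeff_derivative, h2, ← X.hk_eq hQ h, map_neg, map_sum,
    PowerSeries.coeff_C_mul, PowerSeries.coeff_mk] at h4
  simp only [Pi.pow_apply, pow_succ' (a _), ← h4, Nat.succ_eq_add_one, Nat.add_sub_add_right,
    Nat.cast_zero, mul_zero, zero_mul, add_zero]
  exact Finset.sum_congr rfl fun q _ => by push_cast; ring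

end

end Pool.Agent.P.MP_1a0ecf_al
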