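import Pool.Agent.P.MP_1a0ecf_al.C3

/-! Package C7: identities for the Koszul differentials. -/

namespace Pool.Agent.P.MP_1a0ecf_al

open Matrix MvPolynomial
open scoped Classical TensorProduct

noncomputable section

namespace Fock

variable {X : Cox} (F : Fock X) {κ : ℂ} (A : CA X κ)

/-- `tn` as a bilinear map -/
def c7tl : A.H →ₗ[ℂ] Matrix F.ι F.ι ℂ →ₗ[ℂ] Matrix F.ι F.ι A.H :=
  LinearMap.mk₂ ℂ (F.tn A) (fun h h' m => by ext I J; simp [tn])
    (fun c h m => by ext I J; simp [tn, smul_smul, mul_comm])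
    (fun h m m' => by ext I J; simp [tn, add_smul])
    (fun c h m => by ext I J; simp [tn, smul_smul])

theorem c7tl_eq (h : A.H) (m : Matrix F.ι F.ι ℂ) : F.tn A h m = F.c7tl A h m := rfl

theorem c7_sq (u : Fin X.n → A.H) (m : Fin X.n → Matrix F.ι F.ι ℂ)
    (hu : ∀ i j, u i * u j = u j * u i) (hm : ∀ i j, m i * m j + m j * m i = 0) :
    (∑ i, F.tn A (u i) (m i)) * (∑ i, F.tn A (u i) (m i)) = 0 := by
  have e : (∑ i, F.tn A (u i) (m i)) * (∑ i, F.tn A (u i) (m i)) =
      ∑ i, ∑ j, F.c7tl A (u i * u j) (m i * m j) := by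
    simp only [Finset.sum_mul_sum, tn_mul]
    rfl
  have e2 : (2 : ℂ) • ∑ i, ∑ j, F.c7tl A (u i * u j) (m i * m j) = 0 := by
    rw [two_smul]
    nth_rewrite 2 [Finset.sum_comm]
    rw [← Finset.sum_add_distrib]
    refine Finset.sum_eq_zero fun i _ => ?_
    rw [← Finset.sum_add_distrib]
    refine Finset.sum_eq_zero fun j _ => ?_
    rw [hu j i, ← map_add, hm, map_zero]
  rw [e]
  exact (smul_eq_zero.1 e2).resolve_left two_ne_zero

theorem c7_comm (u : X.Vc →ₗ[ℂ] A.H) (m : X.Vc →ₗ[ℂ] Matrix F.ι F.ι ℂ)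
    (hu : ∀ w a, A.g w * u a = u (X.σK ℂ w *ᵥ a) * A.g w)
    (hm : ∀ w a, F.lam w * m a = m (X.σK ℂ w *ᵥ a) * F.lam w) (ζ : X.GA) :
    F.Dla A ζ * ∑ i, F.tn A (u (X.eb i)) (m (X.du i)) =
      (∑ i, F.tn A (u (X.eb i)) (m (X.du i))) * F.Dla A ζ := by
  have e : ∀ w, F.Dl A w * ∑ i, F.tn A (u (X.eb i)) (m (X.du i)) =
      (∑ i, F.tn A (u (X.eb i)) (m (X.du i))) * F.Dl A w := fun w => by
    have k := X.sum_eb_du_inv ((F.c7tl A ∘ₗ u).compl₂ m) w
    simp only [LinearMap.compl₂_apply, LinearMap.comp_apply, ← c7tl_eq] at k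
    conv_rhs => rw [← k]
    rw [Finset.mul_sum, Finset.sum_mul]
    refine Finset.sum_congr rfl fun i _ => ?_
    change F.tn A _ _ * _ = _ * F.tn A _ _
    rw [tn_mul, tn_mul, hu, hm]
  rw [t1_eq_sum ζ, map_sum, Finset.sum_mul, Finset.mul_sum]
  refine Finset.sum_congr rfl fun w _ => ?_
  have k : F.Dla A (MonoidAlgebra.of ℂ X.W w) = F.Dl A w := by simp [Dla]
  rw [map_smul, smul_mul_assoc, mul_smul_comm, k, e]

theorem Dla_of (w : X.W) : F.Dla A (MonoidAlgebra.of ℂ X.W w) = F.Dl A w := by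
  simp [Dla]

theorem Dy_sq : F.Dy A * F.Dy A = 0 := by
  exact F.c7_sq A _ _ (fun _ _ => A.rels.yy _ _) fun _ _ => F.cr_cr _ _

theorem Dx_sq : F.Dx A * F.Dx A = 0 := by
  exact F.c7_sq A _ _ (fun _ _ => A.rels.xx _ _) fun _ _ => F.an_an _ _

theorem Dla_Dy (ζ : X.GA) : F.Dla A ζ * F.Dy A = F.Dy A * F.Dla A ζ := by
  exact F.c7_comm A A.y F.cr A.rels.gy F.lam_cr ζ

theorem Dla_Dx (ζ : X.GA) : F.Dla A ζ * F.Dx A = F.Dx A * F.Dla A ζ := by
  exact F.c7_comm A A.x F.an A.rels.gx F.lam_an ζ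

theorem Dx_Dy : F.Dx A * F.Dy A + F.Dy A * F.Dx A = F.tn A A.eu 1 - F.Dla A (κ • X.omA) := by
  have e1 : ∀ i j, F.c7tl A (A.x (X.eb i) * A.y (X.eb j)) (F.an (X.du i) * F.cr (X.du j)) +
      F.c7tl A (A.y (X.eb j) * A.x (X.eb i)) (F.cr (X.du j) * F.an (X.du i)) =
      F.c7tl A (A.x (X.BK ℂ (X.du j) (X.du i) • X.eb i) * A.y (X.eb j)) 1 +
        ∑ t ∈ X.refls, κ • F.c7tl A (A.g t) (F.cr (X.BK ℂ (X.rc t) (X.eb j) • X.du j) *
          F.an (X.BK ℂ (X.rc t) (X.eb i) • X.du i)) := fun i j => by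
    rw [sub_eq_iff_eq_add'.1 (A.rels.yx (X.eb j) (X.eb i)), map_add, LinearMap.add_apply,
      ← add_assoc, ← map_add, F.an_cr, X.BK_symm ℂ (X.du i)]
    congr 1
    · simp only [map_smul, smul_mul_assoc, LinearMap.smul_apply]
    · rw [map_sum, LinearMap.sum_apply]
      refine Finset.sum_congr rfl fun t _ => ?_
      simp only [map_smul, smul_mul_assoc, mul_smul_comm, LinearMap.smul_apply, smul_smul]
      congr 1
      ring
  have e2 : ∑ i, ∑ j, F.c7tl A (A.x (X.BK ℂ (X.du j) (X.du i) • X.eb i) * A.y (X.eb j)) 1 =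
      F.c7tl A (∑ j, A.x (X.du j) * A.y (X.eb j)) 1 := by
    rw [Finset.sum_comm, map_sum, LinearMap.sum_apply]
    refine Finset.sum_congr rfl fun j _ => ?_
    rw [← LinearMap.sum_apply, ← map_sum, ← Finset.sum_mul, ← map_sum, X.sum_eb]
  have e3 : ∑ i, ∑ j, ∑ t ∈ X.refls, κ • F.c7tl A (A.g t)
      (F.cr (X.BK ℂ (X.rc t) (X.eb j) • X.du j) * F.an (X.BK ℂ (X.rc t) (X.eb i) • X.du i)) =
      ∑ t ∈ X.refls, κ • F.c7tl A (A.g t) (1 - F.lam t) := by
    simp only [Finset.sum_comm (t := X.refls)]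
    refine Finset.sum_congr rfl fun t ht => ?_
    simp only [← Finset.smul_sum, ← map_sum, ← Finset.sum_mul, ← Finset.mul_sum, X.sum_du]
    rw [F.lam_refl t (X.mem_refls.1 ht), sub_sub_cancel]
  have e4 : F.Dla A (κ • X.omA) = ∑ t ∈ X.refls, κ • F.c7tl A (A.g t) (F.lam t) := by
    rw [map_smul, Cox.omA, map_sum, Finset.smul_sum]
    exact Finset.sum_congr rfl fun t _ => by rw [Dla_of]; rfl
  rw [Dx, Dy, Finset.sum_mul_sum, Finset.sum_mul_sum]
  nth_rewrite 2 [Finset.sum_comm]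
  simp only [tn_mul]
  simp only [c7tl_eq, ← Finset.sum_add_distrib, e1]
  simp only [Finset.sum_add_distrib]
  rw [e2, e3, e4, CA.eu, map_add, LinearMap.add_apply, add_sub_assoc, map_smul,
    map_sum _ _ X.refls, LinearMap.smul_apply, LinearMap.sum_apply, Finset.smul_sum,
    ← Finset.sum_sub_distrib]
  simp only [map_sub, smul_sub]

/-- a matrix acting on the index and an operator acting on the entries of a row -/
def c7op {N : Type} [AddCommGroup N] [Module ℂ N] :
    Matrix F.ι F.ι ℂ →ₗ[ℂ] Module.End ℂ N →ₗ[ℂ] Module.End ℂ (F.ι → N) :=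
  LinearMap.mk₂ ℂ (fun m φ => LinearMap.pi fun J => ∑ I, m I J • (φ ∘ₗ LinearMap.proj I))
    (fun m m' φ => by ext r J; simp [add_smul, Finset.sum_add_distrib])
    (fun c m φ => by ext r J; simp [smul_smul, Finset.smul_sum])
    (fun m φ φ' => by ext r J; simp [Finset.sum_add_distrib])
    (fun c m φ => by ext r J; simp [smul_smul, Finset.smul_sum, mul_comm])

theorem c7op_apply {N : Type} [AddCommGroup N] [Module ℂ N] (m : Matrix F.ι F.ι ℂ)
    (φ : Module.End ℂ N) (r : F.ι → N) (J : F.ι) : F.c7op m φ r J = ∑ I, m I J • φ (r I) := by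
  simp [c7op]

theorem c7op_mul {N : Type} [AddCommGroup N] [Module ℂ N] (m m' : Matrix F.ι F.ι ℂ)
    (φ φ' : Module.End ℂ N) : F.c7op m' φ' * F.c7op m φ = F.c7op (m * m') (φ' * φ) := by
  refine LinearMap.ext fun r => funext fun J => ?_
  simp only [Module.End.mul_apply, c7op_apply, map_sum, map_smul, Finset.smul_sum, smul_smul,
    Matrix.mul_apply, Finset.sum_smul, mul_comm]
  exact Finset.sum_comm

theorem c7_Dy_deg {I J : F.ι} (h : F.Dy A I J ≠ 0) : F.deg I = F.deg J + 1 := by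
  rw [Dy, Matrix.sum_apply] at h
  obtain ⟨i, -, hi⟩ := Finset.exists_ne_zero_of_sum_ne_zero h
  exact F.cr_deg (X.du i) I J fun e => hi (by simp [tn, e])

theorem c7_Dy_congr {M M' : Matrix F.ι F.ι A.H} {I : F.ι}
    (h : ∀ J, F.deg J < F.deg I → M J = M' J) : (F.Dy A * M) I = (F.Dy A * M') I := by
  funext L
  rw [Matrix.mul_apply, Matrix.mul_apply]
  refine Finset.sum_congr rfl fun J _ => ?_
  by_cases k : F.Dy A I J = 0
  · simp only [k, zero_mul]
  · rw [h J (by have := F.c7_Dy_deg A k; omega)]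

theorem row_exact {r : F.ι → A.H} (h : r ᵥ* F.Dy A = 0) (h0 : r F.vac ∈ A.LY) :
    ∃ r' : F.ι → A.H, r' F.vac = 0 ∧ r = r' ᵥ* F.Dy A := by
  obtain ⟨D, hD, hb, hb0⟩ := A.exists_deriv
  obtain ⟨d, hd⟩ : ∃ d, d = ∑ i, F.c7op (F.cr (X.du i)) (LinearMap.mulRight ℂ (A.y (X.eb i))) :=
    ⟨_, rfl⟩
  obtain ⟨K, hK⟩ : ∃ K, K = ∑ j, F.c7op (F.an (X.eb j)) (D j) := ⟨_, rfl⟩
  have hdy : ∀ s, d s = s ᵥ* F.Dy A := fun s => by
    ext J
    simp only [hd, LinearMap.sum_apply, Finset.sum_apply, c7op_apply, vecMul, dotProduct, Dy,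
      Matrix.sum_apply, tn, Matrix.of_apply, Finset.mul_sum, mul_smul_comm,
      LinearMap.mulRight_apply]
    exact Finset.sum_comm
  have hdd : ∀ s, d (d s) = 0 := fun s => by
    rw [hdy, hdy, vecMul_vecMul, Dy_sq, vecMul_zero]
  have hN : ∀ s J, (d (K s) + K (d s)) J =
      ∑ i, D i (s J) * A.y (X.eb i) + (F.deg J : ℂ) • s J := fun s J => by
    have e : ∀ i j, F.c7op (F.an (X.eb j) * F.cr (X.du i))
          (LinearMap.mulRight ℂ (A.y (X.eb i)) * D j) +
        F.c7op (F.cr (X.du i) * F.an (X.eb j)) (D j * LinearMap.mulRight ℂ (A.y (X.eb i))) =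
        if j = i then F.c7op 1 (LinearMap.mulRight ℂ (A.y (X.eb i)) * D j) +
          F.c7op (F.cr (X.du i) * F.an (X.eb j)) 1 else 0 := fun i j => by
      have k : D j * LinearMap.mulRight ℂ (A.y (X.eb i)) =
          LinearMap.mulRight ℂ (A.y (X.eb i)) * D j + if j = i then 1 else 0 := by
        ext h
        simp only [Module.End.mul_apply, LinearMap.mulRight_apply, hD, LinearMap.add_apply]
        split_ifs <;> rfl
      rw [k, map_add, ← add_assoc, ← LinearMap.add_apply, ← map_add, F.an_cr, X.BK_eb_du]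
      split_ifs <;> simp
    have e' : d * K + K * d = ∑ i, F.c7op 1 (LinearMap.mulRight ℂ (A.y (X.eb i)) * D i) +
        F.c7op (diagonal fun I => (F.deg I : ℂ)) 1 := by
      rw [hd, hK, Finset.sum_mul_sum, Finset.sum_mul_sum]
      nth_rewrite 2 [Finset.sum_comm]
      simp only [c7op_mul, ← Finset.sum_add_distrib, e, Finset.sum_ite_eq', Finset.mem_univ,
        if_true]
      rw [Finset.sum_add_distrib, ← F.num', map_sum, LinearMap.sum_apply]
    have := congrArg (fun φ : Module.End ℂ (F.ι → A.H) => φ s J) e'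
    simpa [c7op_apply, Matrix.one_apply, diagonal_apply] using this
  have hv : F.deg F.vac = 0 := (F.deg_zero _).2 rfl
  have hp : ∀ J, J ≠ F.vac → 0 < F.deg J := fun J hJ =>
    Nat.pos_of_ne_zero fun e => hJ ((F.deg_zero J).1 e)
  obtain ⟨r1, hr1⟩ : ∃ r1 : F.ι → A.H, ∀ J,
      ∑ i, D i (r1 J) * A.y (X.eb i) + (F.deg J : ℂ) • r1 J = r J := by
    refine Classical.skolem (p := fun J u =>
      ∑ i, D i u * A.y (X.eb i) + (F.deg J : ℂ) • u = r J) |>.1 fun J => ?_
    by_cases hJ : J = F.vac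
    · obtain ⟨u, -, hu⟩ := hb0.surjOn h0
      exact ⟨u, by rw [hJ, hv, Nat.cast_zero, zero_smul, add_zero]; exact hu⟩
    · exact (hb _ (hp J hJ)).2 (r J)
  have e1 : d (K r1) + K (d r1) = r := funext fun J => (hN r1 J).trans (hr1 J)
  have e2 : d r1 = 0 := by
    have k : d (K (d r1)) + K (d (d r1)) = 0 := by
      have k' := congrArg d e1
      rw [map_add, hdd, zero_add, hdy r, h] at k'
      rw [k', hdd, map_zero, add_zero]
    funext J
    have kJ := (hN (d r1) J).symm.trans (congrFun k J)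
    by_cases hJ : J = F.vac
    · subst hJ
      refine hb0.injOn ?_ A.LY.zero_mem ?_
      · simp only [hd, LinearMap.sum_apply, Finset.sum_apply, c7op_apply]
        exact A.LY.sum_mem fun i _ => A.LY.sum_mem fun I _ =>
          A.LY.smul_of_tower_mem _ (A.mul_y_mem _ _)
      · simpa [hv] using kJ
    · exact (hb _ (hp J hJ)).1 (by simpa using kJ)
  rw [e2, map_zero, add_zero, hdy] at e1
  refine ⟨Function.update (K r1) F.vac 0, Function.update_self .., ?_⟩
  rw [← e1]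
  funext J
  refine Finset.sum_congr rfl fun I _ => ?_
  by_cases hI : I = F.vac
  · have k : F.Dy A I J = 0 := by
      by_contra k
      have := F.c7_Dy_deg A k
      rw [hI, hv] at this
      omega
    simp only [k, mul_zero]
  · rw [Function.update_of_ne hI]

theorem exists_homotopy {z : A.H} (hz : z ∈ Subalgebra.center ℂ A.H) {ζ : X.GA}
    (h : z - A.gl ζ ∈ A.LY) : ∃ S : Matrix F.ι F.ι A.H,
      F.Dy A * S + S * F.Dy A = F.tn A z 1 - F.Dla A ζ := by
  obtain ⟨φ, hφ⟩ : ∃ φ, φ = F.tn A z 1 - F.Dla A ζ := ⟨_, rfl⟩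
  have hc : φ * F.Dy A = F.Dy A * φ := by
    rw [hφ, sub_mul, mul_sub, Dla_Dy, sub_left_inj, Dy, Finset.mul_sum, Finset.sum_mul]
    refine Finset.sum_congr rfl fun i _ => ?_
    rw [tn_mul, tn_mul, one_mul, mul_one, Subalgebra.mem_center_iff.1 hz]
  have hv : ∀ I, φ I F.vac ∈ A.LY := fun I => by
    have e : F.Dla A ζ I F.vac = ∑ w, ζ.coeff w • (F.lam w I F.vac • A.g w : A.H) := by
      conv_lhs => rw [t1_eq_sum ζ]
      simp only [map_sum, map_smul, Dla_of, Matrix.sum_apply, Matrix.smul_apply]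
      rfl
    rw [hφ, Matrix.sub_apply, e]
    by_cases hI : I = F.vac
    · subst hI
      have e' : A.gl ζ = ∑ w, ζ.coeff w • A.g w := by
        conv_lhs => rw [t1_eq_sum ζ]
        simp only [map_sum, map_smul, A.gl_of]
      simpa [tn, F.lam_vac, e'] using h
    · have k : ∀ w, F.lam w I F.vac = 0 := fun w => by
        by_contra k
        exact hI ((F.deg_zero I).1 ((F.lam_deg w _ _ k).trans ((F.deg_zero _).2 rfl)))
      simp [tn, k, hI]
  have key : ∀ q, ∃ S : Matrix F.ι F.ι A.H, (∀ I, S I F.vac = 0) ∧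
      ∀ I, F.deg I < q → (F.Dy A * S) I + S I ᵥ* F.Dy A = φ I := by
    intro q
    induction q with
    | zero => exact ⟨0, fun _ => rfl, fun _ hI => absurd hI (Nat.not_lt_zero _)⟩
    | succ q ih =>
      obtain ⟨S, h0, hS⟩ := ih
      have step : ∀ I, F.deg I = q → ∃ r' : F.ι → A.H, r' F.vac = 0 ∧
          φ I - (F.Dy A * S) I = r' ᵥ* F.Dy A := fun I hI => by
        refine F.row_exact A ?_ ?_
        · have e : (F.Dy A * (φ - S * F.Dy A)) I = (F.Dy A * (F.Dy A * S)) I :=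
            F.c7_Dy_congr A fun J hJ => by
              change φ J - (S * F.Dy A) J = _
              rw [← hS J (hI ▸ hJ), Matrix.mul_apply_eq_vecMul S, add_sub_cancel_right]
          rw [← mul_assoc, Dy_sq, zero_mul, mul_sub, ← hc, ← mul_assoc, ← sub_mul,
            Matrix.mul_apply_eq_vecMul] at e
          exact e
        · have e : (F.Dy A * S) I F.vac = 0 := by simp [Matrix.mul_apply, h0]
          rw [Pi.sub_apply, e, sub_zero]
          exact hv I
      choose! R hR using step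
      refine ⟨Matrix.of fun I => if F.deg I = q then R I else S I, fun I => ?_, fun I hI => ?_⟩
      · by_cases k : F.deg I = q
        · simp [k, (hR I k).1]
        · simp [k, h0]
      · have e : (F.Dy A * Matrix.of fun I => if F.deg I = q then R I else S I) I =
            (F.Dy A * S) I :=
          F.c7_Dy_congr A fun J hJ => by
            change (if F.deg J = q then R J else S J) = S J
            rw [if_neg (by omega)]
        rw [e]
        change _ + (if F.deg I = q then R I else S I) ᵥ* _ = _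
        by_cases k : F.deg I = q
        · rw [if_pos k, ← (hR I k).2, add_sub_cancel]
        · rw [if_neg k]
          exact hS I (by omega)
  obtain ⟨S, -, hS⟩ := key (Finset.univ.sup F.deg + 1)
  refine ⟨S, funext fun I => ?_⟩
  rw [← hφ, ← hS I (Nat.lt_succ_of_le (Finset.le_sup (f := F.deg) (Finset.mem_univ I))),
    ← Matrix.mul_apply_eq_vecMul]
  rfl

end Fock

end

end Pool.Agent.P.MP_1a0ecf_al
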