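import Pool.Agent.P.MP_1a0ecf_al.C7

/-! Package C9a: the Koszul complex of a standard module. -/

namespace Pool.Agent.P.MP_1a0ecf_al

open Matrix MvPolynomial
open scoped Classical TensorProduct

noncomputable section

namespace C9a

variable {ι M : Type} [Fintype ι] [DecidableEq ι] [AddCommGroup M] [Module ℂ M]

/-- the operator `m ⊗ φ` -/
def op : Matrix ι ι ℂ →ₗ[ℂ] Module.End ℂ M →ₗ[ℂ] Module.End ℂ (ι → M) :=
  LinearMap.mk₂ ℂ
    (fun m φ => (endVecAlgEquivMatrixEnd ι ℂ ℂ M).symm (Matrix.of fun I J => m I J • φ))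
    (fun m m' φ => by
      rw [← map_add]
      congr 1
      ext I J : 2
      simp [add_smul])
    (fun c m φ => by
      rw [← map_smul]
      congr 1
      ext I J : 2
      simp [mul_smul])
    (fun m φ φ' => by
      rw [← map_add]
      congr 1
      ext I J : 2
      simp)
    (fun c m φ => by
      rw [← map_smul]
      congr 1
      ext I J : 2
      simp [smul_comm c])

theorem op_apply (m : Matrix ι ι ℂ) (φ : Module.End ℂ M) (u : ι → M) (I : ι) :
    op m φ u I = ∑ J, m I J • φ (u J) := by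
  simp [op, endVecAlgEquivMatrixEnd_symm_apply_apply]

theorem op_mul (m m' : Matrix ι ι ℂ) (φ φ' : Module.End ℂ M) :
    op m φ * op m' φ' = op (m * m') (φ * φ') := by
  refine LinearMap.ext fun u => funext fun I => ?_
  simp only [Module.End.mul_apply, op_apply, map_sum, map_smul, Finset.smul_sum, smul_smul,
    Matrix.mul_apply, Finset.sum_smul]
  exact Finset.sum_comm

theorem op_diag (d : ι → ℂ) (φ : Module.End ℂ M) (u : ι → M) (I : ι) :
    op (diagonal d) φ u I = d I • φ (u I) := by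
  simp [op_apply, diagonal_apply]

end C9a

namespace Std

open C9a

variable {X : Cox} {κ : ℂ} {A : CA X κ} {χ : X.W → ℂ} (S : Std A χ) (F : Fock X)

theorem exists_R : ∃ R : Matrix F.ι F.ι A.H →ₐ[ℂ] Module.End ℂ (F.ι → S.M),
    ∀ m u I, R m u I = ∑ J, S.ρ (m I J) (u J) := by
  refine ⟨(endVecAlgEquivMatrixEnd F.ι ℂ ℂ S.M).symm.toAlgHom.comp S.ρ.mapMatrix,
    fun m u I => ?_⟩
  simp [endVecAlgEquivMatrixEnd_symm_apply_apply]

/-- the action of matrices on vectors -/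
def R : Matrix F.ι F.ι A.H →ₐ[ℂ] Module.End ℂ (F.ι → S.M) := (S.exists_R F).choose

theorem R_apply (m : Matrix F.ι F.ι A.H) (u : F.ι → S.M) (I : F.ι) :
    S.R F m u I = ∑ J, S.ρ (m I J) (u J) := (S.exists_R F).choose_spec m u I

/-- the part of bidegree `(k - q, q)` -/
def U (k q : ℕ) : Submodule ℂ (F.ι → S.M) :=
  Submodule.pi Set.univ fun I => if F.deg I = q ∧ q ≤ k then S.Mp (k - q) else ⊥

theorem R_tn (h : A.H) (m : Matrix F.ι F.ι ℂ) : S.R F (F.tn A h m) = op m (S.ρ h) := by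
  refine LinearMap.ext fun u => funext fun I => ?_
  simp [R_apply, op_apply, Fock.tn]

theorem R_tn_one (h : A.H) (u : F.ι → S.M) (I : F.ι) : S.R F (F.tn A h 1) u I = S.ρ h (u I) := by
  rw [R_tn, ← diagonal_one, op_diag, one_smul]

theorem U_fin (k q : ℕ) : FiniteDimensional ℂ (S.U F k q) := by
  refine Module.Finite.iff_fg.2 (Submodule.fg_pi fun I => ?_)
  split_ifs
  · exact Module.Finite.iff_fg.1 (S.fin _)
  · exact Submodule.fg_bot

theorem mem_U {k q : ℕ} {u : F.ι → S.M} : u ∈ S.U F k q ↔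
    ∀ I, (F.deg I = q ∧ q ≤ k ∧ u I ∈ S.Mp (k - q)) ∨ u I = 0 := by
  refine Submodule.mem_pi.trans (forall_congr' fun I => ?_)
  simp only [Set.mem_univ, forall_const]
  split_ifs with h
  · exact ⟨fun h' => Or.inl ⟨h.1, h.2, h'⟩, fun h' => h'.elim (·.2.2) fun e => e ▸ zero_mem _⟩
  · exact ⟨fun h' => Or.inr h', fun h' => h'.elim (fun e => absurd ⟨e.1, e.2.1⟩ h) id⟩

theorem mem_Mp {k q : ℕ} {u : F.ι → S.M} (h : u ∈ S.U F k q) (I : F.ι) : u I ∈ S.Mp (k - q) :=
  ((S.mem_U F).1 h I).elim (·.2.2) fun e => e ▸ zero_mem _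

theorem U_bot {k q : ℕ} (h : k < q) : S.U F k q = ⊥ := by
  refine eq_bot_iff.2 fun u hu => funext fun I => ?_
  exact ((S.mem_U F).1 hu I).resolve_left fun e => absurd e.2.1 (not_le.2 h)

theorem op_mem {k q q' : ℕ} {m : Matrix F.ι F.ι ℂ} {φ : Module.End ℂ S.M}
    (h : ∀ I J, m I J ≠ 0 → F.deg J = q → q ≤ k → ∀ v ∈ S.Mp (k - q),
      (F.deg I = q' ∧ q' ≤ k ∧ φ v ∈ S.Mp (k - q')) ∨ φ v = 0) :
    ∀ u ∈ S.U F k q, op m φ u ∈ S.U F k q' := by
  intro u hu I _
  rw [op_apply]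
  refine Submodule.sum_mem _ fun J _ => ?_
  by_cases h0 : m I J = 0
  · rw [h0, zero_smul]
    exact zero_mem _
  refine Submodule.smul_mem _ _ ?_
  rcases (S.mem_U F).1 hu J with ⟨h1, h2, h3⟩ | h1
  · rcases h I J h0 h1 h2 _ h3 with ⟨h4, h5, h6⟩ | h4
    · simpa only [if_pos (And.intro h4 h5)] using h6
    · rw [h4]
      exact zero_mem _
  · rw [h1, map_zero]
    exact zero_mem _

theorem op_up {k q : ℕ} (a : X.Vc) {φ : Module.End ℂ S.M}
    (h1 : ∀ p, ∀ v ∈ S.Mp (p + 1), φ v ∈ S.Mp p) (h0 : ∀ v ∈ S.Mp 0, φ v = 0) :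
    ∀ u ∈ S.U F k q, op (F.cr a) φ u ∈ S.U F k (q + 1) := by
  refine S.op_mem F fun I J h hJ hq v hv => ?_
  have := F.cr_deg a I J h
  by_cases e : q + 1 ≤ k
  · exact Or.inl ⟨by omega, e, h1 _ v (by rwa [show k - (q + 1) + 1 = k - q by omega])⟩
  · exact Or.inr (h0 v (by rwa [show k - q = 0 by omega] at hv))

theorem R_Dl (w : X.W) : S.R F (F.Dl A w) = op (F.lam w) (S.ρ (A.g w)) := S.R_tn F _ _

theorem R_Dx : S.R F (F.Dx A) = ∑ i, op (F.an (X.du i)) (S.ρ (A.x (X.eb i))) := by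
  simp only [Fock.Dx, map_sum, R_tn]

theorem R_Dy : S.R F (F.Dy A) = ∑ i, op (F.cr (X.du i)) (S.ρ (A.y (X.eb i))) := by
  simp only [Fock.Dy, map_sum, R_tn]

theorem R_Dla (ζ : X.GA) : S.R F (F.Dla A ζ) = ∑ w, ζ.coeff w • S.R F (F.Dl A w) := by
  conv_lhs => rw [t1_eq_sum ζ]
  simp only [map_sum, map_smul, Fock.Dla_of]

theorem Dl_mem {k q : ℕ} (w : X.W) : ∀ u ∈ S.U F k q, S.R F (F.Dl A w) u ∈ S.U F k q := by
  rw [R_Dl]
  exact S.op_mem F fun I J h hJ hq v hv =>
    Or.inl ⟨(F.lam_deg w I J h).trans hJ, hq, S.g_mem _ w v hv⟩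

theorem Dla_mem {k q : ℕ} (ζ : X.GA) : ∀ u ∈ S.U F k q, S.R F (F.Dla A ζ) u ∈ S.U F k q := by
  intro u hu
  rw [R_Dla, LinearMap.sum_apply]
  exact Submodule.sum_mem _ fun w _ => Submodule.smul_mem _ _ (S.Dl_mem F w u hu)

theorem Dx_mem {k q : ℕ} : ∀ u ∈ S.U F k (q + 1), S.R F (F.Dx A) u ∈ S.U F k q := by
  intro u hu
  rw [R_Dx, LinearMap.sum_apply]
  refine Submodule.sum_mem _ fun i _ => S.op_mem F (fun I J h hJ hq v hv => ?_) u hu
  have := F.an_deg _ I J h
  refine Or.inl ⟨by omega, by omega, ?_⟩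
  rw [show k - q = k - (q + 1) + 1 by omega]
  exact S.x_mem _ _ v hv

theorem Dx_zero {k : ℕ} : ∀ u ∈ S.U F k 0, S.R F (F.Dx A) u = 0 := by
  intro u hu
  rw [R_Dx, LinearMap.sum_apply]
  refine Finset.sum_eq_zero fun i _ => ?_
  rw [← Submodule.mem_bot ℂ, ← S.U_bot F (Nat.lt_succ_self k)]
  refine S.op_mem F (fun I J h hJ => ?_) u hu
  have := F.an_deg _ I J h
  omega

theorem Dy_mem {k q : ℕ} : ∀ u ∈ S.U F k q, S.R F (F.Dy A) u ∈ S.U F k (q + 1) := by
  intro u hu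
  rw [R_Dy, LinearMap.sum_apply]
  exact Submodule.sum_mem _ fun i _ => S.op_up F _ (fun p => S.y_mem p _) (S.y_zero _) u hu

theorem homotopy : S.R F (F.Dx A) * ∑ j, op (F.cr (X.eb j)) (S.dl j) +
    (∑ j, op (F.cr (X.eb j)) (S.dl j)) * S.R F (F.Dx A) =
      op (1 : Matrix F.ι F.ι ℂ) (∑ i, S.ρ (A.x (X.eb i)) * S.dl i) +
        op (diagonal fun I => (F.deg I : ℂ)) 1 := by
  have h1 : ∀ i j, S.dl j * S.ρ (A.x (X.eb i)) =
      S.ρ (A.x (X.eb i)) * S.dl j + if j = i then 1 else 0 := fun i j => by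
    refine LinearMap.ext fun m => ?_
    rw [Module.End.mul_apply, S.dl_x, LinearMap.add_apply, Module.End.mul_apply]
    split_ifs <;> rfl
  have h2 : ∀ i j, op (F.an (X.du i)) (S.ρ (A.x (X.eb i))) * op (F.cr (X.eb j)) (S.dl j) +
      op (F.cr (X.eb j)) (S.dl j) * op (F.an (X.du i)) (S.ρ (A.x (X.eb i))) =
        if j = i then op (1 : Matrix F.ι F.ι ℂ) (S.ρ (A.x (X.eb i)) * S.dl i) +
          op (F.cr (X.eb i) * F.an (X.du i)) 1 else 0 := fun i j => by
    rw [op_mul, op_mul, h1, map_add, ← add_assoc, ← LinearMap.add_apply, ← map_add, F.an_cr,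
      Cox.BK_symm ℂ X, X.BK_eb_du]
    split_ifs with e
    · rw [e, one_smul]
    · simp
  rw [R_Dx, Finset.sum_mul_sum, Finset.sum_mul_sum, Finset.sum_comm (s := Finset.univ)
    (f := fun j i => op (F.cr (X.eb j)) (S.dl j) * op (F.an (X.du i)) (S.ρ (A.x (X.eb i)))),
    ← Finset.sum_add_distrib]
  simp only [← Finset.sum_add_distrib, h2, Finset.sum_ite_eq', Finset.mem_univ, if_true]
  rw [Finset.sum_add_distrib, ← map_sum, ← F.num, map_sum op, LinearMap.sum_apply]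

theorem Dx_exact {k q : ℕ} (hk : 0 < k) : ∀ u ∈ S.U F k q, S.R F (F.Dx A) u = 0 →
    ∃ u' ∈ S.U F k (q + 1), u = S.R F (F.Dx A) u' := by
  intro u hu h0
  have hk' : (k : ℂ) ≠ 0 := Nat.cast_ne_zero.2 hk.ne'
  refine ⟨(k : ℂ)⁻¹ • (∑ j, op (F.cr (X.eb j)) (S.dl j)) u, Submodule.smul_mem _ _ ?_, ?_⟩
  · rw [LinearMap.sum_apply]
    exact Submodule.sum_mem _ fun j _ => S.op_up F _ (fun p => S.dl_mem p j) (S.dl_zero j) u hu
  have e := LinearMap.congr_fun (S.homotopy F) u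
  rw [LinearMap.add_apply, Module.End.mul_apply, Module.End.mul_apply, h0, map_zero, add_zero] at e
  rw [map_smul, e, eq_inv_smul_iff₀ hk']
  funext I
  rw [LinearMap.add_apply, Pi.add_apply, ← diagonal_one, op_diag, op_diag, one_smul,
    Pi.smul_apply, Module.End.one_apply]
  rcases (S.mem_U F).1 hu I with ⟨h1, h2, h3⟩ | h1
  · rw [LinearMap.sum_apply]
    simp only [Module.End.mul_apply]
    rw [S.euler _ _ h3, ← add_smul, h1, ← Nat.cast_add, Nat.sub_add_cancel h2]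
  · simp [h1]

theorem Dy_proj {k q : ℕ} (v : F.ι → S.M) (h : S.R F (F.Dy A) v ∈ S.U F k (q + 1)) :
    ∃ v' ∈ S.U F k q, S.R F (F.Dy A) v = S.R F (F.Dy A) v' := by
  by_cases hq : q + 1 ≤ k
  swap
  · rw [S.U_bot F (not_le.1 hq), Submodule.mem_bot] at h
    exact ⟨0, zero_mem _, by rw [h, map_zero]⟩
  have hv : (fun I => if F.deg I = q then S.pj (k - q) (v I) else 0) ∈ S.U F k q := by
    refine (S.mem_U F).2 fun I => ?_
    by_cases e : F.deg I = q
    · exact Or.inl ⟨e, by omega, by simpa only [if_pos e] using S.pj_mem _ _⟩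
    · exact Or.inr (if_neg e)
  refine ⟨_, hv, funext fun I => ?_⟩
  by_cases e : F.deg I = q + 1
  · rw [← S.pj_self _ _ (S.mem_Mp F h I), R_Dy, LinearMap.sum_apply, LinearMap.sum_apply,
      Finset.sum_apply, Finset.sum_apply, map_sum]
    refine Finset.sum_congr rfl fun i _ => ?_
    rw [op_apply, op_apply, map_sum]
    refine Finset.sum_congr rfl fun J _ => ?_
    by_cases h0 : F.cr (X.du i) I J = 0
    · simp [h0]
    have := F.cr_deg _ I J h0
    rw [map_smul, S.pj_y, if_pos (by omega), show k - (q + 1) + 1 = k - q by omega]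
  · rw [((S.mem_U F).1 h I).resolve_left fun h' => e h'.1,
      ((S.mem_U F).1 (S.Dy_mem F _ hv) I).resolve_left fun h' => e h'.1]

theorem Dy_proj_zero {k : ℕ} (v : F.ι → S.M) (h : S.R F (F.Dy A) v ∈ S.U F k 0) :
    S.R F (F.Dy A) v = 0 := by
  funext I
  rcases (S.mem_U F).1 h I with ⟨h1, -⟩ | h1
  · rw [R_Dy, LinearMap.sum_apply, Finset.sum_apply]
    refine Finset.sum_eq_zero fun i _ => ?_
    rw [op_apply]
    refine Finset.sum_eq_zero fun J _ => ?_
    by_cases h0 : F.cr (X.du i) I J = 0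
    · rw [h0, zero_smul]
    have := F.cr_deg _ I J h0
    omega
  · exact h1

/-- the representation on `U k q` -/
def rep (k q : ℕ) : Representation ℂ X.W (S.U F k q) where
  toFun w := (S.R F (F.Dl A w)).restrict (S.Dl_mem F w)
  map_one' := by
    refine LinearMap.ext fun u => Subtype.ext ?_
    simp
  map_mul' w w' := by
    refine LinearMap.ext fun u => Subtype.ext ?_
    simp

theorem rep_char {k q : ℕ} (hq : q ≤ k) (w : X.W) :
    (S.rep F k q).character w = F.ek q w * X.hk (k - q) w * χ w := by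
  have := S.U_fin F k q
  have := S.fin (k - q)
  let inc : {I // F.deg I = q} → S.Mp (k - q) →ₗ[ℂ] S.U F k q := fun I =>
    LinearMap.codRestrict _ ((LinearMap.single ℂ (fun _ => S.M) I.1).comp (S.Mp _).subtype)
      fun v => (S.mem_U F).2 fun J => by
        by_cases e : J = I.1
        · exact Or.inl ⟨e ▸ I.2, hq, by simp [e]⟩
        · exact Or.inr (by simp [e])
  let pr : F.ι → S.U F k q →ₗ[ℂ] S.Mp (k - q) := fun J =>
    LinearMap.codRestrict _ ((LinearMap.proj J).comp (S.U F k q).subtype)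
      fun u => S.mem_Mp F u.2 J
  let g := (S.ρ (A.g w)).restrict (S.g_mem (k - q) w)
  have hi : ∀ I v, (inc I v).1 = Pi.single I.1 v.1 := fun _ _ => rfl
  have hp : ∀ J u, (pr J u).1 = u.1 J := fun _ _ => rfl
  have hg : ∀ v, (g v).1 = S.ρ (A.g w) v.1 := fun _ => rfl
  clear_value inc pr
  have h1 : S.rep F k q w = ∑ I : {I // F.deg I = q}, ∑ J, F.lam w I.1 J • inc I ∘ₗ g ∘ₗ pr J := by
    refine LinearMap.ext fun u => Subtype.ext (funext fun K => ?_)
    have e : (S.rep F k q w u).1 K = ∑ J, F.lam w K J • S.ρ (A.g w) (u.1 J) := by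
      rw [← op_apply, ← R_Dl]
      rfl
    by_cases hK : F.deg K = q
    · rw [e, LinearMap.sum_apply, Submodule.coe_sum, Finset.sum_apply,
        Finset.sum_eq_single (⟨K, hK⟩ : {I // F.deg I = q})]
      · simp [hi, hp, hg]
      · intro I _ hI
        have : K ≠ I.1 := fun e => hI (Subtype.ext e.symm)
        simp [hi, this]
      · simp
    · rw [((S.mem_U F).1 (S.rep F k q w u).2 K).resolve_left fun h' => hK h'.1,
        ((S.mem_U F).1 (Subtype.prop _) K).resolve_left fun h' => hK h'.1]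
  have h2 : ∀ (I : {I // F.deg I = q}) J, pr J ∘ₗ inc I = if J = I.1 then 1 else 0 := fun I J => by
    refine LinearMap.ext fun v => Subtype.ext ?_
    rw [LinearMap.comp_apply, hp, hi]
    split_ifs with e <;> simp [e]
  have h3 : ∀ (I : {I // F.deg I = q}) J, LinearMap.trace ℂ _ (inc I ∘ₗ g ∘ₗ pr J) =
      if J = I.1 then X.hk (k - q) w * χ w else 0 := fun I J => by
    rw [LinearMap.trace_comp_comm', LinearMap.comp_assoc, h2]
    split_ifs
    · rw [← S.tr]
      rfl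
    · simp
  rw [Representation.character, h1]
  simp only [map_sum, map_smul, h3, smul_eq_mul, mul_ite, mul_zero, Finset.sum_ite_eq',
    Finset.mem_univ, if_true]
  rw [← Finset.sum_mul, Fock.ek, mul_assoc]
  congr 1
  exact (Finset.sum_subtype _ (by simp) fun I => F.lam w I I).symm

theorem finrank_iso {k q : ℕ} (hq : q ≤ k) {μ : X.W → ℂ} (hμ : IsIrr μ) :
    (Module.finrank ℂ ↥(S.U F k q ⊓ LinearMap.ker (S.R F (F.Dla A (idem μ)) - 1)) : ℂ) =
      μ 1 * ip (fun w => F.ek q w * X.hk (k - q) w * χ w) μ := by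
  have := S.U_fin F k q
  have h1 : ∀ (ζ : X.GA) u, ((S.rep F k q).asAlgebraHom ζ u).1 = S.R F (F.Dla A ζ) u.1 :=
    fun ζ u => by
      rw [t1_asAlg, R_Dla, LinearMap.sum_apply, LinearMap.sum_apply, Submodule.coe_sum]
      rfl
  have h2 : S.U F k q ⊓ LinearMap.ker (S.R F (F.Dla A (idem μ)) - 1) =
      (LinearMap.range ((S.rep F k q).asAlgebraHom (idem μ))).map (S.U F k q).subtype := by
    ext u
    simp only [Submodule.mem_inf, LinearMap.mem_ker, LinearMap.sub_apply, Module.End.one_apply,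
      sub_eq_zero, Submodule.mem_map, LinearMap.mem_range, Submodule.subtype_apply]
    constructor
    · rintro ⟨hu, e⟩
      exact ⟨_, ⟨⟨u, hu⟩, rfl⟩, (h1 _ _).trans e⟩
    · rintro ⟨_, ⟨v, rfl⟩, rfl⟩
      refine ⟨Subtype.prop _, ?_⟩
      rw [← h1, ← Module.End.mul_apply, ← map_mul, hμ.idem_mul_idem]
  rw [h2, Submodule.finrank_map_subtype_eq, hμ.finrank_idem, funext (S.rep_char F hq)]

end Std

end

end Pool.Agent.P.MP_1a0ecf_al
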