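import Pool.Agent.P.MP_1a0ecf_al.Cox

/-! Package Chr: definitions for characters of finite groups. -/

namespace Pool.Agent.P.MP_1a0ecf_al

open scoped Classical

noncomputable section

variable {W : Type} [Group W] [Fintype W]

/-- characters -/
def IsCh (f : W → ℂ) : Prop := ∃ (d : ℕ) (π : Representation ℂ W (Fin d → ℂ)), f = π.character

/-- irreducible characters -/
def IsIrr (f : W → ℂ) : Prop :=
  ∃ (d : ℕ) (π : Representation ℂ W (Fin d → ℂ)), π.IsIrreducible ∧ f = π.character

/-- virtual characters -/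
def VC (f : W → ℂ) : Prop := f ∈ AddSubgroup.closure {χ : W → ℂ | IsIrr χ}

/-- class functions -/
def IsCl (f : W → ℂ) : Prop := ∀ w u, f (u * w * u⁻¹) = f w

/-- the scalar product -/
def ip (f g : W → ℂ) : ℂ := (Nat.card W : ℂ)⁻¹ * ∑ w, f w * g w⁻¹

/-- linear extension to the group algebra -/
def chx (f : W → ℂ) : MonoidAlgebra ℂ W →ₗ[ℂ] ℂ where
  toFun a := ∑ w, a.coeff w * f w
  map_add' a b := by simp [add_mul, Finset.sum_add_distrib]
  map_smul' c a := by simp [Finset.mul_sum, mul_assoc]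

/-- the central idempotent of an irreducible character -/
def idem (χ : W → ℂ) : MonoidAlgebra ℂ W :=
  (χ 1 / Nat.card W) • ∑ w, χ w⁻¹ • MonoidAlgebra.of ℂ W w

/-- eigenvalue of the sum of the reflections -/
def Cox.om (X : Cox) (χ : X.W → ℂ) : ℂ := (∑ t ∈ X.refls, χ t) / χ 1

end

end Pool.Agent.P.MP_1a0ecf_al
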