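import Mathlib

namespace Pool.Agent.P.MP_1a0ecf_al

open scoped TensorProduct Classical

noncomputable section

section Families

variable {H : Type} [Ring H] [Algebra ℂ H] {W : Type} [Group W] [Fintype W] {V : Type}
  {E : Type} [AddCommGroup E] [Module ℂ E]

/-- The relations of the module induced from `S(V) ⋊ W`, with `V` acting on `E` by zero. -/
def IndRel (y : V → H) (g : W → H) (π : Representation ℂ W E) : Submodule H (H ⊗[ℂ] E) :=
  Submodule.span H ({m | ∃ a v, m = y a ⊗ₜ[ℂ] v} ∪ {m | ∃ w v, m = g w ⊗ₜ[ℂ] v - 1 ⊗ₜ[ℂ] π w v})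

/-- `Δ(E) = e · Ind E` as a module over the centre. -/
def Delta (y : V → H) (g : W → H) (π : Representation ℂ W E) :
    Submodule (Subalgebra.center ℂ H) ((H ⊗[ℂ] E) ⧸ IndRel y g π) :=
  Submodule.span _ (Set.range fun m => ((Fintype.card W : ℂ)⁻¹ • ∑ w, g w) • m)

/-- The ideal `q` of the centre contains the central polynomials without constant term in the
elements of `s`. -/
def Over (s : Set H) (q : Ideal (Subalgebra.center ℂ H)) : Prop :=
  ∀ z : Subalgebra.center ℂ H, (z : H) ∈ NonUnitalAlgebra.adjoin ℂ s → z ∈ q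

/-- `(Z / q) ⊗ Δ(E) ≠ 0`. -/
def Supp (y : V → H) (g : W → H) (π : Representation ℂ W E)
    (q : Ideal (Subalgebra.center ℂ H)) : Prop :=
  Nontrivial ((Subalgebra.center ℂ H ⧸ q) ⊗[Subalgebra.center ℂ H] Delta y g π)

end Families

section Cherednik

variable {n : ℕ} {M : CoxeterMatrix (Fin n)} {W : Type} [Group W] [Fintype W]

/-- `ρ` is the complexified reflection representation. -/
def IsGeom (cs : CoxeterSystem M W) (ρ : Representation ℂ W (Fin n → ℂ)) : Prop :=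
  ∀ i j, ρ (cs.simple i) (Pi.single j 1) =
    Pi.single j 1 + ((2 * Real.cos (Real.pi / M i j) : ℝ) : ℂ) • Pi.single i 1

/-- The tensor algebra on `V ⊕ V* ⊕ ℂ W`. -/
abbrev Free (n : ℕ) (W : Type) [Group W] : Type :=
  TensorAlgebra ℂ ((Fin n → ℂ) × Module.Dual ℂ (Fin n → ℂ) × MonoidAlgebra ℂ W)

def fV (W : Type) [Group W] (a : Fin n → ℂ) : Free n W := TensorAlgebra.ι ℂ (a, 0, 0)

def fD (W : Type) [Group W] (x : Module.Dual ℂ (Fin n → ℂ)) : Free n W :=
  TensorAlgebra.ι ℂ (0, x, 0)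

def fW (n : ℕ) (w : W) : Free n W := TensorAlgebra.ι ℂ (0, 0, MonoidAlgebra.of ℂ W w)

/-- The defining relations of the rational Cherednik algebra at `t = 0`. -/
inductive CRel (cs : CoxeterSystem M W) (ρ : Representation ℂ W (Fin n → ℂ)) (c : W → ℝ) :
    Free n W → Free n W → Prop
  | one : CRel cs ρ c (fW n 1) 1
  | mul (w w' : W) : CRel cs ρ c (fW n (w * w')) (fW n w * fW n w')
  | conjV (w : W) (a : Fin n → ℂ) : CRel cs ρ c (fW n w * fV W a) (fV W (ρ w a) * fW n w)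
  | conjD (w : W) (x : Module.Dual ℂ (Fin n → ℂ)) :
      CRel cs ρ c (fW n w * fD W x) (fD W (ρ.dual w x) * fW n w)
  | commV (a a' : Fin n → ℂ) : CRel cs ρ c (fV W a * fV W a') (fV W a' * fV W a)
  | commD (x x' : Module.Dual ℂ (Fin n → ℂ)) : CRel cs ρ c (fD W x * fD W x') (fD W x' * fD W x)
  | main (a : Fin n → ℂ) (x : Module.Dual ℂ (Fin n → ℂ)) :
      CRel cs ρ c (fV W a * fD W x - fD W x * fV W a)
        (∑ t with cs.IsReflection t, ((c t : ℂ) * (x (a - ρ t a) / 2)) • fW n t)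

/-- The rational Cherednik algebra `H_c`. -/
abbrev Cher (cs : CoxeterSystem M W) (ρ : Representation ℂ W (Fin n → ℂ)) (c : W → ℝ) : Type :=
  RingQuot (CRel cs ρ c)

/-- `π` and `π'` lie in the same Calogero-Moser family. -/
def SameCM (cs : CoxeterSystem M W) (ρ : Representation ℂ W (Fin n → ℂ)) (c : W → ℝ) {d d' : ℕ}
    (π : Representation ℂ W (Fin d → ℂ)) (π' : Representation ℂ W (Fin d' → ℂ)) : Prop :=
  ∃ q : Ideal (Subalgebra.center ℂ (Cher cs ρ c)), q.IsMaximal ∧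
    Over (Set.range fun x => RingQuot.mkAlgHom ℂ (CRel cs ρ c) (fD W x)) q ∧
    Over (Set.range fun a => RingQuot.mkAlgHom ℂ (CRel cs ρ c) (fV W a)) q ∧
    Supp (fun a => RingQuot.mkAlgHom ℂ (CRel cs ρ c) (fV W a))
      (fun w => RingQuot.mkAlgHom ℂ (CRel cs ρ c) (fW n w)) π q ∧
    Supp (fun a => RingQuot.mkAlgHom ℂ (CRel cs ρ c) (fV W a))
      (fun w => RingQuot.mkAlgHom ℂ (CRel cs ρ c) (fW n w)) π' q

end Cherednik

section Hecke

variable {n : ℕ} {M : CoxeterMatrix (Fin n)} {W : Type} [Group W] [Fintype W]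

/-- The subgroup `Γ` of `ℝ` generated by `ℤ` and the parameters. -/
def Gam (cs : CoxeterSystem M W) (c : W → ℝ) : AddSubgroup ℝ :=
  AddSubgroup.closure (insert 1 (c '' {t | cs.IsReflection t}))

/-- `L(s_i) = c_{s_i}` as an element of `Γ`. -/
def wt (cs : CoxeterSystem M W) (c : W → ℝ) (i : Fin n) : Gam cs c :=
  ⟨c (cs.simple i), AddSubgroup.subset_closure (Or.inr ⟨_, cs.isReflection_simple i, rfl⟩)⟩

variable {Γ : AddSubgroup ℝ} {H : Type} [Ring H] [Algebra (AddMonoidAlgebra ℤ Γ) H]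

/-- `T` is the standard basis of the Iwahori-Hecke algebra with parameters `L`. -/
def IsHecke (cs : CoxeterSystem M W) (L : Fin n → Γ)
    (T : Module.Basis W (AddMonoidAlgebra ℤ Γ) H) : Prop :=
  T 1 = 1 ∧ ∀ x i, T x * T (cs.simple i) = T (x * cs.simple i) +
    if cs.length x < cs.length (x * cs.simple i) then 0 else
      (AddMonoidAlgebra.single (L i) 1 - AddMonoidAlgebra.single (-L i) 1 :
        AddMonoidAlgebra ℤ Γ) • T x

/-- `bar` is the bar involution. -/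
def IsBar (T : Module.Basis W (AddMonoidAlgebra ℤ Γ) H) (bar : H →+* H) : Prop :=
  (∀ (γ : Γ) h, bar ((AddMonoidAlgebra.single γ 1 : AddMonoidAlgebra ℤ Γ) • h) =
    (AddMonoidAlgebra.single (-γ) 1 : AddMonoidAlgebra ℤ Γ) • bar h) ∧
    ∀ x, bar (T x) * T x⁻¹ = 1

/-- `C` is the Kazhdan-Lusztig basis. -/
def IsKL (T : Module.Basis W (AddMonoidAlgebra ℤ Γ) H) (bar : H →+* H)
    (C : Module.Basis W (AddMonoidAlgebra ℤ Γ) H) : Prop :=
  ∀ x, bar (C x) = C x ∧ ∀ y (γ : Γ), 0 ≤ (γ : ℝ) → (T.repr (C x - T x) y).coeff γ = 0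

/-- The two-sided Kazhdan-Lusztig preorder. -/
def LeLR (C : Module.Basis W (AddMonoidAlgebra ℤ Γ) H) : W → W → Prop :=
  Relation.ReflTransGen fun x y => ∃ h h' : H, C.repr (h * C y * h') x ≠ 0

/-- `π` occurs in the module of the two-sided cell of `z`, specialised to `ℂ W`. -/
def Occurs (T C : Module.Basis W (AddMonoidAlgebra ℤ Γ) H) (z : W) {d : ℕ}
    (π : Representation ℂ W (Fin d → ℂ)) : Prop :=
  ∃ f : (Fin d → ℂ) →ₗ[ℂ] W → ℂ, f ≠ 0 ∧ (∀ v y, ¬ (LeLR C y z ∧ LeLR C z y) → f v y = 0) ∧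
    ∀ w v x, LeLR C x z ∧ LeLR C z x → f (π w v) x =
      ∑ y, ((C.repr (T w * C y) x).coeff.sum fun _ a => (a : ℂ)) * f v y

end Hecke

/-- The Gordon-Martino conjecture for the Coxeter groups with Coxeter matrix `M`. -/
def GordonMartino {n : ℕ} (M : CoxeterMatrix (Fin n)) : Prop :=
  ∀ (W : Type) [Group W] [Fintype W] (cs : CoxeterSystem M W)
    (ρ : Representation ℂ W (Fin n → ℂ)), IsGeom cs ρ →
  ∀ c : W → ℝ, (∀ t, cs.IsReflection t → 0 ≤ c t) →
    (∀ t w, cs.IsReflection t → c (w * t * w⁻¹) = c t) →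
  ∀ (H : Type) [Ring H] [Algebra (AddMonoidAlgebra ℤ (Gam cs c)) H]
    (T C : Module.Basis W (AddMonoidAlgebra ℤ (Gam cs c)) H) (bar : H →+* H),
    IsHecke cs (wt cs c) T → IsBar T bar → IsKL T bar C →
  ∀ (d d' : ℕ) (π : Representation ℂ W (Fin d → ℂ)) (π' : Representation ℂ W (Fin d' → ℂ)),
    π.IsIrreducible → π'.IsIrreducible →
    (SameCM cs ρ c π π' ↔ ∃ z, Occurs T C z π ∧ Occurs T C z π')

end

end Pool.Agent.P.MP_1a0ecf_al
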