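import Pool.Agent.P.MP_1a0ecf_al.G5
import Pool.Agent.P.MP_1a0ecf_al.Chr
import Pool.Agent.P.MP_1a0ecf_al.Defs

/-! Package CA: definitions for rational Cherednik algebras. -/

namespace Pool.Agent.P.MP_1a0ecf_al

open Matrix MvPolynomial
open scoped Classical TensorProduct

noncomputable section

namespace Cox

variable (X : Cox)

abbrev Vc : Type := Fin X.n → ℂ

abbrev Sc : Type := MvPolynomial (Fin X.n) ℂ

abbrev GA : Type := MonoidAlgebra ℂ X.W

/-- the root of a reflection -/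
abbrev rc (t : X.W) : X.Vc := X.vK ℂ (X.rt t)

/-- the standard basis -/
abbrev eb (i : Fin X.n) : X.Vc := Pi.single i 1

/-- the dual basis -/
def du (i : Fin X.n) : X.Vc := (X.K.map (algebraMap ℝ ℂ))⁻¹ *ᵥ Pi.single i 1

/-- trace of `w` on homogeneous polynomials of degree `p` -/
def hk (p : ℕ) (w : X.W) : ℂ :=
  LinearMap.trace ℂ (homogeneousSubmodule (Fin X.n) ℂ p)
    ((X.act ℂ w).toLinearMap.restrict fun _ h => X.act_hom ℂ w h)

end Cox

/-- the defining relations -/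
structure CRels (X : Cox) (κ : ℂ) {A : Type} [Ring A] [Algebra ℂ A] (x y : X.Vc →ₗ[ℂ] A)
    (g : X.W →* A) : Prop where
  gx : ∀ w a, g w * x a = x (X.σK ℂ w *ᵥ a) * g w
  gy : ∀ w a, g w * y a = y (X.σK ℂ w *ᵥ a) * g w
  xx : ∀ a b, x a * x b = x b * x a
  yy : ∀ a b, y a * y b = y b * y a
  yx : ∀ a b, y a * x b - x b * y a =
    ∑ t ∈ X.refls, (κ * X.BK ℂ (X.rc t) a * X.BK ℂ (X.rc t) b) • g t

/-- a rational Cherednik algebra at `t = 0` with constant parameter -/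
structure CA (X : Cox) (κ : ℂ) where
  H : Type
  [ring : Ring H]
  [alg : Algebra ℂ H]
  x : X.Vc →ₗ[ℂ] H
  y : X.Vc →ₗ[ℂ] H
  g : X.W →* H
  rels : CRels X κ x y g
  gen : ∀ S : Subalgebra ℂ H, (∀ a, x a ∈ S) → (∀ a, y a ∈ S) → (∀ w, g w ∈ S) → ∀ h, h ∈ S
  lift : ∀ (A : Type) [Ring A] [Algebra ℂ A] (x' y' : X.Vc →ₗ[ℂ] A) (g' : X.W →* A),
    CRels X κ x' y' g' → ∃ φ : H →ₐ[ℂ] A, (∀ a, φ (x a) = x' a) ∧ (∀ a, φ (y a) = y' a) ∧
      ∀ w, φ (g w) = g' w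

attribute [instance] CA.ring CA.alg

namespace CA

variable {X : Cox} {κ : ℂ} (A : CA X κ)

/-- the group algebra inside `H` -/
def gl : X.GA →ₐ[ℂ] A.H := MonoidAlgebra.lift ℂ A.H X.W A.g

/-- the left ideal generated by the `y a` -/
def LY : Submodule A.H A.H := Submodule.span A.H (Set.range A.y)

/-- the Euler element -/
def eu : A.H := ∑ i, A.x (X.du i) * A.y (X.eb i) + κ • ∑ t ∈ X.refls, A.g t

/-- same Calogero-Moser family -/
def Same {d d' : ℕ} (π : Representation ℂ X.W (Fin d → ℂ))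
    (π' : Representation ℂ X.W (Fin d' → ℂ)) : Prop :=
  ∃ q : Ideal (Subalgebra.center ℂ A.H), q.IsMaximal ∧ Over (Set.range A.x) q ∧
    Over (Set.range A.y) q ∧ Supp A.y A.g π q ∧ Supp A.y A.g π' q

end CA

/-- the exterior algebra of the reflection representation, in a basis -/
structure Fock (X : Cox) where
  ι : Type
  [fin : Fintype ι]
  [dec : DecidableEq ι]
  deg : ι → ℕ
  vac : ι
  cr : X.Vc →ₗ[ℂ] Matrix ι ι ℂ
  an : X.Vc →ₗ[ℂ] Matrix ι ι ℂ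
  lam : X.W →* Matrix ι ι ℂ
  cr_cr : ∀ a b, cr a * cr b + cr b * cr a = 0
  an_an : ∀ a b, an a * an b + an b * an a = 0
  an_cr : ∀ a b, an a * cr b + cr b * an a = X.BK ℂ a b • (1 : Matrix ι ι ℂ)
  lam_cr : ∀ w a, lam w * cr a = cr (X.σK ℂ w *ᵥ a) * lam w
  lam_an : ∀ w a, lam w * an a = an (X.σK ℂ w *ᵥ a) * lam w
  cr_deg : ∀ a I J, cr a I J ≠ 0 → deg I = deg J + 1
  an_deg : ∀ a I J, an a I J ≠ 0 → deg I + 1 = deg J
  lam_deg : ∀ w I J, lam w I J ≠ 0 → deg I = deg J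
  deg_zero : ∀ I, deg I = 0 ↔ I = vac
  lam_vac : ∀ w, lam w vac vac = 1
  num : ∑ i, cr (X.eb i) * an (X.du i) = diagonal fun I => (deg I : ℂ)
  num' : ∑ i, cr (X.du i) * an (X.eb i) = diagonal fun I => (deg I : ℂ)
  lam_refl : ∀ t, X.cs.IsReflection t → lam t = 1 - cr (X.rc t) * an (X.rc t)
  tr : ∀ w (T : ℂ), ∑ I, lam w I I * T ^ deg I = (1 + T • X.σK ℂ w).det

attribute [instance] Fock.fin Fock.dec

namespace Fock

variable {X : Cox} (F : Fock X) {κ : ℂ} (A : CA X κ)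

/-- trace of `w` on the exterior power of degree `q` -/
def ek (q : ℕ) (w : X.W) : ℂ := ∑ I with F.deg I = q, F.lam w I I

/-- the tensor `h ⊗ m` -/
def tn (h : A.H) (m : Matrix F.ι F.ι ℂ) : Matrix F.ι F.ι A.H := Matrix.of fun I J => m I J • h

theorem tn_mul (h h' : A.H) (m m' : Matrix F.ι F.ι ℂ) :
    F.tn A h m * F.tn A h' m' = F.tn A (h * h') (m * m') := by
  ext I J
  simp [tn, Matrix.mul_apply, Finset.sum_smul, smul_smul, mul_comm]

def Dy : Matrix F.ι F.ι A.H := ∑ i, F.tn A (A.y (X.eb i)) (F.cr (X.du i))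

def Dx : Matrix F.ι F.ι A.H := ∑ i, F.tn A (A.x (X.eb i)) (F.an (X.du i))

/-- the diagonal embedding of the group -/
def Dl : X.W →* Matrix F.ι F.ι A.H where
  toFun w := F.tn A (A.g w) (F.lam w)
  map_one' := by
    ext I J
    simp [tn, Matrix.one_apply]
  map_mul' w w' := by rw [tn_mul, map_mul, map_mul]

/-- the diagonal embedding of the group algebra -/
def Dla : X.GA →ₐ[ℂ] Matrix F.ι F.ι A.H := MonoidAlgebra.lift ℂ _ X.W (F.Dl A)

end Fock

/-- a standard module with character `χ` in degree zero -/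
structure Std {X : Cox} {κ : ℂ} (A : CA X κ) (χ : X.W → ℂ) where
  M : Type
  [grp : AddCommGroup M]
  [mod : Module ℂ M]
  ρ : A.H →ₐ[ℂ] Module.End ℂ M
  Mp : ℕ → Submodule ℂ M
  fin : ∀ p, FiniteDimensional ℂ (Mp p)
  pj : ℕ → M →ₗ[ℂ] M
  pj_mem : ∀ p m, pj p m ∈ Mp p
  pj_self : ∀ p, ∀ m ∈ Mp p, pj p m = m
  pj_y : ∀ p a m, pj p (ρ (A.y a) m) = ρ (A.y a) (pj (p + 1) m)
  x_mem : ∀ p a, ∀ m ∈ Mp p, ρ (A.x a) m ∈ Mp (p + 1)
  y_mem : ∀ p a, ∀ m ∈ Mp (p + 1), ρ (A.y a) m ∈ Mp p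
  y_zero : ∀ a, ∀ m ∈ Mp 0, ρ (A.y a) m = 0
  g_mem : ∀ p w, ∀ m ∈ Mp p, ρ (A.g w) m ∈ Mp p
  dl : Fin X.n → Module.End ℂ M
  dl_x : ∀ i j m, dl i (ρ (A.x (X.eb j)) m) =
    ρ (A.x (X.eb j)) (dl i m) + if i = j then m else 0
  dl_mem : ∀ p i, ∀ m ∈ Mp (p + 1), dl i m ∈ Mp p
  dl_zero : ∀ i, ∀ m ∈ Mp 0, dl i m = 0
  euler : ∀ p, ∀ m ∈ Mp p, ∑ i, ρ (A.x (X.eb i)) (dl i m) = (p : ℂ) • m
  tr : ∀ p w, LinearMap.trace ℂ (Mp p) ((ρ (A.g w)).restrict (g_mem p w)) = X.hk p w * χ w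
  cent : ∀ z ∈ Subalgebra.center ℂ A.H, ∀ ζ ∈ Subalgebra.center ℂ X.GA, z - A.gl ζ ∈ A.LY →
    ∀ m, ρ z m = (chx χ ζ / χ 1) • m

attribute [instance] Std.grp Std.mod

section Weights

variable {α τ R : Type} [CommRing R]

/-- remove one entry and reflect the later ones -/
def pick (b : α → R) (r : α → α) : List α → List (R × List α)
  | [] => []
  | c :: l => (b c, l.map r) :: (pick b r l).map fun p => (p.1, c :: p.2)

/-- the weight of a sequence of reflections in `(x a + y a) ^ m` -/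
def wgt (b : τ → α → R) (r : τ → α → α) (a : α) : ℕ → List α → List τ → R
  | 0, l, ts => if l.isEmpty && ts.isEmpty then 1 else 0
  | m + 1, l, [] => wgt b r a m (a :: l) []
  | m + 1, l, t :: ts => wgt b r a m (a :: l) (t :: ts) +
      b t a * ((pick (b t) (r t) l).map fun p => p.1 * wgt b r a m p.2 ts).sum

end Weights

namespace Cox

variable (X : Cox)

/-- sequences of reflections -/
def seqs : ℕ → Finset (List X.W)
  | 0 => {[]}
  | k + 1 => (X.refls ×ˢ seqs k).image fun p => p.1 :: p.2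

/-- the weight of a sequence of reflections -/
def wg (a : X.Vc) (m : ℕ) (l : List X.Vc) (ts : List X.W) : ℂ :=
  wgt (fun t v => X.BK ℂ (X.rc t) v) (fun t v => X.σK ℂ t *ᵥ v) a m l ts

/-- the image in the group algebra of the central element `∑ (x_t + y_t) ^ (2 k)` -/
def zeta (k : ℕ) : X.GA :=
  ∑ a ∈ X.refls, ∑ ts ∈ X.seqs k,
    X.wg (X.rc a) (2 * k) [] ts • MonoidAlgebra.of ℂ X.W ts.reverse.prod

end Cox

end

end Pool.Agent.P.MP_1a0ecf_al
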