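import Pool.Agent.P.MP_1a0ecf_al.K9
import Pool.Agent.P.MP_1a0ecf_al.Defs

/-! Package KT: transfer to the Hecke algebra of the statement. -/

namespace Pool.Agent.P.MP_1a0ecf_al

open scoped Classical

noncomputable section

variable {X : Cox} {Γ : AddSubgroup ℝ} {H : Type} [Ring H] [Algebra (AddMonoidAlgebra ℤ Γ) H]
  {T C : Module.Basis X.W (AddMonoidAlgebra ℤ Γ) H} {bar : H →+* H} {L : Fin X.n → Γ}

namespace KT

/-- the map `v ↦ v ^ γ` -/
def ph (γ : Γ) : Lp →+* AddMonoidAlgebra ℤ Γ :=
  AddMonoidAlgebra.mapDomainRingHom ℤ (zmultiplesHom Γ γ)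

/-- the bar involution on coefficients -/
def bA (Γ : AddSubgroup ℝ) : AddMonoidAlgebra ℤ Γ →+* AddMonoidAlgebra ℤ Γ :=
  AddMonoidAlgebra.mapDomainRingHom ℤ (negAddMonoidHom : Γ →+ Γ)

theorem ph_coeff (γ : Γ) (r : Lp) :
    (ph γ r).coeff = Finsupp.mapDomain (fun k : ℤ => k • γ) r.coeff := rfl

theorem bA_coeff' (a : AddMonoidAlgebra ℤ Γ) :
    (bA Γ a).coeff = Finsupp.mapDomain (fun k : Γ => -k) a.coeff := rfl

theorem ph_single (γ : Γ) (k a : ℤ) :
    ph γ (AddMonoidAlgebra.single k a) = AddMonoidAlgebra.single (k • γ) a :=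
  AddMonoidAlgebra.mapDomain_single

theorem bA_single (δ : Γ) (a : ℤ) :
    bA Γ (AddMonoidAlgebra.single δ a) = AddMonoidAlgebra.single (-δ) a :=
  AddMonoidAlgebra.mapDomain_single

theorem ph_q (γ : Γ) : ph γ (LaurentPolynomial.T 1 - LaurentPolynomial.T (-1)) =
    AddMonoidAlgebra.single γ 1 - AddMonoidAlgebra.single (-γ) 1 := by
  rw [map_sub, LaurentPolynomial.T, LaurentPolynomial.T, ph_single, ph_single, one_smul,
    neg_smul, one_smul]

theorem smul_inj {γ : Γ} (hγ : 0 < (γ : ℝ)) : Function.Injective fun k : ℤ => k • γ := by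
  intro k l h
  have h1 : (k : ℝ) * γ = l * γ := by
    have := congrArg (fun x : Γ => (x : ℝ)) h
    simpa using this
  exact_mod_cast mul_right_cancel₀ hγ.ne' h1

theorem ph_inj {γ : Γ} (hγ : 0 < (γ : ℝ)) : Function.Injective (ph γ) :=
  AddMonoidAlgebra.mapDomain_injective (smul_inj hγ)

theorem ph_neg {γ : Γ} (hγ : 0 < (γ : ℝ)) {r : Lp} (hr : DegLe r (-1)) (δ : Γ)
    (hδ : 0 ≤ (δ : ℝ)) : (ph γ r).coeff δ = 0 := by
  rw [ph_coeff]
  by_cases h : δ ∈ Set.range fun k : ℤ => k • γ
  · obtain ⟨k, rfl⟩ := h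
    rw [Finsupp.mapDomain_apply (smul_inj hγ)]
    refine hr k ?_
    have h1 : 0 ≤ (k : ℝ) * γ := by simpa using hδ
    have h2 : (0 : ℝ) ≤ k := nonneg_of_mul_nonneg_left h1 hγ
    have h3 : 0 ≤ k := by exact_mod_cast h2
    omega
  · exact Finsupp.mapDomain_of_notMem_range _ _ h

theorem ph_sum (γ : Γ) (r : Lp) : ((ph γ r).coeff.sum fun _ a => (a : ℂ)) = ev1 r := by
  rw [ph_coeff, ev1_eq_sum, Finsupp.sum_mapDomain_index (by simp) (by simp)]

theorem bA_coeff (a : AddMonoidAlgebra ℤ Γ) (δ : Γ) : (bA Γ a).coeff δ = a.coeff (-δ) := by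
  rw [bA_coeff']
  conv_lhs => rw [← neg_neg δ]
  exact Finsupp.mapDomain_apply neg_injective _ _

theorem bA_ph (γ : Γ) (r : Lp) : bA Γ (ph γ r) = ph γ (LaurentPolynomial.invert r) := by
  induction r using AddMonoidAlgebra.induction_linear with
  | zero => simp
  | add a b ha hb => simp only [map_add, ha, hb]
  | single k a =>
    have : LaurentPolynomial.invert (AddMonoidAlgebra.single k a : Lp) =
        AddMonoidAlgebra.single (-k) a := AddMonoidAlgebra.domCongr_single ..
    rw [this, ph_single, ph_single, bA_single, neg_smul]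

theorem bar_smul (hb : IsBar T bar) (a : AddMonoidAlgebra ℤ Γ) (h : H) :
    bar (a • h) = bA Γ a • bar h := by
  induction a using AddMonoidAlgebra.induction_linear with
  | zero => simp
  | add a b ha hb => simp only [map_add, add_smul, ha, hb]
  | single δ m =>
    have e : ∀ ε : Γ, (AddMonoidAlgebra.single ε m : AddMonoidAlgebra ℤ Γ) =
        m • AddMonoidAlgebra.single ε 1 := fun ε => by
      rw [AddMonoidAlgebra.smul_single, smul_eq_mul, mul_one]
    rw [bA_single, e δ, e (-δ), smul_assoc, smul_assoc, map_zsmul, hb.1]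

theorem eq_zero_of_bA {a : AddMonoidAlgebra ℤ Γ} (h : bA Γ a = a)
    (h0 : ∀ δ : Γ, 0 ≤ (δ : ℝ) → a.coeff δ = 0) : a = 0 := by
  refine AddMonoidAlgebra.coeff_injective (Finsupp.ext fun δ => ?_)
  rcases le_total 0 (δ : ℝ) with hδ | hδ
  · exact h0 δ hδ
  · rw [← h, bA_coeff]
    exact h0 (-δ) (by simpa using hδ)

/-- uniqueness of bar invariant elements with negative exponents -/
theorem uniq (hb : IsBar T bar)
    (htri : ∀ y w, T.repr (bar (T y) - T y) w ≠ 0 → X.len w < X.len y) {h : H} (h1 : bar h = h)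
    (h2 : ∀ y (δ : Γ), 0 ≤ (δ : ℝ) → (T.repr h y).coeff δ = 0) : h = 0 := by
  by_contra hne
  have hS : (T.repr h).support.Nonempty := by
    rw [Finsupp.support_nonempty_iff]
    exact fun e => hne (T.repr.map_eq_zero_iff.1 e)
  obtain ⟨w, hw, hmax⟩ := Finset.exists_max_image _ X.len hS
  refine Finsupp.mem_support_iff.1 hw (eq_zero_of_bA ?_ (h2 w))
  have e1 : bar h = ∑ y, bA Γ (T.repr h y) • T y +
      ∑ y, bA Γ (T.repr h y) • (bar (T y) - T y) := by
    conv_lhs => rw [← T.sum_repr h]
    rw [map_sum, ← Finset.sum_add_distrib]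
    refine Finset.sum_congr rfl fun y _ => ?_
    rw [bar_smul hb, ← smul_add, add_sub_cancel]
  have e2 : T.repr (∑ y, bA Γ (T.repr h y) • (bar (T y) - T y)) w = 0 := by
    rw [map_sum, Finsupp.finsetSum_apply]
    refine Finset.sum_eq_zero fun y _ => ?_
    rw [map_smul, Finsupp.smul_apply, smul_eq_mul]
    by_cases hy : T.repr h y = 0
    · rw [hy, map_zero, zero_mul]
    · by_cases hy' : T.repr (bar (T y) - T y) w = 0
      · rw [hy', mul_zero]
      · exact absurd (hmax y (Finsupp.mem_support_iff.2 hy)) (not_le.2 (htri y w hy'))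
  have e3 : T.repr (bar h) w = bA Γ (T.repr h w) := by
    rw [e1, map_add, Finsupp.add_apply, e2, add_zero, T.repr_sum_self]
  rw [← e3, h1]

theorem len_ind {P : X.W → Prop} (h1 : P 1)
    (hs : ∀ w i, X.len w < X.len (w * X.s i) → P w → P (w * X.s i)) (w : X.W) : P w := by
  induction hn : X.len w using Nat.strong_induction_on generalizing w with
  | _ n ih =>
    by_cases hw : w = 1
    · exact hw ▸ h1
    · obtain ⟨i, hi⟩ := X.cs.exists_rightDescent_of_ne_one hw
      have e : w * X.s i * X.s i = w := by simp [mul_assoc]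
      have hi' : X.len (w * X.s i) < X.len w := hi
      rw [← e]
      exact hs _ i (by rwa [e]) (ih _ (hn ▸ hi') _ rfl)

/-- the Hecke algebra over Laurent polynomials inside `H` -/
theorem exists_emb {γ : Γ} (hγ : 0 < (γ : ℝ)) (hL : ∀ i, L i = γ) (hT : IsHecke X.cs L T)
    (hb : IsBar T bar) : ∃ (D : Hk X) (j : D.H →+* H), (∀ r a, j (r • a) = ph γ r • j a) ∧
      (∀ w, j (D.T w) = T w) ∧ ∀ a, j (D.bar a) = bar (j a) := by
  let _ : Algebra Lp H := Algebra.compHom H (ph γ)
  have hsm : ∀ (r : Lp) (a : H), r • a = ph γ r • a := fun _ _ => rfl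
  have up : ∀ x i, X.len x < X.len (x * X.s i) → T x * T (X.s i) = T (x * X.s i) :=
    fun x i h => by rw [hT.2, if_pos h, add_zero]
  have down : ∀ x i, X.len (x * X.s i) < X.len x → T x * T (X.s i) = T (x * X.s i) +
      (LaurentPolynomial.T 1 - LaurentPolynomial.T (-1) : Lp) • T x :=
    fun x i h => by rw [hT.2, if_neg (not_lt.2 h.le), hL, hsm, ph_q]
  let S : Submodule Lp H := Submodule.span Lp (Set.range T)
  have hTS : ∀ w, T w ∈ S := fun w => Submodule.subset_span ⟨w, rfl⟩
  have h1S : (1 : H) ∈ S := hT.1 ▸ hTS 1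
  have m1 : ∀ i, ∀ a ∈ S, a * T (X.s i) ∈ S := fun i a ha => by
    induction ha using Submodule.span_induction with
    | mem a ha =>
      obtain ⟨x, rfl⟩ := ha
      rcases lt_or_gt_of_ne (X.cs.length_mul_simple_ne x i) with h | h
      · rw [down x i h]
        exact S.add_mem (hTS _) (S.smul_mem _ (hTS _))
      · rw [up x i h]
        exact hTS _
    | zero => rw [zero_mul]; exact S.zero_mem
    | add a b _ _ ha hb => rw [add_mul]; exact S.add_mem ha hb
    | smul r a _ ha => rw [smul_mul_assoc]; exact S.smul_mem r ha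
  have m2 : ∀ w, ∀ a ∈ S, a * T w ∈ S := fun w => by
    induction w using len_ind with
    | h1 => intro a ha; rwa [hT.1, mul_one]
    | hs w i h ih => intro a ha; rw [← up w i h, ← mul_assoc]; exact m1 i _ (ih a ha)
  have m3 : ∀ a b, a ∈ S → b ∈ S → a * b ∈ S := fun a b ha hb' => by
    induction hb' using Submodule.span_induction with
    | mem b hb' => obtain ⟨x, rfl⟩ := hb'; exact m2 x a ha
    | zero => rw [mul_zero]; exact S.zero_mem
    | add b c _ _ h h' => rw [mul_add]; exact S.add_mem h h'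
    | smul r b _ h => rw [mul_smul_comm]; exact S.smul_mem r h
  have bsm : ∀ (r : Lp) (a : H), bar (r • a) = LaurentPolynomial.invert r • bar a :=
    fun r a => by rw [hsm, hsm, bar_smul hb, bA_ph]
  have b1 : ∀ i, bar (T (X.s i)) ∈ S := fun i => by
    have e1 := hb.2 (X.s i)
    rw [X.cs.inv_simple] at e1
    have e2 := down (X.s i) i (by simp)
    rw [X.cs.simple_mul_simple_self, hT.1] at e2
    have e3 : T (X.s i) * (T (X.s i) -
        (LaurentPolynomial.T 1 - LaurentPolynomial.T (-1) : Lp) • (1 : H)) = 1 := by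
      rw [mul_sub, e2, mul_smul_comm, mul_one, add_sub_cancel_right]
    rw [left_inv_eq_right_inv e1 e3]
    exact S.sub_mem (hTS _) (S.smul_mem _ h1S)
  have b2 : ∀ w, bar (T w) ∈ S := fun w => by
    induction w using len_ind with
    | h1 => rwa [hT.1, map_one]
    | hs w i h ih => rw [← up w i h, map_mul]; exact m3 _ _ ih (b1 i)
  have b3 : ∀ a ∈ S, bar a ∈ S := fun a ha => by
    induction ha using Submodule.span_induction with
    | mem a ha => obtain ⟨x, rfl⟩ := ha; exact b2 x
    | zero => rw [map_zero]; exact S.zero_mem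
    | add a b _ _ h h' => rw [map_add]; exact S.add_mem h h'
    | smul r a _ h => rw [bsm]; exact S.smul_mem _ h
  let H' : Subalgebra Lp H := S.toSubalgebra h1S m3
  let t : X.W → H' := fun w => ⟨T w, hTS w⟩
  have li : LinearIndependent Lp t := by
    rw [Fintype.linearIndependent_iff]
    intro g hg w
    have e : ∑ w, ph γ (g w) • T w = 0 := by
      have := congrArg H'.val hg
      rw [map_sum, map_zero] at this
      exact this
    exact ph_inj hγ ((Fintype.linearIndependent_iff.1 T.linearIndependent _ e w).trans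
      (map_zero _).symm)
  have sp : ⊤ ≤ Submodule.span Lp (Set.range t) := by
    rintro ⟨a, ha⟩ -
    induction ha using Submodule.span_induction with
    | mem a ha => obtain ⟨x, rfl⟩ := ha; exact Submodule.subset_span ⟨x, rfl⟩
    | zero => exact Submodule.zero_mem _
    | add a b ha hb' h h' => exact Submodule.add_mem _ h h'
    | smul r a ha h => exact Submodule.smul_mem _ r h
  let bar' : H' →+* H' := (bar.comp H'.val.toRingHom).codRestrict H' fun a => b3 a a.2
  refine ⟨{ H := H'
            T := Module.Basis.mk li sp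
            T_one := ?_
            T_up := fun x i h => ?_
            T_down := fun x i h => ?_
            bar := bar'
            bar_smul := fun r a => Subtype.ext (bsm r a)
            bar_T := fun x => ?_ }, H'.val.toRingHom, fun _ _ => rfl, fun w => ?_, fun _ => rfl⟩
  · rw [Module.Basis.mk_apply]
    exact Subtype.ext hT.1
  · simp only [Module.Basis.mk_apply]
    exact Subtype.ext (up x i h)
  · simp only [Module.Basis.mk_apply]
    exact Subtype.ext (down x i h)
  · simp only [Module.Basis.mk_apply]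
    exact Subtype.ext (hb.2 x)
  · simp only [Module.Basis.mk_apply]
    rfl

theorem repr_emb {γ : Γ} {H' : Type} [Ring H'] [Algebra Lp H'] {j : H' →+* H}
    (hj : ∀ (r : Lp) a, j (r • a) = ph γ r • j a) (b : Module.Basis X.W Lp H')
    (b' : Module.Basis X.W (AddMonoidAlgebra ℤ Γ) H) (h : ∀ w, j (b w) = b' w) (a : H') (w : X.W) :
    b'.repr (j a) w = ph γ (b.repr a w) := by
  conv_lhs => rw [← b.sum_repr a]
  simp only [map_sum j, hj, h]
  rw [b'.repr_sum_self]

end KT

open KT

theorem transfer_pos {γ : Γ} (hγ : 0 < (γ : ℝ)) (hL : ∀ i, L i = γ) (hT : IsHecke X.cs L T)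
    (hb : IsBar T bar) (hC : IsKL T bar C) : ∃ D : KD X, ∀ (d d' : ℕ)
      (π : Representation ℂ X.W (Fin d → ℂ)) (π' : Representation ℂ X.W (Fin d' → ℂ)),
      (∃ z, Occurs T C z π ∧ Occurs T C z π') ↔ D.Rel π.character π'.character := by
  obtain ⟨D₀, h₀⟩ := KT.exists_emb hγ hL hT hb
  obtain ⟨D, rfl⟩ := D₀.exists_KD
  obtain ⟨j, j1, j2, j3⟩ := h₀
  have rT := repr_emb j1 D.T T j2
  have htri : ∀ y w, T.repr (bar (T y) - T y) w ≠ 0 → X.len w < X.len y := fun y w h => by
    rw [← j2, ← j3, ← map_sub, rT] at h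
    exact D.toHk.bar_T_tri y w fun e => h (by rw [Hk.co] at e; rw [e, map_zero])
  have jC : ∀ x, j (D.C x) = C x := fun x => by
    refine (sub_eq_zero.1 (uniq hb htri (h := C x - j (D.C x)) ?_ fun y δ hδ => ?_)).symm
    · rw [map_sub, (hC x).1, ← j3, (D.kl x).1]
    · have e : C x - j (D.C x) = (C x - T x) - j (D.C x - D.T x) := by
        rw [map_sub, j2]; abel
      rw [e, map_sub, Finsupp.sub_apply, AddMonoidAlgebra.coeff_sub, Finsupp.sub_apply,
        (hC x).2 y δ hδ, rT, ph_neg hγ ((D.kl x).2.1 y) δ hδ, sub_zero]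
  have rC := repr_emb j1 D.C C jC
  have hLR : ∀ x y, LeLR C x y ↔ D.L2 x y := fun x y => by
    constructor
    · intro h
      induction h with
      | refl => exact D.L2_refl x
      | @tail y z _ h ih =>
        refine ih.trans ?_
        obtain ⟨a, a', h⟩ := h
        by_contra hn
        refine h ?_
        have e : ∀ u v, C.repr (T u * C z * T v) y = 0 := fun u v => by
          rw [← j2, ← j2, ← jC, ← map_mul, ← map_mul, rC]
          by_contra hc
          exact hn (KD.L2_iff.2 ⟨_, _, fun e => hc (by rw [e, map_zero])⟩)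
        rw [← T.sum_repr a, ← T.sum_repr a']
        simp only [Finset.sum_mul, Finset.mul_sum, smul_mul_assoc, mul_smul_comm, map_sum,
          map_smul, Finsupp.finsetSum_apply, Finsupp.smul_apply, e, smul_zero,
          Finset.sum_const_zero]
    · intro h
      obtain ⟨a, b, h⟩ := KD.L2_iff.1 h
      refine Relation.ReflTransGen.single ⟨j a, j b, ?_⟩
      rw [← jC, ← map_mul, ← map_mul, rC]
      exact fun e => h (ph_inj hγ (e.trans (map_zero _).symm))
  have hocc : ∀ (d : ℕ) (π : Representation ℂ X.W (Fin d → ℂ)) z,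
      Occurs T C z π ↔ D.Fam z π.character := fun d π z => by
    have e1 : ∀ y, (LeLR C y z ∧ LeLR C z y) ↔ y ∈ D.tc z := fun y => by
      simp [KD.tc, hLR]
    have e2 : ∀ w x y, ((C.repr (T w * C y) x).coeff.sum fun _ a => (a : ℂ)) =
        ev1 (D.tm w x y) := fun w x y => by
      rw [← j2, ← jC, ← map_mul, rC, ph_sum]
    rw [KD.Fam, ← (D.cvx_tc z).occurs_iff π, Occurs]
    simp only [e1, e2]
  exact ⟨D, fun d d' π π' => by simp only [hocc, KD.Rel]⟩

theorem transfer_zero (hL : ∀ i, L i = 0) (hT : IsHecke X.cs L T) (hb : IsBar T bar)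
    (hC : IsKL T bar C) {d : ℕ} (π : Representation ℂ X.W (Fin d → ℂ)) (hπ : π.IsIrreducible) :
    Occurs T C 1 π := by
  have m1 : ∀ x i, T x * T (X.s i) = T (x * X.s i) := fun x i => by
    rw [hT.2, hL, neg_zero, sub_self, zero_smul, ite_self, add_zero]
  have m2 : ∀ y x, T x * T y = T (x * y) := fun y => by
    induction y using X.cs.simple_induction_right with
    | one => intro x; rw [hT.1, mul_one, mul_one]
    | mul_simple_right y i ih => intro x; rw [← m1, ← mul_assoc, ih, m1, mul_assoc]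
  have b1 : ∀ x, bar (T x) = T x := fun x =>
    left_inv_eq_right_inv (hb.2 x) (by rw [m2, inv_mul_cancel, hT.1])
  have hCT : ∀ x, C x = T x := fun x =>
    sub_eq_zero.1 (uniq hb (fun y w h => absurd (by rw [b1, sub_self, map_zero]; rfl) h)
      (by rw [map_sub, (hC x).1, b1]) (hC x).2)
  have hLR : ∀ x y, LeLR C x y := fun x y =>
    Relation.ReflTransGen.single ⟨T x, T y⁻¹, by
      rw [hCT, m2, m2, mul_inv_cancel_right, ← hCT]
      simp⟩
  have : Nontrivial π.asModule := IsSimpleModule.nontrivial (MonoidAlgebra ℂ X.W) π.asModule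
  have : Nontrivial (Fin d → ℂ) := π.asModuleEquiv.symm.toEquiv.nontrivial
  obtain ⟨v, hv⟩ := exists_ne (0 : Fin d → ℂ)
  obtain ⟨i, hi⟩ := Function.ne_iff.1 hv
  refine ⟨LinearMap.pi fun x => (LinearMap.proj i).comp (π x⁻¹), fun e => hi ?_,
    fun v y h => absurd ⟨hLR _ _, hLR _ _⟩ h, fun w v x _ => ?_⟩
  · have := congrFun (LinearMap.congr_fun e v) 1
    simpa using this
  · rw [Finset.sum_eq_single (w⁻¹ * x)]
    · rw [hCT, m2, mul_inv_cancel_left, ← hCT, C.repr_self, Finsupp.single_eq_same,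
        AddMonoidAlgebra.one_def, AddMonoidAlgebra.coeff_single, Finsupp.sum_single_index (by simp)]
      simp
    · intro y _ hy
      have : w * y ≠ x := fun e => hy (by rw [← e, inv_mul_cancel_left])
      rw [hCT, m2, ← hCT, C.repr_self, Finsupp.single_eq_of_ne this.symm]
      simp
    · exact fun h => absurd (Finset.mem_univ _) h

end

end Pool.Agent.P.MP_1a0ecf_al
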