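import Pool.Agent.P.MP_1a0ecf_al.C0
import Pool.Agent.P.MP_1a0ecf_al.C4
import Pool.Agent.P.MP_1a0ecf_al.KT

/-! Package CF: reduction of the statement to characters. -/

namespace Pool.Agent.P.MP_1a0ecf_al

open Matrix MvPolynomial
open scoped Classical TensorProduct

noncomputable section

/-- Calogero-Moser families are Lusztig families -/
def Cox.Good (X : Cox) : Prop :=
  ∀ (D : KD X) (κ : ℂ), κ ≠ 0 → ∀ (A : CA X κ) (χ χ' : X.W → ℂ), IsIrr χ → IsIrr χ' →
    (A.rel χ χ' ↔ D.Rel χ χ')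

theorem isConj_of_odd {G : Type} [Group G] {a b : G} (ha : a * a = 1) (hb : b * b = 1) (k : ℕ)
    (h : (a * b) ^ (2 * k + 1) = 1) : IsConj a b := by
  have ha' : a⁻¹ = a := inv_eq_of_mul_eq_one_right ha
  have hb' : b⁻¹ = b := inv_eq_of_mul_eq_one_right hb
  have h1 : SemiconjBy a (a * b)⁻¹ (a * b) := by
    rw [SemiconjBy, _root_.mul_inv_rev, ha', hb', mul_assoc]
  have h2 : a * (a * b)⁻¹ ^ k = (a * b) ^ k * a := h1.pow_right k
  have h3 : (a * b) ^ k * (a * b) ^ k = (a * b)⁻¹ := by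
    rw [← pow_add, eq_inv_iff_mul_eq_one, ← pow_succ, ← two_mul, h]
  refine isConj_iff.2 ⟨(a * b) ^ k, ?_⟩
  rw [← inv_pow, mul_assoc, h2, ← mul_assoc, h3, _root_.mul_inv_rev, ha', hb', mul_assoc, ha,
    mul_one]

theorem Cox.isConj_simple (X : Cox) {i j : Fin X.n} (h : X.M i j ≠ 2) :
    IsConj (X.s i) (X.s j) := by
  by_cases hij : i = j
  · rw [hij]
  · have hp := X.cs.simple_mul_simple_pow i j
    rcases X.hM i j hij with h2 | h3 | h5
    · exact absurd h2 h
    · rw [h3] at hp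
      exact isConj_of_odd (X.cs.simple_mul_simple_self i) (X.cs.simple_mul_simple_self j) 1 hp
    · rw [h5] at hp
      exact isConj_of_odd (X.cs.simple_mul_simple_self i) (X.cs.simple_mul_simple_self j) 2 hp

theorem gm_of {n : ℕ} (M : CoxeterMatrix (Fin n))
    (hM : ∀ i j, i ≠ j → M i j = 2 ∨ M i j = 3 ∨ M i j = 5) (i0 : Fin n) (r : Fin n → ℕ)
    (hc : ∀ i, i = i0 ∨ ∃ j, r j < r i ∧ M i j ≠ 2)
    (h : ∀ (W : Type) [Group W] [Fintype W] (cs : CoxeterSystem M W),
      Cox.Good { n := n, M := M, W := W, cs := cs, hM := hM }) : GordonMartino M := by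
  intro W _ _ cs ρ hρ c hc0 hcj H _ _ T C bar hT hb hC d d' π π' hπ hπ'
  let X : Cox := { n := n, M := M, W := W, cs := cs, hM := hM }
  have hs : ∀ i, c (cs.simple i) = c (cs.simple i0) := by
    intro i
    induction hr : r i using Nat.strong_induction_on generalizing i with
    | _ k ih =>
      rcases hc i with e | ⟨j, hj, hne⟩
      · rw [e]
      · obtain ⟨u, hu⟩ := isConj_iff.1 (X.isConj_simple (i := i) (j := j) hne)
        have e : c (cs.simple j) = c (cs.simple i) :=
          (congrArg c hu).symm.trans (hcj _ u (cs.isReflection_simple i))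
        exact e.symm.trans (ih _ (hr ▸ hj) j rfl)
  have hcc : ∀ t, cs.IsReflection t → c t = c (cs.simple i0) := by
    rintro t ⟨w, i, rfl⟩
    exact (hcj _ w (cs.isReflection_simple i)).trans (hs i)
  have key : ∀ c0 : ℝ, c (cs.simple i0) = c0 →
      (SameCM cs ρ c π π' ↔ ∃ z, Occurs T C z π ∧ Occurs T C z π') := by
    intro c0 e0
    obtain ⟨A, hA⟩ := exists_CA X hρ (c := c) (c0 := c0) fun t ht => (hcc t ht).trans e0
    refine (hA d d' π π').trans ((A.same_iff hπ hπ').trans ?_)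
    rcases (e0 ▸ hc0 _ (cs.isReflection_simple i0) : 0 ≤ c0).eq_or_lt with h0 | h0
    · have hL : ∀ i, wt cs c i = 0 := fun i => Subtype.ext ((hs i).trans (e0.trans h0.symm))
      refine iff_of_true ?_ ⟨1, transfer_zero (X := X) hL hT hb hC π hπ,
        transfer_zero (X := X) hL hT hb hC π' hπ'⟩
      have e : ((c0 : ℂ) / 2) = 0 := by simp [← h0]
      have hz : ∀ (κ : ℂ) (A : CA X κ), κ = 0 → A.rel π.character π'.character := by
        rintro κ A rfl
        exact A.rel_of_zero _ _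
      exact hz _ A e
    · have hγ : 0 < ((wt cs c i0 : Gam cs c) : ℝ) := by
        change 0 < c (cs.simple i0)
        rw [e0]
        exact h0
      obtain ⟨D, hD⟩ := transfer_pos (X := X) hγ (fun i => Subtype.ext (hs i)) hT hb hC
      refine Iff.trans ?_ (hD d d' π π').symm
      have hκ : ((c0 : ℂ) / 2) ≠ 0 :=
        div_ne_zero (Complex.ofReal_ne_zero.2 h0.ne') two_ne_zero
      exact h W cs D _ hκ A _ _ ⟨d, π, hπ, rfl⟩ ⟨d', π', hπ', rfl⟩
  exact key _ rfl

end

end Pool.Agent.P.MP_1a0ecf_al
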