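import Pool.Agent.P.MP_1a0ecf_al.C0
import Pool.Agent.P.MP_1a0ecf_al.C3

/-! Package CZ: the central elements `zeta k`. -/

namespace Pool.Agent.P.MP_1a0ecf_al

open Matrix MvPolynomial
open scoped Classical TensorProduct

noncomputable section

theorem cz_pick_len {α R : Type} (b : α → R) (r : α → α) (l : List α) :
    ∀ p ∈ pick b r l, p.2.length + 1 = l.length := by
  induction l with
  | nil => simp [pick]
  | cons c l ih =>
    intro p hp
    simp only [pick, List.mem_cons, List.mem_map] at hp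
    rcases hp with rfl | ⟨q, hq, rfl⟩
    · simp
    · simp [ih q hq]

theorem cz_pick_map {α R α' R' : Type} {b : α → R} {r : α → α} {b' : α' → R'} {r' : α' → α'}
    (f : α' → α) (φ : R' → R) {Ga : α' → Prop} (hb : ∀ c, Ga c → b (f c) = φ (b' c))
    (hr : ∀ c, Ga c → Ga (r' c) ∧ r (f c) = f (r' c)) {l : List α'} (hl : ∀ c ∈ l, Ga c) :
    pick b r (l.map f) = (pick b' r' l).map (fun p => (φ p.1, p.2.map f)) ∧
      ∀ p ∈ pick b' r' l, ∀ c ∈ p.2, Ga c := by
  induction l with
  | nil => simp [pick]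
  | cons c l ih =>
    have hc := hl c List.mem_cons_self
    have hl' : ∀ c ∈ l, Ga c := fun x hx => hl x (List.mem_cons_of_mem _ hx)
    obtain ⟨i1, i2⟩ := ih hl'
    constructor
    · have e : (l.map f).map r = (l.map r').map f := by
        rw [List.map_map, List.map_map]
        exact List.map_congr_left fun x hx => (hr x (hl' x hx)).2
      simp only [List.map_cons, pick]
      rw [i1, hb c hc, e]
      simp only [List.map_map]
      rfl
    · intro p hp x hx
      simp only [pick, List.mem_cons, List.mem_map] at hp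
      rcases hp with rfl | ⟨q, hq, rfl⟩
      · obtain ⟨y, hy, rfl⟩ := List.mem_map.1 hx
        exact (hr y (hl' y hy)).1
      · rcases List.mem_cons.1 hx with rfl | hx
        · exact hc
        · exact i2 q hq x hx

theorem cz_sum_zero {β R : Type} [CommRing R] {L : List β} {F : β → R} (h : ∀ p ∈ L, F p = 0) :
    (L.map F).sum = 0 :=
  List.sum_eq_zero fun x hx => by
    obtain ⟨p, hp, rfl⟩ := List.mem_map.1 hx
    exact h p hp

theorem wgt_map {α τ R α' τ' R' : Type} [CommRing R] [CommRing R'] {b : τ → α → R}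
    {r : τ → α → α} {b' : τ' → α' → R'} {r' : τ' → α' → α'} (f : α' → α) (g : τ' → τ)
    (φ : R' →+* R) {Ga : α' → Prop} {Gt : τ' → Prop}
    (hb : ∀ t c, Gt t → Ga c → b (g t) (f c) = φ (b' t c))
    (hr : ∀ t c, Gt t → Ga c → Ga (r' t c) ∧ r (g t) (f c) = f (r' t c)) {a : α'} (ha : Ga a)
    (m : ℕ) {l : List α'} (hl : ∀ c ∈ l, Ga c) {ts : List τ'} (ht : ∀ t ∈ ts, Gt t) :
    wgt b r (f a) m (l.map f) (ts.map g) = φ (wgt b' r' a m l ts) := by
  induction m generalizing l ts with
  | zero =>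
    cases l <;> cases ts <;> simp [wgt]
  | succ m ih =>
    have hl' : ∀ c ∈ a :: l, Ga c := fun c hc => by
      rcases List.mem_cons.1 hc with rfl | hc
      exacts [ha, hl c hc]
    cases ts with
    | nil => exact ih hl' ht
    | cons t ts =>
      have h0 := ht t List.mem_cons_self
      have ht' : ∀ t ∈ ts, Gt t := fun x hx => ht x (List.mem_cons_of_mem _ hx)
      obtain ⟨i1, i2⟩ := cz_pick_map (b := b (g t)) (r := r (g t)) (b' := b' t) (r' := r' t) f φ
        (fun c hc => hb t c h0 hc) (fun c hc => hr t c h0 hc) hl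
      have e := ih hl' ht
      simp only [List.map_cons] at e ⊢
      rw [wgt, wgt, e, map_add, map_mul, hb t a h0 ha, i1, map_list_sum, List.map_map,
        List.map_map]
      congr 3
      refine List.map_congr_left fun p hp => ?_
      simp only [Function.comp_apply, map_mul]
      rw [ih (i2 p hp) ht']

theorem wgt_eq_zero {α τ R : Type} [CommRing R] (b : τ → α → R) (r : τ → α → α) (a : α) {m : ℕ}
    {l : List α} {ts : List τ} (h : m + l.length ≠ 2 * ts.length) : wgt b r a m l ts = 0 := by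
  induction m generalizing l ts with
  | zero =>
    cases l <;> cases ts <;> simp_all [wgt]
  | succ m ih =>
    have h1 : m + (a :: l).length ≠ 2 * ts.length := by
      rw [List.length_cons]; omega
    cases ts with
    | nil => exact ih h1
    | cons t ts =>
      rw [wgt, ih h1, zero_add, cz_sum_zero, mul_zero]
      intro p hp
      have := cz_pick_len _ _ _ p hp
      rw [List.length_cons] at h
      rw [ih (by omega), mul_zero]

theorem wgt_eq_zero' {α τ R : Type} [CommRing R] (b : τ → α → R) (r : τ → α → α) (a : α) (m : ℕ)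
    (l : List α) {ts : List τ} {t : τ} (ht : t ∈ ts) (h : b t a = 0) :
    wgt b r a m l ts = 0 := by
  induction m generalizing l ts with
  | zero =>
    cases ts with
    | nil => simp at ht
    | cons t' ts => simp [wgt]
  | succ m ih =>
    cases ts with
    | nil => simp at ht
    | cons t' ts =>
      rw [wgt, ih _ ht, zero_add]
      rcases List.mem_cons.1 ht with rfl | ht'
      · rw [h, zero_mul]
      · rw [cz_sum_zero, mul_zero]
        intro p _
        rw [ih _ ht', mul_zero]

theorem cz_short {α τ R : Type} [CommRing R] (b : τ → α → R) (r : τ → α → α) (a : α) {m : ℕ}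
    (l : List α) {ts : List τ} (h : m < ts.length) : wgt b r a m l ts = 0 := by
  induction m generalizing l ts with
  | zero =>
    cases ts with
    | nil => simp at h
    | cons t' ts => simp [wgt]
  | succ m ih =>
    cases ts with
    | nil => simp at h
    | cons t' ts =>
      rw [wgt, ih _ (by omega), zero_add, cz_sum_zero, mul_zero]
      intro p _
      rw [List.length_cons] at h
      rw [ih _ (by omega), mul_zero]

namespace Cox

variable (X : Cox)

theorem mem_seqs {k : ℕ} {ts : List X.W} :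
    ts ∈ X.seqs k ↔ ts.length = k ∧ ∀ t ∈ ts, X.cs.IsReflection t := by
  induction k generalizing ts with
  | zero =>
    rw [seqs, Finset.mem_singleton, List.length_eq_zero_iff]
    exact ⟨fun h => ⟨h, by simp [h]⟩, fun h => h.1⟩
  | succ k ih =>
    rw [seqs, Finset.mem_image]
    constructor
    · rintro ⟨⟨t, l⟩, hp, rfl⟩
      obtain ⟨h1, h2⟩ := Finset.mem_product.1 hp
      obtain ⟨h3, h4⟩ := ih.1 h2
      refine ⟨by simp only [List.length_cons]; rw [h3], fun u hu => ?_⟩
      rcases List.mem_cons.1 hu with rfl | hu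
      exacts [X.mem_refls.1 h1, h4 u hu]
    · rintro ⟨h1, h2⟩
      cases ts with
      | nil => simp at h1
      | cons t l =>
        refine ⟨(t, l), Finset.mem_product.2 ⟨X.mem_refls.2 (h2 t List.mem_cons_self),
          ih.2 ⟨by simpa using h1, fun u hu => h2 u (List.mem_cons_of_mem _ hu)⟩⟩, rfl⟩

theorem cz_sum_succ {N : Type} [AddCommMonoid N] (k : ℕ) (F : List X.W → N) :
    ∑ ts ∈ X.seqs (k + 1), F ts = ∑ t ∈ X.refls, ∑ ts ∈ X.seqs k, F (t :: ts) := by
  rw [seqs, Finset.sum_image, Finset.sum_product]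
  intro p _ q _ h
  exact Prod.ext (List.cons.inj h).1 (List.cons.inj h).2

theorem zeta_coeff (k : ℕ) (w : X.W) : (X.zeta k).coeff w =
    ∑ a ∈ X.refls, ∑ ts ∈ X.seqs k with ts.reverse.prod = w, X.wg (X.rc a) (2 * k) [] ts := by
  simp [zeta, MonoidAlgebra.coeff_sum, Finset.sum_filter, Finsupp.single_apply]

theorem cz_supp (J : List (Fin X.n)) (v : Fin X.n → ℝ) {i : Fin X.n} (hi : i ∉ J) :
    (X.σ (X.cs.wordProd J) *ᵥ v) i = v i := by
  induction J with
  | nil => rw [X.cs.wordProd_nil, G3.mv_one]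
  | cons j J ih =>
    rw [List.mem_cons, not_or] at hi
    rw [X.cs.wordProd_cons, G3.mv_mul, X.σ_simple_mulVec, Pi.sub_apply, ih hi.2]
    simp [hi.1]

theorem cz_fix {J : List (Fin X.n)} (hJ : J.Nodup) {v : Fin X.n → ℝ}
    (h : X.σ (X.cs.wordProd J) *ᵥ v = v) : ∀ j ∈ J, (X.K *ᵥ v) j = 0 := by
  induction J with
  | nil => simp
  | cons j J ih =>
    obtain ⟨h1, h2⟩ := List.nodup_cons.1 hJ
    have e : X.σ (X.cs.wordProd J) *ᵥ v = X.σ (X.s j) *ᵥ v := by
      conv_rhs => rw [← h, X.cs.wordProd_cons, ← G3.mv_mul, ← mul_assoc,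
        X.cs.simple_mul_simple_self, one_mul]
    have e1 := X.cz_supp J v h1
    rw [e, X.σ_simple_mulVec] at e1
    have e2 : X.B (X.al j) v = 0 := by simpa using e1
    rw [X.σ_simple_mulVec, e2, zero_smul, sub_zero] at e
    intro i hi
    rcases List.mem_cons.1 hi with rfl | hi
    · rwa [Cox0.B, single_dotProduct, one_mul] at e2
    · exact ih h2 e i hi

theorem cz_ker {ts : List X.W} (hts : ∀ t ∈ ts, X.cs.IsReflection t) {v : Fin X.n → ℝ}
    (h : ∀ t ∈ ts, X.B (X.rt t) v = 0) : X.σ ts.reverse.prod *ᵥ v = v := by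
  induction ts with
  | nil => exact G3.mv_one X v
  | cons t ts ih =>
    rw [List.reverse_cons, List.prod_append, List.prod_singleton, G3.mv_mul,
      X.σ_refl (hts t List.mem_cons_self), h t List.mem_cons_self, zero_smul, sub_zero]
    exact ih (fun u hu => hts u (List.mem_cons_of_mem _ hu))
      fun u hu => h u (List.mem_cons_of_mem _ hu)

theorem top_supp {J : List (Fin X.n)} (hJ : J.Nodup) {ts : List X.W}
    (hts : ts ∈ X.seqs J.length) (h : ts.reverse.prod = X.cs.wordProd J) :
    ∀ t ∈ ts, ∀ i, i ∉ J → X.rt t i = 0 := by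
  obtain ⟨hlen, hr⟩ := X.mem_seqs.1 hts
  have hK : ∀ y : Fin X.n → ℝ, X.K *ᵥ (X.K⁻¹ *ᵥ y) = y := fun y => by
    rw [mulVec_mulVec, mul_nonsing_inv _ (isUnit_iff_ne_zero.2 X.K_det_ne), one_mulVec]
  let f : (Fin X.n → ℝ) →ₗ[ℝ] (Fin ts.length → ℝ) :=
    Matrix.mulVecLin (Matrix.of fun k => X.rt (ts.get k)) ∘ₗ Matrix.mulVecLin X.K
  let g : (Fin X.n → ℝ) →ₗ[ℝ] (Fin J.length → ℝ) :=
    LinearMap.funLeft ℝ ℝ J.get ∘ₗ Matrix.mulVecLin X.K
  have hf : ∀ v k, f v k = X.B (X.rt (ts.get k)) v := fun v k => rfl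
  have hg : ∀ v k, g v k = (X.K *ᵥ v) (J.get k) := fun v k => rfl
  have hsurj : Function.Surjective g :=
    (LinearMap.funLeft_surjective_of_injective ℝ ℝ J.get
      (List.nodup_iff_injective_get.1 hJ)).comp fun y => ⟨X.K⁻¹ *ᵥ y, hK y⟩
  have hle : LinearMap.ker f ≤ LinearMap.ker g := fun v hv => by
    have h1 : ∀ t ∈ ts, X.B (X.rt t) v = 0 := fun t ht => by
      obtain ⟨k, rfl⟩ := List.mem_iff_get.1 ht
      rw [← hf, LinearMap.mem_ker.1 hv]
      rfl
    have h2 := X.cz_ker hr h1
    rw [h] at h2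
    refine LinearMap.mem_ker.2 (funext fun k => ?_)
    rw [hg]
    exact X.cz_fix hJ h2 _ (List.get_mem _ _)
  have d1 := LinearMap.finrank_range_add_finrank_ker f
  have d2 := LinearMap.finrank_range_add_finrank_ker g
  have d3 := Submodule.finrank_le (LinearMap.range f)
  rw [LinearMap.range_eq_top.2 hsurj, finrank_top, Module.finrank_fin_fun] at d2
  rw [Module.finrank_fin_fun] at d3
  have heq : LinearMap.ker f = LinearMap.ker g :=
    Submodule.eq_of_le_of_finrank_le hle (by omega)
  intro t ht i hi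
  obtain ⟨k, rfl⟩ := List.mem_iff_get.1 ht
  have h3 : X.K⁻¹ *ᵥ Pi.single i 1 ∈ LinearMap.ker g := by
    refine LinearMap.mem_ker.2 (funext fun k => ?_)
    rw [hg, hK]
    exact Pi.single_eq_of_ne (fun e => hi (by rw [← e]; exact List.get_mem _ _)) _
  rw [← heq] at h3
  have h4 := congrFun (LinearMap.mem_ker.1 h3) k
  rw [hf, Cox0.B, hK, dotProduct_single_one] at h4
  exact h4

end Cox

namespace CA

variable {X : Cox} {κ : ℂ} (A : CA X κ)

theorem cz_g_prod (w : X.W) (l : List X.Vc) : A.g w * (l.map A.x).prod =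
    ((l.map fun v => X.σK ℂ w *ᵥ v).map A.x).prod * A.g w := by
  induction l with
  | nil => simp
  | cons c l ih =>
    simp only [List.map_cons, List.prod_cons]
    rw [← mul_assoc, A.rels.gx, mul_assoc, ih, mul_assoc]

theorem cz_cons (c : X.Vc) (L : List (ℂ × List X.Vc)) :
    ((L.map fun p => (p.1, c :: p.2)).map fun p => p.1 • (p.2.map A.x).prod).sum =
      A.x c * (L.map fun p => p.1 • (p.2.map A.x).prod).sum := by
  induction L with
  | nil => simp
  | cons p L ih =>
    simp only [List.map_cons, List.sum_cons, List.prod_cons] at ih ⊢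
    rw [ih, mul_add, mul_smul_comm]

theorem cz_y_prod (a : X.Vc) (l : List X.Vc) : A.y a * (l.map A.x).prod =
    (l.map A.x).prod * A.y a + ∑ t ∈ X.refls, (κ * X.BK ℂ (X.rc t) a) •
      (((pick (fun v => X.BK ℂ (X.rc t) v) (fun v => X.σK ℂ t *ᵥ v) l).map
        fun p => p.1 • (p.2.map A.x).prod).sum * A.g t) := by
  induction l with
  | nil => simp [pick]
  | cons c l ih =>
    have e := eq_add_of_sub_eq' (A.rels.yx a c)
    simp only [List.map_cons, List.prod_cons, pick, List.sum_cons, cz_cons]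
    rw [← mul_assoc, e, add_mul, mul_assoc, ih, mul_add, ← mul_assoc, add_assoc, Finset.mul_sum,
      Finset.sum_mul, ← Finset.sum_add_distrib]
    congr 1
    refine Finset.sum_congr rfl fun t _ => ?_
    rw [smul_mul_assoc, cz_g_prod, add_mul, smul_add, smul_mul_assoc, smul_smul, mul_smul_comm,
      mul_assoc (A.x c), add_comm]

theorem P_pow (a : X.Vc) (m : ℕ) (l : List X.Vc) (w : X.W) :
    A.P ((A.x a + A.y a) ^ m * (l.map A.x).prod * A.g w) =
      ∑ j ∈ Finset.range (m + 1), ∑ ts ∈ X.seqs j,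
        (κ ^ j * X.wg a m l ts) • MonoidAlgebra.of ℂ X.W (ts.reverse.prod * w) := by
  induction m generalizing l w with
  | zero =>
    cases l with
    | nil => simp [Cox.seqs, Cox.wg, wgt, P_g]
    | cons c l =>
      rw [pow_zero, one_mul, List.map_cons, List.prod_cons, mul_assoc, P_x_mul]
      simp [Cox.wg, wgt]
  | succ m ih =>
    have h3 : ∀ (L : List (ℂ × List X.Vc)) (u : X.W),
        A.P ((A.x a + A.y a) ^ m * (L.map fun p => p.1 • (p.2.map A.x).prod).sum * A.g u) =
        ∑ j ∈ Finset.range (m + 1), ∑ ts ∈ X.seqs j,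
          (κ ^ j * (L.map fun p => p.1 * X.wg a m p.2 ts).sum) •
            MonoidAlgebra.of ℂ X.W (ts.reverse.prod * u) := by
      intro L u
      induction L with
      | nil => simp
      | cons p L ihL =>
        simp only [List.map_cons, List.sum_cons]
        rw [mul_add, add_mul, map_add, ihL, mul_smul_comm, smul_mul_assoc, map_smul, ih,
          Finset.smul_sum, ← Finset.sum_add_distrib]
        refine Finset.sum_congr rfl fun j _ => ?_
        rw [Finset.smul_sum, ← Finset.sum_add_distrib]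
        refine Finset.sum_congr rfl fun ts _ => ?_
        rw [smul_smul, ← add_smul]
        congr 1
        ring
    have h0 : A.P ((A.x a + A.y a) ^ m * ((l.map A.x).prod * A.y a) * A.g w) = 0 := by
      rw [← mul_assoc]
      exact A.P_LY (A.LY_mul_g (A.mul_y_mem _ a) w)
    have h1 := ih (a :: l) w
    have hz : ∑ ts ∈ X.seqs (m + 1), (κ ^ (m + 1) * X.wg a m (a :: l) ts) •
        MonoidAlgebra.of ℂ X.W (ts.reverse.prod * w) = 0 := by
      refine Finset.sum_eq_zero fun ts hts => ?_
      rw [Cox.wg, cz_short _ _ _ _ (by rw [(X.mem_seqs.1 hts).1]; omega), mul_zero, zero_smul]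
    rw [← add_zero (∑ j ∈ Finset.range (m + 1), _), ← hz, ← Finset.sum_range_succ
      (fun j => ∑ ts ∈ X.seqs j, (κ ^ j * X.wg a m (a :: l) ts) •
        MonoidAlgebra.of ℂ X.W (ts.reverse.prod * w)), Finset.sum_range_succ', List.map_cons,
      List.prod_cons] at h1
    rw [pow_succ, mul_assoc _ (A.x a + A.y a), add_mul, cz_y_prod, mul_add, mul_add, add_mul,
      add_mul, map_add, map_add, h0, h1, zero_add, Finset.mul_sum, Finset.sum_mul, map_sum,
      Finset.sum_range_succ' _ (m + 1), add_right_comm]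
    congr 1
    have h4 : ∀ t ∈ X.refls, A.P ((A.x a + A.y a) ^ m * ((κ * X.BK ℂ (X.rc t) a) •
        (((pick (fun v => X.BK ℂ (X.rc t) v) (fun v => X.σK ℂ t *ᵥ v) l).map
          fun p => p.1 • (p.2.map A.x).prod).sum * A.g t)) * A.g w) =
        ∑ j ∈ Finset.range (m + 1), ∑ ts ∈ X.seqs j, (κ ^ (j + 1) * (X.BK ℂ (X.rc t) a *
          ((pick (fun v => X.BK ℂ (X.rc t) v) (fun v => X.σK ℂ t *ᵥ v) l).map
            fun p => p.1 * X.wg a m p.2 ts).sum)) •
            MonoidAlgebra.of ℂ X.W ((t :: ts).reverse.prod * w) := by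
      intro t _
      rw [mul_smul_comm, smul_mul_assoc, map_smul, ← mul_assoc, mul_assoc _ (A.g t), ← map_mul, h3,
        Finset.smul_sum]
      refine Finset.sum_congr rfl fun j _ => ?_
      rw [Finset.smul_sum]
      refine Finset.sum_congr rfl fun ts _ => ?_
      rw [smul_smul, List.reverse_cons, List.prod_append, List.prod_singleton, mul_assoc _ t]
      congr 1
      ring
    rw [Finset.sum_congr rfl h4, Finset.sum_comm, ← Finset.sum_add_distrib]
    refine Finset.sum_congr rfl fun j _ => ?_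
    rw [X.cz_sum_succ, X.cz_sum_succ, ← Finset.sum_add_distrib]
    refine Finset.sum_congr rfl fun t _ => ?_
    rw [← Finset.sum_add_distrib]
    refine Finset.sum_congr rfl fun ts _ => ?_
    rw [← add_smul, ← mul_add]
    rfl

theorem exists_zeta (k : ℕ) : ∃ z ∈ Subalgebra.center ℂ A.H, A.P z = κ ^ k • X.zeta k := by
  have hrel : CRels X κ (A.x + A.y) A.y A.g := by
    refine ⟨fun w a => ?_, A.rels.gy, fun a b => ?_, A.rels.yy, fun a b => ?_⟩
    · simp only [LinearMap.add_apply]
      rw [mul_add, add_mul, A.rels.gx, A.rels.gy]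
    · have e : A.y a * A.x b - A.x b * A.y a = A.y b * A.x a - A.x a * A.y b := by
        rw [A.rels.yx, A.rels.yx]
        exact Finset.sum_congr rfl fun t _ => by rw [mul_right_comm]
      simp only [LinearMap.add_apply, mul_add, add_mul]
      rw [A.rels.xx a b, A.rels.yy a b, eq_add_of_sub_eq e]
      abel
    · simp only [LinearMap.add_apply, mul_add, add_mul]
      rw [← A.rels.yx, A.rels.yy a b]
      abel
  obtain ⟨φ, hx, hy, hg⟩ := A.lift A.H _ _ _ hrel
  have hinv : ∀ w, X.act ℂ w (∑ t ∈ X.refls, X.rl ℂ t ^ (2 * k)) =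
      ∑ t ∈ X.refls, X.rl ℂ t ^ (2 * k) := fun w => by
    rw [map_sum, ← X.sum_refls_conj (fun t => X.rl ℂ t ^ (2 * k)) w]
    refine Finset.sum_congr rfl fun t ht => ?_
    rw [map_pow, Cox.rl, Cox.act_lin, Cox.rl]
    rcases X.rc_conj (X.mem_refls.1 ht) w with e | e
    · exact congrArg (fun v => lin ℂ v ^ (2 * k)) e.symm
    · rw [show X.vK ℂ (X.rt (w * t * w⁻¹)) = _ from e, map_neg, (even_two_mul k).neg_pow]
  refine ⟨φ (A.ex (∑ t ∈ X.refls, X.rl ℂ t ^ (2 * k))), A.map_center (fun a => ⟨A.x a - A.y a, ?_⟩)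
    (fun a => ⟨A.y a, hy a⟩) (fun w => ⟨A.g w, hg w⟩) (A.ex_center hinv), ?_⟩
  · show φ (A.x a - A.y a) = A.x a
    rw [map_sub, hx, hy, LinearMap.add_apply, add_sub_cancel_right]
  · rw [map_sum, map_sum, map_sum, Cox.zeta, Finset.smul_sum]
    refine Finset.sum_congr rfl fun t _ => ?_
    have e := A.P_pow (X.rc t) (2 * k) [] 1
    rw [List.map_nil, List.prod_nil, map_one, mul_one, mul_one] at e
    rw [map_pow, map_pow, Cox.rl, ex_lin, hx, LinearMap.add_apply, e, Finset.sum_eq_single k,
      Finset.smul_sum]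
    · exact Finset.sum_congr rfl fun ts _ => by rw [smul_smul, mul_one]
    · intro j _ hj
      refine Finset.sum_eq_zero fun ts hts => ?_
      rw [Cox.wg, wgt_eq_zero _ _ _ (by
        rw [(X.mem_seqs.1 hts).1, List.length_nil]; omega), mul_zero, zero_smul]
    · intro hk
      exact absurd (Finset.mem_range.2 (by omega)) hk

theorem zeta_cl (hκ : κ ≠ 0) (k : ℕ) : IsCl fun w => (X.zeta k).coeff w := by
  have _ := hκ
  have hρ : IsGeom X.cs ((Matrix.toLinAlgEquiv' (R := ℂ) (n := Fin X.n)).toMonoidHom.comp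
      (X.σK ℂ)) := fun i j => by
    show X.σK ℂ (X.s i) *ᵥ Pi.single j 1 = _
    rw [← X.vK_al ℂ j, X.σK_vK ℂ, X.σ_simple_mulVec, X.B_al_al, ← X.vK_al ℂ i]
    funext l
    simp [Cox.vK, Cox0.K]
  obtain ⟨A, -⟩ := exists_CA X hρ (c := fun _ => 2) (c0 := 2) fun _ _ => rfl
  obtain ⟨z, hz, e⟩ := A.exists_zeta k
  have h1 := A.P_center hz
  rw [e] at h1
  exact mem_center_iff.1 (by simpa using h1)

theorem rel.zeta {A : CA X κ} (hκ : κ ≠ 0) {χ χ' : X.W → ℂ} (h : A.rel χ χ') (k : ℕ) :
    chx χ (X.zeta k) * χ' 1 = chx χ' (X.zeta k) * χ 1 := by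
  obtain ⟨z, hz, e⟩ := A.exists_zeta k
  have h1 := h z hz
  rw [e, map_smul, map_smul, smul_eq_mul, smul_eq_mul, mul_assoc, mul_assoc] at h1
  exact mul_left_cancel₀ (pow_ne_zero k hκ) h1

end CA

end

end Pool.Agent.P.MP_1a0ecf_al
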