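/-! The checker for character tables: computations with natural numbers only. -/

namespace Pool.Agent.P.MP_1a0ecf_al

noncomputable section

def fld (D w k : Nat) : Nat := Nat.land (Nat.shiftRight D (Nat.mul w k)) (Nat.sub (Nat.pow 2 w) 1)

def f8 (D k : Nat) : Nat := Nat.land (Nat.shiftRight D (Nat.mul 8 k)) 255

def f32 (D k : Nat) : Nat := Nat.land (Nat.shiftRight D (Nat.mul 32 k)) 4294967295

def bit (S j : Nat) : Bool := Nat.beq (Nat.land (Nat.shiftRight S j) 1) 1

def ltN (a b : Nat) : Bool := Nat.ble (Nat.succ a) b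

def an (a b : Bool) : Bool := Bool.rec false b a

def orr (a b : Bool) : Bool := Bool.rec b true a

def nt (a : Bool) : Bool := Bool.rec true false a

def imp (a b : Bool) : Bool := Bool.rec true b a

def cnd (b : Bool) (x y : Nat) : Nat := Bool.rec y x b

/-- evaluate `x` first -/
def frc (x : Nat) (k : Nat → Nat) : Nat :=
  Nat.rec (motive := fun _ => Nat) (k 0) (fun n _ => k (Nat.succ n)) x

def allN (f : Nat → Bool) (n : Nat) : Bool :=
  Nat.rec (motive := fun _ => Bool) true (fun k r => Bool.rec false r (f k)) n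

def anyN (f : Nat → Bool) (n : Nat) : Bool :=
  Nat.rec (motive := fun _ => Bool) false (fun k r => Bool.rec r true (f k)) n

def sumN (f : Nat → Nat) (n : Nat) : Nat :=
  Nat.rec (motive := fun _ => Nat) 0 (fun k r => Nat.add (f k) r) n

def orN (f : Nat → Nat) (n : Nat) : Nat :=
  Nat.rec (motive := fun _ => Nat) 0 (fun k r => Nat.lor (f k) r) n

/-- `f` holds on the interval from `lo` to `hi` -/
def AllR (f : Nat → Bool) (lo hi : Nat) : Prop := ∀ i, lo ≤ i → i < hi → f i = true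

/-- the residue of the golden ratio -/
def gg : Nat := 6277101735386680763835789423207666416102355444464034512896

/-- the modulus `gg ^ 2 - gg - 1` -/
def M0 : Nat := 39402006196394479212279040100143613805079739270465446667942016302510335090733374821991058588468813285362163955793919

/-- the residue of `-1` -/
def m1 : Nat := 39402006196394479212279040100143613805079739270465446667942016302510335090733374821991058588468813285362163955793918

/-- the residue of minus the golden ratio -/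
def mg : Nat := 39402006196394479212279040100143613805079739270465446667935739200774948409969539032567850922052710929917699921281023

def eqM (a b : Nat) : Bool := Nat.beq (Nat.mod a M0) (Nat.mod b M0)

/-- the residue of the number with code `u` -/
def rv (u : Nat) : Nat :=
  Nat.add (Nat.add (Nat.land u 65535) (Nat.mul (Nat.shiftRight u 16) gg))
    39402006196394479212279040100143613805079739270465446462253946637359579821362227002322245465626830081164681037185023

/-- the residue of `u - 128` -/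
def r8 (u : Nat) : Nat := Nat.add u
  39402006196394479212279040100143613805079739270465446667942016302510335090733374821991058588468813285362163955793791

/-- the residue of `u - 2 ^ 15` -/
def r16 (u : Nat) : Nat := Nat.add u
  39402006196394479212279040100143613805079739270465446667942016302510335090733374821991058588468813285362163955761151

/-- the residue of `u - 2 ^ 127` -/
def r128 (u : Nat) : Nat := Nat.add u
  39402006196394479212279040100143613805079739270465446667942016302510335090733204680807598119237081598058448071688191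

/-- tag, length and letters of a record -/
def tg (x : Nat) : Nat := Nat.land x 255

def ln (x : Nat) : Nat := f8 x 1

def lt (x k : Nat) : Nat := f8 x (Nat.add k 2)

structure TD where
  n : Nat
  N : Nat
  P : Nat
  h : Nat
  nb : Nat
  sg : Nat
  mx : Nat
  co : Nat
  R : Nat
  par : Nat
  wd : Nat
  G : Nat
  gr : Nat
  ce : Nat
  iv : Nat
  sz : Nat
  tab : Nat
  om : Nat
  ob : Nat
  sl : Nat
  tw : Nat

namespace TD

variable (T : TD)

def m (i j : Nat) : Nat := f8 T.mx (Nat.add (Nat.mul i T.n) j)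

def row (a : Nat) : Nat := fld T.co (Nat.mul 32 T.n) a

def cd (a i : Nat) : Nat := f32 (T.row a) i

def rf (t a : Nat) : Nat := f8 (frc t (fld T.R (Nat.mul 8 T.P))) a

def pi (t : Nat) : Nat := f8 T.par (Nat.mul 2 t)

def pk (t : Nat) : Nat := f8 T.par (Nat.add (Nat.mul 2 t) 1)

def app (x a : Nat) : Nat :=
  Nat.rec (motive := fun _ => Nat) a (fun k r => T.rf (lt x k) r) (ln x)

def wok (x : Nat) : Bool := allN (fun k => ltN (lt x k) T.N) (ln x)

def kc (i j : Nat) : Nat :=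
  cnd (Nat.beq (T.m i j) 1) 2 (cnd (Nat.beq (T.m i j) 2) 0 (cnd (Nat.beq (T.m i j) 3) m1 mg))

def cSz : Bool :=
  an (Nat.ble T.n T.N) (an (Nat.ble (Nat.mul 2 T.N) T.P) (an (Nat.ble T.P 256)
    (an (Nat.ble T.n 16) (an (Nat.ble T.h 128) (an (ltN 0 T.h) (an (Nat.ble 2 T.nb)
      (Nat.ble (Nat.add T.nb T.h) 256)))))))

def c1 : Bool :=
  allN (fun i => allN (fun j => Nat.beq (T.cd i j) (cnd (Nat.beq i j) 2147516417 2147516416)) T.n) T.n

def c2 (i : Nat) : Bool :=
  allN (fun a => an (ltN (T.rf i a) T.P)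
    (an (imp (ltN a (Nat.mul 2 T.N)) (ltN (T.rf i a) (Nat.mul 2 T.N)))
    (an (allN (fun j => orr (Nat.beq j i) (Nat.beq (T.cd (T.rf i a) j) (T.cd a j))) T.n)
      (eqM (Nat.add (rv (T.cd (T.rf i a) i)) (sumN (fun l => Nat.mul (T.kc i l) (rv (T.cd a l))) T.n))
        (rv (T.cd a i)))))) T.P

def c3 (t : Nat) : Bool :=
  orr (ltN t T.n) (an (ltN (T.pi t) T.n) (an (ltN (T.pk t) t)
    (an (Nat.beq (T.rf (T.pi t) (T.pk t)) t)
      (allN (fun a => Nat.beq (T.rf t a) (T.rf (T.pi t) (T.rf (T.pk t) (T.rf (T.pi t) a)))) T.P))))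

def c4 (t : Nat) : Bool :=
  allN (fun i => an (Nat.ble 32768 (Nat.land (T.cd t i) 65535))
    (an (Nat.ble 32768 (Nat.shiftRight (T.cd t i) 16))
      (eqM (Nat.add (rv (T.cd t i)) (rv (T.cd (Nat.add t T.N) i))) 0))) T.n

def c5 (b : Nat) : Bool := allN (fun a => nt (Nat.beq (T.row a) (T.row b))) b

def cR : Bool :=
  an T.cSz (an T.c1 (an (allN T.c2 T.n) (an (allN T.c3 T.N) (an (allN T.c4 T.N) (allN T.c5 T.P)))))

def wr (i : Nat) : Nat := fld T.wd 80 i

def gp (i a : Nat) : Nat := f8 (frc i (fld T.G (Nat.mul 8 T.P))) a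

def cG (i : Nat) : Bool :=
  an (T.wok (T.wr i)) (allN (fun a => Nat.beq (T.gp i a) (T.app (T.wr i) a)) T.P)

/-- the element acting as `f` is conjugate to class `j` by the word of `x` -/
def cj (f : Nat → Nat) (j x : Nat) : Bool :=
  an (T.wok x) (allN (fun a => Nat.beq (f (T.app x a)) (T.app x (T.gp j a))) T.n)

def gw (i : Nat) : Nat := fld T.gr 512 i

def ng (i : Nat) : Nat := f8 (T.gw i) 0

def gj (i g : Nat) : Nat := f8 (T.gw i) (Nat.add (Nat.mul 2 g) 1)

def gc (i g : Nat) : Nat := f8 (T.gw i) (Nat.add (Nat.mul 2 g) 2)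

def st (i g : Nat) : Nat := sumN (T.gc i) g

def cer (i k : Nat) : Nat := fld (fld T.ce (Nat.mul 80 T.N) i) 80 k

def cx (i j x : Nat) : Bool :=
  an (ltN (tg x) T.N) (T.cj (fun a => T.gp i (T.rf (tg x) a)) j x)

def cM (i : Nat) : Bool :=
  an (Nat.beq (T.st i (T.ng i)) T.N)
    (an (allN (fun g => an (ltN (T.gj i g) T.h)
      (allN (fun k => T.cx i (T.gj i g) (T.cer i (Nat.add (T.st i g) k))) (T.gc i g))) (T.ng i))
    (Nat.beq (orN (fun k => Nat.shiftLeft 1 (tg (T.cer i k))) T.N) (Nat.sub (Nat.pow 2 T.N) 1)))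

def cI (i : Nat) : Bool :=
  an (T.wok (fld T.iv 80 i)) (allN (fun a =>
    Nat.beq (T.gp i (T.app (fld T.iv 80 i) (T.gp i a))) (T.app (fld T.iv 80 i) a)) T.n)

def s (i : Nat) : Nat := f32 T.sz i

def S : Nat := sumN T.s T.h

def cS (j : Nat) : Bool :=
  Nat.beq (sumN (fun i => sumN (fun g =>
    cnd (Nat.beq (T.gj i g) j) (Nat.mul (T.s i) (T.gc i g)) 0) (T.ng i)) T.h) (Nat.mul T.N (T.s j))

def cC : Bool :=
  an (Nat.beq (ln (T.wr 0)) 0) (an (ltN 0 T.S)
    (an (allN T.cG T.h) (an (allN T.cI T.h) (allN T.cS T.h))))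

def tb (a i : Nat) : Nat := f32 (frc a (fld T.tab (Nat.mul 32 T.h))) i

def ch (j i : Nat) : Nat := T.tb (Nat.add T.nb j) i

def o (j : Nat) : Nat := f8 T.om j

def obm (a : Nat) : Nat := fld T.ob 256 a

/-- iterate of the permutation of class `i` -/
def gpw (i k a : Nat) : Nat := Nat.rec (motive := fun _ => Nat) a (fun _ r => T.gp i r) k

/-- the trace of the `k`-th power of class `i` -/
def tr (k i : Nat) : Nat := sumN (fun a => rv (T.cd (T.gpw i k a) a)) T.n

def cB (a : Nat) : Bool :=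
  orr (ltN a 2) (an (allN (fun i => allN (fun b =>
      imp (bit (T.obm a) b) (bit (T.obm a) (T.rf i b))) T.P) T.n)
    (allN (fun i => eqM (sumN (fun b =>
      cnd (an (bit (T.obm a) b) (Nat.beq (T.gp i b) b)) 1 0) T.P) (rv (T.tb a i))) T.h))

def sr (i : Nat) : Nat := cnd (Nat.beq (Nat.mod (ln (T.wr i)) 2) 0) 1 m1

def t2 (j : Nat) : Nat := f8 T.tw j

def cN (j : Nat) : Bool :=
  an (an (ltN 32768 (Nat.land (T.ch j 0) 65535)) (Nat.beq (Nat.shiftRight (T.ch j 0) 16) 32768))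
  (an (eqM (sumN (fun i => Nat.mul (T.s i) (Nat.mul (rv (T.ch j i)) (rv (T.ch j i)))) T.h) T.S)
  (an (ltN (T.t2 j) T.h)
    (allN (fun i => eqM (Nat.mul (T.sr i) (rv (T.ch j i))) (rv (T.ch (T.t2 j) i))) T.h)))

def cP (i : Nat) : Bool :=
  orr (Nat.beq i 0) (eqM (sumN (fun j => Nat.mul (rv (T.ch j 0)) (rv (T.ch j i))) T.h) 0)

def cT : Bool :=
  an (allN (fun i => an (eqM 1 (rv (T.tb 0 i))) (eqM (T.tr 1 i) (rv (T.tb 1 i)))) T.h)
  (an (allN T.cB T.nb) (an (allN T.cN T.h) (an (allN T.cP T.h)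
    (an (ltN T.sg T.h) (allN (fun i => eqM (T.sr i) (rv (T.ch T.sg i))) T.h)))))

def cE (k : Nat) : Bool :=
  allN (fun i => eqM (sumN (fun g => Nat.mul (T.gc i g) (rv (T.ch k (T.gj i g)))) (T.ng i))
    (Nat.mul (r8 (T.o k)) (rv (T.ch k i)))) T.h

def sw (j p : Nat) : Nat := f32 (fld T.sl 8192 j) p

def np (j : Nat) : Nat := f8 (T.sw j 0) 0

def nl (j : Nat) : Nat := f8 (T.sw j 0) 1

def pa (j p : Nat) : Nat := f8 (T.sw j (Nat.add p 1)) 0

def pb (j p : Nat) : Nat := f8 (T.sw j (Nat.add p 1)) 1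

def pc (j p : Nat) : Nat := Nat.shiftRight (T.sw j (Nat.add p 1)) 16

def cL (j : Nat) : Bool :=
  an (allN (fun p => an (ltN (T.pa j p) (Nat.add T.nb j)) (ltN (T.pb j p) (Nat.add T.nb j))) (T.np j))
  (an (allN (fun l => an (ltN (T.pa j (Nat.add (T.np j) l)) T.h)
      (nt (Nat.beq (T.o (T.pa j (Nat.add (T.np j) l))) (T.o j)))) (T.nl j))
    (allN (fun i => eqM (Nat.add
      (sumN (fun p => Nat.mul (r16 (T.pc j p))
        (Nat.mul (rv (T.tb (T.pa j p) i)) (rv (T.tb (T.pb j p) i)))) (T.np j))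
      (sumN (fun l => Nat.mul (r16 (T.pc j (Nat.add (T.np j) l)))
        (rv (T.ch (T.pa j (Nat.add (T.np j) l)) i))) (T.nl j))) (rv (T.ch j i))) T.h))

/-- all checks for a table -/
structure OK : Prop where
  hR : T.cR = true
  hM : AllR T.cM 0 T.h
  hC : T.cC = true
  hT : T.cT = true
  hE : AllR T.cE 0 T.h
  hL : AllR T.cL 0 T.h

def cTw (S S' : Nat) : Bool :=
  allN (fun j => an (imp (bit S j) (bit S' (T.t2 j)))
    (imp (bit S' j) (an (bit S (T.t2 j)) (Nat.beq (T.t2 (T.t2 j)) j)))) T.h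

end TD

/-- data for an embedding -/
structure ED where
  e : Nat
  rm : Nat
  fu : Nat

namespace ED

variable (E : ED) (T' T : TD)

def appm (y a : Nat) : Nat :=
  Nat.rec (motive := fun _ => Nat) a (fun k r => T.rf (f8 E.rm (lt y k)) r) (ln y)

def fj (i : Nat) : Nat := tg (fld E.fu 80 i)

def ck : Bool :=
  an (allN (fun i => an (ltN (f8 E.e i) T.n) (an (Nat.beq (f8 E.rm i) (f8 E.e i))
    (allN (fun j => an (Nat.beq (T'.m i j) (T.m (f8 E.e i) (f8 E.e j)))
      (orr (Nat.beq i j) (nt (Nat.beq (f8 E.e i) (f8 E.e j))))) T'.n))) T'.n)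
  (an (allN (fun t => an (ltN (f8 E.rm t) T.N) (orr (ltN t T'.n)
      (Nat.beq (T.rf (f8 E.e (T'.pi t)) (f8 E.rm (T'.pk t))) (f8 E.rm t)))) T'.N)
    (allN (fun i => an (ltN (E.fj i) T.h)
      (T.cj (E.appm T (T'.wr i)) (E.fj i) (fld E.fu 80 i))) T'.h))

def aa (S' i : Nat) : Nat :=
  Nat.mod (Nat.mul (T'.s i) (sumN (fun j => cnd (bit S' j) (rv (T'.ch j i)) 0) T'.h)) M0

def nz (S' j : Nat) : Bool :=
  nt (eqM (sumN (fun i => Nat.mul (aa T' S' i) (rv (T.ch j (E.fj i)))) T'.h) 0)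

def cJ (S' S mN j0 : Nat) : Bool :=
  an (an (ltN j0 T.h) (bit S j0)) (allN (fun j =>
    Bool.rec (nt (bit S j)) (an (Nat.ble mN (T.o j))
      (Bool.rec (nt (bit S j)) (bit S j) (Nat.beq (T.o j) mN))) (E.nz T' T S' j)) T.h)

end ED

/-- the sum over `pick` -/
def psN (b r : Nat → Nat) (l : List Nat) : (List Nat → Nat) → Nat :=
  List.rec (motive := fun _ => (List Nat → Nat) → Nat) (fun _ => 0)
    (fun c l ih k => Nat.add (cnd (Nat.beq (b c) 128) 0 (Nat.mul (r8 (b c))
      (k (List.rec (motive := fun _ => List Nat) [] (fun d _ s => r d :: s) l))))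
      (ih fun l' => k (c :: l'))) l

/-- the weight; `nx` is the number of remaining steps of the first kind -/
def wN (b r : Nat → Nat → Nat) (a m : Nat) : Nat → List Nat → List Nat → Nat :=
  Nat.rec (motive := fun _ => Nat → List Nat → List Nat → Nat) (fun _ _ _ => 1)
    (fun _ ih nx l ts => Nat.add
      (Nat.rec (motive := fun _ => Nat) 0 (fun nx' _ => ih nx' (a :: l) ts) nx)
      (List.rec (motive := fun _ => Nat) 0 (fun t ts' _ =>
        Nat.mul (r8 (b t a)) (psN (b t) (r t) l fun l' => ih nx l' ts')) ts)) m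

/-- data for a top coefficient -/
structure OD where
  x : Nat
  y : Nat
  mj : Nat
  ipt : Nat
  v : Nat

namespace OD

variable (O : OD) (T : TD)

def ip (t c : Nat) : Nat := f8 (frc t (fld O.ipt (Nat.mul 8 T.P))) c

def appL (ts : List Nat) : Nat → Nat :=
  List.rec (motive := fun _ => Nat → Nat) (fun a => a) (fun t _ ih a => ih (T.rf t a)) ts

def nzL (a : Nat) (ts : List Nat) : Bool :=
  List.rec (motive := fun _ => Bool) true (fun t _ ih => an (nt (Nat.beq (O.ip T t a) 128)) ih) ts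

def lf (K : Nat) (ts : List Nat) : Nat :=
  cnd (allN (fun a => Nat.beq (appL T ts a) (T.app O.x a)) T.n)
    (sumN (fun a => cnd (O.nzL T a ts) (wN (O.ip T) T.rf a (Nat.mul 2 K) K [] ts) 0) T.N) 0

def en (k : Nat) : (List Nat → Nat) → Nat :=
  Nat.rec (motive := fun _ => (List Nat → Nat) → Nat) (fun c => c [])
    (fun _ ih c => sumN (fun t => cnd (bit O.mj t) (ih fun ts => c (t :: ts)) 0) T.N) k

def ck (K : Nat) : Bool :=
  an (Nat.beq (ln O.x) K)
  (an (allN (fun k => an (ltN (lt O.x k) T.n)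
    (allN (fun k' => nt (Nat.beq (lt O.x k') (lt O.x k))) k)) K)
  (an (ltN (tg O.y) T.h) (an (T.cj (T.app O.x) (tg O.y) O.y)
  (an (allN (fun t => orr (bit O.mj t) (anyN (fun i =>
    an (nt (anyN (fun k => Nat.beq (lt O.x k) i) K)) (nt (Nat.beq (T.cd t i) 2147516416))) T.n)) T.N)
  (an (allN (fun t => imp (bit O.mj t) (allN (fun c => allN (fun i =>
      eqM (Nat.add (rv (T.cd (T.rf t c) i)) (Nat.mul (r8 (O.ip T t c)) (rv (T.cd t i))))
        (rv (T.cd c i))) T.n) T.P)) T.N)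
    (eqM (O.en T K (O.lf T K)) O.v))))))

end OD

/-- data for the families -/
structure FD where
  nf : Nat
  K : Nat
  no : Nat
  fam : Nat
  rep : Nat
  mk' : Nat
  lk : Nat
  sp : Nat
  ti : Nat
  tv : Nat
  ci : Nat
  ct : Nat

namespace FD

variable (F : FD) (T : TD)

def fa (j : Nat) : Nat := f8 F.fam j

def re (q : Nat) : Nat := f8 F.rep q

def ms (q : Nat) : Nat := fld F.mk' 128 q

def lp (j : Nat) : Nat := f8 F.lk (Nat.mul 3 j)

def le (j : Nat) : Nat := f8 F.lk (Nat.add (Nat.mul 3 j) 1)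

def lr (j : Nat) : Nat := f8 F.lk (Nat.add (Nat.mul 3 j) 2)

def cK (j : Nat) : Bool :=
  an (ltN (F.fa j) F.nf)
  (an (allN (fun q => Bool.rec (nt (bit (F.ms q) j)) (bit (F.ms q) j) (Nat.beq (F.fa j) q)) F.nf)
  (orr (Nat.beq (F.re (F.fa j)) j)
    (an (ltN (F.lp j) T.h) (an (ltN (F.lr (F.lp j)) (F.lr j)) (an (Nat.beq (F.fa (F.lp j)) (F.fa j))
      (an (Nat.beq (T.o (F.lp j)) (T.o j)) (an (ltN 0 (F.le j)) (an (Nat.ble (F.le j) 64)
        (nt (eqM (sumN (fun i => Nat.mul (Nat.mul (T.s i) (T.tr (F.le j) i))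
          (Nat.mul (rv (T.ch j i)) (rv (T.ch (F.lp j) i)))) T.h) 0))))))))))

def su (k : Nat) : Nat := fld F.sp 128 k

def cU : Bool :=
  an (bit (F.su 0) 0) (an (allN (fun k => allN (fun i => imp (bit (F.su k) i)
    (allN (fun g => bit (F.su (Nat.add k 1)) (T.gj i g)) (T.ng i))) T.h) F.K)
    (allN (fun i => orr (bit (F.su F.K) i) (allN (fun i' => imp (bit (F.su F.K) i')
      (anyN (fun j => nt (Nat.beq (T.ch j i) (T.ch j i'))) T.h)) T.h)) T.h))

def i0 (s : Nat) : Nat := f8 F.ti s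

def v0 (s : Nat) : Nat := fld F.tv 400 s

def sl (c p : Nat) : Nat := fld (fld F.ct 5120 c) 160 p

def cf (c p : Nat) : Nat := r128 (fld (F.sl c p) 128 0)

def ne (c : Nat) : Nat := f8 (F.sl c 0) 16

def ej (c e : Nat) : Nat := f8 (F.sl c (Nat.add (Nat.add F.no e) 1)) 16

def ek (c e : Nat) : Nat := f8 (F.sl c (Nat.add (Nat.add F.no e) 1)) 17

def dl (j k i : Nat) : Nat :=
  Nat.add (Nat.mul (rv (T.ch j i)) (rv (T.ch k 0)))
    (Nat.mul (Nat.mul m1 (rv (T.ch k i))) (rv (T.ch j 0)))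

def cQ (q q' c : Nat) : Bool :=
  an (allN (fun e => an (ltN (F.ej c e) T.h) (an (ltN (F.ek c e) T.h)
    (Nat.beq (F.fa (F.ej c e)) (F.fa (F.ek c e))))) (F.ne c))
  (an (allN (fun i => imp (bit (F.su F.K) i)
    (eqM (Nat.mul (F.cf c 0) (dl T (F.re q) (F.re q') i))
      (Nat.add (sumN (fun e => Nat.mul (F.cf c (Nat.add (Nat.add F.no e) 1))
          (dl T (F.ej c e) (F.ek c e) i)) (F.ne c))
        (sumN (fun s => cnd (Nat.beq i (F.i0 s)) (F.cf c (Nat.add s 1)) 0) F.no)))) T.h)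
    (an (allN (fun s => bit (F.su F.K) (F.i0 s)) F.no)
      (nt (eqM (sumN (fun s => Nat.mul (F.cf c (Nat.add s 1))
        (Nat.mul (T.s (F.i0 s)) (F.v0 s))) F.no) 0))))

def cD (q : Nat) : Bool :=
  an (ltN (F.re q) T.h) (an (Nat.beq (F.fa (F.re q)) q) (allN (fun q' =>
    orr (nt (Nat.beq (T.o (F.re q)) (T.o (F.re q'))))
      (F.cQ T q q' (f8 F.ci (Nat.add (Nat.mul q F.nf) q')))) q))

def ck : Bool :=
  an (Nat.ble F.no 255) (an (allN (F.cK T) T.h) (an (F.cU T) (allN (F.cD T) F.nf)))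

end FD

end

end Pool.Agent.P.MP_1a0ecf_al
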