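import Mathlib

/-! Finite Coxeter systems with bonds 2, 3, 5 and their reflection representation. -/

namespace Pool.Agent.P.MP_1a0ecf_al

open Matrix
open scoped Classical

noncomputable section

structure Cox0 where
  n : ℕ
  M : CoxeterMatrix (Fin n)
  W : Type
  [grp : Group W]
  cs : CoxeterSystem M W
  hM : ∀ i j, i ≠ j → M i j = 2 ∨ M i j = 3 ∨ M i j = 5

attribute [instance] Cox0.grp

structure Cox extends Cox0 where
  [fin : Fintype W]

attribute [instance] Cox.fin

namespace Cox0

variable (X : Cox0)

abbrev s (i : Fin X.n) : X.W := X.cs.simple i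

abbrev len (w : X.W) : ℕ := X.cs.length w

/-- simple roots -/
abbrev al (i : Fin X.n) : Fin X.n → ℝ := Pi.single i 1

/-- Gram matrix of the simple roots -/
def K : Matrix (Fin X.n) (Fin X.n) ℝ := fun i j => -2 * Real.cos (Real.pi / X.M i j)

/-- the invariant form -/
def B (u v : Fin X.n → ℝ) : ℝ := u ⬝ᵥ X.K *ᵥ v

/-- matrix of a simple reflection -/
def sr (i : Fin X.n) : Matrix (Fin X.n) (Fin X.n) ℝ := 1 - vecMulVec (X.al i) (X.K i)

/-- the sign character -/
def sgn (w : X.W) : ℂ := (-1) ^ X.len w

end Cox0

/-- the set of reflections -/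
def Cox.refls (X : Cox) : Finset X.W := Finset.univ.filter X.cs.IsReflection

/-- the linear form attached to a vector -/
def lin {n : ℕ} (K : Type) [CommRing K] : (Fin n → K) →ₗ[K] MvPolynomial (Fin n) K :=
  Fintype.linearCombination K MvPolynomial.X

/-- the action of a matrix on the symmetric algebra -/
def actM {n : ℕ} {K : Type} [CommRing K] (A : Matrix (Fin n) (Fin n) K) :
    MvPolynomial (Fin n) K →ₐ[K] MvPolynomial (Fin n) K :=
  MvPolynomial.aeval fun j => lin K fun i => A i j

end

end Pool.Agent.P.MP_1a0ecf_al
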