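import Pool.Agent.P.MP_1a0ecf_al.H1

/-! Package H2: deformation of the Hodge-Riemann relations. -/

namespace Pool.Agent.P.MP_1a0ecf_al

open Matrix

noncomputable section

variable {ι : Type} [Fintype ι] [DecidableEq ι]

omit [Fintype ι] [DecidableEq ι] in
private theorem h2_closed (d : ι → ℤ) (k : ℤ) : IsClosed {v : ι → ℝ | InDeg d k v} := by
  have : {v : ι → ℝ | InDeg d k v} = ⋂ a, {v : ι → ℝ | d a ≠ k → v a = 0} := by
    ext v; simp [InDeg]
  rw [this]
  refine isClosed_iInter fun a => ?_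
  by_cases h : d a = k
  · simp [h]
  · simp only [ne_eq, h, not_false_eq_true, forall_const]
    exact isClosed_eq (continuous_apply a) continuous_const

omit [Fintype ι] [DecidableEq ι] in
private theorem h2_smul {d : ι → ℤ} {k : ℤ} {v : ι → ℝ} (hv : InDeg d k v) (c : ℝ) :
    InDeg d k (c • v) := fun a ha => by simp [hv a ha]

omit [Fintype ι] [DecidableEq ι] in
private theorem h2_add {d : ι → ℤ} {k : ℤ} {v w : ι → ℝ} (hv : InDeg d k v) (hw : InDeg d k w) :
    InDeg d k (v + w) := fun a ha => by simp [hv a ha, hw a ha]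

omit [Fintype ι] [DecidableEq ι] in
private theorem h2_sub {d : ι → ℤ} {k : ℤ} {v w : ι → ℝ} (hv : InDeg d k v) (hw : InDeg d k w) :
    InDeg d k (v - w) := fun a ha => by simp [hv a ha, hw a ha]

omit [DecidableEq ι] in
private theorem h2_q_smul (G M : Matrix ι ι ℝ) (c : ℝ) (v : ι → ℝ) :
    (c • v) ⬝ᵥ G *ᵥ M *ᵥ (c • v) = c ^ 2 * (v ⬝ᵥ G *ᵥ M *ᵥ v) := by
  rw [Matrix.mulVec_smul, Matrix.mulVec_smul, smul_dotProduct, dotProduct_smul]
  simp only [smul_eq_mul]; ring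

/-- an implication between an equation and a strict inequality is stable -/
private theorem h2_ev {X : Type} [TopologicalSpace X] {f : X → ι → ℝ} {g : X → ℝ}
    (hf : Continuous f) (hg : Continuous g) {x : X} (h : f x = 0 → 0 < g x) :
    ∀ᶠ z in nhds x, f z = 0 → 0 < g z := by
  by_cases h0 : f x = 0
  · have : ∀ᶠ z in nhds x, 0 < g z := hg.continuousAt.eventually (lt_mem_nhds (h h0))
    exact this.mono fun z hz _ => hz
  · have : ∀ᶠ z in nhds x, f z ≠ 0 := hf.continuousAt.eventually_ne h0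
    exact this.mono fun z hz hz' => absurd hz' hz

theorem HR.eventually {d : ι → ℤ} {L G : ℝ → Matrix ι ι ℝ} (hL : Continuous L) (hG : Continuous G)
    {l : ℤ} {t₀ : ℝ} (h : HR d (L t₀) (G t₀) l) : ∀ᶠ t in nhds t₀, HR d (L t) (G t) l := by
  have key : ∀ i : ℕ, ∀ᶠ t in nhds t₀, ∀ j : ℤ, l = i + 2 * j → ∀ v, InDeg d (-i) v → v ≠ 0 →
      (L t ^ (i + 1)) *ᵥ v = 0 → 0 < (-1 : ℝ) ^ j * (v ⬝ᵥ G t *ᵥ (L t ^ i) *ᵥ v) := by
    intro i
    by_cases hex : ∃ j : ℤ, l = i + 2 * j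
    · obtain ⟨j0, hj0⟩ := hex
      have hK : IsCompact ({v : ι → ℝ | InDeg d (-i) v} ∩ Metric.sphere 0 1) :=
        (isCompact_sphere 0 1).inter_left (h2_closed d _)
      have hev := hK.eventually_forall_of_forall_eventually (x₀ := t₀)
        (P := fun t v => (L t ^ (i + 1)) *ᵥ v = 0 →
          0 < (-1 : ℝ) ^ j0 * (v ⬝ᵥ G t *ᵥ (L t ^ i) *ᵥ v)) (by
        intro v hv
        refine h2_ev (f := fun z : ℝ × (ι → ℝ) => (L z.1 ^ (i + 1)) *ᵥ z.2)
          (g := fun z : ℝ × (ι → ℝ) => (-1 : ℝ) ^ j0 * (z.2 ⬝ᵥ G z.1 *ᵥ (L z.1 ^ i) *ᵥ z.2))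
          ?_ ?_ ?_
        · exact ((hL.comp continuous_fst).pow _).matrix_mulVec continuous_snd
        · exact continuous_const.mul (continuous_snd.dotProduct
            ((hG.comp continuous_fst).matrix_mulVec
              (((hL.comp continuous_fst).pow _).matrix_mulVec continuous_snd)))
        · intro h0
          refine h.2 i j0 hj0 v hv.1 ?_ h0
          rintro rfl
          simpa using hv.2)
      refine hev.mono fun t ht j hj v hv hv0 hp => ?_
      have hjj : j = j0 := by omega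
      subst hjj
      have hn : 0 < ‖v‖ := norm_pos_iff.mpr hv0
      have h1 := ht (‖v‖⁻¹ • v) ⟨h2_smul hv _, by
        simp [norm_smul, inv_mul_cancel₀ hn.ne']⟩ (by rw [Matrix.mulVec_smul, hp, smul_zero])
      rw [h2_q_smul] at h1
      have h2 : 0 < (‖v‖⁻¹) ^ 2 := by positivity
      rw [mul_left_comm] at h1
      exact (mul_pos_iff_of_pos_left h2).mp h1
    · exact Filter.Eventually.of_forall fun t j hj => absurd ⟨j, hj⟩ hex
  have hfin := (Filter.eventually_all_finset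
    (Finset.range (Finset.univ.sup (fun a => (d a).natAbs) + 1))).mpr fun i _ => key i
  refine hfin.mono fun t ht => ⟨h.1, fun i j hj v hv hv0 hp => ?_⟩
  refine ht i ?_ j hj v hv hv0 hp
  obtain ⟨a, ha⟩ := Function.ne_iff.mp hv0
  have hda : d a = -i := by
    by_contra hne
    exact ha (hv a hne)
  have hle : (d a).natAbs ≤ Finset.univ.sup (fun a => (d a).natAbs) :=
    Finset.le_sup (f := fun a => (d a).natAbs) (Finset.mem_univ a)
  rw [Finset.mem_range]
  omega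

private theorem h2_adj_pow {d : ι → ℤ} {L G : Matrix ι ι ℝ} (hL : Lef d L G) (i : ℕ) :
    (L ^ i)ᵀ * G = G * L ^ i := by
  induction i with
  | zero => simp
  | succ n ih =>
    rw [pow_succ, Matrix.transpose_mul, Matrix.mul_assoc, ih, ← Matrix.mul_assoc, hL.adj,
      Matrix.mul_assoc, ← pow_succ', ← pow_succ]

private theorem h2_symm {d : ι → ℤ} {L G : Matrix ι ι ℝ} (hL : Lef d L G) (i : ℕ)
    (v w : ι → ℝ) : v ⬝ᵥ G *ᵥ (L ^ i) *ᵥ w = w ⬝ᵥ G *ᵥ (L ^ i) *ᵥ v := by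
  rw [Matrix.mulVec_mulVec, Matrix.mulVec_mulVec, Matrix.dotProduct_mulVec, dotProduct_comm,
    ← Matrix.mulVec_transpose, Matrix.transpose_mul, hL.symm, h2_adj_pow hL]

private theorem h2_definite {d : ι → ℤ} {L G : Matrix ι ι ℝ} (hL : Lef d L G) (hhl : HL d L)
    {i : ℕ} {s : ℝ} (hs : s ≠ 0)
    (hsemi : ∀ w, InDeg d (-i) w → (L ^ (i + 1)) *ᵥ w = 0 → 0 ≤ s * (w ⬝ᵥ G *ᵥ (L ^ i) *ᵥ w))
    {v : ι → ℝ} (hv : InDeg d (-i) v) (hv0 : v ≠ 0) (hp : (L ^ (i + 1)) *ᵥ v = 0) :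
    0 < s * (v ⬝ᵥ G *ᵥ (L ^ i) *ᵥ v) := by
  refine lt_of_le_of_ne (hsemi v hv hp) fun hq => hv0 ?_
  have hq0 : v ⬝ᵥ G *ᵥ (L ^ i) *ᵥ v = 0 := by
    rcases mul_eq_zero.mp hq.symm with h | h
    · exact absurd h hs
    · exact h
  have hprim : ∀ w, InDeg d (-i) w → (L ^ (i + 1)) *ᵥ w = 0 →
      w ⬝ᵥ G *ᵥ (L ^ i) *ᵥ v = 0 := by
    intro w hw hwp
    have hx : ∀ x : ℝ, 0 ≤ (s * (w ⬝ᵥ G *ᵥ (L ^ i) *ᵥ w)) * (x * x) +
        (2 * (s * (w ⬝ᵥ G *ᵥ (L ^ i) *ᵥ v))) * x + 0 := by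
      intro x
      have h1 := hsemi (v + x • w) (h2_add hv (h2_smul hw x))
        (by rw [Matrix.mulVec_add, Matrix.mulVec_smul, hp, hwp, smul_zero, add_zero])
      have h2 := h2_symm hL i v w
      simp only [Matrix.mulVec_add, Matrix.mulVec_smul, add_dotProduct, dotProduct_add,
        smul_dotProduct, dotProduct_smul, smul_eq_mul] at h1
      rw [hq0, h2] at h1
      linarith
    have hd := discrim_le_zero hx
    simp only [discrim, mul_zero, sub_zero] at hd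
    have h3 : 2 * (s * (w ⬝ᵥ G *ᵥ (L ^ i) *ᵥ v)) = 0 := by
      nlinarith [sq_nonneg (2 * (s * (w ⬝ᵥ G *ᵥ (L ^ i) *ᵥ v)))]
    rcases mul_eq_zero.mp h3 with h | h
    · norm_num at h
    · rcases mul_eq_zero.mp h with h | h
      · exact absurd h hs
      · exact h
  have hall : ∀ w, InDeg d (-i) w → w ⬝ᵥ G *ᵥ (L ^ i) *ᵥ v = 0 := by
    intro w hw
    obtain ⟨u, hu, hup⟩ := HL.decomp hL hhl i hw
    have hLu : InDeg d (-i) (L *ᵥ u) := by
      have := hL.degL.inDeg hu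
      convert this using 1
      push_cast; ring
    have h1 := hprim _ (h2_sub hw hLu) hup
    have h2 : (L *ᵥ u) ⬝ᵥ G *ᵥ (L ^ i) *ᵥ v = 0 := by
      rw [h2_symm hL, Matrix.mulVec_mulVec u, ← pow_succ, h2_symm hL, hp]
      simp
    rw [sub_dotProduct, h2, sub_zero] at h1
    exact h1
  have hy1 : InDeg d i ((L ^ i) *ᵥ v) := by
    have := (hL.degL.pow i).inDeg hv
    convert this using 1
    ring
  have hy : InDeg d (-i) (G *ᵥ (L ^ i) *ᵥ v) := by
    intro a ha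
    simp only [Matrix.mulVec, dotProduct]
    refine Finset.sum_eq_zero fun b _ => ?_
    by_cases hG : G a b = 0
    · simp [hG]
    · have h1 := hL.degG a b hG
      have h2 := hy1 b (by omega)
      simp only [Matrix.mulVec, dotProduct] at h2
      rw [h2, mul_zero]
  have h0 : G *ᵥ (L ^ i) *ᵥ v = 0 := dotProduct_self_eq_zero.mp (hall _ hy)
  exact hhl i v hv (Matrix.eq_zero_of_mulVec_eq_zero hL.nd h0)

private theorem h2_closedHR {d : ι → ℤ} {L : ℝ → Matrix ι ι ℝ} {G : Matrix ι ι ℝ}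
    (hL : Continuous L) (hlef : ∀ t, Lef d (L t) G) (hhl : ∀ t, HL d (L t)) {l : ℤ} {t₀ : ℝ}
    (h : ∃ᶠ t in nhds t₀, HR d (L t) G l) : HR d (L t₀) G l := by
  obtain ⟨t₁, ht₁⟩ := h.exists
  refine ⟨ht₁.1, fun i j hj v hv hv0 hp => ?_⟩
  have hs : ((-1 : ℝ) ^ j) ≠ 0 := zpow_ne_zero _ (by norm_num)
  refine h2_definite (hlef t₀) (hhl t₀) hs ?_ hv hv0 hp
  clear hv hv0 hp v
  intro v hv hp
  by_contra hneg
  rw [not_le] at hneg
  have hK : IsCompact ({z : ℝ × (ι → ℝ) | InDeg d (-((i + 2 : ℕ) : ℤ)) z.2} ∩ Metric.sphere 0 1) :=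
    (isCompact_sphere 0 1).inter_left ((h2_closed d _).preimage continuous_snd)
  have hw : Continuous fun z : ℝ × (ℝ × (ι → ℝ)) => z.2.1 • v - L z.1 *ᵥ z.2.2 :=
    ((continuous_fst.comp continuous_snd).smul continuous_const).sub
      ((hL.comp continuous_fst).matrix_mulVec (continuous_snd.comp continuous_snd))
  have hev := hK.eventually_forall_of_forall_eventually (x₀ := t₀)
    (P := fun t z => (L t ^ (i + 1)) *ᵥ (z.1 • v - L t *ᵥ z.2) = 0 →
      0 < -((-1 : ℝ) ^ j * ((z.1 • v - L t *ᵥ z.2) ⬝ᵥ G *ᵥ (L t ^ i) *ᵥ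
        (z.1 • v - L t *ᵥ z.2)))) (by
    intro z hz
    refine h2_ev (f := fun y : ℝ × (ℝ × (ι → ℝ)) =>
        (L y.1 ^ (i + 1)) *ᵥ (y.2.1 • v - L y.1 *ᵥ y.2.2))
      (g := fun y : ℝ × (ℝ × (ι → ℝ)) => -((-1 : ℝ) ^ j * ((y.2.1 • v - L y.1 *ᵥ y.2.2) ⬝ᵥ G *ᵥ
        (L y.1 ^ i) *ᵥ (y.2.1 • v - L y.1 *ᵥ y.2.2)))) ?_ ?_ ?_
    · exact ((hL.comp continuous_fst).pow _).matrix_mulVec hw
    · exact (continuous_const.mul (hw.dotProduct (continuous_const.matrix_mulVec
        (((hL.comp continuous_fst).pow _).matrix_mulVec hw)))).neg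
    · intro h0
      simp only at h0 ⊢
      rw [Matrix.mulVec_sub, Matrix.mulVec_smul, hp, smul_zero, zero_sub, neg_eq_zero,
        Matrix.mulVec_mulVec, ← pow_succ] at h0
      have hu : z.2 = 0 := hhl t₀ (i + 2) z.2 hz.1 h0
      have hz1 : z.1 ≠ 0 := by
        intro h1
        have h2 : z = 0 := Prod.ext h1 hu
        have h3 := hz.2
        rw [h2] at h3
        simp at h3
      rw [hu, Matrix.mulVec_zero, sub_zero, h2_q_smul]
      have h4 : 0 < z.1 ^ 2 := by positivity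
      nlinarith)
  obtain ⟨t, hHR, ht⟩ := (h.and_eventually hev).exists
  obtain ⟨u, hu, hup⟩ := HL.decomp (hlef t) (hhl t) i hv
  have hne : ((1 : ℝ), u) ≠ 0 := by
    intro h1
    have := congrArg Prod.fst h1
    simp at this
  have hn : 0 < ‖((1 : ℝ), u)‖ := norm_pos_iff.mpr hne
  set c : ℝ := ‖((1 : ℝ), u)‖⁻¹ with hc
  have hmem : c • ((1 : ℝ), u) ∈
      ({z : ℝ × (ι → ℝ) | InDeg d (-((i + 2 : ℕ) : ℤ)) z.2} ∩ Metric.sphere 0 1) := by
    refine ⟨h2_smul hu c, ?_⟩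
    rw [mem_sphere_zero_iff_norm, norm_smul, hc, norm_inv, norm_norm, inv_mul_cancel₀ hn.ne']
  have hweq : (c • ((1 : ℝ), u)).1 • v - L t *ᵥ (c • ((1 : ℝ), u)).2 = c • (v - L t *ᵥ u) := by
    simp [Matrix.mulVec_smul, smul_sub]
  have h1 := ht _ hmem
  rw [hweq] at h1
  have hp' : (L t ^ (i + 1)) *ᵥ (c • (v - L t *ᵥ u)) = 0 := by
    rw [Matrix.mulVec_smul, hup, smul_zero]
  have h2 := h1 hp'
  have hLu : InDeg d (-i) (L t *ᵥ u) := by
    have := (hlef t).degL.inDeg hu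
    convert this using 1
    push_cast; ring
  by_cases h0 : c • (v - L t *ᵥ u) = 0
  · rw [h0] at h2
    simp at h2
  · have h3 := hHR.2 i j hj _ (h2_smul (h2_sub hv hLu) c) h0 hp'
    linarith

theorem HR.deform {d : ι → ℤ} {L : ℝ → Matrix ι ι ℝ} {G : Matrix ι ι ℝ} (hL : Continuous L)
    (hlef : ∀ t, 0 ≤ t → Lef d (L t) G) (hhl : ∀ t, 0 ≤ t → HL d (L t)) {l : ℤ} {t₀ : ℝ}
    (ht₀ : 0 ≤ t₀) (h : HR d (L t₀) G l) (t : ℝ) (ht : 0 ≤ t) : HR d (L t) G l := by
  have hL' : Continuous fun t : ℝ => L (max t 0) := hL.comp (continuous_id.max continuous_const)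
  have hcl : IsClopen {t : ℝ | HR d (L (max t 0)) G l} := by
    constructor
    · rw [isClosed_iff_frequently]
      intro x hx
      exact h2_closedHR hL' (fun t => hlef _ (le_max_right _ _))
        (fun t => hhl _ (le_max_right _ _)) hx
    · rw [isOpen_iff_mem_nhds]
      intro x hx
      exact HR.eventually (G := fun _ => G) hL' continuous_const hx
  have huniv := hcl.eq_univ ⟨t₀, by simpa [max_eq_left ht₀] using h⟩
  have := (Set.eq_univ_iff_forall.mp huniv) t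
  simpa [max_eq_left ht] using this

omit [Fintype ι] [DecidableEq ι] in
private theorem h2_blk_cont {A B C D : ℝ → Matrix ι ι ℝ} (hA : Continuous A) (hB : Continuous B)
    (hC : Continuous C) (hD : Continuous D) :
    Continuous fun t => blk (A t) (B t) (C t) (D t) := by
  refine continuous_matrix fun a b => ?_
  obtain ⟨a, x⟩ := a
  obtain ⟨b, y⟩ := b
  fin_cases x <;> fin_cases y
  · exact hA.matrix_elem a b
  · exact hB.matrix_elem a b
  · exact hC.matrix_elem a b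
  · exact hD.matrix_elem a b

omit [Fintype ι] [DecidableEq ι] in
private theorem h2_blk_tr (A B C D : Matrix ι ι ℝ) :
    (blk A B C D)ᵀ = blk Aᵀ Cᵀ Bᵀ Dᵀ := by
  ext ⟨a, x⟩ ⟨b, y⟩
  fin_cases x <;> fin_cases y <;> rfl

omit [Fintype ι] [DecidableEq ι] in
private theorem h2_blk_smul (c : ℝ) (A B C D : Matrix ι ι ℝ) :
    c • blk A B C D = blk (c • A) (c • B) (c • C) (c • D) := by
  ext ⟨a, x⟩ ⟨b, y⟩
  fin_cases x <;> fin_cases y <;> rfl

omit [Fintype ι] in
private theorem h2_blk_one : blk (1 : Matrix ι ι ℝ) 0 0 1 = 1 := by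
  ext ⟨a, x⟩ ⟨b, y⟩
  fin_cases x <;> fin_cases y <;> simp [blk, Matrix.one_apply]

theorem HR.big {d : ι → ℤ} {L G : Matrix ι ι ℝ} {l : ℤ} (hL : Lef d L G) (h : HR d L G l)
    (N K : Matrix ι ι ℝ) :
    ∃ t : ℝ, 0 < t ∧ HR (dS d) (blk L 0 (N + t • 1) L) (blk K G G 0) (l + 1) := by
  have h0 := HR.p1 hL h one_pos
  have hev := HR.eventually (d := dS d) (L := fun e : ℝ => blk L 0 (e • N + 1) L)
    (G := fun e : ℝ => blk (e • K) G G 0)
    (h2_blk_cont continuous_const continuous_const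
      ((continuous_id.smul continuous_const).add continuous_const) continuous_const)
    (h2_blk_cont (continuous_id.smul continuous_const) continuous_const continuous_const
      continuous_const) (l := l + 1) (t₀ := 0) (by simpa using h0)
  obtain ⟨e, he, hepos⟩ := ((hev.filter_mono (nhdsWithin_le_nhds (s := Set.Ioi 0))).and
    self_mem_nhdsWithin).exists
  have hepos' : (0 : ℝ) < e := hepos
  refine ⟨e⁻¹, inv_pos.mpr hepos', ?_⟩
  refine HR.sub he (c := e) (f := blk 1 0 0 (e • 1)) (p := blk 1 0 0 (e⁻¹ • 1)) ?_ ?_ ?_ ?_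
    (Sg.of_pos _ hepos')
  · rintro ⟨a, x⟩ ⟨b, y⟩ hab
    fin_cases x <;> fin_cases y
    · have : a = b := by
        by_contra hne
        exact hab (by simp [blk, Matrix.one_apply, hne])
      simp [this]
    · exact absurd (by simp [blk]) hab
    · exact absurd (by simp [blk]) hab
    · have : a = b := by
        by_contra hne
        exact hab (by simp [blk, Matrix.one_apply, hne])
      simp [this]
  · rw [blk_mul]
    simp [smul_smul, mul_inv_cancel₀ hepos'.ne', h2_blk_one]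
  · rw [blk_mul, blk_mul]
    simp [smul_smul, mul_inv_cancel₀ hepos'.ne']
  · rw [h2_blk_tr, blk_mul, blk_mul, h2_blk_smul]
    simp

end

end Pool.Agent.P.MP_1a0ecf_al
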