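import Pool.Agent.P.MP_1a0ecf_al.M9
import Pool.Agent.P.MP_1a0ecf_al.H2

/-! Package E1: invariant models and large parameters. -/

namespace Pool.Agent.P.MP_1a0ecf_al

open Matrix MvPolynomial
open scoped Classical Kronecker

noncomputable section

variable {X : Cox} {D : Hk X}

namespace E1

variable (X) (i : Fin X.n)

/-- the base change on `B_s` -/
def qq (c : ℝ) : Matrix (Fin 2) (Fin 2) (Rn X.n) := !![1, C c * MvPolynomial.X i; 0, 1]

theorem qq_mul (c : ℝ) : qq X i c * qq X i (-c) = 1 := by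
  ext a b : 2
  fin_cases a <;> fin_cases b <;> simp [qq, Matrix.mul_apply, Fin.sum_univ_two]

theorem qq_mul' (c : ℝ) : qq X i (-c) * qq X i c = 1 := by
  simpa using qq_mul X i (-c)

theorem qq_gr (c : ℝ) : Gr ![-1, 1] ![-1, 1] 0 (qq X i c) := by
  have h1 : Hg (1 : Rn X.n) 0 := by simpa using Hg.C (n := X.n) 1
  have h2 : Hg (C c * MvPolynomial.X i : Rn X.n) 2 := by simpa using (Hg.C c).mul (Hg.X i)
  intro a b
  fin_cases a <;> fin_cases b
  · simpa [qq] using h1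
  · simpa [qq] using h2
  · simpa [qq] using Hg.zero _
  · simpa [qq] using h1

/-- the invariant model of `B_s` -/
abbrev Bi : Bim X.n where
  ι := Fin 2
  d := ![-1, 1]
  A := AlgHom.ofLinearMap
    { toFun := fun p => qq X i (1 / 2) * X.theta i p * qq X i (-(1 / 2))
      map_add' := fun p q => by rw [map_add, Matrix.mul_add, Matrix.add_mul]
      map_smul' := fun a p => by
        rw [map_smul, Matrix.mul_smul, Matrix.smul_mul]
        rfl }
    (by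
      show qq X i (1 / 2) * X.theta i 1 * qq X i (-(1 / 2)) = 1
      rw [map_one, Matrix.mul_one, qq_mul])
    (fun p q => by
      show qq X i (1 / 2) * X.theta i (p * q) * qq X i (-(1 / 2)) =
        qq X i (1 / 2) * X.theta i p * qq X i (-(1 / 2)) *
          (qq X i (1 / 2) * X.theta i q * qq X i (-(1 / 2)))
      simp only [map_mul, Matrix.mul_assoc]
      rw [← Matrix.mul_assoc (qq X i (-(1 / 2))), qq_mul', Matrix.one_mul])
  gr := fun p k hp => by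
    have := ((qq_gr X i (-(1 / 2))).mul ((X.Bs i).gr p k hp)).mul (qq_gr X i (1 / 2))
    rw [zero_add, add_zero, ← Matrix.mul_assoc] at this
    exact this

theorem Bi_A (p : Rn X.n) : (Bi X i).A p = qq X i (1 / 2) * X.theta i p * qq X i (-(1 / 2)) := rfl

theorem qq_mem : qq X i (-(1 / 2)) ∈ Hom (Bi X i) (X.Bs i) 0 :=
  ⟨qq_gr X i _, fun p => by
    rw [Bi_A, ← Matrix.mul_assoc, ← Matrix.mul_assoc, qq_mul', Matrix.one_mul]⟩

theorem qq_mem' : qq X i (1 / 2) ∈ Hom (X.Bs i) (Bi X i) 0 :=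
  ⟨qq_gr X i _, fun p => by
    rw [Bi_A, Matrix.mul_assoc, qq_mul', Matrix.mul_one]⟩

theorem Bi_inv (p : Rn X.n) (a b : Fin 2) :
    X.act ℝ (X.s i) ((Bi X i).A p a b) = (Bi X i).A p a b := by
  have hs := X.cs.isReflection_simple i
  have h1 := Cox.dd_spec ℝ hs p
  have h2 := Cox.act_rl ℝ X hs
  have h3 := Cox.act_act ℝ hs p
  have h4 := Cox.act_dd ℝ hs p
  rw [Cox.rl_simple] at h1 h2
  have h5 : (C (2⁻¹ : ℝ) : Rn X.n) * 2 = 1 := by
    rw [show (2 : Rn X.n) = C 2 from rfl, ← C_mul]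
    norm_num
  have h6 : X.act ℝ (X.s i) (C (2⁻¹ : ℝ)) = C 2⁻¹ := (X.act ℝ (X.s i)).commutes _
  rw [Bi_A, Cox.theta_apply]
  fin_cases a <;> fin_cases b <;>
    simp [qq, Matrix.mul_apply, Fin.sum_univ_two, h2, h3, h4, h6]
  · linear_combination h1 - MvPolynomial.X i * X.dd ℝ (X.s i) p * h5
  · ring
  · linear_combination -h1 + MvPolynomial.X i * X.dd ℝ (X.s i) p * h5

variable {X i} {ι κ μ : Type} [Fintype κ]

theorem map_mul_right (F : Matrix ι κ (Rn X.n)) {A : Matrix κ μ (Rn X.n)}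
    (hA : ∀ a b, X.act ℝ (X.s i) (A a b) = A a b) :
    (F * A).map (X.dd ℝ (X.s i)) = F.map (X.dd ℝ (X.s i)) * A := by
  have hs := X.cs.isReflection_simple i
  ext a b : 2
  simp only [Matrix.map_apply, Matrix.mul_apply, map_sum, Cox.dd_mul' ℝ hs, hA,
    (Cox.dd_eq_zero_iff ℝ hs _).2 (hA _ _), mul_zero, add_zero]

theorem map_mul_left {A : Matrix ι κ (Rn X.n)} (F : Matrix κ μ (Rn X.n))
    (hA : ∀ a b, X.act ℝ (X.s i) (A a b) = A a b) :
    (A * F).map (X.dd ℝ (X.s i)) = A * F.map (X.dd ℝ (X.s i)) := by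
  have hs := X.cs.isReflection_simple i
  ext a b : 2
  simp only [Matrix.map_apply, Matrix.mul_apply, map_sum, Cox.dd_mul ℝ hs, hA,
    (Cox.dd_eq_zero_iff ℝ hs _).2 (hA _ _), zero_mul, zero_add]

omit [Fintype κ] in
theorem map_eq_zero_iff (F : Matrix ι κ (Rn X.n)) :
    F.map (X.dd ℝ (X.s i)) = 0 ↔ ∀ a b, X.act ℝ (X.s i) (F a b) = F a b := by
  have hs := X.cs.isReflection_simple i
  simp only [← Matrix.ext_iff, Matrix.map_apply, Matrix.zero_apply, Cox.dd_eq_zero_iff ℝ hs]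

theorem retract_zero {N T : Bim X.n} {f : Matrix T.ι N.ι (Rn X.n)} {p : Matrix N.ι T.ι (Rn X.n)}
    (hf : f ∈ Hom N T 0) (hp : p ∈ Hom T N 0) (e : p * f = 1) {k : ℤ}
    (h : ∀ F ∈ Hom T T k, F = 0) : ∀ F ∈ Hom N N k, F = 0 := by
  intro F hF
  have h1 := h _ (Hom.comp0' (Hom.comp0 hp hF) hf)
  have h2 : F = p * (f * (F * p)) * f := by
    rw [← Matrix.mul_assoc p, e, Matrix.one_mul, Matrix.mul_assoc, e, Matrix.mul_one]
  rw [h2, h1, Matrix.mul_zero, Matrix.zero_mul]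

end E1

namespace Obj

theorem Inv.Lz {o : Obj D} {i : Fin X.n} (h : o.Inv i) (ζ : ℝ) :
    o.Lz i ζ = blk o.L 0 (ζ • 1) o.L ∧
      cst (X.formS i o.G) = blk 0 (cst o.G) (cst o.G) 0 := by
  rw [Lz_eq, Cox.cst_formS, (E1.map_eq_zero_iff _).2 (h.1 _), (E1.map_eq_zero_iff _).2 h.2,
    cst_zero, zero_add]
  exact ⟨rfl, rfl⟩

theorem SInv.hrz {o : Obj D} {i : Fin X.n} (h : o.SInv i) {l : ℤ} (hr : HR o.B.d o.L (cst o.G) l)
    {ζ : ℝ} (hζ : 0 < ζ) : o.HRz i ζ (l + 1) := by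
  obtain ⟨o', hG, hi, f, p, hs, e⟩ := h
  refine (hs.symm e).hrz (Sg.one _) ?_
  unfold HRz
  rw [(hi.Lz ζ).1, (hi.Lz ζ).2]
  exact HR.p1 (lef hG) (hs.hr (Sg.one l) hr) hζ

theorem hrz_all {o : Obj D} (hG : IsForm o.B o.G) {l : ℤ} (hr : HR o.B.d o.L (cst o.G) l)
    (i : Fin X.n) (hl : ∀ ζ, 0 ≤ ζ → HL (dS o.B.d) (o.Lz i ζ)) (ζ : ℝ) (hζ : 0 ≤ ζ) :
    o.HRz i ζ (l + 1) := by
  obtain ⟨t, ht, h⟩ := HR.big (lef hG) hr (cst ((o.B.A X.rp).map (X.dd ℝ (X.s i))))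
    (cst (o.G.map (X.dd ℝ (X.s i))))
  rw [← Lz_eq, ← Cox.cst_formS] at h
  exact HR.deform (continuous_Lz o i) (fun t _ => lef_Lz hG i t) hl ht.le h ζ hζ

theorem sinv_of_retract {o : Obj D} (hG : IsForm o.B o.G) {M : Bim X.n} {i : Fin X.n}
    {f : Matrix (M.ι × Fin 2) o.B.ι (Rn X.n)} {p : Matrix o.B.ι (M.ι × Fin 2) (Rn X.n)}
    (hf : f ∈ Hom o.B (M.tens (X.Bs i)) 0) (hp : p ∈ Hom (M.tens (X.Bs i)) o.B 0) (e : p * f = 1)
    (h1 : ∀ F ∈ Hom (M.tens (X.Bs i)) (M.tens (X.Bs i)) (-2), F = 0) : o.SInv i := by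
  have hs := X.cs.isReflection_simple i
  have hQ := Hom.kron M (E1.qq_mem X i)
  have hQ' := Hom.kron M (E1.qq_mem' X i)
  have e1 : ((1 : Matrix M.ι M.ι (Rn X.n)) ⊗ₖ E1.qq X i (1 / 2)) *
      ((1 : Matrix M.ι M.ι (Rn X.n)) ⊗ₖ E1.qq X i (-(1 / 2))) = 1 := by
    rw [← mul_kronecker_mul, E1.qq_mul, Matrix.mul_one, one_kronecker_one]
  have e2 : ((1 : Matrix M.ι M.ι (Rn X.n)) ⊗ₖ E1.qq X i (-(1 / 2))) *
      ((1 : Matrix M.ι M.ι (Rn X.n)) ⊗ₖ E1.qq X i (1 / 2)) = 1 := by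
    rw [← mul_kronecker_mul, E1.qq_mul', Matrix.mul_one, one_kronecker_one]
  generalize (1 : Matrix M.ι M.ι (Rn X.n)) ⊗ₖ E1.qq X i (1 / 2) = Q' at hQ' e1 e2
  generalize (1 : Matrix M.ι M.ι (Rn X.n)) ⊗ₖ E1.qq X i (-(1 / 2)) = Q at hQ e1 e2
  have hY : ∀ q a b, X.act ℝ (X.s i) ((M.tens (E1.Bi X i)).A q a b) =
      (M.tens (E1.Bi X i)).A q a b := fun q a b => E1.Bi_inv X i (M.A q a.1 b.1) a.2 b.2
  have hY0 := E1.retract_zero hQ hQ' e1 h1
  have hf' := Hom.comp0 hf hQ'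
  have hp' := Hom.comp0 hQ hp
  have e' : p * Q * (Q' * f) = 1 := by
    rw [Matrix.mul_assoc, ← Matrix.mul_assoc Q, e2, Matrix.one_mul, e]
  generalize Q' * f = f₁ at hf' e'
  generalize p * Q = p₁ at hp' e'
  have hE := Hom.comp0 hp' hf'
  have hEE : f₁ * p₁ * (f₁ * p₁) = f₁ * p₁ := by
    rw [Matrix.mul_assoc, ← Matrix.mul_assoc p₁, e', Matrix.one_mul]
  have hEi := (E1.map_eq_zero_iff (i := i) (f₁ * p₁)).1 (hY0 _ ⟨fun a b => by
    have := (hE.1 a b).dd X hs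
    rw [add_zero, sub_right_comm, sub_eq_add_neg _ (2 : ℤ)] at this
    exact this, fun q => by
    rw [← E1.map_mul_left _ (hY q), ← E1.map_mul_right _ (hY q), hE.2 q]⟩)
  obtain ⟨N, j, hj, r, hr, e3, e4, hjS, hrS, hN⟩ := img_idem (M.tens (E1.Bi X i))
    (AlgHom.equalizer (X.act ℝ (X.s i)) (AlgHom.id ℝ _)) hE hEE hEi
  have hNi : ∀ q a b, X.act ℝ (X.s i) (N.A q a b) = N.A q a b := by
    intro q a b
    have a1 : ∀ a b, X.act ℝ (X.s i) (j a b) = j a b := hjS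
    have a2 : ∀ a b, X.act ℝ (X.s i) (r a b) = r a b := hrS
    simp only [hN, Matrix.mul_apply, map_sum, map_mul, a1, a2, hY]
  have hf2 := Hom.comp0 hj hp'
  have hp2 := Hom.comp0 hf' hr
  have e5 : r * f₁ * (p₁ * j) = 1 := by
    rw [Matrix.mul_assoc, ← Matrix.mul_assoc f₁, ← e4, Matrix.mul_assoc, e3, Matrix.mul_one, e3]
  have e6 : p₁ * j * (r * f₁) = 1 := by
    rw [Matrix.mul_assoc, ← Matrix.mul_assoc j, e4, Matrix.mul_assoc, e', Matrix.mul_one, e']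
  have e7 : (p₁ * j)ᵀ * o.G = (p₁ * j)ᵀ * o.G * (p₁ * j) * (r * f₁) := by
    rw [Matrix.mul_assoc _ (p₁ * j), e6, Matrix.mul_one]
  have hG' := hG.pull hf2 e5 e7
  refine ⟨⟨N, (p₁ * j)ᵀ * o.G * (p₁ * j), o.c⟩, hG', ⟨hNi, ?_⟩, p₁ * j, r * f₁,
    ⟨hf2, hp2, e5, by rw [one_smul]; exact e7⟩, e6⟩
  show ∀ a b, X.act ℝ (X.s i) (((p₁ * j)ᵀ * o.G * (p₁ * j)) a b) = ((p₁ * j)ᵀ * o.G * (p₁ * j)) a b
  generalize (p₁ * j)ᵀ * o.G * (p₁ * j) = G' at hG'
  rw [← E1.map_eq_zero_iff]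
  have h2 := E1.retract_zero hj hr e3 hY0 _ (hG'.inv_mul_mem (K := G'.map (X.dd ℝ (X.s i)))
    (k := -2) (fun a b => (hG'.2.1 a b).dd X hs) (fun q => by
      rw [← E1.map_mul_left (A := (N.A q)ᵀ) _ (fun a b => hNi q b a), ← E1.map_mul_right _ (hNi q), hG'.2.2.1 q]))
  rw [← Matrix.one_mul (G'.map _), ← Matrix.mul_nonsing_inv _ hG'.2.2.2, Matrix.mul_assoc, h2,
    Matrix.mul_zero]

/-- for an invariant bimodule, `M B_s` is the sum of two shifted copies of `M` -/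
theorem inv_split {M : Bim X.n} {i : Fin X.n}
    (h : ∀ q a b, X.act ℝ (X.s i) (M.A q a b) = M.A q a b) (e : Fin 2) :
    (Matrix.of fun (a : M.ι × Fin 2) (b : M.ι) => if a = (b, e) then (1 : Rn X.n) else 0) ∈
      Hom M (M.tens (X.Bs i)) (![-1, 1] e) ∧
    (Matrix.of fun (b : M.ι) (a : M.ι × Fin 2) => if a = (b, e) then (1 : Rn X.n) else 0) ∈
      Hom (M.tens (X.Bs i)) M (-(![-1, 1] e)) := by
  have hs := X.cs.isReflection_simple i
  have h1 : Hg (1 : Rn X.n) 0 := by simpa using Hg.C (n := X.n) 1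
  have hT : ∀ q a b e e', (M.tens (X.Bs i)).A q (a, e) (b, e') =
      if e = e' then M.A q a b else 0 := by
    intro q a b e e'
    show X.theta i (M.A q a b) e e' = _
    rw [Cox.theta_apply, h, (Cox.dd_eq_zero_iff ℝ hs _).2 (h q a b)]
    fin_cases e <;> fin_cases e' <;> simp
  refine ⟨⟨fun a b => ?_, fun q => ?_⟩, fun b a => ?_, fun q => ?_⟩
  · by_cases hab : a = (b, e)
    · subst hab
      simpa using h1
    · simpa [hab] using Hg.zero _
  · refine Matrix.ext fun ⟨a, e'⟩ b => ?_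
    simp only [Matrix.mul_apply, Matrix.of_apply, mul_ite, mul_one, mul_zero, Finset.sum_ite_eq',
      Finset.mem_univ, if_true, ite_mul, one_mul, zero_mul]
    rw [hT]
    by_cases he : e' = e <;> simp [he]
  · by_cases hab : a = (b, e)
    · subst hab
      simpa using h1
    · simpa [hab] using Hg.zero _
  · refine Matrix.ext fun b ⟨a, e'⟩ => ?_
    simp only [Matrix.mul_apply, Matrix.of_apply, mul_ite, mul_one, mul_zero, Finset.sum_ite_eq',
      Finset.mem_univ, if_true, ite_mul, one_mul, zero_mul]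
    rw [hT]
    by_cases he : e' = e
    · simp [he]
    · simp [he, Ne.symm he]

end Obj

end

end Pool.Agent.P.MP_1a0ecf_al
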