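import Pool.Agent.P.MP_1a0ecf_al.E1

/-! Package E2: hard Lefschetz on `B_x B_s`. -/

namespace Pool.Agent.P.MP_1a0ecf_al

open Matrix MvPolynomial
open scoped Classical Kronecker

noncomputable section

variable {X : Cox} {D : Hk X}

namespace E2

variable {ι κ : Type} [Fintype ι] [DecidableEq ι] [Fintype κ] [DecidableEq κ]

theorem pow_comm {A : Matrix κ κ ℝ} {B : Matrix ι ι ℝ} {F : Matrix κ ι ℝ} (h : A * F = F * B)
    (m : ℕ) (v : ι → ℝ) : (A ^ m) *ᵥ (F *ᵥ v) = F *ᵥ ((B ^ m) *ᵥ v) := by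
  induction m with
  | zero => simp
  | succ m ih =>
    rw [pow_succ', pow_succ', ← mulVec_mulVec, ← mulVec_mulVec, ih, mulVec_mulVec, h,
      ← mulVec_mulVec]

omit [DecidableEq ι] [DecidableEq κ] in
theorem dot_conj (F : Matrix κ ι ℝ) (G : Matrix κ κ ℝ) (b y : ι → ℝ) :
    b ⬝ᵥ (Fᵀ * G * F) *ᵥ y = (F *ᵥ b) ⬝ᵥ G *ᵥ (F *ᵥ y) := by
  rw [← mulVec_mulVec, ← mulVec_mulVec, dotProduct_mulVec, vecMul_transpose]

theorem blk_pow (L : Matrix ι ι ℝ) (m : ℕ) (w : ι × Fin 2 → ℝ) :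
    (fun a => ((blk L 0 0 L ^ m) *ᵥ w) (a, 1)) = (L ^ m) *ᵥ fun a => w (a, 1) := by
  induction m with
  | zero => simp
  | succ m ih =>
    funext a
    rw [pow_succ', pow_succ', ← mulVec_mulVec, ← mulVec_mulVec, (blk_mulVec _ _ _ _ _ a).2, ih]
    simp

theorem second {d : ι → ℤ} {L G : Matrix ι ι ℝ} (h : HL d L) {k : ℕ} {w : ι × Fin 2 → ℝ}
    (hw : InDeg (dS d) (-k) w) (h0 : (blk L 0 0 L ^ (k + 1)) *ᵥ w = 0) :
    (∀ a, w (a, 1) = 0) ∧ w ⬝ᵥ blk 0 G G 0 *ᵥ (blk L 0 0 L ^ k) *ᵥ w = 0 := by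
  have h1 : (fun a => w (a, 1)) = 0 := by
    refine h (k + 1) _ (fun a ha => hw _ fun e => ha ?_) ?_
    · simp only [dS] at e
      push_cast
      simp at e
      omega
    · rw [← blk_pow, h0]
      rfl
  have h2 : ∀ a, w (a, 1) = 0 := fun a => congrFun h1 a
  refine ⟨h2, ?_⟩
  rw [dotProduct, Fintype.sum_prod_type]
  refine Finset.sum_eq_zero fun a _ => ?_
  rw [Fin.sum_univ_two, h2, (blk_mulVec _ _ _ _ _ a).1, blk_pow, h1]
  simp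

end E2

namespace Obj

open E2

theorem Fac.hl {o : Obj D} {l : ℤ} {lam : Fin X.n → ℝ} {A : Type} [Fintype A] {t : A → Obj D}
    {c : A → ℝ} {φ} (h : Fac o l lam t c φ) (hl : 0 ≤ l) (hG : IsForm o.B o.G)
    (hr : HR o.B.d o.L (cst o.G) l) {i : Fin X.n} {ζ : ℝ} (hγ : 0 < X.B (X.al i) lam + ζ)
    (ht : ∀ a, (∃ l', Sg (l - 1) l' (c a) ∧ (t a).HRz i ζ (l' + 1)) ∨
      (ζ = 0 ∧ (t a).Inv i ∧ HL (t a).B.d (t a).L)) : HL (dS o.B.d) (o.Lz i ζ) := by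
  intro k b hb h0
  cases k with
  | zero => simpa using h0
  | succ k =>
  by_contra hne
  obtain ⟨j, hj⟩ : ∃ j : ℤ, l = k + 2 * j := by
    obtain ⟨a, ha⟩ := Function.ne_iff.1 hne
    have e : dS o.B.d a = -((k + 1 : ℕ) : ℤ) := by
      by_contra e
      exact ha (hb a e)
    obtain ⟨r, hr'⟩ := hr.1 a.1
    obtain ⟨a, e2⟩ := a
    simp only [dS] at e hr'
    fin_cases e2
    · simp at e
      exact ⟨-r - k, by omega⟩
    · simp at e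
      exact ⟨-r - k - 1, by omega⟩
  have hk : -((k + 1 : ℕ) : ℤ) + 1 = -(k : ℤ) := by
    push_cast
    ring
  have wd : ∀ a, InDeg (dS (t a).B.d) (-k) (cst (Th (X.Bs i) (φ a)) *ᵥ b) := fun a =>
    hk ▸ (Gr.degM (Hom.th (X.Bs i) (h.hom a)).1).inDeg hb
  have wc := fun a => pow_comm (Lz_comm (h.hom a) i ζ)
  have w0 : ∀ a, ((t a).Lz i ζ ^ (k + 1)) *ᵥ (cst (Th (X.Bs i) (φ a)) *ᵥ b) = 0 := fun a => by
    rw [wc, h0, mulVec_zero]
  have ud : InDeg o.B.d (-k) (cst (X.dot i o.B.ι) *ᵥ b) :=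
    hk ▸ (Gr.degM (Cox.dot_mem i o.B).1).inDeg hb
  have uc := pow_comm (dot_Lz o i ζ)
  have u0 : (o.L ^ (k + 1)) *ᵥ (cst (X.dot i o.B.ι) *ᵥ b) = 0 := by
    rw [uc, h0, mulVec_zero]
  set q : A → ℝ := fun a => (cst (Th (X.Bs i) (φ a)) *ᵥ b) ⬝ᵥ cst (X.formS i (t a).G) *ᵥ
    ((t a).Lz i ζ ^ k) *ᵥ (cst (Th (X.Bs i) (φ a)) *ᵥ b) with hq
  set q0 : ℝ := (cst (X.dot i o.B.ι) *ᵥ b) ⬝ᵥ cst o.G *ᵥ
    (o.L ^ k) *ᵥ (cst (X.dot i o.B.ι) *ᵥ b) with hq0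
  have sum0 : ∑ a, (-1 : ℝ) ^ j * (c a * q a) +
      (-1 : ℝ) ^ j * ((X.B (X.al i) lam + ζ) * q0) = 0 := by
    have e : b ⬝ᵥ (cst (X.formS i o.G) * o.Lz i ζ) *ᵥ (o.Lz i ζ ^ k) *ᵥ b = 0 := by
      rw [← mulVec_mulVec, mulVec_mulVec b (o.Lz i ζ), ← pow_succ', h0, mulVec_zero,
        dotProduct_zero]
    rw [h.form_Lz, add_mulVec, dotProduct_add, sum_mulVec, dotProduct_sum, smul_mulVec,
      dotProduct_smul, dot_conj, ← uc] at e
    simp only [smul_mulVec, dotProduct_smul, dot_conj, ← wc, smul_eq_mul] at e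
    rw [← Finset.mul_sum, ← mul_add]
    exact mul_eq_zero_of_right _ e
  have hu := hr.nonneg (Sg.of_pos l hγ) hj ud u0
  have hs : (-1 : ℝ) ^ j ≠ 0 := zpow_ne_zero _ (by norm_num)
  have key : ∀ a, 0 ≤ (-1 : ℝ) ^ j * (c a * q a) ∧ ((-1 : ℝ) ^ j * (c a * q a) = 0 →
      cst (X.dot i o.B.ι) *ᵥ b = 0 → cst (Th (X.Bs i) (φ a)) *ᵥ b = 0) := fun a => by
    rcases ht a with ⟨l', hc, hz⟩ | ⟨rfl, hi, hL⟩
    · have hc' := hc.add 1
      rw [sub_add_cancel] at hc'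
      have := HR.nonneg hz hc' hj (wd a) (w0 a)
      refine ⟨this.1, fun e _ => this.2 ?_⟩
      exact (mul_eq_zero.1 ((mul_eq_zero.1 e).resolve_left hs)).resolve_left hc.ne_zero
    · have e1 := hi.Lz 0
      rw [zero_smul] at e1
      have w1 := w0 a
      rw [e1.1] at w1
      have s := second (G := cst (t a).G) hL (wd a) w1
      have e2 : q a = 0 := by
        simp only [hq]
        rw [e1.1, e1.2]
        exact s.2
      refine ⟨by simp [e2], fun _ hu0 => funext fun ⟨y, e⟩ => ?_⟩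
      fin_cases e
      · rw [Cox.cst_dot_mulVec] at hu0
        have := (Cox.cst_Th_mulVec i (φ a) b y).1
        rw [hu0, mulVec_zero] at this
        exact this
      · exact s.1 y
  have n1 : 0 ≤ ∑ a, (-1 : ℝ) ^ j * (c a * q a) := Finset.sum_nonneg fun a _ => (key a).1
  have z1 : ∑ a, (-1 : ℝ) ^ j * (c a * q a) = 0 := by linarith [hu.1]
  have z2 : (-1 : ℝ) ^ j * ((X.B (X.al i) lam + ζ) * q0) = 0 := by linarith [hu.1]
  have z3 := hu.2 ((mul_eq_zero.1 ((mul_eq_zero.1 z2).resolve_left hs)).resolve_left hγ.ne')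
  rw [Finset.sum_eq_zero_iff_of_nonneg fun a _ => (key a).1] at z1
  refine hne ((h.tS i).ker _ b (by push_cast; omega) hb fun a => ?_)
  cases a with
  | none => exact z3
  | some a => exact (key a).2 (z1 a (Finset.mem_univ _)) z3

theorem Stage.hrz_top {O : X.W → Obj D} {m : ℕ} (h : Stage O m) {x : X.W} {i : Fin X.n}
    (hx : X.len x = m) (hi : X.len x < X.len (x * X.s i)) (ζ : ℝ) (hζ : 0 ≤ ζ) :
    (O x).HRz i ζ (X.len x + 1) := by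
  obtain ⟨A, _, z, t, c, φ, hz, hF⟩ := h.phi x hx.le
  have g := (h.ind x hx.le).1
  refine hrz_all g.form g.hr i (fun ζ hζ => ?_) ζ hζ
  have hγ : 0 < X.B (X.al i) (X.σ x⁻¹ *ᵥ X.rho) + ζ := by linarith [X.gamma_pos hi]
  have ex : ∀ a, ∃ (t' : Obj D) (f : Matrix t'.B.ι (t a).B.ι (Rn X.n))
      (p : Matrix (t a).B.ι t'.B.ι (Rn X.n)), Smd (t a) t' 1 f p ∧
      ((∃ l', Sg ((X.len x : ℤ) - 1) l' (c a) ∧ t'.HRz i ζ (l' + 1)) ∨
        (ζ = 0 ∧ t'.Inv i ∧ HL t'.B.d t'.L)) := fun a => by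
    obtain ⟨h1, h2, h3⟩ := hz a
    have h4 : X.len (z a) < m := hx ▸ h1
    rw [h2]
    rcases lt_or_gt_of_ne (X.cs.length_mul_simple_ne (z a) i) with h5 | h5
    · have g' := (h.ind (z a) h4.le).1
      have si := h.inv (z a) i h4.le h5
      rcases hζ.eq_or_lt with rfl | h6
      · obtain ⟨o', -, hinv, f, p, hs, e⟩ := si
        exact ⟨o', p, f, hs.symm e, Or.inr ⟨rfl, hinv, (hs.hr (Sg.one _) g'.hr).hl⟩⟩
      · exact ⟨_, 1, 1, Smd.refl _, Or.inl ⟨_, h3, si.hrz g'.hr h6⟩⟩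
    · exact ⟨_, 1, 1, Smd.refl _, Or.inl ⟨_, h3, h.hrz (z a) i h4 h5 ζ hζ⟩⟩
  choose t' f p hs ht using ex
  exact (hF.isom hs).hl (Int.natCast_nonneg _) g.form g.hr hγ ht

end Obj

end

end Pool.Agent.P.MP_1a0ecf_al
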