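import Pool.Agent.P.MP_1a0ecf_al.M8

/-! Package M9: orthogonal summands and factorisations. -/

namespace Pool.Agent.P.MP_1a0ecf_al

open Matrix MvPolynomial
open scoped Classical Kronecker

noncomputable section

variable {X : Cox} {D : Hk X}

namespace Obj

theorem Smd.form {o' o : Obj D} {c : ℝ} {f p} (h : Smd o' o c f p) :
    fᵀ * o.G * f = c • o'.G := by
  rw [h.adj, Matrix.smul_mul, Matrix.mul_assoc, h.pf, Matrix.mul_one]

theorem Smd.form' {o' o : Obj D} {c : ℝ} {f p} (h : Smd o' o c f p) (hG : o.Gᵀ = o.G)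
    (hG' : o'.Gᵀ = o'.G) : o.G * f * p = c • (pᵀ * o'.G * p) := by
  have e := congrArg Matrix.transpose h.adj
  rw [transpose_mul, transpose_transpose, hG, transpose_smul, transpose_mul, hG'] at e
  rw [e, Matrix.smul_mul]

theorem Smd.refl (o : Obj D) : Smd o o 1 1 1 := by
  exact ⟨Hom.one _, Hom.one _, Matrix.mul_one _, by simp⟩

theorem Smd.comp {o'' o' o : Obj D} {c c' : ℝ} {f p f' p'} (h : Smd o' o c f p)
    (h' : Smd o'' o' c' f' p') : Smd o'' o (c * c') (f * f') (p' * p) := by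
  refine ⟨Hom.comp0 h'.hf h.hf, Hom.comp0 h.hp h'.hp, ?_, ?_⟩
  · rw [Matrix.mul_assoc, ← Matrix.mul_assoc p, h.pf, Matrix.one_mul, h'.pf]
  · rw [transpose_mul, Matrix.mul_assoc, h.adj, Matrix.mul_smul, ← Matrix.mul_assoc, h'.adj,
      Matrix.smul_mul, smul_smul, Matrix.mul_assoc]

theorem Smd.tS {o' o : Obj D} {c : ℝ} {f p} (h : Smd o' o c f p) (i : Fin X.n) :
    Smd (o'.tS i) (o.tS i) c (Th (X.Bs i) f) (Th (X.Bs i) p) := by
  refine ⟨Hom.th _ h.hf, Hom.th _ h.hp, ?_, Cox.Th_transpose_mul_formS i f _ _ p c h.adj⟩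
  rw [← Th_mul, h.pf, Th_one]

theorem Smd.symm {o' o : Obj D} {f p} (h : Smd o' o 1 f p) (e : f * p = 1) :
    Smd o o' 1 p f := by
  refine ⟨h.hp, h.hf, e, ?_⟩
  have a := h.adj
  rw [one_smul] at a ⊢
  have b : o.G = pᵀ * (o'.G * p) := by
    rw [← a, ← Matrix.mul_assoc, ← transpose_mul, e, transpose_one, Matrix.one_mul]
  rw [b, Matrix.mul_assoc, Matrix.mul_assoc, h.pf, Matrix.mul_one]

theorem Smd.hr {o' o : Obj D} {c : ℝ} {f p} (h : Smd o' o c f p) {l l' : ℤ} (hc : Sg l l' c)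
    (hr : HR o.B.d o.L (cst o.G) l) : HR o'.B.d o'.L (cst o'.G) l' := by
  refine hr.sub (f := cst f) (p := cst p) (Gr.degM h.hf.1) ?_ (L_comm h.hf) ?_ hc
  · rw [← cst_mul, h.pf, cst_one]
  · rw [← cst_transpose, ← cst_mul, ← cst_mul, h.form, cst_smul]

theorem Smd.hrz {o' o : Obj D} {c : ℝ} {f p} (h : Smd o' o c f p) {l l' : ℤ} (hc : Sg l l' c)
    {i : Fin X.n} {ζ : ℝ} (hr : o.HRz i ζ l) : o'.HRz i ζ l' := by
  have h' := h.tS i
  refine HR.sub hr (f := cst (Th (X.Bs i) f)) (p := cst (Th (X.Bs i) p)) (Gr.degM h'.hf.1) ?_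
    (Lz_comm h.hf i ζ) ?_ hc
  · rw [← cst_mul, h'.pf, cst_one]
  · have e := congrArg cst h'.form
    rwa [cst_mul, cst_mul, cst_transpose, cst_smul] at e

private theorem formS_add (i : Fin X.n) {ι : Type} [Fintype ι] [DecidableEq ι]
    (G H : Matrix ι ι (Rn X.n)) : X.formS i (G + H) = X.formS i G + X.formS i H := by
  unfold Cox.formS
  rw [Th_add, Matrix.mul_add]

private theorem formS_smul (i : Fin X.n) {ι : Type} [Fintype ι] [DecidableEq ι] (c : ℝ)
    (G : Matrix ι ι (Rn X.n)) : X.formS i (c • G) = c • X.formS i G := by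
  unfold Cox.formS
  rw [Th_smul, Matrix.mul_smul]

private theorem formS_sum (i : Fin X.n) {ι A : Type} [Fintype ι] [DecidableEq ι] (s : Finset A)
    (G : A → Matrix ι ι (Rn X.n)) : X.formS i (∑ a ∈ s, G a) = ∑ a ∈ s, X.formS i (G a) := by
  unfold Cox.formS
  rw [Th_sum, Matrix.mul_sum]

private theorem Fac.formS {o : Obj D} {l : ℤ} {lam : Fin X.n → ℝ} {A : Type} [Fintype A]
    {t : A → Obj D} {c : A → ℝ} {φ} (h : Fac o l lam t c φ) (i : Fin X.n) :
    X.formS i (o.G * o.B.A X.rp) =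
      ∑ a, c a • ((Th (X.Bs i) (φ a))ᵀ * X.formS i (t a).G * Th (X.Bs i) (φ a)) +
        (lin ℝ (X.σ (X.s i) *ᵥ lam) • X.formS i o.G +
          X.B (X.al i) lam • ((X.dot i o.B.ι)ᵀ * o.G * X.dot i o.B.ι)) := by
  rw [h.form, formS_add, formS_sum, Cox.formS_lin]
  congr 1
  refine Finset.sum_congr rfl fun a _ => ?_
  rw [formS_smul, Cox.formS_conj]

private theorem cst_lin {ι κ : Type} (v : Fin X.n → ℝ) (F : Matrix κ ι (Rn X.n)) :
    cst (lin ℝ v • F) = 0 := by
  rw [cst_psmul, (Hg.lin v).cc_eq_zero two_ne_zero, zero_smul]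

/-- the targets of the factorisation on `o B_s` -/
def optT {A : Type} (o : Obj D) (t : A → Obj D) (i : Fin X.n) : Option A → Obj D
  | none => o
  | some a => (t a).tS i

/-- the maps of the factorisation on `o B_s` -/
def optF {A : Type} (o : Obj D) (t : A → Obj D) (i : Fin X.n)
    (φ : ∀ a, Matrix (t a).B.ι o.B.ι (Rn X.n)) :
    ∀ a, Matrix (optT o t i a).B.ι (o.tS i).B.ι (Rn X.n)
  | none => X.dot i o.B.ι
  | some a => Th (X.Bs i) (φ a)

theorem Fac.tS {o : Obj D} {l : ℤ} {lam : Fin X.n → ℝ} {A : Type} [Fintype A] {t : A → Obj D}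
    {c : A → ℝ} {φ} (h : Fac o l lam t c φ) (i : Fin X.n) :
    Fac (o.tS i) (l + 1) (X.σ (X.s i) *ᵥ lam) (optT o t i)
      (fun a => a.elim (X.B (X.al i) lam) c) (optF o t i φ) := by
  refine ⟨fun a => ?_, ?_, fun k v hk hv h0 => ?_⟩
  · cases a with
    | none => exact Cox.dot_mem i o.B
    | some a => exact Hom.th _ (h.hom a)
  · have e := h.formS i
    rw [Cox.formS_mul] at e
    rw [Fintype.sum_option]
    have key : ∀ S L B : Matrix (o.B.ι × Fin 2) (o.B.ι × Fin 2) (Rn X.n),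
        S + (L + B) = B + S + L := fun S L B => by abel
    exact e.trans (key _ _ _)
  · have h1 : (fun a => v (a, 0)) = 0 := by
      rw [← Cox.cst_dot_mulVec i v]
      exact h0 none
    have h2 : (fun a => v (a, 1)) = 0 := by
      refine h.ker (k - 1) _ (by omega) (fun a ha => hv (a, 1) fun e => ha ?_) fun a => ?_
      · have e' : o.B.d a + 1 = k := e
        omega
      · funext b
        have e := (Cox.cst_Th_mulVec i (φ a) v b).2
        rw [h1, Matrix.mulVec_zero, zero_add] at e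
        rw [← e]
        exact congrFun (h0 (some a)) (b, 1)
    funext b
    obtain ⟨a, j⟩ := b
    fin_cases j
    · exact congrFun h1 a
    · exact congrFun h2 a

theorem Fac.form_Lz {o : Obj D} {l : ℤ} {lam : Fin X.n → ℝ} {A : Type} [Fintype A]
    {t : A → Obj D} {c : A → ℝ} {φ} (h : Fac o l lam t c φ) (i : Fin X.n) (ζ : ℝ) :
    cst (X.formS i o.G) * o.Lz i ζ =
      ∑ a, c a • ((cst (Th (X.Bs i) (φ a)))ᵀ * cst (X.formS i (t a).G) * cst (Th (X.Bs i) (φ a))) +
        (X.B (X.al i) lam + ζ) •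
          ((cst (X.dot i o.B.ι))ᵀ * cst o.G * cst (X.dot i o.B.ι)) := by
  unfold Lz
  rw [← cst_mul, ← Cox.formS_mul, Matrix.mul_add, Matrix.mul_smul, Matrix.mul_smul,
    Matrix.mul_one, formS_add, h.formS i, formS_smul, Cox.formS_lin, X.B_al_rho]
  simp only [cst_add, cst_sum, cst_smul, cst_lin, cst_mul, cst_transpose, zero_add, one_smul]
  rw [add_smul, add_assoc]

/-- restriction to a summand -/
theorem Fac.restrict {o o' : Obj D} {l : ℤ} {lam : Fin X.n → ℝ} {A : Type} [Fintype A]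
    {t : A → Obj D} {c : A → ℝ} {φ} (h : Fac o l lam t c φ) {f p} (hs : Smd o' o 1 f p) :
    Fac o' l lam t c fun a => φ a * f := by
  refine ⟨fun a => Hom.comp0 hs.hf (h.hom a), ?_, fun k v hk hv h0 => ?_⟩
  · have e := hs.form
    rw [one_smul] at e
    have e2 : o'.G * o'.B.A X.rp = fᵀ * (o.G * o.B.A X.rp) * f := by
      rw [← e, Matrix.mul_assoc, ← hs.hf.2, Matrix.mul_assoc, Matrix.mul_assoc, Matrix.mul_assoc]
    rw [e2, h.form, Matrix.mul_add, Matrix.add_mul, Matrix.mul_smul, Matrix.smul_mul, e,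
      Matrix.mul_sum, Matrix.sum_mul]
    congr 1
    refine Finset.sum_congr rfl fun a _ => ?_
    simp only [Matrix.mul_smul, Matrix.smul_mul, transpose_mul, Matrix.mul_assoc]
  · have h1 := (Gr.degM hs.hf.1).inDeg hv
    rw [add_zero] at h1
    have h2 := h.ker k _ hk h1 fun a => by
      rw [Matrix.mulVec_mulVec, ← cst_mul]
      exact h0 a
    have h3 := congrArg (fun w => cst p *ᵥ w) h2
    simp only [Matrix.mulVec_mulVec, Matrix.mulVec_zero] at h3
    rwa [← cst_mul, hs.pf, cst_one, Matrix.one_mulVec] at h3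

/-- replacing the targets by isometric ones -/
theorem Fac.isom {o : Obj D} {l : ℤ} {lam : Fin X.n → ℝ} {A : Type} [Fintype A]
    {t t' : A → Obj D} {c : A → ℝ} {φ} (h : Fac o l lam t c φ)
    {f : ∀ a, Matrix (t' a).B.ι (t a).B.ι (Rn X.n)} {p : ∀ a, Matrix (t a).B.ι (t' a).B.ι (Rn X.n)}
    (hs : ∀ a, Smd (t a) (t' a) 1 (f a) (p a)) : Fac o l lam t' c fun a => f a * φ a := by
  refine ⟨fun a => Hom.comp0' (h.hom a) (hs a).hf, ?_, fun k v hk hv h0 => ?_⟩
  · rw [h.form]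
    congr 1
    refine Finset.sum_congr rfl fun a _ => ?_
    have e := (hs a).form
    rw [one_smul] at e
    rw [← e]
    simp only [transpose_mul, Matrix.mul_assoc]
  · refine h.ker k v hk hv fun a => ?_
    have h3 := congrArg (fun w => cst (p a) *ᵥ w) (h0 a)
    simp only [Matrix.mulVec_mulVec, Matrix.mulVec_zero] at h3
    rwa [← cst_mul, ← Matrix.mul_assoc, (hs a).pf, Matrix.one_mul] at h3

end Obj

end

end Pool.Agent.P.MP_1a0ecf_al
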