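import Pool.Agent.P.MP_1a0ecf_al.M7
import Pool.Agent.P.MP_1a0ecf_al.M9

/-! Package E3: splitting off summands. -/

namespace Pool.Agent.P.MP_1a0ecf_al

open Matrix MvPolynomial
open scoped Classical Kronecker

noncomputable section

variable {X : Cox} {D : Hk X}

private theorem pow_comm_of {ι κ : Type} [Fintype ι] [DecidableEq ι] [Fintype κ] [DecidableEq κ]
    {L : Matrix ι ι ℝ} {L' : Matrix κ κ ℝ} {f : Matrix ι κ ℝ} (h : L * f = f * L') (k : ℕ) :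
    L ^ k * f = f * L' ^ k := by
  induction k with
  | zero => simp
  | succ k ih => rw [pow_succ, pow_succ, Matrix.mul_assoc, h, ← Matrix.mul_assoc, ih,
      Matrix.mul_assoc]

private theorem level_of {ι : Type} {d : ι → ℤ} {l : ℤ} (h : ∀ a, Even (d a - l)) {i : ℕ}
    {v : ι → ℝ} (hv : InDeg d (-i) v) (h0 : v ≠ 0) : ∃ j : ℤ, l = i + 2 * j := by
  obtain ⟨a, ha⟩ := Function.ne_iff.mp h0
  have h1 : d a = -i := by
    by_contra hne
    exact ha (hv a hne)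
  obtain ⟨k, hk⟩ := h a
  exact ⟨-k - i, by omega⟩

private theorem sg_of {l l' : ℤ} {i : ℕ} {j j' : ℤ} (hj : l = i + 2 * j) (hj' : l' = i + 2 * j')
    {c q : ℝ} (h : 0 < (-1 : ℝ) ^ j * (c * q)) (h' : 0 < (-1 : ℝ) ^ j' * q) : Sg l l' c := by
  refine ⟨j - j', by omega, ?_⟩
  have e : (-1 : ℝ) ^ j = (-1) ^ (j - j') * (-1) ^ j' := by
    rw [← zpow_add₀ (by norm_num)]
    congr 1
    ring
  rw [e] at h
  have h2 : (-1 : ℝ) ^ (j - j') * (-1) ^ j' * (c * q) =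
      ((-1) ^ (j - j') * c) * ((-1) ^ j' * q) := by ring
  rw [h2] at h
  exact (pos_iff_pos_of_mul_pos h).mpr h'

namespace Obj

theorem exists_smd {o o' : Obj D} {u : X.W} {l : ℤ} (h' : o'.Ind u) (h : o.Good l)
    (h0 : (D.co o.c u).coeff 0 ≠ 0) : ∃ c f p, Sg l (X.len u) c ∧ Smd o' o c f p := by
  have hfin : Module.finrank ℝ (Hom o'.B o.B 0) ≠ 0 := by
    intro e
    have h1 := Hk.HF.finrank_zero h.hf h'.1.fl (D.pr_degLe h'.1.np h.np)
    rw [e, D.pr_coeff_zero h'.2 h.np] at h1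
    exact h0 h1.symm
  obtain ⟨⟨f, hf⟩, hf0⟩ : ∃ F : Hom o'.B o.B 0, F ≠ 0 := by
    by_contra hne
    push Not at hne
    exact hfin (Module.finrank_zero_iff.mpr ⟨fun a b => by rw [hne a, hne b]⟩)
  have hc0 : cst f ≠ 0 := fun e => hf0 (Subtype.ext
    (Hk.eq_zero_of_cst h.hf h.qp h.np h'.1.fl h'.1.np hf e))
  have hg := h'.1.form.adj_mem h.form hf
  obtain ⟨c, hc⟩ := h'.end_scalar (Hom.comp0 hf hg)
  have hGg : o'.G * (o'.G⁻¹ * fᵀ * o.G) = fᵀ * o.G := by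
    rw [← Matrix.mul_assoc, ← Matrix.mul_assoc, Matrix.mul_nonsing_inv _ h'.1.form.2.2.2,
      Matrix.one_mul]
  have hform : fᵀ * o.G * f = c • o'.G := by
    rw [← hGg, Matrix.mul_assoc, hc, Matrix.mul_smul, Matrix.mul_one]
  have hform' : (cst f)ᵀ * cst o.G * cst f = c • cst o'.G := by
    rw [← cst_transpose, ← cst_mul, ← cst_mul, hform, cst_smul]
  have hL := L_comm hf
  obtain ⟨i, v, hv, hp, hfv⟩ := HL.exists_prim (lef h'.1.form) h'.1.hr.hl hL hc0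
  have hv0 : v ≠ 0 := fun e => hfv (by rw [e, Matrix.mulVec_zero])
  have hw : InDeg o.B.d (-i) (cst f *ᵥ v) := by
    simpa using (Gr.degM hf.1).inDeg hv
  obtain ⟨j, hj⟩ := level_of h.hr.1 hw hfv
  obtain ⟨j', hj'⟩ := level_of h'.1.hr.1 hv hv0
  have hq' := h'.1.hr.2 i j' hj' v hv hv0 hp
  have hq := h.hr.2 i j hj _ hw hfv (by
    rw [Matrix.mulVec_mulVec, pow_comm_of hL, ← Matrix.mulVec_mulVec, hp, Matrix.mulVec_zero])
  have e : (cst f *ᵥ v) ⬝ᵥ cst o.G *ᵥ (o.L ^ i) *ᵥ cst f *ᵥ v =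
      c * (v ⬝ᵥ cst o'.G *ᵥ (o'.L ^ i) *ᵥ v) := by
    rw [Matrix.mulVec_mulVec v, pow_comm_of hL, ← Matrix.mulVec_mulVec v, Matrix.mulVec_mulVec,
      ← Matrix.vecMul_transpose, ← Matrix.dotProduct_mulVec, Matrix.mulVec_mulVec,
      ← Matrix.mul_assoc, hform', Matrix.smul_mulVec, dotProduct_smul, smul_eq_mul]
  rw [e] at hq
  have hs := sg_of hj hj' hq hq'
  have hc1 := hs.ne_zero
  refine ⟨c, f, c⁻¹ • (o'.G⁻¹ * fᵀ * o.G), hs, hf, (Hom o.B o'.B 0).smul_mem _ hg, ?_, ?_⟩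
  · rw [Matrix.smul_mul, hc, smul_smul, inv_mul_cancel₀ hc1, one_smul]
  · rw [Matrix.mul_smul, smul_smul, mul_inv_cancel₀ hc1, one_smul, hGg]

theorem Good.compl {o o' : Obj D} {l l' : ℤ} (h : o.Good l) (h' : o'.Good l') {c : ℝ} (hc : c ≠ 0)
    {f p} (hs : Smd o' o c f p) : ∃ (r : Obj D) (f' : Matrix o.B.ι r.B.ι (Rn X.n))
      (p' : Matrix r.B.ι o.B.ι (Rn X.n)), r.Good l ∧ Smd r o 1 f' p' ∧ f * p + f' * p' = 1 ∧
        p * f' = 0 ∧ p' * f = 0 ∧ o.c = o'.c + r.c := by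
  have _ := hc
  obtain ⟨N, f', hf', p', hp', e1, e2, e3, e4⟩ := exists_compl hs.hf hs.hp hs.pf
  have h1 : fᵀ * o.G * f' = 0 := by
    rw [hs.adj, Matrix.smul_mul, Matrix.mul_assoc, e3, Matrix.mul_zero, smul_zero]
  have h2 : f'ᵀ * o.G * f = 0 := by
    have := congrArg Matrix.transpose h1
    rwa [Matrix.transpose_mul, Matrix.transpose_mul, Matrix.transpose_transpose, h.form.1,
      Matrix.transpose_zero, ← Matrix.mul_assoc] at this
  have h3 : f'ᵀ * o.G = f'ᵀ * o.G * f' * p' := by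
    calc f'ᵀ * o.G = f'ᵀ * o.G * (f * p + f' * p') := by rw [e2, Matrix.mul_one]
      _ = f'ᵀ * o.G * f' * p' := by
        rw [Matrix.mul_add, ← Matrix.mul_assoc, h2, Matrix.zero_mul, zero_add,
          ← Matrix.mul_assoc]
  have hsp : Split o.B o'.B N := ⟨f, hs.hf, p, hs.hp, f', hf', p', hp', hs.pf, e1, e2⟩
  have hr : Smd (⟨N, f'ᵀ * o.G * f', o.c - o'.c⟩ : Obj D) o 1 f' p' :=
    ⟨hf', hp', e1, by rw [one_smul]; exact h3⟩
  refine ⟨⟨N, f'ᵀ * o.G * f', o.c - o'.c⟩, f', p', ⟨h.form.pull hf' e1 h3,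
    Hk.Fl.compl hsp h.fl h'.fl, Hk.HF.compl hsp h.hf h'.hf, h.qp.retract hf' hp' e1,
    hr.hr (Sg.one l) h.hr, ?_, fun w => ?_⟩, hr, e2, e3, e4, ?_⟩
  · show D.bar (o.c - o'.c) = o.c - o'.c
    rw [map_sub, h.bar, h'.bar]
  · show DegLe (D.T.repr (o.c - o'.c) w) 0
    rw [map_sub, Finsupp.sub_apply]
    exact (h.np w).sub (h'.np w)
  · show o.c = o'.c + (o.c - o'.c)
    abel

private theorem Dec.cons {O : X.W → Obj D} {U : Set X.W} {o r₁ r : Obj D} {l : ℤ} {u₀ : X.W}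
    (hu : u₀ ∈ U) {c₀ : ℝ} {f₀ p₀ f₁ p₁} (hc : Sg l (X.len u₀) c₀) (h₀ : Smd (O u₀) o c₀ f₀ p₀)
    (h₁ : Smd r₁ o 1 f₁ p₁) (e : f₀ * p₀ + f₁ * p₁ = 1) (e₁ : p₀ * f₁ = 0) (e₂ : p₁ * f₀ = 0)
    (ec : o.c = (O u₀).c + r₁.c) (h : Dec O U r₁ l r) : Dec O U o l r := by
  obtain ⟨A, _, u, t, c, f, p, f', p', ha, hr, hsum, hort, hort', hcc⟩ := h
  have hpf := h₁.pf
  refine ⟨Option A, inferInstance, fun a => a.elim u₀ u, fun a => a.elim (O u₀) t,
    fun a => a.elim c₀ c, fun a => match a with | none => f₀ | some a => f₁ * f a,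
    fun a => match a with | none => p₀ | some a => p a * p₁, f₁ * f', p' * p₁,
    ?_, ?_, ?_, ?_, ?_, ?_⟩
  · rintro (_ | a)
    · exact ⟨hu, rfl, hc, h₀⟩
    · refine ⟨(ha a).1, (ha a).2.1, (ha a).2.2.1, ?_⟩
      have := h₁.comp (ha a).2.2.2
      rwa [one_mul] at this
  · have := h₁.comp hr
    rwa [one_mul] at this
  · rw [Fintype.sum_option]
    show f₀ * p₀ + ∑ a, f₁ * f a * (p a * p₁) + f₁ * f' * (p' * p₁) = 1
    have : ∑ a, f₁ * f a * (p a * p₁) + f₁ * f' * (p' * p₁) =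
        f₁ * (∑ a, f a * p a + f' * p') * p₁ := by
      rw [Matrix.mul_add, Matrix.add_mul, Matrix.mul_sum, Matrix.sum_mul]
      simp only [Matrix.mul_assoc]
    rw [add_assoc, this, hsum, Matrix.mul_one, e]
  · rintro (_ | a) (_ | b) hab
    · exact absurd rfl hab
    · show p₀ * (f₁ * f b) = 0
      rw [← Matrix.mul_assoc, e₁, Matrix.zero_mul]
    · show p a * p₁ * f₀ = 0
      rw [Matrix.mul_assoc, e₂, Matrix.mul_zero]
    · show p a * p₁ * (f₁ * f b) = 0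
      rw [Matrix.mul_assoc, ← Matrix.mul_assoc p₁, hpf, Matrix.one_mul]
      exact hort a b fun e => hab (congrArg some e)
  · rintro (_ | a)
    · constructor
      · show p₀ * (f₁ * f') = 0
        rw [← Matrix.mul_assoc, e₁, Matrix.zero_mul]
      · show p' * p₁ * f₀ = 0
        rw [Matrix.mul_assoc, e₂, Matrix.mul_zero]
    · constructor
      · show p a * p₁ * (f₁ * f') = 0
        rw [Matrix.mul_assoc, ← Matrix.mul_assoc p₁, hpf, Matrix.one_mul]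
        exact (hort' a).1
      · show p' * p₁ * (f₁ * f a) = 0
        rw [Matrix.mul_assoc, ← Matrix.mul_assoc p₁, hpf, Matrix.one_mul]
        exact (hort' a).2
  · rw [Fintype.sum_option, ec, hcc, add_assoc]
    rfl

theorem greedy {O : X.W → Obj D} {U : Set X.W} (hU : ∀ u ∈ U, (O u).Ind u) {o : Obj D} {l : ℤ}
    (h : o.Good l) : ∃ r : Obj D, r.Good l ∧ Dec O U o l r ∧
      ∀ u ∈ U, (D.co r.c u).coeff 0 = 0 := by
  induction hn : Fintype.card o.B.ι using Nat.strong_induction_on generalizing o with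
  | _ m ih =>
    by_cases h0 : ∀ u ∈ U, (D.co o.c u).coeff 0 = 0
    · refine ⟨o, h, ⟨Empty, inferInstance, fun a => a.elim, fun a => a.elim, fun a => a.elim,
        fun a => a.elim, fun a => a.elim, 1, 1, fun a => a.elim, Smd.refl o, ?_, fun a => a.elim,
        fun a => a.elim, ?_⟩, h0⟩
      · simp
      · simp
    · push Not at h0
      obtain ⟨u, hu, h0⟩ := h0
      obtain ⟨c, f, p, hc, hs⟩ := exists_smd (hU u hu) h h0
      obtain ⟨r₁, f₁, p₁, hr₁, hs₁, e, e₁, e₂, ec⟩ := h.compl (hU u hu).1 hc.ne_zero hs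
      have hsp : Split o.B (O u).B r₁.B :=
        ⟨f, hs.hf, p, hs.hp, f₁, hs₁.hf, p₁, hs₁.hp, hs.pf, hs₁.pf, e⟩
      have hcard := hsp.card
      have hpos : 0 < Fintype.card (O u).B.ι := Fintype.card_pos_iff.mpr (hU u hu).nonempty
      obtain ⟨r, hr, hd, hz⟩ := ih (Fintype.card r₁.B.ι) (by omega) hr₁ rfl
      exact ⟨r, hr, Dec.cons hu hc hs hs₁ e e₁ e₂ ec hd, hz⟩

theorem Ind.good_tS {o : Obj D} {x : X.W} (h : o.Ind x) {i : Fin X.n}
    (hi : X.len x < X.len (x * X.s i)) (hr : o.HRz i 0 (X.len x + 1)) :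
    (o.tS i).Good (X.len x + 1) := by
  refine ⟨h.1.form.formS i, h.1.fl.tens i, h.1.hf.tens i, h.1.qp.tens i, ?_, ?_,
    (Hk.KLel.mul_Cs D h.2 hi).1⟩
  · rw [← Lz_zero]
    exact hr
  · show D.bar (o.c * D.Cs i) = o.c * D.Cs i
    rw [map_mul, h.1.bar, D.bar_Cs]

end Obj

end

end Pool.Agent.P.MP_1a0ecf_al
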