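import Pool.Agent.P.MP_1a0ecf_al.M2

/-! Package M6: the biadjunction for `B_s`. -/

namespace Pool.Agent.P.MP_1a0ecf_al

open Matrix MvPolynomial
open scoped Classical Kronecker

noncomputable section

namespace Cox

variable (X : Cox) (i : Fin X.n) {ι κ μ : Type}

private theorem m6_spec (p : Rn X.n) :
    X.act ℝ (X.s i) p = p - MvPolynomial.X i * X.dd ℝ (X.s i) p := by
  have h := dd_spec ℝ (X.cs.isReflection_simple i) p
  rw [X.rl_simple ℝ i] at h
  rw [← h]; ring

private theorem m6_actX : X.act ℝ (X.s i) (MvPolynomial.X i) = -MvPolynomial.X i := by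
  have h := X.act_rl ℝ (X.cs.isReflection_simple i)
  rwa [X.rl_simple ℝ i] at h

private theorem m6_ddX : X.dd ℝ (X.s i) (MvPolynomial.X i) = 2 := by
  have h := X.m6_spec i (MvPolynomial.X i)
  rw [X.m6_actX i] at h
  have h0 : (MvPolynomial.X i : Rn X.n) ≠ 0 := MvPolynomial.X_ne_zero i
  apply mul_left_cancel₀ h0
  linear_combination h

private theorem m6_adjP0 (F : Matrix (κ × Fin 2) ι (Rn X.n)) (a : κ) (b : ι) :
    X.adjP i F a (b, 0) = X.dd ℝ (X.s i) (F (a, 0) b) + F (a, 1) b := rfl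

private theorem m6_adjP1 (F : Matrix (κ × Fin 2) ι (Rn X.n)) (a : κ) (b : ι) :
    X.adjP i F a (b, 1) = F (a, 0) b + MvPolynomial.X i * F (a, 1) b := rfl

private theorem m6_adjM0 (G : Matrix κ (ι × Fin 2) (Rn X.n)) (a : κ) (b : ι) :
    X.adjM i G (a, 0) b = MvPolynomial.X i * X.act ℝ (X.s i) (G a (b, 0)) +
      X.act ℝ (X.s i) (G a (b, 1)) := rfl

private theorem m6_adjM1 (G : Matrix κ (ι × Fin 2) (Rn X.n)) (a : κ) (b : ι) :
    X.adjM i G (a, 1) b = -X.act ℝ (X.s i) (G a (b, 0)) + X.dd ℝ (X.s i) (G a (b, 1)) := rfl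

private theorem m6_Th00 (A : Matrix μ κ (Rn X.n)) (a : μ) (b : κ) :
    Th (X.Bs i) A (a, 0) (b, 0) = X.act ℝ (X.s i) (A a b) := rfl

private theorem m6_Th01 (A : Matrix μ κ (Rn X.n)) (a : μ) (b : κ) :
    Th (X.Bs i) A (a, 0) (b, 1) = 0 := rfl

private theorem m6_Th10 (A : Matrix μ κ (Rn X.n)) (a : μ) (b : κ) :
    Th (X.Bs i) A (a, 1) (b, 0) = X.dd ℝ (X.s i) (A a b) := rfl

private theorem m6_Th11 (A : Matrix μ κ (Rn X.n)) (a : μ) (b : κ) :
    Th (X.Bs i) A (a, 1) (b, 1) = A a b := rfl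

theorem adjM_adjP (F : Matrix (κ × Fin 2) ι (Rn X.n)) : X.adjM i (X.adjP i F) = F := by
  have ht := X.cs.isReflection_simple i
  ext1 ⟨a, j⟩ b
  have hj : j = 0 ∨ j = 1 := by fin_cases j <;> simp
  rcases hj with rfl | rfl
  · rw [m6_adjM0, m6_adjP0, m6_adjP1, map_add, map_add, map_mul, act_dd ℝ ht, m6_actX,
      X.m6_spec i (F (a, 0) b)]
    ring
  · rw [m6_adjM1, m6_adjP0, m6_adjP1, map_add, map_add, act_dd ℝ ht, dd_mul' ℝ ht, m6_ddX,
      X.m6_spec i (F (a, 1) b)]
    ring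

theorem adjP_adjM (G : Matrix κ (ι × Fin 2) (Rn X.n)) : X.adjP i (X.adjM i G) = G := by
  have ht := X.cs.isReflection_simple i
  ext1 a ⟨b, j⟩
  have hj : j = 0 ∨ j = 1 := by fin_cases j <;> simp
  rcases hj with rfl | rfl
  · rw [m6_adjP0, m6_adjM0, m6_adjM1, map_add, dd_mul' ℝ ht, m6_ddX, dd_act ℝ ht, dd_act ℝ ht,
      act_act ℝ ht, X.m6_spec i (G a (b, 0))]
    ring
  · rw [m6_adjP1, m6_adjM0, m6_adjM1, X.m6_spec i (G a (b, 1))]
    ring

theorem adjP_Th_mul [Fintype κ] (A : Matrix μ κ (Rn X.n)) (F : Matrix (κ × Fin 2) ι (Rn X.n)) :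
    X.adjP i (Th (X.Bs i) A * F) = A * X.adjP i F := by
  have ht := X.cs.isReflection_simple i
  ext1 a ⟨b, j⟩
  have e0 : (Th (X.Bs i) A * F) (a, 0) b = ∑ c, X.act ℝ (X.s i) (A a c) * F (c, 0) b := by
    rw [Matrix.mul_apply, Fintype.sum_prod_type]
    refine Finset.sum_congr rfl fun c _ => ?_
    rw [Fin.sum_univ_two, m6_Th00, m6_Th01]
    ring
  have e1 : (Th (X.Bs i) A * F) (a, 1) b =
      ∑ c, (X.dd ℝ (X.s i) (A a c) * F (c, 0) b + A a c * F (c, 1) b) := by
    rw [Matrix.mul_apply, Fintype.sum_prod_type]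
    refine Finset.sum_congr rfl fun c _ => ?_
    rw [Fin.sum_univ_two, m6_Th10, m6_Th11]
  have hj : j = 0 ∨ j = 1 := by fin_cases j <;> simp
  rcases hj with rfl | rfl
  · rw [m6_adjP0, e0, e1, map_sum, ← Finset.sum_add_distrib, Matrix.mul_apply]
    refine Finset.sum_congr rfl fun c _ => ?_
    rw [m6_adjP0, dd_mul ℝ ht, dd_act ℝ ht, act_act ℝ ht]
    ring
  · rw [m6_adjP1, e0, e1, Finset.mul_sum, ← Finset.sum_add_distrib, Matrix.mul_apply]
    refine Finset.sum_congr rfl fun c _ => ?_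
    rw [m6_adjP1, X.m6_spec i (A a c)]
    ring

theorem adjP_mul [Fintype ι] (F : Matrix (κ × Fin 2) ι (Rn X.n)) (A : Matrix ι μ (Rn X.n)) :
    X.adjP i (F * A) = X.adjP i F * Th (X.Bs i) A := by
  have ht := X.cs.isReflection_simple i
  ext1 a ⟨b, j⟩
  have hj : j = 0 ∨ j = 1 := by fin_cases j <;> simp
  rcases hj with rfl | rfl
  · rw [m6_adjP0, Matrix.mul_apply, Matrix.mul_apply, Matrix.mul_apply, Fintype.sum_prod_type,
      map_sum, ← Finset.sum_add_distrib]
    refine Finset.sum_congr rfl fun c _ => ?_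
    rw [Fin.sum_univ_two, m6_adjP0, m6_adjP1, m6_Th00, m6_Th10, dd_mul' ℝ ht,
      X.m6_spec i (A c b)]
    ring
  · rw [m6_adjP1, Matrix.mul_apply, Matrix.mul_apply, Matrix.mul_apply, Fintype.sum_prod_type,
      Finset.mul_sum, ← Finset.sum_add_distrib]
    refine Finset.sum_congr rfl fun c _ => ?_
    rw [Fin.sum_univ_two, m6_adjP0, m6_adjP1, m6_Th01, m6_Th11]
    ring

theorem adjM_mul [Fintype κ] (A : Matrix μ κ (Rn X.n)) (G : Matrix κ (ι × Fin 2) (Rn X.n)) :
    X.adjM i (A * G) = Th (X.Bs i) A * X.adjM i G := by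
  conv_lhs => rw [← X.adjP_adjM i G, ← X.adjP_Th_mul i A, X.adjM_adjP i]

private theorem m6_adjM_mul' [Fintype ι] (G : Matrix κ (ι × Fin 2) (Rn X.n))
    (A : Matrix ι μ (Rn X.n)) : X.adjM i (G * Th (X.Bs i) A) = X.adjM i G * A := by
  conv_lhs => rw [← X.adjP_adjM i G, ← X.adjP_mul i, X.adjM_adjP i]

private theorem m6_adjM_add (G G' : Matrix κ (ι × Fin 2) (Rn X.n)) :
    X.adjM i (G + G') = X.adjM i G + X.adjM i G' := by
  ext1 ⟨a, j⟩ b
  have hj : j = 0 ∨ j = 1 := by fin_cases j <;> simp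
  rcases hj with rfl | rfl
  · simp only [Matrix.add_apply, m6_adjM0, map_add]
    ring
  · simp only [Matrix.add_apply, m6_adjM1, map_add]
    ring

private theorem m6_adjM_zero : X.adjM i (0 : Matrix κ (ι × Fin 2) (Rn X.n)) = 0 := by
  ext1 ⟨a, j⟩ b
  have hj : j = 0 ∨ j = 1 := by fin_cases j <;> simp
  rcases hj with rfl | rfl
  · simp [m6_adjM0]
  · simp [m6_adjM1]

private theorem m6_adjP_add (F F' : Matrix (κ × Fin 2) ι (Rn X.n)) :
    X.adjP i (F + F') = X.adjP i F + X.adjP i F' := by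
  ext1 a ⟨b, j⟩
  have hj : j = 0 ∨ j = 1 := by fin_cases j <;> simp
  rcases hj with rfl | rfl
  · simp only [Matrix.add_apply, m6_adjP0, map_add]
    ring
  · simp only [Matrix.add_apply, m6_adjP1]
    ring

private theorem m6_adjP_smul (c : ℝ) (F : Matrix (κ × Fin 2) ι (Rn X.n)) :
    X.adjP i (c • F) = c • X.adjP i F := by
  ext1 a ⟨b, j⟩
  have hj : j = 0 ∨ j = 1 := by fin_cases j <;> simp
  rcases hj with rfl | rfl
  · simp only [Matrix.smul_apply, m6_adjP0, map_smul, smul_add]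
  · simp only [Matrix.smul_apply, m6_adjP1, smul_add, mul_smul_comm]

theorem adjM_sum {α : Type} (s : Finset α) (G : α → Matrix κ (ι × Fin 2) (Rn X.n)) :
    X.adjM i (∑ a ∈ s, G a) = ∑ a ∈ s, X.adjM i (G a) := by
  induction s using Finset.induction_on with
  | empty => simp [m6_adjM_zero]
  | insert a s ha ih => rw [Finset.sum_insert ha, Finset.sum_insert ha, m6_adjM_add, ih]

theorem adjP_invI {F : Matrix (κ × Fin 2) ι (Rn X.n)} (h : ∀ a b, F a b ∈ X.invI ℝ) (a : κ)
    (b : ι × Fin 2) : X.adjP i F a b ∈ X.invI ℝ := by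
  have ht := X.cs.isReflection_simple i
  obtain ⟨b, j⟩ := b
  have hj : j = 0 ∨ j = 1 := by fin_cases j <;> simp
  rcases hj with rfl | rfl
  · rw [m6_adjP0]
    exact add_mem (X.dd_mem_invI ℝ ht (h _ _)) (h _ _)
  · rw [m6_adjP1]
    exact add_mem (h _ _) (Ideal.mul_mem_left _ _ (h _ _))

private theorem m6_cast {n : ℕ} {p : Rn n} {k l : ℤ} (h : Hg p k) (e : k = l) : Hg p l := e ▸ h

theorem adjP_mem {N M : Bim X.n} {k : ℤ} {F : Matrix (M.ι × Fin 2) N.ι (Rn X.n)}
    (h : F ∈ Hom N (M.tens (X.Bs i)) k) : X.adjP i F ∈ Hom (N.tens (X.Bs i)) M k := by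
  have ht := X.cs.isReflection_simple i
  refine ⟨?_, fun p => ?_⟩
  · rintro a ⟨b, j⟩
    have h0 : Hg (F (a, 0) b) (N.d b + k - (M.d a + -1)) := h.1 (a, 0) b
    have h1 : Hg (F (a, 1) b) (N.d b + k - (M.d a + 1)) := h.1 (a, 1) b
    have hj : j = 0 ∨ j = 1 := by fin_cases j <;> simp
    rcases hj with rfl | rfl
    · change Hg (X.adjP i F a (b, 0)) (N.d b + -1 + k - M.d a)
      rw [m6_adjP0]
      exact (m6_cast (h0.dd X ht) (by ring)).add (m6_cast h1 (by ring))
    · change Hg (X.adjP i F a (b, 1)) (N.d b + 1 + k - M.d a)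
      rw [m6_adjP1]
      exact (m6_cast h0 (by ring)).add (m6_cast ((Hg.X i).mul h1) (by ring))
  · have e : Th (X.Bs i) (M.A p) * F = F * N.A p := h.2 p
    change M.A p * X.adjP i F = X.adjP i F * Th (X.Bs i) (N.A p)
    rw [← adjP_Th_mul, ← adjP_mul, e]

theorem adjM_mem {N M : Bim X.n} {k : ℤ} {G : Matrix M.ι (N.ι × Fin 2) (Rn X.n)}
    (h : G ∈ Hom (N.tens (X.Bs i)) M k) : X.adjM i G ∈ Hom N (M.tens (X.Bs i)) k := by
  have ht := X.cs.isReflection_simple i
  refine ⟨?_, fun p => ?_⟩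
  · rintro ⟨a, j⟩ b
    have h0 : Hg (G a (b, 0)) (N.d b + -1 + k - M.d a) := h.1 a (b, 0)
    have h1 : Hg (G a (b, 1)) (N.d b + 1 + k - M.d a) := h.1 a (b, 1)
    have hj : j = 0 ∨ j = 1 := by fin_cases j <;> simp
    rcases hj with rfl | rfl
    · change Hg (X.adjM i G (a, 0) b) (N.d b + k - (M.d a + -1))
      rw [m6_adjM0]
      exact (m6_cast ((Hg.X i).mul (h0.act X _)) (by ring)).add (m6_cast (h1.act X _) (by ring))
    · change Hg (X.adjM i G (a, 1) b) (N.d b + k - (M.d a + 1))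
      rw [m6_adjM1]
      exact (m6_cast (h0.act X _).neg (by ring)).add (m6_cast (h1.dd X ht) (by ring))
  · have e : M.A p * G = G * Th (X.Bs i) (N.A p) := h.2 p
    change Th (X.Bs i) (M.A p) * X.adjM i G = X.adjM i G * N.A p
    rw [← adjM_mul, ← m6_adjM_mul', e]

theorem finrank_adj (N M : Bim X.n) (k : ℤ) : Module.finrank ℝ (Hom N (M.tens (X.Bs i)) k) =
    Module.finrank ℝ (Hom (N.tens (X.Bs i)) M k) := by
  let e : Hom N (M.tens (X.Bs i)) k ≃ₗ[ℝ] Hom (N.tens (X.Bs i)) M k :=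
    { toFun := fun F => ⟨X.adjP i F.1, X.adjP_mem i F.2⟩
      map_add' := fun F G => Subtype.ext (X.m6_adjP_add i F.1 G.1)
      map_smul' := fun c F => Subtype.ext (X.m6_adjP_smul i c F.1)
      invFun := fun G => ⟨X.adjM i G.1, X.adjM_mem i G.2⟩
      left_inv := fun F => Subtype.ext (X.adjM_adjP i F.1)
      right_inv := fun G => Subtype.ext (X.adjP_adjM i G.1) }
  exact e.finrank_eq

private theorem m6_Rw_one (p : Rn X.n) {ν : Type} (F : Matrix Unit ν (Rn X.n)) (b : ν) :
    ((X.Rw 1).A p * F) () b = p * F () b := by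
  rw [Matrix.mul_apply]
  simp [act_one]

private theorem m6_exists_v {w : X.W} (hw : w ≠ 1) :
    ∃ v, lin ℝ v - X.act ℝ w⁻¹ (lin ℝ v) ≠ 0 := by
  by_contra hc
  push Not at hc
  apply hw
  have h1 : X.σ w⁻¹ = X.σ 1 := by
    rw [map_one]
    refine Matrix.ext_of_mulVec_single fun j => ?_
    have := hc (Pi.single j 1)
    rw [sub_eq_zero, act_lin, σK_real] at this
    rw [← lin_injective ℝ this, Matrix.one_mulVec]
  have := X.σ_injective h1
  exact inv_eq_one.mp this

/-- maps from a flag to `R` -/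
theorem mem_Hom_Rw_one {N : Bim X.n} {w : N.ι → X.W} (h : X.IsFlag N w) (k : ℤ)
    (F : Matrix Unit N.ι (Rn X.n)) : F ∈ Hom N (X.Rw 1) k ↔
      ∀ b, Hg (F () b) (N.d b + k) ∧ (w b ≠ 1 → F () b = 0) := by
  constructor
  · intro hF
    obtain ⟨r, hr, -⟩ := X.exists_rank
    have key : ∀ m : ℕ, ∀ b, Finset.univ.sup r - r (w b) = m → w b ≠ 1 → F () b = 0 := by
      intro m
      induction m using Nat.strong_induction_on with
      | _ m ih =>
        intro b hb hw
        obtain ⟨v, hv⟩ := X.m6_exists_v hw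
        have e := congrFun (congrFun (hF.2 (lin ℝ v)) ()) b
        rw [m6_Rw_one, Matrix.mul_apply, Finset.sum_eq_single b] at e
        · rw [(h v b b).1 rfl] at e
          have : (lin ℝ v - X.act ℝ (w b)⁻¹ (lin ℝ v)) * F () b = 0 := by
            linear_combination e
          exact (mul_eq_zero.mp this).resolve_left hv
        · intro a _ hab
          by_cases h0 : N.A (lin ℝ v) a b = 0
          · rw [h0, mul_zero]
          have hg := (h v a b).2 hab h0
          have h1 := hr _ _ hg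
          have h2 : r (w a) ≤ Finset.univ.sup r := Finset.le_sup (Finset.mem_univ _)
          have h3 : w a ≠ 1 := by
            intro h3
            have h4 := hg.1
            rw [h3] at h4
            exact lt_asymm h4 (X.ht_one_lt hw)
          rw [ih _ (by omega) a rfl h3, zero_mul]
        · intro hb
          exact absurd (Finset.mem_univ b) hb
    intro b
    refine ⟨?_, key _ b rfl⟩
    have := hF.1 () b
    simpa using this
  · intro hF
    refine ⟨fun a b => ?_, comm_of_lin fun v => ?_⟩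
    · simpa using (hF b).1
    · ext1 a b
      obtain rfl : a = () := rfl
      rw [m6_Rw_one, Matrix.mul_apply, Finset.sum_eq_single b]
      · rw [(h v b b).1 rfl]
        by_cases hw : w b = 1
        · rw [hw, inv_one, act_one, mul_comm]
        · rw [(hF b).2 hw]; simp
      · intro a _ hab
        by_cases h0 : N.A (lin ℝ v) a b = 0
        · rw [h0, mul_zero]
        have hg := (h v a b).2 hab h0
        have h3 : w a ≠ 1 := by
          intro h3
          have h4 := hg.1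
          rw [h3] at h4
          by_cases hw : w b = 1
          · rw [hw] at h4
            exact lt_irrefl _ h4
          · exact lt_asymm h4 (X.ht_one_lt hw)
        rw [(hF a).2 h3, zero_mul]
      · intro hb
        exact absurd (Finset.mem_univ b) hb

theorem finrank_Hom_Rw_one {N : Bim X.n} {w : N.ι → X.W} (h : X.IsFlag N w) (k : ℤ) :
    (Module.finrank ℝ (Hom N (X.Rw 1) k) : ℤ) =
      ∑ b with w b = 1, rdim X.n (k + N.d b) := by
  let S : ℤ → Submodule ℝ (Rn X.n) := fun m =>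
    weightedHomogeneousSubmodule ℝ (fun _ : Fin X.n => (2 : ℤ)) m
  let e : Hom N (X.Rw 1) k ≃ₗ[ℝ] ((b : {b // w b = 1}) → S (k + N.d b.1)) :=
    { toFun := fun F b => ⟨F.1 () b.1,
        m6_cast (((X.mem_Hom_Rw_one h k F.1).mp F.2) b.1).1 (add_comm _ _)⟩
      map_add' := fun F G => rfl
      map_smul' := fun c F => rfl
      invFun := fun g => ⟨fun _ b => if hb : w b = 1 then (g ⟨b, hb⟩).1 else 0,
        (X.mem_Hom_Rw_one h k _).mpr fun b => by
          by_cases hb : w b = 1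
          · refine ⟨?_, fun hn => absurd hb hn⟩
            simp only [dif_pos hb]
            exact m6_cast (g ⟨b, hb⟩).2 (add_comm _ _)
          · simp only [dif_neg hb]
            exact ⟨Hg.zero _, fun _ => trivial⟩⟩
      left_inv := fun F => by
        apply Subtype.ext
        ext1 a b
        by_cases hb : w b = 1
        · simp only [dif_pos hb]
        · simp only [dif_neg hb]
          exact ((((X.mem_Hom_Rw_one h k F.1).mp F.2) b).2 hb).symm
      right_inv := fun g => by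
        funext b
        apply Subtype.ext
        simp only [dif_pos b.2] }
  have hf0 := Hom.finite N (X.Rw 1) k
  have hfin : Module.Finite ℝ ((b : {b // w b = 1}) → S (k + N.d b.1)) := Module.Finite.equiv e
  have : ∀ b : {b // w b = 1}, Module.Finite ℝ (S (k + N.d b.1)) := fun b =>
    Module.Finite.of_surjective (LinearMap.proj (R := ℝ)
      (φ := fun b : {b // w b = 1} => S (k + N.d b.1)) b) (Function.surjective_eval b)
  rw [e.finrank_eq, Module.finrank_pi_fintype, Nat.cast_sum]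
  exact (Finset.sum_subtype (p := fun b => w b = 1) (Finset.univ.filter fun b => w b = 1)
    (by simp) (fun b => rdim X.n (k + N.d b))).symm

end Cox

end

end Pool.Agent.P.MP_1a0ecf_al
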