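import Pool.Agent.P.MP_1a0ecf_al.M5
import Pool.Agent.P.MP_1a0ecf_al.M6

/-! Package M7: the Hom formula and injectivity of reduction. -/

namespace Pool.Agent.P.MP_1a0ecf_al

open Matrix MvPolynomial
open scoped Classical Kronecker

noncomputable section

variable {X : Cox}

private theorem mul_invI_left {ι κ μ : Type} [Fintype κ] {A : Matrix ι κ (Rn X.n)}
    (h : ∀ a b, A a b ∈ X.invI ℝ) (B : Matrix κ μ (Rn X.n)) (a : ι) (b : μ) :
    (A * B) a b ∈ X.invI ℝ := by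
  rw [Matrix.mul_apply]
  exact Ideal.sum_mem _ fun c _ => Ideal.mul_mem_right _ _ (h a c)

private theorem mul_invI_right {ι κ μ : Type} [Fintype κ] (A : Matrix ι κ (Rn X.n))
    {B : Matrix κ μ (Rn X.n)} (h : ∀ a b, B a b ∈ X.invI ℝ) (a : ι) (b : μ) :
    (A * B) a b ∈ X.invI ℝ := by
  rw [Matrix.mul_apply]
  exact Ideal.sum_mem _ fun c _ => Ideal.mul_mem_left _ _ (h c b)

private theorem Rw_A (w : X.W) (p : Rn X.n) (a b : Unit) :
    (X.Rw w).A p a b = X.act ℝ w⁻¹ p := by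
  simp

private theorem Rw_one_mul {ι : Type} (p : Rn X.n) (F : Matrix Unit ι (Rn X.n)) (a : Unit) (b : ι) :
    ((X.Rw 1).A p * F) a b = p * F () b := by
  rw [Matrix.mul_apply, Fintype.sum_unique, Rw_A, inv_one, Cox.act_one]

private theorem mul_Rw {ι : Type} (w : X.W) (p : Rn X.n) (F : Matrix ι Unit (Rn X.n)) (a : ι)
    (b : Unit) : (F * (X.Rw w).A p) a b = F a () * X.act ℝ w⁻¹ p := by
  rw [Matrix.mul_apply, Fintype.sum_unique, Rw_A]

theorem Cox.qp_one (X : Cox) : X.QP (X.Rw 1) := by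
  rintro q hq N ⟨N', w, ⟨f, hf, g, hg, e1, -⟩, hw⟩ k F hF hI
  have hF' : F * g ∈ Hom N' (X.Rw 1) k := Hom.comp0 hg hF
  have hI' : ∀ b, q * (F * g) () b ∈ X.invI ℝ := fun b => by
    have := mul_invI_left hI g () b
    rwa [Matrix.mul_assoc, Rw_one_mul] at this
  have h1 := (X.mem_Hom_Rw_one hw k _).1 hF'
  have h2 : ∀ b, ∃ u : Fin X.n → Rn X.n, (∀ j, Hg (u j) (N'.d b + (k - 2)) ∧
      (w b ≠ 1 → u j = 0)) ∧ (F * g) () b = ∑ j, MvPolynomial.X j * u j := by
    intro b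
    by_cases hb : w b = 1
    · have h0 : constantCoeff ((F * g) () b) = 0 := by
        by_contra hc
        have hk : N'.d b + k = 0 := by
          by_contra hk
          exact hc ((h1 b).1.cc_eq_zero hk)
        have h3 := (h1 b).1
        rw [hk] at h3
        have h4 := hI' b
        rw [h3.eq_C] at h4
        have h5 := Ideal.mul_mem_right (C (constantCoeff ((F * g) () b))⁻¹) _ h4
        rw [mul_assoc, ← C_mul, mul_inv_cancel₀ hc, C_1, mul_one] at h5
        exact hq h5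
      obtain ⟨u, hu, e⟩ := (h1 b).1.exists_X h0
      exact ⟨u, fun j => ⟨by rw [← add_sub_assoc]; exact hu j, fun h => absurd hb h⟩, e⟩
    · exact ⟨0, fun j => ⟨Hg.zero _, fun _ => rfl⟩, by simp [(h1 b).2 hb]⟩
  choose u hu eu using h2
  let G : Fin X.n → Matrix Unit N'.ι (Rn X.n) := fun j _ b => u b j
  have hG : ∀ j, G j ∈ Hom N' (X.Rw 1) (k - 2) := fun j =>
    (X.mem_Hom_Rw_one hw (k - 2) _).2 fun b => hu b j
  have e : F * g = ∑ j, (X.Rw 1).A (MvPolynomial.X j) * G j := by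
    refine Matrix.ext fun a b => ?_
    rw [Matrix.sum_apply]
    exact (eu b).trans (Finset.sum_congr rfl fun j _ => (Rw_one_mul _ (G j) a b).symm)
  refine ⟨fun j => G j * f, fun j => Hom.comp0 hf (hG j), ?_⟩
  calc F = F * g * f := by rw [Matrix.mul_assoc, e1, Matrix.mul_one]
    _ = _ := by
      rw [e, Matrix.sum_mul]
      exact Finset.sum_congr rfl fun j _ => Matrix.mul_assoc _ _ _

theorem Cox.QP.tens {M : Bim X.n} (h : X.QP M) (i : Fin X.n) : X.QP (M.tens (X.Bs i)) := by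
  intro q hq N hN k F hF hI
  obtain ⟨G, hG, e⟩ := h q hq (N.tens (X.Bs i)) (hN.tens i) k (X.adjP i F) (X.adjP_mem i hF)
    (fun a b => by
      rw [← X.adjP_Th_mul i]
      exact X.adjP_invI i hI a b)
  refine ⟨fun b => X.adjM i (G b), fun b => X.adjM_mem i (hG b), ?_⟩
  rw [← X.adjM_adjP i F, e, X.adjM_sum i]
  exact Finset.sum_congr rfl fun b _ => X.adjM_mul i _ _

theorem Cox.QP.retract {M N : Bim X.n} (h : X.QP M) {f : Matrix M.ι N.ι (Rn X.n)}
    {p : Matrix N.ι M.ι (Rn X.n)} (hf : f ∈ Hom N M 0) (hp : p ∈ Hom M N 0) (e : p * f = 1) :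
    X.QP N := by
  intro q hq P hP k F hF hI
  obtain ⟨G, hG, e'⟩ := h q hq P hP k (f * F) (Hom.comp0' hF hf) (fun a b => by
    rw [← Matrix.mul_assoc, hf.2 q, Matrix.mul_assoc]
    exact mul_invI_right f hI a b)
  refine ⟨fun b => p * G b, fun b => Hom.comp0' (hG b) hp, ?_⟩
  calc F = p * (f * F) := by rw [← Matrix.mul_assoc, e, Matrix.one_mul]
    _ = _ := by
      rw [e', Matrix.mul_sum]
      refine Finset.sum_congr rfl fun b _ => ?_
      rw [← Matrix.mul_assoc, ← hp.2, Matrix.mul_assoc]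

namespace Hk

variable {D : Hk X}

theorem hf_one (D : Hk X) : D.HF (X.Rw 1) 1 := by
  rintro N g ⟨N', w, e, hw, rfl⟩ k
  rw [e.finrank_left, X.finrank_Hom_Rw_one hw, ← D.T_one, D.pr_T, Finset.sum_filter]
  have h1 : D.co (D.chF N' w) 1 =
      ∑ a, if w a = 1 then (LaurentPolynomial.T (N'.d a) : Lp) else 0 := by
    simp only [co, chF, map_sum, map_smul, Module.Basis.repr_self, Finsupp.coe_finsetSum,
      Finset.sum_apply, Finsupp.smul_apply, Finsupp.single_apply, smul_eq_mul]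
    refine Finset.sum_congr rfl fun a _ => ?_
    split_ifs with ha
    · simp [ha]
    · simp
  rw [h1, Lam_sum]
  refine Finset.sum_congr rfl fun a _ => ?_
  split_ifs with ha
  · rw [Lam_T]
  · simp [Lam]

theorem HF.tens {M : Bim X.n} {h : D.H} (hM : D.HF M h) (i : Fin X.n) :
    D.HF (M.tens (X.Bs i)) (h * D.Cs i) := by
  intro N g hN k
  rw [X.finrank_adj, hM _ _ (hN.tens i) k, D.pr_mul_Cs]

theorem HF.compl {M N N' : Bim X.n} {h h₁ : D.H} (e : Split M N N') (hM : D.HF M h)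
    (hN : D.HF N h₁) : D.HF N' (h - h₁) := by
  intro P g hP k
  rw [D.pr_sub, Lam_sub, ← hM P g hP k, ← hN P g hP k, e.finrank P k]
  push_cast
  ring

theorem HF.eq_zero {M N : Bim X.n} {g h : D.H} (hM : D.HF M h) (hN : D.Fl N g) {m k : ℤ}
    (hd : DegLe (D.pr g h) m) (hk : k + m < 0) {F : Matrix M.ι N.ι (Rn X.n)}
    (hF : F ∈ Hom N M k) : F = 0 := by
  have h1 := hM N g hN k
  rw [Lam_eq_zero hd hk, Nat.cast_eq_zero, Module.finrank_zero_iff] at h1
  exact congrArg Subtype.val (Subsingleton.elim (⟨F, hF⟩ : Hom N M k) 0)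

theorem HF.finrank_zero {M N : Bim X.n} {g h : D.H} (hM : D.HF M h) (hN : D.Fl N g)
    (hd : DegLe (D.pr g h) 0) :
    (Module.finrank ℝ (Hom N M 0) : ℤ) = (D.pr g h).coeff 0 := by
  rw [hM N g hN 0, Lam_zero hd]

theorem eq_zero_of_cst {M N : Bim X.n} {g h : D.H} (hM : D.HF M h) (hq : X.QP M) (hh : D.NP h)
    (hN : D.Fl N g) (hg : D.NP g) {F : Matrix M.ι N.ι (Rn X.n)} (hF : F ∈ Hom N M 0)
    (h0 : cst F = 0) : F = 0 := by
  obtain ⟨N', w, ⟨f, hf, f', hf', e1, -⟩, hw, rfl⟩ := hN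
  have hF' : F * f' ∈ Hom N' M 0 := Hom.comp0 hf' hF
  have h0' : cst (F * f') = 0 := by rw [cst_mul, h0, Matrix.zero_mul]
  suffices hz : F * f' = 0 by
    calc F = F * f' * f := by rw [Matrix.mul_assoc, e1, Matrix.mul_one]
      _ = 0 := by rw [hz, Matrix.zero_mul]
  generalize F * f' = E at hF' h0'
  by_contra hne
  obtain ⟨r, hr, -⟩ := X.exists_rank
  have hS : (Finset.univ.filter fun b => ∃ a, E a b ≠ 0).Nonempty := by
    by_contra hc
    refine hne (Matrix.ext fun a b => ?_)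
    by_contra hab
    exact hc ⟨b, Finset.mem_filter.2 ⟨Finset.mem_univ _, a, hab⟩⟩
  obtain ⟨b, hb, hmax⟩ := Finset.exists_max_image _ (fun b => r (w b)) hS
  obtain ⟨a₀, ha₀⟩ := (Finset.mem_filter.1 hb).2
  let m : Matrix M.ι Unit (Rn X.n) := fun a _ => E a b
  have hm : m ∈ Hom ((X.Rw (w b)).shift (N'.d b)) M 0 := by
    refine ⟨fun a c => ?_, comm_of_lin (N := (X.Rw (w b)).shift (N'.d b)) fun v => ?_⟩
    · simpa using hF'.1 a b
    · refine Matrix.ext fun a c => ?_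
      have h1 : (M.A (lin ℝ v) * E) a b = (E * N'.A (lin ℝ v)) a b := by rw [hF'.2]
      refine Eq.trans ?_ (mul_Rw (w b) (lin ℝ v) m a c).symm
      refine Eq.trans (show _ = (M.A (lin ℝ v) * E) a b from rfl) (h1.trans ?_)
      rw [Matrix.mul_apply, Finset.sum_eq_single b, (hw v b b).1 rfl]
      · intro c _ hc
        by_contra hp
        have h2 := hr _ _ ((hw v c b).2 hc (right_ne_zero_of_mul hp))
        have h3 := hmax c (Finset.mem_filter.2 ⟨Finset.mem_univ _, a, left_ne_zero_of_mul hp⟩)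
        exact absurd h3 (not_le.2 h2)
      · exact fun h => absurd (Finset.mem_univ b) h
  obtain ⟨q, hq1, hq2⟩ := X.exists_socle ℝ
  have hact : X.act ℝ (w b)⁻¹ (X.act ℝ (w b) q) = q := by
    rw [← Cox.act_mul, inv_mul_cancel, Cox.act_one]
  obtain ⟨G, hG, e⟩ := hq (X.act ℝ (w b) q) (fun h => hq1 (hact ▸ X.act_mem_invI ℝ _ h)) _
    (X.fld_Rw (w b) (N'.d b)) 0 m hm (fun a c => by
      rw [hm.2]
      refine (mul_Rw (w b) _ m a c).symm ▸ ?_
      rw [hact, mul_comm]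
      exact hq2 _ (congrFun (congrFun h0' a) b))
  have hd : DegLe (D.pr ((LaurentPolynomial.T (N'.d b - X.len (w b)) : Lp) • D.T (w b)) h)
      (N'.d b - X.len (w b) + 0) := by
    rw [D.pr_smul, D.pr_comm, D.pr_T]
    exact (DegLe.T _).mul (hh _)
  have hl := chF_np hg b
  have hG0 : ∀ j, G j = 0 := fun j =>
    hM.eq_zero (D.fl_Rw (w b) (N'.d b)) hd (by omega) (hG j)
  have : m a₀ () = 0 := by
    rw [e]
    simp [hG0]
  exact ha₀ this

end Hk

namespace Obj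

variable {D : Hk X}

theorem Ind.nonempty {o : Obj D} {x : X.W} (h : o.Ind x) : Nonempty o.B.ι := by
  rw [← not_isEmpty_iff, h.1.fl.isEmpty_iff]
  intro h0
  have := h.2.co_self
  rw [h0, Hk.co, map_zero, Finsupp.zero_apply] at this
  exact zero_ne_one this

theorem Ind.end_scalar {o : Obj D} {x : X.W} (h : o.Ind x) {F : Matrix o.B.ι o.B.ι (Rn X.n)}
    (hF : F ∈ Hom o.B o.B 0) : ∃ c : ℝ, F = c • 1 := by
  have h1 := h.1.hf.finrank_zero h.1.fl (D.pr_degLe h.1.np h.1.np)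
  rw [D.pr_coeff_zero h.2 h.1.np, h.2.co_self] at h1
  have h2 : Module.finrank ℝ (Hom o.B o.B 0) = 1 := by
    have : ((1 : Lp).coeff 0) = 1 := by
      rw [← LaurentPolynomial.T_zero, LaurentPolynomial.T, AddMonoidAlgebra.coeff_single]
      simp
    rw [this] at h1
    exact_mod_cast h1
  have := h.nonempty
  have h3 : (⟨1, Hom.one o.B⟩ : Hom o.B o.B 0) ≠ 0 := fun e =>
    one_ne_zero (congrArg Subtype.val e)
  obtain ⟨c, hc⟩ := (finrank_eq_one_iff_of_nonzero' _ h3).1 h2 ⟨F, hF⟩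
  exact ⟨c, (congrArg Subtype.val hc).symm⟩

theorem Good.hom_neg {o o' : Obj D} {l l' : ℤ} (h : o.Good l) (h' : o'.Good l') {k : ℤ}
    (hk : k < 0) {F : Matrix o'.B.ι o.B.ι (Rn X.n)} (hF : F ∈ Hom o.B o'.B k) : F = 0 := by
  exact h'.hf.eq_zero h.fl (D.pr_degLe h.np h'.np) (by omega) hF

theorem Ind.hom_ne {o o' : Obj D} {x y : X.W} (h : o.Ind x) (h' : o'.Ind y) (hxy : x ≠ y) {k : ℤ}
    (hk : k ≤ 0) {F : Matrix o'.B.ι o.B.ι (Rn X.n)} (hF : F ∈ Hom o.B o'.B k) : F = 0 := by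
  exact h'.1.hf.eq_zero h.1.fl (D.pr_degLe_ne h.2 h'.2 hxy) (by omega) hF

end Obj

end

end Pool.Agent.P.MP_1a0ecf_al
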