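import Pool.Agent.P.MP_1a0ecf_al.E1
import Pool.Agent.P.MP_1a0ecf_al.M7

/-! Package E4: the inductive construction of the factorisation. -/

namespace Pool.Agent.P.MP_1a0ecf_al

open Matrix MvPolynomial
open scoped Classical Kronecker

noncomputable section

variable {X : Cox} {D : Hk X}

namespace Obj

private theorem len_succ {x : X.W} {i : Fin X.n} (hi : X.len x < X.len (x * X.s i)) :
    X.len (x * X.s i) = X.len x + 1 := by
  rcases X.cs.length_mul_simple x i with h | h
  · exact h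
  · exfalso
    have h' : X.len (x * X.s i) + 1 = X.len x := h
    omega

/-- the form induced by an invariant form kills maps whose second component vanishes -/
private theorem formS_inv_zero {i : Fin X.n} {ι κ : Type} [Fintype ι] [DecidableEq ι] [Fintype κ]
    {G : Matrix ι ι (Rn X.n)} (hG : ∀ a b, X.act ℝ (X.s i) (G a b) = G a b)
    {ψ : Matrix (ι × Fin 2) κ (Rn X.n)} (h1 : ∀ a b, ψ (a, 1) b = 0) :
    ψᵀ * X.formS i G * ψ = 0 := by
  have hd : ∀ a b, X.dd ℝ (X.s i) (G a b) = 0 := fun a b =>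
    (Cox.dd_eq_zero_iff ℝ (X.cs.isReflection_simple i) _).2 (hG a b)
  ext1 c d
  simp only [Matrix.mul_apply, Matrix.transpose_apply, Finset.sum_mul, Matrix.zero_apply]
  refine Finset.sum_eq_zero fun b _ => Finset.sum_eq_zero fun a _ => ?_
  obtain ⟨a, e⟩ := a
  obtain ⟨b, e'⟩ := b
  rw [Cox.formS_apply]
  fin_cases e <;> fin_cases e' <;> simp [h1, hd]

/-- the piece of the new factorisation that comes from one old target -/
private theorem Stage.phi_piece {O : X.W → Obj D} {m : ℕ} (h : Stage O m) {x : X.W}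
    {i : Fin X.n} (hx : X.len x = m) (hi : X.len x < X.len (x * X.s i)) {o : Obj D}
    (ho : o.Ind (x * X.s i)) {f : Matrix ((O x).B.ι × Fin 2) o.B.ι (Rn X.n)}
    (hf : f ∈ Hom o.B ((O x).B.tens (X.Bs i)) 0) {z : X.W} {t : Obj D} {c : ℝ}
    {φ : Matrix t.B.ι (O x).B.ι (Rn X.n)} (hz : X.len z < X.len x) (ht : t = O z)
    (hc : Sg (X.len x - 1) (X.len z) c) (hφ : φ ∈ Hom (O x).B t.B 1) :
    ∃ (B : Type) (_ : Fintype B) (z' : B → X.W) (t' : B → Obj D) (c' : B → ℝ)
      (ψ : ∀ b, Matrix (t' b).B.ι o.B.ι (Rn X.n)),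
      (∀ b, (X.len (z' b) < X.len (x * X.s i) ∧ t' b = O (z' b) ∧
        Sg (X.len (x * X.s i) - 1) (X.len (z' b)) (c' b)) ∧ ψ b ∈ Hom o.B (t' b).B 1) ∧
      c • ((Th (X.Bs i) φ * f)ᵀ * X.formS i t.G * (Th (X.Bs i) φ * f)) =
        ∑ b, c' b • ((ψ b)ᵀ * (t' b).G * ψ b) ∧
      ∀ v, cst (X.dot i (O x).B.ι * f) *ᵥ v = 0 → (∀ b, cst (ψ b) *ᵥ v = 0) →
        cst (Th (X.Bs i) φ * f) *ᵥ v = 0 := by
  subst ht
  have hl := len_succ hi
  have hz' : (O z).Ind z := h.ind z (by omega)
  have hφ0 : Th (X.Bs i) φ * f ∈ Hom o.B ((O z).B.tens (X.Bs i)) 1 :=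
    Hom.comp0 hf (Hom.th (X.Bs i) hφ)
  rcases lt_or_gt_of_ne (X.cs.length_mul_simple_ne z i) with hzs | hzs
  · -- descent: the term disappears
    obtain ⟨o', -, hinv, f', p', hs', e'⟩ := h.inv z i (by omega) hzs
    have hψ : Th (X.Bs i) p' * (Th (X.Bs i) φ * f) ∈ Hom o.B (o'.B.tens (X.Bs i)) 1 :=
      Hom.comp0' hφ0 (Hom.th (X.Bs i) hs'.hp)
    have hπ := Hom.comp hψ (inv_split hinv.1 1).2
    have hne : x * X.s i ≠ z := by
      intro e
      rw [← e] at hz
      omega
    have h0 := ho.hom_ne hz' hne (by simp) (Hom.comp0' hπ hs'.hf)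
    have h1 : ∀ a b, (Th (X.Bs i) p' * (Th (X.Bs i) φ * f)) (a, 1) b = 0 := by
      intro a b
      have h2 := congrArg (fun M => p' * M) h0
      simp only [← Matrix.mul_assoc, hs'.pf, Matrix.one_mul, Matrix.mul_zero] at h2
      have h3 := congrFun (congrFun h2 a) b
      rw [Matrix.mul_assoc, Matrix.mul_assoc, Matrix.mul_apply] at h3
      simpa using h3
    refine ⟨Empty, inferInstance, Empty.elim, Empty.elim, Empty.elim, fun b => b.elim,
      fun b => b.elim, ?_, ?_⟩
    · have hG : p'ᵀ * o'.G * p' = (O z).G := by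
        have := (hs'.symm e').form
        rwa [one_smul] at this
      have key := formS_inv_zero hinv.2 h1
      rw [← hG, Cox.formS_conj]
      simp only [Matrix.transpose_mul, Matrix.mul_assoc] at key ⊢
      rw [key]
      simp
    · intro v hv _
      have e1 : Th (X.Bs i) φ * f =
          Th (X.Bs i) f' * (Th (X.Bs i) p' * (Th (X.Bs i) φ * f)) := by
        rw [← Matrix.mul_assoc, ← Th_mul, e', Th_one, Matrix.one_mul]
      have e2 : cst (Th (X.Bs i) p' * (Th (X.Bs i) φ * f)) *ᵥ v = 0 := by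
        ext1 ⟨a, e⟩
        fin_cases e
        · rw [cst_mul, ← Matrix.mulVec_mulVec, Cox.cst_dot_mulVec] at hv
          rw [← Matrix.mul_assoc, ← Th_mul, cst_mul, ← Matrix.mulVec_mulVec]
          have := (Cox.cst_Th_mulVec i (p' * φ) (cst f *ᵥ v) a).1
          rw [hv] at this
          simpa using this
        · simp only [Matrix.mulVec, dotProduct, cst, Matrix.map_apply]
          simp [h1]
      rw [e1, cst_mul, ← Matrix.mulVec_mulVec, e2, Matrix.mulVec_zero]
  · -- ascent: decompose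
    obtain ⟨r, hr, -, A, _, u, t, c', f', p', f'', p'', hA, -, hsum, -, -, -⟩ :=
      h.dec z i (by omega) hzs
    have h0 : f'' * p'' = 0 := by
      ext1 a b
      simp [Matrix.mul_apply]
    rw [h0, add_zero] at hsum
    have hu : ∀ b, X.len (u b) ≤ X.len z + 1 := fun b => (hA b).1
    have hGz : (X.formS i (O z).G)ᵀ = X.formS i (O z).G := (hz'.1.form.formS i).1
    have hGb : ∀ b, (t b).Gᵀ = (t b).G := fun b => by
      rw [(hA b).2.1]
      exact (h.ind (u b) (by have := hu b; omega)).1.form.1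
    refine ⟨A, inferInstance, u, t, fun b => c * c' b, fun b => p' b * (Th (X.Bs i) φ * f),
      fun b => ⟨⟨by have := hu b; omega, (hA b).2.1, ?_⟩, Hom.comp0' hφ0 (hA b).2.2.2.hp⟩, ?_, ?_⟩
    · have h1 := (hc.add 1).mul (hA b).2.2.1
      have e : ((X.len (x * X.s i) : ℤ) - 1) = (X.len x : ℤ) - 1 + 1 := by
        rw [hl]
        push_cast
        ring
      rw [e]
      exact h1
    · have hG : X.formS i (O z).G = ∑ b, c' b • ((p' b)ᵀ * (t b).G * p' b) := by
        calc X.formS i (O z).G = X.formS i (O z).G * ∑ b, f' b * p' b := by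
              rw [hsum, Matrix.mul_one]
          _ = ∑ b, c' b • ((p' b)ᵀ * (t b).G * p' b) := by
              rw [Matrix.mul_sum]
              refine Finset.sum_congr rfl fun b _ => ?_
              rw [← Matrix.mul_assoc]
              exact (hA b).2.2.2.form' hGz (hGb b)
      rw [hG, Matrix.mul_sum, Matrix.sum_mul, Finset.smul_sum]
      refine Finset.sum_congr rfl fun b _ => ?_
      simp only [Matrix.mul_smul, Matrix.smul_mul, Matrix.transpose_mul, Matrix.mul_assoc,
        smul_smul]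
    · intro v _ hv
      have e1 : Th (X.Bs i) φ * f = ∑ b, f' b * (p' b * (Th (X.Bs i) φ * f)) := by
        simp only [← Matrix.mul_assoc (f' _)]
        rw [← Matrix.sum_mul, hsum, Matrix.one_mul]
      rw [e1, cst_sum, Matrix.sum_mulVec]
      refine Finset.sum_eq_zero fun b _ => ?_
      rw [cst_mul, ← Matrix.mulVec_mulVec, hv b, Matrix.mulVec_zero]

theorem Stage.phi_step {O : X.W → Obj D} {m : ℕ} (h : Stage O m) {x : X.W} {i : Fin X.n}
    (hx : X.len x = m) (hi : X.len x < X.len (x * X.s i)) {o : Obj D} (ho : o.Ind (x * X.s i))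
    {f p} (hs : Smd o ((O x).tS i) 1 f p) : Phi O o (x * X.s i) := by
  have hl := len_succ hi
  obtain ⟨A, _, z, t, c, φ, hA, hF⟩ := h.phi x hx.le
  have F2 := (hF.tS i).restrict hs
  choose B iB z' t' c' ψ h1 h2 h3 using fun a =>
    h.phi_piece hx hi ho hs.hf (hA a).1 (hA a).2.1 (hA a).2.2 (hF.hom a)
  have hσ : X.σ (X.s i) *ᵥ (X.σ x⁻¹ *ᵥ X.rho) = X.σ (x * X.s i)⁻¹ *ᵥ X.rho := by
    rw [Matrix.mulVec_mulVec, ← map_mul, _root_.mul_inv_rev, X.cs.inv_simple]
  let T : Option (Σ a, B a) → Obj D := fun a => match a with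
    | none => O x
    | some b => t' b.1 b.2
  let Ψ : ∀ a, Matrix (T a).B.ι o.B.ι (Rn X.n) := fun a => match a with
    | none => X.dot i (O x).B.ι * f
    | some b => ψ b.1 b.2
  refine ⟨Option (Σ a, B a), inferInstance, fun a => a.elim x fun b => z' b.1 b.2, T,
    fun a => a.elim (X.B (X.al i) (X.σ x⁻¹ *ᵥ X.rho)) fun b => c' b.1 b.2, Ψ, ?_, ?_, ?_, ?_⟩
  · rintro (_ | b)
    · refine ⟨hi, rfl, ?_⟩
      have e : ((X.len (x * X.s i) : ℤ) - 1) = (X.len x : ℤ) := by
        rw [hl]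
        push_cast
        ring
      rw [e]
      exact Sg.of_pos _ (X.gamma_pos hi)
    · exact (h1 b.1 b.2).1
  · rintro (_ | b)
    · exact F2.hom none
    · exact (h1 b.1 b.2).2
  · rw [F2.form, hσ, Fintype.sum_option, Fintype.sum_option, Fintype.sum_sigma]
    congr 2
    exact Finset.sum_congr rfl fun a _ => h2 a
  · intro k v hk hv h0
    refine F2.ker k v (by rw [hl] at hk; exact_mod_cast hk) hv ?_
    rintro (_ | a)
    · exact h0 none
    · exact h3 a v (h0 none) fun b => h0 (some ⟨a, b⟩)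

end Obj

end

end Pool.Agent.P.MP_1a0ecf_al
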