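import Pool.Agent.P.MP_1a0ecf_al.E2
import Pool.Agent.P.MP_1a0ecf_al.E3
import Pool.Agent.P.MP_1a0ecf_al.E4

/-! Package E5: the Elias-Williamson induction. -/

namespace Pool.Agent.P.MP_1a0ecf_al

open Matrix MvPolynomial
open scoped Classical Kronecker

noncomputable section

variable {X : Cox} {D : Hk X}

namespace Obj

private theorem e5_good (D : Hk X) : (⟨X.Rw 1, 1, 1⟩ : Obj D).Good 0 := by
  refine ⟨⟨transpose_one, fun a b => ?_, fun p => ?_, by simp⟩, D.fl_one, D.hf_one, X.qp_one,
    ⟨fun a => by simp, fun i j hij v hv h0 _ => ?_⟩, map_one _, Hk.KLel.np D D.klel_one⟩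
  · simpa using Hg.C (n := X.n) 1
  · rw [Matrix.mul_one, Matrix.one_mul]
    rfl
  · have hv0 : v () ≠ 0 := fun e => h0 (funext fun _ => e)
    have hi : i = 0 := by
      by_contra hne
      refine hv0 (hv () ?_)
      show (0 : ℤ) ≠ -(i : ℤ)
      omega
    subst hi
    have hj : j = 0 := by omega
    subst hj
    simp only [cst_one, pow_zero, one_mulVec, zpow_zero, one_mul]
    exact dotProduct_self_star_pos_iff.2 h0

theorem stage_zero (D : Hk X) : ∃ O : X.W → Obj D, Stage O 0 := by
  have h1 : ∀ x, X.len x ≤ 0 → x = 1 := fun x hx => X.cs.length_eq_zero_iff.1 (Nat.le_zero.1 hx)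
  refine ⟨fun _ => ⟨X.Rw 1, 1, 1⟩, Iso.refl _, fun x hx => ?_, fun x hx => ?_,
    fun x i hx => absurd hx (Nat.not_lt_zero _), fun x i hx => absurd hx (Nat.not_lt_zero _),
    fun x i hx hi => absurd (hi.trans_le hx) (Nat.not_lt_zero _)⟩
  · obtain rfl := h1 x hx
    refine ⟨?_, D.klel_one⟩
    rw [show X.len 1 = 0 from X.cs.length_one]
    exact e5_good D
  · obtain rfl := h1 x hx
    refine ⟨Empty, inferInstance, fun a => a.elim, fun a => a.elim, fun a => a.elim,
      fun a => a.elim, fun a => a.elim, fun a => a.elim, ?_, fun k v hk hv _ => ?_⟩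
    · ext a b : 2
      simp [Cox.act_one, Cox.rp]
    · rw [show X.len 1 = 0 from X.cs.length_one] at hk
      funext a
      refine hv a ?_
      show (0 : ℤ) ≠ k
      simp only [Nat.cast_zero] at hk
      omega

private theorem e5_co {h : D.H} {x w : X.W} (hh : D.KLel h x) (hw : X.len x < X.len w) :
    D.co h w = 0 := by
  by_contra hne
  have := (Hk.KLel.co_ne D hh (w := w) (fun e => by rw [e] at hw; exact lt_irrefl _ hw)).2 hne
  omega

private theorem e5_dec {O : X.W → Obj D} {k : ℕ} (hU : ∀ u, X.len u ≤ k → (O u).Ind u)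
    {o r : Obj D} {l : ℤ} (hd : Dec O {u | X.len u ≤ k} o l r) {w : X.W} (hw : k < X.len w) :
    D.co r.c w = D.co o.c w := by
  obtain ⟨A, _, u, t, c, f, p, f', p', h1, -, -, -, -, h2⟩ := hd
  rw [h2]
  simp only [Hk.co, map_add, map_sum, Finsupp.add_apply, Finsupp.coe_finsetSum, Finset.sum_apply]
  rw [Finset.sum_eq_zero, zero_add]
  intro a _
  obtain ⟨hu, ht, -⟩ := h1 a
  rw [ht]
  exact e5_co (hU _ hu).2 (lt_of_le_of_lt hu hw)

private theorem e5_len {x : X.W} {i : Fin X.n} (hi : X.len x < X.len (x * X.s i)) :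
    X.len (x * X.s i) = X.len x + 1 := by
  rcases X.cs.length_mul_simple x i with h | h
  · exact h
  · simp only [Cox0.len, Cox0.s] at hi
    omega

private theorem e5_desc {y : X.W} {i : Fin X.n} (hi : X.len (y * X.s i) < X.len y) :
    X.len (y * X.s i) + 1 = X.len y := by
  rcases X.cs.length_mul_simple y i with h | h
  · simp only [Cox0.len, Cox0.s] at hi
    omega
  · exact h

private theorem e5_top {h : D.H} {x w : X.W} {i : Fin X.n} (hh : D.KLel h x)
    (hi : X.len x < X.len (x * X.s i)) (hw : X.len x < X.len w) :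
    D.co (h * D.Cs i) w = D.co (D.T (x * X.s i)) w := by
  have : D.co (h * D.Cs i - D.T (x * X.s i)) w = 0 := by
    by_contra hne
    exact absurd ((Hk.KLel.mul_Cs D hh hi).2 w hne) (not_le.2 hw)
  simpa only [Hk.co, map_sub, Finsupp.sub_apply, sub_eq_zero] using this

private theorem e5_new {O : X.W → Obj D} {m : ℕ} (h : Stage O m) {x : X.W} {i : Fin X.n}
    (hx : X.len x = m) (hi : X.len x < X.len (x * X.s i)) :
    ∃ r : Obj D, r.Ind (x * X.s i) ∧ Phi O r (x * X.s i) := by
  have hI := h.ind x hx.le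
  obtain ⟨r, hr, hd, h0⟩ := greedy (U := {u | X.len u ≤ m}) h.ind
    (hI.good_tS hi (h.hrz_top hx hi 0 le_rfl))
  have hl := e5_len hi
  have hr' : r.Ind (x * X.s i) := by
    refine ⟨by rw [hl]; exact_mod_cast hr, D.klel_of hr.bar hr.np (fun w hw => ?_)
      fun u hu => h0 u (show X.len u ≤ m by omega)⟩
    by_contra hlt
    refine hw ?_
    have e := (e5_dec h.ind hd (w := w) (by omega)).trans (e5_top hI.2 hi (by omega))
    simpa only [Hk.co, map_sub, Finsupp.sub_apply, sub_eq_zero] using e
  obtain ⟨A, _, u, t, c, f, p, f', p', -, hs, -⟩ := hd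
  exact ⟨r, hr', h.phi_step hx hi hr' hs⟩

private theorem e5_phi {O O' : X.W → Obj D} {o : Obj D} {x : X.W} (h : Phi O o x)
    (e : ∀ z, X.len z < X.len x → O' z = O z) : Phi O' o x := by
  obtain ⟨A, _, z, t, c, φ, h1, h2⟩ := h
  exact ⟨A, inferInstance, z, t, c, φ,
    fun a => ⟨(h1 a).1, (h1 a).2.1.trans (e _ (h1 a).1).symm, (h1 a).2.2⟩, h2⟩

theorem Stage.succ {O : X.W → Obj D} {m : ℕ} (h : Stage O m) :
    ∃ O' : X.W → Obj D, Stage O' (m + 1) := by
  have key : ∀ y, ∃ r : Obj D, (X.len y = m + 1 → r.Ind y ∧ Phi O r y) ∧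
      (X.len y ≤ m → r = O y) := by
    intro y
    by_cases hy : X.len y = m + 1
    · have hy1 : y ≠ 1 := fun e => by
        rw [e, show X.len 1 = 0 from X.cs.length_one] at hy
        omega
      obtain ⟨i, hi⟩ := X.cs.exists_rightDescent_of_ne_one hy1
      have hi' : X.len (y * X.s i) < X.len y := hi
      have e : y * X.s i * X.s i = y := X.cs.simple_mul_simple_cancel_right i
      have := e5_desc hi'
      obtain ⟨r, hr⟩ := e5_new h (x := y * X.s i) (i := i) (by omega) (by rw [e]; exact hi')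
      rw [e] at hr
      exact ⟨r, fun _ => hr, fun _ => by omega⟩
    · exact ⟨O y, fun e => absurd e hy, fun _ => rfl⟩
  choose O' h1 h2 using key
  have ind : ∀ x, X.len x ≤ m + 1 → (O' x).Ind x := fun x hx => by
    by_cases e : X.len x = m + 1
    · exact (h1 x e).1
    · rw [h2 x (by omega)]
      exact h.ind x (by omega)
  have hrz : ∀ x i, X.len x < m + 1 → X.len x < X.len (x * X.s i) → ∀ ζ, 0 ≤ ζ →
      (O' x).HRz i ζ (X.len x + 1) := fun x i hx hi ζ hζ => by
    rw [h2 x (by omega)]
    by_cases e : X.len x = m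
    · exact h.hrz_top e hi ζ hζ
    · exact h.hrz x i (by omega) hi ζ hζ
  have good : ∀ x i, X.len x < m + 1 → X.len x < X.len (x * X.s i) →
      ((O' x).tS i).Good (X.len x + 1) := fun x i hx hi =>
    (ind x hx.le).good_tS hi (hrz x i hx hi 0 le_rfl)
  refine ⟨O', ?_, ind, fun x hx => ?_, hrz, fun x i hx hi => ?_, fun x i hx hi => ?_⟩
  · rw [h2 1 (by rw [show X.len 1 = 0 from X.cs.length_one]; omega)]
    exact h.one
  · refine e5_phi (O := O) ?_ fun z hz => h2 z (by omega)
    by_cases e : X.len x = m + 1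
    · exact (h1 x e).2
    · rw [h2 x (by omega)]
      exact h.phi x (by omega)
  · have hU : ∀ u, X.len u ≤ X.len x + 1 → (O' u).Ind u := fun u hu => ind u (by omega)
    obtain ⟨r, hr, hd, h0⟩ := greedy (U := {u | X.len u ≤ X.len x + 1}) hU (good x i hx hi)
    have hc : r.c = 0 := by
      refine D.eq_zero_of_bar hr.bar fun w k hk => ?_
      by_cases hw : X.len w ≤ X.len x + 1
      · rcases eq_or_lt_of_le (show 0 ≤ k by omega) with rfl | hk'
        · exact h0 w hw
        · exact hr.np w k hk'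
      · have hl := e5_len hi
        have hne : x * X.s i ≠ w := fun e => by
          rw [e] at hl
          omega
        rw [(e5_dec hU hd (w := w) (by omega)).trans (e5_top (ind x hx.le).2 hi (by omega))]
        simp [Hk.co, hne]
    exact ⟨r, hr.fl.isEmpty_iff.2 hc, hc, hd⟩
  · by_cases e : X.len x = m + 1
    · have hl := e5_desc hi
      have e' : x * X.s i * X.s i = x := X.cs.simple_mul_simple_cancel_right i
      have hi' : X.len (x * X.s i) < X.len (x * X.s i * X.s i) := by
        rw [e']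
        exact hi
      have hg := good (x * X.s i) i (by omega) hi'
      obtain ⟨c, f, p, -, hs⟩ := exists_smd (ind x hx) hg (by
        have := e5_top (w := x) (ind (x * X.s i) (by omega)).2 hi' hi
        rw [e'] at this
        rw [this]
        simp [Hk.co])
      exact sinv_of_retract (ind x hx).1.form hs.hf hs.hp hs.pf
        fun F hF => hg.hom_neg hg (by norm_num) hF
    · rw [h2 x (by omega)]
      exact h.inv x i (by omega) hi

theorem exists_stage (D : Hk X) (m : ℕ) : ∃ O : X.W → Obj D, Stage O m := by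
  induction m with
  | zero => exact stage_zero D
  | succ m ih => exact ih.elim fun _ h => h.succ

end Obj

end

end Pool.Agent.P.MP_1a0ecf_al
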