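import Pool.Agent.P.MP_1a0ecf_al.E5

/-! Package E6: positivity of the structure constants. -/

namespace Pool.Agent.P.MP_1a0ecf_al

open Matrix MvPolynomial
open scoped Classical Kronecker

noncomputable section

variable {X : Cox} {D : Hk X}

theorem kron_one_mul {n : ℕ} (ι : Type) [Fintype ι] [DecidableEq ι] {κ μ ν : Type} [Fintype μ]
    (p : Matrix κ μ (Rn n)) (f : Matrix μ ν (Rn n)) :
    ((1 : Matrix ι ι (Rn n)) ⊗ₖ p) * ((1 : Matrix ι ι (Rn n)) ⊗ₖ f) =
      (1 : Matrix ι ι (Rn n)) ⊗ₖ (p * f) := by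
  rw [← Matrix.mul_kronecker_mul, Matrix.one_mul]

theorem kron_one_sum {n : ℕ} (ι : Type) [DecidableEq ι] {κ μ α : Type} (s : Finset α)
    (F : α → Matrix κ μ (Rn n)) :
    (1 : Matrix ι ι (Rn n)) ⊗ₖ (∑ a ∈ s, F a) = ∑ a ∈ s, (1 : Matrix ι ι (Rn n)) ⊗ₖ F a := by
  induction s using Finset.induction_on with
  | empty => simp
  | insert a s ha ih => rw [Finset.sum_insert ha, Finset.sum_insert ha, Matrix.kronecker_add, ih]

theorem Iso.tens_right {n : ℕ} (M : Bim n) {N N' : Bim n} (h : Iso N N') :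
    Iso (M.tens N) (M.tens N') := by
  obtain ⟨f, hf, g, hg, h1, h2⟩ := h
  refine ⟨_, Hom.kron M hf, _, Hom.kron M hg, ?_, ?_⟩
  · rw [kron_one_mul, h1, Matrix.one_kronecker_one]
  · rw [kron_one_mul, h2, Matrix.one_kronecker_one]

/-- removing the other summands of a direct sum decomposition -/
theorem Hk.Fl.remove {A : Type} {N : A → Bim X.n} {c : A → D.H} {a0 : A} (s : Finset A)
    (h0 : a0 ∉ s) (hN : ∀ a ∈ s, D.Fl (N a) (c a)) :
    ∀ (P : Bim X.n) (g : D.H) (f : ∀ a, Matrix P.ι (N a).ι (Rn X.n))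
      (p : ∀ a, Matrix (N a).ι P.ι (Rn X.n)), D.Fl P g →
      (∀ a, f a ∈ Hom (N a) P 0 ∧ p a ∈ Hom P (N a) 0) →
      (∀ a ∈ insert a0 s, p a * f a = 1) →
      (∀ a ∈ insert a0 s, ∀ b ∈ insert a0 s, a ≠ b → p a * f b = 0) →
      f a0 * p a0 + ∑ a ∈ s, f a * p a = 1 → D.Fl (N a0) (g - ∑ a ∈ s, c a) := by
  induction s using Finset.induction_on with
  | empty =>
    intro P g f p hP hh h1 _ hs
    simp only [Finset.sum_empty, add_zero, sub_zero] at hs ⊢
    exact hP.iso ⟨p a0, (hh a0).2, f a0, (hh a0).1, hs, h1 a0 (Finset.mem_insert_self _ _)⟩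
  | insert b s hb ih =>
    intro P g f p hP hh h1 h2 hs
    have hb0 : b ∈ insert a0 (insert b s) :=
      Finset.mem_insert_of_mem (Finset.mem_insert_self _ _)
    have hsub : ∀ a ∈ insert a0 s, a ∈ insert a0 (insert b s) ∧ a ≠ b := by
      intro a ha
      rcases Finset.mem_insert.1 ha with rfl | ha
      · refine ⟨Finset.mem_insert_self _ _, ?_⟩
        rintro rfl
        exact h0 (Finset.mem_insert_self _ _)
      · refine ⟨Finset.mem_insert_of_mem (Finset.mem_insert_of_mem ha), ?_⟩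
        rintro rfl
        exact hb ha
    obtain ⟨N', i', hi', p', hp', e1, e2, e3, e4⟩ := exists_compl (hh b).1 (hh b).2 (h1 b hb0)
    have hsp : Split P (N b) N' :=
      ⟨f b, (hh b).1, p b, (hh b).2, i', hi', p', hp', h1 b hb0, e1, e2⟩
    have hF := Hk.Fl.compl hsp hP (hN b (Finset.mem_insert_self _ _))
    have e5 : i' * p' = 1 - f b * p b := by rw [← e2]; simp
    have key : ∀ a ∈ insert a0 s, ∀ a', (p a * i') * (p' * f a') = p a * f a' := by
      intro a ha a'
      have hz := h2 a (hsub a ha).1 b hb0 (hsub a ha).2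
      calc (p a * i') * (p' * f a') = p a * (i' * p') * f a' := by
            simp only [Matrix.mul_assoc]
        _ = p a * f a' - (p a * f b) * (p b * f a') := by
            rw [e5]
            simp only [Matrix.mul_sub, Matrix.sub_mul, Matrix.mul_one, Matrix.mul_assoc]
        _ = p a * f a' := by rw [hz]; simp
    have := ih (fun h => h0 (Finset.mem_insert_of_mem h))
      (fun a ha => hN a (Finset.mem_insert_of_mem ha)) N' (g - c b)
      (fun a => p' * f a) (fun a => p a * i') hF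
      (fun a => ⟨Hom.comp0 (hh a).1 hp', Hom.comp0 hi' (hh a).2⟩)
      (fun a ha => by rw [key a ha, h1 a (hsub a ha).1])
      (fun a ha a' ha' hne => by rw [key a ha, h2 a (hsub a ha).1 a' (hsub a' ha').1 hne])
      (by
        rw [Finset.sum_insert hb] at hs
        have e6 : f a0 * p a0 + ∑ a ∈ s, f a * p a = i' * p' := by
          rw [e5, ← hs]; abel
        calc p' * f a0 * (p a0 * i') + ∑ a ∈ s, p' * f a * (p a * i')
            = p' * (f a0 * p a0 + ∑ a ∈ s, f a * p a) * i' := by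
              simp only [Matrix.mul_add, Matrix.add_mul, Matrix.mul_sum, Matrix.sum_mul,
                Matrix.mul_assoc]
          _ = 1 := by
              rw [e6, ← Matrix.mul_assoc, e1, Matrix.one_mul, e1])
    rw [Finset.sum_insert hb, ← sub_sub]
    exact this

theorem Hk.Fl.remove_tens (M : Bim X.n) {A : Type} [Fintype A] {N : A → Bim X.n} {c : A → D.H}
    {a0 : A} (hN : ∀ a, a ≠ a0 → D.Fl (M.tens (N a)) (c a)) {P : Bim X.n}
    {f : ∀ a, Matrix P.ι (N a).ι (Rn X.n)} {p : ∀ a, Matrix (N a).ι P.ι (Rn X.n)}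
    (hP : D.Fl (M.tens P) (∑ a, c a)) (hf : ∀ a, f a ∈ Hom (N a) P 0)
    (hp : ∀ a, p a ∈ Hom P (N a) 0) (h1 : ∀ a, p a * f a = 1)
    (h2 : ∀ a b, a ≠ b → p a * f b = 0) (h3 : ∑ a, f a * p a = 1) :
    D.Fl (M.tens (N a0)) (c a0) := by
  have e : ((1 : Matrix M.ι M.ι (Rn X.n)) ⊗ₖ f a0) * ((1 : Matrix M.ι M.ι (Rn X.n)) ⊗ₖ p a0) +
      ∑ a ∈ Finset.univ.erase a0, ((1 : Matrix M.ι M.ι (Rn X.n)) ⊗ₖ f a) *
        ((1 : Matrix M.ι M.ι (Rn X.n)) ⊗ₖ p a) = 1 := by
    rw [Finset.add_sum_erase _ (fun a => ((1 : Matrix M.ι M.ι (Rn X.n)) ⊗ₖ f a) *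
      ((1 : Matrix M.ι M.ι (Rn X.n)) ⊗ₖ p a)) (Finset.mem_univ a0)]
    simp only [kron_one_mul]
    rw [← kron_one_sum, h3, Matrix.one_kronecker_one]
  have := Hk.Fl.remove (N := fun a => M.tens (N a)) (c := c) (a0 := a0) (Finset.univ.erase a0)
    (Finset.notMem_erase _ _) (fun a ha => hN a (Finset.ne_of_mem_erase ha)) (M.tens P) _
    (fun a => (1 : Matrix M.ι M.ι (Rn X.n)) ⊗ₖ f a)
    (fun a => (1 : Matrix M.ι M.ι (Rn X.n)) ⊗ₖ p a) hP
    (fun a => ⟨Hom.kron _ (hf a), Hom.kron _ (hp a)⟩)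
    (fun a _ => (kron_one_mul _ _ _).trans (by rw [h1, Matrix.one_kronecker_one]))
    (fun a _ b _ hab => (kron_one_mul _ _ _).trans (by rw [h2 a b hab, Matrix.kronecker_zero])) e
  rwa [← Finset.add_sum_erase _ c (Finset.mem_univ a0), add_sub_cancel_right] at this

namespace Obj

/-- the identity of `M` is a sum of maps that factor through the objects `O z` -/
def Gen (O : X.W → Obj D) (M : Bim X.n) : Prop :=
  ∃ (A : Type) (_ : Fintype A) (z : A → X.W) (k : A → ℤ)
    (f : ∀ a, Matrix M.ι (O (z a)).B.ι (Rn X.n)) (p : ∀ a, Matrix (O (z a)).B.ι M.ι (Rn X.n)),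
    (∀ a, f a ∈ Hom (O (z a)).B M (k a) ∧ p a ∈ Hom M (O (z a)).B (-k a)) ∧ ∑ a, f a * p a = 1

theorem Gen.self (O : X.W → Obj D) (z : X.W) : Gen O (O z).B :=
  ⟨Unit, inferInstance, fun _ => z, fun _ => 0, fun _ => 1, fun _ => 1,
    fun _ => ⟨Hom.one _, by rw [neg_zero]; exact Hom.one _⟩, by simp⟩

theorem Gen.cover {O : X.W → Obj D} {M : Bim X.n} {A : Type} [Fintype A] {N : A → Bim X.n}
    (hN : ∀ a, Gen O (N a)) {k : A → ℤ} {f : ∀ a, Matrix M.ι (N a).ι (Rn X.n)}
    {p : ∀ a, Matrix (N a).ι M.ι (Rn X.n)} (hf : ∀ a, f a ∈ Hom (N a) M (k a))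
    (hp : ∀ a, p a ∈ Hom M (N a) (-k a)) (hs : ∑ a, f a * p a = 1) : Gen O M := by
  choose B hB z l F P h1 h2 using hN
  refine ⟨Σ a, B a, inferInstance, fun x => z x.1 x.2, fun x => l x.1 x.2 + k x.1,
    fun x => f x.1 * F x.1 x.2, fun x => P x.1 x.2 * p x.1, fun x => ⟨?_, ?_⟩, ?_⟩
  · exact Hom.comp (h1 x.1 x.2).1 (hf x.1)
  · have := Hom.comp (hp x.1) (h1 x.1 x.2).2
    rwa [show -k x.1 + -l x.1 x.2 = -(l x.1 x.2 + k x.1) by ring] at this
  · rw [Fintype.sum_sigma, ← hs]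
    refine Finset.sum_congr rfl fun a _ => ?_
    calc ∑ b, f a * F a b * (P a b * p a) = f a * (∑ b, F a b * P a b) * p a := by
          simp only [Matrix.mul_sum, Matrix.sum_mul, Matrix.mul_assoc]
      _ = f a * p a := by rw [h2 a, Matrix.mul_one]

theorem Gen.retract {O : X.W → Obj D} {M N : Bim X.n} (h : Gen O M)
    {i : Matrix M.ι N.ι (Rn X.n)} {p : Matrix N.ι M.ι (Rn X.n)} (hi : i ∈ Hom N M 0)
    (hp : p ∈ Hom M N 0) (e : p * i = 1) : Gen O N :=
  Gen.cover (A := Unit) (N := fun _ => M) (fun _ => h) (k := fun _ => 0) (f := fun _ => p)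
    (p := fun _ => i) (fun _ => hp) (fun _ => by rw [neg_zero]; exact hi) (by simpa using e)

theorem Gen.iso {O : X.W → Obj D} {M N : Bim X.n} (h : Gen O M) (e : Iso M N) : Gen O N := by
  obtain ⟨f, hf, g, hg, _, h2⟩ := e
  exact h.retract hg hf h2

theorem Gen.exists_retract {O : X.W → Obj D} (hO : ∀ z, (O z).Ind z) {M : Bim X.n} (h : Gen O M)
    [Nonempty M.ι] : ∃ (z : X.W) (k : ℤ), ∃ i ∈ Hom ((O z).B.shift k) M 0,
      ∃ p ∈ Hom M ((O z).B.shift k) 0, p * i = 1 := by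
  obtain ⟨A, hA, z, k, f, p, h1, hs⟩ := h
  have hE : ∀ a b, p a * f b ∈ Hom (O (z b)).B (O (z a)).B (k b - k a) := fun a b => by
    have := Hom.comp (h1 b).1 (h1 a).2
    rwa [← sub_eq_add_neg] at this
  have hne : (Finset.univ.filter fun x : A × A => p x.1 * f x.2 ≠ 0).Nonempty := by
    by_contra hcon
    rw [Finset.not_nonempty_iff_eq_empty, Finset.filter_eq_empty_iff] at hcon
    have hz : ∀ a b, p a * f b = 0 := fun a b => by
      simpa using @hcon (a, b) (Finset.mem_univ _)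
    have : (1 : Matrix M.ι M.ι (Rn X.n)) = 0 := by
      calc (1 : Matrix M.ι M.ι (Rn X.n)) = (∑ a, f a * p a) * ∑ b, f b * p b := by
            rw [hs, Matrix.one_mul]
        _ = ∑ b, ∑ a, f a * (p a * f b) * p b := by
            simp only [Matrix.mul_sum, Matrix.sum_mul, Matrix.mul_assoc]
        _ = 0 := by simp [hz]
    exact one_ne_zero this
  obtain ⟨⟨a, b⟩, hab, hmin⟩ := Finset.exists_min_image _ (fun x : A × A => k x.2 - k x.1) hne
  have hab' : p a * f b ≠ 0 := (Finset.mem_filter.1 hab).2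
  have hge : ∀ a b, p a * f b ≠ 0 → 0 ≤ k b - k a := fun a b h => by
    by_contra hc
    exact h (Good.hom_neg (hO _).1 (hO _).1 (not_le.1 hc) (hE a b))
  obtain ⟨a, b, hk, hab⟩ : ∃ a b, k b - k a = 0 ∧ p a * f b ≠ 0 := by
    have e : p a * f b = ∑ c, (p a * f c) * (p c * f b) := by
      calc p a * f b = p a * (∑ c, f c * p c) * f b := by rw [hs, Matrix.mul_one]
        _ = _ := by simp only [Matrix.mul_sum, Matrix.sum_mul, Matrix.mul_assoc]
    rw [e] at hab'
    obtain ⟨c, -, hc⟩ := Finset.exists_ne_zero_of_sum_ne_zero hab'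
    have h3 : p a * f c ≠ 0 := fun h => hc (by rw [h, Matrix.zero_mul])
    have h4 : p c * f b ≠ 0 := fun h => hc (by rw [h, Matrix.mul_zero])
    have h5 := hmin (a, c) (Finset.mem_filter.2 ⟨Finset.mem_univ _, h3⟩)
    have h6 := hge c b h4
    exact ⟨c, b, by simp only at h5; omega, h4⟩
  have hz : z b = z a := by
    by_contra hc
    exact hab (Ind.hom_ne (hO _) (hO _) hc hk.le (hE a b))
  have hkk : k a = k b := by omega
  have main : ∀ (y y' : X.W) (l : ℤ) (F : Matrix M.ι (O y').B.ι (Rn X.n))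
      (P : Matrix (O y).B.ι M.ι (Rn X.n)), y' = y → F ∈ Hom (O y').B M l →
      P ∈ Hom M (O y).B (-l) → P * F ≠ 0 → ∃ i ∈ Hom ((O y).B.shift l) M 0,
      ∃ p ∈ Hom M ((O y).B.shift l) 0, p * i = 1 := by
    intro y y' l F P e hF hP hn
    subst e
    have h0 := Hom.comp hF hP
    rw [add_neg_cancel] at h0
    obtain ⟨c, hc⟩ := (hO y').end_scalar h0
    have hc0 : c ≠ 0 := by
      rintro rfl
      exact hn (by rw [hc, zero_smul])
    refine ⟨F, (Hom.shift_left _ _ _ _ _).2 (by rwa [zero_add]), c⁻¹ • P,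
      (Hom.shift_right _ _ _ _ _).2 (by rw [zero_sub]; exact Submodule.smul_mem _ _ hP), ?_⟩
    rw [Matrix.smul_mul, hc, smul_smul, inv_mul_cancel₀ hc0, one_smul]
  exact ⟨z a, k b, main (z a) (z b) (k b) (f b) (p a) hz (h1 b).1 (hkk ▸ (h1 a).2) hab⟩

theorem Gen.cone {O : X.W → Obj D} (hO : ∀ z, (O z).Ind z) {M : Bim X.n} (h : Gen O M) {g : D.H}
    (hg : D.Fl M g) : ∃ r : X.W → Lp, (∀ z, Pos (r z)) ∧ g = ∑ z, r z • (O z).c := by
  induction hn : Fintype.card M.ι using Nat.strong_induction_on generalizing M g with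
  | _ n ih =>
    rcases isEmpty_or_nonempty M.ι with he | he
    · refine ⟨fun _ => 0, fun _ _ => by simp, ?_⟩
      rw [hg.isEmpty_iff.1 he]
      simp
    obtain ⟨z, k, i, hi, p, hp, e⟩ := h.exists_retract hO
    obtain ⟨N', i', hi', p', hp', e1, e2, -, -⟩ := exists_compl hi hp e
    have hsp : Split M ((O z).B.shift k) N' := ⟨i, hi, p, hp, i', hi', p', hp', e, e1, e2⟩
    have hF := Hk.Fl.compl hsp hg ((hO z).1.fl.shift k)
    have hc := hsp.card
    have hpos : 0 < Fintype.card (O z).B.ι := Fintype.card_pos_iff.2 (hO z).nonempty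
    have hlt : Fintype.card N'.ι < n := by
      have : Fintype.card ((O z).B.shift k).ι = Fintype.card (O z).B.ι := rfl
      omega
    obtain ⟨r, hr, er⟩ := ih _ hlt (h.retract hi' hp' e1) hF rfl
    refine ⟨fun w => r w + if w = z then LaurentPolynomial.T k else 0, fun w => ?_, ?_⟩
    · refine (hr w).add ?_
      split_ifs
      · exact Pos.T k
      · intro _; simp
    · simp only [add_smul, Finset.sum_add_distrib, ite_smul, zero_smul, Finset.sum_ite_eq',
        Finset.mem_univ, if_true]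
      rw [← er]
      abel

theorem Stage.gen_tS {O : X.W → Obj D} {m : ℕ} (h : Stage O m) (hm : ∀ x, X.len x < m)
    (z : X.W) (i : Fin X.n) : Gen O ((O z).B.tens (X.Bs i)) := by
  rcases lt_or_gt_of_ne (X.cs.length_mul_simple_ne z i) with hl | hl
  · obtain ⟨o', -, hI, f, p, hs, e⟩ := h.inv z i (hm z).le hl
    have hiso : Iso o'.B (O z).B := ⟨f, hs.hf, p, hs.hp, hs.pf, e⟩
    have h1 : Gen O o'.B := (Gen.self O z).iso hiso.symm
    refine Gen.iso ?_ (hiso.tens (X.Bs i))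
    refine Gen.cover (A := Fin 2) (N := fun _ => o'.B) (fun _ => h1) (k := fun e => ![-1, 1] e)
      (fun e => (inv_split hI.1 e).1) (fun e => (inv_split hI.1 e).2) ?_
    ext ⟨a, e⟩ ⟨a', e'⟩ : 2
    simp only [Matrix.sum_apply, Matrix.mul_apply, Matrix.of_apply, Matrix.one_apply,
      Prod.mk.injEq, Fin.sum_univ_two]
    fin_cases e <;> fin_cases e' <;> simp [eq_comm]
  · obtain ⟨r, hr, -, A, hA, u, t, c, f, p, f', p', h1, -, h2, -⟩ := h.dec z i (hm z) hl
    have e0 : f' * p' = 0 := by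
      ext a b : 2
      simp [Matrix.mul_apply]
    rw [e0, add_zero] at h2
    exact Gen.cover (M := ((O z).tS i).B) (N := fun a => (t a).B)
      (fun a => by rw [(h1 a).2.1]; exact Gen.self O _) (k := fun _ => 0)
      (fun a => (h1 a).2.2.2.hf) (fun a => by rw [neg_zero]; exact (h1 a).2.2.2.hp) h2

theorem Stage.gen_tens {O : X.W → Obj D} {m : ℕ} (h : Stage O m) (hm : ∀ x, X.len x < m)
    {M : Bim X.n} (hM : Gen O M) (i : Fin X.n) : Gen O (M.tens (X.Bs i)) := by
  obtain ⟨A, hA, z, k, f, p, h1, hs⟩ := hM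
  refine Gen.cover (N := fun a => (O (z a)).B.tens (X.Bs i)) (fun a => h.gen_tS hm _ i) (k := k)
    (fun a => Hom.th _ (h1 a).1) (fun a => Hom.th _ (h1 a).2) ?_
  calc ∑ a, Th (X.Bs i) (f a) * Th (X.Bs i) (p a) = ∑ a, Th (X.Bs i) (f a * p a) :=
        Finset.sum_congr rfl fun a _ => (Th_mul _ _ _).symm
    _ = Th (X.Bs i) (∑ a, f a * p a) := (Th_sum _ _ _).symm
    _ = 1 := by rw [hs, Th_one]

/-- the top summand occurs exactly once -/
theorem exists_top {O : X.W → Obj D} (hO : ∀ z, (O z).Ind z) {y : X.W} {i : Fin X.n}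
    (hl : X.len y < X.len (y * X.s i)) {A : Type} [Fintype A] {u : A → X.W}
    (hu : ∀ a, X.len (u a) ≤ X.len y + 1) (e : (O y).c * D.Cs i = ∑ a, (O (u a)).c) :
    ∃ a0, u a0 = y * X.s i ∧ ∀ a, a ≠ a0 → X.len (u a) ≤ X.len y := by
  have hl1 : X.len (y * X.s i) = X.len y + 1 := by
    rcases X.cs.length_mul_simple y i with h | h
    · exact h
    · simp only [Cox0.len, Cox0.s] at hl; omega
  have key : ∀ w, X.len w = X.len y + 1 →
      (Finset.univ.filter fun a => u a = w).card = if w = y * X.s i then 1 else 0 := by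
    intro w hw
    have h1 : D.co ((O y).c * D.Cs i - D.T (y * X.s i)) w = 0 := by
      by_contra hc
      have := (Hk.KLel.mul_Cs D (hO y).2 hl).2 w hc
      omega
    have h2 : ∀ a, D.co (O (u a)).c w = if u a = w then 1 else 0 := by
      intro a
      split_ifs with ha
      · rw [← ha]; exact Hk.KLel.co_self D (hO _).2
      · by_contra hc
        have := (Hk.KLel.co_ne D (hO (u a)).2 (Ne.symm ha)).2 hc
        have := hu a
        omega
    rw [e] at h1
    simp only [Hk.co, map_sub, map_sum, Finsupp.sub_apply, Finsupp.finsetSum_apply,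
      Module.Basis.repr_self, Finsupp.single_apply] at h1 h2
    simp only [h2, Finset.sum_boole, sub_eq_zero] at h1
    have h3 := congrArg ev1 h1
    rw [map_natCast] at h3
    by_cases hw' : w = y * X.s i
    · rw [if_pos hw'.symm, map_one] at h3
      rw [if_pos hw']
      exact_mod_cast h3
    · rw [if_neg (Ne.symm hw'), map_zero] at h3
      rw [if_neg hw']
      exact_mod_cast h3
  have h1 := key _ hl1
  rw [if_pos rfl, Finset.card_eq_one] at h1
  obtain ⟨a0, ha0⟩ := h1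
  have hm : ∀ a, u a = y * X.s i ↔ a = a0 := fun a => by
    rw [← Finset.mem_singleton (a := a0), ← ha0]; simp
  refine ⟨a0, (hm a0).2 rfl, fun a ha => ?_⟩
  by_contra hc
  have h2 := key (u a) (by have := hu a; omega)
  rw [if_neg (fun h => ha ((hm a).1 h)), Finset.card_eq_zero, Finset.filter_eq_empty_iff] at h2
  exact h2 (Finset.mem_univ a) rfl

theorem Stage.gen_fl {O : X.W → Obj D} {m : ℕ} (h : Stage O m) (hm : ∀ x, X.len x < m)
    (x y : X.W) : Gen O ((O x).B.tens (O y).B) ∧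
      D.Fl ((O x).B.tens (O y).B) ((O x).c * (O y).c) := by
  have hO : ∀ z, (O z).Ind z := fun z => h.ind z (hm z).le
  induction hn : X.len y using Nat.strong_induction_on generalizing y with
  | _ n ih =>
    by_cases hy : y = 1
    · subst hy
      have e : Iso (O x).B ((O x).B.tens (O 1).B) :=
        ((Iso.tens_right _ h.one).trans (tens_one X _)).symm
      rw [D.klel_unique (hO 1).2 D.klel_one, mul_one]
      exact ⟨(Gen.self O x).iso e, (hO x).1.fl.iso e⟩
    obtain ⟨i, hi⟩ := X.cs.exists_rightDescent_of_ne_one hy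
    obtain ⟨y', rfl⟩ : ∃ y', y = y' * X.s i :=
      ⟨y * X.s i, (X.cs.simple_mul_simple_cancel_right i).symm⟩
    have hl : X.len y' < X.len (y' * X.s i) := by
      have := hi
      rw [CoxeterSystem.IsRightDescent, X.cs.simple_mul_simple_cancel_right] at this
      exact this
    obtain ⟨r, hr, hr0, A, hA, u, t, c, f, p, f', p', h1, -, h2, h3, -, h4⟩ :=
      h.dec y' i (hm y') hl
    have e0 : f' * p' = 0 := by
      ext a b : 2
      simp [Matrix.mul_apply]
    rw [e0, add_zero] at h2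
    obtain rfl : t = fun a => O (u a) := funext fun a => (h1 a).2.1
    rw [hr0, add_zero] at h4
    obtain ⟨a0, ha0, hlt⟩ := exists_top hO hl (fun a => (h1 a).1) h4
    obtain ⟨g1, g2⟩ := ih _ (hn ▸ hl) y' rfl
    have eA := tens_assoc (O x).B (O y').B (X.Bs i)
    have g3 := (h.gen_tens hm g1 i).iso eA
    have g4 := (g2.tens i).iso eA
    rw [← ha0]
    have h5 : (O y').c * D.Cs i = ∑ a, (O (u a)).c := h4
    rw [mul_assoc, h5, Finset.mul_sum] at g4
    refine ⟨g3.retract (Hom.kron _ (h1 a0).2.2.2.hf) (Hom.kron _ (h1 a0).2.2.2.hp)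
      ((kron_one_mul _ _ _).trans (by rw [(h1 a0).2.2.2.pf, Matrix.one_kronecker_one])), ?_⟩
    exact Hk.Fl.remove_tens (O x).B (N := fun a => (O (u a)).B)
      (c := fun a => (O x).c * (O (u a)).c) (a0 := a0)
      (fun a ha => (ih _ (hn ▸ (hlt a ha).trans_lt hl) (u a) rfl).2)
      (P := (O y').B.tens (X.Bs i)) (f := f) (p := p) g4 (fun a => (h1 a).2.2.2.hf)
      (fun a => (h1 a).2.2.2.hp) (fun a => (h1 a).2.2.2.pf) h3 h2

end Obj

theorem Hk.exists_KD (D : Hk X) : ∃ E : KD X, E.toHk = D := by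
  obtain ⟨O, h⟩ := Obj.exists_stage D (X.len X.w0 + 1)
  have hm : ∀ x, X.len x < X.len X.w0 + 1 := fun x =>
    Nat.lt_succ_of_le (X.exists_w0.choose_spec x)
  have hO : ∀ z, (O z).Ind z := fun z => h.ind z (hm z).le
  obtain ⟨b, hb⟩ := D.exists_basis (C := fun x => (O x).c) fun x => (hO x).2
  refine ⟨⟨D, b, fun x => ?_, fun x y => ?_, fun x y z => ?_⟩, rfl⟩
  · rw [hb]; exact (hO x).2
  · rw [hb]; exact (hO x).1.fl.pos y
  · obtain ⟨g1, g2⟩ := h.gen_fl hm x y
    obtain ⟨r, hr, e⟩ := g1.cone hO g2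
    rw [hb, hb, e]
    simp only [← hb]
    rw [b.repr_sum_self]
    exact hr z

end

end Pool.Agent.P.MP_1a0ecf_al
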