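import Mathlib

namespace Pool.Agent.P.MP_1a0ecf_al.S

open scoped TensorProduct Classical

noncomputable section

section Families

variable {H : Type} [Ring H] [Algebra ℂ H] {W : Type} [Group W] [Fintype W] {V : Type}
  {E : Type} [AddCommGroup E] [Module ℂ E]

/-- The action of `w` on `v`. -/
def act (π : Representation ℂ W E) (w : W) (v : E) : E := π w v

/-- The relations of the module induced from `S(V) ⋊ W`, with `V` acting on `E` by zero. -/
def IndRel (y : V → H) (g : W → H) (π : Representation ℂ W E) : Submodule H (H ⊗[ℂ] E) :=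
  Submodule.span H
    ({m | ∃ a v, m = y a ⊗ₜ[ℂ] v} ∪ {m | ∃ w v, m = g w ⊗ₜ[ℂ] v - 1 ⊗ₜ[ℂ] act π w v})

/-- The idempotent `e`. -/
def idem (g : W → H) : H := (Fintype.card W : ℂ)⁻¹ • ∑ w, g w

/-- `Δ(E) = e · Ind E` as a module over the centre. -/
def Delta (y : V → H) (g : W → H) (π : Representation ℂ W E) :
    Submodule (Subalgebra.center ℂ H) ((H ⊗[ℂ] E) ⧸ IndRel y g π) :=
  Submodule.span _ (Set.range fun m => idem g • m)

/-- The ideal `q` of the centre contains the central polynomials without constant term in the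
elements of `s`. -/
def Over (s : Set H) (q : Ideal (Subalgebra.center ℂ H)) : Prop :=
  ∀ z : Subalgebra.center ℂ H, (z : H) ∈ NonUnitalAlgebra.adjoin ℂ s → z ∈ q

/-- `(Z / q) ⊗ Δ(E) ≠ 0`. -/
def Supp (y : V → H) (g : W → H) (π : Representation ℂ W E)
    (q : Ideal (Subalgebra.center ℂ H)) : Prop :=
  Nontrivial ((Subalgebra.center ℂ H ⧸ q) ⊗[Subalgebra.center ℂ H] Delta y g π)

/-- Both modules `Δ` are supported at one point of the fibre over `0 × 0`. -/
def Same {V' E' : Type} [AddCommGroup E'] [Module ℂ E'] (x : V' → H) (y : V → H) (g : W → H)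
    (π : Representation ℂ W E) (π' : Representation ℂ W E') : Prop :=
  ∃ q : Ideal (Subalgebra.center ℂ H), q.IsMaximal ∧ Over (Set.range x) q ∧
    Over (Set.range y) q ∧ Supp y g π q ∧ Supp y g π' q

end Families

section Cherednik

variable {n : ℕ} {M : CoxeterMatrix (Fin n)} {W : Type} [Group W] [Fintype W]
  {V : Type} [AddCommGroup V] [Module ℂ V]

/-- `ρ` is the complexified reflection representation, with simple roots `α i`. -/
def IsGeom (cs : CoxeterSystem M W) (ρ : Representation ℂ W V) (α : Fin n → V) : Prop :=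
  ∀ i j, act ρ (cs.simple i) (α j) = α j + ((2 * Real.cos (Real.pi / M i j) : ℝ) : ℂ) • α i

/-- The tensor algebra on `V ⊕ V* ⊕ ℂ W`. -/
abbrev Free (V W : Type) [AddCommGroup V] [Module ℂ V] [Group W] : Type :=
  TensorAlgebra ℂ (V × Module.Dual ℂ V × MonoidAlgebra ℂ W)

def fV (W : Type) [Group W] (a : V) : Free V W := TensorAlgebra.ι ℂ (a, 0, 0)

def fD (W : Type) [Group W] (x : Module.Dual ℂ V) : Free V W := TensorAlgebra.ι ℂ (0, x, 0)

def fW (V : Type) [AddCommGroup V] [Module ℂ V] (w : W) : Free V W :=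
  TensorAlgebra.ι ℂ (0, 0, MonoidAlgebra.single w 1)

/-- The pairing of `V*` and `V`. -/
def pair (x : Module.Dual ℂ V) (a : V) : ℂ := x a

/-- The defining relations of the rational Cherednik algebra at `t = 0`. -/
inductive CRel (cs : CoxeterSystem M W) (ρ : Representation ℂ W V) (c : W → ℝ) :
    Free V W → Free V W → Prop
  | one : CRel cs ρ c (fW V 1) 1
  | mul (w w' : W) : CRel cs ρ c (fW V (w * w')) (fW V w * fW V w')
  | conjV (w : W) (a : V) : CRel cs ρ c (fW V w * fV W a) (fV W (act ρ w a) * fW V w)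
  | conjD (w : W) (x : Module.Dual ℂ V) :
      CRel cs ρ c (fW V w * fD W x) (fD W (act ρ.dual w x) * fW V w)
  | commV (a a' : V) : CRel cs ρ c (fV W a * fV W a') (fV W a' * fV W a)
  | commD (x x' : Module.Dual ℂ V) : CRel cs ρ c (fD W x * fD W x') (fD W x' * fD W x)
  | main (a : V) (x : Module.Dual ℂ V) :
      CRel cs ρ c (fV W a * fD W x - fD W x * fV W a)
        (∑ t with cs.IsReflection t, ((c t : ℂ) * (pair x (a - act ρ t a) / 2)) • fW V t)

/-- The class of an element in a quotient algebra. -/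
def cls {A : Type} [Ring A] (r : A → A → Prop) (a : A) : RingQuot r := RingQuot.mkRingHom r a

/-- `π` and `π'` lie in the same Calogero-Moser family of `H_c = RingQuot (CRel cs ρ c)`. -/
def SameCM (cs : CoxeterSystem M W) (ρ : Representation ℂ W V) (c : W → ℝ)
    {E E' : Type} [AddCommGroup E] [Module ℂ E] [AddCommGroup E'] [Module ℂ E']
    (π : Representation ℂ W E) (π' : Representation ℂ W E') : Prop :=
  Same (fun x => cls (CRel cs ρ c) (fD W x)) (fun a => cls (CRel cs ρ c) (fV W a))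
    (fun w => cls (CRel cs ρ c) (fW V w)) π π'

end Cherednik

section Hecke

variable {n : ℕ} {M : CoxeterMatrix (Fin n)} {W : Type} [Group W] [Fintype W]

/-- The subgroup `Γ` of `ℝ` generated by `ℤ` and the parameters. -/
def Gam (cs : CoxeterSystem M W) (c : W → ℝ) : AddSubgroup ℝ :=
  AddSubgroup.closure (insert 1 (c '' {t | cs.IsReflection t}))

/-- `L(s_i) = c_{s_i}` as an element of `Γ`. -/
def wt (cs : CoxeterSystem M W) (c : W → ℝ) (i : Fin n) : Gam cs c :=
  ⟨c (cs.simple i), AddSubgroup.subset_closure (Or.inr ⟨_, cs.isReflection_simple i, rfl⟩)⟩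

/-- The basis vector of index `x`. -/
def vec {R H : Type} [CommRing R] [Ring H] [Algebra R H] (b : Module.Basis W R H) (x : W) : H :=
  b x

/-- The coordinate of index `x`. -/
def coord {R H : Type} [CommRing R] [Ring H] [Algebra R H] (b : Module.Basis W R H) (h : H)
    (x : W) : R :=
  b.repr h x

/-- The two-sided Kazhdan-Lusztig preorder. -/
def LeLR {R H : Type} [CommRing R] [Ring H] [Algebra R H] (C : Module.Basis W R H) :
    W → W → Prop :=
  Relation.ReflTransGen fun x y => ∃ h h' : H, coord C (h * vec C y * h') x ≠ 0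

variable {Γ : Type} [AddCommGroup Γ] {H : Type} [Ring H] [Algebra (AddMonoidAlgebra ℤ Γ) H]

/-- The monomial `v ^ γ`. -/
def mon (γ : Γ) : AddMonoidAlgebra ℤ Γ := AddMonoidAlgebra.single γ 1

/-- `T` is the standard basis of the Iwahori-Hecke algebra with parameters `L`. -/
def IsHecke (cs : CoxeterSystem M W) (L : Fin n → Γ)
    (T : Module.Basis W (AddMonoidAlgebra ℤ Γ) H) : Prop :=
  vec T 1 = 1 ∧ ∀ x i, vec T x * vec T (cs.simple i) = vec T (x * cs.simple i) +
    if cs.length x < cs.length (x * cs.simple i) then 0 else (mon (L i) - mon (-L i)) • vec T x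

/-- `bar` is the bar involution. -/
def IsBar (T : Module.Basis W (AddMonoidAlgebra ℤ Γ) H) (bar : H →+* H) : Prop :=
  (∀ (γ : Γ) h, bar (mon γ • h) = mon (-γ) • bar h) ∧ ∀ x, bar (vec T x) * vec T x⁻¹ = 1

/-- `C` is the Kazhdan-Lusztig basis. -/
def IsKL [LE Γ] (T : Module.Basis W (AddMonoidAlgebra ℤ Γ) H) (bar : H →+* H)
    (C : Module.Basis W (AddMonoidAlgebra ℤ Γ) H) : Prop :=
  ∀ x, bar (vec C x) = vec C x ∧
    ∀ y (γ : Γ), 0 ≤ γ → (coord T (vec C x - vec T x) y).coeff γ = 0

/-- The specialisation `v ^ γ ↦ 1`. -/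
def spec (r : AddMonoidAlgebra ℤ Γ) : ℂ := r.coeff.sum fun _ a => (a : ℂ)

/-- `π` occurs in the module of the two-sided cell of `z`, specialised to `ℂ W`. -/
def Occurs (T C : Module.Basis W (AddMonoidAlgebra ℤ Γ) H) (z : W)
    {E : Type} [AddCommGroup E] [Module ℂ E] (π : Representation ℂ W E) : Prop :=
  ∃ f : E → W → ℂ, IsLinearMap ℂ f ∧ (∃ v y, f v y ≠ 0) ∧
    (∀ v y, ¬ (LeLR C y z ∧ LeLR C z y) → f v y = 0) ∧
    ∀ w v x, LeLR C x z ∧ LeLR C z x → f (act π w v) x =
      ∑ y, spec (coord C (vec T w * vec C y) x) * f v y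

end Hecke

/-- The Gordon-Martino conjecture for the Coxeter groups with Coxeter matrix `M`. -/
def GordonMartino {n : ℕ} (M : CoxeterMatrix (Fin n)) : Prop :=
  ∀ (W : Type) [Group W] [Fintype W] (cs : CoxeterSystem M W)
    (ρ : Representation ℂ W (Fin n → ℂ)), IsGeom cs ρ (fun i => Pi.single i 1) →
  ∀ c : W → ℝ, (∀ t, cs.IsReflection t → 0 ≤ c t) →
    (∀ t w, cs.IsReflection t → c (w * t * w⁻¹) = c t) →
  ∀ (H : Type) [Ring H] [Algebra (AddMonoidAlgebra ℤ (Gam cs c)) H]
    (T C : Module.Basis W (AddMonoidAlgebra ℤ (Gam cs c)) H) (bar : H →+* H),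
    IsHecke cs (wt cs c) T → IsBar T bar → IsKL T bar C →
  ∀ (d d' : ℕ) (π : Representation ℂ W (Fin d → ℂ)) (π' : Representation ℂ W (Fin d' → ℂ)),
    π.IsIrreducible → π'.IsIrreducible →
    (SameCM cs ρ c π π' ↔ ∃ z, Occurs T C z π ∧ Occurs T C z π')

end

end Pool.Agent.P.MP_1a0ecf_al.S
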