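import Pool.Agent.P.MP_1a0ecf_al.Ck
import Pool.Agent.P.MP_1a0ecf_al.Chr

/-! Package Q0: basic lemmas for the checker. -/

namespace Pool.Agent.P.MP_1a0ecf_al

open Matrix Finset
open scoped Classical

noncomputable section

@[simp] theorem an_eq (a b : Bool) : an a b = true ↔ a = true ∧ b = true := by
  cases a <;> simp [an]

@[simp] theorem orr_eq (a b : Bool) : orr a b = true ↔ a = true ∨ b = true := by
  cases a <;> simp [orr]

@[simp] theorem nt_eq (a : Bool) : nt a = true ↔ ¬ a = true := by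
  cases a <;> simp [nt]

@[simp] theorem imp_eq (a b : Bool) : imp a b = true ↔ (a = true → b = true) := by
  cases a <;> simp [imp]

theorem cnd_eq (b : Bool) (x y : ℕ) : cnd b x y = if b = true then x else y := by
  cases b <;> simp [cnd]

@[simp] theorem ltN_eq (a b : ℕ) : ltN a b = true ↔ a < b := by
  simp [ltN, Nat.succ_le_iff]

@[simp] theorem allN_eq (f : ℕ → Bool) (n : ℕ) : allN f n = true ↔ ∀ k < n, f k = true := by
  induction n with
  | zero => simp [allN]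
  | succ n ih =>
    have e : allN f (n + 1) = an (f n) (allN f n) := rfl
    rw [e, an_eq, ih]
    constructor
    · rintro ⟨h1, h2⟩ k hk
      rcases Nat.lt_succ_iff_lt_or_eq.1 hk with h | h
      · exact h2 k h
      · rw [h]; exact h1
    · intro h
      exact ⟨h n (Nat.lt_succ_self n), fun k hk => h k (Nat.lt_succ_of_lt hk)⟩

@[simp] theorem anyN_eq (f : ℕ → Bool) (n : ℕ) : anyN f n = true ↔ ∃ k < n, f k = true := by
  induction n with
  | zero => simp [anyN]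
  | succ n ih =>
    have e : anyN f (n + 1) = orr (f n) (anyN f n) := rfl
    rw [e, orr_eq, ih]
    constructor
    · rintro (h | ⟨k, hk, h⟩)
      · exact ⟨n, Nat.lt_succ_self n, h⟩
      · exact ⟨k, Nat.lt_succ_of_lt hk, h⟩
    · rintro ⟨k, hk, h⟩
      rcases Nat.lt_succ_iff_lt_or_eq.1 hk with h' | h'
      · exact Or.inr ⟨k, h', h⟩
      · left; rw [← h']; exact h

theorem sumN_eq (f : ℕ → ℕ) (n : ℕ) : sumN f n = ∑ k ∈ range n, f k := by
  induction n with
  | zero => simp [sumN]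
  | succ n ih =>
    have e : sumN f (n + 1) = f n + sumN f n := rfl
    rw [e, ih, Finset.sum_range_succ, add_comm]

theorem bit_eq (S j : ℕ) : bit S j = S.testBit j := by
  have e : bit S j = Nat.beq ((S >>> j) &&& 1) 1 := rfl
  rw [e, Nat.and_one_is_mod, Nat.testBit_eq_decide_div_mod_eq, Nat.shiftRight_eq_div_pow]
  rw [Bool.eq_iff_iff, Nat.beq_eq]
  simp

theorem bit_lor (S S' j : ℕ) : bit (Nat.lor S S') j = (bit S j || bit S' j) := by
  rw [bit_eq, bit_eq, bit_eq]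
  exact Nat.testBit_or S S' j

theorem bit_pow (i j : ℕ) : bit (Nat.pow 2 i) j = true ↔ j = i := by
  rw [bit_eq]
  have e : Nat.pow 2 i = 2 ^ i := rfl
  rw [e, Nat.testBit_two_pow]
  simp [eq_comm]

theorem fld_lt (D w k : ℕ) : fld D w k < 2 ^ w := by
  have e : fld D w k = (D >>> (w * k)) &&& (2 ^ w - 1) := rfl
  rw [e, Nat.and_two_pow_sub_one_eq_mod]
  exact Nat.mod_lt _ (by positivity)

theorem f8_lt (D k : ℕ) : f8 D k < 256 := by
  have e : f8 D k = (D >>> (8 * k)) &&& (2 ^ 8 - 1) := rfl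
  rw [e, Nat.and_two_pow_sub_one_eq_mod]
  exact Nat.mod_lt _ (by positivity)

theorem f32_lt (D k : ℕ) : f32 D k < 2 ^ 32 := by
  have e : f32 D k = (D >>> (32 * k)) &&& (2 ^ 32 - 1) := rfl
  rw [e, Nat.and_two_pow_sub_one_eq_mod]
  exact Nat.mod_lt _ (by positivity)

theorem tg_lt (x : ℕ) : tg x < 256 := by
  have e : tg x = x &&& (2 ^ 8 - 1) := rfl
  rw [e, Nat.and_two_pow_sub_one_eq_mod]
  exact Nat.mod_lt _ (by positivity)

theorem f32_ext {x y n : ℕ} (hx : x < 2 ^ (32 * n)) (hy : y < 2 ^ (32 * n))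
    (h : ∀ i < n, f32 x i = f32 y i) : x = y := by
  have key : ∀ D i r : ℕ, r < 32 → (f32 D i).testBit r = D.testBit (32 * i + r) := by
    intro D i r hr
    have e : f32 D i = (D >>> (32 * i)) &&& (2 ^ 32 - 1) := rfl
    rw [e, Nat.testBit_and, Nat.testBit_two_pow_sub_one, Nat.testBit_shiftRight]
    simp [hr]
  apply Nat.eq_of_testBit_eq
  intro j
  by_cases hj : j < 32 * n
  · have h1 : j / 32 < n := by omega
    have h2 : j % 32 < 32 := Nat.mod_lt _ (by norm_num)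
    have h3 : j = 32 * (j / 32) + j % 32 := by omega
    rw [h3, ← key x _ _ h2, ← key y _ _ h2, h _ h1]
  · have hle : 2 ^ (32 * n) ≤ 2 ^ j := Nat.pow_le_pow_right (by norm_num) (by omega)
    rw [Nat.testBit_lt_two_pow (lt_of_lt_of_le hx hle),
      Nat.testBit_lt_two_pow (lt_of_lt_of_le hy hle)]

theorem q0_orN (f : ℕ → ℕ) (n a : ℕ) :
    (orN f n).testBit a = true ↔ ∃ k < n, (f k).testBit a = true := by
  induction n with
  | zero => simp [orN]
  | succ n ih =>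
    have e : orN f (n + 1) = f n ||| orN f n := rfl
    rw [e, Nat.testBit_or, Bool.or_eq_true, ih]
    constructor
    · rintro (h | ⟨k, hk, h⟩)
      · exact ⟨n, Nat.lt_succ_self n, h⟩
      · exact ⟨k, Nat.lt_succ_of_lt hk, h⟩
    · rintro ⟨k, hk, h⟩
      rcases Nat.lt_succ_iff_lt_or_eq.1 hk with h' | h'
      · exact Or.inr ⟨k, h', h⟩
      · left; rw [← h']; exact h

theorem cover_surj {t : ℕ → ℕ} {N : ℕ}
    (h : orN (fun k => Nat.shiftLeft 1 (t k)) N = Nat.sub (Nat.pow 2 N) 1) :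
    ∀ a < N, ∃ k < N, t k = a := by
  intro a ha
  have h1 : (orN (fun k => Nat.shiftLeft 1 (t k)) N).testBit a = true := by
    rw [h]
    have e : Nat.sub (Nat.pow 2 N) 1 = 2 ^ N - 1 := rfl
    rw [e, Nat.testBit_two_pow_sub_one]
    simpa using ha
  obtain ⟨k, hk, h2⟩ := (q0_orN _ _ _).1 h1
  refine ⟨k, hk, ?_⟩
  have e : Nat.shiftLeft 1 (t k) = 2 ^ t k := by
    have e' : Nat.shiftLeft 1 (t k) = 1 <<< t k := rfl
    rw [e', Nat.shiftLeft_eq, one_mul]
  rw [e, Nat.testBit_two_pow] at h2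
  simpa using h2

theorem cover_sum {α : Type} [AddCommMonoid α] {t : ℕ → ℕ} {N : ℕ}
    (h : orN (fun k => Nat.shiftLeft 1 (t k)) N = Nat.sub (Nat.pow 2 N) 1) (f : ℕ → α) :
    ∑ k ∈ range N, f (t k) = ∑ a ∈ range N, f a := by
  have h1 : range N ⊆ (range N).image t := by
    intro a ha
    obtain ⟨k, hk, e⟩ := cover_surj h a (Finset.mem_range.1 ha)
    exact Finset.mem_image.2 ⟨k, Finset.mem_range.2 hk, e⟩
  have h2 : range N = (range N).image t :=
    Finset.eq_of_subset_of_card_le h1 Finset.card_image_le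
  have h3 : Set.InjOn t (range N : Finset ℕ) := Finset.card_image_iff.1 (by rw [← h2])
  conv_rhs => rw [h2]
  rw [Finset.sum_image h3]

theorem sum_groups {α : Type} [AddCommMonoid α] (c : ℕ → ℕ) (G : ℕ) (f : ℕ → α) :
    ∑ k ∈ range (sumN c G), f k = ∑ g ∈ range G, ∑ k ∈ range (c g), f (sumN c g + k) := by
  induction G with
  | zero => simp [sumN]
  | succ G ih =>
    have e : sumN c (G + 1) = sumN c G + c G := Nat.add_comm _ _
    rw [e, Finset.sum_range_add, ih, Finset.sum_range_succ]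

theorem exists_group (c : ℕ → ℕ) (G : ℕ) {k : ℕ} (h : k < sumN c G) :
    ∃ g < G, ∃ k' < c g, k = sumN c g + k' := by
  induction G with
  | zero => simp [sumN] at h
  | succ G ih =>
    have e : sumN c (G + 1) = sumN c G + c G := Nat.add_comm _ _
    by_cases hk : k < sumN c G
    · obtain ⟨g, hg, r⟩ := ih hk
      exact ⟨g, Nat.lt_succ_of_lt hg, r⟩
    · exact ⟨G, Nat.lt_succ_self G, k - sumN c G, by omega, by omega⟩

theorem AllR.of {f : ℕ → Bool} (lo len hi : ℕ) (e : Nat.beq (Nat.add lo len) hi = true)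
    (h : allN (fun k => f (Nat.add lo k)) len = true) : AllR f lo hi := by
  intro i h1 h2
  have e' : lo + len = hi := Nat.eq_of_beq_eq_true e
  have h3 := (allN_eq _ _).1 h (i - lo) (by omega)
  have e2 : Nat.add lo (i - lo) = i := by
    show lo + (i - lo) = i
    omega
  simpa only [e2] using h3

theorem AllR.app {f : ℕ → Bool} {a b c : ℕ} (h : AllR f a b) (h' : AllR f b c) : AllR f a c := by
  intro i h1 h2
  by_cases hi : i < b
  · exact h i h1 hi
  · exact h' i (by omega) h2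

theorem all_lt_zero (p : ℕ → Prop) : ∀ q < 0, p q := fun _ h => absurd h (Nat.not_lt_zero _)

theorem all_lt_succ {p : ℕ → Prop} {n : ℕ} (h : ∀ q < n, p q) (h' : p n) : ∀ q < n + 1, p q := by
  intro q hq
  rcases Nat.lt_succ_iff_lt_or_eq.1 hq with e | e
  · exact h q e
  · rw [e]; exact h'

/-- the real number with code `u` -/
def vR (u : ℕ) : ℝ :=
  ((u % 65536 : ℕ) : ℝ) - 32768 + (((u / 65536 : ℕ) : ℝ) - 32768) * Real.goldenRatio

/-- the complex number with code `u` -/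
def vC (u : ℕ) : ℂ := (vR u : ℝ)

theorem q0_irr (a b : ℤ) (h : (a : ℝ) + b * Real.goldenRatio = 0) : a = 0 ∧ b = 0 := by
  have hb : b = 0 := by
    by_contra hb
    have hb' : (b : ℝ) ≠ 0 := by exact_mod_cast hb
    apply Real.goldenRatio_irrational
    refine ⟨-(a : ℚ) / b, ?_⟩
    simp only [Rat.cast_div, Rat.cast_neg, Rat.cast_intCast]
    rw [div_eq_iff hb']
    linarith
  refine ⟨?_, hb⟩
  rw [hb] at h
  simpa using h

theorem q0_land (u : ℕ) : Nat.land u 65535 = u % 65536 :=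
  Nat.and_two_pow_sub_one_eq_mod u 16

theorem q0_shr (u : ℕ) : Nat.shiftRight u 16 = u / 65536 := Nat.shiftRight_eq_div_pow u 16

theorem q0_sub {c d : ℕ} (h : c + d = M0) : (c : ZMod M0) = -(d : ZMod M0) := by
  rw [eq_neg_iff_add_eq_zero, ← Nat.cast_add, h, ZMod.natCast_self]

theorem q0_gg : (gg : ZMod M0) * gg = gg + 1 := by
  have e : gg * gg = gg + 1 + M0 := by norm_num [gg, M0]
  have h : ((gg * gg : ℕ) : ZMod M0) = ((gg + 1 + M0 : ℕ) : ZMod M0) := by rw [e]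
  rw [Nat.cast_add, ZMod.natCast_self, add_zero, Nat.cast_mul, Nat.cast_add, Nat.cast_one] at h
  exact h

theorem q0_eqM (r r' : ℕ) : eqM r r' = true ↔ (r : ZMod M0) = (r' : ZMod M0) := by
  rw [ZMod.natCast_eq_natCast_iff']
  exact Nat.beq_eq ▸ Iff.rfl

theorem q0_rv (u : ℕ) : ∃ c, c + (32768 + 32768 * gg) = M0 ∧
    rv u = u % 65536 + u / 65536 * gg + c := by
  refine ⟨_, ?_, by unfold rv; rw [q0_land, q0_shr]; rfl⟩
  norm_num [gg, M0]

theorem q0_r8 (u : ℕ) : ∃ c, c + 128 = M0 ∧ r8 u = u + c :=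
  ⟨_, by norm_num [M0], rfl⟩

theorem q0_r16 (u : ℕ) : ∃ c, c + 2 ^ 15 = M0 ∧ r16 u = u + c :=
  ⟨_, by norm_num [M0], rfl⟩

theorem q0_r128 (u : ℕ) : ∃ c, c + 2 ^ 127 = M0 ∧ r128 u = u + c :=
  ⟨_, by norm_num [M0], rfl⟩

theorem vR_inj {u u' : ℕ} (h : vR u = vR u') : u = u' := by
  have h1 := q0_irr (((u % 65536 : ℕ) : ℤ) - ((u' % 65536 : ℕ) : ℤ))
    (((u / 65536 : ℕ) : ℤ) - ((u' / 65536 : ℕ) : ℤ)) (by
      unfold vR at h
      simp only [Int.cast_sub, Int.cast_natCast]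
      linarith)
  omega

theorem vR_zero : vR 2147516416 = 0 := by
  unfold vR
  norm_num

theorem vR_one : vR 2147516417 = 1 := by
  unfold vR
  norm_num

theorem vR_nonneg {u : ℕ} (h1 : 32768 ≤ Nat.land u 65535) (h2 : 32768 ≤ Nat.shiftRight u 16) :
    0 ≤ vR u := by
  rw [q0_land] at h1
  rw [q0_shr] at h2
  have a1 : (32768 : ℝ) ≤ ((u % 65536 : ℕ) : ℝ) := by exact_mod_cast h1
  have a2 : (32768 : ℝ) ≤ ((u / 65536 : ℕ) : ℝ) := by exact_mod_cast h2
  have a3 := mul_nonneg (sub_nonneg.2 a2) Real.goldenRatio_pos.le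
  unfold vR
  linarith

theorem vR_pos {u : ℕ} (h1 : 32768 < Nat.land u 65535) (h2 : Nat.shiftRight u 16 = 32768) :
    0 < vR u := by
  rw [q0_land] at h1
  rw [q0_shr] at h2
  have a1 : (32768 : ℝ) < ((u % 65536 : ℕ) : ℝ) := by exact_mod_cast h1
  unfold vR
  rw [h2]
  simp only [Nat.cast_ofNat, sub_self, zero_mul, add_zero]
  linarith

/-- `r` is the residue of `x`, a number of size at most `B` -/
def Rep (r : ℕ) (x : ℂ) (B : ℕ) : Prop :=
  ∃ a b : ℤ, x = a + b * (Real.goldenRatio : ℝ) ∧ a.natAbs + b.natAbs ≤ B ∧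
    (r : ZMod M0) = a + b * (gg : ZMod M0)

/-- `r` is the residue of `x` -/
def Rp (r : ℕ) (x : ℂ) : Prop := ∃ B, Rep r x B

namespace Rep

theorem rp {r B : ℕ} {x : ℂ} (h : Rep r x B) : Rp r x := ⟨B, h⟩

theorem mono {r B B' : ℕ} {x : ℂ} (h : Rep r x B) (hB : B ≤ B') : Rep r x B' := by
  obtain ⟨a, b, h1, h2, h3⟩ := h
  exact ⟨a, b, h1, h2.trans hB, h3⟩

theorem nat {r B : ℕ} (h : r ≤ B) : Rep r r B := by
  refine ⟨r, 0, by simp, by simpa using h, by simp⟩

theorem zero (B : ℕ) : Rep 0 0 B := by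
  refine ⟨0, 0, by simp, by simp, by simp⟩

theorem one : Rep 1 1 1 := by
  refine ⟨1, 0, by simp, by simp, by simp⟩

theorem neg_one : Rep m1 (-1) 1 := by
  refine ⟨-1, 0, by simp, by simp, ?_⟩
  have h := q0_sub (c := m1) (d := 1) (by norm_num [m1, M0])
  simpa using h

theorem neg_gold : Rep mg (-(Real.goldenRatio : ℝ)) 1 := by
  refine ⟨0, -1, by simp, by simp, ?_⟩
  have h := q0_sub (c := mg) (d := gg) (by norm_num [mg, gg, M0])
  simpa using h

theorem add {r r' B B' : ℕ} {x x' : ℂ} (h : Rep r x B) (h' : Rep r' x' B') :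
    Rep (Nat.add r r') (x + x') (B + B') := by
  obtain ⟨a, b, h1, h2, h3⟩ := h
  obtain ⟨a', b', h1', h2', h3'⟩ := h'
  refine ⟨a + a', b + b', ?_, ?_, ?_⟩
  · rw [h1, h1']; push_cast; ring
  · omega
  · rw [Nat.add_eq, Nat.cast_add, h3, h3']; push_cast; ring

theorem mul {r r' B B' : ℕ} {x x' : ℂ} (h : Rep r x B) (h' : Rep r' x' B') :
    Rep (Nat.mul r r') (x * x') (2 * B * B') := by
  obtain ⟨a, b, h1, h2, h3⟩ := h
  obtain ⟨a', b', h1', h2', h3'⟩ := h'
  refine ⟨a * a' + b * b', a * b' + b * a' + b * b', ?_, ?_, ?_⟩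
  · have g : ((Real.goldenRatio : ℝ) : ℂ) ^ 2 = ((Real.goldenRatio : ℝ) : ℂ) + 1 := by
      exact_mod_cast Real.goldenRatio_sq
    rw [h1, h1']
    generalize ((Real.goldenRatio : ℝ) : ℂ) = y at g
    push_cast
    linear_combination (b : ℂ) * b' * g
  · have e1 := Int.natAbs_add_le (a * a') (b * b')
    have e2 := Int.natAbs_add_le (a * b' + b * a') (b * b')
    have e3 := Int.natAbs_add_le (a * b') (b * a')
    simp only [Int.natAbs_mul] at e1 e2 e3
    have e4 := Nat.mul_le_mul h2 h2'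
    have e5 : b.natAbs * b'.natAbs ≤ B * B' := Nat.mul_le_mul (by omega) (by omega)
    have e6 : (a.natAbs + b.natAbs) * (a'.natAbs + b'.natAbs) = a.natAbs * a'.natAbs +
      b.natAbs * b'.natAbs + (a.natAbs * b'.natAbs + b.natAbs * a'.natAbs) := by ring
    have e7 : 2 * B * B' = B * B' + B * B' := by ring
    omega
  · rw [Nat.mul_eq, Nat.cast_mul, h3, h3']
    push_cast
    linear_combination (b : ZMod M0) * b' * q0_gg

theorem mod {r B : ℕ} {x : ℂ} (h : Rep r x B) : Rep (Nat.mod r M0) x B := by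
  obtain ⟨a, b, h1, h2, h3⟩ := h
  refine ⟨a, b, h1, h2, ?_⟩
  rw [← h3]
  exact ZMod.natCast_mod r M0

theorem sum {f : ℕ → ℕ} {x : ℕ → ℂ} {n B : ℕ} (h : ∀ k < n, Rep (f k) (x k) B) :
    Rep (sumN f n) (∑ k ∈ range n, x k) (n * B) := by
  induction n with
  | zero => simpa [sumN] using zero 0
  | succ n ih =>
    have e : sumN f (n + 1) = Nat.add (f n) (sumN f n) := rfl
    rw [e, Finset.sum_range_succ, add_comm]
    exact ((h n (Nat.lt_succ_self n)).add (ih fun k hk => h k (Nat.lt_succ_of_lt hk))).mono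
      (le_of_eq (by ring))

theorem ite {b : Bool} {r r' B : ℕ} {x x' : ℂ} (h : Rep r x B) (h' : Rep r' x' B) :
    Rep (cnd b r r') (if b = true then x else x') B := by
  cases b
  · simpa [cnd] using h'
  · simpa [cnd] using h

theorem rv {u : ℕ} (h : u < 2 ^ 32) : Rep (rv u) (vC u) (2 ^ 16) := by
  refine ⟨((u % 65536 : ℕ) : ℤ) - 32768, ((u / 65536 : ℕ) : ℤ) - 32768, ?_, by omega, ?_⟩
  · unfold vC vR
    simp only [Int.cast_sub, Int.cast_natCast, Int.cast_ofNat, Complex.ofReal_add,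
      Complex.ofReal_sub, Complex.ofReal_mul, Complex.ofReal_natCast, Complex.ofReal_ofNat]
  · obtain ⟨c, hc, e⟩ := q0_rv u
    rw [e, Nat.cast_add, q0_sub hc]
    simp only [Int.cast_sub, Int.cast_natCast, Int.cast_ofNat, Nat.cast_add, Nat.cast_mul,
      Nat.cast_ofNat]
    ring

theorem r8 {u : ℕ} (h : u < 256) : Rep (r8 u) ((u : ℂ) - 128) 128 := by
  refine ⟨(u : ℤ) - 128, 0, by simp, by omega, ?_⟩
  obtain ⟨c, hc, e⟩ := q0_r8 u
  rw [e, Nat.cast_add, q0_sub hc]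
  simp [sub_eq_add_neg]

theorem r16 {u : ℕ} (h : u < 2 ^ 16) : Rep (r16 u) (((u : ℤ) - 2 ^ 15 : ℤ) : ℂ) (2 ^ 15) := by
  refine ⟨(u : ℤ) - 2 ^ 15, 0, by simp, by omega, ?_⟩
  obtain ⟨c, hc, e⟩ := q0_r16 u
  rw [e, Nat.cast_add, q0_sub hc]
  simp [sub_eq_add_neg]

theorem r128 {u : ℕ} (h : u < 2 ^ 128) : Rep (r128 u) ((u : ℂ) - 2 ^ 127) (2 ^ 127) := by
  refine ⟨(u : ℤ) - 2 ^ 127, 0, by push_cast; ring, by omega, ?_⟩
  obtain ⟨c, hc, e⟩ := q0_r128 u
  rw [e, Nat.cast_add, q0_sub hc]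
  simp [sub_eq_add_neg]

theorem eq {r r' B B' : ℕ} {x x' : ℂ} (h : Rep r x B) (h' : Rep r' x' B') (hB : B ≤ 2 ^ 189)
    (hB' : B' ≤ 2 ^ 189) (e : eqM r r' = true) : x = x' := by
  obtain ⟨a, b, h1, h2, h3⟩ := h
  obtain ⟨a', b', h1', h2', h3'⟩ := h'
  have e1 := (q0_eqM r r').1 e
  have e2 : (((a - a') + (b - b') * (gg : ℤ) : ℤ) : ZMod M0) = 0 := by
    push_cast
    linear_combination h3' - h3 + e1
  obtain ⟨k, hk⟩ := (ZMod.intCast_zmod_eq_zero_iff_dvd _ _).1 e2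
  have ha : -(2 ^ 190) ≤ a - a' ∧ a - a' ≤ 2 ^ 190 := by omega
  have hb : -(2 ^ 190) ≤ b - b' ∧ b - b' ≤ 2 ^ 190 := by omega
  have e3 : a - a' = 0 ∧ b - b' = 0 := by
    generalize a - a' = s at hk ha
    generalize b - b' = t at hk hb
    simp only [gg, M0, Nat.cast_ofNat] at hk
    have k1 : k ≤ 0 := by
      by_contra hc
      have : 1 ≤ k := by omega
      norm_num at ha hb
      linarith [ha.2, hb.2]
    have k2 : 0 ≤ k := by
      by_contra hc
      have : k ≤ -1 := by omega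
      norm_num at ha hb
      linarith [ha.1, hb.1]
    have k0 : k = 0 := le_antisymm k1 k2
    rw [k0, mul_zero] at hk
    have t1 : t ≤ 0 := by
      by_contra hc
      have : 1 ≤ t := by omega
      norm_num at ha
      linarith [ha.1]
    have t2 : 0 ≤ t := by
      by_contra hc
      have : t ≤ -1 := by omega
      norm_num at ha
      linarith [ha.2]
    have t0 : t = 0 := le_antisymm t1 t2
    rw [t0, zero_mul, add_zero] at hk
    exact ⟨hk, t0⟩
  rw [h1, h1', sub_eq_zero.1 e3.1, sub_eq_zero.1 e3.2]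

end Rep

namespace Rp

theorem nat (r : ℕ) : Rp r r := ⟨r, Rep.nat le_rfl⟩

theorem add {r r' : ℕ} {x x' : ℂ} (h : Rp r x) (h' : Rp r' x') : Rp (Nat.add r r') (x + x') := by
  obtain ⟨B, h⟩ := h
  obtain ⟨B', h'⟩ := h'
  exact (h.add h').rp

theorem mul {r r' : ℕ} {x x' : ℂ} (h : Rp r x) (h' : Rp r' x') : Rp (Nat.mul r r') (x * x') := by
  obtain ⟨B, h⟩ := h
  obtain ⟨B', h'⟩ := h'
  exact (h.mul h').rp

theorem sum {f : ℕ → ℕ} {x : ℕ → ℂ} {n : ℕ} (h : ∀ k < n, Rp (f k) (x k)) :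
    Rp (sumN f n) (∑ k ∈ range n, x k) := by
  induction n with
  | zero => simpa [sumN] using (Rep.zero 0).rp
  | succ n ih =>
    have e : sumN f (n + 1) = Nat.add (f n) (sumN f n) := rfl
    rw [e, Finset.sum_range_succ, add_comm]
    exact (h n (Nat.lt_succ_self n)).add (ih fun k hk => h k (Nat.lt_succ_of_lt hk))

theorem congr {r r' : ℕ} {x : ℂ} (h : Rp r x) (e : eqM r r' = true) : Rp r' x := by
  obtain ⟨B, a, b, h1, h2, h3⟩ := h
  exact ⟨B, a, b, h1, h2, by rw [← h3, (q0_eqM r r').1 e]⟩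

theorem ne_zero {r : ℕ} {x : ℂ} (h : Rp r x) (e : ¬ eqM r 0 = true) : x ≠ 0 := by
  obtain ⟨B, a, b, h1, -, h3⟩ := h
  intro hx
  rw [hx] at h1
  have h4 := q0_irr a b (by exact_mod_cast h1.symm)
  apply e
  rw [q0_eqM, h3, h4.1, h4.2]
  simp

end Rp

end

end Pool.Agent.P.MP_1a0ecf_al
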