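import Pool.Agent.P.MP_1a0ecf_al.Hodge

/-! Package H1: Lefschetz linear algebra. -/

namespace Pool.Agent.P.MP_1a0ecf_al

open Matrix

noncomputable section

variable {ι κ : Type} [Fintype ι] [DecidableEq ι] [Fintype κ] [DecidableEq κ]

omit [DecidableEq ι] [DecidableEq κ] in
theorem h1_dot (f : Matrix ι κ ℝ) (v : κ → ℝ) (w : ι → ℝ) : f *ᵥ v ⬝ᵥ w = v ⬝ᵥ fᵀ *ᵥ w := by
  rw [dotProduct_mulVec v, vecMul_transpose]

theorem h1_pow {L : Matrix ι ι ℝ} {L' : Matrix κ κ ℝ} {f : Matrix ι κ ℝ} (hf : L * f = f * L')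
    (i : ℕ) : L ^ i * f = f * L' ^ i := by
  induction i with
  | zero => simp
  | succ i ih => rw [pow_succ, Matrix.mul_assoc, hf, ← Matrix.mul_assoc, ih, Matrix.mul_assoc,
      ← pow_succ]

theorem h1_sym {d : ι → ℤ} {L G : Matrix ι ι ℝ} (hL : Lef d L G) (n : ℕ) (x y : ι → ℝ) :
    x ⬝ᵥ G *ᵥ (L ^ n) *ᵥ y = y ⬝ᵥ G *ᵥ (L ^ n) *ᵥ x := by
  rw [mulVec_mulVec, ← h1_pow hL.adj, ← transpose_pow, ← mulVec_mulVec, ← h1_dot, dotProduct_comm,
    h1_dot, hL.symm]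

omit [DecidableEq ι] [Fintype κ] [DecidableEq κ] in
theorem DegM.inDeg {d : ι → ℤ} {d' : κ → ℤ} {k m : ℤ} {F : Matrix κ ι ℝ} (hF : DegM d d' k F)
    {v : ι → ℝ} (hv : InDeg d m v) : InDeg d' (m + k) (F *ᵥ v) := by
  intro a ha
  refine Finset.sum_eq_zero fun b _ => ?_
  by_cases h : F a b = 0
  · simp [h]
  · have := hF a b h
    simp [hv b (by omega)]

theorem DegM.pow {d : ι → ℤ} {L : Matrix ι ι ℝ} (hL : DegM d d 2 L) (i : ℕ) :
    DegM d d (2 * i) (L ^ i) := by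
  induction i with
  | zero =>
    intro a b h
    by_cases e : a = b
    · simp [e]
    · simp [e] at h
  | succ i ih =>
    intro a b h
    rw [pow_succ, Matrix.mul_apply] at h
    obtain ⟨c, -, hc⟩ := Finset.exists_ne_zero_of_sum_ne_zero h
    have h1 := ih a c (left_ne_zero_of_mul hc)
    have h2 := hL c b (right_ne_zero_of_mul hc)
    push_cast
    omega

theorem HR.hl {d : ι → ℤ} {L G : Matrix ι ι ℝ} {l : ℤ} (h : HR d L G l) : HL d L := by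
  intro i v hv h0
  by_contra hne
  obtain ⟨a, ha⟩ := Function.ne_iff.1 hne
  have hd : d a = -i := by
    by_contra e
    exact ha (hv a e)
  obtain ⟨r, hr⟩ := h.1 a
  have := h.2 i (-r - i) (by omega) v hv hne (by rw [pow_succ', ← mulVec_mulVec, h0, mulVec_zero])
  simp [h0] at this

theorem HR.nonneg {d : ι → ℤ} {L G : Matrix ι ι ℝ} {l l' : ℤ} {c : ℝ} (h : HR d L G l')
    (hc : Sg l l' c) {i : ℕ} {j : ℤ} (hj : l = i + 2 * j) {v : ι → ℝ} (hv : InDeg d (-i) v)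
    (hp : (L ^ (i + 1)) *ᵥ v = 0) : 0 ≤ (-1 : ℝ) ^ j * (c * (v ⬝ᵥ G *ᵥ (L ^ i) *ᵥ v)) ∧
      ((v ⬝ᵥ G *ᵥ (L ^ i) *ᵥ v) = 0 → v = 0) := by
  obtain ⟨j', e, hc⟩ := hc
  by_cases h0 : v = 0
  · simp [h0]
  have h1 := h.2 i (j - j') (by omega) v hv h0 hp
  refine ⟨?_, fun hq => ?_⟩
  · have e2 : (-1 : ℝ) ^ j = (-1) ^ j' * (-1) ^ (j - j') := by
      rw [← zpow_add₀ (by norm_num)]
      congr 1
      ring
    rw [e2, mul_mul_mul_comm]
    exact (mul_pos hc h1).le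
  · rw [hq, mul_zero] at h1
    exact absurd h1 (lt_irrefl _)

theorem HL.surj {d : ι → ℤ} {L G : Matrix ι ι ℝ} (hL : Lef d L G) (h : HL d L) (i : ℕ)
    {w : ι → ℝ} (hw : InDeg d i w) : ∃ v, InDeg d (-i) v ∧ (L ^ i) *ᵥ v = w := by
  have hG : ∀ u, InDeg d i u → InDeg d (-i) (G *ᵥ u) := by
    intro u hu a ha
    refine Finset.sum_eq_zero fun b _ => ?_
    by_cases e : G a b = 0
    · simp [e]
    · have := hL.degG a b e
      simp [hu b (by omega)]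
  have hP : ∀ v, InDeg d (-i) v → InDeg d i ((L ^ i) *ᵥ v) := by
    intro v hv
    have := (hL.degL.pow i).inDeg hv
    rwa [show -(i : ℤ) + 2 * i = i by ring] at this
  let S : Submodule ℝ (ι → ℝ) :=
    { carrier := {v | InDeg d (-i) v}
      add_mem' := fun {x y} hx hy a ha => by simp [hx a ha, hy a ha]
      zero_mem' := fun _ _ => rfl
      smul_mem' := fun c x hx a ha => by simp [hx a ha] }
  have hS : ∀ v ∈ S, (G * L ^ i).mulVecLin v ∈ S := fun v hv => by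
    rw [mulVecLin_apply, ← mulVec_mulVec]
    exact hG _ (hP v hv)
  have hinj : Function.Injective ((G * L ^ i).mulVecLin.restrict hS) := by
    rw [injective_iff_map_eq_zero]
    intro v hv
    have h1 : (G * L ^ i) *ᵥ v.1 = 0 := congrArg Subtype.val hv
    rw [← mulVec_mulVec] at h1
    exact Subtype.ext (h i v.1 v.2 (eq_zero_of_mulVec_eq_zero hL.nd h1))
  obtain ⟨v, hv⟩ := LinearMap.injective_iff_surjective.1 hinj ⟨G *ᵥ w, hG w hw⟩
  have h1 : (G * L ^ i) *ᵥ v.1 = G *ᵥ w := congrArg Subtype.val hv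
  rw [← mulVec_mulVec, ← sub_eq_zero, ← mulVec_sub] at h1
  exact ⟨v.1, v.2, sub_eq_zero.1 (eq_zero_of_mulVec_eq_zero hL.nd h1)⟩

theorem HL.decomp {d : ι → ℤ} {L G : Matrix ι ι ℝ} (hL : Lef d L G) (h : HL d L) (i : ℕ)
    {v : ι → ℝ} (hv : InDeg d (-i) v) : ∃ u, InDeg d (-(i + 2 : ℕ)) u ∧
      (L ^ (i + 1)) *ᵥ (v - L *ᵥ u) = 0 := by
  have h1 := (hL.degL.pow (i + 1)).inDeg hv
  rw [show -(i : ℤ) + 2 * (i + 1 : ℕ) = (i + 2 : ℕ) by push_cast; ring] at h1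
  obtain ⟨u, hu, e⟩ := h.surj hL (i + 2) h1
  refine ⟨u, hu, ?_⟩
  rw [mulVec_sub, mulVec_mulVec, ← pow_succ, e, sub_self]

theorem HL.exists_prim {d : ι → ℤ} {L G : Matrix ι ι ℝ} (hL : Lef d L G) (h : HL d L)
    {L' : Matrix κ κ ℝ} {f : Matrix κ ι ℝ} (hf : L' * f = f * L) (h0 : f ≠ 0) :
    ∃ (i : ℕ) (v : ι → ℝ), InDeg d (-i) v ∧ (L ^ (i + 1)) *ᵥ v = 0 ∧ f *ᵥ v ≠ 0 := by
  by_contra hc
  push Not at hc
  obtain ⟨N, hN⟩ : ∃ N : ℕ, ∀ a, -d a < N := by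
    obtain ⟨M, hM⟩ := (Set.finite_range fun a => -d a).bddAbove
    exact ⟨M.toNat + 1, fun a => by
      have := hM ⟨a, rfl⟩
      simp only at this
      omega⟩
  have hneg : ∀ n i : ℕ, N ≤ i + n → ∀ v, InDeg d (-i) v → f *ᵥ v = 0 := by
    intro n
    induction n with
    | zero =>
      intro i hi v hv
      have : v = 0 := funext fun a => hv a (by have := hN a; omega)
      rw [this, mulVec_zero]
    | succ n ih =>
      intro i hi v hv
      obtain ⟨u, hu, e⟩ := h.decomp hL i hv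
      have h1 := hL.degL.inDeg hu
      rw [show -((i + 2 : ℕ) : ℤ) + 2 = -i by push_cast; ring] at h1
      have h2 := hc i (v - L *ᵥ u) (fun a ha => by simp [hv a ha, h1 a ha]) e
      rwa [mulVec_sub, mulVec_mulVec, ← hf, ← mulVec_mulVec, ih (i + 2) (by omega) u hu,
        mulVec_zero, sub_zero] at h2
  have hpow := h1_pow hf
  have hall : ∀ (k : ℤ) v, InDeg d k v → f *ᵥ v = 0 := by
    intro k v hv
    obtain ⟨i, rfl | rfl⟩ := Int.eq_nat_or_neg k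
    · obtain ⟨u, hu, rfl⟩ := h.surj hL i hv
      rw [mulVec_mulVec, ← hpow, ← mulVec_mulVec, hneg N i (by omega) u hu, mulVec_zero]
    · exact hneg N i (by omega) v hv
  refine h0 (Matrix.ext fun b a => ?_)
  have := congrFun (hall (d a) (Pi.single a 1) fun x hx =>
    Pi.single_eq_of_ne (fun e => hx (by rw [e])) _) b
  simpa using this

theorem HR.sub {d : ι → ℤ} {L G : Matrix ι ι ℝ} {l : ℤ} (h : HR d L G l) {d' : κ → ℤ}
    {L' G' : Matrix κ κ ℝ} {l' : ℤ} {c : ℝ} {f : Matrix ι κ ℝ} {p : Matrix κ ι ℝ}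
    (hd : DegM d' d 0 f) (hp : p * f = 1) (hf : L * f = f * L') (hG : fᵀ * G * f = c • G')
    (hc : Sg l l' c) : HR d' L' G' l' := by
  obtain ⟨j', e, hc⟩ := hc
  refine ⟨fun b => ?_, fun i j hj v hv h0 hq => ?_⟩
  · have h1 : (p * f) b b ≠ 0 := by simp [hp]
    rw [Matrix.mul_apply] at h1
    obtain ⟨a, -, ha⟩ := Finset.exists_ne_zero_of_sum_ne_zero h1
    have h2 := hd a b (right_ne_zero_of_mul ha)
    obtain ⟨r, hr⟩ := h.1 a
    exact ⟨r + j', by omega⟩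
  · have h1 := hd.inDeg hv
    rw [add_zero] at h1
    have h2 : f *ᵥ v ≠ 0 := fun e => h0 (by
      rw [← one_mulVec v, ← hp, ← mulVec_mulVec, e, mulVec_zero])
    have h3 := h.2 i (j' + j) (by omega) _ h1 h2 (by
      rw [mulVec_mulVec, h1_pow hf, ← mulVec_mulVec, hq, mulVec_zero])
    have h4 : f *ᵥ v ⬝ᵥ G *ᵥ (L ^ i) *ᵥ f *ᵥ v = c * (v ⬝ᵥ G' *ᵥ (L' ^ i) *ᵥ v) := by
      rw [h1_dot, mulVec_mulVec v (L ^ i), h1_pow hf, ← mulVec_mulVec, mulVec_mulVec _ G,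
        mulVec_mulVec, ← Matrix.mul_assoc, hG, smul_mulVec, dotProduct_smul, smul_eq_mul]
    rw [h4, zpow_add₀ (by norm_num), mul_mul_mul_comm] at h3
    exact (mul_pos_iff_of_pos_left hc).1 h3

theorem HL.sub {d : ι → ℤ} {L : Matrix ι ι ℝ} (h : HL d L) {d' : κ → ℤ} {L' : Matrix κ κ ℝ}
    {f : Matrix ι κ ℝ} {p : Matrix κ ι ℝ} (hd : DegM d' d 0 f) (hp : p * f = 1)
    (hf : L * f = f * L') : HL d' L' := by
  intro i v hv hq
  have h1 := hd.inDeg hv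
  rw [add_zero] at h1
  have h2 := h i _ h1 (by rw [mulVec_mulVec, h1_pow hf, ← mulVec_mulVec, hq, mulVec_zero])
  rw [← one_mulVec v, ← hp, ← mulVec_mulVec, h2, mulVec_zero]

theorem Sg.one (l : ℤ) : Sg l l 1 := by
  exact ⟨0, by simp, by simp⟩

theorem Sg.ne_zero {l l' : ℤ} {c : ℝ} (h : Sg l l' c) : c ≠ 0 := by
  obtain ⟨j, -, h⟩ := h
  rintro rfl
  simp at h

theorem Sg.mul {l l' l'' : ℤ} {c c' : ℝ} (h : Sg l l' c) (h' : Sg l' l'' c') :
    Sg l l'' (c * c') := by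
  obtain ⟨j, e, h⟩ := h
  obtain ⟨j', e', h'⟩ := h'
  refine ⟨j + j', by omega, ?_⟩
  rw [zpow_add₀ (by norm_num), mul_mul_mul_comm]
  exact mul_pos h h'

theorem Sg.add {l l' : ℤ} {c : ℝ} (h : Sg l l' c) (k : ℤ) : Sg (l + k) (l' + k) c := by
  obtain ⟨j, e, h⟩ := h
  exact ⟨j, by omega, h⟩

theorem Sg.of_pos (l : ℤ) {c : ℝ} (h : 0 < c) : Sg l l c := by
  exact ⟨0, by simp, by simpa using h⟩

omit [DecidableEq ι] in
theorem blk_mul (A B C D A' B' C' D' : Matrix ι ι ℝ) : blk A B C D * blk A' B' C' D' =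
    blk (A * A' + B * C') (A * B' + B * D') (C * A' + D * C') (C * B' + D * D') := by
  ext ⟨a, x⟩ ⟨b, y⟩
  fin_cases x <;> fin_cases y <;>
    simp [blk, Matrix.mul_apply, Fintype.sum_prod_type, Fin.sum_univ_two, Finset.sum_add_distrib]

omit [DecidableEq ι] in
theorem blk_mulVec (A B C D : Matrix ι ι ℝ) (v : ι × Fin 2 → ℝ) (a : ι) :
    (blk A B C D *ᵥ v) (a, 0) = (A *ᵥ (fun b => v (b, 0)) + B *ᵥ fun b => v (b, 1)) a ∧
    (blk A B C D *ᵥ v) (a, 1) = (C *ᵥ (fun b => v (b, 0)) + D *ᵥ fun b => v (b, 1)) a := by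
  constructor <;>
    simp [blk, mulVec, dotProduct, Fintype.sum_prod_type, Fin.sum_univ_two, Finset.sum_add_distrib]

theorem h1_blk_pow (L : Matrix ι ι ℝ) (t : ℝ) (k : ℕ) : blk L 0 (t • 1) L ^ (k + 1) =
    blk (L ^ (k + 1)) 0 (((k + 1 : ℝ) * t) • L ^ k) (L ^ (k + 1)) := by
  induction k with
  | zero => simp
  | succ k ih =>
    rw [pow_succ, ih, blk_mul]
    simp only [Matrix.zero_mul, Matrix.mul_zero, add_zero, zero_add, smul_mul_assoc, mul_smul_comm,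
      Matrix.mul_one, ← pow_succ, ← add_smul, smul_zero]
    congr 2
    push_cast
    ring

omit [DecidableEq ι] in
theorem h1_form (G : Matrix ι ι ℝ) (v w : ι × Fin 2 → ℝ) : v ⬝ᵥ blk 0 G G 0 *ᵥ w =
    (fun x => v (x, 0)) ⬝ᵥ G *ᵥ (fun x => w (x, 1)) +
      (fun x => v (x, 1)) ⬝ᵥ G *ᵥ fun x => w (x, 0) := by
  simp only [dotProduct, Fintype.sum_prod_type, Fin.sum_univ_two, (blk_mulVec 0 G G 0 w _).1,
    (blk_mulVec 0 G G 0 w _).2, zero_mulVec, zero_add, add_zero, Finset.sum_add_distrib]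

theorem HR.p1 {d : ι → ℤ} {L G : Matrix ι ι ℝ} {l : ℤ} (hL : Lef d L G) (h : HR d L G l) {t : ℝ}
    (ht : 0 < t) : HR (dS d) (blk L 0 (t • 1) L) (blk 0 G G 0) (l + 1) := by
  refine ⟨fun a => ?_, fun i j hj v hv h0 hq => ?_⟩
  · obtain ⟨r, hr⟩ := h.1 a.1
    obtain ⟨x, y⟩ := a
    fin_cases y
    · exact ⟨r - 1, by simp [dS] at hr ⊢; omega⟩
    · exact ⟨r, by simp [dS] at hr ⊢; omega⟩
  have hsym := h1_sym hL
  have hadj : ∀ x y : ι → ℝ, L *ᵥ x ⬝ᵥ G *ᵥ y = x ⬝ᵥ G *ᵥ L *ᵥ y := fun x y => by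
    rw [h1_dot, mulVec_mulVec, hL.adj, mulVec_mulVec]
  have hs : ∀ (n : ℕ) (x : ι → ℝ), L *ᵥ (L ^ n) *ᵥ x = (L ^ (n + 1)) *ᵥ x := fun n x => by
    rw [mulVec_mulVec, ← pow_succ']
  have hs' : ∀ (n : ℕ) (x : ι → ℝ), (L ^ n) *ᵥ L *ᵥ x = (L ^ (n + 1)) *ᵥ x := fun n x => by
    rw [mulVec_mulVec, ← pow_succ]
  set a : ι → ℝ := fun x => v (x, 0) with ha
  set b : ι → ℝ := fun x => v (x, 1) with hb
  have da : InDeg d (-i + 1) a := fun x hx => hv (x, 0) (by simp [dS]; omega)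
  have db : InDeg d (-(i + 1 : ℕ)) b := fun x hx => hv (x, 1) (by simp [dS] at hx ⊢; omega)
  have hab : a = 0 → b ≠ 0 := fun e1 e2 => h0 (by
    funext ⟨x, y⟩
    fin_cases y
    · exact congrFun e1 x
    · exact congrFun e2 x)
  rw [h1_blk_pow] at hq
  have q0 : (L ^ (i + 1)) *ᵥ a = 0 := funext fun x => by
    have := (blk_mulVec (L ^ (i + 1)) 0 (((i + 1 : ℝ) * t) • L ^ i) (L ^ (i + 1)) v x).1
    rw [hq, zero_mulVec, add_zero] at this
    exact this.symm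
  have q1 : ((i + 1 : ℝ) * t) • (L ^ i) *ᵥ a + (L ^ (i + 1)) *ᵥ b = 0 := funext fun x => by
    have := (blk_mulVec (L ^ (i + 1)) 0 (((i + 1 : ℝ) * t) • L ^ i) (L ^ (i + 1)) v x).2
    rw [hq, smul_mulVec] at this
    exact this.symm
  have pb : (L ^ (i + 1 + 1)) *ᵥ b = 0 := by
    have := congrArg (fun x => L *ᵥ x) q1
    simpa only [mulVec_add, mulVec_smul, hs, q0, smul_zero, zero_add, mulVec_zero] using this
  have sg : (-1 : ℝ) ^ (j - 1) = -(-1) ^ j := by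
    rw [zpow_sub_one₀ (by norm_num)]
    ring
  have hC := congrArg (fun x => b ⬝ᵥ G *ᵥ x) q1
  simp only [mulVec_add, mulVec_smul, dotProduct_add, dotProduct_smul, mulVec_zero,
    dotProduct_zero, smul_eq_mul] at hC
  have hbp : b ≠ 0 → 0 < -(-1 : ℝ) ^ j * (b ⬝ᵥ G *ᵥ (L ^ (i + 1)) *ᵥ b) := fun hb0 => by
    rw [← sg]
    exact h.2 (i + 1) (j - 1) (by push_cast; omega) b db hb0 pb
  rw [h1_form, ← ha, ← hb]
  cases i with
  | zero =>
    have hb0 : b ≠ 0 := fun e => hab (by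
      rw [e, mulVec_zero, add_zero] at q1
      simpa [ht.ne'] using q1) e
    have h1 := hbp hb0
    have h2 := hsym 0 a b
    simp only [pow_zero, one_mulVec, Nat.cast_zero, zero_add, one_mul] at *
    rw [← ha, ← hb, h2]
    refine (mul_pos_iff_of_pos_left ht).1 ?_
    have : b ⬝ᵥ G *ᵥ (L ^ 1) *ᵥ b = -(t * (b ⬝ᵥ G *ᵥ a)) := by linarith
    rw [this] at h1
    linarith
  | succ k =>
    have w0 : (fun x => (blk L 0 (t • 1) L ^ (k + 1) *ᵥ v) (x, 0)) = (L ^ (k + 1)) *ᵥ a :=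
      funext fun x => by
        rw [h1_blk_pow, (blk_mulVec _ _ _ _ v x).1, zero_mulVec, add_zero]
    have w1 : (fun x => (blk L 0 (t • 1) L ^ (k + 1) *ᵥ v) (x, 1)) =
        ((k + 1 : ℝ) * t) • (L ^ k) *ᵥ a + (L ^ (k + 1)) *ᵥ b := funext fun x => by
      rw [h1_blk_pow, (blk_mulVec _ _ _ _ v x).2, smul_mulVec]
    rw [w0, w1]
    push_cast at q1 hC
    have da' : InDeg d (-k) (((k + 1 + 1 : ℝ) * t) • a + L *ᵥ b) := fun x hx => by
      have e1 := da x (by push_cast; omega)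
      have e2 := hL.degL.inDeg db x (by push_cast; omega)
      simp [e1, e2]
    have pa' : (L ^ (k + 1)) *ᵥ (((k + 1 + 1 : ℝ) * t) • a + L *ᵥ b) = 0 := by
      rw [mulVec_add, mulVec_smul, hs', q1]
    obtain ⟨n1, n2⟩ := h.nonneg (Sg.one l) (i := k) (j := j) (by push_cast at hj; omega) da' pa'
    have h2 := hsym (k + 1) a b
    simp only [mulVec_add, mulVec_smul, dotProduct_add, add_dotProduct, dotProduct_smul,
      smul_dotProduct, smul_eq_mul, hadj, hs, hs', one_mul, h2] at n1 n2 ⊢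
    set A := a ⬝ᵥ G *ᵥ (L ^ k) *ᵥ a
    set B := b ⬝ᵥ G *ᵥ (L ^ (k + 1)) *ᵥ a
    set C := b ⬝ᵥ G *ᵥ (L ^ (k + 1 + 1)) *ᵥ b with hCd
    set ε := (-1 : ℝ) ^ j
    have hε : ε ≠ 0 := zpow_ne_zero _ (by norm_num)
    have hk : (0 : ℝ) ≤ k := Nat.cast_nonneg k
    set Q := (k + 1 + 1) * t * ((k + 1 + 1) * t * A + B) + ((k + 1 + 1) * t * B + C) with hQ
    have key : t * (k + 2) ^ 2 * (ε * ((k + 1) * t * A + B + B)) =
        (k + 1) * (ε * Q) + (k + 3) * (-ε * C) := by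
      rw [hQ]
      linear_combination (-2 * ε * k - 2 * ε + 2 * ε * (k + 2)) * hC
    refine (mul_pos_iff_of_pos_left (show 0 < t * (k + 2 : ℝ) ^ 2 by positivity)).1 ?_
    rw [key]
    by_cases hb0 : b = 0
    · have hC0 : C = 0 := by rw [hCd, hb0, zero_dotProduct]
      have hQ0 : Q ≠ 0 := fun e => by
        have h3 := n2 e
        rw [hb0, mulVec_zero, add_zero, smul_eq_zero] at h3
        exact hab (h3.resolve_left (by positivity)) hb0
      have : 0 < ε * Q := lt_of_le_of_ne n1 (mul_ne_zero hε hQ0).symm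
      rw [hC0]
      simp only [mul_zero, add_zero]
      positivity
    · have := hbp hb0
      positivity

end

end Pool.Agent.P.MP_1a0ecf_al
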