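import Pool.Agent.P.MP_1a0ecf_al.Cox

/-! Hecke algebras with equal parameters over Laurent polynomials. -/

namespace Pool.Agent.P.MP_1a0ecf_al

open LaurentPolynomial
open scoped Classical

noncomputable section

abbrev Lp : Type := LaurentPolynomial ℤ

structure Hk (X : Cox) where
  H : Type
  [ring : Ring H]
  [alg : Algebra Lp H]
  T : Module.Basis X.W Lp H
  T_one : T 1 = 1
  T_up : ∀ x i, X.len x < X.len (x * X.s i) → T x * T (X.s i) = T (x * X.s i)
  T_down : ∀ x i, X.len (x * X.s i) < X.len x →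
    T x * T (X.s i) = T (x * X.s i) + (LaurentPolynomial.T 1 - LaurentPolynomial.T (-1) : Lp) • T x
  bar : H →+* H
  bar_smul : ∀ (r : Lp) h, bar (r • h) = invert r • bar h
  bar_T : ∀ x, bar (T x) * T x⁻¹ = 1

attribute [instance] Hk.ring Hk.alg

/-- all exponents are at most `m` -/
def DegLe (r : Lp) (m : ℤ) : Prop := ∀ k, m < k → r.coeff k = 0

/-- all coefficients are nonnegative -/
def Pos (r : Lp) : Prop := ∀ k, 0 ≤ r.coeff k

/-- specialisation `v = 1` -/
def ev1 : Lp →+* ℂ := LaurentPolynomial.eval₂ (Int.castRingHom ℂ) 1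

namespace Hk

variable {X : Cox} (D : Hk X)

/-- coefficient of `T w` -/
abbrev co (h : D.H) (w : X.W) : Lp := D.T.repr h w

/-- the Kazhdan-Lusztig element of a simple reflection -/
def Cs (i : Fin X.n) : D.H := D.T (X.s i) + (LaurentPolynomial.T (-1) : Lp) • (1 : D.H)

/-- the bilinear form with orthonormal basis `T` -/
def pr (g h : D.H) : Lp := ∑ w, D.co g w * D.co h w

/-- all coefficients lie in `ℤ[v⁻¹]` -/
def NP (h : D.H) : Prop := ∀ w, DegLe (D.co h w) 0

/-- `h` is the Kazhdan-Lusztig element of `x` -/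
def KLel (h : D.H) (x : X.W) : Prop :=
  D.bar h = h ∧ (∀ w, DegLe (D.co (h - D.T x) w) (-1)) ∧
    ∀ w, D.co (h - D.T x) w ≠ 0 → X.len w < X.len x

end Hk

/-- a Hecke algebra with its Kazhdan-Lusztig basis and the positivity theorems -/
structure KD (X : Cox) extends Hk X where
  C : Module.Basis X.W Lp H
  kl : ∀ x, toHk.KLel (C x) x
  ppos : ∀ x y, Pos (T.repr (C x) y)
  hpos : ∀ x y z, Pos (C.repr (C x * C y) z)

namespace KD

variable {X : Cox} (D : KD X)

/-- Kazhdan-Lusztig polynomials -/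
abbrev p (y x : X.W) : Lp := D.T.repr (D.C x) y

/-- structure constants -/
abbrev h (x y z : X.W) : Lp := D.C.repr (D.C x * D.C y) z

/-- `x ≤_L y` -/
def LL (x y : X.W) : Prop := ∃ w, D.h w y x ≠ 0

/-- `x ≤_R y` -/
def LR (x y : X.W) : Prop := ∃ w, D.h y w x ≠ 0

/-- `x ≤_LR y` -/
def L2 (x y : X.W) : Prop := ∃ u, D.LL u y ∧ D.LR x u

/-- matrix coefficients of `T w` in the basis `C` -/
abbrev tm (w z x : X.W) : Lp := D.C.repr (D.T w * D.C x) z

/-- the left cell of `x` -/
def lc (x : X.W) : Finset X.W := Finset.univ.filter fun y => D.LL y x ∧ D.LL x y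

/-- the two-sided cell of `x` -/
def tc (x : X.W) : Finset X.W := Finset.univ.filter fun y => D.L2 y x ∧ D.L2 x y

/-- the character attached to a set of elements -/
def ch (S : Finset X.W) (w : X.W) : ℂ := ∑ y ∈ S, ev1 (D.tm w y y)

end KD

end

end Pool.Agent.P.MP_1a0ecf_al
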