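import Mathlib

/-! Hard Lefschetz and the Hodge-Riemann relations for graded real vector spaces. -/

namespace Pool.Agent.P.MP_1a0ecf_al

open Matrix

variable {ι κ : Type}

/-- `v` is homogeneous of degree `k` -/
def InDeg (d : ι → ℤ) (k : ℤ) (v : ι → ℝ) : Prop := ∀ a, d a ≠ k → v a = 0

/-- `F` is homogeneous of degree `k` -/
def DegM (d : ι → ℤ) (d' : κ → ℤ) (k : ℤ) (F : Matrix κ ι ℝ) : Prop :=
  ∀ a b, F a b ≠ 0 → d' a = d b + k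

variable [Fintype ι] [DecidableEq ι]

/-- Lefschetz data -/
structure Lef (d : ι → ℤ) (L G : Matrix ι ι ℝ) : Prop where
  degL : DegM d d 2 L
  symm : Gᵀ = G
  degG : ∀ a b, G a b ≠ 0 → d a + d b = 0
  adj : Lᵀ * G = G * L
  nd : G.det ≠ 0

/-- hard Lefschetz -/
def HL (d : ι → ℤ) (L : Matrix ι ι ℝ) : Prop :=
  ∀ (i : ℕ) v, InDeg d (-i) v → (L ^ i) *ᵥ v = 0 → v = 0

/-- Hodge-Riemann relations of level `l` -/
def HR (d : ι → ℤ) (L G : Matrix ι ι ℝ) (l : ℤ) : Prop :=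
  (∀ a, Even (d a - l)) ∧ ∀ (i : ℕ) (j : ℤ), l = i + 2 * j → ∀ v, InDeg d (-i) v → v ≠ 0 →
    (L ^ (i + 1)) *ᵥ v = 0 → 0 < (-1 : ℝ) ^ j * (v ⬝ᵥ G *ᵥ (L ^ i) *ᵥ v)

/-- the block matrix `[[A, B], [C, D]]` on `ι × Fin 2` -/
def blk (A B C D : Matrix ι ι ℝ) : Matrix (ι × Fin 2) (ι × Fin 2) ℝ :=
  fun a b => !![A a.1 b.1, B a.1 b.1; C a.1 b.1, D a.1 b.1] a.2 b.2

/-- degrees on `ι × Fin 2` -/
def dS (d : ι → ℤ) : ι × Fin 2 → ℤ := fun a => d a.1 + ![-1, 1] a.2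

/-- `c` has the sign that relates the levels `l` and `l'` -/
def Sg (l l' : ℤ) (c : ℝ) : Prop := ∃ j : ℤ, l = l' + 2 * j ∧ 0 < (-1 : ℝ) ^ j * c

end Pool.Agent.P.MP_1a0ecf_al
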