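import Pool.Agent.P.MP_1a0ecf_al.K2

/-! Package K3: the a-function and properties P1, P4, P9, P11. -/

namespace Pool.Agent.P.MP_1a0ecf_al

open LaurentPolynomial
open scoped Classical

noncomputable section

variable {X : Cox}

private theorem k3_csum {α : Type} (s : Finset α) (r : α → Lp) (k : ℤ) :
    (∑ a ∈ s, r a).coeff k = ∑ a ∈ s, (r a).coeff k := by
  rw [AddMonoidAlgebra.coeff_sum, Finsupp.finsetSum_apply]

private theorem k3_ne {r : Lp} {k : ℤ} (h : r.coeff k ≠ 0) : r ≠ 0 := by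
  rintro rfl
  simp at h

private theorem k3_le {r : Lp} {k m : ℤ} (hd : DegLe r m) (h : r.coeff k ≠ 0) : k ≤ m := by
  by_contra hc
  exact h (hd k (by omega))

private theorem k3_const {r : Lp} (h : invert r = r) (hd : DegLe r 0) (r' : Lp) (k : ℤ) :
    (r * r').coeff k = r.coeff 0 * r'.coeff k := by
  rw [AddMonoidAlgebra.coeff_mul_apply_left]
  change ∑ a ∈ r.coeff.support, r.coeff a * r'.coeff (-a + k) = _
  rw [Finset.sum_eq_single 0]
  · rw [neg_zero, zero_add]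
  · intro a _ ha
    rcases lt_or_gt_of_ne ha with h1 | h1
    · have : r.coeff a = 0 := by
        rw [← h, coeff_invert]
        exact hd _ (by omega)
      rw [this, zero_mul]
    · rw [hd a h1, zero_mul]
  · intro h0
    rw [Finsupp.notMem_support_iff.1 h0, zero_mul]

private theorem k3_const_ne {r : Lp} (h : invert r = r) (hd : DegLe r 0) (h0 : r ≠ 0) :
    r.coeff 0 ≠ 0 := by
  intro hc
  apply h0
  refine eq_zero_of_invert h fun k hk => ?_
  by_cases hk0 : k = 0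
  · rw [hk0]; exact hc
  · exact hd k (by omega)

private theorem k3_pos {α : Type} [Fintype α] {f g : α → Lp} (hf : ∀ u, Pos (f u))
    (hg : ∀ u, Pos (g u)) {u : α} {k k' : ℤ} (h1 : (f u).coeff k ≠ 0) (h2 : (g u).coeff k' ≠ 0) :
    (∑ u, f u * g u).coeff (k + k') ≠ 0 := by
  have a1 := (hf u).le_coeff_mul (hg u) k k'
  have a2 := Pos.le_coeff_sum Finset.univ (r := fun u => f u * g u)
    (fun u _ => (hf u).mul (hg u)) (Finset.mem_univ u) (k + k')
  have a3 : 0 < (f u).coeff k * (g u).coeff k' :=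
    mul_pos (lt_of_le_of_ne (hf u k) (Ne.symm h1)) (lt_of_le_of_ne (hg u k') (Ne.symm h2))
  exact (lt_of_lt_of_le a3 (a1.trans a2)).ne'

private theorem k3_term {α : Type} [Fintype α] {f : α → Lp} {k : ℤ}
    (h : (∑ u, f u).coeff k ≠ 0) : ∃ u, (f u).coeff k ≠ 0 := by
  rw [k3_csum] at h
  obtain ⟨u, -, hu⟩ := Finset.exists_ne_zero_of_sum_ne_zero h
  exact ⟨u, hu⟩

namespace KD

variable (D : KD X)

/-- `a z` is the top exponent of the structure constants at `z` -/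
private def IsA (a : X.W → ℤ) : Prop :=
  (∀ x y z, DegLe (D.h x y z) (a z)) ∧ ∀ z, ∃ x y, (D.h x y z).coeff (a z) ≠ 0

private theorem exists_isA : ∃ a, D.IsA a := by
  have key : ∀ z, ∃ m : ℤ, (∃ x y, (D.h x y z).coeff m ≠ 0) ∧
      ∀ k : ℤ, (∃ x y, (D.h x y z).coeff k ≠ 0) → k ≤ m := by
    intro z
    refine Int.exists_greatest_of_bdd ?_ ⟨0, 1, z, ?_⟩
    · obtain ⟨b, hb⟩ := (Finset.univ.biUnion fun xy : X.W × X.W =>
        (D.h xy.1 xy.2 z).coeff.support).bddAbove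
      refine ⟨b, ?_⟩
      rintro k ⟨x, y, hk⟩
      refine hb (Finset.mem_coe.2 (Finset.mem_biUnion.2 ⟨(x, y), Finset.mem_univ _, ?_⟩))
      exact Finsupp.mem_support_iff.2 hk
    · have : D.h 1 z z = 1 := by simp [h, D.C_one]
      rw [this, ← T_zero, T_apply, if_pos rfl]
      exact one_ne_zero
  choose a ha hb using key
  refine ⟨a, fun x y z k hk => ?_, ha⟩
  by_contra hc
  exact absurd (hb z k ⟨x, y, hc⟩) (by omega)

private theorem tau_h (x y : X.W) : D.co (D.C x * D.C y) 1 = ∑ z, D.h x y z * D.p 1 z := by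
  conv_lhs => rw [← D.C.sum_repr (D.C x * D.C y)]
  rw [Hk.k1_co_sum]
  exact Finset.sum_congr rfl fun z _ => by rw [Hk.k1_co_smul]

private theorem tau_deg (x y : X.W) : DegLe (D.co (D.C x * D.C y) 1) 0 := by
  rw [D.tau_mul]
  exact DegLe.sum _ fun w _ => (((D.kl x).np _ w).mul ((D.kl y).np _ w⁻¹)).mono (by norm_num)

private theorem tau_zero (x y : X.W) :
    (D.co (D.C x * D.C y) 1).coeff 0 = if x * y = 1 then 1 else 0 := by
  rw [D.tau_mul, k3_csum, Finset.sum_eq_single x]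
  · rw [(D.kl x).co_self, one_mul]
    split_ifs with h
    · rw [show x⁻¹ = y from inv_eq_of_mul_eq_one_right h, (D.kl y).co_self, ← T_zero, T_apply,
        if_pos rfl]
    · refine ((D.kl y).co_ne _ ?_).1 0 (by norm_num)
      rintro rfl
      exact h (mul_inv_cancel x)
  · intro w _ hw
    exact (((D.kl x).co_ne _ hw).1.mul ((D.kl y).np _ w⁻¹)) 0 (by norm_num)
  · intro h'; exact absurd (Finset.mem_univ _) h'

variable {D} {a : X.W → ℤ}

private theorem IsA.inv (ha : D.IsA a) (z : X.W) : a z⁻¹ = a z := by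
  have key : ∀ z, a z ≤ a z⁻¹ := by
    intro z
    obtain ⟨x, y, h⟩ := ha.2 z
    rw [← D.h_inv] at h
    exact k3_le (ha.1 _ _ _) h
  exact le_antisymm (by simpa only [inv_inv] using key z⁻¹) (key z)

private theorem IsA.p1 (ha : D.IsA a) (z : X.W) : DegLe (D.p 1 z) (-a z) := by
  intro k hk
  by_contra hc
  obtain ⟨x, y, h⟩ := ha.2 z
  have := k3_pos (fun u => D.hpos x y u) (fun u => D.ppos u 1) h hc
  rw [← tau_h] at this
  exact this (D.tau_deg x y _ (by omega))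

private theorem IsA.sum (ha : D.IsA a) (x y : X.W) :
    ∑ z, (D.h x y z).coeff (a z) * (D.p 1 z).coeff (-a z) = if x * y = 1 then 1 else 0 := by
  rw [← tau_zero, tau_h, k3_csum]
  refine Finset.sum_congr rfl fun z _ => ?_
  rw [← (ha.1 x y z).coeff_mul (ha.p1 z), add_neg_cancel]

private theorem p2 {x y d : X.W} (h1 : (D.h x y d).coeff (a d) ≠ 0)
    (h2 : (D.p 1 d).coeff (-a d) ≠ 0) : x * y = 1 := by
  by_contra hc
  have := k3_pos (fun u => D.hpos x y u) (fun u => D.ppos u 1) h1 h2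
  rw [← tau_h, add_neg_cancel, tau_zero, if_neg hc] at this
  exact this rfl

private theorem IsA.p3 (ha : D.IsA a) (y : X.W) :
    ∃ d, (D.h y y⁻¹ d).coeff (a d) ≠ 0 ∧ (D.p 1 d).coeff (-a d) ≠ 0 := by
  have := ha.sum y y⁻¹
  rw [if_pos (mul_inv_cancel y)] at this
  obtain ⟨d, -, hd⟩ := Finset.exists_ne_zero_of_sum_ne_zero (this.trans_ne one_ne_zero)
  exact ⟨d, left_ne_zero_of_mul hd, right_ne_zero_of_mul hd⟩

private theorem ptilde {x y z z' : X.W} {i : Fin X.n} {k : ℤ} (h1 : (D.h x y z).coeff k ≠ 0)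
    (h2 : D.h (X.s i) z z' ≠ 0) : ∃ x', (D.h x' y z').coeff k ≠ 0 := by
  rcases Hk.k1_lenL z i with hz | hz
  · have hx : X.len x < X.len (X.s i * x) := by
      rcases Hk.k1_lenL x i with hx | hx
      · omega
      · have := D.desc_of_h (i := i) (by omega) (k3_ne h1)
        omega
    have b1 := k3_const_ne (D.h_invert _ _ _) (D.h_asc (z := z) (i := i) (by omega) z').1 h2
    have b2 := k3_pos (fun u => D.hpos (X.s i) u z') (fun u => D.hpos x y u) b1 h1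
    rw [← D.h_assoc, zero_add] at b2
    obtain ⟨u, hu⟩ := k3_term b2
    rw [k3_const (D.h_invert _ _ _) (D.h_asc hx u).1] at hu
    exact ⟨u, right_ne_zero_of_mul hu⟩
  · have : z = z' := by
      by_contra hc
      apply h2
      rw [KD.h, D.mul_C_desc (by omega)]
      simp [hc]
    exact ⟨x, this ▸ h1⟩

private theorem IsA.p4s (ha : D.IsA a) {z z' : X.W} {i : Fin X.n} (h : D.h (X.s i) z z' ≠ 0) :
    a z ≤ a z' := by
  obtain ⟨x, y, h1⟩ := ha.2 z
  obtain ⟨x', h2⟩ := ptilde h1 h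
  exact k3_le (ha.1 _ _ _) h2

private theorem IsA.p4L (ha : D.IsA a) {z z' : X.W} (h : D.LL z' z) : a z ≤ a z' := by
  rw [LL_iff_gen] at h
  induction h with
  | refl => exact le_rfl
  | tail _ h2 ih =>
    obtain ⟨i, hi⟩ := h2
    exact (ha.p4s hi).trans ih

private theorem IsA.p4R (ha : D.IsA a) {z z' : X.W} (h : D.LR z' z) : a z ≤ a z' := by
  have := ha.p4L (LR_iff.1 h)
  rwa [ha.inv, ha.inv] at this

private theorem IsA.pa (ha : D.IsA a) {x y z d : X.W} (h1 : (D.h x y z).coeff (a z) ≠ 0)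
    (h2 : (D.h z z⁻¹ d).coeff (a d) ≠ 0) (h3 : (D.p 1 d).coeff (-a d) ≠ 0) (h4 : a d = a z) :
    a x = a z ∧ (D.h y z⁻¹ x⁻¹).coeff (a x⁻¹) ≠ 0 := by
  have b2 := k3_pos (fun u => D.hpos x y u) (fun u => D.hpos u z⁻¹ d) h1 h2
  rw [D.h_assoc, add_comm] at b2
  obtain ⟨u, hu⟩ := k3_term b2
  have c1 : a u ≤ a d := ha.p4L ⟨x, left_ne_zero_of_mul (k3_ne hu)⟩
  rw [(ha.1 x u d).coeff_mul ((ha.1 y z⁻¹ u).mono (c1.trans h4.le))] at hu
  have c2 : x⁻¹ = u := inv_eq_of_mul_eq_one_right (p2 (left_ne_zero_of_mul hu) h3)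
  subst c2
  have c3 := right_ne_zero_of_mul hu
  have c4 : a x⁻¹ = a z := le_antisymm (c1.trans h4.le) (k3_le (ha.1 _ _ _) c3)
  exact ⟨by rw [← c4, ha.inv], by rwa [c4]⟩

private theorem IsA.pb (ha : D.IsA a) {z d : X.W} (h2 : (D.h z z⁻¹ d).coeff (a d) ≠ 0)
    (h3 : (D.p 1 d).coeff (-a d) ≠ 0) : a d = a z := by
  by_contra hc
  have hne : (Finset.univ.filter fun z => ∃ d, (D.h z z⁻¹ d).coeff (a d) ≠ 0 ∧
      (D.p 1 d).coeff (-a d) ≠ 0 ∧ a d ≠ a z).Nonempty :=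
    ⟨z, Finset.mem_filter.2 ⟨Finset.mem_univ _, d, h2, h3, hc⟩⟩
  obtain ⟨z, hz, hmax⟩ := Finset.exists_max_image _ a hne
  obtain ⟨d, h2, h3, hc⟩ := (Finset.mem_filter.1 hz).2
  have c1 : a z ≤ a d := ha.p4R ⟨z⁻¹, k3_ne h2⟩
  obtain ⟨d', h4, h5⟩ := ha.p3 d
  have c2 : a d' = a d := by
    by_contra hh
    exact hc (le_antisymm
      (hmax d (Finset.mem_filter.2 ⟨Finset.mem_univ _, d', h4, h5, hh⟩)) c1)
  exact hc (ha.pa h2 h4 h5 c2).1.symm

private theorem IsA.p7 (ha : D.IsA a) {x y z : X.W} (h1 : (D.h x y z).coeff (a z) ≠ 0) :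
    (D.h y z⁻¹ x⁻¹).coeff (a x⁻¹) ≠ 0 := by
  obtain ⟨d, h2, h3⟩ := ha.p3 z
  exact (ha.pa h1 h2 h3 (ha.pb h2 h3)).2

private theorem IsA.p8 (ha : D.IsA a) {x y z : X.W} (h1 : (D.h x y z).coeff (a z) ≠ 0) :
    D.LL y z := by
  have h2 : D.LR y⁻¹ z⁻¹ := ⟨_, k3_ne (ha.p7 (ha.p7 h1))⟩
  simpa only [inv_inv] using LR_iff.1 h2

private theorem IsA.p9 (ha : D.IsA a) {z z' : X.W} (h : D.LL z' z) (e : a z' = a z) :
    D.LL z z' := by
  rw [LL_iff_gen] at h
  induction h with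
  | refl => exact D.LL_refl _
  | @tail b c h1 h2 ih =>
    obtain ⟨i, hi⟩ := h2
    have c1 := ha.p4s hi
    have c2 := ha.p4L (LL_iff_gen.2 h1)
    refine LL.trans ?_ (ih (by omega))
    obtain ⟨x, y, h3⟩ := ha.2 c
    obtain ⟨x', h4⟩ := ptilde h3 hi
    rw [show a c = a b by omega] at h4
    exact LL.trans ⟨x, k3_ne h3⟩ (ha.p8 h4)

end KD

theorem KD.exists_a (D : KD X) : ∃ a : X.W → ℤ, (∀ x y z, DegLe (D.h x y z) (a z)) ∧
    (∀ z, DegLe (D.p 1 z) (-a z)) ∧ (∀ z, a z⁻¹ = a z) ∧ (∀ z z', D.L2 z' z → a z ≤ a z') ∧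
    (∀ z z', D.LL z' z → a z' = a z → D.LL z z') ∧
    ∀ z z', D.L2 z' z → a z' = a z → D.L2 z z' := by
  obtain ⟨a, ha⟩ := D.exists_isA
  refine ⟨a, ha.1, ha.p1, ha.inv, ?_, fun z z' => ha.p9, ?_⟩
  · rintro z z' ⟨u, h1, h2⟩
    exact (ha.p4L h1).trans (ha.p4R h2)
  · rintro z z' ⟨u, h1, h2⟩ e
    have c1 := ha.p4L h1
    have c2 := ha.p4R h2
    have d1 := ha.p9 h1 (by omega)
    have d2 := ha.p9 (KD.LR_iff.1 h2) (by rw [ha.inv, ha.inv]; omega)
    exact d1.l2.trans (KD.LR_iff.2 d2).l2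

theorem KD.LL_symm {D : KD X} {z z' : X.W} (h : D.LL z' z) (h' : D.L2 z z') : D.LL z z' := by
  obtain ⟨a, -, -, -, h4, h9, -⟩ := D.exists_a
  exact h9 z z' h (le_antisymm (h4 _ _ h') (h4 _ _ h.l2))

end

end Pool.Agent.P.MP_1a0ecf_al
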