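import Pool.Agent.P.MP_1a0ecf_al.Hk

/-! Package K0: computations in the Hecke algebra. -/

namespace Pool.Agent.P.MP_1a0ecf_al

open LaurentPolynomial
open scoped Classical

noncomputable section

private theorem cadd (r r' : Lp) (k : ℤ) : (r + r').coeff k = r.coeff k + r'.coeff k := by
  simp

private theorem cmul (r r' : Lp) (k : ℤ) :
    (r * r').coeff k = ∑ a ∈ r.coeff.support, r.coeff a * r'.coeff (-a + k) := by
  rw [AddMonoidAlgebra.coeff_mul_apply_left]; rfl

private theorem csum {α : Type} (s : Finset α) (r : α → Lp) (k : ℤ) :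
    (∑ a ∈ s, r a).coeff k = ∑ a ∈ s, (r a).coeff k := by
  rw [AddMonoidAlgebra.coeff_sum, Finsupp.finsetSum_apply]

private theorem DegLe.zero (m : ℤ) : DegLe 0 m := fun _ _ => by simp

theorem DegLe.add {r r' : Lp} {m : ℤ} (h : DegLe r m) (h' : DegLe r' m) : DegLe (r + r') m := by
  intro k hk
  rw [cadd, h k hk, h' k hk, add_zero]

theorem DegLe.neg {r : Lp} {m : ℤ} (h : DegLe r m) : DegLe (-r) m := by
  intro k hk
  rw [AddMonoidAlgebra.coeff_neg, Finsupp.neg_apply, h k hk, neg_zero]

theorem DegLe.sub {r r' : Lp} {m : ℤ} (h : DegLe r m) (h' : DegLe r' m) : DegLe (r - r') m := by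
  rw [sub_eq_add_neg]; exact h.add h'.neg

theorem DegLe.mono {r : Lp} {m m' : ℤ} (h : DegLe r m) (hm : m ≤ m') : DegLe r m' := by
  intro k hk
  exact h k (lt_of_le_of_lt hm hk)

theorem DegLe.mul {r r' : Lp} {m m' : ℤ} (h : DegLe r m) (h' : DegLe r' m') :
    DegLe (r * r') (m + m') := by
  intro k hk
  rw [cmul]
  refine Finset.sum_eq_zero fun a _ => ?_
  by_cases ha : m < a
  · rw [h a ha, zero_mul]
  · rw [h' _ (by omega), mul_zero]

theorem DegLe.coeff_mul {r r' : Lp} {m m' : ℤ} (h : DegLe r m) (h' : DegLe r' m') :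
    (r * r').coeff (m + m') = r.coeff m * r'.coeff m' := by
  rw [cmul, Finset.sum_eq_single m]
  · congr 2; omega
  · intro a _ ham
    by_cases ha : m < a
    · rw [h a ha, zero_mul]
    · rw [h' _ (by omega), mul_zero]
  · intro hm
    rw [Finsupp.notMem_support_iff.1 hm, zero_mul]

theorem DegLe.sum {α : Type} (s : Finset α) {r : α → Lp} {m : ℤ} (h : ∀ a ∈ s, DegLe (r a) m) :
    DegLe (∑ a ∈ s, r a) m := by
  intro k hk
  rw [csum]
  exact Finset.sum_eq_zero fun a ha => h a ha k hk

theorem DegLe.T (k : ℤ) : DegLe (T k) k := by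
  intro j hj
  rw [T_apply, if_neg hj.ne]

theorem coeff_invert (r : Lp) (k : ℤ) : (invert r).coeff k = r.coeff (-k) := by
  exact invert_apply r k

theorem eq_zero_of_invert {r : Lp} (h : invert r = r) (h' : DegLe r (-1)) : r = 0 := by
  refine LaurentPolynomial.ext fun k => ?_
  rw [AddMonoidAlgebra.coeff_zero, Finsupp.zero_apply]
  by_cases hk : -1 < k
  · exact h' k hk
  · rw [← h, coeff_invert]
    exact h' _ (by omega)

theorem Pos.add {r r' : Lp} (h : Pos r) (h' : Pos r') : Pos (r + r') := by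
  intro k
  rw [cadd]
  exact add_nonneg (h k) (h' k)

theorem Pos.mul {r r' : Lp} (h : Pos r) (h' : Pos r') : Pos (r * r') := by
  intro k
  rw [cmul]
  exact Finset.sum_nonneg fun a _ => mul_nonneg (h _) (h' _)

theorem Pos.sum {α : Type} (s : Finset α) {r : α → Lp} (h : ∀ a ∈ s, Pos (r a)) :
    Pos (∑ a ∈ s, r a) := by
  intro k
  rw [csum]
  exact Finset.sum_nonneg fun a ha => h a ha k

theorem Pos.T (k : ℤ) : Pos (T k) := by
  intro j
  rw [T_apply]
  split_ifs <;> norm_num

theorem Pos.le_coeff_mul {r r' : Lp} (h : Pos r) (h' : Pos r') (k k' : ℤ) :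
    r.coeff k * r'.coeff k' ≤ (r * r').coeff (k + k') := by
  by_cases hk : k ∈ r.coeff.support
  · rw [cmul]
    have := Finset.single_le_sum (f := fun a => r.coeff a * r'.coeff (-a + (k + k')))
      (fun a _ => mul_nonneg (h _) (h' _)) hk
    simpa only [neg_add_cancel_left] using this
  · rw [Finsupp.notMem_support_iff.1 hk, zero_mul]
    exact (h.mul h') _

theorem Pos.le_coeff_sum {α : Type} (s : Finset α) {r : α → Lp} (h : ∀ a ∈ s, Pos (r a)) {a : α}
    (ha : a ∈ s) (k : ℤ) : (r a).coeff k ≤ (∑ a ∈ s, r a).coeff k := by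
  rw [csum]
  exact Finset.single_le_sum (f := fun a => (r a).coeff k) (fun a ha => h a ha k) ha

theorem Pos.sum_ne_zero {α : Type} (s : Finset α) {r : α → Lp} (h : ∀ a ∈ s, Pos (r a)) :
    ∑ a ∈ s, r a ≠ 0 ↔ ∃ a ∈ s, r a ≠ 0 := by
  constructor
  · intro h0
    by_contra hc
    push Not at hc
    exact h0 (Finset.sum_eq_zero hc)
  · rintro ⟨a, ha, h0⟩ hs
    apply h0
    refine LaurentPolynomial.ext fun k => ?_
    have h1 := Pos.le_coeff_sum s h ha k
    rw [hs] at h1
    exact le_antisymm h1 (h a ha k)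

theorem ev1_T (k : ℤ) : ev1 (T k) = 1 := by
  simp [ev1]

theorem ev1_eq_sum (r : Lp) : ev1 r = r.coeff.sum fun _ a => (a : ℂ) := by
  induction r using LaurentPolynomial.induction_on' with
  | add p q hp hq =>
    rw [map_add, hp, hq, AddMonoidAlgebra.coeff_add, Finsupp.sum_add_index']
    · intro _; simp
    · intro _ a b; simp
  | C_mul_T n a =>
    rw [map_mul, ev1_T, mul_one, ← single_eq_C_mul_T, AddMonoidAlgebra.coeff_single,
      Finsupp.sum_single_index (by simp)]
    simp [ev1]

theorem ev1_invert (r : Lp) : ev1 (invert r) = ev1 r := by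
  induction r using LaurentPolynomial.induction_on' with
  | add p q hp hq => rw [map_add, map_add, map_add, hp, hq]
  | C_mul_T n a => rw [map_mul, invert_T, invert_C, map_mul, map_mul, ev1_T, ev1_T]

theorem Pos.ev1_ne_zero {r : Lp} (h : Pos r) (h0 : r ≠ 0) : ev1 r ≠ 0 := by
  rw [ev1_eq_sum, Finsupp.sum, ← Int.cast_sum, Int.cast_ne_zero]
  intro hs
  apply h0
  refine LaurentPolynomial.ext fun k => ?_
  rw [AddMonoidAlgebra.coeff_zero, Finsupp.zero_apply]
  by_cases hk : k ∈ r.coeff.support
  · exact (Finset.sum_eq_zero_iff_of_nonneg (fun a _ => h a)).1 hs k hk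
  · exact Finsupp.notMem_support_iff.1 hk

namespace Hk

variable {X : Cox} (D : Hk X)

private theorem len_ind {X : Cox} {P : X.W → Prop} (h1 : P 1)
    (hs : ∀ x i, X.len x < X.len (x * X.s i) → P x → P (x * X.s i)) (x : X.W) : P x := by
  induction hn : X.len x using Nat.strong_induction_on generalizing x with
  | _ n ih =>
    by_cases hx : x = 1
    · rw [hx]; exact h1
    · obtain ⟨i, hi⟩ := X.cs.exists_rightDescent_of_ne_one hx
      have hi' : X.len (x * X.s i) < X.len x := hi
      have e : x * X.s i * X.s i = x := X.cs.simple_mul_simple_cancel_right i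
      rw [← e]
      refine hs _ i (by rw [e]; exact hi') (ih _ (hn ▸ hi') _ rfl)

private theorem ss (x : X.W) (i : Fin X.n) : x * X.s i * X.s i = x :=
  X.cs.simple_mul_simple_cancel_right i

private theorem len_s (x : X.W) (i : Fin X.n) :
    X.len (x * X.s i) = X.len x + 1 ∨ X.len (x * X.s i) + 1 = X.len x :=
  X.cs.length_mul_simple x i

private theorem co_T (x w : X.W) : D.co (D.T x) w = if x = w then 1 else 0 := by
  simp [co, Finsupp.single_apply]

private theorem co_add (g h : D.H) (w : X.W) : D.co (g + h) w = D.co g w + D.co h w := by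
  simp [co]

private theorem co_sub (g h : D.H) (w : X.W) : D.co (g - h) w = D.co g w - D.co h w := by
  simp [co]

private theorem co_smul (r : Lp) (h : D.H) (w : X.W) : D.co (r • h) w = r * D.co h w := by
  simp [co]

private theorem co_sum {α : Type} (s : Finset α) (h : α → D.H) (w : X.W) :
    D.co (∑ a ∈ s, h a) w = ∑ a ∈ s, D.co (h a) w := by
  simp [co]

private theorem eq_sum (h : D.H) : h = ∑ w, D.co h w • D.T w := (D.T.sum_repr h).symm

private theorem co_ext {g h : D.H} (e : ∀ w, D.co g w = D.co h w) : g = h :=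
  D.T.ext_elem e

theorem T_mul_of_len {x y : X.W} (h : X.len (x * y) = X.len x + X.len y) :
    D.T x * D.T y = D.T (x * y) := by
  induction y using len_ind with
  | h1 => rw [D.T_one, mul_one, mul_one]
  | hs y i hy ih =>
    have h1 := len_s y i
    have h2 := len_s (x * y) i
    have h3 : X.len (x * y) ≤ X.len x + X.len y := X.cs.length_mul_le x y
    rw [← mul_assoc] at h
    rw [← D.T_up y i hy, ← mul_assoc, ih (by omega), ← mul_assoc, D.T_up _ _ (by omega)]

theorem T_mul_Cs_up {x : X.W} {i : Fin X.n} (h : X.len x < X.len (x * X.s i)) :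
    D.T x * D.Cs i = D.T (x * X.s i) + (LaurentPolynomial.T (-1) : Lp) • D.T x := by
  rw [Cs, mul_add, D.T_up x i h, mul_smul_comm, mul_one]

theorem T_mul_Cs_down {x : X.W} {i : Fin X.n} (h : X.len (x * X.s i) < X.len x) :
    D.T x * D.Cs i = D.T (x * X.s i) + (LaurentPolynomial.T 1 : Lp) • D.T x := by
  rw [Cs, mul_add, D.T_down x i h, mul_smul_comm, mul_one, add_assoc, ← add_smul, sub_add_cancel]

/-- the eigenvalue occurring in the right multiplication by `Cs i` -/
private def eps (w : X.W) (i : Fin X.n) : Lp :=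
  if X.len w < X.len (w * X.s i) then LaurentPolynomial.T (-1) else LaurentPolynomial.T 1

private theorem T_mul_Cs (x : X.W) (i : Fin X.n) :
    D.T x * D.Cs i = D.T (x * X.s i) + eps x i • D.T x := by
  unfold eps
  split_ifs with h
  · exact D.T_mul_Cs_up h
  · have := len_s x i
    exact D.T_mul_Cs_down (by omega)

private theorem co_T_mul (x w : X.W) (i : Fin X.n) :
    D.co (D.T (x * X.s i)) w = D.co (D.T x) (w * X.s i) := by
  rw [co_T, co_T]
  by_cases h : x * X.s i = w
  · rw [if_pos h, if_pos (by rw [← h, ss])]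
  · rw [if_neg h, if_neg (fun e => h (by rw [e, ss]))]

private theorem co_mul_Cs (h : D.H) (i : Fin X.n) (w : X.W) :
    D.co (h * D.Cs i) w = D.co h (w * X.s i) + eps w i * D.co h w := by
  conv_lhs => rw [D.eq_sum h]
  rw [Finset.sum_mul, co_sum]
  simp only [smul_mul_assoc, T_mul_Cs, co_smul, co_add, co_T_mul, mul_add, Finset.sum_add_distrib]
  simp only [co_T, mul_ite, mul_one, mul_zero, Finset.sum_ite_eq', Finset.mem_univ, if_true]
  rw [mul_comm]

theorem bar_T_simple (i : Fin X.n) : D.bar (D.T (X.s i)) =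
    D.T (X.s i) - (LaurentPolynomial.T 1 - LaurentPolynomial.T (-1) : Lp) • (1 : D.H) := by
  have h1 := D.bar_T (X.s i)
  rw [X.cs.inv_simple] at h1
  have h2 := D.T_down (X.s i) i (by
    rw [X.cs.simple_mul_simple_self]
    simp [Cox0.len])
  rw [X.cs.simple_mul_simple_self, D.T_one] at h2
  have h3 : D.T (X.s i) * (D.T (X.s i) -
      (LaurentPolynomial.T 1 - LaurentPolynomial.T (-1) : Lp) • (1 : D.H)) = 1 := by
    rw [mul_sub, h2, mul_smul_comm, mul_one, add_sub_cancel_right]
  calc D.bar (D.T (X.s i)) = D.bar (D.T (X.s i)) * (D.T (X.s i) * (D.T (X.s i) -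
      (LaurentPolynomial.T 1 - LaurentPolynomial.T (-1) : Lp) • (1 : D.H))) := by rw [h3, mul_one]
    _ = _ := by rw [← mul_assoc, h1, one_mul]

theorem bar_Cs (i : Fin X.n) : D.bar (D.Cs i) = D.Cs i := by
  rw [Cs, map_add, bar_T_simple, D.bar_smul, map_one, invert_T, neg_neg, sub_smul]
  abel

theorem bar_T_tri (x w : X.W) (h : D.co (D.bar (D.T x) - D.T x) w ≠ 0) : X.len w < X.len x := by
  induction x using len_ind generalizing w with
  | h1 => simp [D.T_one, co] at h
  | hs y i hy ih =>
    have e : D.bar (D.T (y * X.s i)) =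
        D.bar (D.T y) * D.Cs i - (LaurentPolynomial.T 1 : Lp) • D.bar (D.T y) := by
      rw [← D.T_up y i hy, map_mul, bar_T_simple, Cs]
      simp only [mul_sub, mul_add, mul_smul_comm, mul_one, sub_smul]
      abel
    rw [e, co_sub, co_sub, co_mul_Cs, co_smul, co_T_mul] at h
    have h1 := len_s w i
    by_contra hc
    apply h
    have a1 : D.co (D.bar (D.T y) - D.T y) (w * X.s i) = 0 := by
      by_contra hh
      have := ih _ hh
      omega
    have a2 : D.co (D.bar (D.T y) - D.T y) w = 0 := by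
      by_contra hh
      have := ih _ hh
      omega
    have a3 : D.co (D.T y) w = 0 := by
      rw [co_T, if_neg]
      rintro rfl
      omega
    rw [co_sub] at a1 a2
    rw [a3, sub_zero] at a2
    rw [a2, mul_zero, mul_zero, add_zero, sub_zero, a1]

theorem bar_bar (h : D.H) : D.bar (D.bar h) = h := by
  have hT : ∀ x, D.bar (D.bar (D.T x)) = D.T x := by
    intro x
    induction x using len_ind with
    | h1 => rw [D.T_one, map_one, map_one]
    | hs y i hy ih =>
      rw [← D.T_up y i hy, map_mul, map_mul, ih, bar_T_simple, map_sub, bar_T_simple, D.bar_smul,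
        map_one, map_sub, invert_T, invert_T, neg_neg]
      congr 1
      simp only [sub_smul]
      abel
  conv_lhs => rw [D.eq_sum h]
  simp only [map_sum, D.bar_smul, hT]
  conv_rhs => rw [D.eq_sum h]
  refine Finset.sum_congr rfl fun w _ => ?_
  rw [involutive_invert]

theorem eq_zero_of_bar {h : D.H} (hb : D.bar h = h) (hd : ∀ w, DegLe (D.co h w) (-1)) :
    h = 0 := by
  by_contra h0
  have hne : (Finset.univ.filter fun w => D.co h w ≠ 0).Nonempty := by
    by_contra hc
    apply h0
    refine D.co_ext fun w => ?_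
    by_contra hw
    exact hc ⟨w, Finset.mem_filter.2 ⟨Finset.mem_univ _, by simpa [co] using hw⟩⟩
  obtain ⟨w, hw, hmax⟩ := Finset.exists_max_image _ X.len hne
  have hw' := (Finset.mem_filter.1 hw).2
  apply hw'
  refine eq_zero_of_invert ?_ (hd w)
  have e : D.co (D.bar h) w = invert (D.co h w) := by
    conv_lhs => rw [D.eq_sum h]
    rw [map_sum, co_sum, Finset.sum_eq_single w]
    · rw [D.bar_smul, co_smul]
      have a : D.co (D.bar (D.T w) - D.T w) w = 0 := by
        by_contra hh
        exact lt_irrefl _ (D.bar_T_tri _ _ hh)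
      rw [co_sub, co_T, if_pos rfl, sub_eq_zero] at a
      rw [a, mul_one]
    · intro x _ hxw
      rw [D.bar_smul, co_smul]
      by_cases hx : D.co h x = 0
      · rw [hx, map_zero, zero_mul]
      · have hl := hmax x (Finset.mem_filter.2 ⟨Finset.mem_univ _, hx⟩)
        have a : D.co (D.bar (D.T x) - D.T x) w = 0 := by
          by_contra hh
          have := D.bar_T_tri _ _ hh
          omega
        rw [co_sub, co_T, if_neg hxw, sub_zero] at a
        rw [a, mul_zero]
    · intro hh; exact absurd (Finset.mem_univ _) hh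
  rw [← e, hb]

theorem klel_unique {g h : D.H} {x : X.W} (hg : D.KLel g x) (hh : D.KLel h x) : g = h := by
  rw [← sub_eq_zero]
  refine D.eq_zero_of_bar (by rw [map_sub, hg.1, hh.1]) fun w => ?_
  have e : g - h = (g - D.T x) - (h - D.T x) := by abel
  rw [e, co_sub]
  exact (hg.2.1 w).sub (hh.2.1 w)

theorem klel_one : D.KLel 1 1 := by
  refine ⟨map_one _, fun w => ?_, fun w hw => ?_⟩
  · simpa [D.T_one, co] using DegLe.zero _
  · simp [D.T_one, co] at hw

theorem klel_Cs (i : Fin X.n) : D.KLel (D.Cs i) (X.s i) := by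
  have e : ∀ w, D.co (D.Cs i - D.T (X.s i)) w =
      if 1 = w then (LaurentPolynomial.T (-1) : Lp) else 0 := by
    intro w
    rw [Cs, add_sub_cancel_left, ← D.T_one, co_smul, co_T]
    split_ifs <;> simp
  refine ⟨D.bar_Cs i, fun w => ?_, fun w hw => ?_⟩
  · rw [e]
    split_ifs
    · exact DegLe.T _
    · exact DegLe.zero _
  · rw [e] at hw
    split_ifs at hw with h1
    · rw [← h1]; simp [Cox0.len]
    · exact absurd rfl hw

theorem KLel.co_self {h : D.H} {x : X.W} (hh : D.KLel h x) : D.co h x = 1 := by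
  have a : D.co (h - D.T x) x = 0 := by
    by_contra hc
    exact lt_irrefl _ (hh.2.2 x hc)
  rwa [co_sub, co_T, if_pos rfl, sub_eq_zero] at a

theorem KLel.np {h : D.H} {x : X.W} (hh : D.KLel h x) : D.NP h := by
  intro w
  by_cases hw : x = w
  · rw [← hw, hh.co_self, ← T_zero]
    exact DegLe.T 0
  · have a := hh.2.1 w
    rw [co_sub, co_T, if_neg hw, sub_zero] at a
    exact a.mono (by norm_num)

theorem KLel.co_ne {h : D.H} {x w : X.W} (hh : D.KLel h x) (hw : w ≠ x) :
    DegLe (D.co h w) (-1) ∧ (D.co h w ≠ 0 → X.len w < X.len x) := by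
  have a := hh.2.1 w
  have b := hh.2.2 w
  rw [co_sub, co_T, if_neg (Ne.symm hw), sub_zero] at a b
  exact ⟨a, b⟩

theorem klel_of {h : D.H} {y : X.W} (hb : D.bar h = h) (hn : D.NP h)
    (ht : ∀ w, D.co (h - D.T y) w ≠ 0 → X.len w < X.len y)
    (h0 : ∀ u, X.len u < X.len y → (D.co h u).coeff 0 = 0) : D.KLel h y := by
  refine ⟨hb, fun w => ?_, ht⟩
  by_cases hw : D.co (h - D.T y) w = 0
  · rw [hw]; exact DegLe.zero _
  · have hl := ht w hw
    have hne : y ≠ w := by rintro rfl; exact lt_irrefl _ hl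
    rw [co_sub, co_T, if_neg hne, sub_zero]
    intro k hk
    by_cases hk0 : k = 0
    · rw [hk0]; exact h0 w hl
    · exact hn w k (by omega)

theorem KLel.mul_Cs {h : D.H} {x : X.W} {i : Fin X.n} (hh : D.KLel h x)
    (hx : X.len x < X.len (x * X.s i)) : D.NP (h * D.Cs i) ∧
      ∀ w, D.co (h * D.Cs i - D.T (x * X.s i)) w ≠ 0 → X.len w ≤ X.len x := by
  refine ⟨fun w => ?_, fun w hw => ?_⟩
  · rw [co_mul_Cs]
    refine (hh.np D _).add ?_
    unfold eps
    split_ifs with h1
    · exact ((DegLe.T (-1)).mul (hh.np D w)).mono (by norm_num)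
    · have hwx : w ≠ x := by rintro rfl; exact h1 hx
      exact ((DegLe.T 1).mul (hh.co_ne D hwx).1).mono (by norm_num)
  · rw [co_sub, co_mul_Cs, co_T_mul] at hw
    have h1 := len_s w i
    by_contra hc
    apply hw
    have a1 : D.co (h - D.T x) (w * X.s i) = 0 := by
      by_contra hh'
      have := hh.2.2 _ hh'
      omega
    have hwx : w ≠ x := by rintro rfl; exact hc le_rfl
    have a2 : D.co h w = 0 := by
      by_contra hh'
      have := (hh.co_ne D hwx).2 hh'
      omega
    rw [co_sub] at a1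
    rw [a2, mul_zero, add_zero, a1]

theorem pr_comm (g h : D.H) : D.pr g h = D.pr h g := by
  exact Finset.sum_congr rfl fun w _ => mul_comm _ _

theorem pr_sub (g h h' : D.H) : D.pr g (h - h') = D.pr g h - D.pr g h' := by
  simp only [pr, co_sub, mul_sub, Finset.sum_sub_distrib]

theorem pr_T (g : D.H) (w : X.W) : D.pr g (D.T w) = D.co g w := by
  simp only [pr, co_T, mul_ite, mul_one, mul_zero, Finset.sum_ite_eq, Finset.mem_univ, if_true]

theorem pr_smul (r : Lp) (g h : D.H) : D.pr (r • g) h = r * D.pr g h := by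
  simp only [pr, co_smul, Finset.mul_sum, mul_assoc]

theorem pr_mul_Cs (g h : D.H) (i : Fin X.n) : D.pr (g * D.Cs i) h = D.pr g (h * D.Cs i) := by
  simp only [pr, co_mul_Cs, add_mul, mul_add, Finset.sum_add_distrib]
  congr 1
  · rw [← Equiv.sum_comp (Equiv.mulRight (X.s i))]
    refine Finset.sum_congr rfl fun w _ => ?_
    simp only [Equiv.coe_mulRight, ss]
  · exact Finset.sum_congr rfl fun w _ => by ring

theorem pr_degLe {g h : D.H} (hg : D.NP g) (hh : D.NP h) : DegLe (D.pr g h) 0 := by
  exact DegLe.sum _ fun w _ => ((hg w).mul (hh w)).mono (by norm_num)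

theorem pr_coeff_zero {g h : D.H} {u : X.W} (hg : D.KLel g u) (hh : D.NP h) :
    (D.pr g h).coeff 0 = (D.co h u).coeff 0 := by
  rw [pr, csum, Finset.sum_eq_single u]
  · rw [hg.co_self, one_mul]
  · intro w _ hw
    exact ((hg.co_ne D hw).1.mul (hh w)) 0 (by norm_num)
  · intro h'; exact absurd (Finset.mem_univ _) h'

theorem pr_degLe_ne {g h : D.H} {x y : X.W} (hg : D.KLel g x) (hh : D.KLel h y) (hxy : x ≠ y) :
    DegLe (D.pr g h) (-1) := by
  refine DegLe.sum _ fun w _ => ?_
  by_cases hw : w = x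
  · have hw' : w ≠ y := hw ▸ hxy
    exact ((hg.np D w).mul (hh.co_ne D hw').1).mono (by norm_num)
  · exact ((hg.co_ne D hw).1.mul (hh.np D w)).mono (by norm_num)

theorem exists_basis {C : X.W → D.H} (hC : ∀ x, D.KLel (C x) x) :
    ∃ b : Module.Basis X.W Lp D.H, ∀ x, b x = C x := by
  have hli : LinearIndependent Lp C := by
    rw [Fintype.linearIndependent_iff]
    intro a ha
    by_contra hc
    push Not at hc
    have hne : (Finset.univ.filter fun w => a w ≠ 0).Nonempty := by
      obtain ⟨w, hw⟩ := hc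
      exact ⟨w, Finset.mem_filter.2 ⟨Finset.mem_univ _, hw⟩⟩
    obtain ⟨w, hw, hmax⟩ := Finset.exists_max_image _ X.len hne
    apply (Finset.mem_filter.1 hw).2
    have e : D.co (∑ x, a x • C x) w = a w := by
      rw [co_sum, Finset.sum_eq_single w]
      · rw [co_smul, (hC w).co_self, mul_one]
      · intro x _ hxw
        rw [co_smul]
        by_cases hx : a x = 0
        · rw [hx, zero_mul]
        · have hl := hmax x (Finset.mem_filter.2 ⟨Finset.mem_univ _, hx⟩)
          have a1 : D.co (C x) w = 0 := by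
            by_contra hh
            have := ((hC x).co_ne D (Ne.symm hxw)).2 hh
            omega
          rw [a1, mul_zero]
      · intro hh; exact absurd (Finset.mem_univ _) hh
    rw [← e, ha]
    simp [co]
  have hT : ∀ x, D.T x ∈ Submodule.span Lp (Set.range C) := by
    intro x
    induction hn : X.len x using Nat.strong_induction_on generalizing x with
    | _ n ih =>
      have e : D.T x = C x - ∑ w, D.co (C x - D.T x) w • D.T w := by
        rw [← D.eq_sum]; abel
      rw [e]
      refine Submodule.sub_mem _ (Submodule.subset_span ⟨x, rfl⟩)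
        (Submodule.sum_mem _ fun w _ => ?_)
      by_cases hw : D.co (C x - D.T x) w = 0
      · rw [hw, zero_smul]; exact Submodule.zero_mem _
      · exact Submodule.smul_mem _ _ (ih _ (hn ▸ (hC x).2.2 w hw) w rfl)
  have hsp : ⊤ ≤ Submodule.span Lp (Set.range C) := by
    intro h _
    rw [D.eq_sum h]
    exact Submodule.sum_mem _ fun w _ => Submodule.smul_mem _ _ (hT w)
  exact ⟨Module.Basis.mk hli hsp, fun x => Module.Basis.mk_apply hli hsp x⟩

end Hk

end

end Pool.Agent.P.MP_1a0ecf_al
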