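import Pool.Agent.P.MP_1a0ecf_al.K0

/-! Package K1: trace, anti-involution and descents. -/

namespace Pool.Agent.P.MP_1a0ecf_al

open LaurentPolynomial
open scoped Classical

noncomputable section

variable {X : Cox}

namespace Hk

variable (D : Hk X)

private theorem indR {P : X.W → Prop} (h1 : P 1)
    (hs : ∀ x i, X.len x < X.len (x * X.s i) → P x → P (x * X.s i)) (x : X.W) : P x := by
  induction hn : X.len x using Nat.strong_induction_on generalizing x with
  | _ n ih =>
    by_cases hx : x = 1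
    · rw [hx]; exact h1
    · obtain ⟨i, hi⟩ := X.cs.exists_rightDescent_of_ne_one hx
      have hi' : X.len (x * X.s i) < X.len x := hi
      have e : x * X.s i * X.s i = x := X.cs.simple_mul_simple_cancel_right i
      rw [← e]
      refine hs _ i (by rw [e]; exact hi') (ih _ (hn ▸ hi') _ rfl)

private theorem ssL (x : X.W) (i : Fin X.n) : X.s i * (X.s i * x) = x :=
  X.cs.simple_mul_simple_cancel_left i

private theorem indL {P : X.W → Prop} (h1 : P 1)
    (hs : ∀ x i, X.len x < X.len (X.s i * x) → P x → P (X.s i * x)) (x : X.W) : P x := by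
  induction hn : X.len x using Nat.strong_induction_on generalizing x with
  | _ n ih =>
    by_cases hx : x = 1
    · rw [hx]; exact h1
    · obtain ⟨i, hi⟩ := X.cs.exists_leftDescent_of_ne_one hx
      have hi' : X.len (X.s i * x) < X.len x := hi
      rw [← ssL x i]
      refine hs _ i (by rw [ssL]; exact hi') (ih _ (hn ▸ hi') _ rfl)

private theorem lenR (x : X.W) (i : Fin X.n) :
    X.len (x * X.s i) = X.len x + 1 ∨ X.len (x * X.s i) + 1 = X.len x :=
  X.cs.length_mul_simple x i

theorem k1_lenL (x : X.W) (i : Fin X.n) :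
    X.len (X.s i * x) = X.len x + 1 ∨ X.len (X.s i * x) + 1 = X.len x :=
  X.cs.length_simple_mul x i

theorem k1_len_inv (x : X.W) : X.len x⁻¹ = X.len x := X.cs.length_inv x

private theorem len_inv_mul (x : X.W) (i : Fin X.n) :
    X.len (X.s i * x⁻¹) = X.len (x * X.s i) := by
  rw [← k1_len_inv (x * X.s i), mul_inv_rev, X.cs.inv_simple]

theorem k1_co_T (x w : X.W) : D.co (D.T x) w = if x = w then 1 else 0 := by
  simp [co, Finsupp.single_apply]

theorem k1_co_sub (g h : D.H) (w : X.W) : D.co (g - h) w = D.co g w - D.co h w := by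
  simp [co]

theorem k1_co_smul (r : Lp) (h : D.H) (w : X.W) : D.co (r • h) w = r * D.co h w := by
  simp [co]

theorem k1_co_sum {α : Type} (s : Finset α) (h : α → D.H) (w : X.W) :
    D.co (∑ a ∈ s, h a) w = ∑ a ∈ s, D.co (h a) w := by
  simp [co]

theorem k1_eq_sum (h : D.H) : h = ∑ w, D.co h w • D.T w := (D.T.sum_repr h).symm

private theorem T_sq (i : Fin X.n) : D.T (X.s i) * D.T (X.s i) =
    1 + (LaurentPolynomial.T 1 - LaurentPolynomial.T (-1) : Lp) • D.T (X.s i) := by
  have h2 := D.T_down (X.s i) i (by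
    rw [X.cs.simple_mul_simple_self]
    simp [Cox0.len])
  rwa [X.cs.simple_mul_simple_self, D.T_one] at h2

theorem T_up_left {x : X.W} {i : Fin X.n} (h : X.len x < X.len (X.s i * x)) :
    D.T (X.s i) * D.T x = D.T (X.s i * x) := by
  refine D.T_mul_of_len ?_
  have h1 := k1_lenL x i
  have h2 : X.len (X.s i) = 1 := X.cs.length_simple i
  omega

theorem T_down_left {x : X.W} {i : Fin X.n} (h : X.len (X.s i * x) < X.len x) :
    D.T (X.s i) * D.T x = D.T (X.s i * x) +
      (LaurentPolynomial.T 1 - LaurentPolynomial.T (-1) : Lp) • D.T x := by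
  have e := D.T_up_left (x := X.s i * x) (i := i) (by rw [ssL]; exact h)
  rw [ssL] at e
  rw [← e, ← mul_assoc, T_sq, add_mul, one_mul, smul_mul_assoc]

theorem exists_flat : ∃ φ : D.H →ₗ[Lp] D.H, (∀ w, φ (D.T w) = D.T w⁻¹) ∧
    (∀ a b, φ (a * b) = φ b * φ a) ∧ ∀ a, φ (D.bar a) = D.bar (φ a) := by
  let φ : D.H →ₗ[Lp] D.H := D.T.constr Lp fun w => D.T w⁻¹
  have h1 : ∀ w, φ (D.T w) = D.T w⁻¹ := fun w => D.T.constr_basis Lp _ w
  have h2 : ∀ i a, φ (a * D.T (X.s i)) = D.T (X.s i) * φ a := by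
    intro i a
    have : φ ∘ₗ LinearMap.mulRight Lp (D.T (X.s i)) = LinearMap.mulLeft Lp (D.T (X.s i)) ∘ₗ φ := by
      refine D.T.ext fun x => ?_
      simp only [LinearMap.comp_apply, LinearMap.mulRight_apply, LinearMap.mulLeft_apply, h1]
      have l1 := len_inv_mul x i
      have l2 := k1_len_inv x
      rcases lenR x i with h | h
      · rw [D.T_up x i (by omega), h1, D.T_up_left (by omega), mul_inv_rev, X.cs.inv_simple]
      · rw [D.T_down x i (by omega), map_add, map_smul, h1, h1, D.T_down_left (by omega),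
          mul_inv_rev, X.cs.inv_simple]
    exact LinearMap.congr_fun this a
  have h3 : ∀ y a, φ (a * D.T y) = D.T y⁻¹ * φ a := by
    intro y
    induction y using indR with
    | h1 => intro a; rw [inv_one, D.T_one, mul_one, one_mul]
    | hs y i hy ih =>
      intro a
      have l1 := len_inv_mul y i
      have l2 := k1_len_inv y
      rw [← D.T_up y i hy, ← mul_assoc, h2, ih, ← mul_assoc, D.T_up_left (by omega), mul_inv_rev,
        X.cs.inv_simple]
  have h4 : ∀ a b, φ (a * b) = φ b * φ a := by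
    intro a b
    conv_lhs => rw [D.k1_eq_sum b]
    conv_rhs => rw [D.k1_eq_sum b]
    simp only [Finset.mul_sum, mul_smul_comm, map_sum, map_smul, h3, h1, Finset.sum_mul,
      smul_mul_assoc]
  have h5 : ∀ w, φ (D.bar (D.T w)) = D.bar (D.T w⁻¹) := by
    intro w
    have a1 := congrArg φ (D.bar_T w)
    rw [h4, h1, inv_inv, ← D.T_one, h1, inv_one, D.T_one] at a1
    have a2 := D.bar_T w⁻¹
    rw [inv_inv] at a2
    calc φ (D.bar (D.T w)) = (D.bar (D.T w⁻¹) * D.T w) * φ (D.bar (D.T w)) := by rw [a2, one_mul]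
      _ = _ := by rw [mul_assoc, a1, mul_one]
  refine ⟨φ, h1, h4, fun a => ?_⟩
  conv_lhs => rw [D.k1_eq_sum a]
  conv_rhs => rw [D.k1_eq_sum a]
  simp only [map_sum, map_smul, D.bar_smul, h5, h1]

theorem tau_T_mul (x y : X.W) : D.co (D.T x * D.T y) 1 = if x * y = 1 then 1 else 0 := by
  induction y using indL generalizing x with
  | h1 => rw [D.T_one, mul_one, mul_one, k1_co_T]
  | hs y i hy ih =>
    rw [← D.T_up_left hy, ← mul_assoc, ← mul_assoc]
    rcases lenR x i with h | h
    · rw [D.T_up x i (by omega), ih]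
    · have hn : x * y ≠ 1 := by
        intro e
        have e1 : y = x⁻¹ := eq_inv_of_mul_eq_one_right e
        have l1 := len_inv_mul x i
        have l2 := k1_len_inv x
        rw [e1] at hy
        omega
      rw [D.T_down x i (by omega), add_mul, smul_mul_assoc, co, map_add, Finsupp.add_apply]
      change D.co _ 1 + D.co _ 1 = _
      rw [k1_co_smul, ih, ih, if_neg hn, mul_zero, add_zero]

theorem tau_mul (a b : D.H) : D.co (a * b) 1 = ∑ w, D.co a w * D.co b w⁻¹ := by
  conv_lhs => rw [D.k1_eq_sum a, D.k1_eq_sum b]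
  rw [Finset.sum_mul, k1_co_sum]
  refine Finset.sum_congr rfl fun x _ => ?_
  rw [Finset.mul_sum, k1_co_sum, Finset.sum_eq_single x⁻¹]
  · rw [smul_mul_assoc, mul_smul_comm, k1_co_smul, k1_co_smul, tau_T_mul, if_pos (mul_inv_cancel x),
      mul_one]
  · intro y _ hy
    rw [smul_mul_assoc, mul_smul_comm, k1_co_smul, k1_co_smul, tau_T_mul,
      if_neg fun e => hy (eq_inv_of_mul_eq_one_right e), mul_zero, mul_zero]
  · intro h; exact absurd (Finset.mem_univ _) h

theorem tau_comm (a b : D.H) : D.co (a * b) 1 = D.co (b * a) 1 := by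
  rw [tau_mul, tau_mul, ← Equiv.sum_comp (Equiv.inv X.W)]
  refine Finset.sum_congr rfl fun w _ => ?_
  simp only [Equiv.inv_apply, inv_inv, mul_comm]

theorem T_mul_T_mod (w w' : X.W) : ∃ a : D.H, D.T w * D.T w' =
    D.T (w * w') + (LaurentPolynomial.T 1 - LaurentPolynomial.T (-1) : Lp) • a := by
  induction w' using indR with
  | h1 => exact ⟨0, by rw [D.T_one, mul_one, mul_one, smul_zero, add_zero]⟩
  | hs y i hy ih =>
    obtain ⟨a, ha⟩ := ih
    rw [← D.T_up y i hy, ← mul_assoc, ha, add_mul, smul_mul_assoc, ← mul_assoc]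
    rcases lenR (w * y) i with h | h
    · exact ⟨_, by rw [D.T_up _ i (by omega)]⟩
    · exact ⟨_, by rw [D.T_down _ i (by omega), add_assoc, ← smul_add]⟩

/-- the eigenvalue occurring in the left multiplication by `Cs i` -/
def k1eps (w : X.W) (i : Fin X.n) : Lp :=
  if X.len w < X.len (X.s i * w) then LaurentPolynomial.T (-1) else LaurentPolynomial.T 1

private theorem Cs_mul_T (x : X.W) (i : Fin X.n) :
    D.Cs i * D.T x = D.T (X.s i * x) + k1eps x i • D.T x := by
  unfold k1eps
  rw [Cs, add_mul, smul_mul_assoc, one_mul]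
  split_ifs with h
  · rw [D.T_up_left h]
  · have := k1_lenL x i
    rw [D.T_down_left (by omega), add_assoc, ← add_smul, sub_add_cancel]

theorem k1_co_Cs (h : D.H) (i : Fin X.n) (w : X.W) :
    D.co (D.Cs i * h) w = D.co h (X.s i * w) + k1eps w i * D.co h w := by
  have e : ∀ x, D.co (D.Cs i * D.T x) w =
      (if X.s i * w = x then 1 else 0) + if w = x then k1eps w i else 0 := by
    intro x
    rw [Cs_mul_T, co, map_add, Finsupp.add_apply]
    change D.co _ w + D.co _ w = _
    rw [k1_co_smul, k1_co_T, k1_co_T]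
    congr 1
    · by_cases h : X.s i * x = w
      · rw [if_pos h, if_pos (by rw [← h, ssL])]
      · rw [if_neg h, if_neg (fun e => h (by rw [← e, ssL]))]
    · by_cases h : x = w
      · rw [if_pos h, if_pos h.symm, h, mul_one]
      · rw [if_neg h, if_neg (Ne.symm h), mul_zero]
  conv_lhs => rw [D.k1_eq_sum h]
  rw [Finset.mul_sum, k1_co_sum]
  simp only [mul_smul_comm, k1_co_smul, e, mul_add, Finset.sum_add_distrib, mul_ite, mul_one,
    mul_zero, Finset.sum_ite_eq, Finset.mem_univ, if_true]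
  rw [mul_comm]

/-- the top coefficients of a bar invariant element -/
theorem k1_top {h : D.H} (hb : D.bar h = h) {w : X.W}
    (hmax : ∀ x, D.co h x ≠ 0 → X.len x ≤ X.len w) : invert (D.co h w) = D.co h w := by
  have e : D.co (D.bar h) w = invert (D.co h w) := by
    conv_lhs => rw [D.k1_eq_sum h]
    rw [map_sum, k1_co_sum, Finset.sum_eq_single w]
    · rw [D.bar_smul, k1_co_smul]
      have a : D.co (D.bar (D.T w) - D.T w) w = 0 := by
        by_contra hh
        exact lt_irrefl _ (D.bar_T_tri _ _ hh)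
      rw [k1_co_sub, k1_co_T, if_pos rfl, sub_eq_zero] at a
      rw [a, mul_one]
    · intro x _ hxw
      rw [D.bar_smul, k1_co_smul]
      by_cases hx : D.co h x = 0
      · rw [hx, map_zero, zero_mul]
      · have hl := hmax x hx
        have a : D.co (D.bar (D.T x) - D.T x) w = 0 := by
          by_contra hh
          have := D.bar_T_tri _ _ hh
          omega
        rw [k1_co_sub, k1_co_T, if_neg hxw, sub_zero] at a
        rw [a, mul_zero]
    · intro hh; exact absurd (Finset.mem_univ _) hh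
  rw [← e, hb]

theorem k1_Cs_sq (i : Fin X.n) : D.Cs i * D.Cs i =
    (LaurentPolynomial.T 1 + LaurentPolynomial.T (-1) : Lp) • D.Cs i := by
  have e : (LaurentPolynomial.T 1 * LaurentPolynomial.T (-1) : Lp) = 1 := by
    rw [← T_add]; simp
  rw [Cs]
  simp only [add_mul, mul_add, smul_mul_assoc, mul_smul_comm, mul_one, one_mul, T_sq, smul_add,
    add_smul, sub_smul, smul_smul, e, one_smul]
  abel

/-- the degrees of the coefficients of `bar (T y)` -/
theorem k1_bar_deg (y : X.W) :
    (∀ w, DegLe (invert (D.co (D.bar (D.T y)) w)) ((X.len y : ℤ) - X.len w)) ∧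
      (invert (D.co (D.bar (D.T y)) 1)).coeff (X.len y) = 1 := by
  induction y using indL with
  | h1 =>
    have l : X.len 1 = 0 := X.cs.length_one
    rw [D.T_one, map_one, ← D.T_one]
    refine ⟨fun w => ?_, ?_⟩
    · rw [k1_co_T]
      split_ifs with h
      · rw [← h, sub_self, map_one, ← T_zero]; exact DegLe.T 0
      · intro k _; simp
    · rw [k1_co_T, if_pos rfl, l, map_one, ← T_zero, Nat.cast_zero, T_apply, if_pos rfl]
  | hs y i hy ih =>
    have e : D.bar (D.T (X.s i * y)) =
        D.Cs i * D.bar (D.T y) - (LaurentPolynomial.T 1 : Lp) • D.bar (D.T y) := by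
      rw [← D.T_up_left hy, map_mul, bar_T_simple, Cs]
      simp only [sub_mul, add_mul, smul_mul_assoc, one_mul, sub_smul]
      abel
    have e2 : ∀ w, invert (D.co (D.bar (D.T (X.s i * y))) w) =
        invert (D.co (D.bar (D.T y)) (X.s i * w)) +
          invert (k1eps w i - LaurentPolynomial.T 1) * invert (D.co (D.bar (D.T y)) w) := by
      intro w
      rw [e, k1_co_sub, k1_co_Cs, k1_co_smul, ← map_mul, ← map_add]
      congr 1; ring
    have l1 := k1_lenL y i
    have dq : DegLe (invert (LaurentPolynomial.T (-1) - LaurentPolynomial.T 1 : Lp)) 1 := by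
      rw [map_sub, invert_T, invert_T, neg_neg]
      exact (DegLe.T 1).sub ((DegLe.T (-1)).mono (by norm_num))
    refine ⟨fun w => ?_, ?_⟩
    · rw [e2]
      have l2 := k1_lenL w i
      unfold k1eps
      split_ifs with h
      · exact ((ih.1 _).mono (by omega)).add ((dq.mul (ih.1 w)).mono (by omega))
      · rw [sub_self, map_zero, zero_mul, add_zero]
        exact (ih.1 _).mono (by omega)
    · have l0 : X.len 1 = 0 := X.cs.length_one
      have l3 : X.len (X.s i * 1) = 1 := by rw [mul_one]; exact X.cs.length_simple i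
      have l4 : (X.len (X.s i * y) : ℤ) = 1 + X.len y := by omega
      have d1 := ih.1 1
      rw [l0, Nat.cast_zero, sub_zero] at d1
      rw [e2, AddMonoidAlgebra.coeff_add, Finsupp.add_apply, ih.1 _ _ (by omega), zero_add, k1eps,
        if_pos (by omega), l4, dq.coeff_mul d1, ih.2, mul_one, map_sub, invert_T, invert_T, neg_neg,
        AddMonoidAlgebra.coeff_sub, Finsupp.sub_apply, T_apply, T_apply]
      norm_num

end Hk

namespace KD

variable (D : KD X)

theorem C_one : D.C 1 = 1 := by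
  exact D.klel_unique (D.kl 1) D.klel_one

theorem C_simple (i : Fin X.n) : D.C (X.s i) = D.Cs i := by
  exact D.klel_unique (D.kl _) (D.klel_Cs i)

private theorem co_flat {φ : D.H →ₗ[Lp] D.H} (h1 : ∀ w, φ (D.T w) = D.T w⁻¹) (a : D.H)
    (w : X.W) : D.co (φ a) w⁻¹ = D.co a w := by
  conv_lhs => rw [D.k1_eq_sum a]
  simp only [map_sum, map_smul, h1, Hk.k1_co_sum, Hk.k1_co_smul, Hk.k1_co_T, inv_inj, mul_ite,
    mul_one, mul_zero, Finset.sum_ite_eq', Finset.mem_univ, if_true]

theorem flat_C {φ : D.H →ₗ[Lp] D.H} (h1 : ∀ w, φ (D.T w) = D.T w⁻¹)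
    (h2 : ∀ a, φ (D.bar a) = D.bar (φ a)) (x : X.W) : φ (D.C x) = D.C x⁻¹ := by
  have e : ∀ w, D.co (φ (D.C x) - D.T x⁻¹) w = D.co (D.C x - D.T x) w⁻¹ := by
    intro w
    rw [← h1, ← map_sub, ← co_flat D h1 _ w⁻¹, inv_inv]
  refine D.klel_unique ⟨by rw [← h2, (D.kl x).1], fun w => ?_, fun w hw => ?_⟩ (D.kl _)
  · rw [e]; exact (D.kl x).2.1 _
  · rw [e] at hw
    have := (D.kl x).2.2 _ hw
    rwa [Hk.k1_len_inv, ← Hk.k1_len_inv x] at this

theorem p_inv (y x : X.W) : D.p y⁻¹ x⁻¹ = D.p y x := by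
  obtain ⟨φ, h1, -, h2⟩ := D.exists_flat
  rw [p, ← D.flat_C h1 h2]
  exact co_flat D h1 _ _

theorem h_inv (x y z : X.W) : D.h y⁻¹ x⁻¹ z⁻¹ = D.h x y z := by
  obtain ⟨φ, h1, h3, h2⟩ := D.exists_flat
  rw [h, ← D.flat_C h1 h2, ← D.flat_C h1 h2, ← h3, h]
  generalize D.C x * D.C y = a
  conv_lhs => rw [← D.C.sum_repr a]
  simp only [map_sum, map_smul, Finsupp.finsetSum_apply, Finsupp.smul_apply, smul_eq_mul, D.flat_C h1 h2,
    Module.Basis.repr_self, Finsupp.single_apply, inv_inj, mul_ite, mul_one, mul_zero,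
    Finset.sum_ite_eq', Finset.mem_univ, if_true]

theorem repr_bar (a : D.H) (z : X.W) : D.C.repr (D.bar a) z = invert (D.C.repr a z) := by
  conv_lhs => rw [← D.C.sum_repr a]
  have e : ∀ x, D.bar (D.C x) = D.C x := fun x => (D.kl x).1
  simp only [map_sum, map_smul, Finsupp.finsetSum_apply, Finsupp.smul_apply, smul_eq_mul, D.bar_smul, e,
    Module.Basis.repr_self, Finsupp.single_apply, mul_ite, mul_one, mul_zero,
    Finset.sum_ite_eq', Finset.mem_univ, if_true]

theorem h_invert (x y z : X.W) : invert (D.h x y z) = D.h x y z := by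
  rw [h, ← repr_bar, map_mul, (D.kl x).1, (D.kl y).1]

theorem h_assoc (x y w z : X.W) :
    ∑ u, D.h x y u * D.h u w z = ∑ u, D.h x u z * D.h y w u := by
  have e1 : D.C.repr (D.C x * D.C y * D.C w) z = ∑ u, D.h x y u * D.h u w z := by
    conv_lhs => rw [← D.C.sum_repr (D.C x * D.C y)]
    simp only [Finset.sum_mul, smul_mul_assoc, map_sum, map_smul, Finsupp.finsetSum_apply, Finsupp.smul_apply,
      smul_eq_mul]
  have e2 : D.C.repr (D.C x * (D.C y * D.C w)) z = ∑ u, D.h x u z * D.h y w u := by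
    conv_lhs => rw [← D.C.sum_repr (D.C y * D.C w)]
    simp only [Finset.mul_sum, mul_smul_comm, map_sum, map_smul, Finsupp.finsetSum_apply, Finsupp.smul_apply,
      smul_eq_mul]
    exact Finset.sum_congr rfl fun _ _ => mul_comm _ _
  rw [← e1, ← e2, mul_assoc]

private theorem repr_T' (x u : X.W) : (D.C.repr (D.T x - D.C x) u ≠ 0 → X.len u < X.len x) ∧
    DegLe (D.C.repr (D.T x) u) 0 := by
  induction hn : X.len x using Nat.strong_induction_on generalizing x u with
  | _ n ih =>
    have e : D.C.repr (D.T x - D.C x) u =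
        -∑ w, D.co (D.C x - D.T x) w * D.C.repr (D.T w) u := by
      rw [← neg_sub, map_neg, Finsupp.neg_apply]
      conv_lhs => rw [D.k1_eq_sum (D.C x - D.T x)]
      simp only [map_sum, map_smul, Finsupp.finsetSum_apply, Finsupp.smul_apply, smul_eq_mul]
    have z : ∀ m, DegLe (0 : Lp) m := fun _ _ _ => by simp
    refine ⟨fun hu => ?_, ?_⟩
    · rw [e, neg_ne_zero] at hu
      obtain ⟨w, -, hw⟩ := Finset.exists_ne_zero_of_sum_ne_zero hu
      have l1 := (D.kl x).2.2 w (left_ne_zero_of_mul hw)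
      by_cases h : w = u
      · rw [← h, ← hn]; exact l1
      · have := (ih _ (hn ▸ l1) w u rfl).1 (by
          simpa [Finsupp.single_apply, h] using right_ne_zero_of_mul hw)
        omega
    · have e' : D.C.repr (D.T x) u = D.C.repr (D.T x - D.C x) u + if x = u then 1 else 0 := by
        simp [Finsupp.single_apply]
      rw [e', e]
      refine DegLe.add (DegLe.neg (DegLe.sum _ fun w _ => ?_)) ?_
      · by_cases hw : D.co (D.C x - D.T x) w = 0
        · rw [hw, zero_mul]; exact z _
        · exact (((D.kl x).2.1 w).mul (ih _ (hn ▸ (D.kl x).2.2 w hw) w u rfl).2).mono (by norm_num)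
      · split_ifs
        · rw [← T_zero]; exact DegLe.T 0
        · exact z _

theorem repr_T (x w : X.W) : D.C.repr (D.T x) x = 1 ∧
    (D.C.repr (D.T x) w ≠ 0 → w = x ∨ X.len w < X.len x) := by
  refine ⟨?_, fun h => ?_⟩
  · have a : D.C.repr (D.T x - D.C x) x = 0 := by
      by_contra hh
      exact lt_irrefl _ ((repr_T' D x x).1 hh)
    simpa [sub_eq_zero] using a
  · by_cases e : x = w
    · exact Or.inl e.symm
    · exact Or.inr ((repr_T' D x w).1 (by simpa [Finsupp.single_apply, e] using h))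

theorem mul_C_desc {z : X.W} {i : Fin X.n} (h : X.len (X.s i * z) < X.len z) :
    D.C (X.s i) * D.C z = (LaurentPolynomial.T 1 + LaurentPolynomial.T (-1) : Lp) • D.C z := by
  rw [C_simple, ← sub_eq_zero]
  set g := D.Cs i * D.C z - (LaurentPolynomial.T 1 + LaurentPolynomial.T (-1) : Lp) • D.C z with hg
  have hb : D.bar g = g := by
    rw [hg, map_sub, map_mul, D.bar_Cs, D.bar_smul, (D.kl z).1, map_add, invert_T, invert_T,
      neg_neg, add_comm]
  have e : ∀ w, D.co g w = D.co (D.C z) (X.s i * w) + (Hk.k1eps w i -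
      (LaurentPolynomial.T 1 + LaurentPolynomial.T (-1) : Lp)) * D.co (D.C z) w := by
    intro w
    rw [hg, Hk.k1_co_sub, Hk.k1_co_Cs, Hk.k1_co_smul]; ring
  have e1 : (LaurentPolynomial.T 1 * LaurentPolynomial.T (-1) : Lp) = 1 := by
    rw [← T_add]; simp
  by_contra h0
  have hne : (Finset.univ.filter fun w => D.co g w ≠ 0).Nonempty := by
    by_contra hc
    apply h0
    refine D.T.ext_elem fun w => ?_
    by_contra hw
    exact hc ⟨w, Finset.mem_filter.2 ⟨Finset.mem_univ _, by simpa [Hk.co] using hw⟩⟩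
  obtain ⟨w, hw, hmax⟩ := Finset.exists_max_image _ X.len hne
  have hw' := (Finset.mem_filter.1 hw).2
  have hm : ∀ x, D.co g x ≠ 0 → X.len x ≤ X.len w := fun x hx =>
    hmax x (Finset.mem_filter.2 ⟨Finset.mem_univ _, hx⟩)
  have ss : X.s i * (X.s i * w) = w := X.cs.simple_mul_simple_cancel_left i
  apply hw'
  rcases Hk.k1_lenL w i with l | l
  · have a : D.co g (X.s i * w) = 0 := by
      by_contra hh
      have := hm _ hh
      omega
    rw [e, ss, Hk.k1eps, ss, if_neg (by omega)] at a
    rw [e, Hk.k1eps, if_pos (by omega)]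
    linear_combination (-LaurentPolynomial.T 1 : Lp) * a - D.co (D.C z) (X.s i * w) * e1
  · refine eq_zero_of_invert (D.k1_top hb hm) ?_
    have hne : X.s i * w ≠ z := by
      rintro rfl
      rw [ss] at h
      omega
    rw [e, Hk.k1eps, if_neg (by omega), sub_add_cancel_left]
    exact ((D.kl z).co_ne _ hne).1.add
      (((DegLe.T (-1)).neg.mul ((D.kl z).np _ w)).mono (by norm_num))

private theorem desc_of_eig {g : D.H} {i : Fin X.n}
    (hg : D.Cs i * g = (LaurentPolynomial.T 1 + LaurentPolynomial.T (-1) : Lp) • g) {u : X.W}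
    (hu : D.C.repr g u ≠ 0) : X.len (X.s i * u) < X.len u := by
  by_contra hc
  have hne : (Finset.univ.filter fun w =>
      ¬X.len (X.s i * w) < X.len w ∧ D.C.repr g w ≠ 0).Nonempty :=
    ⟨u, Finset.mem_filter.2 ⟨Finset.mem_univ _, hc, hu⟩⟩
  obtain ⟨w, hw, hmax⟩ := Finset.exists_max_image _ X.len hne
  obtain ⟨hw1, hw2⟩ := (Finset.mem_filter.1 hw).2
  set g' := ∑ x ∈ Finset.univ.filter (fun x => ¬X.len (X.s i * x) < X.len x),
    D.C.repr g x • D.C x with hg'
  have e : g' = g - ∑ x ∈ Finset.univ.filter (fun x => X.len (X.s i * x) < X.len x),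
      D.C.repr g x • D.C x := by
    rw [eq_sub_iff_add_eq', hg', Finset.sum_filter_add_sum_filter_not, D.C.sum_repr]
  have h1 : D.Cs i * g' = (LaurentPolynomial.T 1 + LaurentPolynomial.T (-1) : Lp) • g' := by
    rw [e, mul_sub, smul_sub, hg, Finset.mul_sum, Finset.smul_sum]
    congr 1
    refine Finset.sum_congr rfl fun x hx => ?_
    rw [mul_smul_comm, ← C_simple, D.mul_C_desc (Finset.mem_filter.1 hx).2, smul_comm]
  have z : ∀ y, X.len w ≤ X.len y → ∀ x ∈ Finset.univ.filter
      (fun x => ¬X.len (X.s i * x) < X.len x), x ≠ y → D.co (D.C.repr g x • D.C x) y = 0 := by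
    intro y hy x hx hxy
    rw [Hk.k1_co_smul]
    by_cases h0 : D.C.repr g x = 0
    · rw [h0, zero_mul]
    · have l := hmax x (Finset.mem_filter.2 ⟨Finset.mem_univ _, (Finset.mem_filter.1 hx).2, h0⟩)
      have a : D.co (D.C x) y = 0 := by
        by_contra hh
        have := ((D.kl x).co_ne _ hxy.symm).2 hh
        omega
      rw [a, mul_zero]
  have l := Hk.k1_lenL w i
  have ss : X.s i * (X.s i * w) = w := X.cs.simple_mul_simple_cancel_left i
  have a1 : D.co g' w = D.C.repr g w := by
    rw [hg', Hk.k1_co_sum, Finset.sum_eq_single_of_mem w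
      (Finset.mem_filter.2 ⟨Finset.mem_univ _, hw1⟩) (z w le_rfl), Hk.k1_co_smul,
      (D.kl w).co_self, mul_one]
  have a2 : D.co g' (X.s i * w) = 0 := by
    rw [hg', Hk.k1_co_sum]
    refine Finset.sum_eq_zero fun x hx => z _ (by omega) x hx ?_
    rintro rfl
    have := (Finset.mem_filter.1 hx).2
    rw [ss] at this
    omega
  have a3 := congrArg (fun a => D.co a w) h1
  simp only [Hk.k1_co_Cs, Hk.k1_co_smul] at a3
  rw [a1, a2, Hk.k1eps, if_pos (by omega)] at a3
  have e1 : (LaurentPolynomial.T 1 * LaurentPolynomial.T (-1) : Lp) = 1 := by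
    rw [← T_add]; simp
  apply hw2
  linear_combination (-LaurentPolynomial.T (-1) : Lp) * a3 - D.C.repr g w * e1

theorem h_asc {z : X.W} {i : Fin X.n} (h : X.len z < X.len (X.s i * z)) (u : X.W) :
    DegLe (D.h (X.s i) z u) 0 ∧ (D.h (X.s i) z u ≠ 0 → X.len (X.s i * u) < X.len u) := by
  rw [KD.h, C_simple]
  refine ⟨?_, fun hu => desc_of_eig D (by rw [← mul_assoc, D.k1_Cs_sq, smul_mul_assoc]) hu⟩
  have e : D.C.repr (D.Cs i * D.C z) u =
      ∑ w, D.co (D.Cs i * D.C z) w * D.C.repr (D.T w) u := by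
    conv_lhs => rw [D.k1_eq_sum (D.Cs i * D.C z)]
    simp only [map_sum, map_smul, Finsupp.finsetSum_apply, Finsupp.smul_apply, smul_eq_mul]
  rw [e]
  refine DegLe.sum _ fun w _ => (DegLe.mul (m := 0) ?_ (repr_T' D w u).2).mono (by norm_num)
  rw [Hk.k1_co_Cs]
  refine ((D.kl z).np _ _).add ?_
  unfold Hk.k1eps
  split_ifs with h1
  · exact ((DegLe.T (-1)).mul ((D.kl z).np _ w)).mono (by norm_num)
  · have hwx : w ≠ z := by rintro rfl; exact h1 h
    exact ((DegLe.T 1).mul ((D.kl z).co_ne _ hwx).1).mono (by norm_num)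

theorem desc_of_h {x y z : X.W} {i : Fin X.n} (hx : X.len (X.s i * x) < X.len x)
    (h : D.h x y z ≠ 0) : X.len (X.s i * z) < X.len z := by
  exact desc_of_eig D (by rw [← mul_assoc, ← C_simple, D.mul_C_desc hx, smul_mul_assoc]) h

theorem p_one_ne (z : X.W) : D.p 1 z ≠ 0 := by
  have e : invert (D.p 1 z) = ∑ y, D.co (D.C z) y * invert (D.co (D.bar (D.T y)) 1) := by
    change invert (D.co (D.C z) 1) = _
    conv_lhs => rw [← (D.kl z).1, D.k1_eq_sum (D.C z)]
    rw [map_sum, Hk.k1_co_sum, map_sum]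
    refine Finset.sum_congr rfl fun y _ => ?_
    rw [D.bar_smul, Hk.k1_co_smul, map_mul, involutive_invert]
  intro h0
  have a := congrArg (fun r : Lp => r.coeff (X.len z)) e
  simp only [h0, map_zero, AddMonoidAlgebra.coeff_zero, Finsupp.zero_apply,
    AddMonoidAlgebra.coeff_sum, Finsupp.finsetSum_apply] at a
  rw [Finset.sum_eq_single_of_mem z (Finset.mem_univ _), (D.kl z).co_self, one_mul,
    (D.k1_bar_deg z).2] at a
  · exact zero_ne_one a
  · intro y _ hy
    by_cases h1 : D.co (D.C z) y = 0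
    · rw [h1, zero_mul]; simp
    · have l := ((D.kl z).co_ne _ hy).2 h1
      exact (((D.kl z).np _ y).mul ((D.k1_bar_deg y).1 1)) _ (by omega)

end KD

end

end Pool.Agent.P.MP_1a0ecf_al
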