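import Pool.Agent.P.MP_1a0ecf_al.K1

/-! Package K2: the Kazhdan-Lusztig preorders. -/

namespace Pool.Agent.P.MP_1a0ecf_al

open LaurentPolynomial
open scoped Classical

noncomputable section

variable {X : Cox}

namespace KD

variable (D : KD X)

private theorem repr_mul_left (a b : D.H) (x : X.W) :
    D.C.repr (a * b) x = ∑ u, D.C.repr a u * D.C.repr (D.C u * b) x := by
  conv_lhs => rw [← D.C.sum_repr a]
  simp only [Finset.sum_mul, smul_mul_assoc, map_sum, map_smul, Finsupp.finsetSum_apply,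
    Finsupp.smul_apply, smul_eq_mul]

private theorem repr_mul_right (a b : D.H) (x : X.W) :
    D.C.repr (a * b) x = ∑ u, D.C.repr b u * D.C.repr (a * D.C u) x := by
  conv_lhs => rw [← D.C.sum_repr b]
  simp only [Finset.mul_sum, mul_smul_comm, map_sum, map_smul, Finsupp.finsetSum_apply,
    Finsupp.smul_apply, smul_eq_mul]

private theorem sum_ne {f g : X.W → Lp} (hf : ∀ u, Pos (f u)) (hg : ∀ u, Pos (g u)) {u : X.W}
    (h1 : f u ≠ 0) (h2 : g u ≠ 0) : ∑ u, f u * g u ≠ 0 :=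
  (Pos.sum_ne_zero _ fun u _ => (hf u).mul (hg u)).2 ⟨u, Finset.mem_univ _, mul_ne_zero h1 h2⟩

private theorem of_sum_ne {f g : X.W → Lp} (h : ∑ u, f u * g u ≠ 0) :
    ∃ u, f u ≠ 0 ∧ g u ≠ 0 := by
  obtain ⟨u, -, hu⟩ := Finset.exists_ne_zero_of_sum_ne_zero h
  exact ⟨u, left_ne_zero_of_mul hu, right_ne_zero_of_mul hu⟩

theorem LL_refl (x : X.W) : D.LL x x := by
  refine ⟨1, ?_⟩
  simp [h, D.C_one]

theorem LR_refl (x : X.W) : D.LR x x := by
  refine ⟨1, ?_⟩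
  simp [h, D.C_one]

theorem L2_refl (x : X.W) : D.L2 x x := by
  exact ⟨x, D.LL_refl x, D.LR_refl x⟩

variable {D}

theorem LL.trans {x y z : X.W} (h : D.LL x y) (h' : D.LL y z) : D.LL x z := by
  obtain ⟨w, hw⟩ := h
  obtain ⟨w', hw'⟩ := h'
  have := sum_ne (fun u => D.hpos w u x) (fun u => D.hpos w' z u) hw hw'
  rw [← D.h_assoc] at this
  obtain ⟨u, -, hu⟩ := of_sum_ne this
  exact ⟨u, hu⟩

theorem LR.trans {x y z : X.W} (h : D.LR x y) (h' : D.LR y z) : D.LR x z := by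
  obtain ⟨w, hw⟩ := h
  obtain ⟨w', hw'⟩ := h'
  have := sum_ne (fun u => D.hpos z w' u) (fun u => D.hpos u w x) hw' hw
  rw [D.h_assoc] at this
  obtain ⟨u, hu, -⟩ := of_sum_ne this
  exact ⟨u, hu⟩

theorem LR_iff {x y : X.W} : D.LR x y ↔ D.LL x⁻¹ y⁻¹ := by
  constructor
  · rintro ⟨w, hw⟩
    exact ⟨w⁻¹, by rwa [D.h_inv]⟩
  · rintro ⟨w, hw⟩
    refine ⟨w⁻¹, ?_⟩
    rwa [← D.h_inv, inv_inv]

theorem LL.l2 {x y : X.W} (h : D.LL x y) : D.L2 x y := by
  exact ⟨x, h, D.LR_refl x⟩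

theorem LR.l2 {x y : X.W} (h : D.LR x y) : D.L2 x y := by
  exact ⟨y, D.LL_refl y, h⟩

private theorem swap {x u y : X.W} (h : D.LL x u) (h' : D.LR u y) : D.L2 x y := by
  obtain ⟨w', hw'⟩ := h
  obtain ⟨w, hw⟩ := h'
  have := sum_ne (fun u => D.hpos w' u x) (fun u => D.hpos y w u) hw' hw
  rw [← D.h_assoc] at this
  obtain ⟨u', h1, h2⟩ := of_sum_ne this
  exact ⟨u', ⟨w', h1⟩, ⟨w, h2⟩⟩

theorem L2.trans {x y z : X.W} (h : D.L2 x y) (h' : D.L2 y z) : D.L2 x z := by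
  obtain ⟨u, h1, h2⟩ := h
  obtain ⟨u', h3, h4⟩ := h'
  obtain ⟨u'', h5, h6⟩ := swap h1 h4
  exact ⟨u'', h5.trans h3, h2.trans h6⟩

theorem L2_inv {x y : X.W} : D.L2 x⁻¹ y⁻¹ ↔ D.L2 x y := by
  have key : ∀ x y : X.W, D.L2 x⁻¹ y⁻¹ → D.L2 x y := by
    rintro x y ⟨u, h1, h2⟩
    refine swap (u := u⁻¹) ?_ ?_
    · simpa only [inv_inv] using LR_iff.1 h2
    · exact LR_iff.2 (by rwa [inv_inv])
  exact ⟨key x y, fun h => key _ _ (by rwa [inv_inv, inv_inv])⟩

theorem LL_of_repr {x y : X.W} {a : D.H} (h : D.C.repr (a * D.C y) x ≠ 0) : D.LL x y := by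
  rw [repr_mul_left] at h
  obtain ⟨u, -, hu⟩ := of_sum_ne h
  exact ⟨u, hu⟩

theorem LR_of_repr {x y : X.W} {a : D.H} (h : D.C.repr (D.C y * a) x ≠ 0) : D.LR x y := by
  rw [repr_mul_right] at h
  obtain ⟨u, -, hu⟩ := of_sum_ne h
  exact ⟨u, hu⟩

theorem L2_iff {x y : X.W} : D.L2 x y ↔ ∃ a b : D.H, D.C.repr (a * D.C y * b) x ≠ 0 := by
  constructor
  · rintro ⟨u, ⟨w, hw⟩, ⟨w', hw'⟩⟩
    refine ⟨D.C w, D.C w', ?_⟩
    rw [repr_mul_left]
    exact sum_ne (fun u => D.hpos w y u) (fun u => D.hpos u w' x) hw hw'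
  · rintro ⟨a, b, h⟩
    rw [repr_mul_left] at h
    obtain ⟨u, h1, h2⟩ := of_sum_ne h
    exact ⟨u, LL_of_repr h1, LR_of_repr h2⟩

theorem LL_iff_T {x y : X.W} : D.LL x y ↔ ∃ w, D.tm w x y ≠ 0 := by
  constructor
  · rintro ⟨w, hw⟩
    have e : D.h w y x = ∑ v, D.T.repr (D.C w) v * D.tm v x y := by
      show D.C.repr (D.C w * D.C y) x = _
      conv_lhs => rw [← D.T.sum_repr (D.C w)]
      simp only [Finset.sum_mul, smul_mul_assoc, map_sum, map_smul, Finsupp.finsetSum_apply,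
        Finsupp.smul_apply, smul_eq_mul]
    rw [e] at hw
    obtain ⟨v, -, hv⟩ := of_sum_ne hw
    exact ⟨v, hv⟩
  · rintro ⟨w, hw⟩
    exact LL_of_repr hw

theorem LL_iff_gen {x y : X.W} :
    D.LL x y ↔ Relation.ReflTransGen (fun a b => ∃ i, D.h (X.s i) b a ≠ 0) x y := by
  constructor
  · intro hxy
    obtain ⟨w, hw⟩ := LL_iff_T.1 hxy
    clear hxy
    induction hn : X.len w using Nat.strong_induction_on generalizing w x with
    | _ n ih =>
      by_cases h1 : w = 1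
      · subst h1
        have : y = x := by
          by_contra hc
          apply hw
          simp [tm, D.T_one, hc]
        rw [this]
      · obtain ⟨i, hi⟩ := X.cs.exists_leftDescent_of_ne_one h1
        have hi' : X.len (X.s i * w) < X.len w := hi
        have e : X.s i * (X.s i * w) = w := X.cs.simple_mul_simple_cancel_left i
        have e2 : D.T w = D.T (X.s i) * D.T (X.s i * w) := by
          rw [D.toHk.T_up_left (by rw [e]; exact hi'), e]
        have e3 : D.T (X.s i) = D.C (X.s i) - (LaurentPolynomial.T (-1) : Lp) • (1 : D.H) := by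
          rw [D.C_simple, Hk.Cs, add_sub_cancel_right]
        have hw2 : D.C.repr (D.T (X.s i) * (D.T (X.s i * w) * D.C y)) x ≠ 0 := by
          rw [← mul_assoc, ← e2]; exact hw
        rw [repr_mul_right] at hw2
        obtain ⟨u, hu1, hu2⟩ := of_sum_ne hw2
        have hu := ih _ (hn ▸ hi') (x := u) (X.s i * w) hu1 rfl
        by_cases hux : u = x
        · rw [← hux]; exact hu
        · refine Relation.ReflTransGen.head ⟨i, fun h0 => hu2 ?_⟩ hu
          have h0' : D.C.repr (D.C (X.s i) * D.C u) x = 0 := h0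
          rw [e3, sub_mul, smul_mul_assoc, one_mul, map_sub, Finsupp.sub_apply, h0', map_smul]
          simp [hux]
  · intro hxy
    induction hxy with
    | refl => exact D.LL_refl x
    | tail _ h2 ih =>
      obtain ⟨i, hi⟩ := h2
      exact ih.trans ⟨_, hi⟩

theorem LL_one {y : X.W} (h : D.LL 1 y) : y = 1 := by
  by_contra h1
  obtain ⟨w, hw⟩ := h
  obtain ⟨i, hi⟩ := X.cs.exists_rightDescent_of_ne_one h1
  have hi' : X.len (X.s i * y⁻¹) < X.len y⁻¹ := X.cs.isLeftDescent_inv_iff.2 hi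
  rw [← D.h_inv] at hw
  have := D.desc_of_h hi' hw
  rw [inv_one, show X.len 1 = 0 from X.cs.length_one] at this
  exact Nat.not_lt_zero _ this

theorem L2_one {y : X.W} (h : D.L2 1 y) : y = 1 := by
  obtain ⟨u, h1, h2⟩ := h
  have h3 := LR_iff.1 h2
  rw [inv_one] at h3
  have h4 : u = 1 := inv_eq_one.1 (LL_one h3)
  rw [h4] at h1
  exact LL_one h1

end KD

end

end Pool.Agent.P.MP_1a0ecf_al
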