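import Pool.Agent.P.MP_1a0ecf_al.K2
import Pool.Agent.P.MP_1a0ecf_al.G3

/-! Package K4: duality by the longest element. -/

namespace Pool.Agent.P.MP_1a0ecf_al

open LaurentPolynomial
open scoped Classical

noncomputable section

variable {X : Cox}

/-- the sign as a Laurent polynomial -/
def Cox.sg (X : Cox) (w : X.W) : Lp := (-1) ^ X.len w

private theorem k4_ind {P : X.W → Prop} (h1 : P 1)
    (hs : ∀ x i, X.len x < X.len (x * X.s i) → P x → P (x * X.s i)) (x : X.W) : P x := by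
  induction hn : X.len x using Nat.strong_induction_on generalizing x with
  | _ n ih =>
    by_cases hx : x = 1
    · rw [hx]; exact h1
    · obtain ⟨i, hi⟩ := X.cs.exists_rightDescent_of_ne_one hx
      have hi' : X.len (x * X.s i) < X.len x := hi
      have e : x * X.s i * X.s i = x := X.cs.simple_mul_simple_cancel_right i
      rw [← e]
      refine hs _ i (by rw [e]; exact hi') (ih _ (hn ▸ hi') _ rfl)

private theorem k4_lenR (x : X.W) (i : Fin X.n) :
    X.len (x * X.s i) = X.len x + 1 ∨ X.len (x * X.s i) + 1 = X.len x :=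
  X.cs.length_mul_simple x i

private theorem sg_sq (w : X.W) : X.sg w * X.sg w = 1 := by
  rw [Cox.sg, ← mul_pow]; simp

private theorem sg_invert (w : X.W) : invert (X.sg w) = X.sg w := by
  rw [Cox.sg, map_pow, map_neg, map_one]

private theorem sg_one : X.sg 1 = 1 := by
  rw [Cox.sg, show X.len 1 = 0 from X.cs.length_one, pow_zero]

private theorem sg_inv (w : X.W) : X.sg w⁻¹ = X.sg w := by
  rw [Cox.sg, Cox.sg, Hk.k1_len_inv]

private theorem sg_mul_s (w : X.W) (i : Fin X.n) : X.sg (w * X.s i) = -X.sg w := by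
  rcases k4_lenR w i with h | h
  · rw [Cox.sg, Cox.sg, h, pow_succ, mul_neg_one]
  · rw [Cox.sg, Cox.sg, ← h, pow_succ, mul_neg_one, neg_neg]

private theorem sg_s (i : Fin X.n) : X.sg (X.s i) = -1 := by
  have := sg_mul_s (X := X) 1 i
  rwa [one_mul, sg_one] at this

private theorem sg_mul_w0 (w : X.W) : X.sg (w * X.w0) = X.sg w * X.sg X.w0 := by
  have e : X.sg X.w0 = X.sg (w * X.w0) * X.sg w := by
    rw [Cox.sg, Cox.sg, Cox.sg, ← pow_add, X.len_mul_w0]
  rw [e, mul_left_comm, sg_sq, mul_one]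

private theorem sg_ne (w : X.W) : X.sg w ≠ 0 := left_ne_zero_of_mul_eq_one (sg_sq w)

private theorem sg_deg (w : X.W) : DegLe (X.sg w) 0 := by
  have h1 : DegLe (1 : Lp) 0 := by rw [← T_zero]; exact DegLe.T 0
  rw [Cox.sg]
  rcases neg_one_pow_eq_or Lp (X.len w) with h | h
  · rw [h]; exact h1
  · rw [h]; exact h1.neg

private theorem w0_inv : X.w0⁻¹ = X.w0 := inv_eq_of_mul_eq_one_right X.w0_mul_self

private theorem w0_w0 (x : X.W) : X.w0 * (X.w0 * x) = x := by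
  rw [← mul_assoc, X.w0_mul_self, one_mul]

private theorem w0_w0' (x : X.W) : x * X.w0 * X.w0 = x := by
  rw [mul_assoc, X.w0_mul_self, mul_one]

private theorem conj_conj (x : X.W) : X.w0 * (X.w0 * x * X.w0) * X.w0 = x := by
  rw [mul_assoc X.w0 x, w0_w0, w0_w0']

private theorem len_conj (x : X.W) : X.len (X.w0 * x * X.w0) = X.len x := by
  have h1 := X.len_mul_w0 (X.w0 * x)
  have h2 := X.len_w0_mul x
  omega

private theorem sg_conj (x : X.W) : X.sg (X.w0 * x * X.w0) = X.sg x := by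
  rw [Cox.sg, Cox.sg, len_conj]

namespace Hk

variable (D : Hk X)

private theorem T_mul_bar (w : X.W) : D.T w * D.bar (D.T w⁻¹) = 1 := by
  have := congrArg D.bar (D.bar_T w)
  rwa [map_mul, D.bar_bar, map_one] at this

private theorem bar_mul_T (w : X.W) : D.bar (D.T w⁻¹) * D.T w = 1 := by
  have := D.bar_T w⁻¹
  rwa [inv_inv] at this

private theorem T_w0_bar : D.T X.w0 * D.bar (D.T X.w0) = 1 := by
  have := T_mul_bar D X.w0
  rwa [w0_inv] at this

private theorem bar_T_w0 : D.bar (D.T X.w0) * D.T X.w0 = 1 := by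
  have := bar_mul_T D X.w0
  rwa [w0_inv] at this

private theorem dag_bar {ψ : D.H →ₐ[Lp] D.H} (h1 : ∀ w, ψ (D.T w) = X.sg w • D.bar (D.T w))
    (w : X.W) : ψ (D.bar (D.T w)) = X.sg w • D.T w := by
  have a1 := congrArg ψ (D.bar_T w)
  rw [map_mul, map_one, h1, sg_inv] at a1
  have a2 : (X.sg w • D.bar (D.T w⁻¹)) * (X.sg w • D.T w) = 1 := by
    rw [smul_mul_smul_comm, sg_sq, one_smul, bar_mul_T]
  calc ψ (D.bar (D.T w))
      = ψ (D.bar (D.T w)) * ((X.sg w • D.bar (D.T w⁻¹)) * (X.sg w • D.T w)) := by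
        rw [a2, mul_one]
    _ = _ := by rw [← mul_assoc, a1, one_mul]

private theorem tau_mul_T (a : D.H) (v : X.W) : D.co (a * D.T v) 1 = D.co a v⁻¹ := by
  rw [tau_mul, Finset.sum_eq_single v⁻¹]
  · rw [inv_inv, k1_co_T, if_pos rfl, mul_one]
  · intro w _ hw
    rw [k1_co_T, if_neg, mul_zero]
    intro e
    exact hw (by rw [e, inv_inv])
  · intro h
    exact absurd (Finset.mem_univ _) h

theorem exists_dagger : ∃ ψ : D.H →ₐ[Lp] D.H, (∀ w, ψ (D.T w) = X.sg w • D.bar (D.T w)) ∧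
    (∀ a, ψ (ψ a) = a) ∧ ∀ a, ψ (D.bar a) = D.bar (ψ a) := by
  let φ : D.H →ₗ[Lp] D.H := D.T.constr Lp fun w => X.sg w • D.bar (D.T w)
  have h1 : ∀ w, φ (D.T w) = X.sg w • D.bar (D.T w) := fun w => D.T.constr_basis Lp _ w
  have h2 : ∀ i a, φ (a * D.T (X.s i)) = φ a * φ (D.T (X.s i)) := by
    intro i a
    have : φ ∘ₗ LinearMap.mulRight Lp (D.T (X.s i)) =
        LinearMap.mulRight Lp (φ (D.T (X.s i))) ∘ₗ φ := by
      refine D.T.ext fun x => ?_
      simp only [LinearMap.comp_apply, LinearMap.mulRight_apply, h1]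
      rw [smul_mul_smul_comm, ← map_mul D.bar, sg_s, mul_neg_one]
      rcases k4_lenR x i with h | h
      · rw [D.T_up x i (by omega), h1, sg_mul_s]
      · rw [D.T_down x i (by omega), map_add, map_smul, h1, h1, sg_mul_s, map_add, D.bar_smul,
          map_sub, invert_T, invert_T, neg_neg, smul_add, smul_smul, smul_smul]
        congr 2
        ring
    exact LinearMap.congr_fun this a
  have h0 : φ 1 = 1 := by rw [← D.T_one, h1, sg_one, one_smul, D.T_one, map_one]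
  have h3 : ∀ y a, φ (a * D.T y) = φ a * φ (D.T y) := by
    intro y
    induction y using k4_ind with
    | h1 => intro a; rw [D.T_one, mul_one, h0, mul_one]
    | hs y i hy ih =>
      intro a
      rw [← D.T_up y i hy, ← mul_assoc, h2, ih, h2, mul_assoc]
  have h4 : ∀ a b, φ (a * b) = φ a * φ b := by
    intro a b
    conv_lhs => rw [D.k1_eq_sum b]
    conv_rhs => rw [D.k1_eq_sum b]
    simp only [Finset.mul_sum, mul_smul_comm, map_sum, map_smul, h3]
  let ψ : D.H →ₐ[Lp] D.H := AlgHom.ofLinearMap φ h0 h4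
  have g1 : ∀ w, ψ (D.T w) = X.sg w • D.bar (D.T w) := h1
  have g2 := dag_bar D g1
  refine ⟨ψ, g1, fun a => ?_, fun a => ?_⟩
  · conv_lhs => rw [D.k1_eq_sum a]
    conv_rhs => rw [D.k1_eq_sum a]
    simp only [map_sum, map_smul, g1, g2, smul_smul (X.sg _) (X.sg _), sg_sq, one_smul]
  · conv_lhs => rw [D.k1_eq_sum a]
    conv_rhs => rw [D.k1_eq_sum a]
    simp only [map_sum, map_smul, D.bar_smul, g1, g2, sg_invert, D.bar_bar]

theorem co_bar_w0 (a : D.H) : D.co (D.bar a) X.w0 = invert (D.co a X.w0) := by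
  have e : ∀ x, D.co (D.bar (D.T x)) X.w0 = if x = X.w0 then 1 else 0 := by
    intro x
    rw [← k1_co_T, ← sub_eq_zero, ← k1_co_sub]
    by_contra hc
    have h1 := D.bar_T_tri x X.w0 hc
    have h2 := X.len_mul_w0 x
    omega
  conv_lhs => rw [D.k1_eq_sum a]
  simp only [map_sum, D.bar_smul, k1_co_sum, k1_co_smul, e, mul_ite, mul_one, mul_zero,
    Finset.sum_ite_eq', Finset.mem_univ, if_true]

theorem T_w0_conj (w : X.W) : D.T X.w0 * D.T w = D.T (X.w0 * w * X.w0) * D.T X.w0 := by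
  induction w using k4_ind with
  | h1 => rw [mul_one, X.w0_mul_self, D.T_one, mul_one, one_mul]
  | hs x i hx ih =>
    have l1 : X.len (X.s i) = 1 := X.cs.length_simple i
    obtain ⟨j, hj⟩ : ∃ j, X.w0 * X.s i * X.w0 = X.s j :=
      X.cs.length_eq_one_iff.1 ((len_conj _).trans l1)
    have e : X.s j * X.w0 = X.w0 * X.s i := by rw [← hj, w0_w0']
    have l2 := X.len_w0_mul (X.s i)
    have hs : D.T X.w0 * D.T (X.s i) = D.T (X.s j) * D.T X.w0 := by
      rw [D.T_down X.w0 i (by omega), D.T_down_left (by rw [e]; omega), e]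
    have e2 : X.w0 * x * X.w0 * X.s j = X.w0 * (x * X.s i) * X.w0 := by
      rw [← hj, mul_assoc X.w0 (X.s i), mul_assoc (X.w0 * x), w0_w0, mul_assoc, mul_assoc,
        mul_assoc]
    rw [← D.T_up x i hx, ← mul_assoc, ih, mul_assoc, hs, ← mul_assoc,
      D.T_up _ j (by rw [e2, len_conj, len_conj]; exact hx), e2]

end Hk

namespace KD

variable (D : KD X)

theorem dual_basis {ψ : D.H →ₐ[Lp] D.H} (h1 : ∀ w, ψ (D.T w) = X.sg w • D.bar (D.T w))
    (h2 : ∀ a, ψ (D.bar a) = D.bar (ψ a)) (x y : X.W) :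
    D.co (D.C x * ψ (D.C y) * D.T X.w0) 1 = if y = x⁻¹ * X.w0 then X.sg y else 0 := by
  have hinv : invert (D.co (D.C x * ψ (D.C y) * D.T X.w0) 1) =
      D.co (D.C x * ψ (D.C y) * D.T X.w0) 1 := by
    rw [Hk.tau_mul_T, w0_inv, ← Hk.co_bar_w0, map_mul, ← h2, (D.kl x).1, (D.kl y).1]
  have e1 : ∀ u, D.bar (D.T u) * D.T X.w0 = D.T (u * X.w0) := by
    intro u
    have e : D.T u⁻¹ * D.T (u * X.w0) = D.T X.w0 := by
      have l1 := X.len_mul_w0 u
      have l2 := Hk.k1_len_inv u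
      rw [D.T_mul_of_len (by rw [inv_mul_cancel_left]; omega), inv_mul_cancel_left]
    rw [← e, ← mul_assoc, D.bar_T, one_mul]
  have e2 : D.co (D.C x * ψ (D.C y) * D.T X.w0) 1 =
      ∑ u, D.co (D.C y) u * (X.sg u * D.co (D.C x) (u * X.w0)⁻¹) := by
    rw [mul_assoc]
    conv_lhs => rw [D.k1_eq_sum (D.C y)]
    simp only [map_sum, map_smul, h1, Finset.sum_mul, smul_mul_assoc, e1, Finset.mul_sum,
      mul_smul_comm, Hk.k1_co_sum, Hk.k1_co_smul, Hk.tau_mul_T]
  have hx : ∀ u, (u * X.w0)⁻¹ = x ↔ u = x⁻¹ * X.w0 := by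
    intro u
    constructor
    · rintro rfl
      rw [inv_inv, w0_w0']
    · rintro rfl
      rw [w0_w0', inv_inv]
  rw [← sub_eq_zero]
  refine eq_zero_of_invert ?_ ?_
  · rw [map_sub, hinv]
    split_ifs
    · rw [sg_invert]
    · rw [map_zero]
  · have e3 : (if y = x⁻¹ * X.w0 then X.sg y else 0) =
        ∑ u, if u = y then (if y = x⁻¹ * X.w0 then X.sg y else 0) else 0 := by
      rw [Finset.sum_ite_eq', if_pos (Finset.mem_univ _)]
    rw [e2, e3, ← Finset.sum_sub_distrib]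
    refine DegLe.sum _ fun u _ => ?_
    by_cases hu : u = y
    · subst hu
      rw [if_pos rfl, (D.kl u).co_self, one_mul]
      by_cases hy : u = x⁻¹ * X.w0
      · rw [if_pos hy, (hx u).2 hy, (D.kl x).co_self, mul_one, sub_self]
        exact fun _ _ => rfl
      · rw [if_neg hy, sub_zero]
        exact ((sg_deg u).mul ((D.kl x).co_ne _ fun h => hy ((hx u).1 h)).1).mono (by norm_num)
    · rw [if_neg hu, sub_zero]
      exact (((D.kl y).co_ne _ hu).1.mul ((sg_deg u).mul ((D.kl x).np _ _))).mono (by norm_num)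

private theorem tau_dual {ψ : D.H →ₐ[Lp] D.H} (h1 : ∀ w, ψ (D.T w) = X.sg w • D.bar (D.T w))
    (h2 : ∀ a, ψ (D.bar a) = D.bar (ψ a)) (a : D.H) (z : X.W) :
    D.C.repr a z =
      X.sg (z⁻¹ * X.w0) * D.co (a * ψ (D.C (z⁻¹ * X.w0)) * D.T X.w0) 1 := by
  conv_rhs => rw [← D.C.sum_repr a]
  simp only [Finset.sum_mul, smul_mul_assoc, Hk.k1_co_sum, Hk.k1_co_smul, D.dual_basis h1 h2,
    mul_left_inj, inv_inj, mul_ite, mul_zero, Finset.sum_ite_eq, Finset.mem_univ, if_true]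
  rw [mul_left_comm, sg_sq, mul_one]

private theorem tau_dual' {ψ : D.H →ₐ[Lp] D.H} (h1 : ∀ w, ψ (D.T w) = X.sg w • D.bar (D.T w))
    (h2 : ∀ a, ψ (D.bar a) = D.bar (ψ a)) (x : X.W) (b : D.H) :
    D.co (D.C x * ψ b * D.T X.w0) 1 = D.C.repr b (x⁻¹ * X.w0) * X.sg (x⁻¹ * X.w0) := by
  conv_lhs => rw [← D.C.sum_repr b]
  simp only [map_sum, map_smul, Finset.sum_mul, Finset.mul_sum, smul_mul_assoc, mul_smul_comm,
    Hk.k1_co_sum, Hk.k1_co_smul, D.dual_basis h1 h2, mul_ite, mul_zero, Finset.sum_ite_eq',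
    Finset.mem_univ, if_true]

private theorem repr_flat (y v u : X.W) : D.C.repr (D.C y * D.T v) u = D.tm v⁻¹ u⁻¹ y⁻¹ := by
  obtain ⟨φ, h1, h3, h2⟩ := D.exists_flat
  rw [tm, ← D.flat_C h1 h2, ← h1, ← h3]
  generalize D.C y * D.T v = a
  conv_rhs => rw [← D.C.sum_repr a]
  simp only [map_sum, map_smul, Finsupp.finsetSum_apply, Finsupp.smul_apply, smul_eq_mul,
    D.flat_C h1 h2, Module.Basis.repr_self, Finsupp.single_apply, inv_inj, mul_ite, mul_one,
    mul_zero, Finset.sum_ite_eq', Finset.mem_univ, if_true]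

theorem tm_dual (w z x : X.W) : D.tm w z x = X.sg w * X.sg z * X.sg x *
    invert (D.tm (X.w0 * w⁻¹ * X.w0) (X.w0 * x) (X.w0 * z)) := by
  obtain ⟨ψ, h1, -, h2⟩ := D.exists_dagger
  have e1 : D.T (X.w0 * w * X.w0) = X.sg w • ψ (D.bar (D.T (X.w0 * w * X.w0))) := by
    rw [Hk.dag_bar _ h1, sg_conj, smul_smul, sg_sq, one_smul]
  have e2 : D.co (D.T w * D.C x * ψ (D.C (z⁻¹ * X.w0)) * D.T X.w0) 1 = X.sg w *
      D.co (D.C x * ψ (D.bar (D.C (z⁻¹ * X.w0) * D.T (X.w0 * w * X.w0))) * D.T X.w0) 1 := by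
    rw [map_mul D.bar, (D.kl _).1, map_mul ψ, ← Hk.k1_co_smul, ← smul_mul_assoc, ← mul_smul_comm,
      ← mul_smul_comm, ← e1, mul_assoc (D.T w), mul_assoc (D.T w), Hk.tau_comm,
      mul_assoc _ (D.T X.w0), D.T_w0_conj]
    simp only [mul_assoc]
  rw [tm, tau_dual D h1 h2, e2, tau_dual' D h1 h2, repr_bar, repr_flat, sg_mul_w0, sg_mul_w0,
    sg_inv, sg_inv]
  simp only [mul_inv_rev, inv_inv, w0_inv, ← mul_assoc X.w0]
  linear_combination (X.sg w * X.sg z * X.sg x *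
    invert (D.tm (X.w0 * w⁻¹ * X.w0) (X.w0 * x) (X.w0 * z))) * sg_sq (X := X) X.w0

theorem repr_T_w0 (u : X.W) : D.C.repr (D.T X.w0) u = X.sg (u⁻¹ * X.w0) * D.p 1 (u⁻¹ * X.w0) := by
  obtain ⟨ψ, h1, -, h2⟩ := D.exists_dagger
  have e1 : ∀ y, D.co (ψ (D.C y)) 1 = invert (D.p 1 y) := by
    intro y
    conv_lhs => rw [← (D.kl y).1, D.k1_eq_sum (D.C y)]
    simp only [map_sum, map_smul, D.bar_smul, Hk.dag_bar _ h1, Hk.k1_co_sum, Hk.k1_co_smul,
      Hk.k1_co_T, mul_ite, mul_one, mul_zero, Finset.sum_ite_eq', Finset.mem_univ, if_true, sg_one]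
  have e2 := tau_dual D h1 h2 (D.bar (D.T X.w0)) u
  rw [mul_assoc, Hk.tau_comm, mul_assoc, Hk.T_w0_bar, mul_one, e1, repr_bar] at e2
  have e3 := congrArg invert e2
  rwa [map_mul, involutive_invert, involutive_invert, sg_invert] at e3

theorem LL_w0 (z x : X.W) : D.LL z x ↔ D.LL (X.w0 * x) (X.w0 * z) := by
  have key : ∀ z x, D.LL z x → D.LL (X.w0 * x) (X.w0 * z) := by
    intro z x h
    obtain ⟨w, hw⟩ := LL_iff_T.1 h
    refine LL_iff_T.2 ⟨X.w0 * w⁻¹ * X.w0, fun h0 => hw ?_⟩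
    rw [D.tm_dual, h0, map_zero, mul_zero]
  refine ⟨key z x, fun h => ?_⟩
  have := key _ _ h
  rwa [w0_w0, w0_w0] at this

private theorem T_w0_C (x : X.W) : D.T X.w0 * D.C x = D.C (X.w0 * x * X.w0) * D.T X.w0 := by
  let θ : D.H →ₗ[Lp] D.H := D.T.constr Lp fun w => D.T (X.w0 * w * X.w0)
  have h1 : ∀ w, θ (D.T w) = D.T (X.w0 * w * X.w0) := fun w => D.T.constr_basis Lp _ w
  have h2 : ∀ a, D.T X.w0 * a = θ a * D.T X.w0 := by
    intro a
    conv_lhs => rw [D.k1_eq_sum a]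
    conv_rhs => rw [D.k1_eq_sum a]
    simp only [map_sum, map_smul, h1, Finset.mul_sum, Finset.sum_mul, mul_smul_comm,
      smul_mul_assoc, D.T_w0_conj]
  have h3 : ∀ a, θ (θ a) = a := by
    intro a
    conv_lhs => rw [D.k1_eq_sum a]
    conv_rhs => rw [D.k1_eq_sum a]
    simp only [map_sum, map_smul, h1, conj_conj]
  have h4 : ∀ a, θ (D.bar a) = D.bar (θ a) := by
    intro a
    have a1 := congrArg D.bar (h2 (θ a))
    rw [h3, map_mul, map_mul] at a1
    calc θ (D.bar a) = θ (D.bar a) * (D.T X.w0 * D.bar (D.T X.w0)) := by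
          rw [Hk.T_w0_bar, mul_one]
      _ = D.T X.w0 * (D.bar a * D.bar (D.T X.w0)) := by rw [← mul_assoc, ← h2, mul_assoc]
      _ = D.bar (θ a) := by rw [← a1, ← mul_assoc, Hk.T_w0_bar, one_mul]
  have h5 : ∀ a w, D.co (θ a) w = D.co a (X.w0 * w * X.w0) := by
    intro a w
    have e : ∀ u, X.w0 * u * X.w0 = w ↔ u = X.w0 * w * X.w0 := fun u =>
      ⟨fun h => by rw [← h, conj_conj], fun h => by rw [h, conj_conj]⟩
    conv_lhs => rw [D.k1_eq_sum a]
    simp only [map_sum, map_smul, h1, Hk.k1_co_sum, Hk.k1_co_smul, Hk.k1_co_T, e, mul_ite,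
      mul_one, mul_zero, Finset.sum_ite_eq', Finset.mem_univ, if_true]
  have h6 : θ (D.C x) = D.C (X.w0 * x * X.w0) := by
    refine D.klel_unique ⟨by rw [← h4, (D.kl x).1], fun w => ?_, fun w hw => ?_⟩ (D.kl _)
    · rw [← h1, ← map_sub, h5]
      exact (D.kl x).2.1 _
    · rw [← h1, ← map_sub, h5] at hw
      have := (D.kl x).2.2 _ hw
      rwa [len_conj, ← len_conj x] at this
  rw [h2, h6]

private theorem LR_conj {x y : X.W} (h : D.LR x y) :
    D.LR (X.w0 * x * X.w0) (X.w0 * y * X.w0) := by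
  obtain ⟨w, hw⟩ := h
  refine LR_of_repr (a := D.T X.w0 * (D.C w * D.bar (D.T X.w0))) ?_
  have e : ∀ u, D.T X.w0 * (D.C u * D.bar (D.T X.w0)) = D.C (X.w0 * u * X.w0) := by
    intro u
    rw [← mul_assoc, T_w0_C, mul_assoc, Hk.T_w0_bar, mul_one]
  have e2 : D.C (X.w0 * y * X.w0) * (D.T X.w0 * (D.C w * D.bar (D.T X.w0))) =
      ∑ u, D.h y w u • D.C (X.w0 * u * X.w0) := by
    rw [← mul_assoc, ← T_w0_C, mul_assoc, ← mul_assoc (D.C y)]
    conv_lhs => rw [← D.C.sum_repr (D.C y * D.C w)]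
    simp only [Finset.sum_mul, Finset.mul_sum, smul_mul_assoc, mul_smul_comm, e]
  rw [e2]
  simpa only [map_sum, map_smul, Finsupp.finsetSum_apply, Finsupp.smul_apply, smul_eq_mul,
    Module.Basis.repr_self, Finsupp.single_apply, mul_left_inj, mul_right_inj, mul_ite, mul_one,
    mul_zero, Finset.sum_ite_eq', Finset.mem_univ, if_true] using hw

theorem L2_w0 (z x : X.W) : D.L2 z x ↔ D.L2 (X.w0 * x) (X.w0 * z) := by
  have key : ∀ z x, D.L2 z x → D.L2 (X.w0 * x) (X.w0 * z) := by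
    rintro z x ⟨u, h1, h2⟩
    have h3 := (D.LL_w0 _ _).1 (LR_iff.1 h2)
    have h4 : D.LR (u * X.w0) (z * X.w0) := LR_iff.2 (by
      rwa [mul_inv_rev, mul_inv_rev, w0_inv])
    have h5 := LR_conj D h4
    rw [← mul_assoc, ← mul_assoc, w0_w0', w0_w0'] at h5
    exact ((D.LL_w0 _ _).1 h1).l2.trans h5.l2
  refine ⟨key z x, fun h => ?_⟩
  have := key _ _ h
  rwa [w0_w0, w0_w0] at this

end KD

end

end Pool.Agent.P.MP_1a0ecf_al
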