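import Pool.Agent.P.MP_1a0ecf_al.K3
import Pool.Agent.P.MP_1a0ecf_al.K4

/-! Package K5: the sum of the reflections acts by a scalar on a two-sided cell. -/

namespace Pool.Agent.P.MP_1a0ecf_al

open LaurentPolynomial
open scoped Classical

noncomputable section

variable {X : Cox}

namespace K5

abbrev q : Lp := T 1 - T (-1)

theorem ev1_q : ev1 q = 0 := by rw [map_sub, ev1_T, ev1_T, sub_self]

theorem q_ne : q ≠ 0 := fun h => by
  have h1 : (T 1 : Lp).coeff 1 = (T (-1) : Lp).coeff 1 := by rw [sub_eq_zero.1 h]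
  rw [T_apply, T_apply] at h1
  simp at h1

theorem T_two (m : ℤ) : ∃ g : Lp, T (m + m) = 1 + q * g ∧ ev1 g = m := by
  have step : ∀ (m e : ℤ) (g k : Lp), T (m + m) = 1 + q * g → T (e + e) = 1 + q * k →
      (T (m + e + (m + e)) : Lp) = 1 + q * (g + k + q * g * k) := fun m e g k h h' => by
    rw [show m + e + (m + e) = m + m + (e + e) by ring, T_add, h, h']; ring
  have e0 : (T 1 * T (-1) : Lp) = 1 := by rw [← T_add]; simp
  induction m using Int.induction_on with
  | zero => exact ⟨0, by simp, by simp⟩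
  | succ m ih =>
    obtain ⟨g, h1, h2⟩ := ih
    refine ⟨_, step _ 1 g (T 1) h1 (by rw [T_add]; linear_combination e0), ?_⟩
    simp [h2, ev1_T]
  | pred m ih =>
    obtain ⟨g, h1, h2⟩ := ih
    refine ⟨_, step _ (-1) g (-T (-1)) h1 (by rw [T_add]; linear_combination e0), ?_⟩
    simp [h2, ev1_T, sub_eq_add_neg]

/-- a monomial of exponent `m` -/
def Mon (r : Lp) (m : ℤ) : Prop := ∃ c : ℤ, r = C c * T m

theorem Mon.mul {r r' : Lp} {m m' : ℤ} (h : Mon r m) (h' : Mon r' m') : Mon (r * r') (m + m') := by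
  obtain ⟨c, rfl⟩ := h
  obtain ⟨c', rfl⟩ := h'
  exact ⟨c * c', by rw [map_mul, T_add]; ring⟩

theorem Mon.sum {α : Type} (s : Finset α) {r : α → Lp} {m : ℤ} (h : ∀ a, r a ≠ 0 → Mon (r a) m) :
    Mon (∑ a ∈ s, r a) m := by
  refine Finset.sum_induction r (Mon · m) ?_ ⟨0, by simp⟩ fun a _ => ?_
  · rintro _ _ ⟨c, rfl⟩ ⟨c', rfl⟩
    exact ⟨c + c', by rw [map_add]; ring⟩
  · by_cases e : r a = 0
    · exact ⟨0, by simp [e]⟩
    · exact h a e

theorem mon_of {r : Lp} {m : ℤ} (h : DegLe r m) (h' : DegLe (invert r) (-m)) : Mon r m := by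
  refine ⟨r.coeff m, LaurentPolynomial.ext fun k => ?_⟩
  rw [← single_eq_C_mul_T, AddMonoidAlgebra.coeff_single, Finsupp.single_apply]
  split_ifs with e
  · rw [e]
  · rcases lt_or_gt_of_ne e with c | c
    · exact h k c
    · have := h' (-k) (by omega)
      rwa [coeff_invert, neg_neg] at this

theorem sg_mul {r : Lp} {m : ℤ} (w : X.W) (h : DegLe r m) : DegLe (X.sg w * r) m := by
  rcases neg_one_pow_eq_or Lp (X.len w) with e | e <;> rw [Cox.sg, e]
  · rwa [one_mul]
  · rw [neg_one_mul]; exact h.neg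

theorem invert_sg (w : X.W) : invert (X.sg w) = X.sg w := by simp [Cox.sg]

theorem expand (D : Hk X) (l : List (Fin X.n)) (h : X.cs.IsReduced l) :
    ∃ r : D.H, D.T (X.cs.wordProd l) * D.T (X.cs.wordProd l)⁻¹ =
      1 + q • ((X.cs.leftInvSeq l).map D.T).sum + (q * q) • r := by
  induction l with
  | nil => exact ⟨0, by simp [D.T_one]⟩
  | cons i l ih =>
    have h1 : X.cs.IsReduced l := h.drop 1
    obtain ⟨r, hr⟩ := ih h1
    have h2 : X.len (X.cs.wordProd l) < X.len (X.s i * X.cs.wordProd l) := by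
      have := h.eq
      rw [X.cs.wordProd_cons] at this
      rw [Cox0.len, Cox0.len, this, h1.eq]
      exact Nat.lt_succ_self _
    have h3 : X.len (X.cs.wordProd l)⁻¹ < X.len ((X.cs.wordProd l)⁻¹ * X.s i) := by
      rwa [Cox0.s, ← X.cs.inv_simple i, ← mul_inv_rev, Cox0.len, Cox0.len, X.cs.length_inv,
        X.cs.length_inv]
    have h4 := D.T_down (X.s i) i (by rw [X.cs.simple_mul_simple_self]; simp [Cox0.len])
    rw [X.cs.simple_mul_simple_self, D.T_one] at h4
    have h5 : ∀ L : List X.W, ∃ a : D.H, D.T (X.s i) * (L.map D.T).sum * D.T (X.s i) =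
        ((L.map (MulAut.conj (X.s i))).map D.T).sum + q • a := fun L => by
      induction L with
      | nil => exact ⟨0, by simp⟩
      | cons t L ih =>
        obtain ⟨a, ha⟩ := ih
        obtain ⟨b, hb⟩ := D.T_mul_T_mod (X.s i) t
        obtain ⟨c, hc⟩ := D.T_mul_T_mod (X.s i * t) (X.s i)
        refine ⟨a + b * D.T (X.s i) + c, ?_⟩
        simp only [List.map_cons, List.sum_cons, MulAut.conj_apply, X.cs.inv_simple]
        rw [mul_add, add_mul, ha, hb, add_mul, hc, smul_mul_assoc, smul_add, smul_add]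
        abel
    obtain ⟨a, ha⟩ := h5 (X.cs.leftInvSeq l)
    refine ⟨a + D.T (X.s i) * r * D.T (X.s i), ?_⟩
    rw [X.cs.wordProd_cons, mul_inv_rev, X.cs.inv_simple, ← D.T_up_left h2, ← D.T_up _ _ h3,
      ← mul_assoc, mul_assoc (D.T (X.s i)), hr, CoxeterSystem.leftInvSeq, List.map_cons,
      List.sum_cons, mul_add, mul_add, add_mul, add_mul, mul_one, h4, mul_smul_comm,
      smul_mul_assoc, ha, mul_smul_comm, smul_mul_assoc, smul_add, smul_add, smul_add, smul_smul]
    abel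

theorem repr_mul (D : KD X) (a b : D.H) (z : X.W) :
    D.C.repr (a * b) z = ∑ y, D.C.repr (a * D.C y) z * D.C.repr b y := by
  conv_lhs => rw [← D.C.sum_repr b, Finset.mul_sum, map_sum, Finsupp.finsetSum_apply]
  exact Finset.sum_congr rfl fun y _ => by
    rw [mul_smul_comm, map_smul, Finsupp.smul_apply, smul_eq_mul, mul_comm]

theorem repr_mul' (D : KD X) (a b : D.H) (z : X.W) :
    D.C.repr (a * b) z = ∑ y, D.C.repr a y * D.C.repr (D.C y * b) z := by
  conv_lhs => rw [← D.C.sum_repr a, Finset.sum_mul, map_sum, Finsupp.finsetSum_apply]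
  exact Finset.sum_congr rfl fun y _ => by
    rw [smul_mul_assoc, map_smul, Finsupp.smul_apply, smul_eq_mul]

end K5

open K5 in
theorem KD.exists_alpha (D : KD X) : ∃ α : X.W → ℤ, (∀ z z', D.L2 z' z → α z ≤ α z') ∧
    (∀ z z', D.L2 z' z → α z' = α z → D.L2 z z') ∧
    ∀ x z, D.L2 x z → D.L2 z x →
      ∑ t ∈ X.refls, ev1 (D.tm t z x) = if z = x then (α x : ℂ) else 0 := by
  obtain ⟨a, a1, a2, a3, a4, -, a6⟩ := D.exists_a
  have w1 : X.w0⁻¹ = X.w0 := inv_eq_of_mul_eq_one_right X.w0_mul_self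
  have a5 : ∀ z z', D.L2 z' z → a (X.w0 * z') ≤ a (X.w0 * z) :=
    fun z z' h => a4 _ _ ((D.L2_w0 _ _).1 h)
  obtain ⟨α, hα⟩ : ∃ α : X.W → ℤ, ∀ z, α z = a z - a (X.w0 * z) := ⟨_, fun _ => rfl⟩
  have b1 : ∀ z z', D.L2 z' z → α z ≤ α z' := fun z z' h => by
    rw [hα, hα]; linarith [a4 _ _ h, a5 _ _ h]
  have d1 : ∀ z x, DegLe (D.tm X.w0 z x) (α z) := fun z x => by
    rw [KD.tm, repr_mul']
    refine DegLe.sum _ fun u _ => ?_
    by_cases e : D.h u x z = 0
    · rw [show D.C.repr (D.C u * D.C x) z = 0 from e, mul_zero]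
      exact fun _ _ => by simp
    · have e1 := a5 _ _ (KD.LR.l2 ⟨x, e⟩)
      have e2 := a3 (X.w0 * u)
      rw [mul_inv_rev, w1] at e2
      rw [D.repr_T_w0]
      exact ((sg_mul _ (a2 _)).mul (a1 u x z)).mono (by rw [hα]; linarith)
  have d2 : ∀ z x, D.L2 x z → D.L2 z x → Mon (D.tm X.w0 z x) (α x) := fun z x h h' => by
    refine mon_of ((d1 z x).mono (b1 _ _ h)) ?_
    rw [D.tm_dual, map_mul, map_mul, map_mul, invert_sg, invert_sg, invert_sg, involutive_invert,
      mul_inv_cancel, one_mul, mul_assoc, mul_assoc]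
    refine sg_mul _ (sg_mul _ (sg_mul _ ((d1 _ _).mono ?_)))
    rw [hα, hα, ← mul_assoc, X.w0_mul_self, one_mul, neg_sub]
  refine ⟨α, b1, fun z z' h e => a6 z z' h ?_, fun x z h h' => ?_⟩
  · rw [hα, hα] at e
    linarith [a4 _ _ h, a5 _ _ h]
  have d3 : Mon (D.C.repr (D.T X.w0 * (D.T X.w0 * D.C x)) z) (α x + α x) := by
    rw [repr_mul]
    refine Mon.sum _ fun y hy => ?_
    have e1 := (KD.LL_of_repr (left_ne_zero_of_mul hy)).l2
    have e2 := (KD.LL_of_repr (right_ne_zero_of_mul hy)).l2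
    have e3 := d2 z y (e2.trans h) e1
    rw [le_antisymm (b1 _ _ (h.trans e1)) (b1 _ _ e2)] at e3
    exact e3.mul (d2 y x (h.trans e1) e2)
  obtain ⟨c, hc⟩ := d3
  obtain ⟨l, l1, l2⟩ := X.cs.exists_isReduced X.w0
  obtain ⟨r, hr⟩ := expand D.toHk l l1
  obtain ⟨g, g1, g2⟩ := T_two (α x)
  rw [← List.sum_toFinset _ l1.nodup_leftInvSeq, X.leftInvSeq_w0 l1 l2.symm, ← l2, w1] at hr
  rw [← mul_assoc, hr, g1] at hc
  simp only [add_mul, one_mul, smul_mul_assoc, Finset.sum_mul, map_add, map_smul, map_sum,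
    Finsupp.add_apply, Finsupp.smul_apply, Finsupp.finsetSum_apply, smul_eq_mul,
    Module.Basis.repr_self, Finsupp.single_apply] at hc
  have c1 := congrArg ev1 hc
  simp only [map_add, map_mul, ev1_q, zero_mul, add_zero, map_one, mul_one] at c1
  have c2 : ev1 (LaurentPolynomial.C c) = c := by simp [ev1]
  have c3 : (if x = z then 1 else 0 : Lp) = LaurentPolynomial.C c := by
    rw [c2] at c1
    split_ifs at c1 ⊢
    · rw [map_one] at c1
      rw [show c = 1 by exact_mod_cast c1.symm, map_one]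
    · rw [map_zero] at c1
      rw [show c = 0 by exact_mod_cast c1.symm, map_zero]
  have c4 : ∑ t ∈ X.refls, D.tm t z x + q * D.C.repr (r * D.C x) z = LaurentPolynomial.C c * g :=
    mul_left_cancel₀ q_ne (by rw [c3] at hc; linear_combination hc)
  have c5 := congrArg ev1 c4
  rw [map_add, map_mul, ev1_q, zero_mul, add_zero, map_sum, map_mul, g2, ← c3] at c5
  rw [c5]
  by_cases e : z = x
  · simp [e]
  · simp [e, Ne.symm e]

end

end Pool.Agent.P.MP_1a0ecf_al
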