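import Pool.Agent.P.MP_1a0ecf_al.K5
import Pool.Agent.P.MP_1a0ecf_al.T1

/-! Package K6: cell modules. -/

namespace Pool.Agent.P.MP_1a0ecf_al

open LaurentPolynomial
open scoped Classical

noncomputable section

variable {X : Cox}

private theorem ev1_q : ev1 (T 1 - T (-1)) = 0 := by rw [map_sub, ev1_T, ev1_T, sub_self]

private theorem ev1_sg (w : X.W) : ev1 (X.sg w) = X.sgn w := by simp [Cox.sg, Cox0.sgn]

private theorem sgn_mul_self (w : X.W) : X.sgn w * X.sgn w = 1 := by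
  rw [Cox0.sgn, ← mul_pow]
  simp

namespace Hk

variable (D : Hk X)

/-- specialisation `v = 1` of the Hecke algebra -/
private def sp : D.H →+ MonoidAlgebra ℂ X.W where
  toFun a := ∑ w, ev1 (D.co a w) • MonoidAlgebra.of ℂ X.W w
  map_zero' := by simp [co]
  map_add' a b := by
    simp only [co, map_add, Finsupp.add_apply, add_smul, Finset.sum_add_distrib]

private theorem sp_apply (a : D.H) : D.sp a = ∑ w, ev1 (D.co a w) • MonoidAlgebra.of ℂ X.W w := rfl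

private theorem sp_smul (r : Lp) (a : D.H) : D.sp (r • a) = ev1 r • D.sp a := by
  simp only [sp_apply, co, map_smul, Finsupp.smul_apply, smul_eq_mul, map_mul, mul_smul,
    Finset.smul_sum]

private theorem sp_T (w : X.W) : D.sp (D.T w) = MonoidAlgebra.of ℂ X.W w := by
  rw [sp_apply, Finset.sum_eq_single w]
  · simp [co]
  · intro b _ hb
    simp [co, hb]
  · simp

private theorem sp_T_T (w w' : X.W) :
    D.sp (D.T w * D.T w') = MonoidAlgebra.of ℂ X.W w * MonoidAlgebra.of ℂ X.W w' := by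
  obtain ⟨a, ha⟩ := D.T_mul_T_mod w w'
  rw [ha, map_add, sp_smul, ev1_q, zero_smul, add_zero, sp_T, map_mul]

private theorem sp_T_mul (w : X.W) (a : D.H) : D.sp (D.T w * a) = MonoidAlgebra.of ℂ X.W w * D.sp a := by
  conv_lhs => rw [← D.T.sum_repr a]
  simp only [Finset.mul_sum, map_sum, mul_smul_comm, sp_smul, sp_T_T, D.sp_apply a]

private theorem sp_mul_T (w : X.W) (a : D.H) : D.sp (a * D.T w) = D.sp a * MonoidAlgebra.of ℂ X.W w := by
  conv_lhs => rw [← D.T.sum_repr a]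
  simp only [Finset.sum_mul, map_sum, smul_mul_assoc, sp_smul, sp_T_T, D.sp_apply a]

end Hk

namespace KD

variable (D : KD X)

private theorem repr_mul_left (a b : D.H) (z : X.W) :
    D.C.repr (a * b) z = ∑ y, D.C.repr (a * D.C y) z * D.C.repr b y := by
  conv_lhs => rw [← D.C.sum_repr b]
  simp only [Finset.mul_sum, mul_smul_comm, map_sum, map_smul, Finsupp.finsetSum_apply,
    Finsupp.smul_apply, smul_eq_mul, mul_comm]

private theorem repr_mul_right (a b : D.H) (z : X.W) :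
    D.C.repr (a * b) z = ∑ y, D.C.repr (D.C y * b) z * D.C.repr a y := by
  conv_lhs => rw [← D.C.sum_repr a]
  simp only [Finset.sum_mul, smul_mul_assoc, map_sum, map_smul, Finsupp.finsetSum_apply,
    Finsupp.smul_apply, smul_eq_mul, mul_comm]

theorem mC_one (z x : X.W) : ev1 (D.tm 1 z x) = if z = x then 1 else 0 := by
  rw [tm, D.T_one, one_mul, D.C.repr_self, Finsupp.single_apply]
  by_cases h : z = x
  · simp [h]
  · simp [h, Ne.symm h]

theorem mC_mul (w w' z x : X.W) :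
    ev1 (D.tm (w * w') z x) = ∑ y, ev1 (D.tm w z y) * ev1 (D.tm w' y x) := by
  obtain ⟨a, ha⟩ := D.T_mul_T_mod w w'
  have h := congrArg ev1 (D.repr_mul_left (D.T w) (D.T w' * D.C x) z)
  rw [← mul_assoc, ha, add_mul, smul_mul_assoc, map_add, map_smul, Finsupp.add_apply,
    Finsupp.smul_apply, smul_eq_mul, map_add, map_mul ev1, ev1_q, zero_mul, add_zero,
    map_sum] at h
  simpa only [map_mul] using h

/-- convex sets for the left preorder -/
def Cvx (S : Finset X.W) : Prop := ∀ x ∈ S, ∀ z ∈ S, ∀ y, D.LL x y → D.LL y z → y ∈ S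

private theorem mem_lc {D : KD X} {x y : X.W} : y ∈ D.lc x ↔ D.LL y x ∧ D.LL x y := by simp [lc]

private theorem mem_tc {D : KD X} {x y : X.W} : y ∈ D.tc x ↔ D.L2 y x ∧ D.L2 x y := by simp [tc]

theorem cvx_lc (x : X.W) : D.Cvx (D.lc x) := fun _ ha _ hb _ h h' =>
  mem_lc.2 ⟨h'.trans (mem_lc.1 hb).1, (mem_lc.1 ha).2.trans h⟩

theorem cvx_tc (x : X.W) : D.Cvx (D.tc x) := fun _ ha _ hb _ h h' =>
  mem_tc.2 ⟨h'.l2.trans (mem_tc.1 hb).1, (mem_tc.1 ha).2.trans h.l2⟩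

private theorem self_mem_lc (x : X.W) : x ∈ D.lc x := mem_lc.2 ⟨D.LL_refl x, D.LL_refl x⟩

variable {D}

private theorem lc_eq {x y : X.W} (h : y ∈ D.lc x) : D.lc y = D.lc x := by
  obtain ⟨h1, h2⟩ := mem_lc.1 h
  ext z
  rw [mem_lc, mem_lc]
  exact ⟨fun h => ⟨h.1.trans h1, h2.trans h.2⟩, fun h => ⟨h.1.trans h2, h1.trans h.2⟩⟩

private theorem ne_of_ev1 {r : Lp} (h : ev1 r ≠ 0) : r ≠ 0 := fun e => h (by rw [e, map_zero])

private theorem LL_of_ev1 {w x y : X.W} (h : ev1 (D.tm w x y) ≠ 0) : D.LL x y :=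
  LL_of_repr (ne_of_ev1 h)

private theorem sum_coe {S : Finset X.W} {f : X.W → ℂ} (h : ∀ y, f y ≠ 0 → y ∈ S) :
    ∑ y : S, f y = ∑ y, f y := by
  rw [Finset.sum_coe_sort S f]
  exact Finset.sum_subset (Finset.subset_univ _) fun y _ hy => by_contra fun e => hy (h y e)

theorem Cvx.exists_rep {S : Finset X.W} (h : D.Cvx S) : ∃ ρ : X.W →* Matrix S S ℂ,
    ∀ w z x, ρ w z x = ev1 (D.tm w z x) := by
  refine ⟨⟨⟨fun w => Matrix.of fun z x => ev1 (D.tm w z x), ?_⟩, fun w w' => ?_⟩,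
    fun _ _ _ => rfl⟩
  · ext z x
    simp only [Matrix.of_apply, mC_one, Matrix.one_apply, Subtype.ext_iff]
  · ext z x
    simp only [Matrix.of_apply, Matrix.mul_apply]
    rw [mC_mul, ← sum_coe (S := S)]
    intro y hy
    exact h z z.2 x x.2 y (LL_of_ev1 (left_ne_zero_of_mul hy)) (LL_of_ev1 (right_ne_zero_of_mul hy))

private theorem Cvx.exists_tau {S : Finset X.W} (h : D.Cvx S) : ∃ τ : Representation ℂ X.W (S → ℂ),
    τ.character = D.ch S ∧ ∀ w v x, τ w v x = ∑ y : S, ev1 (D.tm w x y) * v y := by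
  obtain ⟨ρ, hρ⟩ := h.exists_rep
  refine ⟨(Matrix.toLinAlgEquiv' (R := ℂ) (n := S)).toAlgHom.toMonoidHom.comp ρ, ?_,
    fun w v x => ?_⟩
  · funext w
    change LinearMap.trace ℂ _ (Matrix.toLin' (ρ w)) = _
    rw [Matrix.trace_toLin'_eq, ch, ← Finset.sum_coe_sort S]
    simp only [Matrix.trace, Matrix.diag, hρ]
  · change Matrix.toLin' (ρ w) v x = _
    simp only [Matrix.toLin'_apply, Matrix.mulVec, dotProduct, hρ]

theorem Cvx.isCh {S : Finset X.W} (h : D.Cvx S) : IsCh (D.ch S) := by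
  obtain ⟨τ, h1, -⟩ := h.exists_tau
  exact h1 ▸ isCh_rep τ

theorem Cvx.occurs_iff {S : Finset X.W} (h : D.Cvx S) {d : ℕ}
    (π : Representation ℂ X.W (Fin d → ℂ)) :
    (∃ f : (Fin d → ℂ) →ₗ[ℂ] X.W → ℂ, f ≠ 0 ∧ (∀ v y, y ∉ S → f v y = 0) ∧
      ∀ w v, ∀ x ∈ S, f (π w v) x = ∑ y, ev1 (D.tm w x y) * f v y) ↔
      ip (D.ch S) π.character ≠ 0 := by
  obtain ⟨τ, h1, h2⟩ := h.exists_tau
  rw [← h1, ← exists_hom_iff π τ]
  constructor
  · rintro ⟨f, f0, f1, f2⟩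
    refine ⟨(LinearMap.funLeft ℂ ℂ Subtype.val).comp f, fun e => f0 ?_, fun w v => ?_⟩
    · refine LinearMap.ext fun v => funext fun y => ?_
      by_cases hy : y ∈ S
      · exact congrFun (LinearMap.congr_fun e v) ⟨y, hy⟩
      · exact f1 v y hy
    · funext x
      rw [h2]
      exact (f2 w v x x.2).trans (sum_coe (f := fun y => ev1 (D.tm w x y) * f v y) fun y hy =>
        by_contra fun e => right_ne_zero_of_mul hy (f1 v y e)).symm
  · rintro ⟨g, g0, g1⟩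
    let f : (Fin d → ℂ) →ₗ[ℂ] X.W → ℂ :=
      LinearMap.pi fun y => if hy : y ∈ S then (LinearMap.proj ⟨y, hy⟩).comp g else 0
    have f1 : ∀ v (y : S), f v y = g v y := fun v y => by simp [f]
    have f2 : ∀ v y, y ∉ S → f v y = 0 := fun v y hy => by simp [f, hy]
    refine ⟨f, fun e => g0 ?_, f2, fun w v x hx => ?_⟩
    · refine LinearMap.ext fun v => funext fun y => ?_
      rw [← f1, e]
      rfl
    · rw [f1 _ ⟨x, hx⟩, g1, h2, ← sum_coe (S := S) (f := fun y => ev1 (D.tm w x y) * f v y)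
        fun y hy => by_contra fun e => right_ne_zero_of_mul hy (f2 v y e)]
      simp only [f1]

theorem ip_ch_iff {S : Finset X.W} (h : ∀ x ∈ S, D.lc x ⊆ S) {f : X.W → ℂ} (hf : IsCh f) :
    ip (D.ch S) f ≠ 0 ↔ ∃ x ∈ S, ip (D.ch (D.lc x)) f ≠ 0 := by
  have e : D.ch S = ∑ c ∈ S.image D.lc, D.ch c := by
    funext w
    rw [Finset.sum_apply, ch, ← Finset.sum_fiberwise_of_maps_to (g := D.lc)
      fun x hx => Finset.mem_image_of_mem _ hx]
    refine Finset.sum_congr rfl fun c hc => ?_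
    obtain ⟨x, hx, rfl⟩ := Finset.mem_image.1 hc
    refine Finset.sum_congr ?_ fun _ _ => rfl
    ext y
    rw [Finset.mem_filter]
    exact ⟨fun hy => hy.2 ▸ D.self_mem_lc y, fun hy => ⟨h x hx hy, lc_eq hy⟩⟩
  rw [e, ip_sum_ne_zero _ _ hf]
  · simp
  · intro c hc
    obtain ⟨x, -, rfl⟩ := Finset.mem_image.1 hc
    exact (D.cvx_lc x).isCh

theorem lc_subset_tc {x y : X.W} (h : y ∈ D.tc x) : D.lc y ⊆ D.tc x := fun _ hz =>
  mem_tc.2 ⟨(mem_lc.1 hz).1.l2.trans (mem_tc.1 h).1, (mem_tc.1 h).2.trans (mem_lc.1 hz).2.l2⟩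

theorem tc_eq {x y : X.W} (h : y ∈ D.tc x) : D.tc y = D.tc x := by
  obtain ⟨h1, h2⟩ := mem_tc.1 h
  ext z
  rw [mem_tc, mem_tc]
  exact ⟨fun h => ⟨h.1.trans h1, h2.trans h.2⟩, fun h => ⟨h.1.trans h2, h1.trans h.2⟩⟩

theorem exists_irr_lc (D : KD X) (x : X.W) : ∃ χ, IsIrr χ ∧ ip (D.ch (D.lc x)) χ ≠ 0 := by
  refine (D.cvx_lc x).isCh.exists_irr ?_
  simp only [ch, mC_one, if_true, Finset.sum_const, nsmul_eq_mul, mul_one, Nat.cast_ne_zero]
  exact Finset.card_ne_zero_of_mem (D.self_mem_lc x)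

theorem share {x y : X.W} (h : y ∈ D.tc x) :
    ∃ χ, IsIrr χ ∧ ip (D.ch (D.lc x)) χ ≠ 0 ∧ ip (D.ch (D.lc y)) χ ≠ 0 := by
  obtain ⟨⟨u, hu, w, hw⟩, hxy⟩ := mem_tc.1 h
  have hxu : D.LL x u := KD.LL_symm hu (hxy.trans (LR.l2 ⟨w, hw⟩))
  obtain ⟨π, p1, p2⟩ := (D.cvx_lc x).exists_tau
  obtain ⟨τ, t1, t2⟩ := (D.cvx_lc y).exists_tau
  rw [← IsCh.ip_ne_zero_iff (D.cvx_lc x).isCh (D.cvx_lc y).isCh, ip_comm, ← p1, ← t1,
    ← exists_hom_iff]
  let F : Matrix (D.lc y) (D.lc x) ℂ := Matrix.of fun c a => ev1 (D.h a w c)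
  refine ⟨Matrix.toLin' F, fun e => ?_, fun g v => funext fun c => ?_⟩
  · have := congrFun (congrFun (Matrix.toLin'.map_eq_zero_iff.1 e) ⟨y, D.self_mem_lc y⟩)
      ⟨u, mem_lc.2 ⟨hu, hxu⟩⟩
    exact (D.hpos u w y).ev1_ne_zero hw this
  · have key : ∀ a : D.lc x, ∑ a' : D.lc x, ev1 (D.h a' w c) * ev1 (D.tm g a' a) =
        ∑ c' : D.lc y, ev1 (D.tm g c c') * ev1 (D.h a w c') := by
      intro a
      have hac : D.L2 a c := (mem_lc.1 a.2).1.l2.trans (hxy.trans (mem_lc.1 c.2).2.l2)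
      rw [sum_coe (f := fun a' => ev1 (D.h a' w c) * ev1 (D.tm g a' a)),
        sum_coe (f := fun c' => ev1 (D.tm g c c') * ev1 (D.h a w c'))]
      · simp only [← map_mul, ← map_sum]
        rw [← repr_mul_left, ← repr_mul_right, mul_assoc]
      · intro c' hc
        have h1 := LL_of_ev1 (left_ne_zero_of_mul hc)
        have h2 : D.LR c' a := ⟨w, ne_of_ev1 (right_ne_zero_of_mul hc)⟩
        rw [← lc_eq c.2]
        exact mem_lc.2 ⟨KD.LL_symm h1 (h2.l2.trans hac), h1⟩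
      · intro a' ha
        have h1 := LL_of_ev1 (right_ne_zero_of_mul ha)
        have h2 : D.LR c a' := ⟨w, ne_of_ev1 (left_ne_zero_of_mul ha)⟩
        rw [← lc_eq a.2]
        exact mem_lc.2 ⟨h1, KD.LL_symm h1 (hac.trans h2.l2)⟩
    simp only [t2, p2, Matrix.toLin'_apply, Matrix.mulVec, dotProduct, F, Matrix.of_apply,
      Finset.mul_sum, ← mul_assoc]
    rw [Finset.sum_comm, Finset.sum_comm (s := (Finset.univ : Finset (D.lc y)))]
    simp only [← Finset.sum_mul, key]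

/-- coordinates of the group algebra in the specialised basis `C` -/
private def kap (D : KD X) (z : X.W) : MonoidAlgebra ℂ X.W →ₗ[ℂ] ℂ :=
  chx fun w => ev1 (D.C.repr (D.T w) z)

private theorem kap_sp (z : X.W) (a : D.H) : D.kap z (D.sp a) = ev1 (D.C.repr a z) := by
  conv_rhs => rw [← D.T.sum_repr a]
  simp only [D.sp_apply, map_sum, map_smul, kap, chx_of, smul_eq_mul, Finsupp.finsetSum_apply,
    Finsupp.smul_apply, map_mul]

private theorem chx_ch (S : Finset X.W) (m : MonoidAlgebra ℂ X.W) :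
    chx (D.ch S) m = ∑ a ∈ S, D.kap a (m * D.sp (D.C a)) := by
  induction m using MonoidAlgebra.induction_on with
  | of w => simp only [chx_of, ← D.sp_T_mul, kap_sp, ch]
  | add m m' h h' => simp only [map_add, add_mul, h, h', Finset.sum_add_distrib]
  | smul r m h => simp only [map_smul, smul_mul_assoc, h, Finset.smul_sum]

private theorem kap_eq_zero {a z : X.W} (h : ¬ D.L2 z a) (m m' : MonoidAlgebra ℂ X.W) :
    D.kap z (m * D.sp (D.C a) * m') = 0 := by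
  induction m using MonoidAlgebra.induction_on with
  | of w =>
    induction m' using MonoidAlgebra.induction_on with
    | of w' =>
      rw [← D.sp_T_mul, ← D.sp_mul_T, kap_sp]
      exact by_contra fun e => h (L2_iff.2 ⟨_, _, ne_of_ev1 e⟩)
    | add m m' h h' => rw [mul_add, map_add, h, h', add_zero]
    | smul r m h => rw [mul_smul_comm, map_smul, h, smul_zero]
  | add m m' h h' => rw [add_mul, add_mul, map_add, h, h', add_zero]
  | smul r m h => rw [smul_mul_assoc, smul_mul_assoc, map_smul, h, smul_zero]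

private theorem L2_of_ip {x y : X.W} {χ : X.W → ℂ} (hχ : IsIrr χ) (hx : ip (D.ch (D.tc x)) χ ≠ 0)
    (hy : ip (D.ch (D.tc y)) χ ≠ 0) : D.L2 y x := by
  have key : ∀ x, ip (D.ch (D.tc x)) χ ≠ 0 →
      ∃ a ∈ D.tc x, D.kap a (idem χ * D.sp (D.C a)) ≠ 0 := fun x hx => by
    refine Finset.exists_ne_zero_of_sum_ne_zero ?_
    rw [← chx_ch, chx_idem]
    exact mul_ne_zero hχ.one_ne hx
  obtain ⟨a, ha, h1⟩ := key x hx
  obtain ⟨a', ha', h2⟩ := key y hy
  obtain ⟨b, hb⟩ := hχ.idem_mem (a := D.sp (D.C a)) fun e => h1 (by rw [e, map_zero])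
  refine (mem_tc.1 ha').2.trans (L2.trans (by_contra fun e => h2 ?_) (mem_tc.1 ha).1)
  rw [hb, Finset.sum_mul, map_sum]
  refine Finset.sum_eq_zero fun u _ => ?_
  simpa only [mul_assoc] using kap_eq_zero e (MonoidAlgebra.of ℂ X.W u * idem χ)
    (b * MonoidAlgebra.of ℂ X.W u⁻¹ * D.sp (D.C a'))

theorem tc_unique {x y : X.W} {χ : X.W → ℂ} (hχ : IsIrr χ) (hx : ip (D.ch (D.tc x)) χ ≠ 0)
    (hy : ip (D.ch (D.tc y)) χ ≠ 0) : y ∈ D.tc x :=
  mem_tc.2 ⟨L2_of_ip hχ hx hy, L2_of_ip hχ hy hx⟩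

theorem exists_alpha' (D : KD X) : ∃ α : X.W → ℤ, (∀ z z', D.L2 z' z → α z ≤ α z') ∧
    (∀ z z', D.L2 z' z → α z' = α z → D.L2 z z') ∧
    ∀ x χ, IsIrr χ → ip (D.ch (D.lc x)) χ ≠ 0 → X.om χ = α x := by
  obtain ⟨α, h1, h2, h3⟩ := D.exists_alpha
  refine ⟨α, h1, h2, fun x χ hχ hi =>
    Cox.om_eq_of_eigen (D.cvx_lc x).isCh.isCl hχ (fun w => ?_) hi⟩
  simp only [ch, mC_mul]
  rw [Finset.sum_comm, Finset.mul_sum]
  refine Finset.sum_congr rfl fun y hy => ?_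
  have e : α y = α x := le_antisymm (h1 _ _ (mem_lc.1 hy).2.l2) (h1 _ _ (mem_lc.1 hy).1.l2)
  rw [Finset.sum_comm, Finset.sum_eq_single y]
  · rw [← Finset.mul_sum, h3 y y (D.L2_refl y) (D.L2_refl y), if_pos rfl, e, mul_comm]
  · intro z _ hz
    rw [← Finset.mul_sum]
    by_contra hc
    obtain ⟨t, -, ht⟩ := Finset.exists_ne_zero_of_sum_ne_zero (right_ne_zero_of_mul hc)
    rw [h3 y z (LL_of_ev1 (left_ne_zero_of_mul hc)).l2 (LL_of_ev1 ht).l2, if_neg hz,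
      mul_zero] at hc
    exact hc rfl
  · simp

theorem ch_one (D : KD X) : D.lc 1 = {1} ∧ D.tc 1 = {1} ∧ D.ch {1} = X.sgn := by
  refine ⟨Finset.eq_singleton_iff_unique_mem.2
      ⟨D.self_mem_lc 1, fun y hy => LL_one (mem_lc.1 hy).2⟩,
    Finset.eq_singleton_iff_unique_mem.2
      ⟨mem_tc.2 ⟨D.L2_refl 1, D.L2_refl 1⟩, fun y hy => L2_one (mem_tc.1 hy).2⟩,
    funext fun w => ?_⟩
  rw [ch, Finset.sum_singleton]
  induction w using X.cs.simple_induction with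
  | simple i =>
    have h1 : X.s i ≠ 1 := fun h => by simpa using congrArg X.cs.length h
    have h2 : D.T (X.s i) * D.C 1 = D.C (X.s i) - (T (-1) : Lp) • D.C 1 := by
      rw [C_simple, C_one, Hk.Cs, mul_one, add_sub_cancel_right]
    rw [tm, h2, X.sgn_refl (X.cs.isReflection_simple i)]
    simp [h1, ev1_T]
  | one => simp [mC_one, Cox0.sgn]
  | mul w w' h h' =>
    rw [mC_mul, Finset.sum_eq_single 1, h, h', X.sgn_mul]
    · intro y _ hy
      exact by_contra fun e => hy (LL_one (LL_of_ev1 (left_ne_zero_of_mul e)))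
    · simp

private theorem ip_w0_aux {S S' : Finset X.W} (h : ∀ y, y ∈ S' ↔ X.w0 * y ∈ S) (hS : IsCl (D.ch S))
    (χ : X.W → ℂ) : ip (D.ch S') (fun w => X.sgn w * χ w⁻¹) = ip (D.ch S) χ := by
  have e : ∀ w, D.ch S' w = X.sgn w * D.ch S w⁻¹ := fun w => by
    rw [← hS w⁻¹ X.w0, inv_eq_of_mul_eq_one_right X.w0_mul_self, ch, ch, Finset.mul_sum]
    refine Finset.sum_equiv (Equiv.mulLeft X.w0) h fun y _ => ?_
    rw [tm_dual, map_mul, map_mul, map_mul, ev1_invert, ev1_sg, ev1_sg, mul_assoc (X.sgn w),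
      sgn_mul_self, mul_one]
    rfl
  rw [ip, ip, ← Equiv.sum_comp (Equiv.inv X.W)]
  congr 1
  refine Finset.sum_congr rfl fun w _ => ?_
  simp only [e, Equiv.inv_apply, inv_inv, X.sgn_inv]
  linear_combination (D.ch S w * χ w⁻¹) * sgn_mul_self w

theorem ip_w0 (D : KD X) (x : X.W) (χ : X.W → ℂ) (hχ : IsCl χ) :
    ip (D.ch (D.lc (X.w0 * x))) (fun w => X.sgn w * χ w⁻¹) = ip (D.ch (D.lc x)) χ ∧
    ip (D.ch (D.tc (X.w0 * x))) (fun w => X.sgn w * χ w⁻¹) = ip (D.ch (D.tc x)) χ := by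
  have _ := hχ
  have e : X.w0 * (X.w0 * x) = x := by rw [← mul_assoc, X.w0_mul_self, one_mul]
  refine ⟨ip_w0_aux (fun y => ?_) (D.cvx_lc x).isCh.isCl χ,
    ip_w0_aux (fun y => ?_) (D.cvx_tc x).isCh.isCl χ⟩
  · rw [mem_lc, mem_lc, D.LL_w0 y, D.LL_w0 _ y, e, and_comm]
  · rw [mem_tc, mem_tc, D.L2_w0 y, D.L2_w0 _ y, e, and_comm]

end KD

end

end Pool.Agent.P.MP_1a0ecf_al
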