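import Pool.Agent.P.MP_1a0ecf_al.K2
import Pool.Agent.P.MP_1a0ecf_al.G4

/-! Tools for package K7: unitriangular bases and the parabolic subalgebra. -/

namespace Pool.Agent.P.MP_1a0ecf_al

open LaurentPolynomial
open scoped Classical

noncomputable section

namespace K7

variable {Y X : Cox}

theorem len_ind {P : X.W → Prop} (h1 : P 1)
    (hs : ∀ x i, X.len x < X.len (x * X.s i) → P x → P (x * X.s i)) (x : X.W) : P x := by
  induction hn : X.len x using Nat.strong_induction_on generalizing x with
  | _ n ih =>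
    by_cases hx : x = 1
    · exact hx ▸ h1
    · obtain ⟨i, hi⟩ := X.cs.exists_rightDescent_of_ne_one hx
      have e : x * X.s i * X.s i = x := X.cs.simple_mul_simple_cancel_right i
      have hi' : X.len (x * X.s i) < X.len x := hi
      rw [← e]
      exact hs _ i (by rw [e]; exact hi') (ih _ (hn ▸ hi') _ rfl)

theorem degLe_zero (m : ℤ) : DegLe 0 m := fun _ _ => by simp

/-- all coefficients are small and sit in length below `n` -/
def Low {H : Type} [Ring H] [Algebra Lp H] (b : Module.Basis X.W Lp H) (h : H) (m : ℤ) (n : ℕ) :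
    Prop := ∀ w, DegLe (b.repr h w) m ∧ (b.repr h w ≠ 0 → X.len w < n)

section Low

variable {H : Type} [Ring H] [Algebra Lp H] {b : Module.Basis X.W Lp H} {g h : H} {m : ℤ} {n : ℕ}

theorem Low.sub (hg : Low b g m n) (hh : Low b h m n) : Low b (g - h) m n := by
  intro w
  rw [map_sub, Finsupp.sub_apply]
  refine ⟨(hg w).1.sub (hh w).1, fun h0 => ?_⟩
  by_cases h1 : b.repr g w = 0
  · exact (hh w).2 fun h2 => h0 (by rw [h1, h2, sub_zero])
  · exact (hg w).2 h1

theorem Low.sum {r : X.W → Lp} {f : X.W → H}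
    (hr : ∀ w, DegLe (r w) m ∧ (r w ≠ 0 → Low b (f w) 0 n)) : Low b (∑ w, r w • f w) m n := by
  intro z
  simp only [map_sum, map_smul, Finsupp.finsetSum_apply, Finsupp.smul_apply, smul_eq_mul]
  refine ⟨DegLe.sum _ fun w _ => ?_, fun h0 => ?_⟩
  · by_cases h1 : r w = 0
    · rw [h1, zero_mul]
      exact degLe_zero _
    · simpa using (hr w).1.mul ((hr w).2 h1 z).1
  · obtain ⟨w, -, hw⟩ := Finset.exists_ne_zero_of_sum_ne_zero h0
    exact ((hr w).2 (left_ne_zero_of_mul hw) z).2 (right_ne_zero_of_mul hw)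

theorem Low.mono {m' : ℤ} {n' : ℕ} (hh : Low b h m n) (hm : m ≤ m') (hn : n ≤ n') :
    Low b h m' n' := fun w => ⟨(hh w).1.mono hm, fun h0 => ((hh w).2 h0).trans_le hn⟩

/-- change to a unitriangular basis -/
theorem Low.tri {c : Module.Basis X.W Lp H} (hc : ∀ z, Low b (c z - b z) 0 (X.len z))
    (hh : Low b h m n) : Low c h m n := by
  induction n generalizing h with
  | zero =>
    have : h = 0 := b.repr.injective (Finsupp.ext fun w => by
      by_contra h0
      exact absurd ((hh w).2 (by simpa using h0)) (Nat.not_lt_zero _))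
    intro w
    simp [this, degLe_zero]
  | succ n ih =>
    have h1 := ih (Low.sum (r := fun w => b.repr h w) (f := fun w => c w - b w) fun w =>
      ⟨(hh w).1, fun h0 => (hc w).mono le_rfl (Nat.lt_succ_iff.1 ((hh w).2 h0))⟩)
    have h2 : Low c (∑ w, b.repr h w • c w) m (n + 1) := by
      intro w
      rw [Module.Basis.repr_sum_self]
      exact hh w
    have h3 := h2.sub (h1.mono le_rfl (Nat.le_succ n))
    simp only [smul_sub, Finset.sum_sub_distrib, b.sum_repr, sub_sub_cancel] at h3
    exact h3

theorem tri_basis {f : X.W → H} (hf : ∀ z w, b.repr (f z - b z) w ≠ 0 → X.len w < X.len z) :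
    ∃ c : Module.Basis X.W Lp H, ∀ x, c x = f x := by
  have h1 : ∀ z w, b.repr (f z) w = b.repr (f z - b z) w + if z = w then 1 else 0 := by
    intro z w
    simp [Finsupp.single_apply]
  have hli : LinearIndependent Lp f := by
    rw [Fintype.linearIndependent_iff]
    intro a ha
    by_contra hc
    push Not at hc
    have hne : (Finset.univ.filter fun w => a w ≠ 0).Nonempty := by
      obtain ⟨w, hw⟩ := hc
      exact ⟨w, Finset.mem_filter.2 ⟨Finset.mem_univ _, hw⟩⟩
    obtain ⟨w, hw, hmax⟩ := Finset.exists_max_image _ X.len hne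
    apply (Finset.mem_filter.1 hw).2
    have e : b.repr (∑ x, a x • f x) w = a w := by
      simp only [map_sum, map_smul, Finsupp.finsetSum_apply, Finsupp.smul_apply, smul_eq_mul]
      rw [Finset.sum_eq_single w]
      · have a1 : b.repr (f w - b w) w = 0 := by
          by_contra hh
          exact lt_irrefl _ (hf w w hh)
        rw [h1, a1, if_pos rfl, zero_add, mul_one]
      · intro x _ hxw
        by_cases hx : a x = 0
        · rw [hx, zero_mul]
        · have hl := hmax x (Finset.mem_filter.2 ⟨Finset.mem_univ _, hx⟩)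
          have a1 : b.repr (f x - b x) w = 0 := by
            by_contra hh
            have := hf x w hh
            omega
          rw [h1, a1, if_neg hxw, add_zero, mul_zero]
      · intro hh
        exact absurd (Finset.mem_univ _) hh
    rw [← e, ha]
    simp
  have hT : ∀ x, b x ∈ Submodule.span Lp (Set.range f) := by
    intro x
    induction hn : X.len x using Nat.strong_induction_on generalizing x with
    | _ n ih =>
      have e : b x = f x - ∑ w, b.repr (f x - b x) w • b w := by
        rw [b.sum_repr]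
        abel
      rw [e]
      refine Submodule.sub_mem _ (Submodule.subset_span ⟨x, rfl⟩)
        (Submodule.sum_mem _ fun w _ => ?_)
      by_cases hw : b.repr (f x - b x) w = 0
      · rw [hw, zero_smul]
        exact Submodule.zero_mem _
      · exact Submodule.smul_mem _ _ (ih _ (hn ▸ hf x w hw) w rfl)
  have hsp : ⊤ ≤ Submodule.span Lp (Set.range f) := by
    intro h _
    rw [← b.sum_repr h]
    exact Submodule.sum_mem _ fun w _ => Submodule.smul_mem _ _ (hT w)
  exact ⟨Module.Basis.mk hli hsp, fun x => Module.Basis.mk_apply hli hsp x⟩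

/-- coefficients of the image under a map that sends a basis into a basis -/
theorem repr_map {H' : Type} [Ring H'] [Algebra Lp H'] (b' : Module.Basis Y.W Lp H')
    (φ : H' →ₗ[Lp] H) {k : Y.W → X.W} (hk : Function.Injective k) (hφ : ∀ u, φ (b' u) = b (k u))
    (a : H') : (∀ u, b.repr (φ a) (k u) = b'.repr a u) ∧
      ∀ w, b.repr (φ a) w ≠ 0 → ∃ u, w = k u := by
  have e : φ a = ∑ u, b'.repr a u • b (k u) := by
    conv_lhs => rw [← b'.sum_repr a]
    simp only [map_sum, map_smul, hφ]
  rw [e]
  simp only [map_sum, map_smul, Finsupp.finsetSum_apply, Finsupp.smul_apply, smul_eq_mul,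
    Module.Basis.repr_self, Finsupp.single_apply]
  refine ⟨fun u => by simp [hk.eq_iff], fun w hw => ?_⟩
  obtain ⟨u, -, hu⟩ := Finset.exists_ne_zero_of_sum_ne_zero hw
  refine ⟨u, ?_⟩
  by_contra h0
  exact hu (by rw [if_neg (Ne.symm h0), mul_zero])

end Low

variable (P : Par Y.toCox0 X.toCox0) (D : Hk X)

theorem T_ι_mul {u : Y.W} {i : Fin Y.n} (h : Y.len u < Y.len (u * Y.s i)) :
    D.T (P.ι u) * D.T (P.ι (Y.s i)) = D.T (P.ι (u * Y.s i)) := by
  rw [map_mul, P.ι_s]
  refine D.T_up _ _ ?_
  rw [← P.ι_s, ← map_mul, P.len_ι, P.len_ι]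
  exact h

theorem T_ι_mul' {u : Y.W} {i : Fin Y.n} (h : Y.len (u * Y.s i) < Y.len u) :
    D.T (P.ι u) * D.T (P.ι (Y.s i)) = D.T (P.ι (u * Y.s i)) +
      (LaurentPolynomial.T 1 - LaurentPolynomial.T (-1) : Lp) • D.T (P.ι u) := by
  rw [map_mul, P.ι_s]
  refine D.T_down _ _ ?_
  rw [← P.ι_s, ← map_mul, P.len_ι, P.len_ι]
  exact h

/-- the span of the parabolic basis elements -/
def S : Submodule Lp D.H := Submodule.span Lp (Set.range fun u => D.T (P.ι u))

theorem T_mem (u : Y.W) : D.T (P.ι u) ∈ S P D := Submodule.subset_span ⟨u, rfl⟩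

theorem one_mem : (1 : D.H) ∈ S P D := by
  simpa [D.T_one] using T_mem P D 1

theorem mul_s_mem {a : D.H} (ha : a ∈ S P D) (i : Fin Y.n) : a * D.T (P.ι (Y.s i)) ∈ S P D := by
  induction ha using Submodule.span_induction with
  | mem a ha =>
    obtain ⟨u, rfl⟩ := ha
    rcases lt_or_gt_of_ne (Y.cs.length_mul_simple_ne u i) with h | h
    · rw [T_ι_mul' P D h]
      exact Submodule.add_mem _ (T_mem P D _) (Submodule.smul_mem _ _ (T_mem P D _))
    · rw [T_ι_mul P D h]
      exact T_mem P D _
  | zero => simp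
  | add a b _ _ ha hb => rw [add_mul]; exact Submodule.add_mem _ ha hb
  | smul r a _ ha => rw [smul_mul_assoc]; exact Submodule.smul_mem _ _ ha

theorem mul_mem {a b : D.H} (ha : a ∈ S P D) (hb : b ∈ S P D) : a * b ∈ S P D := by
  induction hb using Submodule.span_induction with
  | mem b hb =>
    obtain ⟨u, rfl⟩ := hb
    induction u using len_ind with
    | h1 => simpa [D.T_one] using ha
    | hs u i h ih =>
      simp only at ih ⊢
      rw [← T_ι_mul P D h, ← mul_assoc]
      exact mul_s_mem P D ih i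
  | zero => simp
  | add a b _ _ ha hb => rw [mul_add]; exact Submodule.add_mem _ ha hb
  | smul r a _ ha => rw [mul_smul_comm]; exact Submodule.smul_mem _ _ ha

theorem bar_mem {a : D.H} (ha : a ∈ S P D) : D.bar a ∈ S P D := by
  induction ha using Submodule.span_induction with
  | mem b hb =>
    obtain ⟨u, rfl⟩ := hb
    induction u using len_ind with
    | h1 => simpa [D.T_one] using one_mem P D
    | hs u i h ih =>
      simp only at ih ⊢
      rw [← T_ι_mul P D h, map_mul]
      refine mul_mem P D ih ?_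
      rw [P.ι_s, D.bar_T_simple, ← P.ι_s]
      exact Submodule.sub_mem _ (T_mem P D _) (Submodule.smul_mem _ _ (one_mem P D))
  | zero => simp
  | add a b _ _ ha hb => rw [map_add]; exact Submodule.add_mem _ ha hb
  | smul r a _ ha => rw [D.bar_smul]; exact Submodule.smul_mem _ _ ha

theorem exists_hk : ∃ (D0 : Hk Y) (j : D0.H →ₐ[Lp] D.H), (∀ u, j (D0.T u) = D.T (P.ι u)) ∧
    ∀ a, j (D0.bar a) = D.bar (j a) := by
  let A : Subalgebra Lp D.H := (S P D).toSubalgebra (one_mem P D) fun _ _ => mul_mem P D
  let v : Y.W → A := fun u => ⟨D.T (P.ι u), T_mem P D u⟩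
  have hli : LinearIndependent Lp v :=
    LinearIndependent.of_comp A.val.toLinearMap (D.T.linearIndependent.comp _ P.ι_inj)
  have hsp : ⊤ ≤ Submodule.span Lp (Set.range v) := by
    rintro ⟨a, ha⟩ -
    have ha' : a ∈ S P D := ha
    induction ha' using Submodule.span_induction with
    | mem b hb =>
      obtain ⟨u, rfl⟩ := hb
      exact Submodule.subset_span ⟨u, rfl⟩
    | zero => exact Submodule.zero_mem _
    | add a b h1 h2 ia ib => exact Submodule.add_mem _ (ia h1) (ib h2)
    | smul r a h1 ia => exact Submodule.smul_mem _ r (ia h1)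
  have hv : ∀ u, ((Module.Basis.mk hli hsp u : A) : D.H) = D.T (P.ι u) := fun u => by
    rw [Module.Basis.mk_apply]
  refine ⟨⟨A, Module.Basis.mk hli hsp, Subtype.ext ?_, fun x i h => Subtype.ext ?_,
    fun x i h => Subtype.ext ?_,
    (D.bar.comp A.val.toRingHom).codRestrict A fun a => bar_mem P D a.2,
    fun r h => Subtype.ext (D.bar_smul r h), fun x => Subtype.ext ?_⟩, A.val, hv, fun a => rfl⟩
  · rw [hv, map_one, D.T_one]
    rfl
  · rw [Subalgebra.coe_mul, hv, hv, hv, T_ι_mul P D h]
  · rw [Subalgebra.coe_mul, Subalgebra.coe_add, Subalgebra.coe_smul, hv, hv, hv, T_ι_mul' P D h]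
  · have := D.bar_T (P.ι x)
    rw [← map_inv, ← hv, ← hv] at this
    exact this

end K7

end

end Pool.Agent.P.MP_1a0ecf_al
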