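import Pool.Agent.P.MP_1a0ecf_al.E6
import Pool.Agent.P.MP_1a0ecf_al.K2
import Pool.Agent.P.MP_1a0ecf_al.G4
import Pool.Agent.P.MP_1a0ecf_al.K7a

/-! Package K7: parabolic subalgebras and induction of left cells. -/

namespace Pool.Agent.P.MP_1a0ecf_al

open LaurentPolynomial
open scoped Classical

noncomputable section

variable {Y X : Cox}

/-- the Hecke algebra of `Y` inside the Hecke algebra of `X` -/
structure Emb (P : Par Y.toCox0 X.toCox0) (D' : KD Y) (D : KD X) where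
  j : D'.H →ₐ[Lp] D.H
  j_T : ∀ u, j (D'.T u) = D.T (P.ι u)
  j_C : ∀ u, j (D'.C u) = D.C (P.ι u)

theorem exists_emb (P : Par Y.toCox0 X.toCox0) (D : KD X) : ∃ D' : KD Y, Nonempty (Emb P D' D) := by
  obtain ⟨D0, h0⟩ := K7.exists_hk P D.toHk
  obtain ⟨D', rfl⟩ := D0.exists_KD
  obtain ⟨j, hj, hb⟩ := h0
  refine ⟨D', ⟨⟨j, hj, fun u => D.toHk.klel_unique ?_ (D.kl _)⟩⟩⟩
  obtain ⟨k1, k2, k3⟩ := D'.kl u
  obtain ⟨r1, r2⟩ := K7.repr_map (b := D.T) D'.T j.toLinearMap P.ι_inj hj (D'.C u - D'.T u)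
  have e : j (D'.C u) - D.T (P.ι u) = j.toLinearMap (D'.C u - D'.T u) := by
    rw [← hj, ← map_sub]
    rfl
  refine ⟨by rw [← hb, k1], fun w => ?_, fun w hw => ?_⟩
  · rw [e]
    by_cases hw : D.T.repr (j.toLinearMap (D'.C u - D'.T u)) w = 0
    · rw [Hk.co, hw]
      exact K7.degLe_zero _
    · obtain ⟨u', rfl⟩ := r2 w hw
      rw [Hk.co, r1]
      exact k2 u'
  · rw [e] at hw
    obtain ⟨u', rfl⟩ := r2 w hw
    rw [Hk.co, r1] at hw
    rw [P.len_ι, P.len_ι]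
    exact k3 u' hw

namespace Emb

variable {P : Par Y.toCox0 X.toCox0} {D' : KD Y} {D : KD X} (E : Emb P D' D)
include E

theorem h_ι (x y z : Y.W) : D.h (P.ι x) (P.ι y) (P.ι z) = D'.h x y z := by
  have := (K7.repr_map (b := D.C) D'.C E.j.toLinearMap P.ι_inj E.j_C (D'.C x * D'.C y)).1 z
  rw [KD.h, ← E.j_C, ← E.j_C, ← map_mul]
  exact this

theorem low {x : X.W} (hx : P.Rep x) (u : Y.W) :
    K7.Low D.T (D.T x * D.C (P.ι u) - D.T (x * P.ι u)) (-1) (X.len (x * P.ι u)) := by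
  have hT : ∀ u, D.T x * D.T (P.ι u) = D.T (x * P.ι u) := fun u =>
    D.T_mul_of_len (by rw [P.len_rep hx, P.len_ι])
  obtain ⟨r1, r2⟩ := K7.repr_map (b := D.T) D'.T ((LinearMap.mulLeft Lp (D.T x)).comp
    E.j.toLinearMap) (k := fun u => x * P.ι u) (fun a b e => P.ι_inj (mul_left_cancel e))
    (fun u => by simp [E.j_T, hT]) (D'.C u - D'.T u)
  have e : D.T x * D.C (P.ι u) - D.T (x * P.ι u) =
      ((LinearMap.mulLeft Lp (D.T x)).comp E.j.toLinearMap) (D'.C u - D'.T u) := by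
    simp [E.j_T, E.j_C, ← hT, mul_sub]
  rw [e]
  intro w
  by_cases hw : D.T.repr (((LinearMap.mulLeft Lp (D.T x)).comp E.j.toLinearMap)
      (D'.C u - D'.T u)) w = 0
  · rw [hw]
    exact ⟨K7.degLe_zero _, fun h => absurd rfl h⟩
  · obtain ⟨u', rfl⟩ := r2 w hw
    rw [r1] at hw ⊢
    rw [P.len_rep hx, P.len_rep hx]
    exact ⟨(D'.kl u).2.1 u', fun _ => Nat.add_lt_add_left ((D'.kl u).2.2 u' hw) _⟩

theorem LL_ι {u u' : Y.W} (h : D'.LL u' u) : D.LL (P.ι u') (P.ι u) := by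
  obtain ⟨w, hw⟩ := h
  exact ⟨P.ι w, by rwa [E.h_ι]⟩

theorem L2_ι {u u' : Y.W} (h : D'.L2 u' u) : D.L2 (P.ι u') (P.ι u) := by
  obtain ⟨a, h1, w, hw⟩ := h
  exact ⟨P.ι a, E.LL_ι h1, P.ι w, by rwa [E.h_ι]⟩

theorem exists_basis : ∃ b : Module.Basis X.W Lp D.H, ∀ x u, P.Rep x →
    b (x * P.ι u) = D.T x * D.C (P.ι u) := by
  choose x u hx e using P.exists_rep
  obtain ⟨b, hb⟩ := K7.tri_basis (b := D.T) (f := fun w => D.T (x w) * D.C (P.ι (u w)))
    fun z w hw => by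
      have := E.low (hx z) (u z)
      rw [← e z] at this
      exact (this w).2 hw
  refine ⟨b, fun y v hy => ?_⟩
  obtain ⟨h1, h2⟩ := P.rep_unique hy (hx _) (e (y * P.ι v))
  rw [hb, ← h1, ← h2]

theorem rep_LL {x : X.W} (hx : P.Rep x) (u : Y.W) : D.LL (x * P.ι u) (P.ι u) := by
  refine KD.LL_of_repr (a := D.T x) ?_
  have h1 := (K7.Low.tri (c := D.C) (fun z w => ⟨((D.kl z).2.1 w).mono (by norm_num),
    (D.kl z).2.2 w⟩) (E.low hx u) (x * P.ι u)).2
  have h2 : D.C.repr (D.T x * D.C (P.ι u) - D.T (x * P.ι u)) (x * P.ι u) = 0 := by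
    by_contra h0
    exact lt_irrefl _ (h1 h0)
  rw [map_sub, Finsupp.sub_apply, (D.repr_T _ 1).1, sub_eq_zero] at h2
  rw [h2]
  exact one_ne_zero

section

variable {b : Module.Basis X.W Lp D.H}
  (hb : ∀ x u, P.Rep x → b (x * P.ι u) = D.T x * D.C (P.ι u))
include hb

theorem low_C (z : X.W) : K7.Low b (D.C z - b z) (-1) (X.len z) := by
  have h1 : ∀ z, K7.Low D.T (b z - D.T z) (-1) (X.len z) := by
    intro z
    obtain ⟨x, u, hx, rfl⟩ := P.exists_rep z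
    rw [hb x u hx]
    exact E.low hx u
  have h2 : K7.Low D.T (D.C z - D.T z) (-1) (X.len z) := fun w =>
    ⟨(D.kl z).2.1 w, (D.kl z).2.2 w⟩
  have h3 := h2.sub (h1 z)
  rw [sub_sub_sub_cancel_right] at h3
  exact K7.Low.tri (fun z => (h1 z).mono (by norm_num) le_rfl) h3

theorem mul_b (a : D.H) {w w' : Y.W} {y : X.W} (hy : P.Rep y)
    (h : b.repr (a * D.C (P.ι w)) (y * P.ι w') ≠ 0) :
    (∃ g, D.T.repr a g ≠ 0 ∧ X.len y ≤ X.len g) ∧ D'.LL w' w := by
  rw [← D.T.sum_repr a] at h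
  simp only [Finset.sum_mul, smul_mul_assoc, map_sum, map_smul, Finsupp.finsetSum_apply,
    Finsupp.smul_apply, smul_eq_mul] at h
  obtain ⟨g, -, hg⟩ := Finset.exists_ne_zero_of_sum_ne_zero h
  have h1 := right_ne_zero_of_mul hg
  obtain ⟨x, u, hx, rfl⟩ := P.exists_rep g
  obtain ⟨r1, r2⟩ := K7.repr_map (b := b) D'.C ((LinearMap.mulLeft Lp (D.T x)).comp
    E.j.toLinearMap) (k := fun u => x * P.ι u) (fun a b e => P.ι_inj (mul_left_cancel e))
    (fun u => by simp [E.j_C, hb x u hx]) (D'.T u * D'.C w)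
  have e : D.T (x * P.ι u) * D.C (P.ι w) =
      ((LinearMap.mulLeft Lp (D.T x)).comp E.j.toLinearMap) (D'.T u * D'.C w) := by
    rw [← D.T_mul_of_len (by rw [P.len_rep hx, P.len_ι])]
    simp [E.j_T, E.j_C, mul_assoc]
  rw [e] at h1
  obtain ⟨u', e'⟩ := r2 _ h1
  obtain ⟨rfl, rfl⟩ := P.rep_unique hy hx e'
  rw [r1] at h1
  exact ⟨⟨_, left_ne_zero_of_mul hg, by rw [P.len_rep hx]; omega⟩, KD.LL_of_repr h1⟩

theorem bar_b {w w' : Y.W} {y y' : X.W} (hy : P.Rep y) (hy' : P.Rep y')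
    (h : b.repr (D.bar (b (y * P.ι w)) - b (y * P.ι w)) (y' * P.ι w') ≠ 0) :
    X.len y' < X.len y ∧ D'.LL w' w := by
  rw [hb y w hy, map_mul D.bar, (D.kl _).1, ← sub_mul] at h
  obtain ⟨⟨g, h1, h2⟩, h3⟩ := E.mul_b hb _ hy' h
  exact ⟨h2.trans_lt (D.bar_T_tri y g h1), h3⟩

end

theorem repr_C {b : Module.Basis X.W Lp D.H}
    (hb : ∀ x u, P.Rep x → b (x * P.ι u) = D.T x * D.C (P.ι u)) {x x' : X.W} (hx : P.Rep x)
    (hx' : P.Rep x') {u u' : Y.W} (h : b.repr (D.C (x * P.ι u)) (x' * P.ι u') ≠ 0) :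
    D'.LL u' u := by
  by_contra hn
  obtain ⟨⟨y, w⟩, hyw, hmax⟩ := Finset.exists_max_image
    (Finset.univ.filter fun q : X.W × Y.W => P.Rep q.1 ∧
      b.repr (D.C (x * P.ι u)) (q.1 * P.ι q.2) ≠ 0 ∧ ¬ D'.LL q.2 u) (fun q => X.len q.1)
    ⟨(x', u'), Finset.mem_filter.2 ⟨Finset.mem_univ _, hx', h, hn⟩⟩
  obtain ⟨-, hy, h1, h2⟩ := Finset.mem_filter.1 hyw
  simp only at hy h1 h2 hmax
  have hne : x * P.ι u ≠ y * P.ι w := fun e =>
    h2 ((P.rep_unique hx hy e).2 ▸ D'.LL_refl u)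
  refine h1 (eq_zero_of_invert ?_ ?_)
  · have e1 := (D.kl (x * P.ι u)).1
    conv_rhs => rw [← e1, ← b.sum_repr (D.C (x * P.ι u))]
    simp only [map_sum, D.bar_smul, map_smul, Finsupp.finsetSum_apply, Finsupp.smul_apply,
      smul_eq_mul]
    have key : ∀ g, b.repr (D.C (x * P.ι u)) g ≠ 0 →
        b.repr (D.bar (b g) - b g) (y * P.ι w) = 0 := by
      intro g hg
      obtain ⟨y', w', hy', rfl⟩ := P.exists_rep g
      by_contra h0
      obtain ⟨a1, a2⟩ := E.bar_b hb hy' hy h0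
      have a3 : ¬ D'.LL w' u := fun a => h2 (a2.trans a)
      have := hmax (y', w') (Finset.mem_filter.2 ⟨Finset.mem_univ _, hy', hg, a3⟩)
      simp only at this
      omega
    rw [Finset.sum_eq_single (y * P.ι w)]
    · have := key _ h1
      rw [map_sub, Finsupp.sub_apply, sub_eq_zero] at this
      rw [this]
      simp
    · intro g _ hg
      by_cases h0 : b.repr (D.C (x * P.ι u)) g = 0
      · rw [h0, map_zero, zero_mul]
      · have := key _ h0
        rw [map_sub, Finsupp.sub_apply, sub_eq_zero] at this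
        rw [this]
        simp [hg]
    · intro hh
      exact absurd (Finset.mem_univ _) hh
  · have := (E.low_C hb (x * P.ι u) (y * P.ι w)).1
    rw [map_sub, Finsupp.sub_apply] at this
    simpa [hne] using this

theorem LL_rep {x x' : X.W} (hx : P.Rep x) (hx' : P.Rep x') {u u' : Y.W}
    (h : D.LL (x' * P.ι u') (x * P.ι u)) : D'.LL u' u := by
  obtain ⟨b, hb⟩ := E.exists_basis
  let I : Set X.W := {g | ∃ y w, P.Rep y ∧ D'.LL w u ∧ g = y * P.ι w}
  have hC : ∀ z ∈ I, D.C z ∈ Submodule.span Lp (b '' I) := by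
    rintro _ ⟨y, w, hy, hw, rfl⟩
    rw [b.mem_span_image]
    intro g hg
    obtain ⟨y', w', hy', rfl⟩ := P.exists_rep g
    exact ⟨y', w', hy', (E.repr_C hb hy hy' (Finsupp.mem_support_iff.1 hg)).trans hw, rfl⟩
  have hB : ∀ z ∈ I, b z ∈ Submodule.span Lp (D.C '' I) := by
    intro z hz
    induction hn : X.len z using Nat.strong_induction_on generalizing z with
    | _ n ih =>
      have e : b z = D.C z - ∑ g, b.repr (D.C z - b z) g • b g := by
        rw [b.sum_repr]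
        abel
      rw [e]
      refine Submodule.sub_mem _ (Submodule.subset_span ⟨z, hz, rfl⟩)
        (Submodule.sum_mem _ fun g _ => ?_)
      by_cases hg : b.repr (D.C z - b z) g = 0
      · rw [hg, zero_smul]
        exact Submodule.zero_mem _
      · have hm := b.mem_span_image.1
          (Submodule.sub_mem _ (hC z hz) (Submodule.subset_span ⟨z, hz, rfl⟩))
          (Finsupp.mem_support_iff.2 hg)
        exact Submodule.smul_mem _ _ (ih _ (hn ▸ (E.low_C hb z g).2 hg) g hm rfl)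
  have hI : ∀ (a : D.H), ∀ m ∈ Submodule.span Lp (b '' I), a * m ∈ Submodule.span Lp (b '' I) := by
    intro a m hm
    induction hm using Submodule.span_induction with
    | mem m hm =>
      obtain ⟨_, ⟨y, w, hy, hw, rfl⟩, rfl⟩ := hm
      rw [hb y w hy, ← mul_assoc, b.mem_span_image]
      intro g hg
      obtain ⟨y', w', hy', rfl⟩ := P.exists_rep g
      exact ⟨y', w', hy', (E.mul_b hb _ hy' (Finsupp.mem_support_iff.1 hg)).2.trans hw, rfl⟩
    | zero => simp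
    | add m m' _ _ h1 h2 => rw [mul_add]; exact Submodule.add_mem _ h1 h2
    | smul r m _ h1 => rw [mul_smul_comm]; exact Submodule.smul_mem _ _ h1
  obtain ⟨w, hw⟩ := h
  have h1 := hI (D.C w) _ (hC _ ⟨x, u, hx, D'.LL_refl u, rfl⟩)
  have h2 : Submodule.span Lp (b '' I) ≤ Submodule.span Lp (D.C '' I) :=
    Submodule.span_le.2 (by
      rintro _ ⟨z, hz, rfl⟩
      exact hB z hz)
  obtain ⟨y, w', hy, hw', e⟩ := D.C.mem_span_image.1 (h2 h1) (Finsupp.mem_support_iff.2 hw)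
  rw [(P.rep_unique hx' hy e).2]
  exact hw'

end Emb

end

end Pool.Agent.P.MP_1a0ecf_al
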