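import Pool.Agent.P.MP_1a0ecf_al.K6
import Pool.Agent.P.MP_1a0ecf_al.K7

/-! Package K8: the character of an induced cell. -/

namespace Pool.Agent.P.MP_1a0ecf_al

open LaurentPolynomial
open scoped Classical

noncomputable section

variable {Y X : Cox}

/-- the induced set -/
def Par.ind (P : Par Y.toCox0 X.toCox0) (S : Finset Y.W) : Finset X.W :=
  Finset.univ.filter fun z => ∃ x, ∃ u ∈ S, P.Rep x ∧ z = x * P.ι u

theorem K8.mem_ind (P : Par Y.toCox0 X.toCox0) (S : Finset Y.W) {x : X.W} (hx : P.Rep x)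
    (u : Y.W) : x * P.ι u ∈ P.ind S ↔ u ∈ S := by
  simp only [Par.ind, Finset.mem_filter, Finset.mem_univ, true_and]
  constructor
  · rintro ⟨x', u', hu, hx', e⟩
    rwa [(P.rep_unique hx hx' e).2]
  · exact fun hu => ⟨x, u, hu, hx, rfl⟩

theorem K8.sum_ind (P : Par Y.toCox0 X.toCox0) (S : Finset Y.W) (G : X.W → ℂ) :
    ∑ z ∈ P.ind S, G z = ∑ x ∈ Finset.univ.filter P.Rep, ∑ u ∈ S, G (x * P.ι u) := by
  rw [← Finset.sum_product']
  symm
  refine Finset.sum_bij (fun q _ => q.1 * P.ι q.2) ?_ ?_ ?_ fun _ _ => rfl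
  · intro q hq
    obtain ⟨h1, h2⟩ := Finset.mem_product.1 hq
    exact (K8.mem_ind P S (Finset.mem_filter.1 h1).2 _).2 h2
  · intro q hq q' hq' e
    obtain ⟨h1, h2⟩ := P.rep_unique (Finset.mem_filter.1 (Finset.mem_product.1 hq).1).2
      (Finset.mem_filter.1 (Finset.mem_product.1 hq').1).2 e
    exact Prod.ext h1 h2
  · intro z hz
    obtain ⟨x, u, hu, hx, rfl⟩ := (Finset.mem_filter.1 hz).2
    exact ⟨(x, u), Finset.mem_product.2 ⟨Finset.mem_filter.2 ⟨Finset.mem_univ _, hx⟩, hu⟩, rfl⟩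

theorem K8.card (P : Par Y.toCox0 X.toCox0) :
    (Nat.card X.W : ℂ) = (Finset.univ.filter P.Rep).card * Nat.card Y.W := by
  have h := K8.sum_ind P Finset.univ fun _ => 1
  have e : P.ind Finset.univ = Finset.univ := by
    refine Finset.eq_univ_of_forall fun z => ?_
    obtain ⟨x, u, hx, rfl⟩ := P.exists_rep z
    exact (K8.mem_ind P _ hx u).2 (Finset.mem_univ _)
  rw [e] at h
  simpa using h

theorem K8.tr_comm {α R : Type} [Fintype α] [CommRing R] (T : Finset α) (M N : α → α → R)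
    (h : ∀ z y, M z y ≠ 0 → N y z ≠ 0 → (z ∈ T ↔ y ∈ T)) :
    ∑ z ∈ T, ∑ y, M z y * N y z = ∑ y ∈ T, ∑ z, N y z * M z y := by
  rw [← Finset.univ_inter T, ← Finset.sum_ite_mem, ← Finset.sum_ite_mem]
  have e1 : ∀ z, (if z ∈ T then ∑ y, M z y * N y z else 0) =
      ∑ y, if z ∈ T then M z y * N y z else 0 := fun z => by split_ifs <;> simp
  have e2 : ∀ y, (if y ∈ T then ∑ z, N y z * M z y else 0) =
      ∑ z, if y ∈ T then N y z * M z y else 0 := fun z => by split_ifs <;> simp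
  simp only [e1, e2]
  rw [Finset.sum_comm]
  refine Finset.sum_congr rfl fun y _ => Finset.sum_congr rfl fun z _ => ?_
  by_cases h1 : M z y = 0
  · simp [h1]
  by_cases h2 : N y z = 0
  · simp [h2]
  simp only [h z y h1 h2, mul_comm]

theorem K8.repr_expand {H : Type} [Ring H] [Algebra Lp H] (b c : Module.Basis X.W Lp H) (a h : H)
    (z : X.W) : c.repr (a * h) z = ∑ y, c.repr (a * b y) z * b.repr h y := by
  conv_lhs => rw [← b.sum_repr h]
  simp only [Finset.mul_sum, mul_smul_comm, map_sum, map_smul, Finsupp.finsetSum_apply,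
    Finsupp.smul_apply, smul_eq_mul, mul_comm]

theorem Emb.k8_trace {P : Par Y.toCox0 X.toCox0} {D' : KD Y} {D : KD X} (E : Emb P D' D)
    {S : Finset Y.W} (hS : D'.Cvx S) {b : Module.Basis X.W Lp D.H}
    (hb : ∀ x u, P.Rep x → b (x * P.ι u) = D.T x * D.C (P.ι u)) (a : D.H) :
    ∑ z ∈ P.ind S, D.C.repr (a * D.C z) z = ∑ z ∈ P.ind S, b.repr (a * b z) z := by
  have h := K8.tr_comm (P.ind S) (fun z y => D.C.repr (b y) z) (fun y z => b.repr (a * D.C z) y)
    fun z y h1 h2 => by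
      obtain ⟨x, u, hx, rfl⟩ := P.exists_rep z
      obtain ⟨x', u', hx', rfl⟩ := P.exists_rep y
      have a1 : D'.LL u u' := by
        rw [hb x' u' hx'] at h1
        refine E.LL_rep P.rep_one hx ?_
        rw [one_mul]
        exact KD.LL_of_repr h1
      have a2 : D'.LL u' u := by
        have e := K8.repr_expand D.C b 1 (a * D.C (x * P.ι u)) (x' * P.ι u')
        simp only [one_mul] at e
        rw [e] at h2
        obtain ⟨w, -, hw⟩ := Finset.exists_ne_zero_of_sum_ne_zero h2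
        obtain ⟨x'', u'', hx'', rfl⟩ := P.exists_rep w
        exact (E.repr_C hb hx'' hx' (left_ne_zero_of_mul hw)).trans
          (E.LL_rep hx hx'' (KD.LL_of_repr (right_ne_zero_of_mul hw)))
      rw [K8.mem_ind P S hx, K8.mem_ind P S hx']
      exact ⟨fun hu => hS u hu u hu u' a1 a2, fun hu => hS u' hu u' hu u a2 a1⟩
  refine (Finset.sum_congr rfl fun z _ => ?_).trans (h.trans (Finset.sum_congr rfl fun y _ => ?_))
  · have e := K8.repr_expand b D.C 1 (a * D.C z) z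
    simpa only [one_mul] using e
  · exact (K8.repr_expand D.C b a (b y) y).symm

theorem Emb.k8_diag {P : Par Y.toCox0 X.toCox0} {D' : KD Y} {D : KD X} (E : Emb P D' D)
    {b : Module.Basis X.W Lp D.H}
    (hb : ∀ x u, P.Rep x → b (x * P.ι u) = D.T x * D.C (P.ι u)) (g : X.W) {x : X.W}
    (hx : P.Rep x) (u : Y.W) : ev1 (b.repr (D.T g * b (x * P.ι u)) (x * P.ι u)) =
      ∑ u', if g = x * P.ι u' * x⁻¹ then ev1 (D'.tm u' u u) else 0 := by
  obtain ⟨a, ha⟩ := D.T_mul_T_mod g x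
  obtain ⟨x', u', hx', e⟩ := P.exists_rep (g * x)
  obtain ⟨r1, r2⟩ := K7.repr_map (b := b) D'.C ((LinearMap.mulLeft Lp (D.T x')).comp
    E.j.toLinearMap) (k := fun u => x' * P.ι u) (fun a b e => P.ι_inj (mul_left_cancel e))
    (fun u => by simp [E.j_C, hb x' u hx']) (D'.T u' * D'.C u)
  have e1 : D.T (x' * P.ι u') * D.C (P.ι u) =
      ((LinearMap.mulLeft Lp (D.T x')).comp E.j.toLinearMap) (D'.T u' * D'.C u) := by
    rw [← D.T_mul_of_len (by rw [P.len_rep hx', P.len_ι])]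
    simp [E.j_T, E.j_C, mul_assoc]
  have hq : ev1 (LaurentPolynomial.T 1 - LaurentPolynomial.T (-1) : Lp) = 0 := by
    rw [map_sub, ev1_T, ev1_T, sub_self]
  rw [hb x u hx, ← mul_assoc, ha, add_mul, smul_mul_assoc, map_add, map_smul, Finsupp.add_apply,
    Finsupp.smul_apply, smul_eq_mul, map_add, map_mul ev1, hq, zero_mul, add_zero, e, e1]
  have key : ∀ u'', g = x * P.ι u'' * x⁻¹ ↔ x' = x ∧ u' = u'' := by
    intro u''
    rw [eq_mul_inv_iff_mul_eq, e]
    exact ⟨P.rep_unique hx' hx, fun h => by rw [h.1, h.2]⟩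
  simp only [key]
  by_cases hxx : x' = x
  · subst hxx
    rw [r1]
    simp
  · simp only [hxx, false_and, if_false, Finset.sum_const_zero]
    by_contra h0
    obtain ⟨u'', e2⟩ := r2 (x * P.ι u) fun h => h0 (by rw [h, map_zero])
    exact hxx (P.rep_unique hx hx' e2).1.symm

theorem Emb.ip_ind {P : Par Y.toCox0 X.toCox0} {D' : KD Y} {D : KD X} (E : Emb P D' D)
    {S : Finset Y.W} (hS : D'.Cvx S) {f : X.W → ℂ} (hf : IsCl f) :
    ip (D.ch (P.ind S)) f = ip (D'.ch S) (f ∘ P.ι) := by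
  obtain ⟨b, hb⟩ := E.exists_basis
  have h1 : ∀ g, D.ch (P.ind S) g = ∑ x ∈ Finset.univ.filter P.Rep, ∑ u ∈ S,
      ∑ u', if g = x * P.ι u' * x⁻¹ then ev1 (D'.tm u' u u) else 0 := by
    intro g
    rw [KD.ch, ← map_sum, E.k8_trace hS hb, map_sum, K8.sum_ind]
    exact Finset.sum_congr rfl fun x hx => Finset.sum_congr rfl fun u _ =>
      E.k8_diag hb g (Finset.mem_filter.1 hx).2 u
  have h2 : ∑ g, D.ch (P.ind S) g * f g⁻¹ =
      ∑ _x ∈ Finset.univ.filter P.Rep, ∑ u', D'.ch S u' * (f ∘ P.ι) u'⁻¹ := by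
    simp only [h1, Finset.sum_mul]
    rw [Finset.sum_comm]
    refine Finset.sum_congr rfl fun x _ => ?_
    simp only [KD.ch, Finset.sum_mul]
    rw [Finset.sum_comm]
    conv_rhs => rw [Finset.sum_comm]
    refine Finset.sum_congr rfl fun u _ => ?_
    rw [Finset.sum_comm]
    refine Finset.sum_congr rfl fun u' _ => ?_
    simp only [ite_mul, zero_mul, Finset.sum_ite_eq', Finset.mem_univ, if_true,
      Function.comp_apply]
    rw [← hf (P.ι u'⁻¹) x, map_inv]
    congr 2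
    group
  have hc : ((Finset.univ.filter P.Rep).card : ℂ) ≠ 0 := by
    rw [Nat.cast_ne_zero, ← Nat.pos_iff_ne_zero, Finset.card_pos]
    exact ⟨1, Finset.mem_filter.2 ⟨Finset.mem_univ _, P.rep_one⟩⟩
  rw [ip, ip, h2, Finset.sum_const, nsmul_eq_mul, K8.card P, mul_inv, mul_right_comm,
    inv_mul_cancel_left₀ hc, mul_comm]

end

end Pool.Agent.P.MP_1a0ecf_al
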