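import Pool.Agent.P.MP_1a0ecf_al.K8

/-! Package K9: the calculus of pure sets of characters. -/

namespace Pool.Agent.P.MP_1a0ecf_al

open LaurentPolynomial
open scoped Classical

noncomputable section

variable {Y X : Cox}

namespace KD

variable (D : KD X)

/-- `χ` lies in the family of the two-sided cell of `x` -/
def Fam (x : X.W) (χ : X.W → ℂ) : Prop := ip (D.ch (D.tc x)) χ ≠ 0

/-- same Lusztig family -/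
def Rel (χ χ' : X.W → ℂ) : Prop := ∃ x, D.Fam x χ ∧ D.Fam x χ'

/-- `S` lies in one family and contains the constituents of one of its left cells -/
def Pure (S : Set (X.W → ℂ)) : Prop := ∃ x, (∀ χ ∈ S, IsIrr χ ∧ D.Fam x χ) ∧
  ∀ χ, IsIrr χ → ip (D.ch (D.lc x)) χ ≠ 0 → χ ∈ S

theorem pure_sgn : D.Pure {X.sgn} := by
  obtain ⟨e1, e2, e3⟩ := D.ch_one
  have hs : IsIrr X.sgn := isIrr_linear X.sgnHom
  refine ⟨1, fun χ hχ => ?_, fun χ hχ h => ?_⟩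
  · rw [Set.mem_singleton_iff.1 hχ]
    refine ⟨hs, ?_⟩
    unfold Fam
    rw [e2, e3, hs.ip_eq hs, if_pos rfl]
    exact one_ne_zero
  · rw [e1, e3, hs.ip_eq hχ] at h
    by_contra hne
    exact h (if_neg fun e => hne (Set.mem_singleton_iff.2 e.symm))

variable {D}

theorem Pure.twist {S : Set (X.W → ℂ)} (h : D.Pure S) :
    D.Pure ((fun χ w => X.sgn w * χ w⁻¹) '' S) := by
  obtain ⟨x, h1, h2⟩ := h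
  have tw : ∀ χ : X.W → ℂ, IsIrr χ → IsIrr fun w => X.sgn w * χ w⁻¹ := fun χ hχ =>
    hχ.twist X.sgnHom X.sgn_inv
  refine ⟨X.w0 * x, ?_, fun ψ hψ h => ?_⟩
  · rintro _ ⟨χ, hχ, rfl⟩
    obtain ⟨a, b⟩ := h1 χ hχ
    refine ⟨tw χ a, ?_⟩
    unfold Fam
    rw [(D.ip_w0 x χ a.isCh.isCl).2]
    exact b
  · have e : (fun w => X.sgn w * (fun w => X.sgn w * ψ w⁻¹) w⁻¹) = ψ := by
      funext w
      have e1 : X.sgn w * X.sgn w⁻¹ = 1 := by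
        rw [← X.sgn_mul, mul_inv_cancel]
        simp [Cox0.sgn]
      show X.sgn w * (X.sgn w⁻¹ * ψ w⁻¹⁻¹) = ψ w
      rw [← mul_assoc, e1, one_mul, inv_inv]
    refine ⟨fun w => X.sgn w * ψ w⁻¹, h2 _ (tw ψ hψ) ?_, e⟩
    rw [← (D.ip_w0 x _ (tw ψ hψ).isCh.isCl).1, e]
    exact h

theorem Pure.merge {S S' : Set (X.W → ℂ)} (h : D.Pure S) (h' : D.Pure S')
    (hn : (S ∩ S').Nonempty) : D.Pure (S ∪ S') := by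
  obtain ⟨x, h1, h2⟩ := h
  obtain ⟨x', h1', -⟩ := h'
  obtain ⟨χ₀, a, a'⟩ := hn
  have e : D.tc x' = D.tc x := tc_eq (tc_unique (h1 χ₀ a).1 (h1 χ₀ a).2 (h1' χ₀ a').2)
  refine ⟨x, ?_, fun χ hχ h => Or.inl (h2 χ hχ h)⟩
  rintro χ (hχ | hχ)
  · exact h1 χ hχ
  · refine ⟨(h1' χ hχ).1, ?_⟩
    unfold Fam
    rw [← e]
    exact (h1' χ hχ).2

theorem Pure.rel {S : Set (X.W → ℂ)} (h : D.Pure S) {χ χ' : X.W → ℂ} (hχ : χ ∈ S) (hχ' : χ' ∈ S) :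
    D.Rel χ χ' := by
  obtain ⟨x, h1, -⟩ := h
  exact ⟨x, (h1 χ hχ).2, (h1 χ' hχ').2⟩

theorem Pure.inter {S S' : Set (X.W → ℂ)} (h : D.Pure S) (h' : D.Pure S') {χ χ' : X.W → ℂ}
    (hχ : χ ∈ S) (hχ' : χ' ∈ S') (hr : D.Rel χ χ') : (S ∩ S').Nonempty := by
  obtain ⟨x, h1, h2⟩ := h
  obtain ⟨x', h1', h2'⟩ := h'
  obtain ⟨z, a, a'⟩ := hr
  have e : D.tc x = D.tc z := tc_eq (tc_unique (h1 χ hχ).1 a (h1 χ hχ).2)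
  have m : x' ∈ D.tc x := by
    rw [e]
    exact tc_unique (h1' χ' hχ').1 a' (h1' χ' hχ').2
  obtain ⟨ψ, hψ, b, b'⟩ := share m
  exact ⟨ψ, h2 ψ hψ b, h2' ψ hψ b'⟩

theorem k9_mem_lc {x y : X.W} : y ∈ D.lc x ↔ D.LL y x ∧ D.LL x y := by
  simp [lc]

theorem k9_mem_tc {x y : X.W} : y ∈ D.tc x ↔ D.L2 y x ∧ D.L2 x y := by
  simp [tc]

theorem k9_lc_sub {x y : X.W} (h : y ∈ D.lc x) : D.lc y ⊆ D.lc x := fun _ hz =>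
  k9_mem_lc.2 ⟨(k9_mem_lc.1 hz).1.trans (k9_mem_lc.1 h).1,
    (k9_mem_lc.1 h).2.trans (k9_mem_lc.1 hz).2⟩

end KD

theorem k9_mem_ind {P : Par Y.toCox0 X.toCox0} {S : Finset Y.W} {z : X.W} :
    z ∈ P.ind S ↔ ∃ x, ∃ u ∈ S, P.Rep x ∧ z = x * P.ι u := by
  simp [Par.ind]

theorem Emb.k9_ind {P : Par Y.toCox0 X.toCox0} {D' : KD Y} {D : KD X} (E : Emb P D' D)
    {S : Finset Y.W} (hS : ∀ u ∈ S, D'.lc u ⊆ S) : ∀ z ∈ P.ind S, D.lc z ⊆ P.ind S := by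
  intro z hz y hy
  obtain ⟨x, u, hu, hx, rfl⟩ := k9_mem_ind.1 hz
  obtain ⟨x', u', hx', rfl⟩ := P.exists_rep y
  obtain ⟨a, b⟩ := KD.k9_mem_lc.1 hy
  exact k9_mem_ind.2
    ⟨x', u', hS u hu (KD.k9_mem_lc.2 ⟨E.LL_rep hx hx' a, E.LL_rep hx' hx b⟩), hx', rfl⟩

theorem Emb.pure {P : Par Y.toCox0 X.toCox0} {D' : KD Y} {D : KD X} (E : Emb P D' D)
    {S' : Set (Y.W → ℂ)} (hS' : D'.Pure S') {S : Set (X.W → ℂ)} {m : ℤ}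
    (h1 : ∀ χ, χ ∈ S ↔ IsIrr χ ∧ (∃ χ' ∈ S', ip χ' (χ ∘ P.ι) ≠ 0) ∧ X.om χ = m)
    (h2 : S.Nonempty)
    (h3 : ∀ χ, IsIrr χ → (∃ χ' ∈ S', ip χ' (χ ∘ P.ι) ≠ 0) → (m : ℝ) ≤ (X.om χ).re) :
    D.Pure S := by
  obtain ⟨u, g1, g2⟩ := hS'
  obtain ⟨α, a1, a2, a3⟩ := D.exists_alpha'
  have k1 : ∀ χ, IsIrr χ → ip (D.ch (D.lc (P.ι u))) χ ≠ 0 →
      ∃ χ' ∈ S', ip χ' (χ ∘ P.ι) ≠ 0 := by
    intro χ hχ h
    have hm : P.ι u ∈ P.ind (D'.lc u) := k9_mem_ind.2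
      ⟨1, u, KD.k9_mem_lc.2 ⟨D'.LL_refl u, D'.LL_refl u⟩, P.rep_one, (one_mul _).symm⟩
    have b1 := (KD.ip_ch_iff (E.k9_ind fun _ hv => KD.k9_lc_sub hv) hχ.isCh).2 ⟨_, hm, h⟩
    rw [E.ip_ind (D'.cvx_lc u) hχ.isCh.isCl] at b1
    obtain ⟨χ', c1, c2, c3⟩ := ((D'.cvx_lc u).isCh.ip_ne_zero_iff (hχ.isCh.comp P.ι)).1 b1
    exact ⟨χ', g2 χ' c1 c2, by rw [ip_comm]; exact c3⟩
  have k2 : m ≤ α (P.ι u) := by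
    obtain ⟨χ, hχ, h⟩ := D.exists_irr_lc (P.ι u)
    have b := h3 χ hχ (k1 χ hχ h)
    rw [a3 _ χ hχ h] at b
    exact_mod_cast b
  have k3 : ∀ χ ∈ S, α (P.ι u) = m ∧ D.Fam (P.ι u) χ := by
    intro χ hS
    obtain ⟨hχ, ⟨χ', c1, c2⟩, c3⟩ := (h1 χ).1 hS
    have b1 : ip (D'.ch (D'.tc u)) (χ ∘ P.ι) ≠ 0 :=
      ((D'.cvx_tc u).isCh.ip_ne_zero_iff (hχ.isCh.comp P.ι)).2
        ⟨χ', (g1 χ' c1).1, (g1 χ' c1).2, by rw [ip_comm]; exact c2⟩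
    rw [← E.ip_ind (D'.cvx_tc u) hχ.isCh.isCl] at b1
    obtain ⟨y, hy, b2⟩ := (KD.ip_ch_iff (E.k9_ind fun _ hv => KD.lc_subset_tc hv) hχ.isCh).1 b1
    obtain ⟨x', u', hu', hx', rfl⟩ := k9_mem_ind.1 hy
    have l1 : D.L2 (x' * P.ι u') (P.ι u) :=
      (E.rep_LL hx' u').l2.trans (E.L2_ι (KD.k9_mem_tc.1 hu').1)
    have e1 : α (x' * P.ι u') = m := by
      have := (a3 _ χ hχ b2).symm.trans c3
      exact_mod_cast this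
    have e2 : α (P.ι u) = m := le_antisymm (e1 ▸ a1 _ _ l1) k2
    exact ⟨e2, (KD.ip_ch_iff (fun _ hv => KD.lc_subset_tc hv) hχ.isCh).2
      ⟨_, KD.k9_mem_tc.2 ⟨l1, a2 _ _ l1 (e1.trans e2.symm)⟩, b2⟩⟩
  obtain ⟨χ₀, h0⟩ := h2
  refine ⟨P.ι u, fun χ hχ => ⟨((h1 χ).1 hχ).1, (k3 χ hχ).2⟩, fun χ hχ h =>
    (h1 χ).2 ⟨hχ, k1 χ hχ h, ?_⟩⟩
  rw [a3 _ χ hχ h, (k3 χ₀ h0).1]

end

end Pool.Agent.P.MP_1a0ecf_al
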