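import Pool.Agent.P.MP_1a0ecf_al.Bim
import Pool.Agent.P.MP_1a0ecf_al.Hodge

/-! Package M1: basic calculus of graded matrices and bimodule maps. -/

namespace Pool.Agent.P.MP_1a0ecf_al

open Matrix MvPolynomial
open scoped Classical Kronecker

noncomputable section

variable {n : ℕ}

theorem Hg.lin (v : Fin n → ℝ) : Hg (lin ℝ v) 2 := by
  simpa using Hg.of_hom (lin_hom ℝ v)

theorem Hg.X (i : Fin n) : Hg (X i : Rn n) 2 := by
  exact isWeightedHomogeneous_X ℝ _ i

theorem Hg.C (a : ℝ) : Hg (C a : Rn n) 0 := by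
  exact isWeightedHomogeneous_C _ a

theorem Hg.neg {p : Rn n} {k : ℤ} (hp : Hg p k) : Hg (-p) k := by
  exact IsWeightedHomogeneous.neg hp

theorem Hg.sub {p q : Rn n} {k : ℤ} (hp : Hg p k) (hq : Hg q k) : Hg (p - q) k := by
  exact IsWeightedHomogeneous.sub hp hq

theorem Hg.sum {α : Type} (s : Finset α) {f : α → Rn n} {k : ℤ} (h : ∀ a ∈ s, Hg (f a) k) :
    Hg (∑ a ∈ s, f a) k := by
  exact IsWeightedHomogeneous.sum s f k h

theorem Hg.eq_zero {p : Rn n} {k : ℤ} (hp : Hg p k) (hk : k < 0) : p = 0 := by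
  rcases hp.cases with h | ⟨m, h, -⟩
  · exact h
  · omega

theorem Hg.eq_C {p : Rn n} (hp : Hg p 0) : p = MvPolynomial.C (constantCoeff p) := by
  rcases hp.cases with rfl | ⟨m, h, h'⟩
  · simp
  · obtain rfl : m = 0 := by omega
    rw [← totalDegree_zero_iff_isHomogeneous, totalDegree_eq_zero_iff_eq_C] at h'
    exact h'

theorem Hg.cc_eq_zero {p : Rn n} {k : ℤ} (hp : Hg p k) (hk : k ≠ 0) : constantCoeff p = 0 := by
  by_contra h
  have := hp (d := 0) h
  simp only [map_zero] at this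
  exact hk this.symm

theorem Hg.exists_X {p : Rn n} {k : ℤ} (hp : Hg p k) (h0 : constantCoeff p = 0) :
    ∃ q : Fin n → Rn n, (∀ b, Hg (q b) (k - 2)) ∧ p = ∑ b, MvPolynomial.X b * q b := by
  rcases hp.cases with rfl | ⟨m, rfl, h⟩
  · exact ⟨fun _ => 0, fun _ => Hg.zero _, by simp⟩
  · cases m with
    | zero =>
      have : p = 0 := by
        rw [Hg.eq_C (p := p) (by simpa using hp), h0, map_zero]
      exact ⟨fun _ => 0, fun _ => Hg.zero _, by simp [this]⟩
    | succ m =>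
      refine ⟨fun b => ((m + 1 : ℕ) : ℝ)⁻¹ • pderiv b p, fun b => Hg.smul ?_ _, ?_⟩
      · have := Hg.of_hom (h.pderiv (i := b))
        convert this using 1
        push_cast
        ring
      · have := h.sum_X_mul_pderiv
        simp only [mul_smul_comm, ← Finset.smul_sum, this]
        rw [← Nat.cast_smul_eq_nsmul ℝ, smul_smul, inv_mul_cancel₀ (by positivity), one_smul]

theorem Hg.of_lin_mul {a : Fin n → ℝ} (ha : a ≠ 0) {g : Rn n} {k : ℤ}
    (h : Hg (Pool.Agent.P.MP_1a0ecf_al.lin ℝ a * g) k) : Hg g (k - 2) := by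
  have hl : Pool.Agent.P.MP_1a0ecf_al.lin ℝ a ≠ 0 := fun e =>
    ha (lin_injective ℝ (e.trans (map_zero _).symm))
  have key : ∀ (j : ℤ) (g : Rn n), weightedHomogeneousComponent (fun _ => (2 : ℤ)) (2 + j)
      (Pool.Agent.P.MP_1a0ecf_al.lin ℝ a * g) = Pool.Agent.P.MP_1a0ecf_al.lin ℝ a *
        weightedHomogeneousComponent (fun _ => (2 : ℤ)) j g := by
    intro j g
    induction g using MvPolynomial.induction_on' with
    | monomial u c =>
      have h1 : Hg (monomial u c : Rn n) (Finsupp.weight (fun _ => (2 : ℤ)) u) :=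
        isWeightedHomogeneous_monomial _ u c rfl
      rw [weightedHomogeneousComponent_of_mem ((Hg.lin a).mul h1),
        weightedHomogeneousComponent_of_mem h1]
      by_cases e : j = Finsupp.weight (fun _ => (2 : ℤ)) u
      · rw [if_pos e, if_pos (by rw [e])]
      · rw [if_neg e, if_neg (fun e' => e (by omega)), mul_zero]
    | add p q hp hq => rw [mul_add, map_add, map_add, hp, hq, mul_add]
  intro d hd
  by_contra hne
  have h1 := key (Finsupp.weight (fun _ => (2 : ℤ)) d) g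
  rw [weightedHomogeneousComponent_of_mem h, if_neg (fun e => hne (by omega))] at h1
  have h2 := (mul_eq_zero.1 h1.symm).resolve_left hl
  have h3 := congrArg (coeff d) h2
  rw [coeff_weightedHomogeneousComponent, if_pos rfl] at h3
  exact hd h3

theorem Gr.mul {ι κ μ : Type} [Fintype κ] {d : ι → ℤ} {d' : κ → ℤ} {d'' : μ → ℤ} {k l : ℤ}
    {F : Matrix κ ι (Rn n)} {G : Matrix μ κ (Rn n)} (hF : Gr d d' k F) (hG : Gr d' d'' l G) :
    Gr d d'' (k + l) (G * F) := by
  intro i j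
  rw [Matrix.mul_apply]
  refine Hg.sum _ fun a _ => ?_
  have := (hG i a).mul (hF a j)
  convert this using 1
  ring

theorem Gr.one {ι : Type} [DecidableEq ι] (d : ι → ℤ) : Gr d d 0 (1 : Matrix ι ι (Rn n)) := by
  intro i j
  by_cases h : i = j
  · subst h
    simpa using Hg.C (n := n) 1
  · rw [Matrix.one_apply_ne h]
    exact Hg.zero _

theorem Gr.degM {ι κ : Type} {d : ι → ℤ} {d' : κ → ℤ} {k : ℤ} {F : Matrix κ ι (Rn n)}
    (hF : Gr d d' k F) : DegM d d' k (cst F) := by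
  intro a b h
  by_contra hne
  exact h ((hF a b).cc_eq_zero fun e => hne (by omega))

theorem mem_Hom {N M : Bim n} {k : ℤ} {F : Matrix M.ι N.ι (Rn n)} :
    F ∈ Hom N M k ↔ Gr N.d M.d k F ∧ ∀ p, M.A p * F = F * N.A p := Iff.rfl

theorem comm_of_lin {N M : Bim n} {F : Matrix M.ι N.ι (Rn n)}
    (h : ∀ v, M.A (lin ℝ v) * F = F * N.A (lin ℝ v)) (p : Rn n) : M.A p * F = F * N.A p := by
  induction p using MvPolynomial.induction_on with
  | C a =>
    rw [← MvPolynomial.algebraMap_eq, AlgHom.commutes, AlgHom.commutes,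
      Algebra.algebraMap_eq_smul_one, Algebra.algebraMap_eq_smul_one, Matrix.smul_mul,
      Matrix.mul_smul, Matrix.one_mul, Matrix.mul_one]
  | add p q hp hq => rw [map_add, map_add, Matrix.add_mul, Matrix.mul_add, hp, hq]
  | mul_X p i hp =>
    rw [map_mul, map_mul, ← lin_single ℝ i, Matrix.mul_assoc, h, ← Matrix.mul_assoc, hp,
      Matrix.mul_assoc]

theorem Hom.comp {N M P : Bim n} {k l : ℤ} {F : Matrix M.ι N.ι (Rn n)} {G : Matrix P.ι M.ι (Rn n)}
    (hF : F ∈ Hom N M k) (hG : G ∈ Hom M P l) : G * F ∈ Hom N P (k + l) := by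
  exact ⟨hF.1.mul hG.1, fun p => by
    rw [← Matrix.mul_assoc, hG.2, Matrix.mul_assoc, hF.2, Matrix.mul_assoc]⟩

theorem Hom.comp0 {N M P : Bim n} {l : ℤ} {F : Matrix M.ι N.ι (Rn n)} {G : Matrix P.ι M.ι (Rn n)}
    (hF : F ∈ Hom N M 0) (hG : G ∈ Hom M P l) : G * F ∈ Hom N P l := by
  simpa using Hom.comp hF hG

theorem Hom.comp0' {N M P : Bim n} {k : ℤ} {F : Matrix M.ι N.ι (Rn n)} {G : Matrix P.ι M.ι (Rn n)}
    (hF : F ∈ Hom N M k) (hG : G ∈ Hom M P 0) : G * F ∈ Hom N P k := by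
  simpa using Hom.comp hF hG

theorem Hom.one (M : Bim n) : (1 : Matrix M.ι M.ι (Rn n)) ∈ Hom M M 0 := by
  exact ⟨Gr.one _, fun p => by rw [Matrix.mul_one, Matrix.one_mul]⟩

theorem Hom.A (M : Bim n) {p : Rn n} {k : ℤ} (hp : Hg p k) : M.A p ∈ Hom M M k := by
  exact ⟨M.gr p k hp, fun q => by rw [← map_mul, ← map_mul, mul_comm]⟩

theorem Hom.psmul {N M : Bim n} {k l : ℤ} {F : Matrix M.ι N.ι (Rn n)} (hF : F ∈ Hom N M k)
    {q : Rn n} (hq : Hg q l) : q • F ∈ Hom N M (k + l) := by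
  refine ⟨fun i j => ?_, fun p => by rw [Matrix.mul_smul, Matrix.smul_mul, hF.2]⟩
  have := hq.mul (hF.1 i j)
  rw [Matrix.smul_apply, smul_eq_mul]
  convert this using 1
  ring

theorem Hom.shift_left (N M : Bim n) (a k : ℤ) (F : Matrix M.ι N.ι (Rn n)) :
    F ∈ Hom (N.shift a) M k ↔ F ∈ Hom N M (k + a) := by
  refine and_congr_left' (forall_congr' fun i => forall_congr' fun j => ?_)
  show Hg _ (N.d j + a + k - M.d i) ↔ _
  rw [show N.d j + a + k - M.d i = N.d j + (k + a) - M.d i by ring]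

theorem Hom.shift_right (N M : Bim n) (a k : ℤ) (F : Matrix M.ι N.ι (Rn n)) :
    F ∈ Hom N (M.shift a) k ↔ F ∈ Hom N M (k - a) := by
  refine and_congr_left' (forall_congr' fun i => forall_congr' fun j => ?_)
  show Hg _ (N.d j + k - (M.d i + a)) ↔ _
  rw [show N.d j + k - (M.d i + a) = N.d j + (k - a) - M.d i by ring]

section Th

variable (N : Bim n) {ι κ μ : Type}

theorem Th_mul [Fintype κ] (G : Matrix μ κ (Rn n)) (F : Matrix κ ι (Rn n)) :
    Th N (G * F) = Th N G * Th N F := by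
  ext a b : 2
  simp only [Th, Matrix.mul_apply, map_sum, map_mul, Matrix.sum_apply, Fintype.sum_prod_type]

theorem Th_one [DecidableEq ι] : Th N (1 : Matrix ι ι (Rn n)) = 1 := by
  ext a b : 2
  by_cases h : a.1 = b.1
  · simp [Th, Matrix.one_apply, h, Prod.ext_iff]
  · simp [Th, h, Prod.ext_iff]

theorem Th_zero : Th N (0 : Matrix κ ι (Rn n)) = 0 := by
  ext a b : 2
  simp [Th]

theorem Th_add (F G : Matrix κ ι (Rn n)) : Th N (F + G) = Th N F + Th N G := by
  ext a b : 2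
  simp [Th]

theorem Th_smul (a : ℝ) (F : Matrix κ ι (Rn n)) : Th N (a • F) = a • Th N F := by
  ext a b : 2
  simp [Th]

theorem Th_sum {α : Type} (s : Finset α) (F : α → Matrix κ ι (Rn n)) :
    Th N (∑ a ∈ s, F a) = ∑ a ∈ s, Th N (F a) := by
  ext a b : 2
  simp [Th, Matrix.sum_apply]

theorem kron_Th [Fintype ι] [Fintype κ] [DecidableEq ι] [DecidableEq κ] {N' : Bim n}
    {g : Matrix N'.ι N.ι (Rn n)} (hg : ∀ p, N'.A p * g = g * N.A p) (F : Matrix κ ι (Rn n)) :
    ((1 : Matrix κ κ (Rn n)) ⊗ₖ g) * Th N F = Th N' F * ((1 : Matrix ι ι (Rn n)) ⊗ₖ g) := by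
  ext a b : 2
  have := congrFun (congrFun (hg (F a.1 b.1)) a.2) b.2
  simp only [Matrix.mul_apply] at this
  simp [Th, Matrix.mul_apply, Fintype.sum_prod_type, Matrix.one_apply, this]

end Th

theorem Hom.th {M M' : Bim n} (N : Bim n) {k : ℤ} {F : Matrix M'.ι M.ι (Rn n)}
    (hF : F ∈ Hom M M' k) : Th N F ∈ Hom (M.tens N) (M'.tens N) k := by
  refine ⟨fun a b => ?_, fun p => by
    rw [Bim.tens_A, Bim.tens_A, ← Th_mul, ← Th_mul, hF.2]⟩
  have := N.gr _ _ (hF.1 a.1 b.1) a.2 b.2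
  rwa [show N.d b.2 + (M.d b.1 + k - M'.d a.1) - N.d a.2 =
    M.d b.1 + N.d b.2 + k - (M'.d a.1 + N.d a.2) by ring] at this

theorem Hom.kron (M : Bim n) {N N' : Bim n} {k : ℤ} {g : Matrix N'.ι N.ι (Rn n)}
    (hg : g ∈ Hom N N' k) :
    (1 : Matrix M.ι M.ι (Rn n)) ⊗ₖ g ∈ Hom (M.tens N) (M.tens N') k := by
  refine ⟨fun a b => ?_, fun p => by rw [Bim.tens_A, Bim.tens_A, kron_Th N hg.2]⟩
  by_cases h : a.1 = b.1
  · have := hg.1 a.2 b.2
    rw [show N.d b.2 + k - N'.d a.2 = M.d b.1 + N.d b.2 + k - (M.d a.1 + N'.d a.2) by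
      rw [h]; ring] at this
    simp only [Matrix.kroneckerMap_apply, Matrix.one_apply, if_pos h, one_mul]
    exact this
  · simp only [Matrix.kroneckerMap_apply, Matrix.one_apply_ne h, zero_mul]
    exact Hg.zero _

theorem Iso.refl (M : Bim n) : Iso M M := by
  exact ⟨1, Hom.one M, 1, Hom.one M, Matrix.one_mul _, Matrix.one_mul _⟩

theorem Iso.symm {M N : Bim n} (h : Iso M N) : Iso N M := by
  obtain ⟨f, hf, g, hg, h1, h2⟩ := h
  exact ⟨g, hg, f, hf, h2, h1⟩

theorem Iso.trans {M N P : Bim n} (h : Iso M N) (h' : Iso N P) : Iso M P := by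
  obtain ⟨f, hf, g, hg, h1, h2⟩ := h
  obtain ⟨f', hf', g', hg', h1', h2'⟩ := h'
  refine ⟨f' * f, Hom.comp0 hf hf', g * g', Hom.comp0 hg' hg, ?_, ?_⟩
  · rw [Matrix.mul_assoc, ← Matrix.mul_assoc g', h1', Matrix.one_mul, h1]
  · rw [Matrix.mul_assoc, ← Matrix.mul_assoc f, h2, Matrix.one_mul, h2']

theorem Iso.tens {M M' : Bim n} (h : Iso M M') (N : Bim n) : Iso (M.tens N) (M'.tens N) := by
  obtain ⟨f, hf, g, hg, h1, h2⟩ := h
  exact ⟨_, Hom.th N hf, _, Hom.th N hg, by rw [← Th_mul, h1, Th_one],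
    by rw [← Th_mul, h2, Th_one]⟩

theorem Iso.shift {M M' : Bim n} (h : Iso M M') (k : ℤ) : Iso (M.shift k) (M'.shift k) := by
  obtain ⟨f, hf, g, hg, h1, h2⟩ := h
  refine ⟨f, ?_, g, ?_, h1, h2⟩
  · rw [Hom.shift_left, Hom.shift_right]
    simpa using hf
  · rw [Hom.shift_left, Hom.shift_right]
    simpa using hg

theorem iso_of_equiv {M N : Bim n} (e : M.ι ≃ N.ι) (hd : ∀ a, N.d (e a) = M.d a)
    (hA : ∀ p a b, N.A p (e a) (e b) = M.A p a b) : Iso M N := by
  have key : ∀ {M N : Bim n} (e : M.ι ≃ N.ι), (∀ a, N.d (e a) = M.d a) →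
      (∀ p a b, N.A p (e a) (e b) = M.A p a b) →
      (1 : Matrix N.ι N.ι (Rn n)).submatrix id e ∈ Hom M N 0 := by
    intro M N e hd hA
    refine ⟨fun i j => ?_, fun p => ?_⟩
    · have := Gr.one (n := n) N.d i (e j)
      rwa [hd] at this
    · ext i j : 2
      obtain ⟨i, rfl⟩ := e.surjective i
      simp [Matrix.mul_apply, Matrix.one_apply, hA]
  refine ⟨_, key e hd hA, _, key e.symm (fun a => ?_) (fun p a b => ?_), ?_, ?_⟩
  · rw [← hd, e.apply_symm_apply]
  · rw [← hA, e.apply_symm_apply, e.apply_symm_apply]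
  · ext i j : 2
    simp [Matrix.mul_apply, Matrix.one_apply]
  · ext i j : 2
    simp [Matrix.mul_apply, Matrix.one_apply]

theorem tens_assoc (M N P : Bim n) : Iso ((M.tens N).tens P) (M.tens (N.tens P)) := by
  refine iso_of_equiv (Equiv.prodAssoc M.ι N.ι P.ι) (fun a => ?_) fun p a b => rfl
  exact (add_assoc _ _ _).symm

theorem tens_one (X : Cox) (M : Bim X.n) : Iso (M.tens (X.Rw 1)) M := by
  refine iso_of_equiv (Equiv.prodPUnit M.ι) (fun a => ?_) fun p a b => ?_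
  · exact (add_zero _).symm
  · simp [Cox.act_one]

section Cst

variable {ι κ μ : Type}

theorem cst_mul [Fintype κ] (G : Matrix μ κ (Rn n)) (F : Matrix κ ι (Rn n)) :
    cst (G * F) = cst G * cst F := by
  exact Matrix.map_mul

theorem cst_one [DecidableEq ι] : cst (1 : Matrix ι ι (Rn n)) = 1 := by
  exact Matrix.map_one _ (map_zero _) (map_one _)

theorem cst_zero : cst (0 : Matrix κ ι (Rn n)) = 0 := by
  exact Matrix.map_zero _ (map_zero _)

theorem cst_add (F G : Matrix κ ι (Rn n)) : cst (F + G) = cst F + cst G := by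
  ext a b
  simp [cst]

theorem cst_smul (a : ℝ) (F : Matrix κ ι (Rn n)) : cst (a • F) = a • cst F := by
  ext a b
  simp [cst]

theorem cst_psmul (q : Rn n) (F : Matrix κ ι (Rn n)) :
    cst (q • F) = constantCoeff q • cst F := by
  ext a b
  simp [cst]

theorem cst_transpose (F : Matrix κ ι (Rn n)) : cst Fᵀ = (cst F)ᵀ := by
  rfl

theorem cst_sum {α : Type} (s : Finset α) (F : α → Matrix κ ι (Rn n)) :
    cst (∑ a ∈ s, F a) = ∑ a ∈ s, cst (F a) := by
  ext a b
  simp [cst, Matrix.sum_apply]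

end Cst

end

end Pool.Agent.P.MP_1a0ecf_al
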