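import Pool.Agent.P.MP_1a0ecf_al.Bim
import Pool.Agent.P.MP_1a0ecf_al.Hk
import Pool.Agent.P.MP_1a0ecf_al.Hodge

/-! Characters, the Hom formula and the objects of the Elias-Williamson induction. -/

namespace Pool.Agent.P.MP_1a0ecf_al

open Matrix MvPolynomial
open scoped Classical

noncomputable section

/-- dimension of the space of polynomials of degree `m` -/
def rdim (n : ℕ) (m : ℤ) : ℤ :=
  Module.finrank ℝ (weightedHomogeneousSubmodule ℝ (fun _ : Fin n => (2 : ℤ)) m)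

/-- the functional `v ^ j ↦ rdim (k + j)` -/
def Lam (n : ℕ) (k : ℤ) (r : Lp) : ℤ := r.coeff.sum fun j a => a * rdim n (k + j)

variable {X : Cox}

namespace Hk

variable (D : Hk X)

/-- character of a flag -/
def chF (N : Bim X.n) (w : N.ι → X.W) : D.H :=
  ∑ a, (LaurentPolynomial.T (N.d a - X.len (w a)) : Lp) • D.T (w a)

/-- `N` has a flag with character `g` -/
def Fl (N : Bim X.n) (g : D.H) : Prop :=
  ∃ N' w, Iso N N' ∧ X.IsFlag N' w ∧ g = D.chF N' w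

/-- the Hom formula for the target `M` -/
def HF (M : Bim X.n) (h : D.H) : Prop :=
  ∀ N g, D.Fl N g → ∀ k, (Module.finrank ℝ (Hom N M k) : ℤ) = Lam X.n k (D.pr g h)

end Hk

/-- a bimodule with a form and an element of the Hecke algebra -/
structure Obj (D : Hk X) where
  B : Bim X.n
  G : Matrix B.ι B.ι (Rn X.n)
  c : D.H

/-- `rho` as a polynomial -/
abbrev Cox.rp (X : Cox) : Rn X.n := lin ℝ X.rho

namespace Obj

variable {D : Hk X}

/-- the Lefschetz operator -/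
def L (o : Obj D) : Matrix o.B.ι o.B.ι ℝ := cst (o.B.A X.rp)

/-- `o B_s` -/
abbrev tS (o : Obj D) (i : Fin X.n) : Obj D :=
  ⟨o.B.tens (X.Bs i), X.formS i o.G, o.c * D.Cs i⟩

/-- the deformed Lefschetz operator on `o B_s` -/
def Lz (o : Obj D) (i : Fin X.n) (ζ : ℝ) : Matrix (o.B.ι × Fin 2) (o.B.ι × Fin 2) ℝ :=
  cst (Th (X.Bs i) (o.B.A X.rp + ζ • X.rp • (1 : Matrix o.B.ι o.B.ι (Rn X.n))))

def HRz (o : Obj D) (i : Fin X.n) (ζ : ℝ) (l : ℤ) : Prop :=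
  HR (dS o.B.d) (o.Lz i ζ) (cst (X.formS i o.G)) l

structure Good (o : Obj D) (l : ℤ) : Prop where
  form : IsForm o.B o.G
  fl : D.Fl o.B o.c
  hf : D.HF o.B o.c
  qp : X.QP o.B
  hr : HR o.B.d o.L (cst o.G) l
  bar : D.bar o.c = o.c
  np : D.NP o.c

/-- `o` is the indecomposable object attached to `x` -/
def Ind (o : Obj D) (x : X.W) : Prop := o.Good (X.len x) ∧ D.KLel o.c x

/-- `o'` is an orthogonal summand of `o`, the form being scaled by `c` -/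
structure Smd (o' o : Obj D) (c : ℝ) (f : Matrix o.B.ι o'.B.ι (Rn X.n))
    (p : Matrix o'.B.ι o.B.ι (Rn X.n)) : Prop where
  hf : f ∈ Hom o'.B o.B 0
  hp : p ∈ Hom o.B o'.B 0
  pf : p * f = 1
  adj : fᵀ * o.G = c • (o'.G * p)

/-- `o` is the orthogonal sum of objects `O u`, `u ∈ U`, and of `r` -/
def Dec (O : X.W → Obj D) (U : Set X.W) (o : Obj D) (l : ℤ) (r : Obj D) : Prop :=
  ∃ (A : Type) (_ : Fintype A) (u : A → X.W) (t : A → Obj D) (c : A → ℝ)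
    (f : ∀ a, Matrix o.B.ι (t a).B.ι (Rn X.n)) (p : ∀ a, Matrix (t a).B.ι o.B.ι (Rn X.n))
    (f' : Matrix o.B.ι r.B.ι (Rn X.n)) (p' : Matrix r.B.ι o.B.ι (Rn X.n)),
    (∀ a, u a ∈ U ∧ t a = O (u a) ∧ Sg l (X.len (u a)) (c a) ∧ Smd (t a) o (c a) (f a) (p a)) ∧
      Smd r o 1 f' p' ∧ ∑ a, f a * p a + f' * p' = 1 ∧ (∀ a b, a ≠ b → p a * f b = 0) ∧
      (∀ a, p a * f' = 0 ∧ p' * f a = 0) ∧ o.c = ∑ a, (t a).c + r.c

/-- factorisation of the Lefschetz operator through the objects `t a` -/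
structure Fac (o : Obj D) (l : ℤ) (lam : Fin X.n → ℝ) {A : Type} [Fintype A] (t : A → Obj D)
    (c : A → ℝ) (φ : ∀ a, Matrix (t a).B.ι o.B.ι (Rn X.n)) : Prop where
  hom : ∀ a, φ a ∈ Hom o.B (t a).B 1
  form : o.G * o.B.A X.rp = ∑ a, c a • ((φ a)ᵀ * (t a).G * φ a) + lin ℝ lam • o.G
  ker : ∀ k v, k < l → InDeg o.B.d k v → (∀ a, cst (φ a) *ᵥ v = 0) → v = 0

/-- the factorisation property of the induction -/
def Phi (O : X.W → Obj D) (o : Obj D) (x : X.W) : Prop :=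
  ∃ (A : Type) (_ : Fintype A) (z : A → X.W) (t : A → Obj D) (c : A → ℝ)
    (φ : ∀ a, Matrix (t a).B.ι o.B.ι (Rn X.n)),
    (∀ a, X.len (z a) < X.len x ∧ t a = O (z a) ∧ Sg (X.len x - 1) (X.len (z a)) (c a)) ∧
      Fac o (X.len x) (X.σ x⁻¹ *ᵥ X.rho) t c φ

/-- all structure constants of `o` are `s`-invariant -/
def Inv (o : Obj D) (i : Fin X.n) : Prop :=
  (∀ q a b, X.act ℝ (X.s i) (o.B.A q a b) = o.B.A q a b) ∧
    ∀ a b, X.act ℝ (X.s i) (o.G a b) = o.G a b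

/-- isometric isomorphism -/
def Isom (o' o : Obj D) : Prop := ∃ f p, Smd o' o 1 f p ∧ f * p = 1

/-- `o` is isometric to an `s`-invariant object -/
def SInv (o : Obj D) (i : Fin X.n) : Prop := ∃ o' : Obj D, IsForm o'.B o'.G ∧ Inv o' i ∧ Isom o' o

/-- the induction hypothesis -/
structure Stage (O : X.W → Obj D) (m : ℕ) : Prop where
  one : Iso (O 1).B (X.Rw 1)
  ind : ∀ x, X.len x ≤ m → (O x).Ind x
  phi : ∀ x, X.len x ≤ m → Phi O (O x) x
  hrz : ∀ x i, X.len x < m → X.len x < X.len (x * X.s i) → ∀ ζ, 0 ≤ ζ →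
    (O x).HRz i ζ (X.len x + 1)
  dec : ∀ x i, X.len x < m → X.len x < X.len (x * X.s i) → ∃ r : Obj D, IsEmpty r.B.ι ∧ r.c = 0 ∧
    Dec O {u | X.len u ≤ X.len x + 1} ((O x).tS i) (X.len x + 1) r
  inv : ∀ x i, X.len x ≤ m → X.len (x * X.s i) < X.len x → (O x).SInv i

end Obj

end

end Pool.Agent.P.MP_1a0ecf_al
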