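import Pool.Agent.P.MP_1a0ecf_al.M1
import Pool.Agent.P.MP_1a0ecf_al.Obj

/-! Package M2: splitting of idempotents, dimensions of Hom spaces, inverses. -/

namespace Pool.Agent.P.MP_1a0ecf_al

open Matrix MvPolynomial
open scoped Classical Kronecker

noncomputable section

theorem split_idem {ι Λ R : Type} [Fintype ι] [DecidableEq ι] [CommRing R] [Nontrivial R]
    [Algebra ℝ R] (lab : ι → Λ) (S : Λ → Λ → Submodule ℝ R) (lt : Λ → Λ → Prop)
    (htr : ∀ a b c, lt a b → lt b c → lt a c) (hirr : ∀ a, ¬ lt a a)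
    (hmul : ∀ a b c, ∀ p ∈ S a b, ∀ q ∈ S b c, p * q ∈ S a c)
    (hdiag : ∀ a, S a a = Submodule.span ℝ {1})
    (hlt : ∀ a b, ∀ p ∈ S a b, p ≠ 0 → a = b ∨ lt a b)
    (E : Matrix ι ι R) (hE : ∀ i j, E i j ∈ S (lab i) (lab j)) (hEE : E * E = E) :
    ∃ (κ : Type) (_ : Fintype κ) (_ : DecidableEq κ) (lab' : κ → Λ) (I : Matrix ι κ R)
      (P : Matrix κ ι R), (∀ i a, I i a ∈ S (lab i) (lab' a)) ∧
        (∀ a i, P a i ∈ S (lab' a) (lab i)) ∧ P * I = 1 ∧ I * P = E := by
  induction hn : (Finset.univ.filter fun j => ∃ i, E i j ≠ 0).card using Nat.strong_induction_on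
    generalizing E with
  | _ m ih =>
  by_cases h0 : ∃ i j, lab i = lab j ∧ E i j ≠ 0
  · obtain ⟨i, j, hij, hne⟩ := h0
    have h1 : E i j ∈ Submodule.span ℝ {(1 : R)} := by
      rw [← hdiag (lab j)]
      have := hE i j
      rwa [hij] at this
    obtain ⟨c, hc⟩ := Submodule.mem_span_singleton.1 h1
    have hc0 : c ≠ 0 := by
      rintro rfl
      exact hne (by rw [← hc, zero_smul])
    have hcc : c⁻¹ • E i j = 1 := by rw [← hc, smul_smul, inv_mul_cancel₀ hc0, one_smul]
    obtain ⟨u, hu⟩ : ∃ u : Matrix ι Unit R, ∀ a b, u a b = E a j := ⟨.of fun a _ => E a j, fun _ _ => rfl⟩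
    obtain ⟨w, hw⟩ : ∃ w : Matrix Unit ι R, ∀ a b, w a b = c⁻¹ • E i b :=
      ⟨.of fun _ b => c⁻¹ • E i b, fun _ _ => rfl⟩
    have hEu : E * u = u := by
      ext a b
      simp only [Matrix.mul_apply, hu]
      rw [← Matrix.mul_apply, hEE]
    have hwE : w * E = w := by
      ext a b
      simp only [Matrix.mul_apply, hw, smul_mul_assoc]
      rw [← Finset.smul_sum, ← Matrix.mul_apply, hEE]
    have hwu : w * u = 1 := by
      ext a b
      simp only [Matrix.mul_apply, hw, hu, smul_mul_assoc]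
      rw [← Finset.smul_sum, ← Matrix.mul_apply, hEE, hcc, Matrix.one_apply_eq]
    have huw : ∀ a b, (u * w) a b = E a j * c⁻¹ • E i b := fun a b => by
      simp only [Matrix.mul_apply, hw, hu, Finset.univ_unique, Finset.sum_singleton]
    have su : ∀ a, E a j ∈ S (lab a) (lab j) := fun a => hE a j
    have sw : ∀ b, c⁻¹ • E i b ∈ S (lab j) (lab b) := fun b =>
      Submodule.smul_mem _ _ (hij ▸ hE i b)
    have h2 : (E - u * w) * u = 0 := by
      rw [Matrix.sub_mul, hEu, Matrix.mul_assoc, hwu, Matrix.mul_one, sub_self]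
    have h3 : w * (E - u * w) = 0 := by
      rw [Matrix.mul_sub, hwE, ← Matrix.mul_assoc, hwu, Matrix.one_mul, sub_self]
    obtain ⟨κ, _, _, lab', I, P, hI, hP, hPI, hIP⟩ := ih _ (by
      rw [← hn]
      refine Finset.card_lt_card ⟨fun b hb => ?_, fun hs => ?_⟩
      · simp only [Finset.mem_filter, Finset.mem_univ, true_and] at hb ⊢
        by_contra h
        push Not at h
        obtain ⟨a, ha⟩ := hb
        exact ha (by rw [Matrix.sub_apply, huw, h, h, smul_zero, mul_zero, sub_zero])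
      · obtain ⟨a, ha⟩ := (Finset.mem_filter.1
          (hs (Finset.mem_filter.2 ⟨Finset.mem_univ j, i, hne⟩))).2
        exact ha (by rw [Matrix.sub_apply, huw, hcc, mul_one, sub_self])) (E - u * w)
      (fun a b => by
        rw [Matrix.sub_apply, huw]
        exact Submodule.sub_mem _ (hE a b) (hmul _ _ _ _ (su a) _ (sw b)))
      (by rw [Matrix.sub_mul, Matrix.mul_assoc u, h3, Matrix.mul_zero, sub_zero, Matrix.mul_sub,
        hEE, ← Matrix.mul_assoc, hEu]) rfl
    have h4 : w * I = 0 := by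
      calc w * I = w * (I * P) * I := by
            rw [Matrix.mul_assoc, Matrix.mul_assoc, hPI, Matrix.mul_one]
        _ = 0 := by rw [hIP, h3, Matrix.zero_mul]
    have h5 : P * u = 0 := by
      calc P * u = P * (I * P * u) := by
            rw [← Matrix.mul_assoc, ← Matrix.mul_assoc, hPI, Matrix.one_mul]
        _ = 0 := by rw [hIP, h2, Matrix.mul_zero]
    refine ⟨Unit ⊕ κ, inferInstance, inferInstance, Sum.elim (fun _ => lab j) lab',
      Matrix.fromCols u I, Matrix.fromRows w P, ?_, ?_, ?_, ?_⟩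
    · rintro a (b | b)
      · rw [Matrix.fromCols_apply_inl, hu]
        exact su a
      · exact hI a b
    · rintro (a | a) b
      · rw [Matrix.fromRows_apply_inl, hw]
        exact sw b
      · exact hP a b
    · rw [Matrix.fromRows_mul_fromCols, hwu, h4, h5, hPI, Matrix.fromBlocks_one]
    · rw [Matrix.fromCols_mul_fromRows, hIP, add_sub_cancel]
  · push Not at h0
    have h1 : ∀ i j, E i j ≠ 0 → lt (lab i) (lab j) := fun i j h =>
      (hlt _ _ _ (hE i j) h).resolve_left fun e => h (h0 i j e)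
    have : IsTrans ι fun a b => lt (lab b) (lab a) := ⟨fun _ _ _ h h' => htr _ _ _ h' h⟩
    have : Std.Irrefl fun a b : ι => lt (lab b) (lab a) := ⟨fun _ => hirr _⟩
    have h2 : E = 0 := by
      ext i j
      by_contra h
      obtain ⟨a, ha, hm⟩ := (Finite.wellFounded_of_trans_of_irrefl
        fun a b : ι => lt (lab b) (lab a)).has_min {a | E a j ≠ 0} ⟨i, h⟩
      have h3 : (E * E) a j ≠ 0 := by rwa [hEE]
      rw [Matrix.mul_apply] at h3
      obtain ⟨b, -, hb⟩ := Finset.exists_ne_zero_of_sum_ne_zero h3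
      exact hm b (right_ne_zero_of_mul hb) (h1 a b (left_ne_zero_of_mul hb))
    exact ⟨Empty, inferInstance, inferInstance, Empty.elim, 0, 0, fun _ a => a.elim,
      fun a => a.elim, Subsingleton.elim _ _, by rw [h2, Matrix.zero_mul]⟩

variable {n : ℕ}

theorem img_idem (M : Bim n) (S : Subalgebra ℝ (Rn n)) {E : Matrix M.ι M.ι (Rn n)}
    (hE : E ∈ Hom M M 0) (hEE : E * E = E) (hS : ∀ a b, E a b ∈ S) :
    ∃ N : Bim n, ∃ i ∈ Hom N M 0, ∃ p ∈ Hom M N 0, p * i = 1 ∧ i * p = E ∧
      (∀ a b, i a b ∈ S) ∧ (∀ a b, p a b ∈ S) ∧ ∀ q, N.A q = p * M.A q * i := by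
  obtain ⟨κ, _, _, d, I, P, hI, hP, hPI, hIP⟩ := split_idem M.d
    (fun a b => Subalgebra.toSubmodule S ⊓ weightedHomogeneousSubmodule ℝ (fun _ => (2 : ℤ)) (b - a))
    (· < ·) (fun _ _ _ => lt_trans) lt_irrefl
    (fun a b c p hp q hq => ⟨S.mul_mem hp.1 hq.1, by
      have := Hg.mul (p := p) (q := q) hp.2 hq.2
      rwa [show b - a + (c - b) = c - a by ring] at this⟩)
    (fun a => le_antisymm (fun p hp => by
        have h : Hg p 0 := by simpa [Hg] using hp.2
        rw [h.eq_C, Submodule.mem_span_singleton]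
        exact ⟨constantCoeff p, by rw [smul_eq_C_mul, mul_one]⟩) (by
        rw [Submodule.span_singleton_le_iff_mem, sub_self]
        exact ⟨S.one_mem, isWeightedHomogeneous_one _ _⟩))
    (fun a b p hp h0 => by
      by_contra h
      exact h0 (Hg.eq_zero (p := p) hp.2 (by omega)))
    E (fun a b => ⟨hS a b, by simpa [Hg] using hE.1 a b⟩) hEE
  have gI : Gr d M.d 0 I := fun a b => by simpa [Hg] using (hI a b).2
  have gP : Gr M.d d 0 P := fun a b => by simpa [Hg] using (hP a b).2
  have h1 : ∀ q, I * (P * M.A q * I) = M.A q * I := fun q => by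
    rw [← Matrix.mul_assoc, ← Matrix.mul_assoc, hIP, ← hE.2, ← hIP, Matrix.mul_assoc,
      Matrix.mul_assoc, hPI, Matrix.mul_one]
  have h2 : ∀ q, P * M.A q * I * P = P * M.A q := fun q => by
    rw [Matrix.mul_assoc, hIP, Matrix.mul_assoc, hE.2, ← hIP, ← Matrix.mul_assoc,
      ← Matrix.mul_assoc, hPI, Matrix.one_mul]
  let A : Rn n →ₐ[ℝ] Matrix κ κ (Rn n) := AlgHom.ofLinearMap
    { toFun := fun q => P * M.A q * I
      map_add' := fun p q => by rw [map_add, Matrix.mul_add, Matrix.add_mul]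
      map_smul' := fun a q => by
        rw [map_smul, Matrix.mul_smul, Matrix.smul_mul, RingHom.id_apply] }
    (by simp [hPI]) (fun p q => by
      change P * M.A (p * q) * I = P * M.A p * I * (P * M.A q * I)
      rw [Matrix.mul_assoc _ I, h1, map_mul]
      simp only [Matrix.mul_assoc])
  refine ⟨⟨κ, d, A, fun q k hq => ?_⟩, I, ⟨gI, fun q => (h1 q).symm⟩, P, ⟨gP, h2⟩, hPI, hIP,
    fun a b => (hI a b).1, fun a b => (hP a b).1, fun _ => rfl⟩
  have := gI.mul ((M.gr q k hq).mul gP)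
  rwa [zero_add, add_zero] at this

theorem exists_compl {M N : Bim n} {i : Matrix M.ι N.ι (Rn n)} {p : Matrix N.ι M.ι (Rn n)}
    (hi : i ∈ Hom N M 0) (hp : p ∈ Hom M N 0) (h : p * i = 1) :
    ∃ N' : Bim n, ∃ i' ∈ Hom N' M 0, ∃ p' ∈ Hom M N' 0, p' * i' = 1 ∧ i * p + i' * p' = 1 ∧
      p * i' = 0 ∧ p' * i = 0 := by
  have h1 : p * (1 - i * p) = 0 := by
    rw [Matrix.mul_sub, Matrix.mul_one, ← Matrix.mul_assoc, h, Matrix.one_mul, sub_self]
  have h2 : (1 - i * p) * i = 0 := by
    rw [Matrix.sub_mul, Matrix.one_mul, Matrix.mul_assoc, h, Matrix.mul_one, sub_self]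
  obtain ⟨N', i', hi', p', hp', h3, h4, -⟩ := img_idem M ⊤ (E := 1 - i * p)
    (Submodule.sub_mem _ (Hom.one M) (Hom.comp0 hp hi))
    (by rw [Matrix.sub_mul, Matrix.one_mul, Matrix.mul_assoc, h1, Matrix.mul_zero, sub_zero])
    fun _ _ => Algebra.mem_top
  refine ⟨N', i', hi', p', hp', h3, by rw [h4, add_sub_cancel], ?_, ?_⟩
  · calc p * i' = p * (i' * p') * i' := by
          rw [Matrix.mul_assoc, Matrix.mul_assoc, h3, Matrix.mul_one]
      _ = 0 := by rw [h4, h1, Matrix.zero_mul]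
  · calc p' * i = p' * (i' * p' * i) := by
          rw [← Matrix.mul_assoc, ← Matrix.mul_assoc, h3, Matrix.one_mul]
      _ = 0 := by rw [h4, h2, Matrix.mul_zero]

theorem Split.card {M N N' : Bim n} (h : Split M N N') :
    Fintype.card M.ι = Fintype.card N.ι + Fintype.card N'.ι := by
  obtain ⟨i, -, p, -, i', -, p', -, h1, h2, h3⟩ := h
  have := congrArg Matrix.trace h3
  rw [Matrix.trace_add, Matrix.trace_mul_comm i, Matrix.trace_mul_comm i', h1, h2,
    Matrix.trace_one, Matrix.trace_one, Matrix.trace_one] at this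
  exact_mod_cast this.symm

theorem Split.symm {M N N' : Bim n} (h : Split M N N') : Split M N' N := by
  obtain ⟨i, hi, p, hp, i', hi', p', hp', h1, h2, h3⟩ := h
  exact ⟨i', hi', p', hp', i, hi, p, hp, h2, h1, by rw [add_comm, h3]⟩

theorem Iso.card {M N : Bim n} (h : Iso M N) : Fintype.card M.ι = Fintype.card N.ι := by
  obtain ⟨f, -, g, -, h1, h2⟩ := h
  have := congrArg Matrix.trace h1
  rw [Matrix.trace_mul_comm, h2, Matrix.trace_one, Matrix.trace_one] at this
  exact_mod_cast this.symm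

theorem ite_mul_zero_right' (c : Prop) [Decidable c] (a : ℝ) :
    (if c then 1 else 0) * a = if c then a else 0 := by
  split_ifs <;> simp

theorem Hg.comp_mul {p : Rn n} {m : ℤ} (hp : Hg p m) (l : ℤ) (q : Rn n) :
    weightedHomogeneousComponent (fun _ => (2 : ℤ)) (m + l) (p * q) =
      p * weightedHomogeneousComponent (fun _ => (2 : ℤ)) l q := by
  ext e
  rw [coeff_weightedHomogeneousComponent, coeff_mul, coeff_mul]
  simp only [coeff_weightedHomogeneousComponent]
  rw [← ite_mul_zero_right', Finset.mul_sum]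
  refine Finset.sum_congr rfl fun x hx => ?_
  by_cases h0 : coeff x.1 p = 0
  · simp [h0]
  · rw [← Finset.HasAntidiagonal.mem_antidiagonal.1 hx, map_add, hp h0]
    simp only [add_right_inj]
    split_ifs <;> simp

theorem Gr.inv {ι : Type} [Fintype ι] [DecidableEq ι] {d d' : ι → ℤ} {k : ℤ}
    {F : Matrix ι ι (Rn n)} (hF : Gr d d' k F) (hu : IsUnit F.det) : Gr d' d (-k) F⁻¹ := by
  have h1 : F * (Matrix.of fun a b => weightedHomogeneousComponent (fun _ => (2 : ℤ))
      (d' b + -k - d a) (F⁻¹ a b)) = 1 := by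
    ext1 a b
    have h2 : ∀ c, F a c * weightedHomogeneousComponent (fun _ => (2 : ℤ)) (d' b + -k - d c)
        (F⁻¹ c b) = weightedHomogeneousComponent (fun _ => (2 : ℤ)) (d' b - d' a)
          (F a c * F⁻¹ c b) := fun c => by
      rw [← (hF a c).comp_mul]
      congr 2
      ring
    simp only [Matrix.mul_apply, Matrix.of_apply, h2]
    rw [← map_sum, ← Matrix.mul_apply, Matrix.mul_nonsing_inv _ hu]
    by_cases hab : a = b
    · subst hab
      rw [Matrix.one_apply_eq, sub_self]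
      exact (isWeightedHomogeneous_one _ _).weightedHomogeneousComponent_same
    · rw [Matrix.one_apply_ne hab, map_zero]
  rw [Matrix.inv_eq_right_inv h1]
  exact fun a b => weightedHomogeneousComponent_isWeightedHomogeneous _ _

instance Hom.finite (N M : Bim n) (k : ℤ) : Module.Finite ℝ (Hom N M k) := by
  have h : Module.Finite ℝ (Submodule.pi Set.univ fun a : M.ι => Submodule.pi Set.univ
      fun b : N.ι => restrictTotalDegree (Fin n) ℝ (N.d b + k - M.d a).toNat) :=
    Module.Finite.iff_fg.2 (Submodule.fg_pi fun _ => Submodule.fg_pi fun _ =>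
      Module.Finite.iff_fg.1 inferInstance)
  refine @Submodule.finiteDimensional_of_le ℝ (Matrix M.ι N.ι (Rn n)) _ _ _ _ _ h
    fun F hF a _ b _ => ?_
  refine (mem_restrictTotalDegree _ _ _).2 ?_
  rcases (hF.1 a b).cases with h0 | ⟨m, hm, h0⟩
  · rw [h0, totalDegree_zero]
    exact Nat.zero_le _
  · exact h0.totalDegree_le.trans (by omega)

/-- composition on the right -/
def preL {N N' : Bim n} (M : Bim n) (k : ℤ) {g : Matrix N.ι N'.ι (Rn n)} (hg : g ∈ Hom N' N 0) :
    Hom N M k →ₗ[ℝ] Hom N' M k where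
  toFun F := ⟨F.1 * g, Hom.comp0 hg F.2⟩
  map_add' F G := Subtype.ext (Matrix.add_mul F.1 G.1 g)
  map_smul' a F := Subtype.ext (Matrix.smul_mul a F.1 g)

/-- composition on the left -/
def postL {M M' : Bim n} (N : Bim n) (k : ℤ) {f : Matrix M'.ι M.ι (Rn n)} (hf : f ∈ Hom M M' 0) :
    Hom N M k →ₗ[ℝ] Hom N M' k where
  toFun F := ⟨f * F.1, Hom.comp0' F.2 hf⟩
  map_add' F G := Subtype.ext (Matrix.mul_add f F.1 G.1)
  map_smul' a F := Subtype.ext (Matrix.mul_smul f a F.1)

theorem Iso.finrank_left {N N' : Bim n} (h : Iso N N') (M : Bim n) (k : ℤ) :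
    Module.finrank ℝ (Hom N M k) = Module.finrank ℝ (Hom N' M k) := by
  obtain ⟨f, hf, g, hg, h1, h2⟩ := h
  refine (LinearEquiv.ofLinearMap (preL M k hg) (preL M k hf) ?_ ?_).finrank_eq
  · ext1 F
    exact Subtype.ext ((Matrix.mul_assoc F.1 f g).trans (by rw [h2, Matrix.mul_one]; rfl))
  · ext1 F
    exact Subtype.ext ((Matrix.mul_assoc F.1 g f).trans (by rw [h1, Matrix.mul_one]; rfl))

theorem Iso.finrank_right {M M' : Bim n} (h : Iso M M') (N : Bim n) (k : ℤ) :
    Module.finrank ℝ (Hom N M k) = Module.finrank ℝ (Hom N M' k) := by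
  obtain ⟨f, hf, g, hg, h1, h2⟩ := h
  refine (LinearEquiv.ofLinearMap (postL N k hf) (postL N k hg) ?_ ?_).finrank_eq
  · ext1 F
    exact Subtype.ext ((Matrix.mul_assoc f g F.1).symm.trans (by rw [h2, Matrix.one_mul]; rfl))
  · ext1 F
    exact Subtype.ext ((Matrix.mul_assoc g f F.1).symm.trans (by rw [h1, Matrix.one_mul]; rfl))

theorem Split.finrank {M N N' : Bim n} (h : Split M N N') (P : Bim n) (k : ℤ) :
    Module.finrank ℝ (Hom P M k) =
      Module.finrank ℝ (Hom P N k) + Module.finrank ℝ (Hom P N' k) := by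
  obtain ⟨i, hi, p, hp, i', hi', p', hp', h1, h2, h3⟩ := h
  have h4 : p * i' = 0 := by
    have := congrArg (fun E => p * E * i') h3
    simp only [Matrix.mul_add, Matrix.add_mul, Matrix.mul_one, ← Matrix.mul_assoc, h1,
      Matrix.one_mul] at this
    rwa [Matrix.mul_assoc _ p', h2, Matrix.mul_one, add_eq_left] at this
  have h5 : p' * i = 0 := by
    have := congrArg (fun E => p' * E * i) h3
    simp only [Matrix.mul_add, Matrix.add_mul, Matrix.mul_one, ← Matrix.mul_assoc, h2,
      Matrix.one_mul] at this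
    rwa [Matrix.mul_assoc _ p, h1, Matrix.mul_one, add_eq_left] at this
  rw [← Module.finrank_prod]
  refine (LinearEquiv.ofLinearMap ((postL P k hp).prod (postL P k hp'))
    ((postL P k hi).coprod (postL P k hi')) ?_ ?_).finrank_eq
  · refine LinearMap.ext fun F => Prod.ext (Subtype.ext ?_) (Subtype.ext ?_)
    · change p * (i * F.1.1 + i' * F.2.1) = F.1.1
      rw [Matrix.mul_add, ← Matrix.mul_assoc, ← Matrix.mul_assoc, h1, h4, Matrix.one_mul,
        Matrix.zero_mul, add_zero]
    · change p' * (i * F.1.1 + i' * F.2.1) = F.2.1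
      rw [Matrix.mul_add, ← Matrix.mul_assoc, ← Matrix.mul_assoc, h2, h5, Matrix.one_mul,
        Matrix.zero_mul, zero_add]
  · refine LinearMap.ext fun F => Subtype.ext ?_
    change i * (p * F.1) + i' * (p' * F.1) = F.1
    rw [← Matrix.mul_assoc, ← Matrix.mul_assoc, ← Matrix.add_mul, h3, Matrix.one_mul]

theorem rdim_neg {m : ℤ} (h : m < 0) : rdim n m = 0 := by
  have : weightedHomogeneousSubmodule ℝ (fun _ : Fin n => (2 : ℤ)) m = ⊥ :=
    eq_bot_iff.2 fun p hp => Hg.eq_zero (p := p) hp h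
  rw [rdim, this, finrank_bot, Nat.cast_zero]

theorem rdim_zero : rdim n 0 = 1 := by
  have : weightedHomogeneousSubmodule ℝ (fun _ : Fin n => (2 : ℤ)) 0 =
      Submodule.span ℝ {(1 : Rn n)} := by
    refine le_antisymm (fun p hp => ?_) ?_
    · rw [Hg.eq_C (p := p) hp, Submodule.mem_span_singleton]
      exact ⟨constantCoeff p, by rw [smul_eq_C_mul, mul_one]⟩
    · rw [Submodule.span_singleton_le_iff_mem]
      exact isWeightedHomogeneous_one _ _
  rw [rdim, this, finrank_span_singleton one_ne_zero, Nat.cast_one]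

theorem Lam_add (k : ℤ) (r r' : Lp) : Lam n k (r + r') = Lam n k r + Lam n k r' := by
  rw [Lam, AddMonoidAlgebra.coeff_add]
  exact Finsupp.sum_add_index' (fun _ => zero_mul _) fun _ _ _ => add_mul _ _ _

theorem Lam_sub (k : ℤ) (r r' : Lp) : Lam n k (r - r') = Lam n k r - Lam n k r' := by
  rw [eq_sub_iff_add_eq, ← Lam_add, sub_add_cancel]

theorem Lam_sum {α : Type} (s : Finset α) (k : ℤ) (r : α → Lp) :
    Lam n k (∑ a ∈ s, r a) = ∑ a ∈ s, Lam n k (r a) := by
  induction s using Finset.induction_on with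
  | empty => simp [Lam]
  | insert a s ha ih => rw [Finset.sum_insert ha, Finset.sum_insert ha, Lam_add, ih]

theorem Lam_T (k j : ℤ) : Lam n k (LaurentPolynomial.T j) = rdim n (k + j) := by
  rw [Lam, LaurentPolynomial.T, AddMonoidAlgebra.coeff_single,
    Finsupp.sum_single_index (zero_mul _), one_mul]

theorem Lam_eq_zero {k m : ℤ} {r : Lp} (h : DegLe r m) (hk : k + m < 0) : Lam n k r = 0 := by
  refine Finset.sum_eq_zero fun j hj => ?_
  have : j ≤ m := not_lt.1 fun c => Finsupp.mem_support_iff.1 hj (h j c)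
  exact mul_eq_zero_of_right _ (rdim_neg (by omega))

theorem Lam_zero {r : Lp} (h : DegLe r 0) : Lam n 0 r = r.coeff 0 := by
  rw [Lam, Finsupp.sum_eq_single 0]
  · rw [add_zero, rdim_zero, mul_one]
  · intro j hj h0
    have : j ≤ 0 := not_lt.1 fun c => hj (h j c)
    rw [rdim_neg (by omega), mul_zero]
  · exact fun _ => zero_mul _

end

end Pool.Agent.P.MP_1a0ecf_al
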