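import Pool.Agent.P.MP_1a0ecf_al.M1
import Pool.Agent.P.MP_1a0ecf_al.G2

/-! Package M3: normal form of triangular bimodules. -/

namespace Pool.Agent.P.MP_1a0ecf_al

open Matrix MvPolynomial
open scoped Classical Kronecker

noncomputable section

namespace M3P

variable {X : Cox} {N : Bim X.n}

/-- the same basis with another left action -/
abbrev re (N : Bim X.n) (A : Rn X.n →ₐ[ℝ] Matrix N.ι N.ι (Rn X.n))
    (h : ∀ p k, Hg p k → Gr N.d N.d k (A p)) : Bim X.n where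
  ι := N.ι
  d := N.d
  A := A
  gr := h

/-- conjugation -/
def cj (N : Bim X.n) {P Q : Matrix N.ι N.ι (Rn X.n)} (h : P * Q = 1) (h' : Q * P = 1) :
    Rn X.n →ₐ[ℝ] Matrix N.ι N.ι (Rn X.n) :=
  AlgHom.ofLinearMap
    { toFun := fun p => P * N.A p * Q
      map_add' := fun p q => by rw [map_add, mul_add, add_mul]
      map_smul' := fun a p => by simp }
    (by simp [h])
    (fun p q => by
      change P * N.A (p * q) * Q = P * N.A p * Q * (P * N.A q * Q)
      rw [map_mul]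
      simp only [mul_assoc]
      rw [← mul_assoc Q P, h', one_mul])

theorem exists_cj (N : Bim X.n) {P Q : Matrix N.ι N.ι (Rn X.n)} (h : P * Q = 1) (h' : Q * P = 1)
    (hP : Gr N.d N.d 0 P) (hQ : Gr N.d N.d 0 Q) :
    ∃ A hA, Iso N (re N A hA) ∧ ∀ p, A p = P * N.A p * Q := by
  refine ⟨cj N h h', fun p k hp => ?_, ⟨P, ⟨hP, fun p => ?_⟩, Q, ⟨hQ, fun p => ?_⟩, h', h⟩,
    fun _ => rfl⟩
  · have := hQ.mul ((N.gr p k hp).mul hP)
    rwa [zero_add, add_zero] at this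
  · change P * N.A p * Q * P = P * N.A p
    rw [mul_assoc, h', mul_one]
  · change N.A p * Q = Q * (P * N.A p * Q)
    rw [← mul_assoc, ← mul_assoc, h', one_mul]

/-- the invariant of the induction -/
def Iv (N : Bim X.n) (w : N.ι → X.W) (r : X.W → ℕ) (δ : ℕ) (S : Finset (N.ι × N.ι)) : Prop :=
  ∀ v a b, (a = b → N.A (lin ℝ v) a b = X.act ℝ (w a)⁻¹ (lin ℝ v)) ∧
    (a ≠ b → N.A (lin ℝ v) a b ≠ 0 → r (w b) < r (w a) ∧
      (r (w a) < r (w b) + δ ∨ r (w a) = r (w b) + δ ∧ (a, b) ∉ S → X.gt (w a) (w b)))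

variable {w : N.ι → X.W} {r : X.W → ℕ} {δ : ℕ} {S : Finset (N.ι × N.ι)} {a b : N.ι}

theorem exists_g (hr : ∀ x y, r y < r x → X.RankOne x y → X.gt x y) (h : Iv N w r δ S)
    (hlt : r (w b) < r (w a)) (he : r (w a) = r (w b) + δ) (hg : ¬X.gt (w a) (w b)) :
    ∃ g, Hg g (N.d b + 0 - N.d a) ∧ ∀ v,
      N.A (lin ℝ v) a b = g * (N.A (lin ℝ v) a a - N.A (lin ℝ v) b b) := by
  have hab : a ≠ b := fun e => by rw [e] at hlt; exact lt_irrefl _ hlt
  obtain ⟨D, hD⟩ : ∃ D : (Fin X.n → ℝ) → Fin X.n → ℝ,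
    D = fun v => X.σ (w a)⁻¹ *ᵥ v - X.σ (w b)⁻¹ *ᵥ v := ⟨_, rfl⟩
  have e0 : ∀ v, N.A (lin ℝ v) a a - N.A (lin ℝ v) b b = lin ℝ (D v) := fun v => by
    rw [(h v a a).1 rfl, (h v b b).1 rfl, Cox.act_lin, Cox.act_lin, X.σK_real, X.σK_real, hD,
      map_sub]
  have e1 : ∀ u v, (N.A (lin ℝ u) * N.A (lin ℝ v)) a b =
      N.A (lin ℝ u) a a * N.A (lin ℝ v) a b + N.A (lin ℝ u) a b * N.A (lin ℝ v) b b := fun u v => by
    rw [mul_apply]
    refine Finset.sum_eq_add a b hab (fun c _ hc => ?_) (by simp) (by simp)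
    by_contra h0
    have h1 := (h u a c).2 hc.1.symm (left_ne_zero_of_mul h0)
    have h2 := (h v c b).2 hc.2 (right_ne_zero_of_mul h0)
    exact hg (X.gt_trans (h1.2 (Or.inl (by omega))) (h2.2 (Or.inl (by omega))))
  have e2 : ∀ u v, N.A (lin ℝ u) a b * lin ℝ (D v) = N.A (lin ℝ v) a b * lin ℝ (D u) := fun u v => by
    have := e1 u v
    rw [← map_mul, mul_comm, map_mul, e1 v u] at this
    rw [← e0, ← e0]
    linear_combination this
  have hn : ∀ β : Fin X.n → ℝ, ∃ v, ∀ t : ℝ, D v ≠ t • β := fun β => by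
    by_contra h0
    push Not at h0
    exact hg (hr _ _ hlt ⟨fun e => by rw [e] at hlt; exact lt_irrefl _ hlt, β, by rwa [hD] at h0⟩)
  obtain ⟨v₀, h0⟩ := hn 0
  have h0 : D v₀ ≠ 0 := by simpa using h0 0
  obtain ⟨v₁, h1⟩ := hn (D v₀)
  obtain ⟨g, hg⟩ := lin_dvd_of_indep ℝ h1 h0 (q := N.A (lin ℝ v₀) a b)
    ⟨_, (e2 v₀ v₁).trans (mul_comm _ _)⟩
  have hl : lin ℝ (D v₀) ≠ 0 := fun e => h0 (lin_injective ℝ (e.trans (map_zero _).symm))
  refine ⟨g, ?_, fun v => mul_right_cancel₀ hl ?_⟩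
  · have := N.gr _ _ (Hg.lin v₀) a b
    rw [hg] at this
    convert Hg.of_lin_mul h0 this using 1
    ring
  · rw [e0, e2, hg]
    ring

theorem step (hr : ∀ x y, r y < r x → X.RankOne x y → X.gt x y)
    (h : Iv N w r δ (insert (a, b) S)) : ∃ A hA, Iso N (re N A hA) ∧ Iv (re N A hA) w r δ S := by
  by_cases hc : r (w b) < r (w a) ∧ r (w a) = r (w b) + δ ∧ ¬X.gt (w a) (w b)
  swap
  · refine ⟨N.A, N.gr, Iso.refl N, fun v c d => ⟨(h v c d).1, fun hcd h0 => ?_⟩⟩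
    obtain ⟨h1, h2⟩ := (h v c d).2 hcd h0
    refine ⟨h1, fun h3 => ?_⟩
    by_contra hg
    refine hg (h2 (h3.imp_right fun h4 => ⟨h4.1, fun h5 => ?_⟩))
    rcases Finset.mem_insert.1 h5 with h5 | h5
    · obtain ⟨rfl, rfl⟩ := Prod.ext_iff.1 h5
      exact hc ⟨h1, h4.1, hg⟩
    · exact h4.2 h5
  obtain ⟨hlt, he, hg⟩ := hc
  have hab : a ≠ b := fun e => by rw [e] at hlt; exact lt_irrefl _ hlt
  obtain ⟨g, g1, g2⟩ := exists_g hr h hlt he hg
  have hE : single a b g * single a b g = 0 := single_mul_single_of_ne _ _ _ _ hab.symm _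
  have gE : Gr N.d N.d 0 (single a b g) := fun i j => by
    rw [single, of_apply]
    split_ifs with e
    · rw [← e.1, ← e.2]; exact g1
    · exact Hg.zero _
  obtain ⟨A, hA, i, e⟩ := exists_cj N (P := 1 + single a b g) (Q := 1 - single a b g)
    (by rw [add_mul, mul_sub, mul_sub, hE]; simp) (by rw [sub_mul, mul_add, mul_add, hE]; simp)
    (fun i j => (Gr.one _ i j).add (gE i j)) fun i j => (Gr.one _ i j).sub (gE i j)
  refine ⟨A, hA, i, fun v c d => ?_⟩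
  have z : ∀ {c d}, c ≠ d → r (w c) ≤ r (w d) → N.A (lin ℝ v) c d = 0 := fun hcd hle => by
    by_contra h0
    exact ((h v _ _).2 hcd h0).1.not_ge hle
  have e1 : A (lin ℝ v) c d = N.A (lin ℝ v) c d + (if c = a then g * N.A (lin ℝ v) b d else 0) -
      if d = b then N.A (lin ℝ v) c a * g else 0 := by
    rw [e, mul_sub, mul_one, add_mul, one_mul, add_mul, Matrix.sub_apply, Matrix.add_apply,
      Matrix.add_apply]
    by_cases h1 : c = a <;> by_cases h2 : d = b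
    · subst h1 h2; simp [z hab.symm hlt.le]
    · subst h1; simp [h2]
    · subst h2; simp [h1]
    · simp [h1, h2]
  change (c = d → A (lin ℝ v) c d = _) ∧ (c ≠ d → A (lin ℝ v) c d ≠ 0 → _)
  rw [e1]
  refine ⟨fun hcd => ?_, fun hcd h0 => ?_⟩
  · subst hcd
    rw [← (h v c c).1 rfl]
    by_cases h1 : c = a <;> by_cases h2 : c = b
    · exact absurd (h1.symm.trans h2) hab
    · subst h1; simp [h2, z hab.symm hlt.le]
    · subst h2; simp [h1, z hab.symm hlt.le]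
    · simp [h1, h2]
  by_cases h3 : c = a ∧ d = b
  · obtain ⟨rfl, rfl⟩ := h3
    refine absurd ?_ h0
    rw [if_pos rfl, if_pos rfl, g2]
    ring
  have t1 : (if c = a then g * N.A (lin ℝ v) b d else 0) ≠ 0 → r (w d) + δ < r (w c) := fun t => by
    split_ifs at t with h1
    · have := ((h v b d).2 (fun e => h3 ⟨h1, e.symm⟩) (right_ne_zero_of_mul t)).1
      rw [h1]; omega
    · exact absurd rfl t
  have t2 : (if d = b then N.A (lin ℝ v) c a * g else 0) ≠ 0 → r (w d) + δ < r (w c) := fun t => by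
    split_ifs at t with h1
    · have := ((h v c a).2 (fun e => h3 ⟨e, h1⟩) (left_ne_zero_of_mul t)).1
      rw [h1]; omega
    · exact absurd rfl t
  by_cases h4 : r (w d) + δ < r (w c)
  · exact ⟨by omega, fun h5 => by omega⟩
  rw [not_not.1 (mt t1 h4), not_not.1 (mt t2 h4), add_zero, sub_zero] at h0
  obtain ⟨h1, h2⟩ := (h v c d).2 hcd h0
  refine ⟨h1, fun h5 => h2 (h5.imp_right fun h6 => ⟨h6.1, fun h7 => ?_⟩)⟩
  rcases Finset.mem_insert.1 h7 with h7 | h7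
  · exact h3 (Prod.ext_iff.1 h7)
  · exact h6.2 h7

theorem level (hr : ∀ x y, r y < r x → X.RankOne x y → X.gt x y) (S : Finset (N.ι × N.ι)) :
    ∀ A hA, Iv (re N A hA) w r δ S → ∃ A' hA', Iso (re N A hA) (re N A' hA') ∧
      Iv (re N A' hA') w r (δ + 1) Finset.univ := by
  induction S using Finset.induction_on with
  | empty =>
    refine fun A hA h => ⟨A, hA, Iso.refl _, fun v c d => ⟨(h v c d).1, fun hcd h0 => ?_⟩⟩
    obtain ⟨h1, h2⟩ := (h v c d).2 hcd h0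
    refine ⟨h1, fun h3 => h2 ?_⟩
    rcases h3 with h3 | h3
    · rcases (Nat.lt_succ_iff.1 h3).eq_or_lt with h4 | h4
      · exact Or.inr ⟨h4, Finset.notMem_empty _⟩
      · exact Or.inl h4
    · exact absurd (Finset.mem_univ _) h3.2
  | insert p S _ ih =>
    intro A hA h
    obtain ⟨A₁, h1, i1, v1⟩ := step (N := re N A hA) (a := p.1) (b := p.2) hr h
    obtain ⟨A₂, h2, i2, v2⟩ := ih A₁ h1 v1
    exact ⟨A₂, h2, i1.trans i2, v2⟩

end M3P

open M3P

theorem norm_flag (X : Cox) (N : Bim X.n) (w : N.ι → X.W) (r : X.W → ℕ)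
    (hr : ∀ x y, r y < r x → X.RankOne x y → X.gt x y)
    (h : ∀ v a b, (a = b → N.A (lin ℝ v) a b = X.act ℝ (w a)⁻¹ (lin ℝ v)) ∧
      (a ≠ b → N.A (lin ℝ v) a b ≠ 0 → r (w b) < r (w a))) :
    ∃ (N' : Bim X.n) (e : N'.ι ≃ N.ι), (∀ a, N'.d a = N.d (e a)) ∧ Iso N N' ∧
      X.IsFlag N' (w ∘ e) := by
  have key : ∀ δ, ∃ A hA, Iso N (re N A hA) ∧ Iv (re N A hA) w r δ Finset.univ := fun δ => by
    induction δ with
    | zero =>
      refine ⟨N.A, N.gr, Iso.refl N, fun v c d => ⟨(h v c d).1, fun hcd h0 => ?_⟩⟩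
      have := (h v c d).2 hcd h0
      exact ⟨this, fun h3 => h3.elim (fun _ => by omega) fun h4 => absurd (Finset.mem_univ _) h4.2⟩
    | succ δ ih =>
      obtain ⟨A, hA, i, v⟩ := ih
      obtain ⟨A', hA', i', v'⟩ := level hr _ A hA v
      exact ⟨A', hA', i.trans i', v'⟩
  obtain ⟨A, hA, i, v⟩ := key (Finset.univ.sup r + 1)
  refine ⟨re N A hA, Equiv.refl _, fun _ => rfl, i, fun u c d => ⟨(v u c d).1, fun hcd h0 =>
    ((v u c d).2 hcd h0).2 (Or.inl ?_)⟩⟩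
  have := Finset.le_sup (f := r) (Finset.mem_univ (w c))
  omega

end

end Pool.Agent.P.MP_1a0ecf_al
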