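import Pool.Agent.P.MP_1a0ecf_al.M3

/-! Package M4: flags on `N B_s`. -/

namespace Pool.Agent.P.MP_1a0ecf_al

open Matrix MvPolynomial
open scoped Classical Kronecker

noncomputable section

/-- the short (`0`) and the long (`1`) element of the coset `{x, x s}` -/
def Cox.sl (X : Cox) (i : Fin X.n) (x : X.W) (a : Fin 2) : X.W :=
  if (X.len x < X.len (x * X.s i) ↔ a = 0) then x else x * X.s i

namespace M4

/-- base change of a bimodule -/
def conj {n : ℕ} (M : Bim n) (P P' : Matrix M.ι M.ι (Rn n)) (h1 : P * P' = 1) (h2 : P' * P = 1)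
    (g : Gr M.d M.d 0 P) (g' : Gr M.d M.d 0 P') : Bim n where
  ι := M.ι
  d := M.d
  A := AlgHom.ofLinearMap
    { toFun := fun p => P' * M.A p * P
      map_add' := fun p q => by rw [map_add, Matrix.mul_add, Matrix.add_mul]
      map_smul' := fun a p => by
        rw [map_smul, Matrix.mul_smul, Matrix.smul_mul, RingHom.id_apply] }
    (by simp [h2])
    (fun p q => by
      simp only [LinearMap.coe_mk, AddHom.coe_mk, map_mul]
      rw [show P' * M.A p * P * (P' * M.A q * P) = P' * M.A p * (P * P') * M.A q * P by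
        simp only [Matrix.mul_assoc], h1]
      simp only [Matrix.mul_assoc, Matrix.mul_one])
  gr := fun p k hp => by
    have := (g.mul (M.gr p k hp)).mul g'
    rw [zero_add, add_zero, ← Matrix.mul_assoc] at this
    exact this

theorem iso_conj {n : ℕ} (M : Bim n) (P P' : Matrix M.ι M.ι (Rn n)) (h1 : P * P' = 1)
    (h2 : P' * P = 1) (g : Gr M.d M.d 0 P) (g' : Gr M.d M.d 0 P') :
    Iso M (conj M P P' h1 h2 g g') := by
  refine ⟨P', ⟨g', fun p => ?_⟩, P, ⟨g, fun p => ?_⟩, h1, h2⟩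
  · show P' * M.A p * P * P' = P' * M.A p
    rw [Matrix.mul_assoc, h1, Matrix.mul_one]
  · show M.A p * P = P * (P' * M.A p * P)
    rw [← Matrix.mul_assoc, ← Matrix.mul_assoc, h1, Matrix.one_mul]

/-- two by two block matrices -/
def bl {ι R : Type} (A B C D : Matrix ι ι R) : Matrix (ι × Fin 2) (ι × Fin 2) R :=
  fun a b => !![A a.1 b.1, B a.1 b.1; C a.1 b.1, D a.1 b.1] a.2 b.2

theorem bl_mul {ι R : Type} [Fintype ι] [CommRing R] (A B C D A' B' C' D' : Matrix ι ι R) :
    bl A B C D * bl A' B' C' D' =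
      bl (A * A' + B * C') (A * B' + B * D') (C * A' + D * C') (C * B' + D * D') := by
  ext ⟨a, p⟩ ⟨b, q⟩
  fin_cases p <;> fin_cases q <;>
    simp [bl, Matrix.mul_apply, Fintype.sum_prod_type, Fin.sum_univ_two, Finset.sum_add_distrib]

theorem bl_one {ι R : Type} [DecidableEq ι] [CommRing R] :
    bl (1 : Matrix ι ι R) 0 0 1 = 1 := by
  ext ⟨a, p⟩ ⟨b, q⟩
  fin_cases p <;> fin_cases q <;> simp [bl, Matrix.one_apply]

variable (X : Cox) (i : Fin X.n)

theorem th_bl {ι : Type} (A : Matrix ι ι (Rn X.n)) : Th (X.Bs i) A =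
    bl (A.map (X.act ℝ (X.s i))) 0 (A.map (X.dd ℝ (X.s i))) A := rfl

theorem gr_bl {ι : Type} [DecidableEq ι] (d : ι → ℤ) {Nm : Matrix ι ι (Rn X.n)}
    (h : Gr d d 2 Nm) : Gr (dS d) (dS d) 0 (bl 1 Nm 0 1) := by
  rintro ⟨a, p⟩ ⟨b, q⟩
  have h1 := Gr.one (n := X.n) d a b
  have h2 := h a b
  fin_cases p <;> fin_cases q
  · simpa [bl, dS] using h1
  · have e : d b + 1 - (d a + -1) = d b + 2 - d a := by ring
    simpa [bl, dS, e] using h2
  · simpa [bl, dS] using Hg.zero _
  · simpa [bl, dS] using h1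

/-- ascent -/
def Up (x : X.W) : Prop := X.len x < X.len (x * X.s i)

theorem ss (x : X.W) : x * X.s i * X.s i = x := X.cs.simple_mul_simple_cancel_right i

variable {X i}

theorem up_mul {x : X.W} : Up X i (x * X.s i) ↔ ¬ Up X i x := by
  have := X.cs.length_mul_simple_ne x i
  unfold Up
  rw [ss]
  unfold Cox0.len Cox0.s
  omega

theorem sl0_up {x : X.W} (h : Up X i x) : X.sl i x 0 = x := if_pos ⟨fun _ => rfl, fun _ => h⟩

theorem sl0_dn {x : X.W} (h : ¬ Up X i x) : X.sl i x 0 = x * X.s i := if_neg fun e => h (e.2 rfl)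

theorem sl1 (x : X.W) : X.sl i x 1 = X.sl i x 0 * X.s i := by
  by_cases h : Up X i x
  · rw [sl0_up h]
    exact if_neg fun e => absurd (e.1 h) (by decide)
  · rw [sl0_dn h, ss]
    exact if_pos ⟨fun e => absurd e h, fun e => absurd e (by decide)⟩

theorem up_sl0 (x : X.W) : Up X i (X.sl i x 0) := by
  by_cases h : Up X i x
  · rwa [sl0_up h]
  · rw [sl0_dn h, up_mul]; exact h

theorem sl0_mul (x : X.W) : X.sl i (x * X.s i) 0 = X.sl i x 0 := by
  by_cases h : Up X i x
  · rw [sl0_up h, sl0_dn (fun e => up_mul.1 e h), ss]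
  · rw [sl0_dn h, sl0_up (up_mul.2 h)]

theorem sl0_or (x : X.W) : X.sl i x 0 = x ∨ X.sl i x 0 = x * X.s i := by
  by_cases h : Up X i x
  · exact Or.inl (sl0_up h)
  · exact Or.inr (sl0_dn h)

theorem same_gt {x y : X.W} (e : X.sl i x 0 = X.sl i y 0) (h : X.gt x y) :
    ¬ Up X i x ∧ Up X i y ∧ x = y * X.s i := by
  by_cases hx : Up X i x <;> by_cases hy : Up X i y
  · rw [sl0_up hx, sl0_up hy] at e
    exact absurd (e ▸ h) (X.gt_irrefl y)
  · rw [sl0_up hx, sl0_dn hy] at e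
    have := X.ht_lt_of_asc hx
    rw [e, ss] at this
    exact absurd (e ▸ h.1) (not_lt.2 this.le)
  · rw [sl0_dn hx, sl0_up hy] at e
    exact ⟨hx, hy, by rw [← e, ss]⟩
  · rw [sl0_dn hx, sl0_dn hy] at e
    exact absurd (mul_right_cancel e ▸ h) (X.gt_irrefl y)

theorem act_mul_s (x : X.W) (p : Rn X.n) :
    X.act ℝ (x * X.s i)⁻¹ p = X.act ℝ (X.s i) (X.act ℝ x⁻¹ p) := by
  rw [_root_.mul_inv_rev, X.cs.inv_simple, Cox.act_mul]

theorem dd_act_lin (x : X.W) (v : Fin X.n → ℝ) :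
    X.dd ℝ (X.s i) (X.act ℝ x (lin ℝ v)) = C (X.B (X.al i) (X.σ x *ᵥ v)) := by
  rw [Cox.act_lin, Cox.dd_lin ℝ (X.cs.isReflection_simple i), X.rt_simple, Cox.vK_real,
    Cox.BK_real, Cox.σK_real]

theorem spec (p : Rn X.n) : p - X.act ℝ (X.s i) p = MvPolynomial.X i * X.dd ℝ (X.s i) p := by
  rw [Cox.dd_spec ℝ (X.cs.isReflection_simple i), Cox.rl_simple]

section Sup

variable {ι R Γ : Type} [CommRing R] (z : ι → Γ) (lo hi : Γ → ℕ)

/-- supported on equal labels and on far labels -/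
def Sup (M : Matrix ι ι R) : Prop := ∀ a b, M a b ≠ 0 → z a = z b ∨ hi (z b) < lo (z a)

variable {z lo hi} {M M' : Matrix ι ι R}

theorem Sup.add (h : Sup z lo hi M) (h' : Sup z lo hi M') : Sup z lo hi (M + M') := fun a b e => by
  by_cases k : M a b = 0
  · exact h' a b (by simpa [k] using e)
  · exact h a b k

theorem Sup.map (h : Sup z lo hi M) (f : R → R) (hf : f 0 = 0) : Sup z lo hi (M.map f) :=
  fun a b e => h a b fun k => e (by rw [Matrix.map_apply, k, hf])

theorem Sup.neg (h : Sup z lo hi M) : Sup z lo hi (-M) :=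
  fun a b e => h a b fun k => e (by rw [Matrix.neg_apply, k, neg_zero])

theorem Sup.mul [Fintype ι] (hl : ∀ x, lo x < hi x) (h : Sup z lo hi M) (h' : Sup z lo hi M') :
    Sup z lo hi (M * M') := fun a b e => by
  obtain ⟨c, -, hc⟩ := Finset.exists_ne_zero_of_sum_ne_zero e
  have := hl (z c)
  rcases h a c (left_ne_zero_of_mul hc) with k | k <;>
    rcases h' c b (right_ne_zero_of_mul hc) with k' | k'
  · exact Or.inl (k.trans k')
  · exact Or.inr (k ▸ k')
  · exact Or.inr (k' ▸ k)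
  · exact Or.inr (by omega)

theorem Sup.mid (hl : ∀ x, lo x < hi x) (h : Sup z lo hi M) (h' : Sup z lo hi M') {a b c : ι}
    (e : z a = z b) (h1 : M a c ≠ 0) (h2 : M' c b ≠ 0) : z a = z c := by
  have := hl (z c)
  have := hl (z b)
  rcases h a c h1 with k | k
  · exact k
  · rcases h' c b h2 with k' | k'
    · exact e.trans k'.symm
    · rw [e] at k; omega

end Sup

variable {N : Bim X.n} {w : N.ι → X.W}

variable (i w) in
/-- the entries that join the long to the short element of a coset -/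
def gm : Matrix N.ι N.ι (Rn X.n) := fun a b =>
  if ¬ Up X i (w a) ∧ Up X i (w b) ∧ w a = w b * X.s i then
    N.A (lin ℝ (X.σ (w b) *ᵥ X.rho)) a b else 0

variable (i w) in
/-- the corner of the base change -/
def nm : Matrix N.ι N.ι (Rn X.n) :=
  diagonal (fun a => if Up X i (w a) then -MvPolynomial.X i else 0) +
    (gm i w).map (X.act ℝ (X.s i))

theorem gm_zero {a b : N.ι} (k : ¬ (¬ Up X i (w a) ∧ Up X i (w b) ∧ w a = w b * X.s i)) :
    gm i w a b = 0 := if_neg k

theorem gm_ne {a b : N.ι} (h : X.act ℝ (X.s i) (gm i w a b) ≠ 0) :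
    ¬ Up X i (w a) ∧ Up X i (w b) ∧ w a = w b * X.s i := by
  by_contra k
  exact h (by rw [gm_zero k, map_zero])

theorem gr_nm : Gr N.d N.d 2 (nm i w) := fun a b => by
  refine Hg.add ?_ (Hg.act X _ ?_)
  · rw [diagonal_apply]
    split_ifs with h1 h2
    · subst h1
      simpa using (Hg.X i).neg
    · exact Hg.zero _
    · exact Hg.zero _
  · unfold gm
    split_ifs
    · exact N.gr _ _ (Hg.lin _) a b
    · exact Hg.zero _

theorem nm_same {a b : N.ι} (h : nm i w a b ≠ 0) : X.sl i (w a) 0 = X.sl i (w b) 0 := by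
  by_cases e : a = b
  · rw [e]
  · rw [nm, Matrix.add_apply, diagonal_apply_ne _ e, zero_add] at h
    rw [(gm_ne h).2.2, sl0_mul]

variable (h : X.IsFlag N w)
include h

theorem off {v : Fin X.n → ℝ} {a b : N.ι} (e : X.sl i (w a) 0 = X.sl i (w b) 0) (hne : a ≠ b)
    (k : N.A (lin ℝ v) a b ≠ 0) : ¬ Up X i (w a) ∧ Up X i (w b) ∧ w a = w b * X.s i :=
  same_gt e ((h v a b).2 hne k)

theorem nm_mul (v : Fin X.n → ℝ) (f : Rn X.n → Rn X.n) (hf : f 0 = 0) {a b : N.ι}
    (e : X.sl i (w a) 0 = X.sl i (w b) 0) : (nm i w * (N.A (lin ℝ v)).map f) a b =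
      (if Up X i (w a) then -MvPolynomial.X i else 0) * f (N.A (lin ℝ v) a b) +
        X.act ℝ (X.s i) (gm i w a b) * f (N.A (lin ℝ v) b b) := by
  rw [nm, Matrix.add_mul, Matrix.add_apply, diagonal_mul, Matrix.mul_apply]
  congr 1
  refine Finset.sum_eq_single b (fun c _ hc => ?_) (by simp)
  by_contra k
  obtain ⟨-, k2, k3⟩ := gm_ne (left_ne_zero_of_mul k)
  have k4 : N.A (lin ℝ v) c b ≠ 0 := fun e0 =>
    right_ne_zero_of_mul k (by rw [Matrix.map_apply, e0, hf])
  exact (off h (by rw [← e, k3, sl0_mul]) hc k4).1 k2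

theorem mul_nm (v : Fin X.n → ℝ) (f : Rn X.n → Rn X.n) (hf : f 0 = 0) {a b : N.ι}
    (e : X.sl i (w a) 0 = X.sl i (w b) 0) : ((N.A (lin ℝ v)).map f * nm i w) a b =
      f (N.A (lin ℝ v) a b) * (if Up X i (w b) then -MvPolynomial.X i else 0) +
        f (N.A (lin ℝ v) a a) * X.act ℝ (X.s i) (gm i w a b) := by
  rw [nm, Matrix.mul_add, Matrix.add_apply, mul_diagonal, Matrix.mul_apply]
  congr 1
  refine Finset.sum_eq_single a (fun c _ hc => ?_) (by simp)
  by_contra k
  obtain ⟨k1, -, k3⟩ := gm_ne (right_ne_zero_of_mul k)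
  have k4 : N.A (lin ℝ v) a c ≠ 0 := fun e0 =>
    left_ne_zero_of_mul k (by rw [Matrix.map_apply, e0, hf])
  exact k1 (off h (by rw [e, k3, sl0_mul]) (Ne.symm hc) k4).2.1

section Rank

variable {lo hi : X.W → ℕ} (hl : ∀ x, lo x < hi x)
  (hs : ∀ v, Sup (fun a => X.sl i (w a) 0) lo hi (N.A (lin ℝ v)))
include hl hs

theorem entry (v : Fin X.n → ℝ) {a b : N.ι} (h1 : ¬ Up X i (w a)) (h2 : Up X i (w b))
    (h3 : w a = w b * X.s i) :
    N.A (lin ℝ v) a b = gm i w a b * C (X.B (X.al i) (X.σ (w b)⁻¹ *ᵥ v)) := by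
  have hne : a ≠ b := fun e => h1 (e ▸ h2)
  have e : X.sl i (w a) 0 = X.sl i (w b) 0 := by rw [h3, sl0_mul]
  have key : ∀ u u', (N.A (lin ℝ u) * N.A (lin ℝ u')) a b =
      X.act ℝ (X.s i) (X.act ℝ (w b)⁻¹ (lin ℝ u)) * N.A (lin ℝ u') a b +
        N.A (lin ℝ u) a b * X.act ℝ (w b)⁻¹ (lin ℝ u') := by
    intro u u'
    rw [Matrix.mul_apply, Finset.sum_eq_add_of_mem a b (Finset.mem_univ _) (Finset.mem_univ _) hne,
      (h u a a).1 rfl, (h u' b b).1 rfl, h3, act_mul_s]
    rintro c - ⟨ca, cb⟩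
    by_contra k
    have k1 := left_ne_zero_of_mul k
    have k2 := right_ne_zero_of_mul k
    have e1 := Sup.mid hl (hs u) (hs u') e k1 k2
    exact (off h (e1.symm.trans e) cb k2).1 (off h e1 (Ne.symm ca) k1).2.1
  have c := key v (X.σ (w b) *ᵥ X.rho)
  rw [← map_mul, mul_comm, map_mul, key] at c
  have s1 := spec (i := i) (X.act ℝ (w b)⁻¹ (lin ℝ v))
  have s2 := spec (i := i) (X.act ℝ (w b)⁻¹ (lin ℝ (X.σ (w b) *ᵥ X.rho)))
  rw [dd_act_lin] at s1 s2
  rw [mulVec_mulVec, ← map_mul, inv_mul_cancel, map_one, one_mulVec, X.B_al_rho, C_1] at s2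
  rw [gm, if_pos ⟨h1, h2, h3⟩]
  refine mul_left_cancel₀ (X_ne_zero i) ?_
  linear_combination (-1 : Rn X.n) * c - N.A (lin ℝ v) a b * s2 +
    N.A (lin ℝ (X.σ (w b) *ᵥ X.rho)) a b * s1

theorem blk00 (v : Fin X.n → ℝ) {a b : N.ι} (e : X.sl i (w a) 0 = X.sl i (w b) 0) :
    ((N.A (lin ℝ v)).map (X.act ℝ (X.s i)) + -nm i w * (N.A (lin ℝ v)).map (X.dd ℝ (X.s i))) a b =
      if a = b then X.act ℝ (X.sl i (w a) 0)⁻¹ (lin ℝ v) else 0 := by
  rw [Matrix.neg_mul, Matrix.add_apply, Matrix.neg_apply, nm_mul h v _ (map_zero _) e,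
    Matrix.map_apply]
  by_cases ab : a = b
  · subst ab
    rw [if_pos rfl, gm_zero fun k => k.1 k.2.1, (h v a a).1 rfl, map_zero]
    by_cases u : Up X i (w a)
    · rw [if_pos u, sl0_up u]
      linear_combination (-1 : Rn X.n) * spec (i := i) (X.act ℝ (w a)⁻¹ (lin ℝ v))
    · rw [if_neg u, sl0_dn u, act_mul_s]
      ring
  · rw [if_neg ab]
    by_cases k : ¬ Up X i (w a) ∧ Up X i (w b) ∧ w a = w b * X.s i
    · rw [if_neg k.1, (h v b b).1 rfl, dd_act_lin, entry h hl hs v k.1 k.2.1 k.2.2, map_mul,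
        algHom_C, algebraMap_eq]
      ring
    · have k0 : N.A (lin ℝ v) a b = 0 := by_contra fun k0 => k (off h e ab k0)
      rw [k0, gm_zero k]
      simp

theorem blk11 (v : Fin X.n → ℝ) {a b : N.ι} (e : X.sl i (w a) 0 = X.sl i (w b) 0) :
    ((N.A (lin ℝ v)).map (X.dd ℝ (X.s i)) * nm i w + N.A (lin ℝ v)) a b =
      if a = b then X.act ℝ (X.sl i (w a) 1)⁻¹ (lin ℝ v) else 0 := by
  have hr := X.cs.isReflection_simple i
  rw [Matrix.add_apply, mul_nm h v _ (map_zero _) e]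
  by_cases ab : a = b
  · subst ab
    rw [if_pos rfl, gm_zero fun k => k.1 k.2.1, (h v a a).1 rfl, map_zero, sl1]
    by_cases u : Up X i (w a)
    · rw [if_pos u, sl0_up u, act_mul_s]
      linear_combination spec (i := i) (X.act ℝ (w a)⁻¹ (lin ℝ v))
    · rw [if_neg u, sl0_dn u, ss]
      ring
  · rw [if_neg ab]
    by_cases k : ¬ Up X i (w a) ∧ Up X i (w b) ∧ w a = w b * X.s i
    · rw [if_pos k.2.1, (h v a a).1 rfl, entry h hl hs v k.1 k.2.1 k.2.2, k.2.2, act_mul_s,
        Cox.dd_act ℝ hr, dd_act_lin, Cox.dd_mul ℝ hr, Cox.dd_C ℝ hr]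
      linear_combination C (X.B (X.al i) (X.σ (w b)⁻¹ *ᵥ v)) * spec (i := i) (gm i w a b)
    · have k0 : N.A (lin ℝ v) a b = 0 := by_contra fun k0 => k (off h e ab k0)
      rw [k0, gm_zero k]
      simp

theorem blk01 (v : Fin X.n → ℝ) {a b : N.ι} (e : X.sl i (w a) 0 = X.sl i (w b) 0) :
    (((N.A (lin ℝ v)).map (X.act ℝ (X.s i)) + -nm i w * (N.A (lin ℝ v)).map (X.dd ℝ (X.s i))) *
      nm i w + -nm i w * N.A (lin ℝ v)) a b = 0 := by
  have e1 := nm_mul h v id rfl e
  rw [Matrix.map_id] at e1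
  rw [Matrix.add_apply, Matrix.neg_mul (nm i w) (N.A (lin ℝ v)), Matrix.neg_apply, e1,
    Matrix.mul_apply, Finset.sum_eq_single a _ (by simp), blk00 h hl hs v rfl, if_pos rfl, nm,
    Matrix.add_apply, Matrix.map_apply, id, id]
  · by_cases ab : a = b
    · subst ab
      rw [diagonal_apply_eq, gm_zero fun k => k.1 k.2.1, (h v a a).1 rfl, map_zero]
      by_cases u : Up X i (w a)
      · rw [if_pos u, sl0_up u]
        ring
      · rw [if_neg u]
        ring
    · rw [diagonal_apply_ne _ ab]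
      by_cases k : ¬ Up X i (w a) ∧ Up X i (w b) ∧ w a = w b * X.s i
      · rw [if_neg k.1, (h v b b).1 rfl, e, sl0_up k.2.1]
        ring
      · have k0 : N.A (lin ℝ v) a b = 0 := by_contra fun k0 => k (off h e ab k0)
        rw [k0, gm_zero k]
        simp
  · intro c _ hc
    by_cases k : nm i w c b = 0
    · rw [k, mul_zero]
    · rw [blk00 h hl hs v (e.trans (nm_same k).symm), if_neg (Ne.symm hc), zero_mul]

end Rank

end M4

open M4 in
theorem flag_tens (X : Cox) (i : Fin X.n) (N : Bim X.n) (w : N.ι → X.W) (h : X.IsFlag N w) :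
    ∃ (N' : Bim X.n) (e : N'.ι ≃ N.ι × Fin 2), (∀ a, N'.d a = dS N.d (e a)) ∧
      Iso (N.tens (X.Bs i)) N' ∧ X.IsFlag N' fun a => X.sl i (w (e a).1) (e a).2 := by
  obtain ⟨r, r1, r2, r3⟩ := X.exists_rank_coset i
  have p1 : bl 1 (nm i w) 0 1 * bl 1 (-nm i w) 0 1 = 1 := by rw [bl_mul]; simp [bl_one]
  have p2 : bl 1 (-nm i w) 0 1 * bl 1 (nm i w) 0 1 = 1 := by rw [bl_mul]; simp [bl_one]
  have g1 := gr_bl X N.d (gr_nm (i := i) (w := w))
  have g2 := gr_bl X N.d (Nm := -nm i w) fun a b => (gr_nm a b).neg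
  have iso := iso_conj (N.tens (X.Bs i)) _ _ p1 p2 g1 g2
  let lo : X.W → ℕ := fun x => r (X.sl i x 0)
  let hi : X.W → ℕ := fun x => r (X.sl i x 0 * X.s i)
  have hl : ∀ x, lo x < hi x := fun x => r2 _ (up_sl0 x)
  have e0 : ∀ x, X.sl i (X.sl i x 0) 0 = X.sl i x 0 := fun x => sl0_up (up_sl0 x)
  have hs : ∀ v, Sup (fun a => X.sl i (w a) 0) lo hi (N.A (lin ℝ v)) := fun v a b k => by
    by_cases ab : a = b
    · exact Or.inl (by rw [ab])
    · by_cases e : w a = w b * X.s i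
      · exact Or.inl (by simp only [e, sl0_mul])
      · refine Or.inr ?_
        simp only [lo, hi, e0]
        refine r3 _ _ ((h v a b).2 ab k) e _ _ (sl0_or _) ?_
        rcases sl0_or (i := i) (w b) with e' | e'
        · exact Or.inr (by rw [e'])
        · exact Or.inl (by rw [e', ss])
  have hn : Sup (fun a => X.sl i (w a) 0) lo hi (nm i w) := fun a b k => Or.inl (nm_same k)
  obtain ⟨N', e, d1, d2, d3⟩ := norm_flag X (conj (N.tens (X.Bs i)) _ _ p1 p2 g1 g2)
    (fun a => X.sl i (w a.1) a.2) r r1 (by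
      rintro v ⟨a, p⟩ ⟨b, q⟩
      have eA : (conj (N.tens (X.Bs i)) _ _ p1 p2 g1 g2).A (lin ℝ v) =
          bl ((N.A (lin ℝ v)).map (X.act ℝ (X.s i)) +
              -nm i w * (N.A (lin ℝ v)).map (X.dd ℝ (X.s i)))
            (((N.A (lin ℝ v)).map (X.act ℝ (X.s i)) +
              -nm i w * (N.A (lin ℝ v)).map (X.dd ℝ (X.s i))) * nm i w + -nm i w * N.A (lin ℝ v))
            ((N.A (lin ℝ v)).map (X.dd ℝ (X.s i)))
            ((N.A (lin ℝ v)).map (X.dd ℝ (X.s i)) * nm i w + N.A (lin ℝ v)) := by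
        show bl 1 (-nm i w) 0 1 * Th (X.Bs i) (N.A (lin ℝ v)) * bl 1 (nm i w) 0 1 = _
        rw [th_bl, bl_mul, bl_mul]
        simp only [Matrix.one_mul, Matrix.mul_one, Matrix.zero_mul, Matrix.mul_zero, add_zero,
          zero_add]
      rw [eA]
      have sS := (hs v).map (X.act ℝ (X.s i)) (map_zero _)
      have sD := (hs v).map (X.dd ℝ (X.s i)) (map_zero _)
      have s00 := sS.add (hn.neg.mul hl sD)
      have s01 := (s00.mul hl hn).add (hn.neg.mul hl (hs v))
      have s11 := (sD.mul hl hn).add (hs v)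
      have la := hl (w a)
      have lb := hl (w b)
      simp only [lo, hi] at la lb
      constructor
      · intro e
        obtain ⟨rfl, rfl⟩ := Prod.ext_iff.1 e
        fin_cases p
        · exact (blk00 h hl hs v rfl).trans (if_pos rfl)
        · exact (blk11 h hl hs v rfl).trans (if_pos rfl)
      · intro hne k
        fin_cases p <;> fin_cases q
        · show r (X.sl i (w b) 0) < r (X.sl i (w a) 0)
          rcases s00 a b k with e | e
          · exact absurd ((blk00 h hl hs v e).trans (if_neg fun ab => hne (by rw [ab]))) k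
          · simp only [lo, hi, e0] at e
            omega
        · show r (X.sl i (w b) 1) < r (X.sl i (w a) 0)
          rw [sl1]
          rcases s01 a b k with e | e
          · exact absurd (blk01 h hl hs v e) k
          · simpa only [lo, hi, e0] using e
        · show r (X.sl i (w b) 0) < r (X.sl i (w a) 1)
          rw [sl1]
          rcases sD a b k with e | e
          · simp only at e
            rw [← e]
            exact la
          · simp only [lo, hi, e0] at e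
            omega
        · show r (X.sl i (w b) 1) < r (X.sl i (w a) 1)
          rw [sl1, sl1]
          rcases s11 a b k with e | e
          · exact absurd ((blk11 h hl hs v e).trans (if_neg fun ab => hne (by rw [ab]))) k
          · simp only [lo, hi, e0] at e
            omega)
  exact ⟨N', e, d1, iso.trans d2, d3⟩

end

end Pool.Agent.P.MP_1a0ecf_al
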