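import Pool.Agent.P.MP_1a0ecf_al.M2
import Pool.Agent.P.MP_1a0ecf_al.M4
import Pool.Agent.P.MP_1a0ecf_al.K0

/-! Package M5: characters of flags. -/

namespace Pool.Agent.P.MP_1a0ecf_al

open Matrix MvPolynomial
open scoped Classical Kronecker

noncomputable section

variable {X : Cox}

namespace M5

/-- the reflexive closure of `gt` -/
def ge (X : Cox) (x y : X.W) : Prop := x = y ∨ X.gt x y

theorem ge_trans {x y z : X.W} (h : ge X x y) (h' : ge X y z) : ge X x z := by
  rcases h with rfl | h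
  · exact h'
  · rcases h' with rfl | h'
    · exact Or.inr h
    · exact Or.inr (X.gt_trans h h')

theorem gt_ge {x y z : X.W} (h : X.gt x y) (h' : ge X y z) : X.gt x z := by
  rcases h' with rfl | h'
  · exact h
  · exact X.gt_trans h h'

theorem ge_gt {x y z : X.W} (h : ge X x y) (h' : X.gt y z) : X.gt x z := by
  rcases h with rfl | h
  · exact h'
  · exact X.gt_trans h h'

theorem eq_of_act {x y : X.W} (h : ∀ v, X.act ℝ x⁻¹ (lin ℝ v) = X.act ℝ y⁻¹ (lin ℝ v)) :
    x = y := by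
  refine inv_injective (X.σ_injective ?_)
  ext i j
  have := h (Pi.single j 1)
  rw [Cox.act_lin, Cox.act_lin, Cox.σK_real, Cox.σK_real] at this
  have := congrFun (lin_injective ℝ this) i
  simpa using this

end M5

open M5

theorem hom_tri {N M : Bim X.n} {w : N.ι → X.W} {w' : M.ι → X.W} (hN : X.IsFlag N w)
    (hM : X.IsFlag M w') {F : Matrix M.ι N.ι (Rn X.n)} (hF : ∀ p, M.A p * F = F * N.A p)
    {a : M.ι} {b : N.ι} (h : F a b ≠ 0) : w' a = w b ∨ X.gt (w' a) (w b) := by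
  obtain ⟨r, hr, -⟩ := X.exists_rank
  by_contra hbad
  obtain ⟨⟨a, b⟩, ⟨h, hbad⟩, hmin⟩ := Set.Finite.exists_minimalFor
    (fun q : M.ι × N.ι => (r (w' q.1) : ℤ) - r (w q.2))
    {q | F q.1 q.2 ≠ 0 ∧ ¬ ge X (w' q.1) (w q.2)} (Set.toFinite _) ⟨(a, b), h, hbad⟩
  have good : ∀ c e, (r (w' c) : ℤ) - r (w e) < r (w' a) - r (w b) → F c e ≠ 0 →
      ge X (w' c) (w e) := fun c e hlt h0 => by
    by_contra hb
    exact absurd (hmin (j := (c, e)) ⟨h0, hb⟩ hlt.le) (not_le.2 hlt)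
  refine hbad (Or.inl (eq_of_act fun v => ?_))
  have e := congrFun (congrFun (hF (lin ℝ v)) a) b
  rw [Matrix.mul_apply, Matrix.mul_apply, Finset.sum_eq_single a, Finset.sum_eq_single b,
    (hM v a a).1 rfl, (hN v b b).1 rfl, mul_comm (F a b)] at e
  · exact mul_right_cancel₀ h e
  · intro c _ hc
    by_contra h0
    have g := (hN v c b).2 hc (right_ne_zero_of_mul h0)
    have := hr _ _ g
    exact hbad (Or.inr (ge_gt (good a c (by omega) (left_ne_zero_of_mul h0)) g))
  · simp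
  · intro c _ hc
    by_contra h0
    have g := (hM v a c).2 hc.symm (left_ne_zero_of_mul h0)
    have := hr _ _ g
    exact hbad (Or.inr (gt_ge g (good c b (by omega) (right_ne_zero_of_mul h0))))
  · simp

theorem Cox.Fld.iso {N N' : Bim X.n} (h : X.Fld N) (e : Iso N N') : X.Fld N' := by
  obtain ⟨N₀, w, h1, h2⟩ := h
  exact ⟨N₀, w, e.symm.trans h1, h2⟩

theorem Cox.Fld.tens {N : Bim X.n} (h : X.Fld N) (i : Fin X.n) :
    X.Fld (N.tens (X.Bs i)) := by
  obtain ⟨N₀, w, h1, h2⟩ := h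
  obtain ⟨N', e, -, h3, h4⟩ := flag_tens X i N₀ w h2
  exact ⟨N', _, (h1.tens _).trans h3, h4⟩

theorem M5.isFlag_Rw (w : X.W) (k : ℤ) : X.IsFlag ((X.Rw w).shift k) fun _ => w :=
  fun v a b => ⟨fun _ => by simp, fun h => absurd (Subsingleton.elim a b) h⟩

theorem Cox.fld_Rw (w : X.W) (k : ℤ) : X.Fld ((X.Rw w).shift k) :=
  ⟨_, _, Iso.refl _, isFlag_Rw w k⟩

namespace M5

/-- admissible entries -/
def SS (X : Cox) (a b : X.W × ℤ) : Submodule ℝ (Rn X.n) :=
  if ge X a.1 b.1 then weightedHomogeneousSubmodule ℝ (fun _ => (2 : ℤ)) (b.2 - a.2) else ⊥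

def lt (X : Cox) (a b : X.W × ℤ) : Prop := X.gt a.1 b.1 ∨ (a.1 = b.1 ∧ a.2 < b.2)

theorem mem_SS {a b : X.W × ℤ} {p : Rn X.n} :
    p ∈ SS X a b ↔ Hg p (b.2 - a.2) ∧ (p ≠ 0 → ge X a.1 b.1) := by
  unfold SS
  split_ifs with h
  · exact ⟨fun hp => ⟨hp, fun _ => h⟩, fun hp => hp.1⟩
  · rw [Submodule.mem_bot]
    exact ⟨fun hp => ⟨hp ▸ Hg.zero _, fun h0 => absurd hp h0⟩,
      fun hp => by_contra fun h0 => h (hp.2 h0)⟩

theorem lt_tr (a b c : X.W × ℤ) (h : lt X a b) (h' : lt X b c) : lt X a c := by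
  rcases h with h | h <;> rcases h' with h' | h'
  · exact Or.inl (X.gt_trans h h')
  · exact Or.inl (h'.1 ▸ h)
  · exact Or.inl (h.1 ▸ h')
  · exact Or.inr ⟨h.1.trans h'.1, h.2.trans h'.2⟩

theorem lt_irr (a : X.W × ℤ) : ¬ lt X a a := fun h =>
  h.elim (X.gt_irrefl _) fun h => lt_irrefl _ h.2

theorem SS_mul (a b c : X.W × ℤ) : ∀ p ∈ SS X a b, ∀ q ∈ SS X b c, p * q ∈ SS X a c := by
  intro p hp q hq
  rw [mem_SS] at *
  refine ⟨?_, fun h => ge_trans (hp.2 (left_ne_zero_of_mul h)) (hq.2 (right_ne_zero_of_mul h))⟩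
  have := hp.1.mul hq.1
  rwa [show b.2 - a.2 + (c.2 - b.2) = c.2 - a.2 by ring] at this

theorem SS_diag (a : X.W × ℤ) : SS X a a = Submodule.span ℝ {1} := by
  ext p
  rw [mem_SS, sub_self, Submodule.mem_span_singleton]
  constructor
  · intro h
    exact ⟨constantCoeff p, by rw [MvPolynomial.smul_eq_C_mul, mul_one]; exact h.1.eq_C.symm⟩
  · rintro ⟨c, rfl⟩
    exact ⟨by rw [MvPolynomial.smul_eq_C_mul, mul_one]; exact Hg.C c, fun _ => Or.inl rfl⟩

theorem SS_lt (a b : X.W × ℤ) : ∀ p ∈ SS X a b, p ≠ 0 → a = b ∨ lt X a b := by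
  intro p hp h0
  rw [mem_SS] at hp
  rcases hp.2 h0 with h | h
  · have : a.2 ≤ b.2 := by
      by_contra h'
      exact h0 (hp.1.eq_zero (by omega))
    rcases this.eq_or_lt with h' | h'
    · exact Or.inl (Prod.ext h h')
    · exact Or.inr (Or.inr ⟨h, h'⟩)
  · exact Or.inr (Or.inl h)

theorem hom_SS {N M : Bim X.n} {w : N.ι → X.W} {w' : M.ι → X.W} (hN : X.IsFlag N w)
    (hM : X.IsFlag M w') {F : Matrix M.ι N.ι (Rn X.n)} (hF : F ∈ Hom N M 0) (a : M.ι) (b : N.ι) :
    F a b ∈ SS X (w' a, M.d a) (w b, N.d b) :=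
  mem_SS.2 ⟨by simpa using hF.1 a b, hom_tri hN hM hF.2⟩

/-- block traces -/
theorem tr_blk {ι κ : Type} [Fintype ι] [Fintype κ] [DecidableEq κ] {lab : ι → X.W × ℤ}
    {lab' : κ → X.W × ℤ} {f : Matrix ι κ (Rn X.n)} {g : Matrix κ ι (Rn X.n)}
    (hf : ∀ i a, f i a ∈ SS X (lab i) (lab' a)) (hg : ∀ a i, g a i ∈ SS X (lab' a) (lab i))
    (h : g * f = 1) (l : X.W × ℤ) :
    ∑ i, (if l = lab i then (f * g) i i else 0) =
      ((Finset.univ.filter fun a => l = lab' a).card : Rn X.n) := by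
  have key : ∀ i a, (if l = lab i then f i a * g a i else 0) =
      if l = lab' a then g a i * f i a else 0 := by
    intro i a
    by_cases h0 : f i a * g a i = 0
    · rw [mul_comm (g a i), h0]; simp
    · have e : lab i = lab' a := by
        rcases SS_lt _ _ _ (hf i a) (left_ne_zero_of_mul h0) with h1 | h1
        · exact h1
        · rcases SS_lt _ _ _ (hg a i) (right_ne_zero_of_mul h0) with h2 | h2
          · exact h2.symm
          · exact absurd (lt_tr _ _ _ h1 h2) (lt_irr _)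
      rw [e, mul_comm]
  calc ∑ i, (if l = lab i then (f * g) i i else 0)
      = ∑ i, ∑ a, (if l = lab i then f i a * g a i else 0) := by
        refine Finset.sum_congr rfl fun i _ => ?_
        split_ifs <;> simp [Matrix.mul_apply]
    _ = ∑ a, ∑ i, (if l = lab' a then g a i * f i a else 0) := by
        rw [Finset.sum_comm]; simp only [key]
    _ = ∑ a, (if l = lab' a then (g * f) a a else 0) := by
        refine Finset.sum_congr rfl fun i _ => ?_
        split_ifs <;> simp [Matrix.mul_apply]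
    _ = _ := by rw [h]; simp

/-- the image of an idempotent -/
def img (M : Bim X.n) {κ : Type} [Fintype κ] [DecidableEq κ] (d : κ → ℤ)
    (I : Matrix M.ι κ (Rn X.n)) (P : Matrix κ M.ι (Rn X.n)) (hI : Gr d M.d 0 I)
    (hP : Gr M.d d 0 P) (h1 : P * I = 1) (h2 : ∀ q, M.A q * (I * P) = I * P * M.A q) :
    Bim X.n where
  ι := κ
  d := d
  A := AlgHom.ofLinearMap
    { toFun := fun q => P * M.A q * I
      map_add' := fun p q => by rw [map_add, Matrix.mul_add, Matrix.add_mul]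
      map_smul' := fun a p => by
        rw [map_smul, Matrix.mul_smul, Matrix.smul_mul]; rfl }
    (by simp [h1])
    (fun p q => by
      change P * M.A (p * q) * I = P * M.A p * I * (P * M.A q * I)
      have : P * M.A p * I * (P * M.A q * I) = P * M.A p * ((I * P * M.A q) * I) := by
        simp only [Matrix.mul_assoc]
      rw [this, ← h2, Matrix.mul_assoc (M.A q), Matrix.mul_assoc I P I, h1, Matrix.mul_one,
        map_mul]
      simp only [Matrix.mul_assoc])
  gr := fun p k hp => by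
    have := (hI.mul (M.gr p k hp)).mul hP
    rw [zero_add, add_zero, ← Matrix.mul_assoc] at this
    exact this

theorem compl_flag {M N N' : Bim X.n} {wM : M.ι → X.W} {wN : N.ι → X.W} (h : Split M N N')
    (hM : X.IsFlag M wM) (hN : X.IsFlag N wN) :
    ∃ (N'' : Bim X.n) (w : N''.ι → X.W), Iso N' N'' ∧ X.IsFlag N'' w ∧
      Finset.univ.val.map (fun a => (wM a, M.d a)) =
        Finset.univ.val.map (fun a => (wN a, N.d a)) +
          Finset.univ.val.map (fun a => (w a, N''.d a)) := by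
  obtain ⟨i, hi, p, hp, i', hi', p', hp', e1, e2, e3⟩ := h
  have hE : i' * p' ∈ Hom M M 0 := Hom.comp0 hp' hi'
  obtain ⟨κ, _, _, lab', I, P, hI, hP, f1, f2⟩ := split_idem (fun a => (wM a, M.d a)) (SS X) (lt X)
    lt_tr lt_irr SS_mul SS_diag SS_lt (i' * p') (hom_SS hM hM hE)
    (by rw [Matrix.mul_assoc, ← Matrix.mul_assoc p', e2, Matrix.one_mul])
  have gI : Gr (fun a => (lab' a).2) M.d 0 I := fun a b => by simpa using (mem_SS.1 (hI a b)).1
  have gP : Gr M.d (fun a => (lab' a).2) 0 P := fun a b => by simpa using (mem_SS.1 (hP a b)).1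
  have h2 : ∀ q, M.A q * (I * P) = I * P * M.A q := fun q => by rw [f2]; exact hE.2 q
  let N'' := img M (fun a => (lab' a).2) I P gI gP f1 h2
  have mI : I ∈ Hom N'' M 0 := ⟨gI, fun q => by
    change M.A q * I = I * (P * M.A q * I)
    rw [← Matrix.mul_assoc, ← Matrix.mul_assoc, ← h2, Matrix.mul_assoc, Matrix.mul_assoc, f1,
      Matrix.mul_one]⟩
  have mP : P ∈ Hom M N'' 0 := ⟨gP, fun q => by
    change P * M.A q * I * P = P * M.A q
    rw [Matrix.mul_assoc, Matrix.mul_assoc, h2, ← Matrix.mul_assoc, ← Matrix.mul_assoc, f1,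
      Matrix.one_mul]⟩
  refine ⟨N'', fun a => (lab' a).1, ⟨P * i', Hom.comp0 hi' mP, p' * I, Hom.comp0 mI hp', ?_, ?_⟩,
    ?_, ?_⟩
  · change p' * I * (P * i') = 1
    rw [Matrix.mul_assoc, ← Matrix.mul_assoc I, f2, ← Matrix.mul_assoc, ← Matrix.mul_assoc, e2,
      Matrix.one_mul, e2]
  · change P * i' * (p' * I) = 1
    rw [Matrix.mul_assoc, ← Matrix.mul_assoc i', ← f2, Matrix.mul_assoc, f1, Matrix.mul_one, f1]
  · have key : ∀ v (a b : κ), ¬ X.gt (lab' a).1 (lab' b).1 → (P * M.A (lin ℝ v) * I) a b =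
        X.act ℝ (lab' a).1⁻¹ (lin ℝ v) * (1 : Matrix κ κ (Rn X.n)) a b := by
      intro v a b hg
      rw [← f1, Matrix.mul_apply, Matrix.mul_apply, Finset.mul_sum]
      refine Finset.sum_congr rfl fun c _ => ?_
      by_cases h0 : I c b = 0
      · simp [h0]
      have g2 : ge X (wM c) (lab' b).1 := (mem_SS.1 (hI c b)).2 h0
      rw [Matrix.mul_apply, Finset.sum_eq_single c, (hM v c c).1 rfl]
      · by_cases h1 : P a c = 0
        · simp [h1]
        rcases (mem_SS.1 (hP a c)).2 h1 with g1 | g1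
        · have g1 : (lab' a).1 = wM c := g1
          rw [g1]; ring
        · exact absurd (gt_ge g1 g2) hg
      · intro c' _ hc
        by_contra h1
        exact hg (ge_gt ((mem_SS.1 (hP a c')).2 (left_ne_zero_of_mul h1))
          (gt_ge ((hM v c' c).2 hc (right_ne_zero_of_mul h1)) g2))
      · simp
    intro v (a : κ) (b : κ)
    refine ⟨?_, fun (hab : a ≠ b) h0 => by_contra fun hg => h0 ?_⟩
    · intro (hab : a = b)
      subst hab
      have := key v a a (X.gt_irrefl _)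
      rw [Matrix.one_apply_eq, mul_one] at this
      exact this
    · have := key v a b hg
      rw [Matrix.one_apply_ne hab, mul_zero] at this
      exact this
  · ext l
    rw [Multiset.count_add, Multiset.count_map, Multiset.count_map, Multiset.count_map]
    have t1 := tr_blk (hom_SS hN hM hi) (hom_SS hM hN hp) e1 l
    have t2 := tr_blk hI hP f1 l
    have t3 : ∑ c, (if l = (wM c, M.d c) then (i * p + i' * p') c c else 0) =
        ((Finset.univ.filter fun c => l = (wM c, M.d c)).card : Rn X.n) := by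
      rw [e3]; simp
    have t4 : ∑ c, (if l = (wM c, M.d c) then (i * p + i' * p') c c else 0) =
        ∑ c, (if l = (wM c, M.d c) then (i * p) c c else 0) +
          ∑ c, (if l = (wM c, M.d c) then (I * P) c c else 0) := by
      rw [← Finset.sum_add_distrib, f2]
      refine Finset.sum_congr rfl fun c _ => ?_
      split_ifs <;> simp
    rw [t3, t1, t2, ← Nat.cast_add] at t4
    exact Nat.cast_injective (R := Rn X.n) t4

theorem split_iso {M N N' M₀ N₀ : Bim X.n} (h : Split M N N') (hM : Iso M M₀) (hN : Iso N N₀) :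
    Split M₀ N₀ N' := by
  obtain ⟨i, hi, p, hp, i', hi', p', hp', e1, e2, e3⟩ := h
  obtain ⟨f, hf, f', hf', a1, a2⟩ := hM
  obtain ⟨e, he, e', he', b1, b2⟩ := hN
  refine ⟨f * (i * e'), Hom.comp0 (Hom.comp0 he' hi) hf, e * (p * f'),
    Hom.comp0 (Hom.comp0 hf' hp) he, f * i', Hom.comp0 hi' hf, p' * f', Hom.comp0 hf' hp',
    ?_, ?_, ?_⟩
  · calc e * (p * f') * (f * (i * e')) = e * (p * (f' * f) * i) * e' := by
          simp only [Matrix.mul_assoc]
      _ = 1 := by rw [a1, Matrix.mul_one, e1, Matrix.mul_one, b2]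
  · calc p' * f' * (f * i') = p' * (f' * f) * i' := by simp only [Matrix.mul_assoc]
      _ = 1 := by rw [a1, Matrix.mul_one, e2]
  · calc f * (i * e') * (e * (p * f')) + f * i' * (p' * f') =
          f * (i * (e' * e) * p + i' * p') * f' := by
          simp only [Matrix.mul_assoc, Matrix.mul_add, Matrix.add_mul]
      _ = 1 := by rw [b1, Matrix.mul_one, e3, Matrix.mul_one, a2]

end M5

namespace Hk

variable {D : Hk X}

theorem Fl.fld {N : Bim X.n} {g : D.H} (h : D.Fl N g) : X.Fld N := by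
  obtain ⟨N₀, w, h1, h2, -⟩ := h
  exact ⟨N₀, w, h1, h2⟩

theorem Fl.iso {N N' : Bim X.n} {g : D.H} (h : D.Fl N g) (e : Iso N N') : D.Fl N' g := by
  obtain ⟨N₀, w, h1, h2⟩ := h
  exact ⟨N₀, w, e.symm.trans h1, h2⟩

theorem Fl.shift {N : Bim X.n} {g : D.H} (h : D.Fl N g) (k : ℤ) :
    D.Fl (N.shift k) ((LaurentPolynomial.T k : Lp) • g) := by
  obtain ⟨N₀, w, h1, h2, rfl⟩ := h
  refine ⟨N₀.shift k, w, h1.shift k, h2, ?_⟩
  simp only [chF, Finset.smul_sum, smul_smul, ← LaurentPolynomial.T_add]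
  refine Finset.sum_congr rfl fun a _ => ?_
  congr 2
  ring

theorem fl_Rw (D : Hk X) (w : X.W) (k : ℤ) :
    D.Fl ((X.Rw w).shift k) ((LaurentPolynomial.T (k - X.len w) : Lp) • D.T w) :=
  ⟨_, _, Iso.refl _, isFlag_Rw w k, by simp [chF]⟩

theorem fl_one (D : Hk X) : D.Fl (X.Rw 1) 1 :=
  ⟨X.Rw 1, fun _ => 1, Iso.refl _, isFlag_Rw 1 0, by simp [chF, D.T_one]⟩

theorem Fl.tens {N : Bim X.n} {g : D.H} (h : D.Fl N g) (i : Fin X.n) :
    D.Fl (N.tens (X.Bs i)) (g * D.Cs i) := by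
  obtain ⟨N₀, w, h1, h2, rfl⟩ := h
  obtain ⟨N', e, hd, h3, h4⟩ := flag_tens X i N₀ w h2
  refine ⟨N', _, (h1.tens _).trans h3, h4, ?_⟩
  have : D.chF N' (fun a => X.sl i (w (e a).1) (e a).2) = ∑ q : N₀.ι × Fin 2,
      (LaurentPolynomial.T (dS N₀.d q - X.len (X.sl i (w q.1) q.2)) : Lp) •
        D.T (X.sl i (w q.1) q.2) := by
    rw [← e.sum_comp]
    simp only [chF, hd]
  rw [this, Fintype.sum_prod_type, chF, Finset.sum_mul]
  refine Finset.sum_congr rfl fun a _ => ?_
  rw [smul_mul_assoc, Fin.sum_univ_two]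
  rcases X.cs.length_mul_simple (w a) i with hl | hl
  · have hx : X.len (w a) < X.len (w a * X.s i) := (Nat.lt_succ_self _).trans_eq hl.symm
    have s0 : X.sl i (w a) 0 = w a := by simp [Cox.sl, hx]
    have s1 : X.sl i (w a) 1 = w a * X.s i := by simp [Cox.sl, hx]
    rw [D.T_mul_Cs_up hx, s0, s1, smul_add, smul_smul, ← LaurentPolynomial.T_add, add_comm]
    congr 3
    · simp [dS]; ring
    · simp only [dS, Cox0.len, Cox0.s, hl]; simp
  · have hx : X.len (w a * X.s i) < X.len (w a) := (Nat.lt_succ_self _).trans_eq hl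
    have s0 : X.sl i (w a) 0 = w a * X.s i := by simp [Cox.sl, hx.not_gt]
    have s1 : X.sl i (w a) 1 = w a := by simp [Cox.sl, hx.not_gt]
    rw [D.T_mul_Cs_down hx, s0, s1, smul_add, smul_smul, ← LaurentPolynomial.T_add]
    congr 3
    · simp only [dS, Cox0.len, Cox0.s, ← hl]; simp; ring
    · simp [dS]; ring

theorem chF_eq (N : Bim X.n) (w : N.ι → X.W) : D.chF N w =
    ((Finset.univ.val.map fun a => (w a, N.d a)).map fun l : X.W × ℤ =>
      (LaurentPolynomial.T (l.2 - X.len l.1) : Lp) • D.T l.1).sum := by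
  rw [Multiset.map_map]
  rfl

theorem Fl.compl {M N N' : Bim X.n} {g g₁ : D.H} (h : Split M N N') (hM : D.Fl M g)
    (hN : D.Fl N g₁) : D.Fl N' (g - g₁) := by
  obtain ⟨M₀, wM, a1, a2, rfl⟩ := hM
  obtain ⟨N₀, wN, b1, b2, rfl⟩ := hN
  obtain ⟨N'', w, c1, c2, c3⟩ := compl_flag (split_iso h a1 b1) a2 b2
  refine ⟨N'', w, c1, c2, ?_⟩
  rw [chF_eq, chF_eq, chF_eq, c3, Multiset.map_add, Multiset.sum_add, add_sub_cancel_left]

theorem co_chF (N : Bim X.n) (w : N.ι → X.W) (x : X.W) : D.co (D.chF N w) x =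
    ∑ a, if w a = x then (LaurentPolynomial.T (N.d a - X.len (w a)) : Lp) else 0 := by
  simp only [co, chF, map_sum, map_smul, Module.Basis.repr_self, Finsupp.finsetSum_apply,
    Finsupp.smul_apply, Finsupp.single_apply, smul_eq_mul, mul_ite, mul_one, mul_zero]

theorem pos_ite (c : Prop) (k : ℤ) : Pos (if c then (LaurentPolynomial.T k : Lp) else 0) := by
  split_ifs
  · exact Pos.T k
  · intro j; simp

theorem Fl.pos {N : Bim X.n} {g : D.H} (h : D.Fl N g) (w : X.W) : Pos (D.co g w) := by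
  obtain ⟨N₀, w₀, -, -, rfl⟩ := h
  rw [co_chF]
  exact Pos.sum _ fun a _ => pos_ite _ _

theorem Fl.isEmpty_iff {N : Bim X.n} {g : D.H} (h : D.Fl N g) : IsEmpty N.ι ↔ g = 0 := by
  obtain ⟨N₀, w, h1, -, rfl⟩ := h
  rw [← Fintype.card_eq_zero_iff, h1.card, Fintype.card_eq_zero_iff]
  refine ⟨fun h => by simp [chF], fun h => ⟨fun a => ?_⟩⟩
  have := co_chF (D := D) N₀ w (w a)
  rw [h] at this
  refine (Pos.sum_ne_zero _ fun b _ => pos_ite _ _).2 ⟨a, Finset.mem_univ _, ?_⟩
    (this.symm.trans (by rw [co, map_zero]; rfl))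
  rw [if_pos rfl]
  exact (LaurentPolynomial.isUnit_T _).ne_zero

theorem chF_np {N : Bim X.n} {w : N.ι → X.W} (h : D.NP (D.chF N w)) (a : N.ι) :
    N.d a ≤ X.len (w a) := by
  by_contra hc
  have h1 := h (w a) (N.d a - X.len (w a)) (by omega)
  rw [co_chF] at h1
  have h2 := Pos.le_coeff_sum Finset.univ
    (r := fun b => if w b = w a then (LaurentPolynomial.T (N.d b - X.len (w b)) : Lp) else 0)
    (fun b _ => pos_ite _ _) (Finset.mem_univ a) (N.d a - X.len (w a))
  rw [h1] at h2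
  simp at h2

end Hk

end

end Pool.Agent.P.MP_1a0ecf_al
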