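import Pool.Agent.P.MP_1a0ecf_al.M2
import Pool.Agent.P.MP_1a0ecf_al.H1

/-! Package M8: invariant forms. -/

namespace Pool.Agent.P.MP_1a0ecf_al

open Matrix MvPolynomial
open scoped Classical Kronecker

noncomputable section

variable {X : Cox}

theorem IsForm.gr {n : ℕ} {N : Bim n} {G : Matrix N.ι N.ι (Rn n)} (hG : IsForm N G) :
    Gr N.d (fun a => -N.d a) 0 G := fun a b => by
  have := hG.2.1 a b
  rwa [show N.d a + N.d b = N.d b + 0 - -N.d a by ring] at this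

theorem Gr.transpose {n : ℕ} {ι κ : Type} {d : ι → ℤ} {d' : κ → ℤ} {k : ℤ}
    {F : Matrix κ ι (Rn n)} (hF : Gr d d' k F) :
    Gr (fun a => -d' a) (fun a => -d a) k Fᵀ := fun a b => by
  have := hF b a
  rwa [show d a + k - d' b = -d' b + k - -d a by ring] at this

theorem IsForm.A_mul_inv {n : ℕ} {N : Bim n} {G : Matrix N.ι N.ι (Rn n)} (hG : IsForm N G)
    (p : Rn n) : N.A p * G⁻¹ = G⁻¹ * (N.A p)ᵀ := by
  calc N.A p * G⁻¹ = G⁻¹ * (G * N.A p) * G⁻¹ := by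
        rw [← Matrix.mul_assoc, nonsing_inv_mul _ hG.2.2.2, Matrix.one_mul]
    _ = G⁻¹ * (N.A p)ᵀ := by
        rw [← hG.2.2.1, Matrix.mul_assoc, Matrix.mul_assoc, mul_nonsing_inv _ hG.2.2.2,
          Matrix.mul_one]

theorem IsForm.adj_mem {n : ℕ} {N M : Bim n} {G : Matrix N.ι N.ι (Rn n)}
    {G' : Matrix M.ι M.ι (Rn n)} (hG : IsForm N G) (hG' : IsForm M G') {k : ℤ}
    {f : Matrix M.ι N.ι (Rn n)} (hf : f ∈ Hom N M k) : G⁻¹ * fᵀ * G' ∈ Hom M N k := by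
  refine ⟨?_, fun p => ?_⟩
  · simpa using hG'.gr.mul (hf.1.transpose.mul (hG.gr.inv hG.2.2.2))
  · rw [← Matrix.mul_assoc, ← Matrix.mul_assoc, hG.A_mul_inv, Matrix.mul_assoc G⁻¹,
      ← transpose_mul, ← hf.2, transpose_mul]
    simp only [Matrix.mul_assoc, hG'.2.2.1]

theorem IsForm.inv_mul_mem {n : ℕ} {N : Bim n} {G : Matrix N.ι N.ι (Rn n)} (hG : IsForm N G)
    {K : Matrix N.ι N.ι (Rn n)} {k : ℤ} (hK : ∀ a b, Hg (K a b) (N.d a + N.d b + k))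
    (hA : ∀ p, (N.A p)ᵀ * K = K * N.A p) : G⁻¹ * K ∈ Hom N N k := by
  refine ⟨?_, fun p => ?_⟩
  · have h1 : Gr N.d (fun a => -N.d a) k K := fun a b => by
      have := hK a b
      rwa [show N.d a + N.d b + k = N.d b + k - -N.d a by ring] at this
    simpa using h1.mul (hG.gr.inv hG.2.2.2)
  · rw [← Matrix.mul_assoc, hG.A_mul_inv, Matrix.mul_assoc, hA, Matrix.mul_assoc]

theorem IsForm.pull {n : ℕ} {N M : Bim n} {G : Matrix M.ι M.ι (Rn n)} (hG : IsForm M G)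
    {f : Matrix M.ι N.ι (Rn n)} {p : Matrix N.ι M.ι (Rn n)} (hf : f ∈ Hom N M 0)
    (hpf : p * f = 1) (h : fᵀ * G = fᵀ * G * f * p) : IsForm N (fᵀ * G * f) := by
  refine ⟨?_, fun a b => ?_, fun q => ?_, ?_⟩
  · rw [transpose_mul, transpose_mul, transpose_transpose, hG.1, Matrix.mul_assoc]
  · have := (hf.1.mul (hG.gr.mul hf.1.transpose)) a b
    rwa [show N.d b + (0 + (0 + 0)) - -N.d a = N.d a + N.d b by ring] at this
  · rw [← Matrix.mul_assoc, ← Matrix.mul_assoc, ← transpose_mul, ← hf.2, transpose_mul]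
    simp only [Matrix.mul_assoc]
    rw [← hf.2, ← Matrix.mul_assoc G, ← hG.2.2.1, Matrix.mul_assoc]
  · refine isUnit_det_of_right_inverse (B := p * (G⁻¹ * pᵀ)) ?_
    rw [← Matrix.mul_assoc, ← h, Matrix.mul_assoc, ← Matrix.mul_assoc G,
      mul_nonsing_inv _ hG.2.2.2, Matrix.one_mul, ← transpose_mul, hpf, transpose_one]

namespace Cox

variable (i : Fin X.n) {ι κ : Type} [Fintype ι] [DecidableEq ι] [Fintype κ] [DecidableEq κ]

theorem act_add_dd (p : Rn X.n) :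
    X.act ℝ (X.s i) p + MvPolynomial.X i * X.dd ℝ (X.s i) p = p := by
  have := dd_spec ℝ (X.cs.isReflection_simple i) p
  rw [rl_simple] at this
  rw [← this]
  ring

theorem dd_lin_simple (v : Fin X.n → ℝ) : X.dd ℝ (X.s i) (lin ℝ v) = C (X.B (X.al i) v) := by
  rw [dd_lin ℝ (X.cs.isReflection_simple i), vK_real, BK_real, rt_simple]

omit [Fintype ι] [DecidableEq ι] in
theorem kronJ_Th (G : Matrix κ ι (Rn X.n)) (a : κ × Fin 2) (b : ι × Fin 2) :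
    (((1 : Matrix κ κ (Rn X.n)) ⊗ₖ !![0, 1; 1, MvPolynomial.X i]) * Th (X.Bs i) G :
      Matrix (κ × Fin 2) (ι × Fin 2) (Rn X.n)) a b =
    !![X.dd ℝ (X.s i) (G a.1 b.1), G a.1 b.1; G a.1 b.1, MvPolynomial.X i * G a.1 b.1] a.2 b.2 := by
  obtain ⟨a, x⟩ := a
  obtain ⟨b, y⟩ := b
  have := act_add_dd i (G a b)
  simp only [Matrix.mul_apply, Fintype.sum_prod_type, kroneckerMap_apply, Matrix.one_apply, Th,
    theta_apply, ite_mul, one_mul, zero_mul, Fin.sum_univ_two, Finset.sum_add_distrib,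
    Finset.sum_ite_eq, Finset.mem_univ, if_true]
  fin_cases x <;> fin_cases y <;> simp [this]

theorem Th_transpose_kronJ (F : Matrix κ ι (Rn X.n)) :
    (Th (X.Bs i) F)ᵀ * ((1 : Matrix κ κ (Rn X.n)) ⊗ₖ !![0, 1; 1, MvPolynomial.X i]) =
      ((1 : Matrix ι ι (Rn X.n)) ⊗ₖ !![0, 1; 1, MvPolynomial.X i]) * Th (X.Bs i) Fᵀ := by
  have h1 : ((1 : Matrix κ κ (Rn X.n)) ⊗ₖ !![0, 1; 1, (MvPolynomial.X i : Rn X.n)])ᵀ =
      (1 : Matrix κ κ (Rn X.n)) ⊗ₖ !![0, 1; 1, MvPolynomial.X i] := by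
    rw [← kroneckerMap_transpose, transpose_one]
    congr 1
    ext x y : 1
    fin_cases x <;> fin_cases y <;> rfl
  rw [← h1, ← transpose_mul]
  ext ⟨a, x⟩ ⟨b, y⟩ : 1
  rw [transpose_apply, kronJ_Th, kronJ_Th]
  fin_cases x <;> fin_cases y <;> rfl

theorem formS_apply (G : Matrix ι ι (Rn X.n)) (a b : ι × Fin 2) : X.formS i G a b =
    !![X.dd ℝ (X.s i) (G a.1 b.1), G a.1 b.1; G a.1 b.1, MvPolynomial.X i * G a.1 b.1] a.2 b.2 :=
  kronJ_Th i G a b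

theorem formS_mul (G F : Matrix ι ι (Rn X.n)) :
    X.formS i (G * F) = X.formS i G * Th (X.Bs i) F := by
  rw [formS, formS, Th_mul, Matrix.mul_assoc]

theorem Th_transpose_mul_formS (f : Matrix ι κ (Rn X.n)) (G : Matrix ι ι (Rn X.n))
    (K : Matrix κ κ (Rn X.n)) (p : Matrix κ ι (Rn X.n)) (c : ℝ) (h : fᵀ * G = c • (K * p)) :
    (Th (X.Bs i) f)ᵀ * X.formS i G = c • (X.formS i K * Th (X.Bs i) p) := by
  rw [formS, formS, ← Matrix.mul_assoc, Th_transpose_kronJ, Matrix.mul_assoc, ← Th_mul, h,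
    Th_smul, Th_mul, Matrix.mul_smul, Matrix.mul_assoc]

theorem formS_conj (φ : Matrix κ ι (Rn X.n)) (G : Matrix κ κ (Rn X.n)) :
    X.formS i (φᵀ * G * φ) = (Th (X.Bs i) φ)ᵀ * X.formS i G * Th (X.Bs i) φ := by
  rw [formS, formS, ← Matrix.mul_assoc, Th_transpose_kronJ, Th_mul, Th_mul]
  simp only [Matrix.mul_assoc]

theorem dot_conj_apply (G : Matrix ι ι (Rn X.n)) (a b : ι × Fin 2) :
    ((X.dot i ι)ᵀ * G * X.dot i ι : Matrix (ι × Fin 2) (ι × Fin 2) (Rn X.n)) a b =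
      ![1, MvPolynomial.X i] a.2 * G a.1 b.1 * ![1, MvPolynomial.X i] b.2 := by
  simp [Matrix.mul_apply, dot]

theorem formS_lin (v : Fin X.n → ℝ) (G : Matrix ι ι (Rn X.n)) :
    X.formS i (lin ℝ v • G) = lin ℝ (X.σ (X.s i) *ᵥ v) • X.formS i G +
      X.B (X.al i) v • ((X.dot i ι)ᵀ * G * X.dot i ι) := by
  have h1 : lin ℝ (X.σ (X.s i) *ᵥ v) = X.act ℝ (X.s i) (lin ℝ v) := by rw [act_lin, σK_real]
  have h2 := act_add_dd i (lin ℝ v)
  rw [dd_lin_simple] at h2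
  ext ⟨a, x⟩ ⟨b, y⟩ : 1
  have h3 := dd_mul ℝ (X.cs.isReflection_simple i) (lin ℝ v) (G a b)
  rw [dd_lin_simple] at h3
  rw [Matrix.add_apply, Matrix.smul_apply, Matrix.smul_apply, formS_apply, formS_apply,
    dot_conj_apply, h1, smul_eq_C_mul, smul_eq_mul]
  simp only [Matrix.smul_apply, smul_eq_mul]
  rw [h3]
  generalize X.act ℝ (X.s i) (lin ℝ v) = l' at h2 ⊢
  rw [← h2]
  fin_cases x <;> fin_cases y <;> simp <;> ring

theorem dot_Th (F : Matrix κ ι (Rn X.n)) : X.dot i κ * Th (X.Bs i) F = F * X.dot i ι := by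
  ext a ⟨b, y⟩ : 1
  have := act_add_dd i (F a b)
  simp only [Matrix.mul_apply, Fintype.sum_prod_type, dot, Th, theta_apply, ite_mul, zero_mul,
    mul_ite, mul_zero, Fin.sum_univ_two, Finset.sum_add_distrib, Finset.sum_ite_eq,
    Finset.sum_ite_eq', Finset.mem_univ, if_true]
  fin_cases y <;> simp [this, mul_comm]

theorem dot_mem (M : Bim X.n) : X.dot i M.ι ∈ Hom (M.tens (X.Bs i)) M 1 := by
  refine ⟨fun a ⟨b, y⟩ => ?_, fun p => (dot_Th i _).symm⟩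
  by_cases h : a = b
  · subst h
    fin_cases y
    · simpa [dot] using Hg.C (n := X.n) 1
    · have := Hg.X i
      rw [show (2 : ℤ) = M.d a + 1 + 1 - M.d a by ring] at this
      simpa [dot] using this
  · simpa [dot, h] using Hg.zero _

theorem cst_dot_mulVec (v : ι × Fin 2 → ℝ) : cst (X.dot i ι) *ᵥ v = fun a => v (a, 0) := by
  ext a
  simp [mulVec, dotProduct, Fintype.sum_prod_type, cst, dot, apply_ite]

omit [Fintype ι] [DecidableEq ι] [Fintype κ] [DecidableEq κ] in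
theorem cst_Th_apply (F : Matrix κ ι (Rn X.n)) (a : κ × Fin 2) (b : ι × Fin 2) :
    cst (Th (X.Bs i) F) a b = !![constantCoeff (F a.1 b.1), 0;
      constantCoeff (X.dd ℝ (X.s i) (F a.1 b.1)), constantCoeff (F a.1 b.1)] a.2 b.2 := by
  obtain ⟨a, x⟩ := a
  obtain ⟨b, y⟩ := b
  fin_cases x <;> fin_cases y <;> simp [cst, Th, theta_apply, constantCoeff_act]

theorem cst_Th_mulVec (F : Matrix κ ι (Rn X.n)) (v : ι × Fin 2 → ℝ) (a : κ) :
    (cst (Th (X.Bs i) F) *ᵥ v) (a, 0) = (cst F *ᵥ fun b => v (b, 0)) a ∧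
    (cst (Th (X.Bs i) F) *ᵥ v) (a, 1) =
      (cst (F.map (X.dd ℝ (X.s i))) *ᵥ (fun b => v (b, 0)) + cst F *ᵥ fun b => v (b, 1)) a := by
  rw [show cst (Th (X.Bs i) F) = Matrix.of fun a b => _ from
    Matrix.ext fun a b => cst_Th_apply i F a b]
  simp [mulVec, dotProduct, Fintype.sum_prod_type, cst, Finset.sum_add_distrib]

theorem cst_formS (G : Matrix ι ι (Rn X.n)) :
    cst (X.formS i G) = blk (cst (G.map (X.dd ℝ (X.s i)))) (cst G) (cst G) 0 := by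
  ext ⟨a, x⟩ ⟨b, y⟩
  fin_cases x <;> fin_cases y <;> simp [cst, blk, formS_apply]

end Cox

theorem IsForm.formS {M : Bim X.n} {G : Matrix M.ι M.ι (Rn X.n)} (hG : IsForm M G) (i : Fin X.n) :
    IsForm (M.tens (X.Bs i)) (X.formS i G) := by
  refine ⟨?_, fun ⟨a, x⟩ ⟨b, y⟩ => ?_, fun p => ?_, ?_⟩
  · ext ⟨a, x⟩ ⟨b, y⟩ : 1
    have : G b a = G a b := congrFun (congrFun hG.1 a) b
    rw [transpose_apply, Cox.formS_apply, Cox.formS_apply, this]
    fin_cases x <;> fin_cases y <;> rfl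
  · have h1 := hG.2.1 a b
    have h2 := h1.dd X (X.cs.isReflection_simple i)
    have h3 := (Hg.X i).mul h1
    rw [Cox.formS_apply]
    fin_cases x <;> fin_cases y
    · rwa [show M.d a + M.d b - 2 = M.d a + -1 + (M.d b + -1) by ring] at h2
    · rwa [show M.d a + M.d b = M.d a + -1 + (M.d b + 1) by ring] at h1
    · rwa [show M.d a + M.d b = M.d a + 1 + (M.d b + -1) by ring] at h1
    · rwa [show 2 + (M.d a + M.d b) = M.d a + 1 + (M.d b + 1) by ring] at h3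
  · exact (Cox.Th_transpose_mul_formS i (M.A p) G G (M.A p) 1
      (by rw [hG.2.2.1, one_smul])).trans (one_smul _ _)
  · refine isUnit_det_of_right_inverse (B := Th (X.Bs i) G⁻¹ *
      ((1 : Matrix M.ι M.ι (Rn X.n)) ⊗ₖ !![-MvPolynomial.X i, 1; 1, 0])) ?_
    rw [← Matrix.mul_assoc, ← Cox.formS_mul, mul_nonsing_inv _ hG.2.2.2, Cox.formS, Th_one,
      Matrix.mul_one, ← mul_kronecker_mul, Matrix.mul_one, ← one_kronecker_one]
    congr 1
    ext x y : 1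
    fin_cases x <;> fin_cases y <;> simp

theorem IsForm.lef_of {n : ℕ} {M : Bim n} {G F : Matrix M.ι M.ι (Rn n)} (hG : IsForm M G)
    (hF : Gr M.d M.d 2 F) (h : Fᵀ * G = G * F) : Lef M.d (cst F) (cst G) := by
  refine ⟨hF.degM, by rw [← cst_transpose, hG.1], fun a b hab => ?_,
    by rw [← cst_transpose, ← cst_mul, h, cst_mul], ?_⟩
  · by_contra hne
    exact hab ((hG.2.1 a b).cc_eq_zero hne)
  · refine (isUnit_det_of_right_inverse (B := cst G⁻¹) ?_).ne_zero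
    rw [← cst_mul, mul_nonsing_inv _ hG.2.2.2, cst_one]

namespace Obj

variable {D : Hk X}

theorem cc_rp : constantCoeff X.rp = 0 := (Hg.lin _).cc_eq_zero two_ne_zero

theorem cst_A_add (o : Obj D) (ζ : ℝ) :
    cst (o.B.A X.rp + ζ • X.rp • (1 : Matrix o.B.ι o.B.ι (Rn X.n))) = o.L := by
  rw [cst_add, cst_smul, cst_psmul, cc_rp, zero_smul, smul_zero, add_zero, L]

theorem Lz_eq (o : Obj D) (i : Fin X.n) (ζ : ℝ) : o.Lz i ζ =
    blk o.L 0 (cst ((o.B.A X.rp).map (X.dd ℝ (X.s i))) + ζ • 1) o.L := by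
  have h1 : X.dd ℝ (X.s i) X.rp = 1 := by rw [Cox.dd_lin_simple, Cox.B_al_rho, C_1]
  ext ⟨a, x⟩ ⟨b, y⟩
  have h2 := congrFun (congrFun (o.cst_A_add ζ) a) b
  rw [cst, map_apply] at h2
  rw [Lz, Cox.cst_Th_apply, h2]
  by_cases hab : a = b <;> fin_cases x <;> fin_cases y <;>
    simp [blk, cst, Matrix.one_apply, hab, h1]

theorem Lz_zero (o : Obj D) (i : Fin X.n) : o.Lz i 0 = (o.tS i).L := by
  rw [Lz, zero_smul, add_zero]
  rfl

theorem continuous_Lz (o : Obj D) (i : Fin X.n) : Continuous (o.Lz i) := by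
  have : o.Lz i = fun ζ : ℝ => cst (Th (X.Bs i) (o.B.A X.rp)) +
      ζ • cst (Th (X.Bs i) (X.rp • (1 : Matrix o.B.ι o.B.ι (Rn X.n)))) := by
    funext ζ
    rw [Lz, Th_add, Th_smul, cst_add, cst_smul]
  rw [this]
  fun_prop

theorem lef {o : Obj D} (h : IsForm o.B o.G) : Lef o.B.d o.L (cst o.G) :=
  h.lef_of (o.B.gr _ _ (Hg.lin _)) (h.2.2.1 _)

theorem lef_Lz {o : Obj D} (h : IsForm o.B o.G) (i : Fin X.n) (ζ : ℝ) :
    Lef (dS o.B.d) (o.Lz i ζ) (cst (X.formS i o.G)) := by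
  have h1 : o.B.A X.rp + ζ • X.rp • (1 : Matrix o.B.ι o.B.ι (Rn X.n)) ∈ Hom o.B o.B 2 :=
    add_mem (Hom.A _ (Hg.lin _)) (Submodule.smul_mem _ _ (by
      simpa using Hom.psmul (Hom.one o.B) (Hg.lin X.rho)))
  refine (h.formS i).lef_of (Hom.th (X.Bs i) h1).1 ?_
  refine (Cox.Th_transpose_mul_formS i _ o.G o.G _ 1 ?_).trans (one_smul _ _)
  simp [transpose_add, transpose_smul, Matrix.add_mul, Matrix.mul_add, h.2.2.1]

theorem L_comm {o o' : Obj D} {k : ℤ} {f : Matrix o.B.ι o'.B.ι (Rn X.n)}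
    (hf : f ∈ Hom o'.B o.B k) : o.L * cst f = cst f * o'.L := by
  rw [L, L, ← cst_mul, ← cst_mul, hf.2]

theorem Lz_comm {o o' : Obj D} {k : ℤ} {f : Matrix o.B.ι o'.B.ι (Rn X.n)}
    (hf : f ∈ Hom o'.B o.B k) (i : Fin X.n) (ζ : ℝ) :
    o.Lz i ζ * cst (Th (X.Bs i) f) = cst (Th (X.Bs i) f) * o'.Lz i ζ := by
  rw [Lz, Lz, ← cst_mul, ← cst_mul, ← Th_mul, ← Th_mul]
  congr 2
  simp [Matrix.add_mul, Matrix.mul_add, hf.2]

theorem dot_Lz (o : Obj D) (i : Fin X.n) (ζ : ℝ) :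
    o.L * cst (X.dot i o.B.ι) = cst (X.dot i o.B.ι) * o.Lz i ζ := by
  rw [Lz, ← cst_mul, Cox.dot_Th, cst_mul, cst_A_add]

end Obj

end

end Pool.Agent.P.MP_1a0ecf_al
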