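import Pool.Agent.P.MP_1a0ecf_al.Sem

/-! Package Q1: roots and reflections from the data. -/

namespace Pool.Agent.P.MP_1a0ecf_al

open Matrix Finset
open scoped Classical

noncomputable section

namespace Q1

/-- the reflection with index `t` -/
def rr (T : TD) (X : Cox) (t : ℕ) : X.W :=
  if h : t < X.n then X.s ⟨t, h⟩
  else if _h : T.pi t < t ∧ T.pk t < t then rr T X (T.pi t) * rr T X (T.pk t) * rr T X (T.pi t)
  else 1
termination_by t
decreasing_by all_goals omega

variable {T : TD} {X : Cox}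

theorem rr_s (i : Fin X.n) : rr T X i = X.s i := by
  rw [rr, dif_pos i.2]

theorem rr_par {t : ℕ} (h : X.n ≤ t) (h1 : T.pi t < t) (h2 : T.pk t < t) :
    rr T X t = rr T X (T.pi t) * rr T X (T.pk t) * rr T X (T.pi t) := by
  rw [rr, dif_neg (by omega), dif_pos ⟨h1, h2⟩]

theorem rep_kc (fit : T.Fits X) (i l : Fin X.n) : Rep (T.kc i l) ((X.K i l : ℝ) : ℂ) 2 := by
  have e := (fit.2 i l).symm
  unfold TD.kc
  by_cases hil : i = l
  · subst hil
    rw [X.M.diagonal] at e
    rw [e, X.K_diag]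
    have := Rep.nat (r := 2) (B := 2) le_rfl
    simpa [cnd_eq] using this
  rcases X.hM i l hil with h | h | h
  · rw [e, h, X.K_two h]
    have := Rep.zero 2
    simpa [cnd_eq] using this
  · rw [e, h, X.K_three h]
    have := Rep.neg_one.mono (show 1 ≤ 2 by norm_num)
    simpa [cnd_eq] using this
  · rw [e, h, X.K_five h]
    have := Rep.neg_gold.mono (show 1 ≤ 2 by norm_num)
    simpa [cnd_eq] using this

theorem rep_cd (a i : ℕ) : Rep (rv (T.cd a i)) (vC (T.cd a i)) (2 ^ 16) :=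
  Rep.rv (f32_lt _ _)

theorem act_simple (fit : T.Fits X) (hn : T.n ≤ 16) (i : Fin X.n) (a b : ℕ)
    (h1 : ∀ j < T.n, j = i ∨ T.cd b j = T.cd a j)
    (h2 : eqM (Nat.add (rv (T.cd b i)) (sumN (fun l => Nat.mul (T.kc i l) (rv (T.cd a l))) T.n))
      (rv (T.cd a i)) = true) : X.σ (X.s i) *ᵥ T.pt X a = T.pt X b := by
  have e := fit.1
  rw [X.σ_simple_mulVec]
  funext j
  by_cases hj : j = i
  · subst hj
    have r1 : Rep (sumN (fun l => Nat.mul (T.kc j l) (rv (T.cd a l))) T.n)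
        (∑ l ∈ range T.n, (if h : l < X.n then ((X.K j ⟨l, h⟩ : ℝ) : ℂ) else 0) * vC (T.cd a l))
        (T.n * (2 * 2 * 2 ^ 16)) := by
      refine Rep.sum fun l hl => ?_
      have hl' : l < X.n := by omega
      rw [dif_pos hl']
      exact (rep_kc fit j ⟨l, hl'⟩).mul (rep_cd a l)
    have r2 := ((rep_cd (T := T) b j).add r1).eq (rep_cd a j) (by
      calc 2 ^ 16 + T.n * (2 * 2 * 2 ^ 16) ≤ 2 ^ 16 + 16 * (2 * 2 * 2 ^ 16) := by gcongr
        _ ≤ 2 ^ 189 := by norm_num) (by norm_num) h2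
    rw [← e, Finset.sum_range] at r2
    simp only [Fin.is_lt, dif_pos, Fin.eta, vC] at r2
    have r3 : vR (T.cd b j) + ∑ l : Fin X.n, X.K j l * vR (T.cd a l) = vR (T.cd a j) := by
      exact_mod_cast r2
    have r4 : X.B (X.al j) (T.pt X a) = ∑ l : Fin X.n, X.K j l * vR (T.cd a l) := by
      rw [Cox0.B, single_dotProduct, one_mul]
      rfl
    simp only [Pi.sub_apply, Pi.smul_apply, Pi.single_eq_same, smul_eq_mul, mul_one, r4, TD.pt]
    linarith
  · have hj' : (j : ℕ) ≠ i := fun h => hj (Fin.ext h)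
    rcases h1 j (by have := j.2; omega) with h | h
    · exact absurd h hj'
    · simp only [Pi.sub_apply, Pi.smul_apply, Pi.single_eq_of_ne hj, smul_eq_mul, mul_zero,
        sub_zero, TD.pt, h]

theorem pt_neg {a b : ℕ} (fit : T.Fits X)
    (h : ∀ i < T.n, eqM (Nat.add (rv (T.cd a i)) (rv (T.cd b i))) 0 = true) :
    T.pt X b = -T.pt X a := by
  funext i
  have e := fit.1
  have r := ((rep_cd (T := T) a i).add (rep_cd b i)).eq (Rep.zero 0) (by norm_num) (by norm_num)
    (h i (by have := i.2; omega))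
  simp only [vC] at r
  have r' : vR (T.cd a i) + vR (T.cd b i) = 0 := by exact_mod_cast r
  simp only [TD.pt, Pi.neg_apply]
  linarith

end Q1

open Q1 in
theorem exists_rt {T : TD} {X : Cox} (h : T.cR = true) (fit : T.Fits X) : Nonempty (Rt T X) := by
  simp only [TD.cR, TD.cSz, TD.c1, TD.c2, TD.c3, TD.c4, TD.c5, an_eq, allN_eq, orr_eq, imp_eq,
    nt_eq, ltN_eq, Nat.beq_eq, Nat.ble_eq, cnd_eq] at h
  obtain ⟨⟨z1, z2, z3, z4, z5, z6, z7, z8⟩, h1, h2, h3, h4, h5⟩ := h
  have e := fit.1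
  have z2' : 2 * T.N ≤ T.P := z2
  have pts : ∀ i : Fin X.n, T.pt X i = X.al i := by
    intro i
    funext j
    have := h1 i (by have := i.2; omega) j (by have := j.2; omega)
    simp only [TD.pt, this]
    by_cases hij : i = j
    · subst hij
      simp [vR_one]
    · have hij' : (i : ℕ) ≠ j := fun h => hij (Fin.ext h)
      rw [if_neg hij', vR_zero]
      simp [Pi.single_eq_of_ne (Ne.symm hij)]
  have acs : ∀ i : Fin X.n, ∀ a < T.P, X.σ (X.s i) *ᵥ T.pt X a = T.pt X (T.rf i a) := by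
    intro i a ha
    obtain ⟨-, -, k1, k2⟩ := h2 i (by have := i.2; omega) a ha
    exact act_simple fit z4 i a _ k1 k2
  have par : ∀ t < T.N, T.n ≤ t → T.pi t < T.n ∧ T.pk t < t ∧
      rr T X t = rr T X (T.pi t) * rr T X (T.pk t) * rr T X (T.pi t) := by
    intro t ht hn
    rcases h3 t ht with k | ⟨k1, k2, -⟩
    · omega
    · exact ⟨k1, k2, rr_par (by omega) (by omega) k2⟩
  have key : ∀ t, t < T.N → (∀ a < T.P, T.rf t a < T.P ∧
      X.σ (rr T X t) *ᵥ T.pt X a = T.pt X (T.rf t a)) ∧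
      ∃ w j, rr T X t = w * X.s j * w⁻¹ ∧ T.pt X t = X.σ w *ᵥ X.al j := by
    intro t
    induction t using Nat.strong_induction_on with
    | _ t ih =>
      intro ht
      by_cases hn : t < T.n
      · have hn' : t < X.n := by omega
        have e1 : rr T X t = X.s ⟨t, hn'⟩ := rr_s ⟨t, hn'⟩
        refine ⟨fun a ha => ⟨(h2 t hn a ha).1, ?_⟩, 1, ⟨t, hn'⟩, ?_, ?_⟩
        · rw [e1]
          exact acs ⟨t, hn'⟩ a ha
        · rw [e1, one_mul, inv_one, mul_one]
        · rw [Cox.G3.mv_one]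
          exact pts ⟨t, hn'⟩
      · obtain ⟨p1, p2, p3⟩ := par t ht (by omega)
        rcases h3 t ht with k | ⟨-, -, k3, k4⟩
        · omega
        obtain ⟨a1, -⟩ := ih (T.pi t) (by omega) (by omega)
        obtain ⟨a2, w, j, b1, b2⟩ := ih (T.pk t) p2 (by omega)
        have hp : T.pi t < X.n := by omega
        have e1 : rr T X (T.pi t) = X.s ⟨_, hp⟩ := rr_s ⟨_, hp⟩
        refine ⟨fun a ha => ?_, X.s ⟨_, hp⟩ * w, j, ?_, ?_⟩
        · obtain ⟨c1, d1⟩ := a1 a ha
          obtain ⟨c2, d2⟩ := a2 _ c1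
          obtain ⟨c3, d3⟩ := a1 _ c2
          rw [k4 a ha, p3, Cox.G3.mv_mul, Cox.G3.mv_mul, d1, d2, d3]
          exact ⟨c3, rfl⟩
        · rw [p3, e1, b1, _root_.mul_inv_rev, X.cs.inv_simple]
          simp only [mul_assoc]
        · rw [Cox.G3.mv_mul, ← b2, ← e1, (a1 _ (by omega)).2, k3]
  have rtr : ∀ t < T.N, X.rt (rr T X t) = T.pt X t := by
    intro t ht
    obtain ⟨-, w, j, b1, b2⟩ := key t ht
    rw [b1, b2]
    refine X.rt_eq ?_
    rw [← b2]
    intro i
    obtain ⟨k1, k2, -⟩ := h4 t ht i (by have := i.2; omega)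
    exact vR_nonneg k1 k2
  have rfl' : ∀ t < T.N, X.cs.IsReflection (rr T X t) := by
    intro t ht
    obtain ⟨-, w, j, b1, -⟩ := key t ht
    exact ⟨w, j, b1⟩
  have orb : ∀ (j : Fin X.n) (w : X.W), ∃ a < 2 * T.N, X.σ w *ᵥ X.al j = T.pt X a := by
    intro j w
    induction w using X.cs.simple_induction_left with
    | one => exact ⟨j, by have := j.2; omega, by rw [Cox.G3.mv_one, pts]⟩
    | mul_simple_left w i ih =>
      obtain ⟨a, ha, ea⟩ := ih
      refine ⟨T.rf i a, (h2 i (by have := i.2; omega) a (by omega)).2.1 ha, ?_⟩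
      rw [Cox.G3.mv_mul, ea]
      exact acs i a (by omega)
  refine ⟨⟨rr T X, fit, z1, z2', z3, z4, z5, z6, z7, z8, rr_s, pts, rfl', rtr, ?_, par,
    fun t ht a ha => ((key t ht).1 a ha).1, fun t ht a ha => ((key t ht).1 a ha).2, ?_⟩⟩
  · rintro x ⟨w, j, rfl⟩
    obtain ⟨a, ha, ea⟩ := orb j w
    by_cases hN : a < T.N
    · refine ⟨a, hN, Cox.G3.eq_of_mv X fun v => ?_⟩
      rw [X.σ_conj_simple, X.σ_refl (rfl' a hN), rtr a hN, ea]
    · obtain ⟨t, rfl⟩ : ∃ t, a = t + T.N := ⟨a - T.N, by omega⟩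
      have ht : t < T.N := by omega
      have en : T.pt X (t + T.N) = -T.pt X t := pt_neg fit fun i hi => (h4 t ht i hi).2.2
      refine ⟨t, ht, Cox.G3.eq_of_mv X fun v => ?_⟩
      rw [X.σ_conj_simple, X.σ_refl (rfl' t ht), rtr t ht, ea, en, Cox.G3.B_neg, neg_smul_neg]
  · have inj : ∀ a b, T.pt X a = T.pt X b → T.row a = T.row b := by
      intro a b hab
      refine f32_ext (n := T.n) (fld_lt _ _ _) (fld_lt _ _ _) fun i hi => ?_
      exact vR_inj (congrFun hab ⟨i, by omega⟩)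
    intro a ha b hb hab
    rcases lt_trichotomy a b with k | k | k
    · exact absurd (inj a b hab) (h5 b hb a k)
    · exact k
    · exact absurd (inj b a hab.symm) (h5 a ha b k)

end

end Pool.Agent.P.MP_1a0ecf_al
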