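import Pool.Agent.P.MP_1a0ecf_al.Sem

/-! Package Q2: conjugacy classes from the data. -/

namespace Pool.Agent.P.MP_1a0ecf_al

open Matrix Finset
open scoped Classical

noncomputable section

namespace Rt

variable {T : TD} {X : Cox} (ρ : Rt T X)

theorem r_inj {t t' : ℕ} (h : t < T.N) (h' : t' < T.N) (e : ρ.r t = ρ.r t') : t = t' := by
  have hN := ρ.N_le
  refine ρ.pt_inj t (by omega) t' (by omega) ?_
  rw [← ρ.rt_r t h, ← ρ.rt_r t' h', e]

theorem sum_refls {α : Type} [AddCommMonoid α] (f : X.W → α) :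
    ∑ t ∈ X.refls, f t = ∑ t ∈ range T.N, f (ρ.r t) := by
  have e : X.refls = (range T.N).image ρ.r := by
    ext t
    rw [X.mem_refls, mem_image]
    constructor
    · intro h
      obtain ⟨k, hk, e⟩ := ρ.r_surj t h
      exact ⟨k, mem_range.2 hk, e.symm⟩
    · rintro ⟨k, hk, rfl⟩
      exact ρ.r_refl k (mem_range.1 hk)
  rw [e, sum_image]
  intro a ha b hb e
  exact ρ.r_inj (mem_range.1 ha) (mem_range.1 hb) e

theorem acts_r {t : ℕ} (h : t < T.N) : ρ.Acts (ρ.r t) (T.rf t) := by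
  exact fun a ha => ⟨ρ.rf_lt t h a ha, ρ.act t h a ha⟩

theorem Acts.mul {ρ : Rt T X} {x y : X.W} {f g : ℕ → ℕ} (h : ρ.Acts x f) (h' : ρ.Acts y g) :
    ρ.Acts (x * y) fun a => f (g a) := by
  intro a ha
  obtain ⟨h1, h2⟩ := h' a ha
  obtain ⟨h3, h4⟩ := h _ h1
  exact ⟨h3, by rw [Cox.G3.mv_mul, h2, h4]⟩

theorem acts_one : ρ.Acts 1 fun a => a := by
  exact fun a ha => ⟨ha, Cox.G3.mv_one X _⟩

theorem acts_el {x : ℕ} (h : T.wok x = true) : ρ.Acts (el ρ.r x) (T.app x) := by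
  simp only [TD.wok, allN_eq, ltN_eq] at h
  have key : ∀ k ≤ ln x, ρ.Acts (elN ρ.r x k)
      fun a => Nat.rec (motive := fun _ => ℕ) a (fun k r => T.rf (lt x k) r) k := by
    intro k
    induction k with
    | zero => exact fun _ => ρ.acts_one
    | succ k ih => exact fun hk => (ρ.acts_r (h k hk)).mul (ih (by omega))
  exact key _ le_rfl

theorem Acts.eq_iff {ρ : Rt T X} {x y : X.W} {f g : ℕ → ℕ} (h : ρ.Acts x f) (h' : ρ.Acts y g) :
    x = y ↔ ∀ a < T.n, f a = g a := by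
  have h1 := ρ.n_le
  have h2 := ρ.N_le
  have h3 := ρ.fit.1
  constructor
  · rintro rfl a ha
    obtain ⟨a1, a2⟩ := h a (by omega)
    obtain ⟨b1, b2⟩ := h' a (by omega)
    exact ρ.pt_inj _ a1 _ b1 (a2.symm.trans b2)
  · intro e
    refine X.σ_injective (Matrix.ext_of_mulVec_single fun i => ?_)
    have hi := i.2
    have a2 := (h i (by omega)).2
    have b2 := (h' i (by omega)).2
    rw [ρ.pt_s] at a2 b2
    rw [e i (by omega)] at a2
    exact a2.trans b2.symm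

theorem conj_r {t k k' : ℕ} (ht : t < T.N) (hk : k < T.N) (hk' : k' < T.N) (e : T.rf t k = k') :
    ρ.r t * ρ.r k * ρ.r t = ρ.r k' := by
  have hN := ρ.N_le
  have e1 : X.σ (ρ.r t) *ᵥ T.pt X k = T.pt X k' := by rw [ρ.act t ht k (by omega), e]
  have e2 : ρ.r t * ρ.r t = 1 := (ρ.r_refl t ht).mul_self
  refine Cox.G3.eq_of_mv X fun v => ?_
  rw [Cox.G3.mv_mul, Cox.G3.mv_mul, X.σ_refl (ρ.r_refl k hk), X.σ_refl (ρ.r_refl k' hk') v,
    ρ.rt_r k hk, ρ.rt_r k' hk', mulVec_sub, mulVec_smul, ← Cox.G3.mv_mul, e2, Cox.G3.mv_one, e1,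
    ← X.B_inv (ρ.r t), ← Cox.G3.mv_mul X (ρ.r t) (ρ.r t), e2, Cox.G3.mv_one, e1]

theorem isConj_of_cj {x : X.W} {f : ℕ → ℕ} (hx : ρ.Acts x f) {j y : ℕ}
    (hj : ρ.Acts (ρ.w j) (T.gp j)) (h : T.cj f j y = true) : IsConj (ρ.w j) x := by
  simp only [TD.cj, an_eq, allN_eq, Nat.beq_eq] at h
  have hU := ρ.acts_el h.1
  have e := ((hx.mul hU).eq_iff (hU.mul hj)).2 h.2
  exact isConj_iff.2 ⟨el ρ.r y, by rw [← e, mul_inv_cancel_right]⟩

theorem sgn_el {x : ℕ} (h : T.wok x = true) : X.sgn (el ρ.r x) = (-1) ^ ln x := by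
  simp only [TD.wok, allN_eq, ltN_eq] at h
  have key : ∀ k ≤ ln x, X.sgn (elN ρ.r x k) = (-1) ^ k := by
    intro k
    induction k with
    | zero => exact fun _ => by simp [elN, Cox0.sgn, Cox0.len]
    | succ k ih =>
      intro hk
      rw [elN, X.sgn_mul, ih (by omega), X.sgn_refl (ρ.r_refl _ (h k hk)), pow_succ']
  exact key _ le_rfl

theorem trace_acts {x : X.W} {f : ℕ → ℕ} (h : ρ.Acts x f) :
    (X.σK ℂ x).trace = ∑ a ∈ range T.n, vC (T.cd (f a) a) := by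
  have h1 := ρ.n_le
  have h2 := ρ.N_le
  have h3 := ρ.fit.1
  rw [← h3, sum_range, Matrix.trace]
  refine sum_congr rfl fun i _ => ?_
  have hi := i.2
  have a2 := congrFun (h i (by omega)).2 i
  rw [ρ.pt_s, mulVec_single_one] at a2
  rw [Matrix.diag_apply, X.σK_apply ℂ, Matrix.map_apply, vC]
  exact congrArg _ a2

private theorem q2_cl {W : Type} [Group W] {f : W → ℂ} (hf : IsCl f) {a b : W} (h : IsConj a b) :
    f b = f a := by
  obtain ⟨c, rfl⟩ := isConj_iff.1 h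
  exact hf a c

theorem cl_of (hM : AllR T.cM 0 T.h) (hC : T.cC = true) : ρ.Cl := by
  simp only [TD.cC, an_eq, allN_eq, ltN_eq, Nat.beq_eq] at hC
  obtain ⟨h0, hS, hG, hI, hst⟩ := hC
  simp only [TD.cG, an_eq, allN_eq, Nat.beq_eq] at hG
  simp only [TD.cI, an_eq, allN_eq, Nat.beq_eq] at hI
  have actG : ∀ i < T.h, ρ.Acts (ρ.w i) (T.gp i) := fun i hi a ha => by
    rw [(hG i hi).2 a ha]
    exact ρ.acts_el (hG i hi).1 a ha
  have w0 : ρ.w 0 = 1 := by rw [w, el, h0, elN]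
  have hM' := fun i (hi : i < T.h) => hM i (Nat.zero_le _) hi
  simp only [TD.cM, TD.cx, TD.st, an_eq, allN_eq, ltN_eq, Nat.beq_eq, Nat.add_eq] at hM'
  have cj : ∀ i < T.h, ∀ g < T.ng i, ∀ k < T.gc i g, IsConj (ρ.w (T.gj i g))
      (ρ.w i * ρ.r (tg (T.cer i (sumN (T.gc i) g + k)))) := fun i hi g hg k hk => by
    obtain ⟨a1, a2⟩ := (hM' i hi).2.1 g hg
    obtain ⟨a3, a4⟩ := a2 k hk
    exact ρ.isConj_of_cj ((actG i hi).mul (ρ.acts_r a3)) (actG _ a1) a4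
  have step : ∀ i < T.h, ∀ t, X.cs.IsReflection t →
      ∃ g < T.ng i, IsConj (ρ.w (T.gj i g)) (ρ.w i * t) := fun i hi t ht => by
    obtain ⟨a, ha, rfl⟩ := ρ.r_surj t ht
    obtain ⟨k, hk, rfl⟩ := cover_surj (hM' i hi).2.2 a ha
    rw [← (hM' i hi).1] at hk
    obtain ⟨g, hg, k', hk', rfl⟩ := exists_group _ _ hk
    exact ⟨g, hg, cj i hi g hg k' hk'⟩
  have cover : ∀ x, ∃ i < T.h, IsConj (ρ.w i) x := fun x => by
    induction x using X.cs.simple_induction_right with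
    | one => exact ⟨0, ρ.h_pos, by rw [w0]⟩
    | mul_simple_right x s ih =>
      obtain ⟨i, hi, c⟩ := ih
      obtain ⟨u, rfl⟩ := isConj_iff.1 c
      obtain ⟨g, hg, c'⟩ := step i hi _ ((X.cs.isReflection_simple s).conj u⁻¹)
      refine ⟨_, ((hM' i hi).2.1 g hg).1, c'.trans (isConj_iff.2 ⟨u, ?_⟩)⟩
      group
  refine ⟨fun i hi => (hG i hi).1, actG, w0, cover, fun i hi g hg => ((hM' i hi).2.1 g hg).1,
    fun i hi f hf => ?_, step, fun f hf x => ?_, ?_, hS, hst⟩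
  · rw [ρ.sum_refls, ← cover_sum (hM' i hi).2.2 fun a => f (ρ.w i * ρ.r a), ← (hM' i hi).1,
      sum_groups]
    refine sum_congr rfl fun g hg => ?_
    rw [sum_congr rfl fun k hk => q2_cl hf (cj i hi g (mem_range.1 hg) k (mem_range.1 hk)),
      sum_const, card_range, nsmul_eq_mul]
  · obtain ⟨i, hi, c⟩ := cover x
    have hU := ρ.acts_el (hI i hi).1
    have e := (((actG i hi).mul (hU.mul (actG i hi))).eq_iff hU).2 (hI i hi).2
    obtain ⟨u, rfl⟩ := isConj_iff.1 c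
    have e' : (ρ.w i)⁻¹ = el ρ.r (fld T.iv 80 i) * ρ.w i * (el ρ.r (fld T.iv 80 i))⁻¹ := by
      rw [eq_mul_inv_iff_mul_eq, inv_mul_eq_iff_eq_mul, e]
    rw [show (u * ρ.w i * u⁻¹)⁻¹ = u * (ρ.w i)⁻¹ * u⁻¹ by group, hf, hf, e', hf]
  · rw [card_eq_sum_ones, ρ.sum_refls, sum_const, card_range, smul_eq_mul, mul_one]

end Rt

end

end Pool.Agent.P.MP_1a0ecf_al
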