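import Pool.Agent.P.MP_1a0ecf_al.Q2

/-! Package Q3: class weights and scalar products. -/

namespace Pool.Agent.P.MP_1a0ecf_al

open Matrix Finset
open scoped Classical

noncomputable section

theorem IsCl.of_isConj {W : Type} [Group W] {f : W → ℂ} (h : IsCl f) {x y : W} (e : IsConj x y) :
    f x = f y := by
  obtain ⟨c, rfl⟩ := isConj_iff.1 e
  exact (h x c).symm

theorem IsCl.mul {W : Type} [Group W] {f g : W → ℂ} (h : IsCl f) (h' : IsCl g) :
    IsCl fun w => f w * g w := by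
  intro w u
  simp only [h w u, h' w u]

namespace Q3

variable {T : TD} {X : Cox} (ρ : Rt T X)

/-- the weight function attached to the class sizes -/
def mu (w : X.W) : ℝ :=
  ∑ i ∈ range T.h, ∑ u : X.W, if u * ρ.w i * u⁻¹ = w then (T.s i : ℝ) else 0

theorem mu_conj (w v : X.W) : mu ρ (v * w * v⁻¹) = mu ρ w := by
  refine sum_congr rfl fun i _ => ?_
  rw [← Equiv.sum_comp (Equiv.mulLeft v)]
  refine sum_congr rfl fun u _ => if_congr ?_ rfl rfl
  rw [Equiv.coe_mulLeft, show v * u * ρ.w i * (v * u)⁻¹ = v * (u * ρ.w i * u⁻¹) * v⁻¹ by group,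
    mul_left_inj, mul_right_inj]

theorem sum_mu {f : X.W → ℂ} (hf : IsCl f) : ∑ w, (mu ρ w : ℂ) * f w =
    (Nat.card X.W : ℂ) * ∑ i ∈ range T.h, (T.s i : ℂ) * f (ρ.w i) := by
  simp only [mu, Complex.ofReal_sum, sum_mul]
  rw [sum_comm, mul_sum]
  refine sum_congr rfl fun i _ => ?_
  rw [sum_comm]
  have : ∀ u : X.W, ∑ w, ((if u * ρ.w i * u⁻¹ = w then (T.s i : ℝ) else 0 : ℝ) : ℂ) * f w =
      (T.s i : ℂ) * f (ρ.w i) := fun u => by
    rw [sum_eq_single (u * ρ.w i * u⁻¹) (fun w _ hw => by simp [Ne.symm hw]) (by simp), if_pos rfl,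
      hf]
    simp
  simp only [this, sum_const, card_univ, nsmul_eq_mul, Nat.card_eq_fintype_card]

theorem cl_shift {α : Type} [AddCommMonoid α] {f : X.W → α} (hf : ∀ w u, f (u * w * u⁻¹) = f w)
    (w u : X.W) : ∑ t ∈ X.refls, f (u * w * u⁻¹ * t) = ∑ t ∈ X.refls, f (w * t) := by
  rw [← X.sum_refls_conj (fun t => f (u * w * u⁻¹ * t)) u]
  refine sum_congr rfl fun t _ => ?_
  rw [show u * w * u⁻¹ * (u * t * u⁻¹) = u * (w * t) * u⁻¹ by group, hf]

variable {ρ}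

theorem stat (c : ρ.Cl) (f : X.W → ℂ) :
    ∑ i ∈ range T.h, (T.s i : ℂ) * ∑ g ∈ range (T.ng i), (T.gc i g : ℂ) * f (ρ.w (T.gj i g)) =
      T.N * ∑ j ∈ range T.h, (T.s j : ℂ) * f (ρ.w j) := by
  have h1 : ∀ j ∈ range T.h, (T.N : ℂ) * ((T.s j : ℂ) * f (ρ.w j)) =
      ∑ i ∈ range T.h, ∑ g ∈ range (T.ng i),
        if T.gj i g = j then (T.s i : ℂ) * ((T.gc i g : ℂ) * f (ρ.w j)) else 0 := fun j hj => by
    have h := c.stat j (mem_range.1 hj)
    simp only [TD.cS, Nat.beq_eq, sumN_eq, cnd_eq, Nat.mul_eq] at h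
    have h' := congrArg (fun n : ℕ => (n : ℂ) * f (ρ.w j)) h
    simp only [Nat.cast_sum, Nat.cast_mul, Nat.cast_ite, Nat.cast_zero, sum_mul, ite_mul,
      zero_mul, mul_assoc] at h'
    exact h'.symm
  rw [mul_sum, sum_congr rfl h1, sum_comm]
  refine sum_congr rfl fun i hi => ?_
  rw [mul_sum, sum_comm]
  refine sum_congr rfl fun g hg => ?_
  rw [sum_ite_eq, if_pos (mem_range.2 (c.gj_lt i (mem_range.1 hi) g (mem_range.1 hg)))]

theorem mu_harm (c : ρ.Cl) (w : X.W) :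
    ∑ t ∈ X.refls, mu ρ (w * t) = X.refls.card * mu ρ w := by
  let D : X.W → ℝ := fun w => ∑ t ∈ X.refls, mu ρ (w * t) - X.refls.card * mu ρ w
  have hD : IsCl fun w => (D w : ℂ) := fun w u => by
    simp only [D, cl_shift (fun w u => mu_conj ρ w u), mu_conj]
  have key : ∀ f : X.W → ℂ, IsCl f → ∑ w, (D w : ℂ) * f w = 0 := fun f hf => by
    have hg : IsCl fun w => ∑ t ∈ X.refls, f (w * t) := fun w u => cl_shift hf w u
    have e1 : ∑ w, ((∑ t ∈ X.refls, mu ρ (w * t) : ℝ) : ℂ) * f w =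
        ∑ w, (mu ρ w : ℂ) * ∑ t ∈ X.refls, f (w * t) := by
      simp only [Complex.ofReal_sum, sum_mul, mul_sum]
      rw [sum_comm, sum_comm (s := univ)]
      refine sum_congr rfl fun t ht => ?_
      rw [← Equiv.sum_comp (Equiv.mulRight t)]
      refine sum_congr rfl fun w _ => ?_
      rw [Equiv.coe_mulRight, mul_assoc, (X.mem_refls.1 ht).mul_self, mul_one]
    have e2 := sum_mu ρ hg
    rw [sum_congr (s₁ := range T.h) rfl fun i hi => by rw [c.mul i (mem_range.1 hi) f hf],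
      stat c f] at e2
    simp only [D, Complex.ofReal_sub, Complex.ofReal_mul, Complex.ofReal_natCast, sub_mul,
      sum_sub_distrib, mul_assoc]
    rw [e1, e2, ← mul_sum, sum_mu ρ hf, c.card]
    ring
  have h0 : ∑ w, D w * D w = 0 := by exact_mod_cast key _ hD
  have h1 := (sum_eq_zero_iff_of_nonneg fun w _ => mul_self_nonneg (D w)).1 h0 w (mem_univ w)
  exact sub_eq_zero.1 (mul_self_eq_zero.1 h1)

theorem mu_eq (c : ρ.Cl) (w : X.W) : (mu ρ w : ℂ) = T.S := by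
  have h := sum_mu ρ (f := fun _ => 1) fun _ _ => rfl
  have h1 := Cox.const_of_harmonic (mu_harm c)
  simp only [h1, mul_one, sum_const, card_univ, nsmul_eq_mul, Nat.card_eq_fintype_card] at h
  rw [h1, mul_left_cancel₀ (Nat.cast_ne_zero.2 Fintype.card_ne_zero) h, TD.S, sumN_eq,
    Nat.cast_sum]

theorem acts_pow (c : ρ.Cl) {i : ℕ} (hi : i < T.h) (k : ℕ) : ρ.Acts (ρ.w i ^ k) (T.gpw i k) := by
  induction k with
  | zero =>
    rw [pow_zero]
    exact ρ.acts_one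
  | succ k ih =>
    rw [pow_succ']
    exact (c.actG i hi).mul ih

variable (ρ)

/-- the number of fixed points on a stable set of points is a character -/
theorem exists_perm (S : ℕ) (hS : ∀ i < T.n, ∀ b < T.P, bit S b = true → bit S (T.rf i b) = true) :
    ∃ f : X.W → ℂ, IsCh f ∧ ∀ x g, ρ.Acts x g →
      f x = ∑ b ∈ range T.P, if an (bit S b) (Nat.beq (g b) b) = true then 1 else 0 := by
  let O : Finset (Fin X.n → ℝ) := ((range T.P).filter fun b => bit S b = true).image (T.pt X)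
  have hO : ∀ w : X.W, ∀ v ∈ O, X.σ w *ᵥ v ∈ O := fun w => by
    induction w using X.cs.simple_induction_left with
    | one => exact fun v hv => by rwa [Cox.G3.mv_one]
    | mul_simple_left w i ih =>
      intro v hv
      obtain ⟨b, hb, e⟩ := mem_image.1 (ih v hv)
      obtain ⟨hb1, hb2⟩ := mem_filter.1 hb
      have hi : (i : ℕ) < T.n := ρ.fit.1 ▸ i.2
      have hi' : (i : ℕ) < T.N := hi.trans_le ρ.n_le
      have := ρ.act i hi' b (mem_range.1 hb1)
      rw [ρ.r_s] at this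
      rw [Cox.G3.mv_mul, ← e]
      exact mem_image.2 ⟨_, mem_filter.2 ⟨mem_range.2 (ρ.rf_lt i hi' b (mem_range.1 hb1)),
        hS i hi b (mem_range.1 hb1) hb2⟩, this.symm⟩
  let _ : MulAction X.W O :=
    { smul := fun w v => ⟨X.σ w *ᵥ v.1, hO w v.1 v.2⟩
      one_smul := fun v => Subtype.ext (Cox.G3.mv_one X _)
      mul_smul := fun x y v => Subtype.ext (Cox.G3.mv_mul X x y _) }
  refine ⟨_, isCh_perm (MulAction.toPermHom X.W O), fun x g hx => ?_⟩
  rw [sum_boole]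
  congr 1
  symm
  refine card_bij (fun b hb => ⟨T.pt X b, mem_image.2 ⟨b, mem_filter.2 ⟨(mem_filter.1 hb).1,
    ((an_eq _ _).1 (mem_filter.1 hb).2).1⟩, rfl⟩⟩) (fun b hb => ?_) (fun b hb b' hb' e => ?_)
    fun v hv => ?_
  · obtain ⟨h1, h2⟩ := mem_filter.1 hb
    refine mem_filter.2 ⟨mem_univ _, Subtype.ext ?_⟩
    have := (hx b (mem_range.1 h1)).2
    rw [Nat.eq_of_beq_eq_true ((an_eq _ _).1 h2).2] at this
    exact this
  · exact ρ.pt_inj b (mem_range.1 (mem_filter.1 hb).1) b' (mem_range.1 (mem_filter.1 hb').1)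
      (congrArg Subtype.val e)
  · obtain ⟨b, hb, e⟩ := mem_image.1 v.2
    obtain ⟨hb1, hb2⟩ := mem_filter.1 hb
    have h1 : X.σ x *ᵥ v.1 = v.1 := congrArg Subtype.val (mem_filter.1 hv).2
    obtain ⟨h2, h3⟩ := hx b (mem_range.1 hb1)
    rw [← e, h3] at h1
    exact ⟨b, mem_filter.2 ⟨hb1, (an_eq _ _).2 ⟨hb2,
      Nat.beq_eq.mpr (ρ.pt_inj _ h2 _ (mem_range.1 hb1) h1)⟩⟩, Subtype.ext e⟩

end Q3

namespace Rt.Cl

variable {T : TD} {X : Cox} {ρ : Rt T X} (c : ρ.Cl)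
include c

theorem ext {f g : X.W → ℂ} (hf : IsCl f) (hg : IsCl g) (h : ∀ i < T.h, f (ρ.w i) = g (ρ.w i)) :
    f = g := by
  funext x
  obtain ⟨i, hi, e⟩ := c.cover x
  rw [← hf.of_isConj e, ← hg.of_isConj e, h i hi]

theorem avg {f : X.W → ℂ} (hf : IsCl f) : (T.S : ℂ) * ∑ w, f w =
    (Nat.card X.W : ℂ) * ∑ i ∈ range T.h, (T.s i : ℂ) * f (ρ.w i) := by
  rw [← Q3.sum_mu ρ hf, mul_sum]
  exact sum_congr rfl fun w _ => by rw [Q3.mu_eq c]

theorem ip_eq {f g : X.W → ℂ} (hf : IsCl f) (hg : IsCl g) : (T.S : ℂ) * ip f g =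
    ∑ i ∈ range T.h, (T.s i : ℂ) * (f (ρ.w i) * g (ρ.w i)) := by
  have h := c.avg (hf.mul hg)
  have h0 : (Nat.card X.W : ℂ) ≠ 0 := Nat.cast_ne_zero.2 Nat.card_pos.ne'
  simp only [ip, c.inv g hg]
  rw [mul_left_comm, h, inv_mul_cancel_left₀ h0]

theorem rep_tr {i : ℕ} (hi : i < T.h) (k : ℕ) :
    Rep (T.tr k i) (X.σK ℂ (ρ.w i ^ k)).trace (T.n * 2 ^ 16) := by
  rw [ρ.trace_acts (Q3.acts_pow c hi k)]
  exact Rep.sum fun a _ => Rep.rv (f32_lt _ _)

theorem rep_sr {i : ℕ} (hi : i < T.h) : Rep (T.sr i) (X.sgn (ρ.w i)) 1 := by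
  have h := Rep.ite (b := Nat.beq (Nat.mod (ln (T.wr i)) 2) 0) Rep.one Rep.neg_one
  rw [Rt.w, ρ.sgn_el (c.wok i hi)]
  suffices e : (-1 : ℂ) ^ ln (T.wr i) =
      if Nat.beq (Nat.mod (ln (T.wr i)) 2) 0 = true then 1 else -1 by
    rw [e]
    exact h
  rcases Nat.even_or_odd (ln (T.wr i)) with e | e
  · rw [e.neg_one_pow]
    exact (if_pos (Nat.beq_eq.mpr (Nat.even_iff.1 e))).symm
  · rw [e.neg_one_pow, if_neg fun e' => ?_]
    have h1 : ln (T.wr i) % 2 = 0 := Nat.eq_of_beq_eq_true e'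
    have h2 := Nat.odd_iff.1 e
    omega

theorem exists_basic (hT : T.cT = true) {a : ℕ} (ha : a < T.nb) :
    ∃ f : X.W → ℂ, VC f ∧ ∀ i < T.h, f (ρ.w i) = vC (T.tb a i) := by
  simp only [TD.cT, an_eq, allN_eq] at hT
  obtain ⟨h1, h2, -⟩ := hT
  have hb : ∀ i, Rep (rv (T.tb a i)) (vC (T.tb a i)) (2 ^ 16) := fun i => Rep.rv (f32_lt _ _)
  have hn := ρ.n_le'
  have hP := ρ.P_le
  by_cases h : a < 2
  · interval_cases a
    · exact ⟨_, (isIrr_linear (1 : X.W →* ℂ)).isCh.vc, fun i hi =>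
        Rep.one.eq (hb i) (by norm_num) (by norm_num) (h1 i hi).1⟩
    · refine ⟨_, (isCh_matrix (X.σK ℂ)).vc, fun i hi => ?_⟩
      have := c.rep_tr hi 1
      rw [pow_one] at this
      exact this.eq (hb i) ((Nat.mul_le_mul_right _ hn).trans (by norm_num)) (by norm_num)
        (h1 i hi).2
  · have h3 := h2 a ha
    simp only [TD.cB, orr_eq, an_eq, allN_eq, ltN_eq, imp_eq] at h3
    obtain ⟨h4, h5⟩ := h3.resolve_left h
    obtain ⟨f, hf, hf'⟩ := Q3.exists_perm ρ (T.obm a) h4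
    refine ⟨f, hf.vc, fun i hi => ?_⟩
    rw [hf' _ _ (c.actG i hi)]
    exact (Rep.sum fun b _ => Rep.ite Rep.one (Rep.zero 1)).eq (hb i)
      ((Nat.mul_le_mul_right _ hP).trans (by norm_num)) (by norm_num) (h5 i hi)

end Rt.Cl

end

end Pool.Agent.P.MP_1a0ecf_al
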