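import Pool.Agent.P.MP_1a0ecf_al.Q3
import Pool.Agent.P.MP_1a0ecf_al.Q1

/-! Package Q4: the character table from the data. -/

namespace Pool.Agent.P.MP_1a0ecf_al

open Matrix Finset
open scoped Classical

noncomputable section

theorem eigen_part {V : Type} [AddCommGroup V] [Module ℂ V] (M : V →ₗ[ℂ] V) (s : Finset ℂ)
    (a : ℂ → V) (ha : ∀ l, M (a l) = l • a l) {l0 : ℂ} {b : V} (hb : M b = l0 • b) {n : ℕ}
    (c : ℕ → V) (μ : ℕ → ℂ) (hc : ∀ k < n, M (c k) = μ k • c k ∧ μ k ≠ l0)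
    (e : ∑ l ∈ s, a l + ∑ k ∈ range n, c k = b) : b = if l0 ∈ s then a l0 else 0 := by
  have hI := Module.End.eigenspaces_iSupIndep (M : Module.End ℂ V) l0
  have hm : ∀ l v, M v = l • v → l ≠ l0 →
      v ∈ ⨆ j, ⨆ (_ : j ≠ l0), Module.End.eigenspace (M : Module.End ℂ V) j := fun l v hv hl =>
    Submodule.mem_iSup_of_mem l
      (Submodule.mem_iSup_of_mem hl (Module.End.mem_eigenspace_iff.2 hv))
  have h1 : b - (if l0 ∈ s then a l0 else 0) ∈ Module.End.eigenspace (M : Module.End ℂ V) l0 := by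
    refine sub_mem (Module.End.mem_eigenspace_iff.2 hb) ?_
    split_ifs
    · exact Module.End.mem_eigenspace_iff.2 (ha l0)
    · exact zero_mem _
  have h2 : b - (if l0 ∈ s then a l0 else 0) = ∑ l ∈ s.erase l0, a l + ∑ k ∈ range n, c k := by
    rw [← e]
    split_ifs with h
    · rw [← Finset.add_sum_erase _ _ h]
      abel
    · rw [Finset.erase_eq_of_notMem h, sub_zero]
  refine sub_eq_zero.1 (Submodule.disjoint_def.1 hI _ h1 ?_)
  rw [h2]
  exact add_mem (sum_mem fun l hl => hm l _ (ha l) (Finset.ne_of_mem_erase hl))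
    (sum_mem fun k hk => hm (μ k) _ (hc k (mem_range.1 hk)).1 (hc k (mem_range.1 hk)).2)

/-- multiplication by the sum of the reflections on class values -/
def q4M (T : TD) : (ℕ → ℂ) →ₗ[ℂ] (ℕ → ℂ) where
  toFun v i := if i < T.h then ∑ g ∈ range (T.ng i), (T.gc i g : ℂ) * v (T.gj i g) else 0
  map_add' v v' := by
    funext i
    simp only [Pi.add_apply]
    split_ifs
    · simp only [mul_add, Finset.sum_add_distrib]
    · simp
  map_smul' a v := by
    funext i
    simp only [Pi.smul_apply, smul_eq_mul, RingHom.id_apply]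
    split_ifs
    · rw [Finset.mul_sum]
      exact Finset.sum_congr rfl fun g _ => by ring
    · simp

/-- truncation -/
def q4v (T : TD) (u : ℕ → ℂ) : ℕ → ℂ := fun i => if i < T.h then u i else 0

theorem q4_tb (T : TD) (a i : ℕ) : Rep (rv (T.tb a i)) (vC (T.tb a i)) (2 ^ 16) :=
  Rep.rv (f32_lt _ _)

theorem q4_ch (T : TD) (j i : ℕ) : Rep (rv (T.ch j i)) (vC (T.ch j i)) (2 ^ 16) :=
  Rep.rv (f32_lt _ _)

theorem q4_pc (T : TD) (j p : ℕ) : T.pc j p < 2 ^ 16 := by
  have h : T.sw j (Nat.add p 1) < 2 ^ 32 := f32_lt _ _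
  have e : T.pc j p = T.sw j (Nat.add p 1) / 2 ^ 16 := Nat.shiftRight_eq_div_pow _ _
  rw [e]
  omega

theorem q4_le {n m B : ℕ} (h : n ≤ m) (h' : m * B ≤ 2 ^ 189) : n * B ≤ 2 ^ 189 :=
  (Nat.mul_le_mul_right B h).trans h'

theorem q4_ov (T : TD) (k : ℕ) : (T.ov k : ℂ) = (T.o k : ℂ) - 128 := by
  simp [TD.ov]

namespace Rt.Cl

variable {T : TD} {X : Cox} {ρ : Rt T X} (c : ρ.Cl)
include c

theorem q4M_vec {u : ℕ → ℂ} {l : ℂ}
    (h : ∀ i < T.h, ∑ g ∈ range (T.ng i), (T.gc i g : ℂ) * u (T.gj i g) = l * u i) :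
    q4M T (q4v T u) = l • q4v T u := by
  funext i
  change (if i < T.h then ∑ g ∈ range (T.ng i), (T.gc i g : ℂ) * q4v T u (T.gj i g) else 0) =
    l * (if i < T.h then u i else 0)
  split_ifs with hi
  · rw [← h i hi]
    refine Finset.sum_congr rfl fun g hg => ?_
    rw [q4v, if_pos (c.gj_lt i hi g (mem_range.1 hg))]
  · rw [mul_zero]

theorem eigen {k : ℕ} (hE : T.cE k = true) {i : ℕ} (hi : i < T.h) :
    ∑ g ∈ range (T.ng i), (T.gc i g : ℂ) * vC (T.ch k (T.gj i g)) =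
      (T.ov k : ℂ) * vC (T.ch k i) := by
  have _ := c.S_pos
  simp only [TD.cE, allN_eq] at hE
  rw [q4_ov]
  refine Rep.eq (Rep.sum fun g _ => Rep.mul (Rep.nat (B := 256) (f8_lt _ _).le) (q4_ch T _ _))
    (Rep.mul (Rep.r8 (f8_lt _ _)) (q4_ch T _ _)) (q4_le (m := 256) (f8_lt _ _).le ?_) ?_ (hE i hi)
  · norm_num
  · norm_num

theorem exists_vc (hT : T.cT = true) (hE : AllR T.cE 0 T.h) (hL : AllR T.cL 0 T.h) {j : ℕ}
    (hj : j < T.h) : ∃ f : X.W → ℂ, VC f ∧ ∀ i < T.h, f (ρ.w i) = vC (T.ch j i) := by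
  induction j using Nat.strong_induction_on with
  | _ j ih =>
  have hF : ∀ a, a < T.nb + j → ∃ f : X.W → ℂ, VC f ∧ ∀ i < T.h, f (ρ.w i) = vC (T.tb a i) := by
    intro a ha
    rcases lt_or_ge a T.nb with h | h
    · exact c.exists_basic hT h
    · obtain ⟨j', rfl⟩ := Nat.exists_eq_add_of_le h
      exact ih j' (by omega) (by omega)
  choose! F hF1 hF2 using hF
  have hl := hL j (Nat.zero_le _) hj
  simp only [TD.cL, an_eq, allN_eq, ltN_eq, nt_eq, Nat.beq_eq] at hl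
  obtain ⟨h1, h2, h3⟩ := hl
  let z : ℕ → ℤ := fun p => (T.pc j p : ℤ) - 2 ^ 15
  have hf : VC (∑ p ∈ range (T.np j), z p • (F (T.pa j p) * F (T.pb j p))) :=
    AddSubgroup.sum_mem _ fun p hp => AddSubgroup.zsmul_mem _
      (VC.mul (hF1 _ (h1 p (mem_range.1 hp)).1) (hF1 _ (h1 p (mem_range.1 hp)).2)) _
  obtain ⟨s, g, hg, e⟩ := Cox.VC.proj hf
  have key := eigen_part (q4M T) s (fun l => q4v T fun i => g l (ρ.w i))
    (fun l => c.q4M_vec fun i hi => by rw [← c.mul i hi (g l) (hg l).1.isCl, (hg l).2])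
    (l0 := (T.ov j : ℂ)) (b := q4v T fun i => vC (T.ch j i))
    (c.q4M_vec fun i hi => c.eigen (hE j (Nat.zero_le _) hj) hi) (n := T.nl j)
    (fun l => q4v T fun i => (z (Nat.add (T.np j) l) : ℂ) * vC (T.ch (T.pa j (Nat.add (T.np j) l)) i))
    (fun l => (T.ov (T.pa j (Nat.add (T.np j) l)) : ℂ))
    (fun l hl => ⟨c.q4M_vec fun i hi => by
      rw [mul_left_comm, ← c.eigen (hE _ (Nat.zero_le _) (h2 l hl).1) hi, Finset.mul_sum]
      exact Finset.sum_congr rfl fun g _ => by ring, fun h => (h2 l hl).2 (by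
        have := Int.cast_injective h
        simp only [TD.ov] at this
        omega)⟩) (by
      funext i
      simp only [Pi.add_apply, Finset.sum_apply, q4v]
      split_ifs with hi
      · have e1 : ∑ l ∈ s, g l (ρ.w i) = ∑ p ∈ range (T.np j),
            (z p : ℂ) * (vC (T.tb (T.pa j p) i) * vC (T.tb (T.pb j p) i)) := by
          rw [← Finset.sum_apply, ← e, Finset.sum_apply]
          refine Finset.sum_congr rfl fun p hp => ?_
          rw [Pi.smul_apply, Pi.mul_apply, zsmul_eq_mul, hF2 _ (h1 p (mem_range.1 hp)).1 i hi,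
            hF2 _ (h1 p (mem_range.1 hp)).2 i hi]
        rw [e1]
        refine Rep.eq (Rep.add
          (Rep.sum fun p _ => Rep.mul (Rep.r16 (q4_pc T _ _)) (Rep.mul (q4_tb T _ _) (q4_tb T _ _)))
          (Rep.sum fun p _ => Rep.mul (Rep.r16 (q4_pc T _ _)) (q4_ch T _ _))) (q4_ch T _ _)
          ?_ (by norm_num) (h3 i hi)
        have k1 : T.np j ≤ 256 := (f8_lt _ _).le
        have k2 : T.nl j ≤ 256 := (f8_lt _ _).le
        refine (add_le_add (Nat.mul_le_mul_right _ k1) (Nat.mul_le_mul_right _ k2)).trans ?_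
        norm_num
      · simp)
  by_cases hs : (T.ov j : ℂ) ∈ s
  · rw [if_pos hs] at key
    refine ⟨g (T.ov j), (hg _).1, fun i hi => ?_⟩
    have := congrFun key i
    simpa only [q4v, if_pos hi] using this.symm
  · rw [if_neg hs] at key
    refine ⟨0, zero_mem _, fun i hi => ?_⟩
    have := congrFun key i
    simpa only [q4v, if_pos hi, Pi.zero_apply] using this.symm

end Rt.Cl

theorem exists_tb {T : TD} {X : Cox} (h : T.OK) (fit : T.Fits X) : Nonempty (Tb T X) := by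
  obtain ⟨ρ⟩ := exists_rt h.hR fit
  have c := ρ.cl_of h.hM h.hC
  choose! χ hv hval using fun j (hj : j < T.h) => c.exists_vc h.hT h.hE h.hL hj
  have hT := h.hT
  simp only [TD.cT, an_eq, allN_eq, ltN_eq] at hT
  obtain ⟨-, -, hN, hP, hsg, hsg'⟩ := hT
  simp only [TD.cN, an_eq, allN_eq, ltN_eq, Nat.beq_eq] at hN
  simp only [TD.cP, orr_eq, Nat.beq_eq] at hP
  have h1 : ∀ j < T.h, χ j 1 = vC (T.ch j 0) := fun j hj => by
    rw [← c.w_zero, hval j hj 0 ρ.h_pos]
  have hpos : ∀ j < T.h, 0 < vR (T.ch j 0) := fun j hj => vR_pos (hN j hj).1.1 (hN j hj).1.2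
  have hS : (T.S : ℂ) ≠ 0 := Nat.cast_ne_zero.2 c.S_pos.ne'
  have irr : ∀ j < T.h, IsIrr (χ j) := fun j hj => by
    refine (hv j hj).isIrr (mul_left_cancel₀ hS ?_) ?_
    · rw [c.ip_eq (hv j hj).isCl (hv j hj).isCl, mul_one,
        Finset.sum_congr rfl fun i hi => by rw [hval j hj i (mem_range.1 hi)]]
      have eS : (T.S : ℂ) = ∑ i ∈ range T.h, (T.s i : ℂ) := by
        rw [TD.S, sumN_eq, Nat.cast_sum]
      rw [eS]
      refine Rep.eq (Rep.sum fun i _ => Rep.mul (Rep.nat (B := 2 ^ 32) (f32_lt _ _).le)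
        (Rep.mul (q4_ch T _ _) (q4_ch T _ _)))
        (Rep.sum fun i _ => Rep.nat (B := 2 ^ 32) (f32_lt _ _).le)
        (q4_le ρ.h_le (by norm_num)) (q4_le ρ.h_le (by norm_num)) (hN j hj).2.1
    · rw [h1 j hj, vC, Complex.ofReal_re]
      exact hpos j hj
  have hsc : IsCl X.sgn := (isIrr_linear X.sgnHom).isCh.isCl
  refine ⟨{ ρ with
    cl := c, χ := χ, irr := irr, val := hval, all := fun f hf => ?_, om_eq := fun j hj => ?_,
    sg_eq := ⟨hsg, ?_⟩, tw_eq := fun j hj => ⟨(hN j hj).2.2.1, ?_⟩ }⟩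
  · by_contra hne
    have hip : ip (∑ j ∈ range T.h, vC (T.ch j 0) • χ j) f = 0 := by
      rw [ip_sum]
      refine Finset.sum_eq_zero fun j hj => ?_
      rw [ip_smul, (irr j (mem_range.1 hj)).ip_eq hf,
        if_neg fun e => hne ⟨j, mem_range.1 hj, e.symm⟩, mul_zero]
    rw [ip, Finset.sum_eq_single 1] at hip
    · have k1 : (∑ j ∈ range T.h, vC (T.ch j 0) • χ j) 1 =
          ((∑ j ∈ range T.h, vR (T.ch j 0) * vR (T.ch j 0) : ℝ) : ℂ) := by
        rw [Finset.sum_apply, Complex.ofReal_sum]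
        refine Finset.sum_congr rfl fun j hj => ?_
        rw [Pi.smul_apply, h1 j (mem_range.1 hj), smul_eq_mul, vC, Complex.ofReal_mul]
      have k2 : 0 < ∑ j ∈ range T.h, vR (T.ch j 0) * vR (T.ch j 0) :=
        Finset.sum_pos (fun j hj => mul_pos (hpos j (mem_range.1 hj)) (hpos j (mem_range.1 hj)))
          ⟨0, mem_range.2 ρ.h_pos⟩
      rw [k1, inv_one] at hip
      exact mul_ne_zero (inv_ne_zero (Nat.cast_ne_zero.2 Nat.card_pos.ne'))
        (mul_ne_zero (Complex.ofReal_ne_zero.2 k2.ne') hf.one_ne) hip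
    · intro x _ hx
      obtain ⟨i, hi, e⟩ := c.cover x
      have hi0 : i ≠ 0 := by
        rintro rfl
        rw [c.w_zero] at e
        exact hx (isConj_one_right.1 e)
      have k : (∑ j ∈ range T.h, vC (T.ch j 0) • χ j) x =
          ∑ j ∈ range T.h, vC (T.ch j 0) * vC (T.ch j i) := by
        rw [Finset.sum_apply]
        refine Finset.sum_congr rfl fun j hj => ?_
        rw [Pi.smul_apply, smul_eq_mul, ← (hv j (mem_range.1 hj)).isCl.of_isConj e,
          hval j (mem_range.1 hj) i hi]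
      rw [k, Rep.eq (Rep.sum fun j _ => Rep.mul (q4_ch T j 0) (q4_ch T j i)) (Rep.zero 0)
        (q4_le ρ.h_le (by norm_num)) (by norm_num) ((hP i hi).resolve_left hi0), zero_mul]
    · exact fun hx => absurd (Finset.mem_univ _) hx
  · have e := (c.mul 0 ρ.h_pos (χ j) (hv j hj).isCl).trans ((Finset.sum_congr rfl fun g hg => by
      rw [hval j hj _ (c.gj_lt 0 ρ.h_pos g (mem_range.1 hg))]).trans
      (c.eigen (h.hE j (Nat.zero_le _) hj) ρ.h_pos))
    rw [c.w_zero, ← h1 j hj] at e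
    simp only [one_mul] at e
    rw [Cox.om, e, mul_div_cancel_right₀ _ (irr j hj).one_ne]
  · refine c.ext (hv _ hsg).isCl hsc fun i hi => ?_
    rw [hval _ hsg i hi]
    exact (Rep.eq (c.rep_sr hi) (q4_ch T _ _) (by norm_num) (by norm_num) (hsg' i hi)).symm
  · have e : (fun w => X.sgn w * χ j w⁻¹) = fun w => X.sgn w * χ j w :=
      funext fun w => by rw [c.inv _ (hv j hj).isCl]
    rw [e]
    refine c.ext (hv _ (hN j hj).2.2.1).isCl (hsc.mul (hv j hj).isCl) fun i hi => ?_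
    rw [hval _ (hN j hj).2.2.1 i hi, hval j hj i hi]
    exact (Rep.eq (Rep.mul (c.rep_sr hi) (q4_ch T _ _)) (q4_ch T _ _) (by norm_num) (by norm_num)
      ((hN j hj).2.2.2 i hi)).symm

end

end Pool.Agent.P.MP_1a0ecf_al
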