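import Pool.Agent.P.MP_1a0ecf_al.Q4

/-! Package Q5: pure sets from the data. -/

namespace Pool.Agent.P.MP_1a0ecf_al

open Matrix Finset
open scoped Classical

noncomputable section

theorem PureAll.cast {T : TD} {S : ℕ} (h : PureAll T S) (S' : ℕ) (e : Nat.beq S S' = true) :
    PureAll T S' := by
  rw [← Nat.eq_of_beq_eq_true e]
  exact h

theorem pure_base (T : TD) : PureAll T (Nat.pow 2 T.sg) := by
  intro X τ D
  have e : τ.cs (Nat.pow 2 T.sg) = {X.sgn} := by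
    ext f
    constructor
    · rintro ⟨j, -, h2, rfl⟩
      rw [(bit_pow _ _).1 h2, τ.sg_eq.2]
      rfl
    · rintro rfl
      exact ⟨T.sg, τ.sg_eq.1, (bit_pow _ _).2 rfl, τ.sg_eq.2.symm⟩
  rw [e]
  exact D.pure_sgn

theorem PureAll.twist {T : TD} {S : ℕ} (h : PureAll T S) (S' : ℕ) (e : T.cTw S S' = true) :
    PureAll T S' := by
  intro X τ D
  simp only [TD.cTw, allN_eq, an_eq, imp_eq, Nat.beq_eq] at e
  have e2 : τ.cs S' = (fun χ w => X.sgn w * χ w⁻¹) '' τ.cs S := by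
    ext f
    constructor
    · rintro ⟨j, h1, h2, rfl⟩
      obtain ⟨a, b⟩ := (e j h1).2 h2
      refine ⟨τ.χ (T.t2 j), ⟨_, (τ.tw_eq j h1).1, a, rfl⟩, ?_⟩
      have := (τ.tw_eq _ (τ.tw_eq j h1).1).2
      rw [b] at this
      exact this.symm
    · rintro ⟨_, ⟨j, h1, h2, rfl⟩, rfl⟩
      exact ⟨T.t2 j, (τ.tw_eq j h1).1, (e j h1).1 h2, (τ.tw_eq j h1).2.symm⟩
  rw [e2]
  exact (h X τ D).twist

theorem PureAll.merge {T : TD} {S S' : ℕ} (h : PureAll T S) (h' : PureAll T S') (j : ℕ)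
    (e : an (ltN j T.h) (an (bit S j) (bit S' j)) = true) : PureAll T (Nat.lor S S') := by
  intro X τ D
  simp only [an_eq, ltN_eq] at e
  have e2 : τ.cs (Nat.lor S S') = τ.cs S ∪ τ.cs S' := by
    ext f
    constructor
    · rintro ⟨k, h1, h2, rfl⟩
      rw [bit_lor, Bool.or_eq_true] at h2
      exact h2.imp (fun a => ⟨k, h1, a, rfl⟩) fun a => ⟨k, h1, a, rfl⟩
    · rintro (⟨k, h1, h2, rfl⟩ | ⟨k, h1, h2, rfl⟩)
      · exact ⟨k, h1, by rw [bit_lor, h2, Bool.true_or], rfl⟩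
      · exact ⟨k, h1, by rw [bit_lor, h2, Bool.or_true], rfl⟩
  rw [e2]
  exact (h X τ D).merge (h' X τ D) ⟨τ.χ j, ⟨j, e.1, e.2.1, rfl⟩, ⟨j, e.1, e.2.2, rfl⟩⟩

theorem emb_of {T' T : TD} (h : T'.OK) (E : ED) (e : E.ck T' T = true) : EmbAll T' T E := by
  intro X τ
  simp only [ED.ck, allN_eq, an_eq, orr_eq, nt_eq, ltN_eq, Nat.beq_eq] at e
  obtain ⟨e1, e2, e3⟩ := e
  let ee : Fin T'.n → Fin X.n := fun i => ⟨f8 E.e i, by rw [τ.fit.1]; exact (e1 i i.2).1⟩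
  have inj : Function.Injective ee := fun i j hij => by
    rcases ((e1 i i.2).2.2 j j.2).2 with a | a
    · exact Fin.ext a
    · exact absurd (congrArg Fin.val hij) a
  let M' : CoxeterMatrix (Fin T'.n) :=
    ⟨Matrix.of fun i j => X.M (ee i) (ee j), Matrix.IsSymm.ext fun i j => X.M.symmetric _ _,
      fun i => X.M.diagonal _, fun i j hij => X.M.off_diagonal _ _ (inj.ne hij)⟩
  obtain ⟨W', g, fin, cs', hM, P, hP⟩ := exists_par X M' ee inj fun _ _ => rfl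
  let Y : Cox := @Cox.mk (@Cox0.mk T'.n M' W' g cs' hM) fin
  have fit : T'.Fits Y := ⟨rfl, fun i j =>
    (τ.fit.2 (ee i) (ee j)).trans ((e1 i i.2).2.2 j j.2).1.symm⟩
  obtain ⟨τ'⟩ := exists_tb h fit
  have hs : ∀ t < T'.n, P.ι (τ'.r t) = τ.r (f8 E.e t) := fun t ht => by
    have a := τ'.r_s (⟨t, ht⟩ : Fin T'.n)
    have b := τ.r_s (ee ⟨t, ht⟩)
    have c := P.ι_s (⟨t, ht⟩ : Fin T'.n)
    rw [hP] at c
    exact ((congrArg P.ι a).trans c).trans b.symm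
  have hr : ∀ t, t < T'.N → P.ι (τ'.r t) = τ.r (f8 E.rm t) := by
    intro t
    induction t using Nat.strong_induction_on with
    | _ t ih =>
      intro ht
      by_cases hn : t < T'.n
      · rw [(e1 t hn).2.1]
        exact hs t hn
      · obtain ⟨a, b, c⟩ := τ'.r_par t ht (not_lt.1 hn)
        have d := τ.toRt.conj_r (lt_of_lt_of_le (e1 _ a).1 τ.n_le) (e2 _ (b.trans ht)).1
          (e2 t ht).1 ((e2 t ht).2.resolve_left hn)
        rw [← d, ← hs _ a, ← ih _ b (b.trans ht), ← map_mul, ← map_mul]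
        exact congrArg P.ι c
  have ha : ∀ y, T'.wok y = true → τ.toRt.Acts (P.ι (el τ'.r y)) (E.appm T y) := by
    intro y hy
    simp only [TD.wok, allN_eq, ltN_eq] at hy
    have key : ∀ k, k ≤ ln y → τ.toRt.Acts (P.ι (elN τ'.r y k)) fun a =>
        Nat.rec (motive := fun _ => ℕ) a (fun k r => T.rf (f8 E.rm (lt y k)) r) k := by
      intro k
      induction k with
      | zero =>
        intro _
        have : P.ι (elN τ'.r y 0) = 1 := map_one _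
        rw [this]
        exact τ.toRt.acts_one
      | succ k ih =>
        intro hk
        have : P.ι (elN τ'.r y (k + 1)) = τ.r (f8 E.rm (lt y k)) * P.ι (elN τ'.r y k) := by
          rw [← hr _ (hy k hk)]
          exact map_mul _ _ _
        rw [this]
        exact (τ.toRt.acts_r (e2 _ (hy k hk)).1).mul (ih (Nat.le_of_succ_le hk))
    exact key _ le_rfl
  exact ⟨Y, τ', P, fun i hi => ⟨(e3 i hi).1, τ.toRt.isConj_of_cj (ha _ (τ'.cl.wok i hi))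
    (τ.cl.actG _ (e3 i hi).1) (e3 i hi).2⟩⟩

theorem q5_nz {T' T : TD} {E : ED} {X Y : Cox} (τ : Tb T X) (τ' : Tb T' Y)
    (P : Par Y.toCox0 X.toCox0)
    (hf : ∀ i < T'.h, E.fj i < T.h ∧ IsConj (τ.w (E.fj i)) (P.ι (τ'.w i))) (S' : ℕ) {j : ℕ}
    (hj : j < T.h) :
    (∃ χ' ∈ τ'.cs S', ip χ' (τ.χ j ∘ P.ι) ≠ 0) ↔ E.nz T' T S' j = true := by
  have hg : IsCh (τ.χ j ∘ P.ι) := (τ.irr j hj).isCh.comp P.ι
  have hF : ∀ k ∈ (range T'.h).filter fun k => bit S' k = true, IsCh (τ'.χ k) := fun k hk =>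
    (τ'.irr k (mem_range.1 (mem_filter.1 hk).1)).isCh
  have e1 : (∃ χ' ∈ τ'.cs S', ip χ' (τ.χ j ∘ P.ι) ≠ 0) ↔
      ip (∑ k ∈ (range T'.h).filter fun k => bit S' k = true, τ'.χ k) (τ.χ j ∘ P.ι) ≠ 0 := by
    rw [ip_sum_ne_zero _ hF hg]
    constructor
    · rintro ⟨_, ⟨k, h1, h2, rfl⟩, h3⟩
      exact ⟨k, mem_filter.2 ⟨mem_range.2 h1, h2⟩, h3⟩
    · rintro ⟨k, h1, h3⟩
      exact ⟨_, ⟨k, mem_range.1 (mem_filter.1 h1).1, (mem_filter.1 h1).2, rfl⟩, h3⟩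
  have e2 := τ'.cl.ip_eq (IsCh.sum _ hF).isCl hg.isCl
  have hh := τ'.h_le
  have r : Rep (sumN (fun i => Nat.mul (ED.aa T' S' i) (rv (T.ch j (E.fj i)))) T'.h)
      (∑ i ∈ range T'.h, (T'.s i : ℂ) *
        (∑ k ∈ range T'.h, if bit S' k = true then vC (T'.ch k i) else 0) * vC (T.ch j (E.fj i)))
      (T'.h * (2 * (2 * 2 ^ 32 * (T'.h * 2 ^ 16)) * 2 ^ 16)) :=
    Rep.sum fun i _ => Rep.mul (Rep.mod (Rep.mul (Rep.nat (f32_lt _ _).le)
      (Rep.sum fun k _ => Rep.ite (Rep.rv (f32_lt _ _)) (Rep.zero _)))) (Rep.rv (f32_lt _ _))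
  have e3 : (∑ i ∈ range T'.h, (T'.s i : ℂ) *
        (∑ k ∈ range T'.h, if bit S' k = true then vC (T'.ch k i) else 0) * vC (T.ch j (E.fj i))) =
      (T'.S : ℂ) * ip (∑ k ∈ (range T'.h).filter fun k => bit S' k = true, τ'.χ k)
        (τ.χ j ∘ P.ι) := by
    rw [e2]
    refine sum_congr rfl fun i hi => ?_
    have hi' := mem_range.1 hi
    rw [mul_assoc, Function.comp_apply, ← (τ.irr j hj).isCh.isCl.of_isConj (hf i hi').2,
      τ.val j hj _ (hf i hi').1, Finset.sum_apply, sum_filter]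
    congr 2
    refine sum_congr rfl fun k hk => ?_
    rw [τ'.val k (mem_range.1 hk) i hi']
  rw [e3] at r
  have hS : (T'.S : ℂ) ≠ 0 := Nat.cast_ne_zero.2 τ'.cl.S_pos.ne'
  rw [e1, ED.nz, nt_eq]
  constructor
  · intro h0 h1
    have hB : T'.h * (2 * (2 * 2 ^ 32 * (T'.h * 2 ^ 16)) * 2 ^ 16) ≤ 2 ^ 189 :=
      le_trans (Nat.mul_le_mul hh (Nat.mul_le_mul_right _ (Nat.mul_le_mul_left _
        (Nat.mul_le_mul_left _ (Nat.mul_le_mul_right _ hh))))) (by norm_num)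
    exact mul_ne_zero hS h0 (r.eq (Rep.zero 0) hB (Nat.zero_le _) h1)
  · intro h0
    exact right_ne_zero_of_mul (r.rp.ne_zero h0)

theorem PureAll.ind {T' T : TD} {E : ED} (hE : EmbAll T' T E) {S' : ℕ} (h : PureAll T' S')
    (S mN j0 : ℕ) (e : E.cJ T' T S' S mN j0 = true) : PureAll T S := by
  intro X τ D
  obtain ⟨Y, τ', P, hf⟩ := hE X τ
  obtain ⟨D', ⟨Em⟩⟩ := exists_emb P D
  simp only [ED.cJ, an_eq, allN_eq, ltN_eq] at e
  obtain ⟨⟨e1, e2⟩, e3⟩ := e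
  have k1 : ∀ j < T.h, bit S j = true → E.nz T' T S' j = true := by
    intro j hj hb
    have a := e3 j hj
    cases hz : E.nz T' T S' j with
    | true => rfl
    | false =>
      rw [hz] at a
      exact absurd hb ((nt_eq _).1 a)
  have k2 : ∀ j < T.h, E.nz T' T S' j = true →
      mN ≤ T.o j ∧ (bit S j = true ↔ T.o j = mN) := by
    intro j hj hz
    have a := e3 j hj
    rw [hz] at a
    obtain ⟨a1, a2⟩ := (an_eq _ _).1 a
    refine ⟨Nat.le_of_ble_eq_true a1, ?_⟩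
    cases hb : Nat.beq (T.o j) mN with
    | true =>
      rw [hb] at a2
      exact ⟨fun _ => Nat.eq_of_beq_eq_true hb, fun _ => a2⟩
    | false =>
      rw [hb] at a2
      exact ⟨fun c => absurd c ((nt_eq _).1 a2), fun c => absurd c (Nat.ne_of_beq_eq_false hb)⟩
  refine Em.pure (h Y τ' D') (m := (mN : ℤ) - 128) (fun χ => ⟨?_, ?_⟩) ⟨_, j0, e1, e2, rfl⟩ ?_
  · rintro ⟨j, hj, hb, rfl⟩
    refine ⟨τ.irr j hj, (q5_nz τ τ' P hf S' hj).2 (k1 j hj hb), ?_⟩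
    rw [τ.om_eq j hj, TD.ov, (k2 j hj (k1 j hj hb)).2.1 hb]
  · rintro ⟨a, b, c⟩
    obtain ⟨j, hj, rfl⟩ := τ.all χ a
    refine ⟨j, hj, (k2 j hj ((q5_nz τ τ' P hf S' hj).1 b)).2.2 ?_, rfl⟩
    rw [τ.om_eq j hj, TD.ov] at c
    have d := Int.cast_injective (α := ℂ) c
    omega
  · intro χ a b
    obtain ⟨j, hj, rfl⟩ := τ.all χ a
    have c := (k2 j hj ((q5_nz τ τ' P hf S' hj).1 b)).1
    rw [τ.om_eq j hj, TD.ov, Complex.intCast_re, Int.cast_le]
    omega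

end

end Pool.Agent.P.MP_1a0ecf_al
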