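import Pool.Agent.P.MP_1a0ecf_al.Q3

/-! Package Q6: top coefficients from the data. -/

namespace Pool.Agent.P.MP_1a0ecf_al

open Matrix Finset
open scoped Classical

noncomputable section

namespace Q6

theorem rp_zero : Rp 0 0 := (Rep.zero 0).rp

theorem rp_r8 {u : ℕ} (h : u < 256) : Rp (r8 u) ((u : ℂ) - 128) := (Rep.r8 h).rp

theorem map_rec (r : ℕ → ℕ) (l : List ℕ) :
    List.rec (motive := fun _ => List ℕ) [] (fun d _ s => r d :: s) l = l.map r := by
  induction l with
  | nil => rfl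
  | cons c l ih => exact congrArg (r c :: ·) ih

theorem psN_cons (b r : ℕ → ℕ) (c : ℕ) (l : List ℕ) (k : List ℕ → ℕ) :
    psN b r (c :: l) k = Nat.add (cnd (Nat.beq (b c) 128) 0 (Nat.mul (r8 (b c)) (k (l.map r))))
      (psN b r l fun l' => k (c :: l')) := by
  rw [← map_rec]
  rfl

theorem rp_psN {b r : ℕ → ℕ} (hb : ∀ c, b c < 256) (l : List ℕ) :
    ∀ (k : List ℕ → ℕ) (κ : List ℕ → ℂ), (∀ l', l'.length + 1 = l.length → Rp (k l') (κ l')) →
      Rp (psN b r l k)
        ((pick (fun c => (b c : ℂ) - 128) r l).map fun p => p.1 * κ p.2).sum := by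
  induction l with
  | nil => exact fun _ _ _ => rp_zero
  | cons c l ih =>
    intro k κ h
    rw [psN_cons, pick, List.map_cons, List.sum_cons, List.map_map]
    refine Rp.add ?_ (ih (fun l' => k (c :: l')) (fun l' => κ (c :: l')) fun l' hl => h _ ?_)
    · rw [cnd_eq]
      split_ifs with e
      · rw [Nat.beq_eq] at e
        simp only [e]
        norm_num
        exact rp_zero
      · exact (rp_r8 (hb c)).mul (h _ (by simp))
    · simp [hl]

theorem wgt_lt {α τ R : Type} [CommRing R] (b : τ → α → R) (r : τ → α → α) (a : α) (m : ℕ) :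
    ∀ (l : List α) (ts : List τ), m < ts.length → wgt b r a m l ts = 0 := by
  induction m with
  | zero =>
    intro l ts h
    cases ts with
    | nil => simp at h
    | cons t ts => simp [wgt]
  | succ m ih =>
    intro l ts h
    cases ts with
    | nil => simp at h
    | cons t ts =>
      rw [List.length_cons] at h
      rw [wgt, ih _ _ (by rw [List.length_cons]; omega), List.sum_eq_zero, mul_zero, add_zero]
      intro x hx
      obtain ⟨p, _, rfl⟩ := List.mem_map.1 hx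
      rw [ih _ _ (by omega), mul_zero]

theorem wN_succ (b r : ℕ → ℕ → ℕ) (a m nx : ℕ) (l ts : List ℕ) :
    wN b r a (m + 1) nx l ts = Nat.add
      (Nat.rec (motive := fun _ => Nat) 0 (fun nx' _ => wN b r a m nx' (a :: l) ts) nx)
      (List.rec (motive := fun _ => Nat) 0 (fun t ts' _ =>
        Nat.mul (r8 (b t a)) (psN (b t) (r t) l fun l' => wN b r a m nx l' ts')) ts) := rfl

end Q6

open Q6

theorem rp_wN {b r : ℕ → ℕ → ℕ} (hb : ∀ t c, b t c < 256) (a : ℕ) {m nx : ℕ} {l ts : List ℕ}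
    (h1 : m = nx + ts.length) (h2 : l.length + nx = ts.length) :
    Rp (wN b r a m nx l ts) (wgt (fun t c => (b t c : ℂ) - 128) r a m l ts) := by
  induction m generalizing nx l ts with
  | zero =>
    have e1 : ts = [] := List.length_eq_zero_iff.1 (by omega)
    have e2 : l = [] := List.length_eq_zero_iff.1 (by omega)
    subst e1 e2
    exact Rep.one.rp
  | succ m ih =>
    have hA : Rp (Nat.rec (motive := fun _ => Nat) 0 (fun nx' _ => wN b r a m nx' (a :: l) ts) nx)
        (wgt (fun t c => (b t c : ℂ) - 128) r a m (a :: l) ts) := by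
      cases nx with
      | zero =>
        rw [wgt_lt _ _ _ _ _ _ (by omega)]
        exact rp_zero
      | succ nx => exact ih (by omega) (by rw [List.length_cons]; omega)
    rw [wN_succ]
    cases ts with
    | nil =>
      have := hA.add rp_zero
      rw [add_zero] at this
      exact this
    | cons t ts =>
      rw [List.length_cons] at h1 h2
      exact hA.add ((rp_r8 (hb t a)).mul (rp_psN (hb t) l _ _ fun l' hl =>
        ih (by omega) (by omega)))

namespace Q6

variable {T : TD} {X : Cox} (ρ : Rt T X) (O : OD)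

theorem sum_seqs_succ (k : ℕ) (C : List X.W → ℂ) :
    ∑ us ∈ X.seqs (k + 1), C us = ∑ u ∈ X.refls, ∑ us ∈ X.seqs k, C (u :: us) := by
  rw [Cox.seqs, sum_image, sum_product]
  rintro ⟨a, l⟩ _ ⟨a', l'⟩ _ e
  simp only [List.cons.injEq] at e
  exact Prod.ext e.1 e.2

theorem rp_en (k : ℕ) : ∀ (c : List ℕ → ℕ) (C : List X.W → ℂ),
    (∀ ts : List ℕ, ts.length = k → (∀ t ∈ ts, t < T.N ∧ bit O.mj t = true) →
      Rp (c ts) (C (ts.map ρ.r))) →
    (∀ us ∈ X.seqs k, ∀ t < T.N, ¬ bit O.mj t = true → ρ.r t ∈ us → C us = 0) →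
    Rp (O.en T k c) (∑ us ∈ X.seqs k, C us) := by
  induction k with
  | zero =>
    intro c C h _
    rw [Cox.seqs, sum_singleton]
    exact h [] rfl (by simp)
  | succ k ih =>
    intro c C h h0
    have mem : ∀ t < T.N, ∀ us ∈ X.seqs k, ρ.r t :: us ∈ X.seqs (k + 1) := by
      intro t ht us hus
      rw [X.mem_seqs] at hus ⊢
      refine ⟨by rw [List.length_cons, hus.1], fun u hu => ?_⟩
      rcases List.mem_cons.1 hu with rfl | hu
      · exact ρ.r_refl t ht
      · exact hus.2 u hu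
    rw [sum_seqs_succ, ρ.sum_refls]
    refine Rp.sum (f := fun t => cnd (bit O.mj t) (O.en T k fun ts => c (t :: ts)) 0)
      fun t ht => ?_
    rw [cnd_eq]
    split_ifs with e
    · refine ih _ (fun us => C (ρ.r t :: us)) (fun ts hl hts => ?_) fun us hus t' ht' e' hm => ?_
      · refine h (t :: ts) (by rw [List.length_cons, hl]) fun t' ht' => ?_
        rcases List.mem_cons.1 ht' with rfl | ht'
        · exact ⟨ht, e⟩
        · exact hts t' ht'
      · exact h0 _ (mem t ht us hus) t' ht' e' (List.mem_cons_of_mem _ hm)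
    · rw [sum_eq_zero fun us hus => h0 _ (mem t ht us hus) t ht e List.mem_cons_self]
      exact rp_zero

theorem acts_appL (ts : List ℕ) (h : ∀ t ∈ ts, t < T.N) :
    ρ.Acts (ts.map ρ.r).reverse.prod (OD.appL T ts) := by
  induction ts with
  | nil => exact ρ.acts_one
  | cons t ts ih =>
    rw [List.map_cons, List.reverse_cons, List.prod_append, List.prod_singleton]
    exact (ih fun u hu => h u (List.mem_cons_of_mem _ hu)).mul
      (ρ.acts_r (h t List.mem_cons_self))

theorem nzL_false (a : ℕ) (ts : List ℕ) (h : ¬ O.nzL T a ts = true) :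
    ∃ t ∈ ts, O.ip T t a = 128 := by
  induction ts with
  | nil => exact absurd rfl h
  | cons t ts ih =>
    have e : O.nzL T a (t :: ts) = an (nt (Nat.beq (O.ip T t a) 128)) (O.nzL T a ts) := rfl
    rw [e, an_eq, nt_eq, Nat.beq_eq, not_and_or, not_not] at h
    rcases h with h | h
    · exact ⟨t, List.mem_cons_self, h⟩
    · obtain ⟨u, hu, e⟩ := ih h
      exact ⟨u, List.mem_cons_of_mem _ hu, e⟩

theorem B_eq {t c : ℕ} (ht : t < T.N) (hc : c < T.P)
    (h : ∀ i < T.n, eqM (Nat.add (rv (T.cd (T.rf t c) i))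
      (Nat.mul (r8 (O.ip T t c)) (rv (T.cd t i)))) (rv (T.cd c i)) = true) :
    X.BK ℂ (X.rc (ρ.r t)) (X.vK ℂ (T.pt X c)) = (O.ip T t c : ℂ) - 128 := by
  have hr := ρ.r_refl t ht
  have hne : X.rt (ρ.r t) ≠ 0 := Cox.G3.ne_zero_of_B X (X.B_rt_rt hr)
  obtain ⟨i, hi⟩ := Function.ne_iff.1 hne
  have hn : (i : ℕ) < T.n := ρ.fit.1 ▸ i.2
  have e1 := Rep.eq ((Rep.rv (f32_lt _ _)).add ((Rep.r8 (f8_lt _ _)).mul (Rep.rv (f32_lt _ _))))
    (Rep.rv (f32_lt _ _)) (by norm_num) (by norm_num) (h i hn)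
  have e2 := congrFun ((ρ.act t ht c hc).symm.trans (X.σ_refl hr _)) i
  rw [X.BK_vK ℂ]
  rw [ρ.rt_r t ht] at hi e2 ⊢
  simp only [Pi.sub_apply, Pi.smul_apply, smul_eq_mul, Pi.zero_apply] at hi e2
  have hi' : ((T.pt X t i : ℝ) : ℂ) ≠ 0 := Complex.ofReal_ne_zero.2 hi
  have e3 : ((T.pt X (T.rf t c) i : ℝ) : ℂ) + ((O.ip T t c : ℂ) - 128) * ((T.pt X t i : ℝ) : ℂ) =
      ((T.pt X c i : ℝ) : ℂ) := e1
  rw [e2] at e3
  push_cast at e3
  refine mul_right_cancel₀ hi' ?_
  rw [Complex.coe_algebraMap]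
  linear_combination -e3

theorem exists_word {x K : ℕ} (h : ∀ k < K, lt x k < T.n ∧ ∀ k' < k, ¬ lt x k' = lt x k) :
    ∀ k ≤ K, ∃ J : List (Fin X.n), J.length = k ∧ J.Nodup ∧
      (∀ i ∈ J, ∃ k' < k, lt x k' = i) ∧ X.cs.wordProd J = elN ρ.r x k := by
  intro k
  induction k with
  | zero => exact fun _ => ⟨[], rfl, List.nodup_nil, by simp, X.cs.wordProd_nil⟩
  | succ k ih =>
    intro hk
    obtain ⟨J, h1, h2, h3, h4⟩ := ih (by omega)
    obtain ⟨h5, h6⟩ := h k hk
    have h7 : lt x k < X.n := ρ.fit.1 ▸ h5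
    refine ⟨⟨lt x k, h7⟩ :: J, by rw [List.length_cons, h1], List.nodup_cons.2 ⟨fun hm => ?_, h2⟩,
      fun i hi => ?_, ?_⟩
    · obtain ⟨k', hk', e⟩ := h3 _ hm
      exact h6 k' hk' e
    · rcases List.mem_cons.1 hi with rfl | hi
      · exact ⟨k, by omega, rfl⟩
      · obtain ⟨k', hk', e⟩ := h3 _ hi
        exact ⟨k', by omega, e⟩
    · rw [X.cs.wordProd_cons, h4, elN]
      exact congrArg (· * _) (ρ.r_s ⟨lt x k, h7⟩).symm

end Q6

theorem top_of {T : TD} (O : OD) {K : ℕ} (h : O.ck T K = true) : TopAll T K (tg O.y) O.v := by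
  simp only [OD.ck, an_eq, allN_eq, orr_eq, imp_eq, nt_eq, anyN_eq, ltN_eq, Nat.beq_eq] at h
  obtain ⟨h1, h2, h3, h4, h5, h6, h7⟩ := h
  refine ⟨h3, fun X τ hcl => ?_⟩
  have hn := τ.n_le
  have hN := τ.N_le
  have hw : T.wok O.x = true := by
    simp only [TD.wok, allN_eq, ltN_eq]
    intro k hk
    have := (h2 k (by omega)).1
    omega
  have hx := τ.toRt.acts_el hw
  rw [hcl.of_isConj (τ.toRt.isConj_of_cj hx (τ.cl.actG _ h3) h4)]
  refine Rp.congr ?_ h7
  obtain ⟨J, j1, j2, j3, j4⟩ := exists_word τ.toRt h2 K le_rfl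
  have j5 : el τ.r O.x = X.cs.wordProd J := by rw [j4, el, h1]
  rw [X.zeta_coeff, sum_comm, sum_filter]
  refine rp_en τ.toRt O K _ _ (fun ts hl hts => ?_) fun us hus t ht hb hm => ?_
  · have ha := acts_appL τ.toRt ts fun t ht => (hts t ht).1
    rw [OD.lf, cnd_eq]
    simp only [allN_eq, Nat.beq_eq]
    rw [if_congr (ha.eq_iff hx) rfl rfl]
    split_ifs with e
    · rw [τ.toRt.sum_refls]
      refine Rp.sum fun a haN => ?_
      have e1 := wgt_map (b := fun t v => X.BK ℂ (X.rc t) v) (r := fun t v => X.σK ℂ t *ᵥ v)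
        (b' := fun t c => (O.ip T t c : ℂ) - 128) (r' := T.rf)
        (fun c => X.vK ℂ (T.pt X c)) τ.r (RingHom.id ℂ) (Ga := fun c => c < T.P)
        (Gt := fun t => t < T.N ∧ bit O.mj t = true)
        (fun t c ht hc => B_eq τ.toRt O ht.1 hc (h6 t ht.1 ht.2 c hc))
        (fun t c ht hc => ⟨τ.rf_lt t ht.1 c hc, by rw [X.σK_vK ℂ, τ.act t ht.1 c hc]⟩)
        (a := a) (by omega) (2 * K) (l := []) (by simp) hts
      rw [Cox.wg, Cox.rc, τ.rt_r a haN]
      rw [List.map_nil, RingHom.id_apply] at e1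
      rw [e1, cnd_eq]
      split_ifs with e2
      · exact rp_wN (fun t c => f8_lt _ _) a (by rw [hl]; exact two_mul K) (by simp [hl])
      · obtain ⟨t, ht, e3⟩ := nzL_false O a ts e2
        rw [wgt_eq_zero' _ _ _ _ _ ht (by rw [e3]; norm_num)]
        exact rp_zero
    · exact rp_zero
  · rw [if_neg]
    intro e
    obtain ⟨i, hi, h8, h9⟩ := (h5 t ht).resolve_left hb
    have hi' : i < X.n := τ.fit.1 ▸ hi
    have := X.top_supp j2 (j1 ▸ hus) (e.trans j5) _ hm ⟨i, hi'⟩ fun hJ => h8 (j3 _ hJ)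
    rw [τ.rt_r t ht] at this
    exact h9 (vR_inj (this.trans vR_zero.symm))

theorem TopAll.cast {T : TD} {K i v : ℕ} (h : TopAll T K i v) (i' v' : ℕ)
    (e : an (Nat.beq i i') (Nat.beq v v') = true) : TopAll T K i' v' := by
  rw [an_eq, Nat.beq_eq, Nat.beq_eq] at e
  rw [← e.1, ← e.2]
  exact h

end

end Pool.Agent.P.MP_1a0ecf_al
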