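import Pool.Agent.P.MP_1a0ecf_al.Q5
import Pool.Agent.P.MP_1a0ecf_al.Q6
import Pool.Agent.P.MP_1a0ecf_al.C9

/-! Package Q7: families from the data. -/

namespace Pool.Agent.P.MP_1a0ecf_al

open Matrix Finset
open scoped Classical

noncomputable section

namespace Q7

variable {T : TD} {F : FD}

theorem rec_iff {a b : Bool} (h : Bool.rec (motive := fun _ => Bool) (nt a) a b = true) :
    a = true ↔ b = true := by
  cases a <;> cases b <;> simp_all [nt]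

theorem cK_of (hF : F.ck T = true) {j : ℕ} (hj : j < T.h) : F.cK T j = true := by
  simp only [FD.ck, an_eq, allN_eq] at hF
  exact hF.2.1 j hj

theorem cD_of (hF : F.ck T = true) {q : ℕ} (hq : q < F.nf) : F.cD T q = true := by
  simp only [FD.ck, an_eq, allN_eq] at hF
  exact hF.2.2.2 q hq

theorem fa_lt (hF : F.ck T = true) {j : ℕ} (hj : j < T.h) : F.fa j < F.nf := by
  have h := cK_of hF hj
  simp only [FD.cK, an_eq, ltN_eq] at h
  exact h.1

theorem bit_ms (hF : F.ck T = true) {j q : ℕ} (hj : j < T.h) (hq : q < F.nf) :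
    bit (F.ms q) j = true ↔ F.fa j = q := by
  have h := cK_of hF hj
  simp only [FD.cK, an_eq, allN_eq] at h
  rw [rec_iff (h.2.1 q hq), Nat.beq_eq]

theorem re_lt (hF : F.ck T = true) {q : ℕ} (hq : q < F.nf) : F.re q < T.h := by
  have h := cD_of hF hq
  simp only [FD.cD, an_eq, ltN_eq] at h
  exact h.1

theorem rep_ch (j i : ℕ) : Rep (rv (T.ch j i)) (vC (T.ch j i)) (2 ^ 16) := Rep.rv (f32_lt _ _)

/-- the value of `dl` -/
def DL (T : TD) (j k i : ℕ) : ℂ :=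
  vC (T.ch j i) * vC (T.ch k 0) + -1 * vC (T.ch k i) * vC (T.ch j 0)

/-- the value of `cf` -/
def CF (F : FD) (c p : ℕ) : ℂ := (fld (F.sl c p) 128 0 : ℂ) - 2 ^ 127

theorem rep_dl (j k i : ℕ) : Rep (FD.dl T j k i) (DL T j k i) (2 ^ 35) :=
  (((rep_ch j i).mul (rep_ch k 0)).add ((Rep.neg_one.mul (rep_ch k i)).mul (rep_ch j 0))).mono
    (by norm_num)

theorem rep_cf (c p : ℕ) : Rep (F.cf c p) (CF F c p) (2 ^ 127) := Rep.r128 (fld_lt _ _ _)

theorem ident {c j k i : ℕ} (hno : F.no ≤ 255)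
    (h : eqM (Nat.mul (F.cf c 0) (FD.dl T j k i))
      (Nat.add (sumN (fun e => Nat.mul (F.cf c (Nat.add (Nat.add F.no e) 1))
          (FD.dl T (F.ej c e) (F.ek c e) i)) (F.ne c))
        (sumN (fun s => cnd (Nat.beq i (F.i0 s)) (F.cf c (Nat.add s 1)) 0) F.no)) = true) :
    CF F c 0 * DL T j k i =
      ∑ e ∈ range (F.ne c), CF F c (F.no + e + 1) * DL T (F.ej c e) (F.ek c e) i +
        ∑ s ∈ range F.no, if i = F.i0 s then CF F c (s + 1) else 0 := by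
  have hne : F.ne c < 256 := f8_lt _ _
  have h1 := Rep.eq ((rep_cf c 0).mul (rep_dl j k i))
    ((Rep.sum fun e _ => (rep_cf c (Nat.add (Nat.add F.no e) 1)).mul
      (rep_dl (F.ej c e) (F.ek c e) i)).add
      (Rep.sum fun s _ => Rep.ite (rep_cf c (Nat.add s 1)) (Rep.zero _))) (by norm_num)
    (by omega) h
  simpa only [Nat.beq_eq, Nat.add_eq] using h1

theorem zcl {X : Cox} {κ : ℂ} (A : CA X κ) (hκ : κ ≠ 0) (k : ℕ) :
    IsCl fun w => (X.zeta k).coeff w := by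
  obtain ⟨z, hz, e⟩ := A.exists_zeta k
  have h := Subalgebra.smul_mem _ (A.P_center hz) (κ ^ k)⁻¹
  rw [e, smul_smul, inv_mul_cancel₀ (pow_ne_zero k hκ), one_smul] at h
  exact mem_center_iff.mp h

end Q7

open Q7

namespace Tb

variable {T : TD} {X : Cox} (τ : Tb T X) {F : FD} (hF : F.ck T = true) {κ : ℂ} (A : CA X κ)
include hF

theorem rel_rep {j : ℕ} (hj : j < T.h) : A.rel (τ.χ j) (τ.χ (F.re (F.fa j))) := by
  induction hn : F.lr j using Nat.strong_induction_on generalizing j with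
  | _ n ih =>
  have h := cK_of hF hj
  simp only [FD.cK, an_eq, orr_eq, nt_eq, ltN_eq, Nat.beq_eq] at h
  rcases h.2.2 with e | ⟨h1, h2, h3, h4, h5, -, h6⟩
  · rw [e]
    exact A.rel_refl _
  have hc : IsCl fun w => (X.σK ℂ (w ^ F.le j)).trace := fun w u => by
    have := (isCh_matrix (X.σK ℂ)).isCl (w ^ F.le j) u
    simp only [conj_pow]
    exact this
  have h7 := (Rp.sum fun i hi => ((Rp.nat (T.s i)).mul (τ.cl.rep_tr hi (F.le j)).rp).mul
    ((rep_ch j i).rp.mul (rep_ch (F.lp j) i).rp)).ne_zero h6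
  have h8 := τ.cl.ip_eq (hc.mul (τ.irr j hj).isCh.isCl) (τ.irr _ h1).isCh.isCl
  have h9 : A.rel (τ.χ j) (τ.χ (F.lp j)) := by
    refine A.link (τ.irr j hj) (τ.irr _ h1) ?_ h5 fun e => h7 ?_
    · rw [τ.om_eq j hj, τ.om_eq _ h1, TD.ov, TD.ov, h4]
    · rw [e, mul_zero] at h8
      rw [h8]
      refine sum_congr rfl fun i hi => ?_
      rw [τ.val j hj i (mem_range.mp hi), τ.val _ h1 i (mem_range.mp hi)]
      ring
  have h10 := ih _ (hn ▸ h2) h1 rfl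
  rw [h3] at h10
  exact h9.trans h10 (τ.irr _ h1).one_ne

theorem rel_of_fa {j k : ℕ} (hj : j < T.h) (hk : k < T.h) (e : F.fa j = F.fa k) :
    A.rel (τ.χ j) (τ.χ k) := by
  have h := τ.rel_rep hF A hj
  rw [e] at h
  exact h.trans (τ.rel_rep hF A hk).symm (τ.irr _ (re_lt hF (fa_lt hF hk))).one_ne

theorem q7_conj (ts : List X.W) (h : ∀ t ∈ ts, X.cs.IsReflection t) (hl : ts.length ≤ F.K) :
    ∃ i < T.h, bit (F.su ts.length) i = true ∧ IsConj (τ.w i) ts.reverse.prod := by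
  simp only [FD.ck, FD.cU, an_eq, allN_eq, imp_eq, Nat.add_eq] at hF
  obtain ⟨h0, h1, -⟩ := hF.2.2.1
  induction ts with
  | nil => exact ⟨0, τ.h_pos, h0, by rw [τ.cl.w_zero]; exact IsConj.refl _⟩
  | cons t ts ih =>
    rw [List.length_cons] at hl ⊢
    obtain ⟨i, hi, b, c⟩ := ih (fun s hs => h s (List.mem_cons_of_mem _ hs)) (by omega)
    obtain ⟨u, hu⟩ := isConj_iff.mp c
    obtain ⟨g, hg, c'⟩ := τ.cl.step i hi _ ((h t List.mem_cons_self).conj u⁻¹)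
    refine ⟨_, τ.cl.gj_lt i hi g hg, h1 _ (by omega) i hi b g hg, c'.trans ?_⟩
    rw [List.reverse_cons, List.prod_append, List.prod_singleton, ← hu]
    exact isConj_iff.mpr ⟨u, by group⟩

theorem zeta_supp {i : ℕ} (hi : i < T.h) (h : (X.zeta F.K).coeff (τ.w i) ≠ 0) :
    bit (F.su F.K) i = true := by
  rw [X.zeta_coeff] at h
  obtain ⟨a, -, h⟩ := exists_ne_zero_of_sum_ne_zero h
  obtain ⟨ts, h, -⟩ := exists_ne_zero_of_sum_ne_zero h
  obtain ⟨h1, h2⟩ := mem_filter.mp h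
  obtain ⟨h3, h4⟩ := X.mem_seqs.mp h1
  obtain ⟨i', hi', b, c⟩ := τ.q7_conj hF ts h4 h3.le
  rw [h3] at b
  rw [h2] at c
  simp only [FD.ck, FD.cU, an_eq, allN_eq, imp_eq, orr_eq, anyN_eq, nt_eq, Nat.beq_eq] at hF
  refine (hF.2.2.1.2.2 i hi).resolve_right fun h5 => ?_
  obtain ⟨j, hj, h6⟩ := h5 i' hi' b
  have h7 := (τ.irr j hj).isCh.isCl.of_isConj c
  rw [τ.val j hj i hi, τ.val j hj i' hi'] at h7
  exact h6 (vR_inj (Complex.ofReal_injective h7)).symm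

omit hF in
theorem q7_sum (hκ : κ ≠ 0) (K : ℕ) {j k : ℕ} (hj : j < T.h) (hk : k < T.h)
    (h : A.rel (τ.χ j) (τ.χ k)) :
    ∑ i ∈ range T.h, (T.s i : ℂ) * (X.zeta K).coeff (τ.w i) * DL T j k i = 0 := by
  have h0 : ∀ l < T.h, τ.χ l 1 = vC (T.ch l 0) := fun l hl => by
    rw [← τ.val l hl 0 τ.h_pos, τ.cl.w_zero]
  have h1 : ∀ l < T.h, (T.S : ℂ) * chx (τ.χ l) (X.zeta K) = (Nat.card X.W : ℂ) *
      ∑ i ∈ range T.h, (T.s i : ℂ) * (X.zeta K).coeff (τ.w i) * vC (T.ch l i) := fun l hl => by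
    rw [t1_chx_apply, τ.cl.avg ((zcl A hκ K).mul (τ.irr l hl).isCh.isCl)]
    congr 1
    refine sum_congr rfl fun i hi => ?_
    rw [τ.val l hl i (mem_range.mp hi), mul_assoc]
  have h2 := h.zeta hκ K
  rw [h0 j hj, h0 k hk] at h2
  have h3 : (Nat.card X.W : ℂ) ≠ 0 := Nat.cast_ne_zero.mpr Nat.card_pos.ne'
  refine mul_left_cancel₀ h3 ?_
  have h4 : ∑ i ∈ range T.h, (T.s i : ℂ) * (X.zeta K).coeff (τ.w i) * DL T j k i =
      (∑ i ∈ range T.h, (T.s i : ℂ) * (X.zeta K).coeff (τ.w i) * vC (T.ch j i)) * vC (T.ch k 0) -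
      (∑ i ∈ range T.h, (T.s i : ℂ) * (X.zeta K).coeff (τ.w i) * vC (T.ch k i)) *
        vC (T.ch j 0) := by
    rw [sum_mul, sum_mul, ← sum_sub_distrib]
    refine sum_congr rfl fun i _ => ?_
    rw [DL]
    ring
  rw [h4]
  linear_combination (T.S : ℂ) * h2 - vC (T.ch k 0) * h1 j hj + vC (T.ch j 0) * h1 k hk

theorem q7_key (hκ : κ ≠ 0) (ho : ∀ s < F.no, TopAll T F.K (F.i0 s) (F.v0 s)) {q q' : ℕ}
    (hq : q < F.nf) (hl : q' < q) : ¬ A.rel (τ.χ (F.re q)) (τ.χ (F.re q')) := by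
  intro h
  have r1 := re_lt hF hq
  have r2 := re_lt hF (hl.trans hq)
  have hD := cD_of hF hq
  simp only [FD.cD, an_eq, allN_eq, orr_eq, nt_eq, Nat.beq_eq] at hD
  rcases hD.2.2 q' hl with h1 | h1
  · have h2 := h.om_eq hκ (τ.irr _ r1).one_ne (τ.irr _ r2).one_ne
    rw [τ.om_eq _ r1, τ.om_eq _ r2, Int.cast_inj, TD.ov, TD.ov] at h2
    omega
  generalize f8 F.ci (Nat.add (Nat.mul q F.nf) q') = c at h1
  simp only [FD.cQ, an_eq, allN_eq, imp_eq, nt_eq, ltN_eq, Nat.beq_eq] at h1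
  obtain ⟨h2, h3, -, h4⟩ := h1
  have hno : F.no ≤ 255 := by
    simp only [FD.ck, an_eq, Nat.ble_eq] at hF
    exact hF.1
  refine (Rp.sum fun s hs => (rep_cf c (Nat.add s 1)).rp.mul ((Rp.nat (T.s (F.i0 s))).mul
    ((ho s hs).2 X τ (zcl A hκ F.K)))).ne_zero h4 ?_
  have h5 : ∀ i ∈ range T.h,
      (T.s i : ℂ) * (X.zeta F.K).coeff (τ.w i) * (CF F c 0 * DL T (F.re q) (F.re q') i) =
      (T.s i : ℂ) * (X.zeta F.K).coeff (τ.w i) *
        (∑ e ∈ range (F.ne c), CF F c (F.no + e + 1) * DL T (F.ej c e) (F.ek c e) i +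
          ∑ s ∈ range F.no, if i = F.i0 s then CF F c (s + 1) else 0) := fun i hi => by
    by_cases z : (X.zeta F.K).coeff (τ.w i) = 0
    · rw [z, mul_zero, zero_mul, zero_mul]
    · rw [ident hno (h3 i (mem_range.mp hi) (τ.zeta_supp hF (mem_range.mp hi) z))]
  have h6 := sum_congr rfl h5
  have h7 : ∀ (a : ℂ) (j k : ℕ), j < T.h → k < T.h → A.rel (τ.χ j) (τ.χ k) →
      ∑ i ∈ range T.h, (T.s i : ℂ) * (X.zeta F.K).coeff (τ.w i) * (a * DL T j k i) = 0 := by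
    intro a j k hj hk hr
    rw [← mul_zero a, ← τ.q7_sum A hκ F.K hj hk hr, mul_sum]
    exact sum_congr rfl fun i _ => by ring
  simp only [mul_add, mul_sum, sum_add_distrib] at h6
  rw [h7 _ _ _ r1 r2 h, sum_comm, sum_eq_zero fun e he => h7 _ _ _ (h2 e (mem_range.mp he)).1
    (h2 e (mem_range.mp he)).2.1 (τ.rel_of_fa hF A (h2 e (mem_range.mp he)).1
      (h2 e (mem_range.mp he)).2.1 (h2 e (mem_range.mp he)).2.2), zero_add, sum_comm] at h6
  rw [h6]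
  refine sum_congr rfl fun s hs => ?_
  simp only [mul_ite, mul_zero, sum_ite_eq', mem_range, (ho s (mem_range.mp hs)).1, if_true,
    Nat.add_eq]
  ring

theorem fa_of_rel (hκ : κ ≠ 0) (ho : ∀ s < F.no, TopAll T F.K (F.i0 s) (F.v0 s)) {j k : ℕ}
    (hj : j < T.h) (hk : k < T.h) (h : A.rel (τ.χ j) (τ.χ k)) : F.fa j = F.fa k := by
  have h1 := ((τ.rel_rep hF A hj).symm.trans h (τ.irr j hj).one_ne).trans (τ.rel_rep hF A hk)
    (τ.irr k hk).one_ne
  rcases lt_trichotomy (F.fa j) (F.fa k) with h2 | h2 | h2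
  · exact absurd h1.symm (τ.q7_key hF A hκ ho (fa_lt hF hk) h2)
  · exact h2
  · exact absurd h1 (τ.q7_key hF A hκ ho (fa_lt hF hj) h2)

end Tb

theorem good_of {T : TD} (hT : T.OK) {F : FD} (hF : F.ck T = true)
    (hp : ∀ q < F.nf, PureAll T (F.ms q)) (ho : ∀ s < F.no, TopAll T F.K (F.i0 s) (F.v0 s))
    (X : Cox) (fit : T.Fits X) : X.Good := by
  intro D κ hκ A χ χ' h h'
  obtain ⟨τ⟩ := exists_tb hT fit
  obtain ⟨j, hj, rfl⟩ := τ.all χ h
  obtain ⟨k, hk, rfl⟩ := τ.all χ' h'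
  have hm : ∀ l < T.h, τ.χ l ∈ τ.cs (F.ms (F.fa l)) := fun l hl =>
    ⟨l, hl, (bit_ms hF hl (fa_lt hF hl)).mpr rfl, rfl⟩
  constructor
  · intro hr
    have e := τ.fa_of_rel hF A hκ ho hj hk hr
    exact (hp _ (fa_lt hF hk) X τ D).rel (e ▸ hm j hj) (hm k hk)
  · intro hr
    obtain ⟨f, ⟨a, ha, a1, a2⟩, b, hb, b1, b2⟩ := (hp _ (fa_lt hF hj) X τ D).inter
      (hp _ (fa_lt hF hk) X τ D) (hm j hj) (hm k hk) hr
    rw [bit_ms hF ha (fa_lt hF hj)] at a1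
    rw [bit_ms hF hb (fa_lt hF hk)] at b1
    have e := τ.fa_of_rel hF A hκ ho ha hb (by rw [← a2, ← b2]; exact A.rel_refl f)
    exact τ.rel_of_fa hF A hj hk (by rw [← a1, ← b1, e])

end

end Pool.Agent.P.MP_1a0ecf_al
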