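import Pool.Agent.P.MP_1a0ecf_al.Q0
import Pool.Agent.P.MP_1a0ecf_al.K9
import Pool.Agent.P.MP_1a0ecf_al.CZ
import Pool.Agent.P.MP_1a0ecf_al.CF
import Pool.Agent.P.MP_1a0ecf_al.G4

/-! Package Sem: the meaning of the data. -/

namespace Pool.Agent.P.MP_1a0ecf_al

open Matrix Finset
open scoped Classical

noncomputable section

/-- the element given by the first `k` letters of a record -/
def elN {W : Type} [Group W] (r : ℕ → W) (x : ℕ) : ℕ → W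
  | 0 => 1
  | k + 1 => r (lt x k) * elN r x k

/-- the element given by a record -/
def el {W : Type} [Group W] (r : ℕ → W) (x : ℕ) : W := elN r x (ln x)

namespace TD

variable (T : TD) (X : Cox)

/-- the data describe the Coxeter matrix of `X` -/
def Fits : Prop := X.n = T.n ∧ ∀ i j : Fin X.n, X.M i j = T.m i j

/-- the point with index `a` -/
def pt (a : ℕ) : Fin X.n → ℝ := fun i => vR (T.cd a i)

/-- the eigenvalue of the sum of the reflections -/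
def ov (j : ℕ) : ℤ := (T.o j : ℤ) - 128

end TD

/-- reflections and points -/
structure Rt (T : TD) (X : Cox) where
  r : ℕ → X.W
  fit : T.Fits X
  n_le : T.n ≤ T.N
  N_le : 2 * T.N ≤ T.P
  P_le : T.P ≤ 256
  n_le' : T.n ≤ 16
  h_le : T.h ≤ 128
  h_pos : 0 < T.h
  nb_ge : 2 ≤ T.nb
  nb_le : T.nb + T.h ≤ 256
  r_s : ∀ i : Fin X.n, r i = X.s i
  pt_s : ∀ i : Fin X.n, T.pt X i = X.al i
  r_refl : ∀ t < T.N, X.cs.IsReflection (r t)
  rt_r : ∀ t < T.N, X.rt (r t) = T.pt X t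
  r_surj : ∀ x, X.cs.IsReflection x → ∃ t < T.N, x = r t
  r_par : ∀ t < T.N, T.n ≤ t → T.pi t < T.n ∧ T.pk t < t ∧ r t = r (T.pi t) * r (T.pk t) * r (T.pi t)
  rf_lt : ∀ t < T.N, ∀ a < T.P, T.rf t a < T.P
  act : ∀ t < T.N, ∀ a < T.P, X.σ (r t) *ᵥ T.pt X a = T.pt X (T.rf t a)
  pt_inj : ∀ a < T.P, ∀ b < T.P, T.pt X a = T.pt X b → a = b

namespace Rt

variable {T : TD} {X : Cox} (ρ : Rt T X)

/-- class representatives -/
def w (i : ℕ) : X.W := el ρ.r (T.wr i)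

/-- `x` acts on the points as `f` -/
def Acts (_ : Rt T X) (x : X.W) (f : ℕ → ℕ) : Prop :=
  ∀ a < T.P, f a < T.P ∧ X.σ x *ᵥ T.pt X a = T.pt X (f a)

/-- conjugacy classes -/
structure Cl : Prop where
  wok : ∀ i < T.h, T.wok (T.wr i) = true
  actG : ∀ i < T.h, ρ.Acts (ρ.w i) (T.gp i)
  w_zero : ρ.w 0 = 1
  cover : ∀ x, ∃ i < T.h, IsConj (ρ.w i) x
  gj_lt : ∀ i < T.h, ∀ g < T.ng i, T.gj i g < T.h
  mul : ∀ i < T.h, ∀ f : X.W → ℂ, IsCl f → ∑ t ∈ X.refls, f (ρ.w i * t) =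
    ∑ g ∈ range (T.ng i), (T.gc i g : ℂ) * f (ρ.w (T.gj i g))
  step : ∀ i < T.h, ∀ t, X.cs.IsReflection t → ∃ g < T.ng i, IsConj (ρ.w (T.gj i g)) (ρ.w i * t)
  inv : ∀ f : X.W → ℂ, IsCl f → ∀ x, f x⁻¹ = f x
  card : X.refls.card = T.N
  S_pos : 0 < T.S
  stat : ∀ j < T.h, T.cS j = true

end Rt

/-- the character table -/
structure Tb (T : TD) (X : Cox) extends Rt T X where
  cl : toRt.Cl
  χ : ℕ → X.W → ℂ
  irr : ∀ j < T.h, IsIrr (χ j)
  val : ∀ j < T.h, ∀ i < T.h, χ j (toRt.w i) = vC (T.ch j i)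
  all : ∀ f, IsIrr f → ∃ j < T.h, f = χ j
  om_eq : ∀ j < T.h, X.om (χ j) = T.ov j
  sg_eq : T.sg < T.h ∧ χ T.sg = X.sgn
  tw_eq : ∀ j < T.h, T.t2 j < T.h ∧ χ (T.t2 j) = fun w => X.sgn w * χ j w⁻¹

/-- the set of characters given by a mask -/
def Tb.cs {T : TD} {X : Cox} (τ : Tb T X) (S : ℕ) : Set (X.W → ℂ) :=
  {f | ∃ j < T.h, bit S j = true ∧ f = τ.χ j}

/-- the mask `S` describes a pure set -/
def PureAll (T : TD) (S : ℕ) : Prop := ∀ (X : Cox) (τ : Tb T X) (D : KD X), D.Pure (τ.cs S)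

/-- the fusion of classes -/
def EmbAll (T' T : TD) (E : ED) : Prop := ∀ (X : Cox) (τ : Tb T X),
  ∃ (Y : Cox) (τ' : Tb T' Y) (P : Par Y.toCox0 X.toCox0),
    ∀ i < T'.h, E.fj i < T.h ∧ IsConj (τ.w (E.fj i)) (P.ι (τ'.w i))

/-- `v` is the coefficient of `zeta K` at class `i` -/
def TopAll (T : TD) (K i v : ℕ) : Prop := i < T.h ∧ ∀ (X : Cox) (τ : Tb T X),
  IsCl (fun w => (X.zeta K).coeff w) → Rp v ((X.zeta K).coeff (τ.w i))

end

end Pool.Agent.P.MP_1a0ecf_al
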