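import Pool.Agent.P.MP_1a0ecf_al.Chr

/-! Package T0: characters of finite groups. -/

namespace Pool.Agent.P.MP_1a0ecf_al

open scoped Classical

noncomputable section

variable {W : Type} [Group W] [Fintype W]

namespace T0

variable {E F : Type} [AddCommGroup E] [Module ℂ E] [AddCommGroup F] [Module ℂ F]

/-- transport of a representation along a linear equivalence -/
def cj (e : E ≃ₗ[ℂ] F) (π : Representation ℂ W E) : Representation ℂ W F :=
  (e.conjRingEquiv : Module.End ℂ E ≃+* Module.End ℂ F).toMonoidHom.comp π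

omit [Fintype W] in
theorem cj_apply (e : E ≃ₗ[ℂ] F) (π : Representation ℂ W E) (w : W) (v : F) :
    cj e π w v = e (π w (e.symm v)) := rfl

omit [Fintype W] in
theorem cj_char (e : E ≃ₗ[ℂ] F) (π : Representation ℂ W E) : (cj e π).character = π.character := by
  funext w
  exact LinearMap.trace_conj' (π w) e

/-- the correspondence of subrepresentations -/
def cjIso (e : E ≃ₗ[ℂ] F) (π : Representation ℂ W E) :
    Subrepresentation (cj e π) ≃o Subrepresentation π where
  toFun p := ⟨p.toSubmodule.comap e.toLinearMap, fun w v hv => by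
    have := p.apply_mem_toSubmodule w hv
    simpa [cj_apply] using this⟩
  invFun p := ⟨p.toSubmodule.comap e.symm.toLinearMap, fun w v hv => by
    have := p.apply_mem_toSubmodule w hv
    simpa [cj_apply] using this⟩
  left_inv p := by ext v; simp
  right_inv p := by ext v; simp
  map_rel_iff' {p q} := by
    constructor
    · intro h v hv
      have h1 : e.symm v ∈ p.toSubmodule.comap e.toLinearMap := by
        have : v ∈ p.toSubmodule := hv
        simpa using this
      have h2 : e.symm v ∈ q.toSubmodule.comap e.toLinearMap := h h1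
      have h3 : v ∈ q.toSubmodule := by simpa using h2
      exact h3
    · intro h v hv
      exact h (show e v ∈ p from hv)

omit [Fintype W] in
theorem char_prod [FiniteDimensional ℂ E] [FiniteDimensional ℂ F] (π : Representation ℂ W E)
    (τ : Representation ℂ W F) : (π.prod τ).character = π.character + τ.character := by
  funext w
  exact LinearMap.trace_prodMap' (π w) (τ w)

omit [Fintype W] in
theorem char_compl [FiniteDimensional ℂ E] {π : Representation ℂ W E} {p q : Subrepresentation π}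
    (h : IsCompl p.toSubmodule q.toSubmodule) :
    π.character = p.toRepresentation.character + q.toRepresentation.character := by
  rw [← char_prod, ← cj_char (Submodule.prodEquivOfIsCompl _ _ h)]
  congr 1
  ext w v
  obtain ⟨⟨a, b⟩, rfl⟩ := (Submodule.prodEquivOfIsCompl _ _ h).surjective v
  rw [cj_apply, LinearEquiv.symm_apply_apply]
  simp [Subrepresentation.toRepresentation]

omit [Fintype W] in
theorem bot_sub (π : Representation ℂ W E) : (⊥ : Subrepresentation π).toSubmodule = ⊥ := rfl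

omit [Fintype W] in
theorem top_sub (π : Representation ℂ W E) : (⊤ : Subrepresentation π).toSubmodule = ⊤ := rfl

instance : Invertible (Nat.card W : ℂ) :=
  invertibleOfNonzero (Nat.cast_ne_zero.mpr Nat.card_pos.ne')

end T0

open T0

omit [Fintype W] in
theorem isCh_rep {E : Type} [AddCommGroup E] [Module ℂ E] [FiniteDimensional ℂ E]
    (π : Representation ℂ W E) : IsCh π.character :=
  ⟨_, cj (Module.finBasis ℂ E).equivFun π, (cj_char _ _).symm⟩

omit [Fintype W] in
theorem isIrr_rep {E : Type} [AddCommGroup E] [Module ℂ E] [FiniteDimensional ℂ E]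
    (π : Representation ℂ W E) (h : π.IsIrreducible) : IsIrr π.character :=
  ⟨_, cj (Module.finBasis ℂ E).equivFun π, (cjIso _ π).isSimpleOrder_iff.mpr h,
    (cj_char _ _).symm⟩

omit [Fintype W] in
theorem isCh_matrix {ι : Type} [Fintype ι] [DecidableEq ι] (ρ : W →* Matrix ι ι ℂ) :
    IsCh fun w => (ρ w).trace := by
  have h := isCh_rep (W := W) (E := ι → ℂ)
    ((Matrix.toLinAlgEquiv' : Matrix ι ι ℂ ≃ₐ[ℂ] _).toRingEquiv.toMonoidHom.comp ρ)
  convert h using 1
  funext w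
  exact (Matrix.trace_toLin'_eq (ρ w)).symm

omit [Fintype W] in
theorem isCh_perm {α : Type} [Fintype α] [DecidableEq α] (ρ : W →* Equiv.Perm α) :
    IsCh fun w => ((Finset.univ.filter fun a => ρ w a = a).card : ℂ) := by
  have h := isCh_matrix ((Matrix.permMatrixHom : Equiv.Perm α →* Matrix α α ℂ).comp ρ)
  convert h using 2 with w
  simp only [MonoidHom.comp_apply, Matrix.permMatrixHom_apply, Matrix.trace_permutation]
  rw [← Set.ncard_coe_finset]
  congr 2
  ext a
  simp only [Finset.coe_filter, Finset.mem_univ, true_and, Set.mem_ofPred_eq,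
    Function.mem_fixedPoints, Function.IsFixedPt, Equiv.Perm.inv_eq_iff_eq]
  exact eq_comm

omit [Fintype W] in
theorem isIrr_linear (f : W →* ℂ) : IsIrr f := by
  let π : Representation ℂ W ℂ := (algebraMap ℂ (Module.End ℂ ℂ)).toMonoidHom.comp f
  have h1 : π.character = f := by
    funext w
    simp [π, Representation.character, Module.algebraMap_end_eq_smul_id]
  rw [← h1]
  refine isIrr_rep π ?_
  have : Nontrivial (Subrepresentation π) := ⟨⊥, ⊤, fun h =>
    bot_ne_top (α := Submodule ℂ ℂ) (congrArg Subrepresentation.toSubmodule h)⟩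
  refine ⟨fun p => ?_⟩
  rcases eq_bot_or_eq_top p.toSubmodule with h | h
  · exact Or.inl (Subrepresentation.toSubmodule_injective h)
  · exact Or.inr (Subrepresentation.toSubmodule_injective h)

omit [Fintype W] in
theorem IsIrr.isCh {f : W → ℂ} (h : IsIrr f) : IsCh f :=
  let ⟨d, π, _, e⟩ := h; ⟨d, π, e⟩

omit [Fintype W] in
theorem IsCh.isCl {f : W → ℂ} (h : IsCh f) : IsCl f := by
  obtain ⟨d, π, rfl⟩ := h
  exact fun w u => π.char_conj w u

omit [Fintype W] in
theorem IsIrr.one {f : W → ℂ} (h : IsIrr f) : ∃ m : ℕ, 0 < m ∧ f 1 = m := by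
  obtain ⟨d, π, h, rfl⟩ := h
  refine ⟨_, ?_, π.char_one⟩
  have : Nontrivial (Submodule ℂ (Fin d → ℂ)) :=
    (Subrepresentation.toSubmodule_injective (ρ := π)).nontrivial
  have : Nontrivial (Fin d → ℂ) := (Submodule.nontrivial_iff ℂ).mp this
  exact Module.finrank_pos

omit [Fintype W] in
theorem IsIrr.one_ne {f : W → ℂ} (h : IsIrr f) : f 1 ≠ 0 := by
  obtain ⟨m, h1, h2⟩ := h.one
  rw [h2]
  exact Nat.cast_ne_zero.mpr h1.ne'

omit [Fintype W] in
theorem IsCh.add {f g : W → ℂ} (h : IsCh f) (h' : IsCh g) : IsCh (f + g) := by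
  obtain ⟨d, π, rfl⟩ := h
  obtain ⟨d', π', rfl⟩ := h'
  rw [← char_prod]
  exact isCh_rep _

omit [Fintype W] in
theorem IsCh.mul {f g : W → ℂ} (h : IsCh f) (h' : IsCh g) : IsCh (f * g) := by
  obtain ⟨d, π, rfl⟩ := h
  obtain ⟨d', π', rfl⟩ := h'
  rw [← Representation.char_tensor]
  exact isCh_rep _

omit [Fintype W] in
theorem T0.char_zero {E : Type} [AddCommGroup E] [Module ℂ E] [Subsingleton E]
    (π : Representation ℂ W E) : π.character = 0 := by
  funext w
  rw [Representation.character, Subsingleton.elim (π w) 0, map_zero]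
  rfl

omit [Fintype W] in
theorem T0.isCh_zero : IsCh (0 : W → ℂ) :=
  ⟨0, Representation.trivial ℂ W _, (char_zero _).symm⟩

omit [Fintype W] in
theorem IsCh.sum {α : Type} (s : Finset α) {f : α → W → ℂ} (h : ∀ a ∈ s, IsCh (f a)) :
    IsCh (∑ a ∈ s, f a) :=
  Finset.sum_induction f IsCh (fun _ _ => IsCh.add) isCh_zero h

omit [Fintype W] in
theorem IsCh.comp {W' : Type} [Group W'] {f : W → ℂ} (h : IsCh f) (ι : W' →* W) :
    IsCh (f ∘ ι) := by
  obtain ⟨d, π, rfl⟩ := h
  exact ⟨d, π.comp ι, rfl⟩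

theorem T0.list_rep (n : ℕ) : ∀ (E : Type) [AddCommGroup E] [Module ℂ E] [FiniteDimensional ℂ E]
    (π : Representation ℂ W E), Module.finrank ℂ E = n →
    ∃ l : List (W → ℂ), (∀ χ ∈ l, IsIrr χ) ∧ π.character = l.sum := by
  induction n using Nat.strong_induction_on with
  | _ n ih =>
  intro E _ _ _ π hn
  rcases subsingleton_or_nontrivial E with h0 | h0
  · exact ⟨[], by simp, char_zero π⟩
  by_cases hi : π.IsIrreducible
  · exact ⟨[π.character], by simpa using isIrr_rep π hi, by simp⟩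
  have : Nontrivial (Subrepresentation π) := ⟨⊥, ⊤, fun h =>
    bot_ne_top (α := Submodule ℂ E) (congrArg Subrepresentation.toSubmodule h)⟩
  obtain ⟨p, hp⟩ : ∃ p : Subrepresentation π, ¬(p = ⊥ ∨ p = ⊤) := by
    by_contra hc
    exact hi ⟨fun p => by_contra fun h => hc ⟨p, h⟩⟩
  have : NeZero (Nat.card W : ℂ) := ⟨Nat.cast_ne_zero.mpr Nat.card_pos.ne'⟩
  obtain ⟨q, hq⟩ := exists_isCompl p
  have hc : IsCompl p.toSubmodule q.toSubmodule := by
    refine ⟨disjoint_iff.mpr ?_, codisjoint_iff.mpr ?_⟩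
    · rw [← Subrepresentation.toSubmodule_inf, hq.inf_eq_bot, bot_sub]
    · rw [← Subrepresentation.toSubmodule_sup, hq.sup_eq_top, top_sub]
  have p1 : p.toSubmodule ≠ ⊤ := fun h => hp (Or.inr (Subrepresentation.toSubmodule_injective h))
  have q1 : q.toSubmodule ≠ ⊤ := fun h => hp (Or.inl (Subrepresentation.toSubmodule_injective
    (by rw [h] at hc; exact eq_bot_of_isCompl_top hc)))
  obtain ⟨l, l1, l2⟩ := ih _ (hn ▸ Submodule.finrank_lt p1) _ p.toRepresentation rfl
  obtain ⟨m, m1, m2⟩ := ih _ (hn ▸ Submodule.finrank_lt q1) _ q.toRepresentation rfl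
  refine ⟨l ++ m, fun χ h => (List.mem_append.mp h).elim (l1 χ) (m1 χ), ?_⟩
  rw [char_compl hc, l2, m2, List.sum_append]

theorem IsCh.exists_list {f : W → ℂ} (h : IsCh f) :
    ∃ l : List (W → ℂ), (∀ χ ∈ l, IsIrr χ) ∧ f = l.sum := by
  obtain ⟨d, π, rfl⟩ := h
  exact list_rep _ _ π rfl

theorem ip_comm (f g : W → ℂ) : ip f g = ip g f := by
  unfold ip
  rw [← Equiv.sum_comp (Equiv.inv W)]
  simp [mul_comm]

theorem ip_add (f f' g : W → ℂ) : ip (f + f') g = ip f g + ip f' g := by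
  simp [ip, add_mul, Finset.sum_add_distrib, mul_add]

theorem ip_smul (c : ℂ) (f g : W → ℂ) : ip (c • f) g = c * ip f g := by
  simp only [ip, Pi.smul_apply, smul_eq_mul, mul_assoc, ← Finset.mul_sum]
  ring

theorem T0.ip_zero (g : W → ℂ) : ip 0 g = 0 := by simp [ip]

theorem ip_sum {α : Type} (s : Finset α) (f : α → W → ℂ) (g : W → ℂ) :
    ip (∑ a ∈ s, f a) g = ∑ a ∈ s, ip (f a) g := by
  induction s using Finset.induction_on with
  | empty => simp [ip_zero]
  | insert a s ha ih => rw [Finset.sum_insert ha, Finset.sum_insert ha, ip_add, ih]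

theorem IsIrr.ip_eq {f g : W → ℂ} (h : IsIrr f) (h' : IsIrr g) :
    ip f g = if f = g then 1 else 0 := by
  obtain ⟨d, π, hπ, rfl⟩ := h
  obtain ⟨d', π', hπ', rfl⟩ := h'
  split_ifs with e
  · rw [← e]
    exact (π.char_orthonormal π).trans (if_pos ⟨Representation.Equiv.refl π⟩)
  · exact (π.char_orthonormal π').trans
      (if_neg fun ⟨φ⟩ => e (Representation.char_iso φ).symm)

theorem IsCh.ip_nat {f g : W → ℂ} (h : IsCh f) (h' : IsCh g) : ∃ m : ℕ, ip f g = m := by
  obtain ⟨d, π, rfl⟩ := h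
  obtain ⟨d', π', rfl⟩ := h'
  exact ⟨_, Representation.card_inv_mul_sum_char_mul_char_eq_finrank π' π⟩

theorem T0.ip_add_ne {f f' g : W → ℂ} (h : IsCh f) (h' : IsCh f') (hg : IsCh g) :
    ip (f + f') g ≠ 0 ↔ ip f g ≠ 0 ∨ ip f' g ≠ 0 := by
  obtain ⟨m, hm⟩ := h.ip_nat hg
  obtain ⟨n, hn⟩ := h'.ip_nat hg
  rw [ip_add, hm, hn, ← Nat.cast_add, Nat.cast_ne_zero, Nat.cast_ne_zero, Nat.cast_ne_zero]
  omega

omit [Fintype W] in
theorem T0.isCh_list {l : List (W → ℂ)} (h : ∀ χ ∈ l, IsIrr χ) : IsCh l.sum :=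
  List.sum_induction IsCh (fun _ _ => IsCh.add) isCh_zero fun χ hχ => (h χ hχ).isCh

theorem T0.ip_list {l : List (W → ℂ)} (h : ∀ χ ∈ l, IsIrr χ) {g : W → ℂ} (hg : IsCh g) :
    ip l.sum g ≠ 0 ↔ ∃ χ ∈ l, ip χ g ≠ 0 := by
  induction l with
  | nil => simp [ip_zero]
  | cons a l ih =>
    have h2 : ∀ χ ∈ l, IsIrr χ := fun χ hχ => h χ (List.mem_cons_of_mem _ hχ)
    rw [List.sum_cons, ip_add_ne (h a List.mem_cons_self).isCh (isCh_list h2) hg, ih h2]
    simp

theorem T0.ip_mem {l : List (W → ℂ)} (h : ∀ χ ∈ l, IsIrr χ) {g : W → ℂ} (hg : IsIrr g) :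
    ip l.sum g ≠ 0 ↔ g ∈ l := by
  rw [ip_list h hg.isCh]
  constructor
  · rintro ⟨χ, h1, h2⟩
    rw [(h χ h1).ip_eq hg] at h2
    have : χ = g := by_contra fun e => h2 (if_neg e)
    exact this ▸ h1
  · intro h1
    exact ⟨g, h1, by rw [hg.ip_eq hg, if_pos rfl]; exact one_ne_zero⟩

theorem IsCh.ip_ne_zero_iff {f g : W → ℂ} (h : IsCh f) (h' : IsCh g) :
    ip f g ≠ 0 ↔ ∃ χ, IsIrr χ ∧ ip f χ ≠ 0 ∧ ip g χ ≠ 0 := by
  obtain ⟨l, hl, rfl⟩ := h.exists_list
  rw [ip_list hl h']
  constructor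
  · rintro ⟨χ, h1, h2⟩
    exact ⟨χ, hl χ h1, (ip_mem hl (hl χ h1)).mpr h1, by rwa [ip_comm]⟩
  · rintro ⟨χ, h1, h2, h3⟩
    exact ⟨χ, (ip_mem hl h1).mp h2, by rwa [ip_comm]⟩

theorem ip_sum_ne_zero {α : Type} (s : Finset α) {f : α → W → ℂ} (h : ∀ a ∈ s, IsCh (f a))
    {g : W → ℂ} (hg : IsCh g) : ip (∑ a ∈ s, f a) g ≠ 0 ↔ ∃ a ∈ s, ip (f a) g ≠ 0 := by
  induction s using Finset.induction_on with
  | empty => simp [ip_zero]
  | insert a s ha ih =>
    have h2 : ∀ b ∈ s, IsCh (f b) := fun b hb => h b (Finset.mem_insert_of_mem hb)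
    rw [Finset.sum_insert ha, ip_add_ne (h a (Finset.mem_insert_self _ _)) (IsCh.sum s h2) hg,
      ih h2]
    simp

theorem IsCh.exists_irr {f : W → ℂ} (h : IsCh f) (h1 : f 1 ≠ 0) :
    ∃ χ, IsIrr χ ∧ ip f χ ≠ 0 := by
  obtain ⟨l, hl, rfl⟩ := h.exists_list
  obtain ⟨χ, hχ⟩ := List.exists_mem_of_ne_nil l (by rintro rfl; exact h1 rfl)
  exact ⟨χ, hl χ hχ, (ip_mem hl (hl χ hχ)).mpr hχ⟩

theorem exists_hom_iff {E F : Type} [AddCommGroup E] [Module ℂ E] [FiniteDimensional ℂ E]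
    [AddCommGroup F] [Module ℂ F] [FiniteDimensional ℂ F] (π : Representation ℂ W E)
    (τ : Representation ℂ W F) :
    (∃ f : E →ₗ[ℂ] F, f ≠ 0 ∧ ∀ w v, f (π w v) = τ w (f v)) ↔ ip τ.character π.character ≠ 0 := by
  have e : ip τ.character π.character = _ :=
    Representation.card_inv_mul_sum_char_mul_char_eq_finrank π τ
  rw [e, Nat.cast_ne_zero, ← Nat.pos_iff_ne_zero, Module.finrank_pos_iff_exists_ne_zero]
  constructor
  · rintro ⟨f, h1, h2⟩
    exact ⟨f.intertwiningMap_of_isIntertwiningMap π τ h2, fun h =>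
      h1 (congrArg Representation.IntertwiningMap.toLinearMap h)⟩
  · rintro ⟨f, h1⟩
    exact ⟨f.toLinearMap, fun h => h1 (Representation.IntertwiningMap.ext h),
      fun w v => f.isIntertwining π τ w v⟩

theorem IsCh.vc {f : W → ℂ} (h : IsCh f) : VC f := by
  obtain ⟨l, hl, rfl⟩ := h.exists_list
  exact AddSubgroup.list_sum_mem _ fun χ hχ => AddSubgroup.subset_closure (hl χ hχ)

omit [Fintype W] in
theorem VC.isCl {f : W → ℂ} (h : VC f) : IsCl f := by
  induction h using AddSubgroup.closure_induction with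
  | mem χ hχ => exact (IsIrr.isCh hχ).isCl
  | zero => exact fun _ _ => rfl
  | add f g _ _ hf hg => exact fun w u => by rw [Pi.add_apply, Pi.add_apply, hf, hg]
  | neg f _ hf => exact fun w u => by rw [Pi.neg_apply, Pi.neg_apply, hf]

theorem VC.mul {f g : W → ℂ} (h : VC f) (h' : VC g) : VC (f * g) := by
  induction h using AddSubgroup.closure_induction with
  | mem χ hχ =>
    induction h' using AddSubgroup.closure_induction with
    | mem ψ hψ => exact ((IsIrr.isCh hχ).mul (IsIrr.isCh hψ)).vc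
    | zero => rw [mul_zero]; exact zero_mem _
    | add f g _ _ hf hg => rw [mul_add]; exact add_mem hf hg
    | neg f _ hf => rw [mul_neg]; exact neg_mem hf
  | zero => rw [zero_mul]; exact zero_mem _
  | add f g _ _ hf hg => rw [add_mul]; exact add_mem hf hg
  | neg f _ hf => rw [neg_mul]; exact neg_mem hf

omit [Fintype W] in
theorem VC.exists_sum {f : W → ℂ} (h : VC f) : ∃ (s : Finset (W → ℂ)) (c : (W → ℂ) → ℤ),
    (∀ χ ∈ s, IsIrr χ) ∧ f = ∑ χ ∈ s, (c χ : ℂ) • χ := by
  have h1 : f ∈ Submodule.span ℤ {χ : W → ℂ | IsIrr χ} := by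
    rw [← Submodule.mem_toAddSubgroup, Submodule.span_int_eq_addSubgroupClosure]
    exact h
  obtain ⟨c, s, h2, -, h3⟩ := Submodule.mem_span_iff_exists_finset_subset.mp h1
  refine ⟨s, c, fun χ hχ => h2 hχ, ?_⟩
  rw [← h3]
  exact Finset.sum_congr rfl fun χ _ => (Int.cast_smul_eq_zsmul ℂ _ _).symm

theorem VC.isIrr {f : W → ℂ} (h : VC f) (h1 : ip f f = 1) (h0 : 0 < (f 1).re) : IsIrr f := by
  obtain ⟨s, c, hs, e⟩ := h.exists_sum
  have k1 : ∀ ψ ∈ s, ip f ψ = c ψ := fun ψ hψ => by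
    rw [e, ip_sum, Finset.sum_eq_single ψ]
    · rw [ip_smul, (hs ψ hψ).ip_eq (hs ψ hψ), if_pos rfl, mul_one]
    · intro χ hχ hne
      rw [ip_smul, (hs χ hχ).ip_eq (hs ψ hψ), if_neg hne, mul_zero]
    · exact fun h => absurd hψ h
  have k2 : ∑ χ ∈ s, c χ * c χ = 1 := by
    have : ip (∑ χ ∈ s, (c χ : ℂ) • χ) f = 1 := e ▸ h1
    rw [ip_sum, Finset.sum_congr rfl fun χ hχ => by rw [ip_smul, ip_comm, k1 χ hχ]] at this
    exact_mod_cast this
  obtain ⟨χ, hχ, hc⟩ := Finset.exists_ne_zero_of_sum_ne_zero (k2 ▸ one_ne_zero)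
  rw [← Finset.add_sum_erase _ _ hχ] at k2
  have k3 : 0 ≤ ∑ ψ ∈ s.erase χ, c ψ * c ψ := Finset.sum_nonneg fun ψ _ => mul_self_nonneg _
  have k4 : 0 < c χ * c χ := lt_of_le_of_ne (mul_self_nonneg _) hc.symm
  have k5 : ∑ ψ ∈ s.erase χ, c ψ * c ψ = 0 := by omega
  have k6 : c χ * c χ = 1 := by omega
  rw [Finset.sum_eq_zero_iff_of_nonneg fun ψ _ => mul_self_nonneg _] at k5
  rw [Finset.sum_eq_single_of_mem χ hχ fun ψ hψ hne => by
    rw [mul_self_eq_zero.mp (k5 ψ (Finset.mem_erase.mpr ⟨hne, hψ⟩))]; simp] at e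
  rcases Int.eq_one_or_neg_one_of_mul_eq_one k6 with h2 | h2
  · rw [e, h2, Int.cast_one, one_smul]
    exact hs χ hχ
  · obtain ⟨m, m1, m2⟩ := (hs χ hχ).one
    rw [e, h2, Pi.smul_apply, m2] at h0
    have : (0 : ℝ) ≤ m := Nat.cast_nonneg m
    simp at h0
    linarith

theorem IsIrr.twist {χ : W → ℂ} (h : IsIrr χ) (ε : W →* ℂ) (hε : ∀ w, ε w⁻¹ = ε w) :
    IsIrr fun w => ε w * χ w⁻¹ := by
  have h1 : IsCh fun w => χ w⁻¹ := by
    obtain ⟨d, π, -, rfl⟩ := h
    have := isCh_rep π.dual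
    rwa [show π.dual.character = fun w => π.character w⁻¹ from funext π.char_dual] at this
  refine ((isIrr_linear ε).isCh.mul h1).vc.isIrr ?_ ?_
  · have h2 : ip χ χ = 1 := by rw [h.ip_eq h, if_pos rfl]
    rw [← h2]
    unfold ip
    congr 1
    refine Finset.sum_congr rfl fun w _ => ?_
    have h3 : ε w * ε w⁻¹ = 1 := by rw [← map_mul, mul_inv_cancel, map_one]
    simp only [Pi.mul_apply, inv_inv]
    linear_combination χ w * χ w⁻¹ * h3
  · obtain ⟨m, m1, m2⟩ := h.one
    simp only [Pi.mul_apply, map_one, inv_one, one_mul, m2, Complex.natCast_re]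
    exact_mod_cast m1

end

end Pool.Agent.P.MP_1a0ecf_al
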